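import Pool.Agent.Lib.MP_c35c17_an.LBlue

/-! Cycles outside the disc of radius two, and finiteness of parabolic parameters. -/

set_option autoImplicit false

open Filter Topology Set Metric Complex Bornology N62a1eb23
open scoped Real

namespace Pool.Agent.Lib.MP_c35c17_an.L

namespace F2G

theorem step_ge (n : ℕ) (c y : ℂ) : ‖y‖ ^ n - ‖c‖ ≤ ‖y ^ n + c‖ ∧ ‖c‖ - ‖y‖ ^ n ≤ ‖y ^ n + c‖ := by
  have h1 : ‖y ^ n‖ ≤ ‖y ^ n + c‖ + ‖c‖ := by simpa using norm_sub_le (y ^ n + c) c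
  have h2 : ‖c‖ ≤ ‖y ^ n + c‖ + ‖y ^ n‖ := by simpa using norm_sub_le (y ^ n + c) (y ^ n)
  rw [norm_pow] at h1 h2
  constructor <;> linarith

theorem per_le {n k : ℕ} {c z : ℂ} {b : ℝ} (hb : ∀ y : ℂ, b < ‖y‖ → ‖y‖ < ‖y ^ n + c‖) (hk : 0 < k)
    (hz : (F n c)^[k] z = z) (j : ℕ) : ‖(F n c)^[j] z‖ ≤ b := by
  refine not_lt.mp fun h => ?_
  have h1 : ∀ m, ‖(F n c)^[j] z‖ < ‖(F n c)^[j + m + 1] z‖ := fun m => by
    induction m with
    | zero => rw [iter_succ]; exact hb _ h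
    | succ m ih => rw [← add_assoc, iter_succ]; exact ih.trans (hb _ (h.trans ih))
  have h2 := h1 (k - 1)
  rw [add_assoc, Nat.sub_add_cancel hk, Function.iterate_add_apply, hz] at h2
  exact lt_irrefl _ h2

theorem le_prod {k : ℕ} (hk : 0 < k) {g : ℕ → ℝ} (h : ∀ j, 6 / 5 ≤ g j) :
    6 / 5 ≤ ∏ j ∈ Finset.range k, g j := by
  have h1 : ∏ _j ∈ Finset.range k, (6 / 5 : ℝ) ≤ ∏ j ∈ Finset.range k, g j :=
    Finset.prod_le_prod (fun _ _ => by norm_num) fun j _ => h j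
  rw [Finset.prod_const, Finset.card_range] at h1
  exact (le_self_pow₀ (by norm_num) hk.ne').trans h1

theorem two (k : ℕ) (c z : ℂ) (hc : 2 ≤ ‖c‖) (hk : 0 < k) (hz : (F 2 c)^[k] z = z) :
    6 / 5 ≤ ‖dF 2 c k z‖ := by
  set C := ‖c‖ with hC
  set q := √(1 + 4 * C) with hq
  have hq2 : q ^ 2 = 1 + 4 * C := Real.sq_sqrt (by linarith)
  have hq0 : 0 ≤ q := Real.sqrt_nonneg _
  have hq3 : 3 ≤ q := by nlinarith
  set b := (1 + q) / 2 with hb
  have hb2 : b ^ 2 = b + C := by rw [hb]; nlinarith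
  have hb3 : 2 ≤ b := by rw [hb]; linarith
  have hbC : b ≤ C := by nlinarith
  have hle := per_le (n := 2) (c := c) (b := b) (fun y hy => by
    have := (step_ge 2 c y).1
    nlinarith) hk hz
  set r : ℕ → ℝ := fun j => ‖(F 2 c)^[j] z‖ with hr
  have hr0 : ∀ j, 0 ≤ r j := fun j => norm_nonneg _
  have hrb : ∀ j, r j ^ 2 ≤ b ^ 2 := fun j => pow_le_pow_left₀ (hr0 j) (hle j) 2
  have hstep : ∀ j, b ^ 2 - r (j + 1) ^ 2 ≤ (b ^ 2 - r j ^ 2) * r j ^ 2 := fun j => by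
    obtain ⟨h1, h2⟩ := step_ge 2 c ((F 2 c)^[j] z)
    rw [← iter_succ] at h1 h2
    have h3 : (C - r j ^ 2) ^ 2 ≤ r (j + 1) ^ 2 := sq_le_sq' (by simp only [hr]; linarith) h2
    nlinarith [mul_nonneg (sub_nonneg.2 hbC) (sub_nonneg.2 (hrb j))]
  have hind : ∀ m, b ^ 2 - r m ^ 2 ≤ (b ^ 2 - r 0 ^ 2) * (∏ j ∈ Finset.range m, r j) ^ 2 :=
    fun m => by
      induction m with
      | zero => simp
      | succ m ih =>
        rw [Finset.prod_range_succ, mul_pow, ← mul_assoc]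
        exact (hstep m).trans (mul_le_mul_of_nonneg_right ih (sq_nonneg _))
  have hP : 1 ≤ ∏ j ∈ Finset.range k, r j := by
    rcases (sub_nonneg.2 (hrb 0)).eq_or_lt with h0 | h0
    · refine (Finset.prod_const_one (s := Finset.range k)).ge.trans
        (Finset.prod_le_prod (fun _ _ => zero_le_one) fun j _ => ?_)
      have h1 := hind j
      rw [← h0, zero_mul] at h1
      nlinarith [hr0 j]
    · have h1 := hind k
      have h2 : r k = r 0 := by simp only [hr, hz, Function.iterate_zero, id]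
      rw [h2] at h1
      have h3 : 1 ≤ (∏ j ∈ Finset.range k, r j) ^ 2 := by
        by_contra h3
        nlinarith
      exact (one_le_sq_iff₀ (Finset.prod_nonneg fun j _ => hr0 j)).1 h3
  have h4 : ‖dF 2 c k z‖ = 2 ^ k * ∏ j ∈ Finset.range k, r j := by
    simp [dF, Finset.prod_mul_distrib, hr]
  have h5 : (2 : ℝ) ≤ 2 ^ k := le_self_pow₀ (by norm_num) hk.ne'
  rw [h4]
  nlinarith

theorem three {n : ℕ} (hn : 3 ≤ n) (k : ℕ) (c z : ℂ) (hc : 2 ≤ ‖c‖) (hk : 0 < k)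
    (hz : (F n c)^[k] z = z) : 6 / 5 ≤ ‖dF n c k z‖ := by
  have hle := per_le (n := n) (c := c) (b := 4 / 5 * ‖c‖) (fun y hy => by
    have h1 := (step_ge n c y).1
    have h2 : ‖y‖ ^ 3 ≤ ‖y‖ ^ n := pow_le_pow_right₀ (by linarith) hn
    have h3 : 64 / 25 ≤ ‖y‖ ^ 2 := by nlinarith
    nlinarith) hk hz
  have hn' : (3 : ℝ) ≤ n := by exact_mod_cast hn
  rw [dF, norm_prod]
  refine le_prod hk fun j => ?_
  have h1 := (step_ge n c ((F n c)^[j] z)).2
  rw [← iter_succ] at h1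
  have h2 := hle (j + 1)
  rw [norm_mul, norm_pow, Complex.norm_natCast]
  rcases le_total 1 ‖(F n c)^[j] z‖ with h3 | h3
  · nlinarith [one_le_pow₀ (n := n - 1) h3]
  · have h4 := pow_le_pow_of_le_one (norm_nonneg _) h3 (Nat.sub_le n 1)
    nlinarith

end F2G

theorem f2 {n : ℕ} (hn : 2 ≤ n) : St_F2 n := fun k c z hc hk hz => by
  rcases hn.eq_or_lt with rfl | h
  · exact F2G.two k c z hc hk hz
  · exact F2G.three h k c z hc hk hz

theorem gg {n : ℕ} (hn : 2 ≤ n) : St_G n := fun k hk => by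
  obtain ⟨s, -, hs2, hs3⟩ := Q.exists_res hn hk
  have h2 : s 0 1 ≠ 0 := fun h2 => by
    obtain ⟨w, h3, h4⟩ := (hs3 0 1).mp h2
    have h5 : ∀ j, ‖(F n 0)^[j] w‖ = ‖w‖ ^ n ^ j := fun j => by
      induction j with
      | zero => simp
      | succ j ih => rw [iter_succ, add_zero, norm_pow, ih, ← pow_mul, pow_succ]
    have h6 := h5 k
    rw [h3] at h6
    have h1 : 1 = ‖dF n 0 k w‖ := by rw [h4, norm_one]
    rw [dF, norm_prod] at h1
    simp only [norm_mul, norm_pow, h5, Complex.norm_natCast] at h1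
    rcases Q.pow_eq_self_iff_of_nonneg_aux (norm_nonneg w) (Nat.one_lt_pow hk.ne' hn) h6 with
      h7 | h7
    · rw [Finset.prod_eq_zero (Finset.mem_range.mpr hk) (by simp [h7]; omega)] at h1
      exact one_ne_zero h1
    · simp only [h7, one_pow, mul_one, Finset.prod_const, Finset.card_range] at h1
      exact absurd h1 (one_lt_pow₀ (by exact_mod_cast hn) hk.ne').ne
  have h3 := ((hs2 1).differentiableOn.analyticOnNhd isOpen_univ).preimage_zero_mem_codiscreteWithin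
    h2 (mem_univ 0) isConnected_univ
  refine ((isCompact_closedBall (0 : ℂ) 2).finite_sdiff_of_mem_codiscreteWithin
    (codiscreteWithin_mono (subset_univ _) h3)).subset ?_
  rintro c ⟨hc, hc'⟩
  exact ⟨mem_closedBall_zero_iff.2 hc, fun h => h ((hs3 c 1).2 hc')⟩

end Pool.Agent.Lib.MP_c35c17_an.L
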