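import Mathlib

set_option autoImplicit false

open Filter Topology Set Metric Complex
open scoped ComplexConjugate

namespace Pool.Agent.Lib.MP_c35c17_an.Q

theorem exists_zero_of_norm_lt {h : ℂ → ℂ} {z : ℂ} {r m : ℝ} (hr : 0 < r)
    (hd : DiffContOnCl ℂ h (ball z r)) (hm : ∀ w ∈ sphere z r, m ≤ ‖h w‖) (hz : ‖h z‖ < m) :
    ∃ w ∈ ball z r, h w = 0 := by
  by_contra hne
  push Not at hne
  have hm0 : 0 < m := (norm_nonneg _).trans_lt hz
  have h0 : ∀ w ∈ closure (ball z r), h w ≠ 0 := by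
    intro w hw
    rw [closure_ball z hr.ne', ← ball_union_sphere] at hw
    rcases hw with hw | hw
    · exact hne w hw
    · exact norm_pos_iff.mp (hm0.trans_le (hm w hw))
  have h1 := norm_le_of_forall_mem_frontier_norm_le (isBounded_ball (x := z) (r := r))
    (hd.inv h0) (C := m⁻¹) (fun w hw => by
      rw [frontier_ball z hr.ne'] at hw
      simp only [Pi.inv_apply, norm_inv]
      exact inv_anti₀ hm0 (hm w hw)) (subset_closure (mem_ball_self hr))
  simp only [Pi.inv_apply, norm_inv] at h1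
  have h2 := norm_pos_iff.mpr (hne z (mem_ball_self hr))
  exact absurd ((inv_le_inv₀ h2 hm0).mp h1) (not_le.mpr hz)

theorem isOpen_image_of_injOn {U : Set ℂ} (hU : IsOpen U) {F : ℂ → ℂ}
    (hd : DifferentiableOn ℂ F U) (hi : InjOn F U) : ∀ s ⊆ U, IsOpen s → IsOpen (F '' s) := by
  intro s hs ho
  refine isOpen_iff_mem_nhds.mpr ?_
  rintro _ ⟨z, hz, rfl⟩
  rcases (hd.analyticAt (hU.mem_nhds (hs hz))).eventually_constant_or_nhds_le_map_nhds with h | h
  · exfalso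
    have h1 : ∀ᶠ w in 𝓝[≠] z, w = z := by
      filter_upwards [mem_nhdsWithin_of_mem_nhds h, mem_nhdsWithin_of_mem_nhds (hU.mem_nhds (hs hz))]
        with w h1 h2
      exact hi h2 (hs hz) h1
    obtain ⟨w, h1, h2⟩ := (h1.and self_mem_nhdsWithin).exists
    exact h2 h1
  · exact h (image_mem_map (ho.mem_nhds hz))

theorem differentiableOn_invFunOn {U : Set ℂ} (hU : IsOpen U) {F : ℂ → ℂ}
    (hd : DifferentiableOn ℂ F U) (hi : InjOn F U) (h0 : ∀ z ∈ U, deriv F z ≠ 0) :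
    DifferentiableOn ℂ (Function.invFunOn F U) (F '' U) := by
  rintro _ ⟨z, hz, rfl⟩
  have hop := isOpen_image_of_injOn hU hd hi
  have e : Function.invFunOn F U (F z) = z := hi.leftInvOn_invFunOn hz
  have hc : ContinuousAt (Function.invFunOn F U) (F z) := by
    rw [ContinuousAt, e]
    intro s hs
    obtain ⟨t, hts, ht, hzt⟩ := _root_.mem_nhds_iff.mp (inter_mem hs (hU.mem_nhds hz))
    refine mem_map.mpr (mem_of_superset
      ((hop t (hts.trans inter_subset_right) ht).mem_nhds (mem_image_of_mem F hzt)) ?_)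
    rintro _ ⟨w, hw, rfl⟩
    rw [mem_preimage, hi.leftInvOn_invFunOn (hts hw).2]
    exact (hts hw).1
  refine (HasDerivAt.of_local_left_inverse (f := F) (f' := deriv F z) hc ?_ (h0 z hz)
    ?_).differentiableAt.differentiableWithinAt
  · rw [e]
    exact (hd.differentiableAt (hU.mem_nhds hz)).hasDerivAt
  · filter_upwards [(hop U subset_rfl hU).mem_nhds (mem_image_of_mem F hz)] with y hy
    exact Function.invFunOn_eq hy

/-- The disc automorphism sending `a` to `0`. -/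
noncomputable def mob (a z : ℂ) : ℂ := (z - a) / (1 - conj a * z)

theorem mob_den_norm (a z : ℂ) : 1 - ‖a‖ * ‖z‖ ≤ ‖1 - conj a * z‖ := by
  have := norm_sub_norm_le (1 : ℂ) (conj a * z)
  simpa using this

theorem mob_den_ne {a z : ℂ} (ha : ‖a‖ < 1) (hz : ‖z‖ ≤ 1) : 1 - conj a * z ≠ 0 := by
  refine norm_pos_iff.mp (lt_of_lt_of_le ?_ (mob_den_norm a z))
  nlinarith [norm_nonneg a, norm_nonneg z]

theorem mob_den_sq (a z : ℂ) :
    ‖1 - conj a * z‖ ^ 2 - ‖z - a‖ ^ 2 = (1 - ‖a‖ ^ 2) * (1 - ‖z‖ ^ 2) := by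
  simp only [← normSq_eq_norm_sq, normSq_apply, sub_re, sub_im, mul_re, mul_im, conj_re, conj_im,
    one_re, one_im]
  ring

theorem mob_norm_sq {a z : ℂ} (ha : ‖a‖ < 1) (hz : ‖z‖ ≤ 1) :
    1 - ‖mob a z‖ ^ 2 = (1 - ‖a‖ ^ 2) * (1 - ‖z‖ ^ 2) / ‖1 - conj a * z‖ ^ 2 := by
  have h := norm_pos_iff.mpr (mob_den_ne ha hz)
  rw [mob, norm_div, ← mob_den_sq, div_pow, sub_div, div_self (by positivity)]

theorem mob_lt {a z : ℂ} (ha : ‖a‖ < 1) (hz : ‖z‖ < 1) : ‖mob a z‖ < 1 := by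
  have h := norm_pos_iff.mpr (mob_den_ne ha hz.le)
  have h1 := mob_norm_sq ha hz.le
  have h2 : 0 < (1 - ‖a‖ ^ 2) * (1 - ‖z‖ ^ 2) / ‖1 - conj a * z‖ ^ 2 := by
    have := norm_nonneg a
    have := norm_nonneg z
    exact div_pos (mul_pos (by nlinarith) (by nlinarith)) (by positivity)
  nlinarith [norm_nonneg (mob a z)]

theorem mob_le {a z : ℂ} (ha : ‖a‖ < 1) (hz : ‖z‖ ≤ 1) : ‖mob a z‖ ≤ 1 := by
  have h1 := mob_norm_sq ha hz
  have h2 : 0 ≤ (1 - ‖a‖ ^ 2) * (1 - ‖z‖ ^ 2) / ‖1 - conj a * z‖ ^ 2 := by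
    have := norm_nonneg a
    have := norm_nonneg z
    exact div_nonneg (mul_nonneg (by nlinarith) (by nlinarith)) (by positivity)
  nlinarith [norm_nonneg (mob a z)]

theorem mob_mapsTo {a : ℂ} (ha : ‖a‖ < 1) : MapsTo (mob a) (ball 0 1) (ball 0 1) := fun _ hz =>
  mem_ball_zero_iff.mpr (mob_lt ha (mem_ball_zero_iff.mp hz))

theorem one_sub_conj_mul (a : ℂ) : 1 - conj a * a = ((1 - ‖a‖ ^ 2 : ℝ) : ℂ) := by
  rw [conj_mul']; push_cast; ring

theorem mob_neg_mob {a z : ℂ} (ha : ‖a‖ < 1) (hz : ‖z‖ ≤ 1) : mob (-a) (mob a z) = z := by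
  have h := mob_den_ne ha hz
  have h1 := mob_den_ne ha ha.le
  have h2 : 1 - conj (-a) * mob a z = (1 - conj a * a) / (1 - conj a * z) := by
    rw [mob, map_neg]; field_simp; ring
  rw [mob, h2, mob, div_eq_iff (div_ne_zero h1 h), sub_neg_eq_add, div_add' _ _ _ h,
    mul_div_assoc']
  congr 1
  ring

theorem mob_mob_neg {a z : ℂ} (ha : ‖a‖ < 1) (hz : ‖z‖ ≤ 1) : mob a (mob (-a) z) = z := by
  simpa using mob_neg_mob (a := -a) (by simpa using ha) hz

@[simp] theorem mob_self (a : ℂ) : mob a a = 0 := by simp [mob]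

@[simp] theorem mob_zero (a : ℂ) : mob a 0 = -a := by simp [mob]

theorem hasDerivAt_mob {a z : ℂ} (ha : ‖a‖ < 1) (hz : ‖z‖ ≤ 1) :
    HasDerivAt (mob a) ((1 - conj a * a) / (1 - conj a * z) ^ 2) z := by
  have h := mob_den_ne ha hz
  have h1 := ((hasDerivAt_id z).sub_const a).fun_div
    (((hasDerivAt_id z).const_mul (conj a)).const_sub 1) h
  refine h1.congr_deriv ?_
  simp only [id]
  congr 1
  ring

theorem mob_diff {a : ℂ} (ha : ‖a‖ < 1) : DifferentiableOn ℂ (mob a) (ball 0 1) := fun _ hz =>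
  (hasDerivAt_mob ha (mem_ball_zero_iff.mp hz).le).differentiableAt.differentiableWithinAt

theorem schwarz_pick {H : ℂ → ℂ} (hd : DifferentiableOn ℂ H (ball 0 1))
    (hm : ∀ w ∈ ball (0 : ℂ) 1, ‖H w‖ ≤ 1) :
    (∀ w ∈ ball (0 : ℂ) 1, (1 - ‖w‖) * ‖H w - H 0‖ ≤ ‖w‖ * (1 - ‖H 0‖ ^ 2)) ∧
      ‖deriv H 0‖ ≤ 1 - ‖H 0‖ ^ 2 := by
  have h00 : (0 : ℂ) ∈ ball (0 : ℂ) 1 := mem_ball_self one_pos
  rcases (hm 0 h00).eq_or_lt with h1 | h1
  · have hc := eqOn_of_isPreconnected_of_isMaxOn_norm (convex_ball (0 : ℂ) 1).isPreconnected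
      isOpen_ball hd h00 (fun w hw => by simpa [h1] using hm w hw)
    have he : H =ᶠ[𝓝 0] fun _ => H 0 := eventually_of_mem (isOpen_ball.mem_nhds h00) hc
    refine ⟨fun w hw => ?_, by rw [he.deriv_eq, h1]; simp⟩
    rw [show H w = H 0 from hc hw, h1]
    simp
  have hg : DifferentiableOn ℂ (fun w => mob (H 0) (H w)) (ball 0 1) := fun w hw =>
    (hasDerivAt_mob h1 (hm w hw)).differentiableAt.comp_differentiableWithinAt w (hd w hw)
  have hmaps : MapsTo (fun w => mob (H 0) (H w)) (ball 0 1) (closedBall (mob (H 0) (H 0)) 1) :=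
    fun w hw => by simpa using mob_le h1 (hm w hw)
  have hp : 0 < 1 - ‖H 0‖ ^ 2 := by nlinarith [norm_nonneg (H 0)]
  refine ⟨fun w hw => ?_, ?_⟩
  · have h2 := dist_le_dist_of_mapsTo_ball hg hmaps hw
    rw [mob_self, dist_zero_right, dist_zero_right, mob, norm_div,
      div_le_iff₀ (norm_pos_iff.mpr (mob_den_ne h1 (hm w hw)))] at h2
    have h3 : ‖1 - conj (H 0) * H w‖ ≤ (1 - ‖H 0‖ ^ 2) + ‖H w - H 0‖ := by
      have e : 1 - conj (H 0) * H w = (1 - conj (H 0) * H 0) - conj (H 0) * (H w - H 0) := by ring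
      rw [e, one_sub_conj_mul]
      refine (norm_sub_le _ _).trans ?_
      rw [norm_real, Real.norm_of_nonneg hp.le, norm_mul, norm_conj]
      nlinarith [norm_nonneg (H w - H 0)]
    nlinarith [norm_nonneg w]
  · have h2 := norm_deriv_le_one_of_mapsTo_ball hg hmaps one_pos
    have h3 := ((hasDerivAt_mob h1 h1.le).comp (0 : ℂ)
      (hd.differentiableAt (isOpen_ball.mem_nhds h00)).hasDerivAt).deriv
    rw [show (fun w => mob (H 0) (H w)) = mob (H 0) ∘ H from rfl, h3, one_sub_conj_mul, norm_mul,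
      norm_div, norm_pow, norm_real, Real.norm_of_nonneg hp.le] at h2
    rw [show (1 - ‖H 0‖ ^ 2) / (1 - ‖H 0‖ ^ 2) ^ 2 = (1 - ‖H 0‖ ^ 2)⁻¹ by field_simp,
      inv_mul_le_iff₀ hp, mul_one] at h2
    exact h2

/-- A self-map of the disc fixing the origin whose derivative there is almost unimodular. -/
structure NearRot (A : ℂ → ℂ) (κ : ℝ) : Prop where
  diff : DifferentiableOn ℂ A (ball 0 1)
  maps : MapsTo A (ball 0 1) (ball 0 1)
  zero : A 0 = 0
  big : 1 - κ ≤ ‖deriv A 0‖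

theorem NearRot.norm_le {A : ℂ → ℂ} {κ : ℝ} (h : NearRot A κ) {w : ℂ} (hw : ‖w‖ < 1) :
    ‖A w‖ ≤ ‖w‖ :=
  norm_le_norm_of_mapsTo_ball h.diff (h.maps.mono_right ball_subset_closedBall) h.zero hw

theorem NearRot.deriv_le {A : ℂ → ℂ} {κ : ℝ} (h : NearRot A κ) : ‖deriv A 0‖ ≤ 1 :=
  norm_deriv_le_one_of_mapsTo_ball h.diff
    (by rw [h.zero]; exact h.maps.mono_right ball_subset_closedBall) one_pos

theorem NearRot.approx {A : ℂ → ℂ} {κ : ℝ} (h : NearRot A κ) (hκ : κ < 1) :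
    ∃ ι : ℂ, ‖ι‖ = 1 ∧ ‖deriv A 0 - ι‖ ≤ κ ∧
      ∀ w, ‖w‖ < 1 → (1 - ‖w‖) * ‖A w - ι * w‖ ≤ 2 * κ * ‖w‖ := by
  have h00 : (0 : ℂ) ∈ ball (0 : ℂ) 1 := mem_ball_self one_pos
  have hpos : 0 < ‖deriv A 0‖ := by linarith [h.big]
  have hle := h.deriv_le
  have hι : ‖deriv A 0 - deriv A 0 / ‖deriv A 0‖‖ ≤ κ := by
    have e : deriv A 0 - deriv A 0 / ‖deriv A 0‖ =
        deriv A 0 / ‖deriv A 0‖ * ((‖deriv A 0‖ - 1 : ℝ) : ℂ) := by
      have : (‖deriv A 0‖ : ℂ) ≠ 0 := by exact_mod_cast hpos.ne'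
      push_cast
      field_simp
    rw [e, norm_mul, norm_div, norm_real, norm_norm, div_self hpos.ne', one_mul, norm_real,
      Real.norm_eq_abs, abs_le]
    constructor <;> linarith [h.big]
  refine ⟨deriv A 0 / ‖deriv A 0‖, by rw [norm_div, norm_real, norm_norm, div_self hpos.ne'], hι,
    fun w hw => ?_⟩
  have h1 := (schwarz_pick ((differentiableOn_dslope (isOpen_ball.mem_nhds h00)).mpr h.diff)
    (fun w hw => by
      simpa using norm_dslope_le_div_of_mapsTo_ball h.diff (R₂ := 1)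
        (by rw [h.zero]; exact h.maps.mono_right ball_subset_closedBall) hw)).1 w
    (mem_ball_zero_iff.mpr hw)
  rw [dslope_same] at h1
  have e : A w - deriv A 0 / ‖deriv A 0‖ * w =
      w * ((dslope A 0 w - deriv A 0) + (deriv A 0 - deriv A 0 / ‖deriv A 0‖)) := by
    have := sub_smul_dslope A 0 w
    rw [h.zero, sub_zero, sub_zero, smul_eq_mul] at this
    rw [← this]; ring
  rw [e, norm_mul]
  have h2 := (norm_add_le (dslope A 0 w - deriv A 0) _).trans (add_le_add_right hι _)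
  have h3 : 1 - ‖deriv A 0‖ ^ 2 ≤ 2 * κ := by nlinarith [h.big]
  have h4 := norm_nonneg w
  have h5 : 0 ≤ κ := by linarith [h.big]
  have h6 : (1 - ‖w‖) * ‖dslope A 0 w - deriv A 0 + (deriv A 0 - deriv A 0 / ‖deriv A 0‖)‖ ≤
      2 * κ := by
    have := mul_le_mul_of_nonneg_left h2 (sub_nonneg.mpr hw.le)
    nlinarith [mul_le_mul_of_nonneg_left h3 h4]
  nlinarith [mul_le_mul_of_nonneg_left h6 h4]

theorem NearRot.cover {A : ℂ → ℂ} {κ θ : ℝ} (h : NearRot A κ) (hθ : 0 < θ)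
    (hκ : κ ≤ θ ^ 2 / 32) {β : ℂ} (hβ : ‖β‖ ≤ 1 - θ) :
    ∃ w, ‖w‖ ≤ 1 - θ / 2 ∧ ‖w‖ ≤ 2 * ‖β‖ ∧ A w = β := by
  have hθ1 : θ ≤ 1 := by linarith [norm_nonneg β]
  have hκ0 : 0 ≤ κ := by linarith [h.big, h.deriv_le]
  obtain ⟨ι, hι, -, hap⟩ := h.approx (by nlinarith)
  have hι0 : ι ≠ 0 := by rintro rfl; simp at hι
  have hw0 : ‖β / ι‖ = ‖β‖ := by rw [norm_div, hι, div_one]
  have hin : ∀ w ∈ closedBall (β / ι) (θ / 2), ‖w‖ ≤ 1 - θ / 2 := fun w hw => by
    have := norm_le_norm_add_norm_sub' w (β / ι)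
    rw [mem_closedBall_iff_norm] at hw
    linarith
  have herr : ∀ w, ‖w‖ ≤ 1 - θ / 2 → ‖A w - ι * w‖ ≤ θ / 8 * ‖w‖ := fun w hw => by
    have h1 := hap w (by linarith)
    have h2 := norm_nonneg w
    have h3 := norm_nonneg (A w - ι * w)
    have h4 : θ / 2 * ‖A w - ι * w‖ ≤ θ / 2 * (θ / 8 * ‖w‖) := by nlinarith
    exact le_of_mul_le_mul_left h4 (by linarith)
  obtain ⟨w, hw, hw'⟩ := exists_zero_of_norm_lt (h := fun w => A w - β) (z := β / ι) (r := θ / 2)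
    (m := θ / 4) (by linarith)
    (DifferentiableOn.diffContOnCl (by
      rw [closure_ball _ (by linarith)]
      exact (h.diff.mono fun w hw => mem_ball_zero_iff.mpr (by linarith [hin w hw])).sub_const β))
    (fun w hw => by
      have h1 := hin w (sphere_subset_closedBall hw)
      have h2 := herr w h1
      have e : ι * (w - β / ι) = (A w - β) - (A w - ι * w) := by field_simp; ring
      have h3 := norm_sub_le (A w - β) (A w - ι * w)
      rw [← e, norm_mul, hι, one_mul, mem_sphere_iff_norm.mp hw] at h3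
      nlinarith [norm_nonneg w])
    (by
      have h2 := herr (β / ι) (by linarith)
      rw [mul_div_cancel₀ _ hι0, hw0] at h2
      nlinarith [norm_nonneg β])
  have h1 := hin w (ball_subset_closedBall hw)
  have h2 := herr w h1
  rw [sub_eq_zero.mp hw'] at h2
  have h3 := norm_sub_norm_le (ι * w) β
  rw [norm_mul, hι, one_mul, norm_sub_rev] at h3
  exact ⟨w, h1, by nlinarith [norm_nonneg w], sub_eq_zero.mp hw'⟩

end Pool.Agent.Lib.MP_c35c17_an.Q
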