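import Mathlib

set_option autoImplicit false

open Filter Topology Set Metric Complex

namespace Pool.Agent.Lib.MP_c35c17_an.Q

theorem exists_chart {G : ℂ × ℂ → ℂ} (hG : ContDiff ℂ 1 G) {e : ℂ × ℂ}
    (hd : deriv (fun w => G (e.1, w)) e.2 ≠ 0) :
    ∃ φ : OpenPartialHomeomorph (ℂ × ℂ) (ℂ × ℂ), e ∈ φ.source ∧ (φ : ℂ × ℂ → ℂ × ℂ) =
      (fun p => (p.1, G p)) ∧ DifferentiableAt ℂ φ.symm (e.1, G e) := by
  have h1 : HasStrictFDerivAt G (fderiv ℂ G e) e := hG.contDiffAt.hasStrictFDerivAt one_ne_zero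
  have h2 : HasStrictFDerivAt (fun p : ℂ × ℂ => (p.1, G p))
      ((ContinuousLinearMap.fst ℂ ℂ ℂ).prod (fderiv ℂ G e)) e := hasStrictFDerivAt_fst.prodMk h1
  have h3 : HasDerivAt (fun w => G (e.1, w)) (fderiv ℂ G e (0, 1)) e.2 :=
    h1.hasFDerivAt.comp_hasDerivAt e.2 ((hasDerivAt_const e.2 e.1).prodMk (hasDerivAt_id e.2))
  have h4 : Function.Injective ((ContinuousLinearMap.fst ℂ ℂ ℂ).prod (fderiv ℂ G e)) := by
    refine (injective_iff_map_eq_zero _).mpr fun ⟨a, b⟩ h => ?_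
    obtain ⟨ha, hb⟩ : a = 0 ∧ fderiv ℂ G e (a, b) = 0 := by simpa using h
    rw [ha, show ((0 : ℂ), b) = b • ((0 : ℂ), (1 : ℂ)) by simp, map_smul, smul_eq_zero,
      ← h3.deriv] at hb
    rw [ha, hb.resolve_right hd]; rfl
  set L : (ℂ × ℂ) ≃L[ℂ] (ℂ × ℂ) := (LinearEquiv.ofInjectiveEndo
    ((ContinuousLinearMap.fst ℂ ℂ ℂ).prod (fderiv ℂ G e)).toLinearMap h4).toContinuousLinearEquiv
  have h5 : HasStrictFDerivAt (fun p : ℂ × ℂ => (p.1, G p)) (L : (ℂ × ℂ) →L[ℂ] (ℂ × ℂ)) e := h2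
  exact ⟨h5.toOpenPartialHomeomorph _, h5.mem_toOpenPartialHomeomorph_source, rfl,
    h5.to_localInverse.hasFDerivAt.differentiableAt⟩

theorem section_local {G : ℂ × ℂ → ℂ} (hG : ContDiff ℂ 1 G) {u w : ℂ} (h0 : G (u, w) = 0)
    (hd : deriv (fun w => G (u, w)) w ≠ 0) : ∃ s : ℂ → ℂ, DifferentiableAt ℂ s u ∧
      ∀ g : ℂ → ℂ, ContinuousAt g u → g u = w → (∀ᶠ v in 𝓝 u, G (v, g v) = 0) → g =ᶠ[𝓝 u] s := by
  obtain ⟨φ, hφ, he, hs⟩ := exists_chart hG (e := (u, w)) hd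
  rw [h0] at hs
  refine ⟨fun v => (φ.symm (v, 0)).2, (hs.comp u (f := fun v => (v, (0 : ℂ))) (by fun_prop)).snd,
    fun g hg hgu hz => ?_⟩
  have h1 : ContinuousAt (fun v => (v, g v)) u := continuousAt_id.prodMk hg
  filter_upwards [hz, h1.eventually (φ.open_source.mem_nhds (by simpa only [hgu] using hφ))] with v h2 h3
  have := φ.left_inv h3
  rw [he] at this
  simp only [h2] at this
  rw [this]

theorem section_unique {G : ℂ × ℂ → ℂ} (hG : ContDiff ℂ 1 G) {u₀ : ℂ} {r : ℝ} {g₁ g₂ : ℂ → ℂ}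
    (h₁ : DifferentiableOn ℂ g₁ (ball u₀ r)) (h₂ : DifferentiableOn ℂ g₂ (ball u₀ r))
    (z₁ : ∀ u ∈ ball u₀ r, G (u, g₁ u) = 0) (z₂ : ∀ u ∈ ball u₀ r, G (u, g₂ u) = 0) {u : ℂ}
    (hu : u ∈ ball u₀ r) (hd : deriv (fun w => G (u, w)) (g₁ u) ≠ 0) (he : g₂ u = g₁ u) :
    EqOn g₁ g₂ (ball u₀ r) := by
  obtain ⟨s, -, hs⟩ := section_local hG (z₁ u hu) hd
  have hn := isOpen_ball.mem_nhds hu
  exact (h₁.analyticOnNhd isOpen_ball).eqOn_of_preconnected_of_eventuallyEq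
    (h₂.analyticOnNhd isOpen_ball) (convex_ball _ _).isPreconnected hu
    ((hs g₁ (h₁.differentiableAt hn).continuousAt rfl (eventually_of_mem hn z₁)).trans
      (hs g₂ (h₂.differentiableAt hn).continuousAt he (eventually_of_mem hn z₂)).symm)

theorem exists_section {G : ℂ × ℂ → ℂ} (hG : ContDiff ℂ 1 G) {u₀ : ℂ} {r R : ℝ}
    (hb : ∀ u ∈ ball u₀ r, ∀ w, G (u, w) = 0 → ‖w‖ < R ∧ deriv (fun w => G (u, w)) w ≠ 0)
    {u₁ w₁ : ℂ} (hu : u₁ ∈ ball u₀ r) (h0 : G (u₁, w₁) = 0) :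
    ∃ g : ℂ → ℂ, DifferentiableOn ℂ g (ball u₀ r) ∧ g u₁ = w₁ ∧
      ∀ u ∈ ball u₀ r, G (u, g u) = 0 := by
  set K : Set (ℂ × ℂ) := closedBall u₀ r ×ˢ closedBall 0 R with hK
  have : CompactSpace K :=
    isCompact_iff_compactSpace.mp ((isCompact_closedBall _ _).prod (isCompact_closedBall _ _))
  set Ψ : ℂ × ℂ → ℂ × ℂ := fun p => (p.1, G p) with hΨ
  have hΨc : Continuous Ψ := continuous_fst.prodMk hG.continuous
  set s : Set (ℂ × ℂ) := ball u₀ r ×ˢ {0} with hs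
  have hval : IsLocalHomeomorphOn (Subtype.val : K → ℂ × ℂ) (Subtype.val ⁻¹' (Ψ ⁻¹' s)) := by
    rw [isLocalHomeomorphOn_iff_isOpenEmbedding_restrict]
    intro x hx
    have ho : IsOpen (ball u₀ r ×ˢ ball (0 : ℂ) R) := isOpen_ball.prod isOpen_ball
    refine ⟨Subtype.val ⁻¹' (ball u₀ r ×ˢ ball 0 R), (ho.preimage continuous_subtype_val).mem_nhds
      ⟨hx.1, mem_ball_zero_iff.mpr (hb _ hx.1 _ hx.2).1⟩,
      IsEmbedding.subtypeVal.comp IsEmbedding.subtypeVal, ?_⟩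
    convert ho
    ext p
    exact ⟨by rintro ⟨q, rfl⟩; exact q.2, fun h => ⟨⟨⟨p, ball_subset_closedBall h.1,
      ball_subset_closedBall h.2⟩, h⟩, rfl⟩⟩
  have hloc : IsLocalHomeomorphOn Ψ (Ψ ⁻¹' s) := fun e he => by
    obtain ⟨φ, h1, h2, -⟩ := exists_chart hG (e := e) (hb _ he.1 _ he.2).2
    exact ⟨φ, h1, h2.symm⟩
  have hcov : IsCoveringMapOn (Ψ ∘ (Subtype.val : K → ℂ × ℂ)) s :=
    IsCoveringMapOn.of_isLocalHomeomorphOn (hΨc.comp continuous_subtype_val)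
      (hloc.comp hval fun _ h => h)
  have := (convex_ball u₀ r).contractibleSpace ⟨u₁, hu⟩
  have := (isOpen_ball (x := u₀) (ε := r)).locallyPathConnectedSpace
  obtain ⟨Fl, ⟨h1, h2⟩, -⟩ := hcov.existsUnique_continuousMap_lifts
    (⟨fun a : ball u₀ r => ((a : ℂ), (0 : ℂ)), by fun_prop⟩) (a₀ := ⟨u₁, hu⟩)
    (e₀ := ⟨(u₁, w₁), ball_subset_closedBall hu, mem_closedBall_zero_iff.mpr (hb _ hu _ h0).1.le⟩)
    (by simp [hΨ, h0]) (fun a => ⟨a.2, rfl⟩)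
  classical
  set g : ℂ → ℂ := fun u => if h : u ∈ ball u₀ r then (Fl ⟨u, h⟩).1.2 else 0 with hg
  have hz : ∀ u ∈ ball u₀ r, G (u, g u) = 0 := fun u h => by
    have h3 := congrFun h2 ⟨u, h⟩
    simp only [hΨ, Function.comp_apply, ContinuousMap.coe_mk, Prod.mk.injEq] at h3
    rw [hg]
    simp only [h, dif_pos]
    rw [← h3.2]
    congr 1
    exact Prod.ext h3.1.symm rfl
  have hc : ContinuousOn g (ball u₀ r) := by
    rw [continuousOn_iff_continuous_restrict]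
    have : (ball u₀ r).domRestrict g = fun a => (Fl a).1.2 := funext fun a => dif_pos a.2
    rw [this]; fun_prop
  refine ⟨g, fun u h => ?_, by simp only [hg, hu, dif_pos, h1], hz⟩
  obtain ⟨s, hs1, hs2⟩ := section_local hG (hz u h) (hb u h _ (hz u h)).2
  have hn := isOpen_ball.mem_nhds h
  exact (hs1.congr_of_eventuallyEq (hs2 g (hc.continuousAt hn) rfl
    (eventually_of_mem hn hz))).differentiableWithinAt

end Pool.Agent.Lib.MP_c35c17_an.Q
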