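import Pool.Agent.Lib.MP_c35c17_an.QCyc
import Pool.Agent.Lib.MP_c35c17_an.QSec
import Pool.Agent.Lib.MP_c35c17_an.QHolo

set_option autoImplicit false

open Filter Topology Set Metric Complex Polynomial N62a1eb23

namespace Pool.Agent.Lib.MP_c35c17_an.Q

/-- The iterates as polynomials. -/
noncomputable def itP {R : Type*} [CommRing R] (n : ℕ) (c : R) : ℕ → R[X]
  | 0 => X
  | j + 1 => itP n c j ^ n + C c

theorem itP_map {R S : Type*} [CommRing R] [CommRing S] (φ : R →+* S) (n : ℕ) (c : R) (j : ℕ) :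
    (itP n c j).map φ = itP n (φ c) j := by
  induction j with
  | zero => simp [itP]
  | succ j ih => simp [itP, ih]

theorem itP_eval (n : ℕ) (c : ℂ) (j : ℕ) (z : ℂ) : (itP n c j).eval z = (F n c)^[j] z := by
  induction j with
  | zero => simp [itP]
  | succ j ih => simp [itP, ih, iter_succ]

theorem itP_deriv (n : ℕ) (c : ℂ) (j : ℕ) (z : ℂ) : (derivative (itP n c j)).eval z = dF n c j z :=
  ((itP n c j).hasDerivAt z).unique (by simpa only [itP_eval] using hasDerivAt_iter n c j z)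

theorem itP_monic {n : ℕ} (hn : 2 ≤ n) (c : ℂ) (j : ℕ) :
    (itP n c j).Monic ∧ (itP n c j).natDegree = n ^ j := by
  induction j with
  | zero => simp [itP]
  | succ j ih =>
    have h1 : (itP n c j ^ n).natDegree = n ^ (j + 1) := by rw [natDegree_pow, ih.2, pow_succ']
    refine ⟨(ih.1.pow n).add_of_left (degree_lt_degree ?_), by rw [itP, natDegree_add_C, h1]⟩
    rw [natDegree_C, h1]; positivity

theorem exists_res {n k : ℕ} (hn : 2 ≤ n) (hk : 0 < k) : ∃ s : ℂ → ℂ → ℂ,
    Continuous (fun p : ℂ × ℂ => s p.1 p.2) ∧ (∀ t, Differentiable ℂ fun c => s c t) ∧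
      ∀ c t, s c t = 0 ↔ ∃ z, (F n c)^[k] z = z ∧ dF n c k z = t := by
  set S : MvPolynomial (Fin 2) ℂ := resultant
    (itP n (MvPolynomial.X 0 : MvPolynomial (Fin 2) ℂ) k - X)
    (derivative (itP n (MvPolynomial.X 0 : MvPolynomial (Fin 2) ℂ) k) -
      C (MvPolynomial.X 1 : MvPolynomial (Fin 2) ℂ)) (n ^ k) (n ^ k) with hS
  refine ⟨fun c t => MvPolynomial.eval ![c, t] S, S.continuous_eval.comp (by fun_prop),
    fun t c => (AnalyticAt.aeval_mvPolynomial (f := fun c : ℂ => ![c, t]) (fun i => by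
      fin_cases i <;> simp <;> fun_prop) S).differentiableAt, fun c t => ?_⟩
  obtain ⟨h1, h2⟩ := itP_monic hn c k
  have h3 : (X : ℂ[X]).natDegree < (itP n c k).natDegree := by
    rw [natDegree_X, h2]; exact Nat.one_lt_pow hk.ne' hn
  have h4 := natDegree_sub_eq_left_of_natDegree_lt h3
  have h5 := h1.sub_of_left (degree_lt_degree h3)
  have h6 := resultant_eq_prod_eval (itP n c k - X) (derivative (itP n c k) - C t) (n ^ k)
    (by rw [natDegree_sub_C, ← h2]; exact (natDegree_derivative_le _).trans (Nat.sub_le _ _))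
    (IsAlgClosed.splits _)
  rw [h4, h2, h5.leadingCoeff, one_pow, one_mul] at h6
  beta_reduce
  rw [hS, ← resultant_map_map, Polynomial.map_sub, Polynomial.map_sub, map_X, map_C,
    ← derivative_map, itP_map, MvPolynomial.eval_X, MvPolynomial.eval_X, Matrix.cons_val_zero,
    Matrix.cons_val_one, Matrix.cons_val_zero, h6, Multiset.prod_eq_zero_iff, Multiset.mem_map]
  simp only [mem_roots h5.ne_zero, IsRoot, eval_sub, eval_X, eval_C, itP_eval, itP_deriv,
    sub_eq_zero]

theorem pow_eq_self_iff_of_nonneg_aux {x : ℝ} (hx : 0 ≤ x) {N : ℕ} (hN : 1 < N) (h : x = x ^ N) :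
    x = 0 ∨ x = 1 := by
  refine or_iff_not_imp_left.mpr fun h0 => ?_
  rw [← Nat.sub_add_cancel hN.le, pow_succ, eq_comm, mul_eq_right₀ h0] at h
  exact (pow_eq_one_iff_of_nonneg hx (by omega)).mp h

/-- No parameter of the disc has an attracting cycle. -/
def Free (n : ℕ) (c : ℂ) (r : ℝ) : Prop := ∀ u ∈ ball c r, ∀ m z, ¬IsAttractingCycle (F n u) m z

theorem Free.one_lt {n : ℕ} (hn : 2 ≤ n) {c : ℂ} {r : ℝ} (h : Free n c r) {u : ℂ} (hu : u ∈ ball c r)
    {k : ℕ} (hk : 0 < k) {z : ℂ} (hz : (F n u)^[k] z = z) : 1 < ‖dF n u k z‖ := by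
  have h0 : ∀ u ∈ ball c r, ∀ z, (F n u)^[k] z = z → 1 ≤ ‖dF n u k z‖ := fun u hu z hz =>
    not_lt.mp fun h1 => h u hu k z ⟨hk, hz, differentiable_iter n u k z,
      by rwa [(hasDerivAt_iter n u k z).deriv]⟩
  refine lt_of_le_of_ne (h0 u hu z hz) fun h1 => ?_
  obtain ⟨s, hs1, hs2, hs3⟩ := exists_res hn hk
  set t₀ := dF n u k z with ht₀
  have h2 : s 0 t₀ ≠ 0 := fun h2 => by
    obtain ⟨w, h3, h4⟩ := (hs3 0 t₀).mp h2
    have h5 : ∀ j, ‖(F n 0)^[j] w‖ = ‖w‖ ^ n ^ j := fun j => by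
      induction j with
      | zero => simp
      | succ j ih => rw [iter_succ, add_zero, norm_pow, ih, ← pow_mul, pow_succ]
    have h6 := h5 k
    rw [h3] at h6
    rw [← h4, dF, norm_prod] at h1
    simp only [norm_mul, norm_pow, h5, Complex.norm_natCast] at h1
    rcases pow_eq_self_iff_of_nonneg_aux (norm_nonneg w) (Nat.one_lt_pow hk.ne' hn) h6 with h7 | h7
    · rw [Finset.prod_eq_zero (Finset.mem_range.mpr hk) (by simp [h7]; omega)] at h1
      exact one_ne_zero h1
    · simp only [h7, one_pow, mul_one, Finset.prod_const, Finset.card_range] at h1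
      exact absurd h1 (one_lt_pow₀ (by exact_mod_cast hn) hk.ne').ne
  have h3 : ∀ᶠ w in 𝓝[≠] u, s w t₀ ≠ 0 :=
    ((hs2 t₀).analyticAt u).eventually_eq_zero_or_eventually_ne_zero.resolve_left fun h3 =>
      h2 ((hs2 t₀).differentiableOn.analyticOnNhd isOpen_univ
        |>.eqOn_zero_of_preconnected_of_eventuallyEq_zero isPreconnected_univ (mem_univ u) h3
          (mem_univ 0))
  obtain ⟨δ, hδ, h4⟩ := Metric.nhds_basis_closedBall.eventually_iff.mp
    ((eventually_nhdsWithin_iff.mp h3).and (isOpen_ball.mem_nhds hu))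
  obtain ⟨m, hm, h5⟩ := (isCompact_sphere u δ).exists_forall_le' (f := fun w => ‖s w t₀‖) (a := 0)
    (hs2 t₀).continuous.norm.continuousOn fun w hw => norm_pos_iff.mpr
      ((h4 (sphere_subset_closedBall hw)).1 (ne_of_mem_sphere hw hδ.ne'))
  have h6 : ∀ᶠ t in 𝓝 t₀, ∀ w ∈ sphere u δ, m / 2 < ‖s w t‖ :=
    (isCompact_sphere u δ).eventually_forall_of_forall_eventually fun w hw =>
      continuousAt_const.eventually_lt (hs1.comp continuous_swap).norm.continuousAt
        (lt_of_lt_of_le (half_lt_self hm) (h5 w hw))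
  have h7 : ∀ᶠ t in 𝓝 t₀, ‖s u t‖ < m / 2 :=
    (hs1.comp (Continuous.prodMk_right u)).norm.continuousAt.eventually_lt continuousAt_const
      (by simpa [(hs3 u t₀).mpr ⟨z, hz, rfl⟩] using hm)
  have h8 : t₀ ∈ closure (ball (0 : ℂ) 1) := by
    rw [closure_ball _ one_ne_zero, mem_closedBall_zero_iff]; exact h1.ge
  obtain ⟨t, ht, h9, h10⟩ := ((mem_closure_iff_frequently.mp h8).and_eventually (h6.and h7)).exists
  obtain ⟨w, hw, h11⟩ := exists_zero_of_norm_lt hδ (hs2 t).diffContOnCl (fun w hw => (h9 w hw).le) h10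
  obtain ⟨y, h12, h13⟩ := (hs3 w t).mp h11
  exact absurd (h13 ▸ h0 w (h4 (ball_subset_closedBall hw)).2 y h12)
    (not_le.mpr (mem_ball_zero_iff.mp ht))

theorem per_lt {n : ℕ} (hn : 2 ≤ n) {c z : ℂ} {k : ℕ} (hk : 0 < k) (hz : (F n c)^[k] z = z) :
    ‖z‖ < ‖c‖ + 3 := by
  refine not_le.mp fun h => ?_
  obtain ⟨j, rfl⟩ := Nat.exists_eq_succ_of_ne_zero hk.ne'
  have h1 := (escape_iter hn le_rfl h j).1
  have h2 := escape_step hn le_rfl (h.trans h1)
  rw [← Function.iterate_succ_apply' (F n c), hz] at h2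
  nlinarith [norm_nonneg c]

theorem contDiff_iter (n j : ℕ) : ContDiff ℂ 1 fun p : ℂ × ℂ => (F n p.1)^[j] p.2 := by
  induction j with
  | zero => exact contDiff_snd
  | succ j ih => simp only [iter_succ]; exact (ih.pow n).add contDiff_fst

theorem Cyc.coef_sum_le {n : ℕ} {c : ℂ} {k : ℕ} {O : Finset ℂ} {ρ : ℂ} (h : Cyc n c k O ρ) {r : ℝ}
    (hr : 0 < r) (hf : Free n c r) : r * ‖∑ x ∈ O, coef n c k ρ x‖ ≤ 2 * (‖ρ‖ - 1) := by
  have hn := h.hn
  obtain ⟨z, hz⟩ := Finset.card_pos.mp (h.card ▸ h.pos)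
  have hc : c ∈ ball c r := mem_ball_self hr
  obtain ⟨g, hg, hgc, hgz⟩ := exists_section (G := fun p => (F n p.1)^[k] p.2 - p.2)
    ((contDiff_iter n k).sub contDiff_snd) (u₀ := c) (r := r) (R := ‖c‖ + r + 3) (fun u hu w hw => by
      have h1 := sub_eq_zero.mp hw
      refine ⟨(per_lt hn h.pos h1).trans_le ?_, ?_⟩
      · linarith [norm_le_norm_add_norm_sub' u c, mem_ball_iff_norm.mp hu]
      · rw [((hasDerivAt_iter n u k w).fun_sub (hasDerivAt_id' w)).deriv, sub_ne_zero]
        intro e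
        simpa [e] using hf.one_lt hn hu h.pos h1) hc (sub_eq_zero.mpr (h.per z hz))
  have hx : ∀ j, DifferentiableOn ℂ (fun u => (F n u)^[j] (g u)) (ball c r) := fun j =>
    ((contDiff_iter n j).differentiable one_ne_zero).comp_differentiableOn
      (differentiableOn_id.prodMk hg)
  have hN := isOpen_ball.mem_nhds hc
  set v : ℕ → ℂ := fun j => deriv (fun u => (F n u)^[j] (g u)) c with hv
  have hd : ∀ j, HasDerivAt (fun u => (F n u)^[j] (g u)) (v j) c := fun j =>
    ((hx j).differentiableAt hN).hasDerivAt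
  have hvs : ∀ j, v (j + 1) = n * (F n c)^[j] z ^ (n - 1) * v j + 1 := fun j => by
    have h1 := ((hd j).fun_pow n).fun_add (hasDerivAt_id' c)
    rw [hgc] at h1
    exact (hd (j + 1)).unique (by simpa only [iter_succ] using h1)
  have hvk : v k = v 0 := EventuallyEq.deriv_eq
    (eventually_of_mem hN fun u hu => sub_eq_zero.mp (hgz u hu))
  have hρ : ∀ m, HasDerivAt (fun u => dF n u m (g u)) (dF n c m z *
      ∑ j ∈ Finset.range m, ((n : ℂ) - 1) / (F n c)^[j] z * v j) c := fun m => by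
    induction m with
    | zero => simpa [dF] using hasDerivAt_const c (1 : ℂ)
    | succ m ih =>
      simp only [dF_succ]
      refine ((((hd m).fun_pow (n - 1)).const_mul (n : ℂ)).fun_mul ih).congr_deriv ?_
      have h1 := h.ne_zero (h.iter_mem hz m)
      rw [hgc, Finset.sum_range_succ, Nat.cast_sub (by omega), show n - 1 = n - 1 - 1 + 1 by omega,
        Nat.add_sub_cancel]
      field_simp
      push_cast
      ring
  have hsum : ∑ j ∈ Finset.range k, ((n : ℂ) - 1) / (F n c)^[j] z * v j =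
      ∑ x ∈ O, coef n c k ρ x := by
    have h1 : SurjOn (fun j => (F n c)^[j + 1] z) (Finset.range k : Set ℕ) O := fun y hy => by
      obtain ⟨d, h1, h2, rfl⟩ := h.trans z hz y hy
      exact ⟨d - 1, by simp; omega, by simp only [Nat.sub_add_cancel h1]⟩
    have h2 : MapsTo (fun j => (F n c)^[j + 1] z) (Finset.range k : Set ℕ) O :=
      fun j _ => h.iter_mem hz _
    rw [← Finset.sum_nbij (fun j => (F n c)^[j + 1] z) h2 (Finset.injOn_of_surjOn_of_card_le _ h2 h1
      (by rw [h.card, Finset.card_range])) h1 fun _ _ => rfl]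
    have h3 := Finset.sum_range_sub' (fun j => coef n c k ρ ((F n c)^[j] z) * v j) k
    rw [h.per z hz, hvk, Function.iterate_zero, id, sub_self] at h3
    rw [← sub_eq_zero, ← Finset.sum_sub_distrib, ← h3]
    refine Finset.sum_congr rfl fun j _ => ?_
    rw [hvs, h.coef_eq (h.iter_mem hz j), Function.iterate_succ_apply']
    ring
  have h1 := hρ k
  rw [hsum, h.mult z hz] at h1
  have hm : MapsTo (fun w : ℂ => c + r * w) (ball 0 1) (ball c r) := fun w hw => by
    rw [mem_ball_iff_norm, add_sub_cancel_left, norm_mul, norm_real, Real.norm_of_nonneg hr.le]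
    exact mul_lt_of_lt_one_right hr (mem_ball_zero_iff.mp hw)
  have hbig : ∀ u ∈ ball c r, 1 < ‖dF n u k (g u)‖ := fun u hu =>
    hf.one_lt hn hu h.pos (sub_eq_zero.mp (hgz u hu))
  have h2 := (schwarz_pick (H := fun w => (dF n (c + r * w) k (g (c + r * w)))⁻¹)
    (DifferentiableOn.fun_inv (DifferentiableOn.comp (g := fun u => dF n u k (g u))
      (DifferentiableOn.fun_finsetProd fun j _ => ((hx j).pow _).const_mul _) (by fun_prop) hm)
      fun w hw => norm_pos_iff.mp (one_pos.trans (hbig _ (hm hw))))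
    fun w hw => by rw [norm_inv]; exact inv_le_one_of_one_le₀ (hbig _ (hm hw)).le).2
  have hρ0 : ρ ≠ 0 := norm_pos_iff.mp (one_pos.trans h.big)
  have h3 := (HasDerivAt.comp_of_eq (0 : ℂ) h1 (((hasDerivAt_id' (0 : ℂ)).const_mul
    (r : ℂ)).const_add c) (by simp)).fun_inv (by simpa [hgc, h.mult z hz] using hρ0)
  simp only [Function.comp_def, mul_zero, add_zero, hgc, h.mult z hz] at h2 h3
  rw [h3.deriv, norm_div, norm_neg, norm_mul, norm_mul, norm_pow, norm_inv, mul_one, norm_real,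
    Real.norm_of_nonneg hr.le, div_le_iff₀ (by positivity), sub_mul, inv_pow,
    inv_mul_cancel₀ (by positivity)] at h2
  nlinarith [h.big, mul_nonneg hr.le (norm_nonneg (∑ x ∈ O, coef n c k ρ x))]

end Pool.Agent.Lib.MP_c35c17_an.Q
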