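import Pool.Agent.Lib.MP_c35c17_an.QModel
import Pool.Agent.Lib.MP_c35c17_an.QParam

set_option autoImplicit false

open Filter Topology Set Metric Complex N62a1eb23

namespace Pool.Agent.Lib.MP_c35c17_an.Q

theorem dF_mul {n : ℕ} {c z : ℂ} {k : ℕ} (hz : (F n c)^[k] z = z) (e : ℕ) :
    dF n c (k * e) z = dF n c k z ^ e := by
  induction e with
  | zero => simp [dF]
  | succ e ih => rw [mul_add_one, add_comm, dF_add, hz, ih, pow_succ]

theorem exists_min {n : ℕ} {c z : ℂ} {d : ℕ} (hd : 0 < d) (hz : (F n c)^[d] z = z) :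
    ∃ k e, 0 < k ∧ 0 < e ∧ d = k * e ∧ Function.minimalPeriod (F n c) z = k ∧ (F n c)^[k] z = z ∧
      dF n c d z = dF n c k z ^ e := by
  obtain ⟨e, he⟩ := Function.IsPeriodicPt.minimalPeriod_dvd (show Function.IsPeriodicPt _ d z from hz)
  have h1 : (F n c)^[Function.minimalPeriod (F n c) z] z = z := Function.isPeriodicPt_minimalPeriod _ _
  exact ⟨_, e, Nat.pos_of_mul_pos_right (he ▸ hd), Nat.pos_of_mul_pos_left (he ▸ hd), he, rfl, h1,
    by rw [← dF_mul h1, ← he]⟩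

theorem model_of_free {n : ℕ} (hn : 2 ≤ n) : ∃ C : ℝ, 4 ≤ C ∧ ∀ (c : ℂ) (r : ℝ), ‖c‖ ≤ 2 → 0 < r →
    r ≤ 1 → Free n c r → ∀ (z : ℂ) (k : ℕ), 0 < k → Function.minimalPeriod (F n c) z = k →
      ∃ H : ℝ, 0 < H ∧ (‖dF n c k z‖ - 1) * H ^ 24 = 1 ∧ (C * k ≤ r * H →
        ∃ O W, Cyc n c k O (dF n c k z) ∧ Model n c k O W (3 / H)) := by
  obtain ⟨C, hC, hm⟩ := exists_model hn
  refine ⟨C, hC, fun c r hc hr hr1 hf z k hk hz => ?_⟩
  have h1 := hf.one_lt hn (mem_ball_self hr) hk (z := z) (hz ▸ Function.isPeriodicPt_minimalPeriod _ _)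
  have hμ := sub_pos.mpr h1
  obtain ⟨H, hH0, hH⟩ : ∃ H : ℝ, 0 < H ∧ (‖dF n c k z‖ - 1) * H ^ 24 = 1 :=
    ⟨(‖dF n c k z‖ - 1)⁻¹ ^ ((24 : ℕ) : ℝ)⁻¹, by positivity, by
      rw [Real.rpow_inv_natCast_pow (by positivity) (by norm_num), mul_inv_cancel₀ hμ.ne']⟩
  refine ⟨H, hH0, hH, fun h2 => ?_⟩
  have hk1 : (1 : ℝ) ≤ k := by exact_mod_cast hk
  have h3 : C * k ≤ H := h2.trans (mul_le_of_le_one_left hH0.le hr1)
  have h4 : 1 ≤ H ^ 24 := one_le_pow₀ (by nlinarith)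
  obtain ⟨O, -, h⟩ := exists_cyc hn hc hk hz h1 (by nlinarith)
  obtain ⟨W, hW⟩ := hm c k O _ h H h3 hH.ge (by
    refine le_of_mul_le_mul_left (a := r * H) ?_ (by positivity)
    calc _ = (r * k * (‖dF n c k z‖ - 1) + r * ‖∑ x ∈ O, coef n c k (dF n c k z) x‖) * H ^ 24 := by
          ring
      _ ≤ (1 * k * (‖dF n c k z‖ - 1) + 2 * (‖dF n c k z‖ - 1)) * H ^ 24 := by
          refine mul_le_mul_of_nonneg_right (add_le_add ?_ (h.coef_sum_le hr hf)) (by positivity)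
          gcongr
      _ = (k + 2) * ((‖dF n c k z‖ - 1) * H ^ 24) := by ring
      _ ≤ _ := by rw [hH]; nlinarith)
  exact ⟨O, W, h, hW⟩

theorem free_bound {n : ℕ} (hn : 2 ≤ n) : ∃ C : ℝ, 0 < C ∧ ∀ (c : ℂ) (r : ℝ), ‖c‖ ≤ 2 → 0 < r →
    r ≤ 1 → Free n c r → ∀ (z : ℂ) (k : ℕ), 0 < k → (F n c)^[k] z = z →
      r ^ 576 ≤ C * k ^ 1872 * (‖dF n c k z‖ - 1) := by
  obtain ⟨C, hC, hm⟩ := model_of_free hn
  refine ⟨(3 * 10 ^ 9 * (300 * C) ^ 24) ^ 24, by positivity, fun c r hc hr hr1 hf z d hd hz => ?_⟩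
  have P1 : ∀ (z : ℂ) (k : ℕ) (K : ℝ), 0 < k → (k : ℝ) ≤ K → Function.minimalPeriod (F n c) z = k →
      1 / (10 * K ^ 2) ≤ ‖dF n c k z - 1‖ →
      r ^ 24 ≤ (‖dF n c k z‖ - 1) * (300 * C * K ^ 3) ^ 24 := fun z k K hk hK hz h1 => by
    obtain ⟨H, hH0, hH, h2⟩ := hm c r hc hr hr1 hf z k hk hz
    have hk1 : (1 : ℝ) ≤ k := by exact_mod_cast hk
    have hK1 : 1 ≤ K := hk1.trans hK
    have hμ : 0 < ‖dF n c k z‖ - 1 := pos_of_mul_pos_left (hH ▸ one_pos) (by positivity)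
    have h3 : r * H ≤ 300 * C * K ^ 3 := not_lt.mp fun h3 => by
      have h4 : 300 * C * K ^ 3 < H := h3.trans_le (mul_le_of_le_one_left hH0.le hr1)
      have h5 : K ≤ K ^ 3 := le_self_pow₀ hK1 (by norm_num)
      have h6 : (k : ℝ) ^ 2 ≤ K ^ 3 :=
        (pow_le_pow_left₀ (by positivity) hK 2).trans (pow_le_pow_right₀ hK1 (by norm_num))
      have h7 : 1200 * K ^ 3 ≤ 300 * C * K ^ 3 := by gcongr; linarith
      obtain ⟨O, W, h, m⟩ := h2 (by nlinarith)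
      have h8 := h1.trans (m.part1 h (by rw [mul_div_assoc', div_le_one hH0]; linarith))
      rw [mul_div_assoc', div_le_div_iff₀ (by positivity) hH0] at h8
      have h9 : k * K ^ 2 ≤ K ^ 3 := by rw [pow_succ' K 2]; gcongr
      nlinarith
    calc r ^ 24 = (‖dF n c k z‖ - 1) * (r * H) ^ 24 := by rw [mul_pow, mul_left_comm, hH, mul_one]
      _ ≤ _ := by gcongr
  obtain ⟨k, e, hk, he, rfl, hmin, hkz, hρ⟩ := exists_min hd hz
  obtain ⟨H, hH0, hH, h2⟩ := hm c r hc hr hr1 hf z k hk hmin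
  have hk1 : (1 : ℝ) ≤ k := by exact_mod_cast hk
  have h1 := hf.one_lt hn (mem_ball_self hr) hk hkz
  have hC1 : 300 * C ≤ (300 * C) ^ 24 := le_self_pow₀ (by linarith) (by norm_num)
  have hr2 : r ^ 24 ≤ r := pow_le_of_le_one hr.le hr1 (by norm_num)
  have h3 : r ^ 24 * H ≤ 3 * 10 ^ 9 * (300 * C) ^ 24 * k ^ 78 := not_lt.mp fun h3 => by
    have hp : ∀ i ≤ 78, 3 * 10 ^ 9 * (300 * C) ^ 24 * (k : ℝ) ^ i < r * H := fun i hi =>
      lt_of_le_of_lt (by gcongr) (h3.trans_le (by gcongr))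
    have h4 : r * H ≤ H := mul_le_of_le_one_left hH0.le hr1
    have h5 : ∀ i ≤ 78, 3 * 10 ^ 9 * (k : ℝ) ^ i ≤ H := fun i hi => by
      refine le_trans ?_ ((hp i hi).le.trans h4)
      exact mul_le_mul_of_nonneg_right (le_mul_of_one_le_right (by norm_num) (by linarith))
        (by positivity)
    obtain ⟨O, W, h, m⟩ := h2 (by
      refine le_trans ?_ (hp 1 (by norm_num)).le
      rw [pow_one]; gcongr; linarith)
    obtain ⟨d, y, hd1, hdk, hy, h6, h7⟩ := m.part2 h (by positivity) (by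
      rw [mul_div_assoc', div_le_one hH0]; linarith [h5 7 (by norm_num)])
    obtain ⟨k', e', hk', he', rfl, hmin', hky, hρ'⟩ := exists_min hd1 hy
    have h8 := hf.one_lt hn (mem_ball_self hr) hk' hky
    have h9 : ∀ i ≤ e', ‖dF n c k' y‖ ^ i ≤ 1 + 2 * 10 ^ 6 * k ^ 6 * (3 / H) := fun i hi =>
      (pow_le_pow_right₀ h8.le hi).trans (by rwa [← norm_pow, ← hρ'])
    have h10 : 2 * 10 ^ 6 * k ^ 6 * (3 / H) ≤ 1 := by
      rw [mul_div_assoc', div_le_one hH0]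
      linarith [h5 6 (by norm_num), pow_pos (one_pos.trans_le hk1) 6]
    have h11 := P1 y k' k hk' (by exact_mod_cast (Nat.le_mul_of_pos_right _ he').trans hdk) hmin' (by
      rw [hρ', ← mul_geom_sum, norm_mul] at h7
      have h12 : ‖∑ i ∈ Finset.range e', dF n c k' y ^ i‖ ≤ k * 2 := by
        refine (norm_sum_le_of_le _ (n := fun _ => 2) fun i hi => ?_).trans ?_
        · rw [norm_pow]; linarith [h9 i (Finset.mem_range.mp hi).le]
        · rw [Finset.sum_const, Finset.card_range, nsmul_eq_mul]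
          gcongr
          exact_mod_cast (Nat.le_mul_of_pos_left _ hk').trans hdk
      rw [div_le_iff₀ (by positivity)] at h7 ⊢
      calc _ ≤ _ := h7
        _ ≤ ‖dF n c k' y - 1‖ * (k * 2) * (5 * k) := by gcongr
        _ = _ := by ring)
    have h12 : r ^ 24 * H ≤ 6 * 10 ^ 6 * (300 * C) ^ 24 * k ^ 78 := by
      calc _ ≤ 2 * 10 ^ 6 * k ^ 6 * (3 / H) * (300 * C * k ^ 3) ^ 24 * H := by
            refine mul_le_mul_of_nonneg_right (h11.trans ?_) hH0.le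
            gcongr
            linarith [h9 1 he']
        _ = _ := by rw [mul_pow (300 * C)]; field_simp; norm_num
    have h13 : 0 ≤ (300 * C) ^ 24 * k ^ 78 := by positivity
    linarith
  calc r ^ 576 = (r ^ 24 * H) ^ 24 * (‖dF n c k z‖ - 1) := by
        rw [mul_pow, mul_assoc, mul_comm (H ^ 24), hH, mul_one, ← pow_mul]
    _ ≤ (3 * 10 ^ 9 * (300 * C) ^ 24 * k ^ 78) ^ 24 * (‖dF n c k z‖ - 1) := by gcongr
    _ ≤ _ := by
        rw [mul_pow _ ((k : ℝ) ^ 78), ← pow_mul, hρ, norm_pow]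
        gcongr
        · exact_mod_cast Nat.le_mul_of_pos_right _ he
        · exact le_self_pow₀ h1.le he.ne'

theorem main_bound {n : ℕ} (hn : 2 ≤ n) : ∃ C : ℝ, ∀ c : ℂ, ‖c‖ ≤ 2 → ∀ (k : ℕ) (z : ℂ), 0 < k →
    (F n c)^[k] z = z → 1 ≤ ‖dF n c k z‖ →
      infDist c {c | ∃ m z, IsAttractingCycle (fun z ↦ z ^ n + c) m z} ^ 576 ≤
        C * k ^ 1872 * (‖dF n c k z‖ - 1) := by
  obtain ⟨C, hC, h⟩ := free_bound hn
  refine ⟨2 ^ 576 * C, fun c hc k z hk hz h1 => ?_⟩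
  have h2 := sub_nonneg.mpr h1
  set D := infDist c {c | ∃ m z, IsAttractingCycle (fun z ↦ z ^ n + c) m z} with hD
  rcases (infDist_nonneg : 0 ≤ D).eq_or_lt with h0 | h0
  · rw [hD, ← h0, zero_pow (by norm_num)]; positivity
  have h3 : D ≤ 2 := by
    refine (infDist_le_dist_of_mem (y := 0) ?_).trans (by rwa [dist_zero_right])
    refine ⟨1, 0, one_pos, ?_, differentiable_iter n 0 1 0, ?_⟩
    · simp [Function.IsPeriodicPt, Function.IsFixedPt]; omega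
    · rw [(hasDerivAt_iter n 0 1 0).deriv]
      simp [dF, zero_pow (show n - 1 ≠ 0 by omega)]
  have h4 := h c (D / 2) hc (half_pos h0) (by linarith) (fun u hu m y hy =>
    notMem_of_dist_lt_infDist (s := {c | ∃ m z, IsAttractingCycle (fun z ↦ z ^ n + c) m z})
      ((mem_ball'.mp hu).trans (half_lt_self h0)) ⟨m, y, hy⟩) z k hk hz
  rw [div_pow, div_le_iff₀' (by positivity)] at h4
  simpa only [mul_assoc] using h4

end Pool.Agent.Lib.MP_c35c17_an.Q
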