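import Pool.Agent.Lib.MP_c35c17_an.LBlue

/-! Statements of the blocks of the derivative bound for multipliers close to one. -/

set_option autoImplicit false

open Filter Topology Set Metric Complex Bornology MeasureTheory
open scoped Real ENNReal

namespace Pool.Agent.Lib.MP_c35c17_an.R

open Q

/-- How the residue of a double pole transforms under pull-back. -/
noncomputable def act (G : ℂ → ℂ) (z a : ℂ) : ℂ := deriv (deriv G) z / deriv G z + a * deriv G z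

/-- The polar part of a quadratic differential with double poles. -/
noncomputable def pol (m : ℕ) (z a : ℕ → ℂ) (w : ℂ) : ℂ :=
  ∑ j ∈ Finset.range m, ((w - z j)⁻¹ ^ 2 + a j * (w - z j)⁻¹)

/-- The defect in the triangle inequality. -/
noncomputable def dfc (b b' : ℂ) : ℝ := ‖b‖ + ‖b' - b‖ - ‖b'‖

/-- The size of the loss: period times excess of the multiplier plus logarithmic derivative. -/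
noncomputable def eps (n : ℕ) (c : ℂ) (k : ℕ) (O : Finset ℂ) (ρ : ℂ) : ℝ :=
  k * (‖ρ‖ - 1) + ‖∑ x ∈ O, coef n c k ρ x‖

/-- An almost regular polygon with almost symmetric residues. -/
structure Gon (m : ℕ) (ζ : ℂ) (z a : ℕ → ℂ) (δ : ℝ) : Prop where
  two : 2 ≤ m
  prim : IsPrimitiveRoot ζ m
  ne : z 0 ≠ 0
  near : ∀ j < m, ‖z j - ζ ^ j * z 0‖ ≤ δ * ‖z 0‖
  lt : ∀ j < m, ‖z j‖ < 1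
  coc : ∀ j < m, ‖z j * a j - z 0 * a 0‖ ≤ δ * (1 + ‖z j * a j‖)

/-- A cycle of points permuted by maps that are almost rotations. -/
structure Loc (m : ℕ) (lam : ℂ) (z a : ℕ → ℂ) (G : ℕ → ℂ → ℂ) (ε η : ℝ) : Prop where
  two : 2 ≤ m
  ne : z 0 ≠ 0
  inj : ∀ j, 0 < j → j < m → z j ≠ z 0
  per : ∀ i, z (i + m) = z i
  le : ∀ j, ‖z j‖ ≤ 1 - η
  diff : ∀ j ≤ m, DifferentiableOn ℂ (G j) (ball 0 1)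
  near : ∀ j ≤ m, ∀ w ∈ ball (0 : ℂ) 1, ‖G j w - lam ^ j * w‖ ≤ ε * ‖w‖
  orb : ∀ j ≤ m, ∀ i, G j (z i) = z (i + j)
  coc : ∀ j < m, act (G j) (z 0) (a j) = a 0

/-- The model domain with its short boundary. -/
def St_MOD (n : ℕ) : Prop := ∃ C : ℝ, 4 ≤ C ∧ ∀ (c : ℂ) (k : ℕ) (O : Finset ℂ) (ρ : ℂ),
  Cyc n c k O ρ → ∀ H : ℝ, C * k ≤ H → 1 ≤ (‖ρ‖ - 1) * H ^ 24 → eps n c k O ρ * H ^ 23 ≤ 1 →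
    ∃ W, Model n c k O W (3 / H) ∧ W ⊆ ball 0 (4 ^ n + 3) ∧ (∀ y ∈ O, y ∉ frontier W) ∧
      CapLe (frontier W) (qd O (coef n c k ρ)) (C / H)

/-- A short boundary makes the differential small away from its poles. -/
def St_SM : Prop := ∀ (W : Set ℂ) (φ ψ : ℂ → ℂ) (O : Finset ℂ) (A : ℂ → ℂ) (σ : ℝ), IsOpen W →
  IsBounded W → Bihol φ ψ W (ball 0 1) → O.Nonempty → (∀ y ∈ O, y ∉ frontier W) → 0 ≤ σ →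
  CapLe (frontier W) (qd O A) σ → ∀ p ∈ ball (0 : ℂ) 1, ψ p ∉ O →
    ‖kappa‖ ^ 2 * (‖qd O A (ψ p)‖ * ‖deriv ψ p‖ ^ 2 * (1 - ‖p‖ ^ 2) ^ 2 *
      ∏ y ∈ O, ‖bl W φ y (ψ p)‖ ^ 2) ≤ 16 * σ ^ 2

/-- The almost elliptic fixed point lies at moderate distance from the cycle. -/
def St_FP : Prop := ∀ (n : ℕ) (c : ℂ) (k : ℕ) (O : Finset ℂ) (ρ : ℂ) (W : Set ℂ) (κ : ℝ),
  Model n c k O W κ → Cyc n c k O ρ → 0 < κ → 10 ^ 9 * (k : ℝ) ^ 7 * κ ≤ 1 →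
    ∃ φ ψ : ℂ → ℂ, ∃ d : ℕ, ∃ x ∈ O, Bihol φ ψ W (ball 0 1) ∧ 1 ≤ d ∧ d ≤ k ∧
      (F n c)^[d] (ψ 0) = ψ 0 ∧ 1 / (5 * k) ≤ ‖dF n c d (ψ 0) - 1‖ ∧ x ∈ W ∧
      (F n c)^[d] x ∈ W ∧ (F n c)^[d] x ≠ x ∧ ‖φ x‖ ≤ 1 - 1 / (64 * k ^ 2) ∧
      ‖φ ((F n c)^[d] x)‖ ≤ 1 - 1 / (64 * k ^ 2)

/-- An almost automorphism of the disc that fixes the origin is almost linear. -/
def St_NR : Prop := ∀ (A C g : ℂ → ℂ) (κ a θ : ℝ) (z z' : ℂ), NearRot A κ → NearRot C κ →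
  0 < a → 0 < θ → θ ≤ 1 / 2 → κ ≤ (θ * a) ^ 2 / 512 → ‖z‖ ≤ 1 - a → ‖z'‖ ≤ 1 - a →
  (∀ t ∈ ball (0 : ℂ) 1, g (mob (-z) (C t)) = mob (-z') (A t)) →
  DifferentiableOn ℂ g (ball 0 (1 - θ)) → g 0 = 0 →
    ∀ w ∈ ball (0 : ℂ) (1 - θ), ‖g w - deriv g 0 * w‖ ≤ 1280 * κ / (θ * a ^ 2) * ‖w‖

/-- The points of the cycle near the fixed point form one orbit of an almost rotation. -/
def St_DYN : Prop := ∀ (n : ℕ) (c : ℂ) (k : ℕ) (O : Finset ℂ) (ρ : ℂ) (W : Set ℂ) (κ : ℝ),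
  Model n c k O W κ → Cyc n c k O ρ → 0 < κ → 2 ^ 67 * (k : ℝ) ^ 16 * κ ≤ 1 →
    ∃ φ ψ : ℂ → ℂ, ∃ d m : ℕ, ∃ x ∈ O, Bihol φ ψ W (ball 0 1) ∧ k = m * d ∧ 2 ≤ m ∧
      (F n c)^[d] (ψ 0) = ψ 0 ∧ (∀ j, 0 < j → j < m → (F n c)^[j * d] x ≠ x) ∧
      (∀ j, (F n c)^[j * d] x ∈ W ∧ ‖φ ((F n c)^[j * d] x)‖ ≤ 1 - 1 / (128 * k ^ 2)) ∧
      (∀ y ∈ O, y ∈ W → ‖φ y‖ ≤ 1 - 1 / (8192 * k ^ 4) → ∃ j < m, y = (F n c)^[j * d] x) ∧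
      ∀ j ≤ m, ∀ w ∈ ball (0 : ℂ) (1 - 1 / (1024 * k ^ 3)), (F n c)^[j * d] (ψ w) ∈ W ∧
        ‖φ ((F n c)^[j * d] (ψ w)) - dF n c d (ψ 0) ^ j * w‖ ≤ 2 ^ 35 * k ^ 7 * κ * ‖w‖

/-- Pull-back of a double pole. -/
def St_PB : Prop := ∀ (U : Set ℂ) (G : ℂ → ℂ) (z a : ℂ), IsOpen U → DifferentiableOn ℂ G U →
  z ∈ U → deriv G z ≠ 0 → (∀ w ∈ U, G w = G z → w = z) →
    ∃ R : ℂ → ℂ, DifferentiableOn ℂ R U ∧ ∀ w ∈ U, w ≠ z →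
      deriv G w ^ 2 * ((G w - G z)⁻¹ ^ 2 + a * (G w - G z)⁻¹) =
        (w - z)⁻¹ ^ 2 + act G z a * (w - z)⁻¹ + R w

/-- The chain rule for residues, and the residues along the cycle. -/
def St_ACT : Prop := (∀ (G₁ G₂ : ℂ → ℂ) (z a : ℂ), AnalyticAt ℂ G₂ z → AnalyticAt ℂ G₁ (G₂ z) →
    deriv G₂ z ≠ 0 → deriv G₁ (G₂ z) ≠ 0 → act (G₁ ∘ G₂) z a = act G₂ z (act G₁ (G₂ z) a)) ∧
  ∀ (n : ℕ) (c : ℂ) (k : ℕ) (O : Finset ℂ) (ρ : ℂ), Cyc n c k O ρ → ∀ x ∈ O, ∀ e : ℕ,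
    act (F n c)^[e] x (coef n c k ρ ((F n c)^[e] x)) = coef n c k ρ x

/-- From almost rotations to an almost regular polygon. -/
def St_POLY : Prop := ∀ (m : ℕ) (lam : ℂ) (z a : ℕ → ℂ) (G : ℕ → ℂ → ℂ) (ε η : ℝ),
  Loc m lam z a G ε η → 0 ≤ ε → 0 < η → 1000 * m ^ 2 * ε ≤ η ^ 2 →
    ∃ ζ, Gon m ζ z a (600 * ε / η ^ 2) ∧
      ∀ w ∈ ball (0 : ℂ) 1, ‖G m w - w‖ ≤ 600 * ε / η ^ 2 * ‖w‖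

/-- Moments of the polar part. -/
def St_G1 : Prop := ∀ (m : ℕ) (ζ : ℂ) (z a : ℕ → ℂ) (δ σ : ℝ) (g : ℂ → ℂ), Gon m ζ z a δ →
  0 ≤ δ → 0 ≤ σ → 100 * m * (δ + σ) ≤ 1 → DifferentiableOn ℂ g (closedBall 0 1) →
  (∀ w, ‖w‖ = 1 → ‖pol m z a w + g w‖ ≤ σ) →
    ‖∑ j ∈ Finset.range m, a j‖ ≤ σ ∧ (∀ j < m, ‖1 + z j * a j‖ ≤ 14 * (δ + σ)) ∧
      m ^ 2 * ‖z 0‖ ^ m ≤ 2 * σ

/-- Comparison of the polar part with the symmetric differential. -/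
def St_G2 : Prop := ∀ (m : ℕ) (ζ : ℂ) (z a : ℕ → ℂ) (δ ν : ℝ), Gon m ζ z a δ → 0 ≤ δ → δ ≤ ν →
  4 * m * δ ≤ 1 → ‖∑ j ∈ Finset.range m, a j‖ ≤ ν → (∀ j < m, ‖1 + z j * a j‖ ≤ 14 * ν) →
    ∀ w : ℂ, (1 + 1 / m) * ‖z 0‖ ≤ ‖w‖ → ‖w‖ ≤ 1 →
      ‖pol m z a w - m ^ 2 * z 0 ^ m * w ^ (m - 2) / (w ^ m - z 0 ^ m) ^ 2‖ * ‖w‖ ^ 2 ≤
        160 * m ^ 4 * ν

/-- The differential is almost a monomial on an annulus. -/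
def St_AN : Prop := ∀ (m : ℕ) (ζ : ℂ) (z a : ℕ → ℂ) (δ σ T : ℝ) (g : ℂ → ℂ), Gon m ζ z a δ →
  0 ≤ δ → 0 ≤ σ → 256 ≤ T → 10 ^ 5 * m ^ 2 * (δ + σ) * T ≤ 1 →
  DifferentiableOn ℂ g (closedBall 0 1) → (∀ w, ‖w‖ = 1 → ‖pol m z a w + g w‖ ≤ σ) →
    (∀ j < m, ‖1 + z j * a j‖ ≤ 1) ∧ 4 * T * ‖z 0‖ ^ m ≤ 1 ∧
      ∀ w : ℂ, T * ‖z 0‖ ^ m ≤ 2 * ‖w‖ ^ m → ‖w‖ ^ m ≤ 2 * T * ‖z 0‖ ^ m →
        ‖w ^ (m + 2) * (pol m z a w + g w) / (m ^ 2 * z 0 ^ m) - 1‖ ≤ 1 / 16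

/-- Local estimates for a small displacement, and the lower bound for the defect. -/
def St_LOC : Prop := (∀ (B : ℂ → ℂ) (w v X : ℂ) (r ε : ℝ), 0 < r → 0 ≤ ε → ε ≤ 1 / 50 →
    DifferentiableOn ℂ B (ball w (2 * r)) → (∀ u ∈ ball w (2 * r), ‖B u‖ ≤ 13 * ‖B w‖) →
    ‖v‖ ≤ ε * r → ‖X‖ ≤ ε → ‖(1 + X) ^ 2 * B (w + v) - B w‖ ≤ 11 * ε * ‖B w‖ ∧
      ‖2 * v * X * B w + v ^ 2 * deriv B w‖ ≤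
        2 * ‖v‖ * ‖(1 + X) ^ 2 * B (w + v) - B w‖ + 68 * ε * (‖v‖ ^ 2 * ‖B w‖) / r) ∧
  ∀ Ω e : ℂ, ‖Ω - 1‖ ≤ 1 / 16 → ‖e‖ ≤ 1 / 4 → ‖e‖ ≤ 2 * (dfc Ω (Ω + e) + e.re)

/-- A holomorphic function of mean zero is bounded by its angular defect. -/
def St_MEAN : Prop := ∀ (e : ℂ → ℂ) (D : ℂ → ℝ) (r s K L : ℝ), 0 < s → s < r → 0 ≤ K → 0 ≤ L →
  DifferentiableOn ℂ e (ball 0 (r + 2 * s)) → e 0 = 0 →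
  (∀ w ∈ ball (0 : ℂ) (r + s) \ ball 0 (r - s), ‖e w‖ ≤ 2 * (K * D w + (e w).re)) →
  ∫⁻ w in ball (0 : ℂ) (r + s) \ ball 0 (r - s), ENNReal.ofReal (D w) ≤ ENNReal.ofReal L →
    ∀ w : ℂ, ‖w‖ = r → ‖e w‖ * s ^ 2 ≤ 2 * K * L

/-- The interpolation inequality. -/
def St_G5 : Prop := ∀ (m : ℕ) (ζ : ℂ) (z a : ℕ → ℂ) (δ T r R M : ℝ) (f : ℂ → ℂ) (τ : ℂ),
  Gon m ζ z a δ → 0 ≤ δ → 4 * m ^ 2 * δ ≤ 1 → (∀ j < m, ‖1 + z j * a j‖ ≤ 1) → 256 ≤ T → 0 < r →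
  r < R → r ^ m = T * ‖z 0‖ ^ m → DifferentiableOn ℂ f (ball 0 R) → f 0 = 0 →
  (∀ j < m, f (z j) = τ ^ 2 ∧ deriv f (z j) = -(a j * τ ^ 3)) → ‖τ‖ ≤ 1 / 1280 →
  (∀ w : ℂ, ‖w‖ = r → ‖f w‖ ≤ M) → ‖τ‖ ^ 2 * T ^ 2 ≤ 128 * M

/-- The polygon lemma. -/
def St_GON : Prop := ∀ (m : ℕ) (ζ : ℂ) (z a : ℕ → ℂ) (δ σ T L : ℝ) (g H : ℂ → ℂ) (ρ : ℂ),
  Gon m ζ z a δ → 0 ≤ δ → 0 ≤ σ → 0 ≤ L → 256 ≤ T → 10 ^ 5 * m ^ 2 * (δ + σ) * T ≤ 1 →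
  DifferentiableOn ℂ g (closedBall 0 1) → (∀ w, ‖w‖ = 1 → ‖pol m z a w + g w‖ ≤ σ) →
  DifferentiableOn ℂ H (ball 0 1) → (∀ w ∈ ball (0 : ℂ) 1, ‖H w - w‖ ≤ δ * ‖w‖) →
  (∀ j < m, H (z j) = z j ∧ deriv H (z j) = ρ ∧ act H (z j) (a j) = a j) →
  (∀ A : Set ℂ, MeasurableSet A → A ⊆ ball 0 1 → MapsTo H A (ball 0 1) → InjOn H A →
    (∀ w ∈ A, ∀ j < m, w ≠ z j ∧ H w ≠ z j) → ∫⁻ w in A, ENNReal.ofReal (dfc (pol m z a w + g w)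
      (deriv H w ^ 2 * (pol m z a (H w) + g (H w)))) ≤ ENNReal.ofReal L) →
    ‖ρ - 1‖ ^ 2 * T ≤ 2 ^ 30 * m ^ 2 * L ^ 2

/-- The loss of one step. -/
def St_L1 (n : ℕ) : Prop := ∃ C : ℝ, 0 < C ∧ ∀ (c : ℂ) (k : ℕ) (O : Finset ℂ) (ρ : ℂ),
  Cyc n c k O ρ → ∫⁻ w in ball (0 : ℂ) (4 ^ n + 3), ENNReal.ofReal (dfc (qd O (coef n c k ρ) w)
    (((n : ℂ) * w ^ (n - 1)) ^ 2 * qd O (coef n c k ρ) (F n c w))) ≤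
      ENNReal.ofReal (C * eps n c k O ρ)

/-- The loss of many steps, in a chart. -/
def St_LK : Prop := ∀ (n : ℕ) (c : ℂ) (k : ℕ) (B Ψ : ℂ → ℂ) (U A : Set ℂ) (R L : ℝ), 2 ≤ n →
  ‖c‖ ≤ 2 → 3 ≤ R → 0 ≤ L → Measurable B → IsOpen U → DifferentiableOn ℂ Ψ U → MeasurableSet A →
  A ⊆ U → InjOn ((F n c)^[k] ∘ Ψ) A → MapsTo ((F n c)^[k] ∘ Ψ) A (ball 0 R) →
  ∫⁻ w in ball (0 : ℂ) R, ENNReal.ofReal (dfc (B w) (((n : ℂ) * w ^ (n - 1)) ^ 2 * B (F n c w))) ≤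
    ENNReal.ofReal L →
    ∫⁻ w in A, ENNReal.ofReal (dfc (deriv Ψ w ^ 2 * B (Ψ w))
      ((dF n c k (Ψ w) * deriv Ψ w) ^ 2 * B ((F n c)^[k] (Ψ w)))) ≤ ENNReal.ofReal (k * L)

/-- The core inequality. -/
def St_CORE (n : ℕ) : Prop := ∃ C : ℝ, 1 ≤ C ∧ ∀ (c : ℂ) (k : ℕ) (O : Finset ℂ) (ρ : ℂ),
  Cyc n c k O ρ → ∀ H : ℝ, C * k ^ 16 ≤ H → 1 ≤ (‖ρ‖ - 1) * H ^ 24 → eps n c k O ρ * H ^ 23 ≤ 1 →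
    ‖ρ - 1‖ ^ 2 * H ≤ C * k ^ 17 * eps n c k O ρ ^ 2

/-- Lower bound for the logarithmic derivative of the multiplier in the parameter. -/
def St_F1 (n : ℕ) : Prop := ∃ C : ℝ, 0 < C ∧ ∀ (k : ℕ) (c z a b s : ℂ), ‖c‖ ≤ 2 → 0 < k →
  (F n c)^[k] z = z → 1 < ‖dF n c k z‖ → C * k ^ 456 * (‖dF n c k z‖ - 1) ≤ 1 →
  HasDerivAt (fun t : ℂ => (F n (c + t * a))^[k] (z + t * b)) b 0 →
  HasDerivAt (fun t : ℂ => dF n (c + t * a) k (z + t * b)) (dF n c k z * s) 0 →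
    ‖a‖ ^ 48 * Real.log ‖dF n c k z‖ ^ 47 ≤ C * k ^ 408 * ‖s‖ ^ 48

/-- Continuation of a cycle along the logarithm of its multiplier. -/
def St_F3 (n : ℕ) : Prop := ∃ C : ℝ, 1 ≤ C ∧ ∀ (k : ℕ) (D : ℝ) (ω t₀ c z : ℂ), 0 < k → 0 < D →
  ‖ω‖ = 1 → t₀ ∈ ball (D : ℂ) D → (F n c)^[k] z = z → dF n c k z = ω * exp t₀ →
  C * k ^ 456 * D ≤ 1 →
    ∃ G : ℂ → ℂ × ℂ, ContinuousOn G (ball (D : ℂ) D) ∧ G t₀ = (c, z) ∧ ∀ t ∈ ball (D : ℂ) D,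
      (F n (G t).1)^[k] (G t).2 = (G t).2 ∧ dF n (G t).1 k (G t).2 = ω * exp t ∧
        ‖(G t).1 - c‖ ^ 48 ≤ C * k ^ 408 * D ∧ ∀ᶠ p : (ℂ × ℂ) × ℂ in 𝓝 (G t, t),
          (F n p.1.1)^[k] p.1.2 = p.1.2 → dF n p.1.1 k p.1.2 = ω * exp p.2 → G p.2 = p.1

end Pool.Agent.Lib.MP_c35c17_an.R
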