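import Pool.Agent.Lib.MP_c35c17_an.LBlue

/-! Block F3a: lifting a curve through a map that is proper and unramified over it. -/

set_option autoImplicit false

open Filter Topology Set Metric Complex Bornology N62a1eb23
open scoped Real

namespace Pool.Agent.Lib.MP_c35c17_an.L

namespace F3a

theorem chart {Θ : ℂ × ℂ → ℂ × ℂ} (hΘ : ContDiff ℂ 1 Θ) {e : ℂ × ℂ}
    (hd : Function.Injective (fderiv ℂ Θ e)) :
    ∃ φ : OpenPartialHomeomorph (ℂ × ℂ) (ℂ × ℂ), e ∈ φ.source ∧ (φ : ℂ × ℂ → ℂ × ℂ) = Θ ∧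
      DifferentiableAt ℂ φ.symm (Θ e) := by
  have h1 : HasStrictFDerivAt Θ (fderiv ℂ Θ e) e := hΘ.contDiffAt.hasStrictFDerivAt one_ne_zero
  set L : (ℂ × ℂ) ≃L[ℂ] (ℂ × ℂ) :=
    (LinearEquiv.ofInjectiveEndo (fderiv ℂ Θ e).toLinearMap hd).toContinuousLinearEquiv
  have h5 : HasStrictFDerivAt Θ (L : (ℂ × ℂ) →L[ℂ] (ℂ × ℂ)) e := h1
  exact ⟨h5.toOpenPartialHomeomorph _, h5.mem_toOpenPartialHomeomorph_source, rfl,
    h5.to_localInverse.hasFDerivAt.differentiableAt⟩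

theorem lift {Θ : ℂ × ℂ → ℂ × ℂ} {γ : ℂ → ℂ × ℂ} {t₁ t₀ : ℂ} {D R : ℝ} {p₀ : ℂ × ℂ}
    (hΘ : ContDiff ℂ 1 Θ) (hγ : Continuous γ)
    (hb : ∀ t ∈ ball t₁ D, ∀ p, Θ p = γ t → ‖p‖ < R ∧ Function.Injective (fderiv ℂ Θ p))
    (ht : t₀ ∈ ball t₁ D) (h0 : Θ p₀ = γ t₀) :
    ∃ G : ℂ → ℂ × ℂ, ContinuousOn G (ball t₁ D) ∧ G t₀ = p₀ ∧ ∀ t ∈ ball t₁ D, Θ (G t) = γ t := by
  set K : Set (ℂ × ℂ) := closedBall 0 R with hK
  have : CompactSpace K := isCompact_iff_compactSpace.mp (isCompact_closedBall _ _)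
  set s : Set (ℂ × ℂ) := γ '' ball t₁ D with hs
  have hval : IsLocalHomeomorphOn (Subtype.val : K → ℂ × ℂ) (Subtype.val ⁻¹' (Θ ⁻¹' s)) := by
    rw [isLocalHomeomorphOn_iff_isOpenEmbedding_restrict]
    rintro x ⟨t, h1, h2⟩
    have ho : IsOpen (ball (0 : ℂ × ℂ) R) := isOpen_ball
    refine ⟨Subtype.val ⁻¹' (ball 0 R), (ho.preimage continuous_subtype_val).mem_nhds
      (mem_ball_zero_iff.mpr (hb _ h1 _ h2.symm).1),
      IsEmbedding.subtypeVal.comp IsEmbedding.subtypeVal, ?_⟩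
    convert ho
    ext p
    exact ⟨by rintro ⟨q, rfl⟩; exact q.2, fun h => ⟨⟨⟨p, ball_subset_closedBall h⟩, h⟩, rfl⟩⟩
  have hloc : IsLocalHomeomorphOn Θ (Θ ⁻¹' s) := by
    rintro e ⟨t, h1, h2⟩
    obtain ⟨φ, h3, h4, -⟩ := chart hΘ (hb _ h1 _ h2.symm).2
    exact ⟨φ, h3, h4.symm⟩
  have hcov : IsCoveringMapOn (Θ ∘ (Subtype.val : K → ℂ × ℂ)) s :=
    IsCoveringMapOn.of_isLocalHomeomorphOn (hΘ.continuous.comp continuous_subtype_val)
      (hloc.comp hval fun _ h => h)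
  have := (convex_ball t₁ D).contractibleSpace ⟨t₀, ht⟩
  have := (isOpen_ball (x := t₁) (ε := D)).locallyPathConnectedSpace
  obtain ⟨Fl, ⟨h1, h2⟩, -⟩ := hcov.existsUnique_continuousMap_lifts
    (⟨fun a : ball t₁ D => γ a, by fun_prop⟩) (a₀ := ⟨t₀, ht⟩)
    (e₀ := ⟨p₀, mem_closedBall_zero_iff.mpr (hb _ ht _ h0).1.le⟩)
    (by simp [h0]) (fun a => ⟨a, a.2, rfl⟩)
  classical
  set G : ℂ → ℂ × ℂ := fun u => if h : u ∈ ball t₁ D then (Fl ⟨u, h⟩).1 else 0 with hG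
  refine ⟨G, ?_, by simp only [hG, ht, dif_pos, h1], fun u h => ?_⟩
  · rw [continuousOn_iff_continuous_domRestrict]
    have : (ball t₁ D).domRestrict G = fun a => (Fl a).1 := funext fun a => dif_pos a.2
    rw [this]; fun_prop
  · have h3 := congrFun h2 ⟨u, h⟩
    simp only [Function.comp_apply, ContinuousMap.coe_mk] at h3
    simp only [hG, h, dif_pos, h3]

end F3a

theorem f3a : St_F3a := by
  intro Θ γ γ' t₁ t₀ D R p₀ hΘ hγ hb ht h0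
  have hγc : Continuous γ := continuous_iff_continuousAt.mpr fun t => (hγ t).continuousAt
  obtain ⟨G, hc, h1, hz⟩ := F3a.lift hΘ hγc hb ht h0
  refine ⟨G, h1, fun t h => ⟨hz t h, ?_⟩⟩
  have hn := isOpen_ball.mem_nhds h
  obtain ⟨φ, p1, p2, p3⟩ := F3a.chart hΘ (hb t h _ (hz t h)).2
  have hs := φ.open_source.mem_nhds p1
  have e1 : ∀ᶠ u in 𝓝 t, G u ∈ φ.source ∧ Θ (G u) = γ u :=
    ((hc.continuousAt hn).eventually hs).and (eventually_of_mem hn hz)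
  constructor
  · have e2 : G =ᶠ[𝓝 t] φ.symm ∘ γ := by
      filter_upwards [e1] with u hu
      rw [Function.comp_apply, ← hu.2, ← p2, φ.left_inv hu.1]
    rw [hz t h] at p3
    have d1 : DifferentiableAt ℂ G t :=
      (p3.comp t (hγ t).differentiableAt).congr_of_eventuallyEq e2
    refine ⟨_, d1.hasDerivAt, ?_⟩
    have d2 := (hΘ.differentiable one_ne_zero (G t)).hasFDerivAt.comp_hasDerivAt t d1.hasDerivAt
    exact d2.unique ((hγ t).congr_of_eventuallyEq (e1.mono fun u hu => hu.2))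
  · filter_upwards [continuousAt_fst.eventually (show ∀ᶠ p in 𝓝 ((G t, t) : (ℂ × ℂ) × ℂ).1,
      p ∈ φ.source from hs), continuousAt_snd.eventually
        (show ∀ᶠ u in 𝓝 ((G t, t) : (ℂ × ℂ) × ℂ).2, G u ∈ φ.source ∧ Θ (G u) = γ u from e1)]
      with q q1 q2 q3
    exact φ.injOn q2.1 q1 (by rw [p2, q2.2, q3])

end Pool.Agent.Lib.MP_c35c17_an.L
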