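import Pool.Agent.Lib.MP_c35c17_an.RBase

/-! The differential is almost a monomial on an annulus. -/

set_option autoImplicit false

open Filter Topology Set Metric Complex Bornology MeasureTheory
open scoped Real ENNReal ComplexConjugate

namespace Pool.Agent.Lib.MP_c35c17_an.R

open Q

namespace T58

theorem out {m : ℕ} (hm : 2 ≤ m) {s t : ℝ} (hs : 0 ≤ s) (ht : 0 ≤ t) (h : 3 * s ^ m ≤ t ^ m) :
    (1 + 1 / m) * s ≤ t := by
  refine le_of_pow_le_pow_left₀ (by omega : m ≠ 0) ht (le_trans ?_ h)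
  rw [mul_pow]
  gcongr
  exact one_add_inv_pow_le m

theorem quot {y y₀ : ℂ} (hy : y ≠ 0) (h : 128 * ‖y₀‖ ≤ ‖y‖) :
    y - y₀ ≠ 0 ∧ ‖y ^ 2 / (y - y₀) ^ 2 - 1‖ ≤ 1 / 50 := by
  have h0 := norm_pos_iff.mpr hy
  have h1 : 127 / 128 * ‖y‖ ≤ ‖y - y₀‖ := by linarith [norm_sub_norm_le y y₀]
  have h2 : 0 < ‖y - y₀‖ := by linarith
  have h3 := norm_pos_iff.mp h2
  refine ⟨h3, ?_⟩
  rw [show y ^ 2 / (y - y₀) ^ 2 - 1 = y₀ * (2 * y - y₀) / (y - y₀) ^ 2 by field_simp; ring,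
    norm_div, norm_pow, div_le_iff₀ (by positivity), norm_mul]
  have h4 : ‖2 * y - y₀‖ ≤ 2 * ‖y‖ + ‖y‖ / 128 :=
    (norm_sub_le _ _).trans (by rw [norm_mul, Complex.norm_ofNat]; linarith)
  calc _ ≤ ‖y‖ / 128 * (2 * ‖y‖ + ‖y‖ / 128) := by gcongr; linarith
    _ ≤ 1 / 50 * (127 / 128 * ‖y‖) ^ 2 := by nlinarith
    _ ≤ _ := by gcongr

end T58

theorem st_AN (h1 : St_G1) (h2 : St_G2) : St_AN := by
  intro m ζ z a δ σ T g h hδ hσ hT hs hg hb
  have hm : (2 : ℝ) ≤ m := by exact_mod_cast h.two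
  have hm0 : m ≠ 0 := by have := h.two; omega
  have hs0 := norm_pos_iff.mpr h.ne
  have hν : 0 ≤ δ + σ := by positivity
  have n1 : 10 ^ 5 * (m ^ 2 * (δ + σ)) * 256 ≤ 1 := le_trans (by rw [mul_assoc _ _ (δ + σ)]; gcongr) hs
  have n2 : m * (δ + σ) * 2 ≤ m ^ 2 * (δ + σ) := by
    rw [show (m : ℝ) ^ 2 * (δ + σ) = m * (δ + σ) * m by ring]; gcongr
  have n3 : 2 * (δ + σ) ≤ m * (δ + σ) := by gcongr
  obtain ⟨a1, a2, a3⟩ := h1 m ζ z a δ σ g h hδ hσ (by linarith) hg hb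
  have n4 : m * δ ≤ m * (δ + σ) := by gcongr; linarith
  have G2 := h2 m ζ z a δ (δ + σ) h hδ (by linarith) (by linarith) (by linarith) a2
  have p0 : 0 < ‖z 0‖ ^ m := by positivity
  have p1 : 4 * ‖z 0‖ ^ m ≤ m ^ 2 * ‖z 0‖ ^ m := by gcongr; nlinarith
  have p2 : 4 * T * ‖z 0‖ ^ m ≤ 1 := by
    have : 10 ^ 5 * 1 * σ * T ≤ 1 := le_trans (by gcongr <;> nlinarith) hs
    nlinarith
  have p3 : 1024 * ‖z 0‖ ^ m ≤ 1 := by nlinarith
  have hg1 : ∀ w ∈ closure (ball (0 : ℂ) 1), ‖g w‖ ≤ 170 * m ^ 4 * (δ + σ) := fun w hw => by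
    refine norm_le_of_forall_mem_frontier_norm_le isBounded_ball
      (hg.mono closure_ball_subset_closedBall).diffContOnCl (fun u hu => ?_) hw
    rw [frontier_ball _ one_ne_zero, mem_sphere_zero_iff_norm] at hu
    have q1 := G2 u (T58.out h.two hs0.le (norm_nonneg _) (by rw [hu, one_pow]; linarith)) hu.le
    rw [hu, one_pow, mul_one] at q1
    have q2 : 1 / 2 ≤ ‖u ^ m - z 0 ^ m‖ := by
      have := norm_sub_norm_le (u ^ m) (z 0 ^ m)
      rw [norm_pow, norm_pow, hu, one_pow] at this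
      linarith
    have q3 : ‖(m : ℂ) ^ 2 * z 0 ^ m * u ^ (m - 2) / (u ^ m - z 0 ^ m) ^ 2‖ ≤ 8 * σ := by
      rw [norm_div, norm_pow, div_le_iff₀ (by positivity)]
      simp only [norm_mul, norm_pow, hu, one_pow, mul_one, Complex.norm_natCast]
      calc _ ≤ 8 * σ * (1 / 2) ^ 2 := by linarith
        _ ≤ _ := by gcongr
    have q4 := norm_sub_le (pol m z a u + g u) (pol m z a u)
    have q5 := norm_le_norm_add_norm_sub' (pol m z a u)
      ((m : ℂ) ^ 2 * z 0 ^ m * u ^ (m - 2) / (u ^ m - z 0 ^ m) ^ 2)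
    have q6 : δ + σ ≤ m ^ 4 * (δ + σ) := le_mul_of_one_le_left hν (one_le_pow₀ (by linarith))
    rw [add_sub_cancel_left] at q4
    linarith [hb u hu]
  refine ⟨fun j hj => (a2 j hj).trans (by linarith), p2, fun w w1 w2 => ?_⟩
  have w3 : 128 * ‖z 0‖ ^ m ≤ ‖w‖ ^ m := by nlinarith
  have w4 : ‖w‖ ≤ 1 := (pow_le_one_iff_of_nonneg (norm_nonneg _) hm0).mp (by linarith)
  have w0 : w ≠ 0 := fun e => by rw [e, norm_zero, zero_pow hm0] at w3; linarith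
  have q1 := G2 w (T58.out h.two hs0.le (norm_nonneg _) (by linarith)) w4
  have q2 := hg1 w (by rw [closure_ball _ one_ne_zero]; exact mem_closedBall_zero_iff.mpr w4)
  obtain ⟨q3, q4⟩ := T58.quot (y₀ := z 0 ^ m) (pow_ne_zero m w0) (by rwa [norm_pow, norm_pow])
  have hc : (m : ℂ) ≠ 0 := by exact_mod_cast hm0
  have hz := pow_ne_zero m h.ne
  have e : w ^ (m + 2) * (pol m z a w + g w) / (m ^ 2 * z 0 ^ m) - 1 =
      ((w ^ m) ^ 2 / (w ^ m - z 0 ^ m) ^ 2 - 1) + w ^ m / (m ^ 2 * z 0 ^ m) *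
        ((pol m z a w - m ^ 2 * z 0 ^ m * w ^ (m - 2) / (w ^ m - z 0 ^ m) ^ 2) * w ^ 2 +
          g w * w ^ 2) := by
    have e1 : w ^ m = w ^ (m - 2) * w ^ 2 := by rw [← pow_add, Nat.sub_add_cancel h.two]
    rw [pow_add]
    generalize w ^ m - z 0 ^ m = D at q3
    generalize z 0 ^ m = y₀ at hz
    rw [e1]
    field_simp
    ring
  have q5 : ‖w ^ m / (m ^ 2 * z 0 ^ m)‖ ≤ 2 * T / m ^ 2 := by
    rw [norm_div, norm_mul, norm_pow, norm_pow, norm_pow, Complex.norm_natCast,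
      div_le_div_iff₀ (by positivity) (by positivity)]
    calc _ ≤ 2 * T * ‖z 0‖ ^ m * m ^ 2 := by gcongr
      _ = _ := by ring
  have q6 : ‖g w * w ^ 2‖ ≤ 170 * m ^ 4 * (δ + σ) := by
    rw [norm_mul, norm_pow]
    exact (mul_le_of_le_one_right (norm_nonneg _) (pow_le_one₀ (norm_nonneg _) w4)).trans q2
  rw [← norm_pow, ← norm_mul] at q1
  rw [e]
  refine (norm_add_le _ _).trans ?_
  rw [norm_mul]
  calc _ ≤ 1 / 50 + 2 * T / m ^ 2 * (160 * m ^ 4 * (δ + σ) + 170 * m ^ 4 * (δ + σ)) := by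
        gcongr
        exact norm_add_le_of_le q1 q6
    _ = 1 / 50 + 660 * (m ^ 2 * (δ + σ) * T) := by field_simp; ring
    _ ≤ _ := by linarith

end Pool.Agent.Lib.MP_c35c17_an.R
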