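import Pool.Agent.Lib.MP_c35c17_an.RBase

/-! The core inequality. -/

set_option autoImplicit false

open Filter Topology Set Metric Complex Bornology MeasureTheory
open scoped Real ENNReal ComplexConjugate

namespace Pool.Agent.Lib.MP_c35c17_an.R

open Q

namespace T55

theorem mob_ge {u v : ℂ} (hu : ‖u‖ < 1) (hv : ‖v‖ < 1) :
    (1 - ‖mob u v‖ ^ 2) * (1 - ‖u‖) ≤ 4 * (1 - ‖v‖) ∧
      (1 - ‖mob u v‖ ^ 2) * (1 - ‖v‖) ≤ 4 * (1 - ‖u‖) := by
  have h0 := norm_nonneg u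
  have h1 := norm_nonneg v
  have h2 := norm_pos_iff.mpr (mob_den_ne hu hv.le)
  have h3 := mob_den_norm u v
  have h4 : (1 - ‖u‖) ^ 2 ≤ ‖1 - conj u * v‖ ^ 2 := by gcongr; nlinarith
  have h5 : (1 - ‖v‖) ^ 2 ≤ ‖1 - conj u * v‖ ^ 2 := by gcongr; nlinarith
  have h6 : (1 + ‖u‖) * (1 + ‖v‖) ≤ 4 := by nlinarith
  have hu' := sub_pos.mpr hu
  have hv' := sub_pos.mpr hv
  rw [mob_norm_sq hu hv.le, div_mul_eq_mul_div, div_mul_eq_mul_div, div_le_iff₀ (by positivity),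
    div_le_iff₀ (by positivity)]
  constructor
  · calc _ = (1 + ‖u‖) * (1 + ‖v‖) * (1 - ‖v‖) * (1 - ‖u‖) ^ 2 := by ring
      _ ≤ _ := by gcongr
  · calc _ = (1 + ‖u‖) * (1 + ‖v‖) * (1 - ‖u‖) * (1 - ‖v‖) ^ 2 := by ring
      _ ≤ _ := by gcongr

theorem core_aux (hSM : St_SM) (hDYN : St_DYN) (hPB : St_PB) (hACT : St_ACT) (hPOLY : St_POLY)
    (hGON : St_GON) (hLK : St_LK) {n : ℕ} {c : ℂ} {k : ℕ} {O : Finset ℂ} {ρ : ℂ} {W : Set ℂ}
    {κ σ L T : ℝ} (h : Cyc n c k O ρ) (md : Model n c k O W κ) (hκ0 : 0 < κ)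
    (hκ : 2 ^ 67 * (k : ℝ) ^ 16 * κ ≤ 1) (hW : W ⊆ ball 0 (4 ^ n + 3))
    (hfr : ∀ y ∈ O, y ∉ frontier W) (hσ : 0 ≤ σ)
    (hcap : CapLe (frontier W) (qd O (coef n c k ρ)) σ) (hL0 : 0 ≤ L)
    (hL : ∫⁻ w in ball (0 : ℂ) (4 ^ n + 3), ENNReal.ofReal (dfc (qd O (coef n c k ρ) w)
      (((n : ℂ) * w ^ (n - 1)) ^ 2 * qd O (coef n c k ρ) (F n c w))) ≤ ENNReal.ofReal L)
    (hT : 256 ≤ T)
    (hT' : 10 ^ 5 * k ^ 2 * (2 ^ 61 * k ^ 11 * κ + 2 ^ 25 * k ^ 6 * σ ^ 2 / ‖kappa‖ ^ 2) * T ≤ 1) :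
    ‖ρ - 1‖ ^ 2 * T ≤ 2 ^ 30 * k ^ 4 * L ^ 2 := by
  classical
  obtain ⟨φ, ψ, d, m, x, hx, hb, hkm, hm2, hfix, hex, hin, hall, hnear⟩ :=
    hDYN n c k O ρ W κ md h hκ0 hκ
  have hk : (1 : ℝ) ≤ k := by exact_mod_cast h.pos
  have hd0 : 0 < d := Nat.pos_of_mul_pos_left (hkm ▸ h.pos)
  have hmk : (m : ℝ) ≤ k := by exact_mod_cast hkm ▸ Nat.le_mul_of_pos_right m hd0
  have hkap := kappa_pos
  set A := coef n c k ρ with hA
  set t : ℝ := 1 / k with ht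
  have ht0 : 0 < t := by positivity
  have ht1 : t ≤ 1 := by rw [ht, div_le_one (by positivity)]; exact hk
  have hkt : k * t = 1 := by rw [ht]; field_simp
  have htp : ∀ {i j : ℕ}, i ≤ j → t ^ j ≤ t ^ i := fun hij => pow_le_pow_of_le_one ht0.le ht1 hij
  have e2 : 1 / (128 * (k : ℝ) ^ 2) = t ^ 2 / 128 := by rw [ht]; field_simp
  have e3 : 1 / (1024 * (k : ℝ) ^ 3) = t ^ 3 / 1024 := by rw [ht]; field_simp
  have e4 : 1 / (8192 * (k : ℝ) ^ 4) = t ^ 4 / 8192 := by rw [ht]; field_simp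
  rw [e2] at hin
  rw [e3] at hnear
  rw [e4] at hall
  have p2 : 0 < t ^ 2 := by positivity
  have p3 : 0 < t ^ 3 := by positivity
  have p4 : 0 < t ^ 4 := by positivity
  have q2 : t ^ 2 ≤ 1 := pow_le_one₀ ht0.le ht1
  have q3 : t ^ 3 ≤ t ^ 2 := htp (by norm_num)
  have q4 : t ^ 4 ≤ t ^ 3 := htp (by norm_num)
  obtain ⟨r, hr⟩ : ∃ r : ℝ, r = 1 - t ^ 3 / 1024 := ⟨_, rfl⟩
  rw [← hr] at hnear
  have hr0 : 0 < r := by linarith
  have hrc : (r : ℂ) ≠ 0 := by exact_mod_cast hr0.ne'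
  have hnr : ∀ w : ℂ, ‖(r : ℂ) * w‖ = r * ‖w‖ := fun w => by
    rw [norm_mul, norm_real, Real.norm_of_nonneg hr0.le]
  set Ψ : ℂ → ℂ := fun w => ψ (r * w) with hΨ
  have hΨa : ∀ u : ℂ, (r : ℂ) * u ∈ ball (0 : ℂ) 1 → AnalyticAt ℂ Ψ u ∧
      deriv Ψ u = deriv ψ (r * u) * r ∧ deriv Ψ u ≠ 0 := fun u hu => by
    have h1 := hb.dψ.analyticAt (isOpen_ball.mem_nhds hu)
    have h2 : deriv Ψ u = deriv ψ (r * u) * r :=
      (h1.differentiableAt.hasDerivAt.comp u ((hasDerivAt_id' u).const_mul (r : ℂ))).deriv.trans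
        (by rw [mul_one])
    exact ⟨h1.comp (f := fun w : ℂ => (r : ℂ) * w) (by fun_prop), h2, h2 ▸ mul_ne_zero
      (right_ne_zero_of_mul_eq_one (hb.symm.deriv_mul isOpen_ball md.opn hu)) hrc⟩
  have hΨi : ∀ u v : ℂ, (r : ℂ) * u ∈ ball (0 : ℂ) 1 → (r : ℂ) * v ∈ ball (0 : ℂ) 1 →
      Ψ u = Ψ v → u = v := fun u v hu hv e => mul_left_cancel₀ hrc (hb.symm.injOn hu hv e)
  set U : Set ℂ := ball 0 ((1 - t ^ 4 / 8192) / r) with hU
  have hU1 : ∀ u ∈ U, ‖(r : ℂ) * u‖ < 1 - t ^ 4 / 8192 := fun u hu => by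
    rw [hnr, ← lt_div_iff₀' hr0]; exact mem_ball_zero_iff.mp hu
  have hU2 : ∀ u ∈ U, (r : ℂ) * u ∈ ball (0 : ℂ) 1 := fun u hu =>
    mem_ball_zero_iff.mpr (by linarith [hU1 u hu])
  have hU3 : closedBall (0 : ℂ) 1 ⊆ U := closedBall_subset_ball (by
    rw [lt_div_iff₀ hr0]; linarith)
  have hU4 : ball (0 : ℂ) 1 ⊆ U := ball_subset_closedBall.trans hU3
  have hΨd : DifferentiableOn ℂ Ψ U := fun u hu =>
    (hΨa u (hU2 u hu)).1.differentiableAt.differentiableWithinAt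
  have hrb : ∀ w ∈ ball (0 : ℂ) 1, (r : ℂ) * w ∈ ball (0 : ℂ) r := fun w hw => by
    rw [mem_ball_zero_iff, hnr]; exact mul_lt_of_lt_one_right hr0 (mem_ball_zero_iff.mp hw)
  set X : ℕ → ℂ := fun j => (F n c)^[j * d] x with hX
  have hXO : ∀ j, X j ∈ O := fun j => h.iter_mem hx _
  have hXadd : ∀ i j, (F n c)^[j * d] (X i) = X (i + j) := fun i j => by
    simp only [hX]
    rw [← Function.iterate_add_apply, add_mul, add_comm]
  have hXper : ∀ i, X (i + m) = X i := fun i => by rw [← hXadd, ← hkm, h.per _ (hXO i)]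
  set z : ℕ → ℂ := fun j => φ (X j) / r with hz
  have hrz : ∀ j, (r : ℂ) * z j = φ (X j) := fun j => mul_div_cancel₀ _ hrc
  have hΨz : ∀ j, Ψ (z j) = X j := fun j => by simp only [hΨ]; rw [hrz, hb.left _ (hin j).1]
  have hzle : ∀ j, ‖z j‖ ≤ 1 - t ^ 2 / 256 := fun j => by
    refine le_of_mul_le_mul_left ?_ hr0
    rw [← hnr, hrz]
    exact (hin j).2.trans (by rw [hr]; nlinarith)
  have hzb : ∀ j, z j ∈ ball (0 : ℂ) 1 := fun j => mem_ball_zero_iff.mpr (by linarith [hzle j])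
  set a : ℕ → ℂ := fun j => act Ψ (z j) (A (X j)) with ha
  set G : ℕ → ℂ → ℂ := fun j w => φ ((F n c)^[j * d] (Ψ w)) / r with hG
  have hrG : ∀ j w, (r : ℂ) * G j w = φ ((F n c)^[j * d] (Ψ w)) := fun j w => mul_div_cancel₀ _ hrc
  have hGW : ∀ j ≤ m, ∀ w ∈ ball (0 : ℂ) 1, (F n c)^[j * d] (Ψ w) ∈ W := fun j hj w hw =>
    (hnear j hj _ (hrb w hw)).1
  have hΨG : ∀ j ≤ m, ∀ w ∈ ball (0 : ℂ) 1, Ψ (G j w) = (F n c)^[j * d] (Ψ w) := fun j hj w hw => by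
    simp only [hΨ] at hGW ⊢
    rw [hrG, hb.left _ (hGW j hj w hw)]
  have hGd : ∀ j ≤ m, DifferentiableOn ℂ (G j) (ball 0 1) := fun j hj =>
    (hb.dφ.comp ((differentiable_iter n c _).comp_differentiableOn (hΨd.mono hU4))
      (hGW j hj)).div_const _
  have hGz : ∀ j i, G j (z i) = z (i + j) := fun j i => by
    change φ ((F n c)^[j * d] (Ψ (z i))) / r = φ (X (i + j)) / r
    rw [hΨz, hXadd]
  have hev : ∀ j ≤ m, ∀ w ∈ ball (0 : ℂ) 1, Ψ ∘ G j =ᶠ[𝓝 w] (F n c)^[j * d] ∘ Ψ :=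
    fun j hj w hw => eventually_of_mem (isOpen_ball.mem_nhds hw) (hΨG j hj)
  have hGa : ∀ j ≤ m, ∀ w ∈ ball (0 : ℂ) 1, (r : ℂ) * G j w ∈ ball (0 : ℂ) 1 := fun j hj w hw => by
    rw [hrG]; exact hb.mφ (hGW j hj w hw)
  have hder : ∀ j ≤ m, ∀ w ∈ ball (0 : ℂ) 1, deriv Ψ (G j w) * deriv (G j) w =
      dF n c (j * d) (Ψ w) * deriv Ψ w := fun j hj w hw => by
    have h1 := ((hΨa _ (hGa j hj w hw)).1.differentiableAt.hasDerivAt.comp w
      ((hGd j hj).differentiableAt (isOpen_ball.mem_nhds hw)).hasDerivAt).deriv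
    have h2 := ((hasDerivAt_iter n c (j * d) (Ψ w)).comp w
      (hΨa w (hU2 w (hU4 hw))).1.differentiableAt.hasDerivAt).deriv
    rw [← h1, ← h2, (hev j hj w hw).deriv_eq]
  have hcoc : ∀ j ≤ m, ∀ i, act (G j) (z i) (a (i + j)) = a i := fun j hj i => by
    have h1 := hΨa _ (hU2 _ (hU4 (hzb i)))
    have h2 := hΨa _ (hGa j hj _ (hzb i))
    have h3 : deriv (F n c)^[j * d] (Ψ (z i)) ≠ 0 := by
      rw [(hasDerivAt_iter n c _ _).deriv, hΨz]; exact h.dF_ne (hXO i) _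
    have h4 : deriv (G j) (z i) ≠ 0 := right_ne_zero_of_mul (by
      rw [hder j hj _ (hzb i), hΨz]; exact mul_ne_zero (h.dF_ne (hXO i) _) h1.2.2)
    have h5 := hACT.1 Ψ (G j) (z i) (A (X (i + j)))
      ((hGd j hj).analyticAt (isOpen_ball.mem_nhds (hzb i))) h2.1 h4 h2.2.2
    have h6 := hACT.1 (F n c)^[j * d] Ψ (z i) (A (X (i + j))) h1.1
      ((differentiable_iter n c _).analyticAt _) h1.2.2 h3
    rw [act_congr (hev j hj _ (hzb i)), h6, hGz, hΨz, ← hXadd,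
      hACT.2 n c k O ρ h _ (hXO i), hXadd] at h5
    exact h5.symm
  have hzi : ∀ i j, z i = z j → X i = X j := fun i j e => by rw [← hΨz, e, hΨz]
  have hloc : Loc m (dF n c d (ψ 0)) z a G (2 ^ 35 * k ^ 7 * κ) (t ^ 2 / 256) := by
    refine ⟨hm2, fun e => hex 1 one_pos (by omega) ?_, fun j h1 h2 e => hex j h1 h2 ?_,
      fun i => by simp only [hz, hXper], hzle, hGd, fun j hj w hw => ?_, fun j _ i => hGz j i,
      fun j hj => by simpa using hcoc j hj.le 0⟩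
    · have h1 := hΨz 0
      simp only [e, hΨ, hX, mul_zero, zero_mul, Function.iterate_zero, id] at h1
      rw [one_mul, ← h1, hfix]
    · simpa [hX] using hzi _ _ e
    · refine le_of_mul_le_mul_left ?_ hr0
      rw [← hnr, mul_sub, hrG, mul_left_comm, mul_left_comm r, ← hnr]
      exact (hnear j hj _ (hrb w hw)).2
  have hδe : 600 * (2 ^ 35 * k ^ 7 * κ) / (t ^ 2 / 256) ^ 2 = 600 * 2 ^ 51 * (k ^ 11 * κ) := by
    rw [ht]; field_simp; norm_num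
  obtain ⟨ζ, hgon, hH⟩ := hPOLY m _ z a G _ _ hloc (by positivity) (by positivity) (by
    have h1 : (t ^ 2 / 256) ^ 2 = 1 / (2 ^ 16 * k ^ 4) := by rw [ht]; field_simp; norm_num
    rw [h1, le_div_iff₀ (by positivity)]
    calc _ ≤ 1000 * k ^ 2 * (2 ^ 35 * k ^ 7 * κ) * (2 ^ 16 * k ^ 4) := by gcongr
      _ = 1000 * 2 ^ 51 * k ^ 13 * κ := by ring
      _ ≤ 2 ^ 67 * k ^ 16 * κ := by gcongr <;> norm_num
      _ ≤ 1 := hκ)
  rw [hδe] at hgon hH
  have hXi : InjOn X (Finset.range m : Set ℕ) := by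
    have key : ∀ i j, i < j → j < m → X i ≠ X j := fun i j h1 h2 e => by
      refine hex (j - i) (by omega) (by omega) ((h.bijOn.iterate (i * d)).injOn
        (h.iter_mem hx _) hx ?_)
      rw [← Function.iterate_add_apply, ← add_mul, Nat.add_sub_cancel' h1.le]
      exact e.symm
    intro i hi j hj e
    rcases lt_trichotomy i j with h1 | h1 | h1
    · exact absurd e (key i j h1 (by simpa using hj))
    · exact h1
    · exact absurd e.symm (key j i h1 (by simpa using hi))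
  have hO : ∀ w ∈ U, Ψ w ∈ O → ∃ j < m, w = z j := fun w hw h1 => by
    obtain ⟨j, hj, e⟩ := hall _ h1 (hb.mψ (hU2 w hw)) (by
      simp only [hΨ]; rw [hb.right _ (hU2 w hw)]; exact (hU1 w hw).le)
    exact ⟨j, hj, hΨi _ _ (hU2 w hw) (hU2 _ (hU4 (hzb j))) (by rw [hΨz]; exact e)⟩
  choose R hR1 hR2 using fun j => hPB U Ψ (z j) (A (X j)) isOpen_ball hΨd (hU4 (hzb j))
    (hΨa _ (hU2 _ (hU4 (hzb j)))).2.2 fun w hw => hΨi _ _ (hU2 w hw) (hU2 _ (hU4 (hzb j)))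
  set g : ℂ → ℂ := fun w => ∑ j ∈ Finset.range m, R j w + ∑ y ∈ O \ (Finset.range m).image X,
    deriv Ψ w ^ 2 * ((Ψ w - y)⁻¹ ^ 2 + A y * (Ψ w - y)⁻¹) with hg
  have hgd : DifferentiableOn ℂ g U := by
    refine (DifferentiableOn.fun_sum fun j _ => hR1 j).add (DifferentiableOn.fun_sum fun y hy => ?_)
    obtain ⟨h1, h2⟩ := Finset.mem_sdiff.mp hy
    have h3 : DifferentiableOn ℂ (fun w => (Ψ w - y)⁻¹) U := (hΨd.sub_const y).inv fun w hw e => by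
      obtain ⟨j, hj, rfl⟩ := hO w hw (sub_eq_zero.mp e ▸ h1)
      exact h2 (Finset.mem_image.mpr ⟨j, Finset.mem_range.mpr hj, by
        rw [← hΨz]; exact sub_eq_zero.mp e⟩)
    exact ((hΨd.deriv isOpen_ball).pow 2).mul ((h3.pow 2).add (h3.const_mul _))
  have hdec : ∀ w ∈ U, (∀ j < m, w ≠ z j) → pol m z a w + g w = deriv Ψ w ^ 2 * qd O A (Ψ w) := by
    intro w hw h1
    rw [qd, Finset.mul_sum, ← Finset.sum_sdiff (s₁ := (Finset.range m).image X)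
      (Finset.image_subset_iff.mpr fun j _ => hXO j), Finset.sum_image hXi, pol, hg, add_comm,
      add_right_comm, add_comm, ← Finset.sum_add_distrib]
    congr 1
    refine Finset.sum_congr rfl fun j hj => ?_
    have h2 := hR2 j w hw (h1 j (Finset.mem_range.mp hj))
    rw [hΨz] at h2
    rw [h2, add_comm]
  have hbd : ∀ w : ℂ, ‖w‖ = 1 → ‖pol m z a w + g w‖ ≤ 2 ^ 25 * k ^ 6 * σ ^ 2 / ‖kappa‖ ^ 2 := by
    intro w hw
    have h1 : w ∈ U := hU3 (mem_closedBall_zero_iff.mpr hw.le)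
    have h2 : ∀ j, w ≠ z j := fun j e => by linarith [hzle j, e ▸ hw]
    have hp : ‖(r : ℂ) * w‖ = r := by rw [hnr, hw, mul_one]
    have h3 := hSM W φ ψ O A σ md.opn (isBounded_ball.subset hW) hb ⟨x, hx⟩ hfr hσ hcap _
      (hU2 w h1) fun h' => by
        obtain ⟨j, -, e⟩ := hO w h1 h'
        exact h2 j e
    have h4 : 1 / 2 ≤ ∏ y ∈ O, ‖bl W φ y (ψ (r * w))‖ ^ 2 := by
      calc (1 / 2 : ℝ) = 1 + k * (-(t / 2)) := by linear_combination hkt / 2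
        _ ≤ (1 - t / 2) ^ k := one_add_mul_le_pow (by linarith) k
        _ = ∏ y ∈ O, (1 - t / 2) := by rw [Finset.prod_const, h.card]
        _ ≤ _ := Finset.prod_le_prod (fun _ _ => by linarith) fun y hy => by
          unfold bl
          split_ifs with hyW
          · rw [hb.right _ (hU2 w h1)]
            obtain ⟨h5, h6⟩ := mob_ge (hb.lt hyW) (mem_ball_zero_iff.mp (hU2 w h1))
            rw [hp, hr] at h5 h6
            by_contra h7
            have h8 : t / 2 < 1 - ‖mob (φ y) (r * w)‖ ^ 2 := by linarith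
            rw [hr] at h8
            rcases le_or_gt ‖φ y‖ (1 - t ^ 4 / 8192) with h9 | h9
            · obtain ⟨j, -, rfl⟩ := hall y hy hyW h9
              have h10 := mul_lt_mul h8 (show t ^ 2 / 128 ≤ 1 - ‖φ ((F n c)^[j * d] x)‖ by
                linarith [(hin j).2]) (by positivity) (by linarith)
              linarith
            · have h10 := mul_lt_mul_of_pos_right h8 (show 0 < t ^ 3 / 1024 by positivity)
              linarith
          · rw [norm_one]; linarith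
    rw [hp] at h3
    have h5 : t ^ 3 / 1024 ≤ 1 - r ^ 2 := by nlinarith
    rw [hdec w h1 fun j _ => h2 j, (hΨa w (hU2 w h1)).2.1, norm_mul, norm_pow, norm_mul, norm_real,
      Real.norm_of_nonneg hr0.le, le_div_iff₀ (by positivity)]
    have h6 : ‖kappa‖ ^ 2 * (‖qd O A (ψ (r * w))‖ * ‖deriv ψ (r * w)‖ ^ 2 * (t ^ 3 / 1024) ^ 2 *
        (1 / 2)) ≤ 16 * σ ^ 2 := le_trans (by gcongr) h3
    calc _ ≤ (‖deriv ψ (r * w)‖ * 1) ^ 2 * ‖qd O A (ψ (r * w))‖ * ‖kappa‖ ^ 2 * (k * t) ^ 6 := by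
          rw [hkt, one_pow, mul_one]
          gcongr
          linarith
      _ = 2 ^ 21 * k ^ 6 * (‖kappa‖ ^ 2 * (‖qd O A (ψ (r * w))‖ * ‖deriv ψ (r * w)‖ ^ 2 *
          (t ^ 3 / 1024) ^ 2 * (1 / 2))) := by ring
      _ ≤ 2 ^ 21 * k ^ 6 * (16 * σ ^ 2) := by gcongr
      _ = _ := by ring
  have hres := hGON m ζ z a _ _ T (k * L) g (G m) ρ hgon (by positivity) (by positivity)
    (by positivity) hT (le_trans (by
      have h1 : 600 * 2 ^ 51 * ((k : ℝ) ^ 11 * κ) ≤ 2 ^ 61 * k ^ 11 * κ := by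
        rw [← mul_assoc]; gcongr; norm_num
      gcongr) hT') (hgd.mono hU3) hbd (hGd m le_rfl) hH (fun j _ => ?_) fun S h1 h2 h3 h4 h5 => ?_
  · calc _ ≤ _ := hres
      _ ≤ 2 ^ 30 * k ^ 2 * (k * L) ^ 2 := by gcongr
      _ = _ := by ring
  · have h1 : G m (z j) = z j := (hGz m j).trans (hloc.per j)
    have h2 := hder m le_rfl _ (hzb j)
    have h3 := hcoc m le_rfl j
    rw [h1, hΨz, ← hkm, h.mult _ (hXO j), mul_comm] at h2
    refine ⟨h1, mul_right_cancel₀ (hΨa _ (hU2 _ (hU4 (hzb j)))).2.2 h2, ?_⟩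
    rwa [show a (j + m) = a j by simp only [ha, hloc.per, hXper]] at h3
  · have h6 := hLK n c k (qd O A) Ψ U S (4 ^ n + 3) L h.hn h.hc
      (by have : (0 : ℝ) ≤ 4 ^ n := by positivity
          linarith) hL0 (qd_meas O A) isOpen_ball hΨd h1 (h2.trans hU4)
      (fun u hu v hv e => h4 hu hv (hΨi _ _ (hGa m le_rfl u (h2 hu)) (hGa m le_rfl v (h2 hv)) (by
        rw [hΨG m le_rfl u (h2 hu), hΨG m le_rfl v (h2 hv), ← hkm]; exact e)))
      (fun u hu => hW (by have := hGW m le_rfl u (h2 hu); rwa [← hkm] at this)) hL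
    refine le_of_eq_of_le (setLIntegral_congr_fun h1 fun w hw => ?_) h6
    have h7 := hder m le_rfl w (h2 hw)
    rw [← hkm] at h7
    rw [hdec w (hU4 (h2 hw)) fun j hj => (h5 w hw j hj).1,
      hdec _ (hU4 (h3 hw)) fun j hj => (h5 w hw j hj).2, hΨG m le_rfl w (h2 hw), ← hkm, ← h7]
    congr 2
    ring

end T55

theorem st_CORE {n : ℕ} (hMOD : St_MOD n) (hSM : St_SM) (hDYN : St_DYN) (hPB : St_PB)
    (hACT : St_ACT) (hPOLY : St_POLY) (hGON : St_GON) (hL1 : St_L1 n) (hLK : St_LK) :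
    St_CORE n := by
  obtain ⟨C₁, hC₁, hMOD⟩ := hMOD
  obtain ⟨C₂, hC₂, hL1⟩ := hL1
  have hkap := kappa_pos
  obtain ⟨K, hK⟩ : ∃ K : ℝ, K = 10 ^ 5 * (3 * 2 ^ 61 + 2 ^ 25 * C₁ ^ 2 / ‖kappa‖ ^ 2) := ⟨_, rfl⟩
  have hK1 : 10 ^ 5 * (3 * 2 ^ 61) ≤ K := by
    rw [hK]; gcongr; exact le_add_of_nonneg_right (by positivity)
  have hK0 : 0 < K := by linarith
  have hC₃ : 0 ≤ 2 ^ 30 * C₂ ^ 2 * K := by positivity
  refine ⟨C₁ + 256 * K + 2 ^ 30 * C₂ ^ 2 * K, by linarith, fun c k O ρ h H hH h1 h2 => ?_⟩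
  have hk : (1 : ℝ) ≤ k := by exact_mod_cast h.pos
  have hkp : ∀ {i j : ℕ}, i ≤ j → (k : ℝ) ^ i ≤ k ^ j := fun hij => pow_le_pow_right₀ hk hij
  have c1 : C₁ * k ^ 16 ≤ H := le_trans (by gcongr; linarith) hH
  have c2 : 256 * K * k ^ 16 ≤ H := le_trans (by gcongr; linarith) hH
  have k16 : (1 : ℝ) ≤ k ^ 16 := one_le_pow₀ hk
  have hH1 : 1 ≤ H := by nlinarith
  have hH0 : 0 < H := by linarith
  obtain ⟨W, md, hW, hfr, hcap⟩ := hMOD c k O ρ h H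
    (le_trans (by gcongr; simpa using hkp (by norm_num : 1 ≤ 16)) c1) h1 h2
  have he := eps_pos h
  have h3 := T55.core_aux hSM hDYN hPB hACT hPOLY hGON hLK (T := H / (K * k ^ 13)) h md
    (by positivity) (by
      rw [mul_div_assoc', div_le_one hH0]
      refine le_trans ?_ c2
      rw [mul_right_comm]
      exact mul_le_mul_of_nonneg_right (by linarith) (by positivity)) hW hfr (by positivity) hcap (by positivity) (hL1 c k O ρ h) (by
      rw [le_div_iff₀ (by positivity), ← mul_assoc]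
      exact le_trans (by gcongr; norm_num) c2) (by
      rw [mul_div_assoc', div_le_one (by positivity)]
      have h4 : 2 ^ 25 * (k : ℝ) ^ 6 * (C₁ / H) ^ 2 / ‖kappa‖ ^ 2 ≤
          2 ^ 25 * C₁ ^ 2 / ‖kappa‖ ^ 2 * k ^ 11 / H := by
        calc _ = 2 ^ 25 * C₁ ^ 2 / ‖kappa‖ ^ 2 * k ^ 6 / (H * H) := by field_simp
          _ ≤ _ := by
            gcongr
            · norm_num
            · exact le_mul_of_one_le_right hH0.le hH1
      calc _ ≤ 10 ^ 5 * k ^ 2 * (2 ^ 61 * k ^ 11 * (3 / H) +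
            2 ^ 25 * C₁ ^ 2 / ‖kappa‖ ^ 2 * k ^ 11 / H) * H := by gcongr
        _ = _ := by rw [hK]; field_simp)
  rw [mul_div_assoc', div_le_iff₀ (by positivity)] at h3
  calc _ ≤ _ := h3
    _ = 2 ^ 30 * C₂ ^ 2 * K * k ^ 17 * eps n c k O ρ ^ 2 := by ring
    _ ≤ _ := by gcongr; linarith

end Pool.Agent.Lib.MP_c35c17_an.R
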