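import Pool.Agent.Lib.MP_c35c17_an.RBase

/-! The points of the cycle near the almost elliptic fixed point. -/

set_option autoImplicit false

open Filter Topology Set Metric Complex Bornology MeasureTheory
open scoped Real ENNReal ComplexConjugate

namespace Pool.Agent.Lib.MP_c35c17_an.R

open Q

namespace T55

theorem multiples {α : Type*} {f : α → α} {x : α} {k : ℕ} (hk : 0 < k) (hx : f^[k] x = x)
    {P : α → Prop} (h0 : P x) {d₁ : ℕ} (h1 : 0 < d₁) (h2 : d₁ < k) (h3 : P (f^[d₁] x))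
    (hadd : ∀ e ≤ k, P (f^[e] x) → ∀ e', P (f^[e'] x) → P (f^[e + e'] x)) :
    ∃ d m, k = m * d ∧ 2 ≤ m ∧ (∀ j, P (f^[j * d] x)) ∧ ∀ e, P (f^[e] x) → d ∣ e := by
  classical
  have hex : ∃ e, 0 < e ∧ P (f^[e] x) := ⟨d₁, h1, h3⟩
  obtain ⟨a1, a2⟩ := Nat.find_spec hex
  have a3 : Nat.find hex ≤ d₁ := Nat.find_min' hex ⟨h1, h3⟩
  have a4 := fun e (he : e < Nat.find hex) => Nat.find_min hex he
  generalize Nat.find hex = d at a1 a2 a3 a4
  have b1 : ∀ j e, P (f^[e] x) → P (f^[j * d + e] x) := fun j e he => by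
    induction j with
    | zero => simpa using he
    | succ j ih =>
      rw [show (j + 1) * d + e = d + (j * d + e) by ring]
      exact hadd d (by omega) a2 _ ih
  have b2 : ∀ e, P (f^[e] x) → d ∣ e := fun e he => by
    have c1 := b1 ((k - 1) * (e / d)) e he
    have c2 : (k - 1) * (e / d) * d + e = e % d + k * (e / d * d) := by
      obtain ⟨k', rfl⟩ := Nat.exists_eq_add_of_le' hk
      have := Nat.div_add_mod e d
      rw [Nat.add_sub_cancel]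
      nlinarith
    rw [c2, Function.iterate_add_apply, Function.iterate_mul, Function.iterate_fixed hx] at c1
    by_contra c3
    exact a4 _ (Nat.mod_lt _ a1) ⟨Nat.pos_of_ne_zero fun e' => c3 (Nat.dvd_of_mod_eq_zero e'), c1⟩
  obtain ⟨m, hm⟩ := b2 k (by rwa [hx])
  refine ⟨d, m, by rw [hm, mul_comm], ?_, fun j => by simpa using b1 j 0 h0, b2⟩
  by_contra hm2
  have : m = 0 ∨ m = 1 := by omega
  rcases this with rfl | rfl <;> omega

end T55

theorem st_DYN (hFP : St_FP) (hNR : St_NR) : St_DYN := by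
  intro n c k O ρ W κ m h hκ0 hκ
  have hk : (1 : ℝ) ≤ k := by exact_mod_cast h.pos
  have hpw : ∀ i ≤ 16, 2 ^ 67 * ((k : ℝ) ^ i * κ) ≤ 1 := fun i hi => by
    refine le_trans ?_ hκ
    rw [mul_assoc]; gcongr
  obtain ⟨φ, ψ, d, x, hx, hb, hd1, hdk, hfix, hlam, hxW, hdW, hne, hx1, hd2⟩ :=
    hFP n c k O ρ W κ m h hκ0 (by linarith [hpw 7 (by norm_num)])
  have h00 : (0 : ℂ) ∈ ball (0 : ℂ) 1 := mem_ball_self one_pos
  set t : ℝ := 1 / k with ht
  have ht0 : 0 < t := by positivity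
  have ht1 : t ≤ 1 := by rw [ht, div_le_one (by positivity)]; exact hk
  have hkt : k * t = 1 := by rw [ht]; field_simp
  have hκt : κ ≤ t ^ 16 / 2 ^ 67 := by
    rw [ht, div_pow, one_pow, div_div, le_div_iff₀ (by positivity)]; linarith
  have htp : ∀ {i j : ℕ}, i ≤ j → t ^ j ≤ t ^ i := fun hij => pow_le_pow_of_le_one ht0.le ht1 hij
  have e2 : 1 / (64 * (k : ℝ) ^ 2) = t ^ 2 / 64 := by rw [ht]; field_simp
  have e2' : 1 / (128 * (k : ℝ) ^ 2) = t ^ 2 / 128 := by rw [ht]; field_simp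
  have e3 : 1 / (1024 * (k : ℝ) ^ 3) = t ^ 3 / 1024 := by rw [ht]; field_simp
  have e4 : 1 / (8192 * (k : ℝ) ^ 4) = t ^ 4 / 8192 := by rw [ht]; field_simp
  rw [e2] at hx1 hd2
  rw [e2', e3, e4]
  have p2 : 0 < t ^ 2 := by positivity
  have p3 : 0 < t ^ 3 := by positivity
  have p4 : 0 < t ^ 4 := by positivity
  have p6 : 0 < t ^ 6 := by positivity
  have q2 : t ^ 2 ≤ 1 := pow_le_one₀ ht0.le ht1
  have q3 : t ^ 3 ≤ t ^ 2 := htp (by norm_num)
  have q4 : t ^ 4 ≤ t ^ 3 := htp (by norm_num)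
  have q6 : t ^ 6 ≤ t ^ 4 := htp (by norm_num)
  have hz := hb.lt hxW
  have cov : ∀ e ≤ k, (F n c)^[e] x ∈ W → ∃ A C : ℂ → ℂ, NearRot A κ ∧ NearRot C κ ∧
      ∀ s ∈ ball (0 : ℂ) 1, (F n c)^[e] (ψ (mob (-φ x) (C s))) ∈ W ∧
        φ ((F n c)^[e] (ψ (mob (-φ x) (C s)))) = mob (-φ ((F n c)^[e] x)) (A s) := by
    intro e he heW
    have hz' := hb.lt heW
    have hψ : ∀ y ∈ W, (ψ ∘ mob (-φ y)) 0 = y := fun y hy => by simp [hb.left _ hy]
    obtain ⟨α, β, -, -, a3, a4, a5, hA, hC⟩ := m.inv e he _ _ _ _ (hb.trans (bihol_mob hz))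
      (hb.trans (bihol_mob hz')) ((hψ x hxW).symm ▸ hx) (by rw [hψ x hxW, hψ _ heW])
    refine ⟨_, _, hA, hC, fun s hs => ?_⟩
    simp only [Function.comp_apply]
    rw [mob_neg_mob hz (hb.lt (a4 hs)).le, hb.left _ (a4 hs), (a5 s hs).1,
      mob_neg_mob hz' (hb.lt (a3 hs)).le]
    exact ⟨a3 hs, rfl⟩
  have inW : ∀ e ≤ k, (F n c)^[e] x ∈ W → ∀ w ∈ ball (0 : ℂ) (1 - t ^ 6 / 2 ^ 23),
      (F n c)^[e] (ψ w) ∈ W := fun e he heW w hw => by
    obtain ⟨A, C, -, hC, h1⟩ := cov e he heW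
    have hw' := (mem_ball_zero_iff.mp hw).le
    obtain ⟨s, h2, -, h3⟩ := hC.cover (θ := t ^ 6 / 2 ^ 23 * (t ^ 2 / 64) / 4) (by positivity)
      (hκt.trans_eq (by ring)) (mob_bound (by positivity) (by positivity) hx1 hw')
    have h4 := (h1 s (mem_ball_zero_iff.mpr (by
      have : 0 < t ^ 6 / 2 ^ 23 * (t ^ 2 / 64) / 4 := by positivity
      linarith))).1
    rwa [h3, mob_neg_mob hz (by linarith)] at h4
  have hsub : ball (0 : ℂ) (1 - t ^ 6 / 2 ^ 23) ⊆ ball 0 1 := ball_subset_ball (by linarith)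
  have hsub' : ball (0 : ℂ) (1 - t ^ 3 / 1024) ⊆ ball 0 (1 - t ^ 6 / 2 ^ 23) :=
    ball_subset_ball (by linarith)
  have dif : ∀ e ≤ k, (F n c)^[e] x ∈ W → DifferentiableOn ℂ (fun w => φ ((F n c)^[e] (ψ w)))
      (ball 0 (1 - t ^ 6 / 2 ^ 23)) := fun e he heW =>
    hb.dφ.comp ((differentiable_iter n c e).comp_differentiableOn (hb.dψ.mono hsub)) (inW e he heW)
  have der : ∀ e, (F n c)^[e] (ψ 0) = ψ 0 →
      deriv (fun w => φ ((F n c)^[e] (ψ w))) 0 = dF n c e (ψ 0) := fun e he => by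
    have h1 := (hb.dψ.differentiableAt (isOpen_ball.mem_nhds h00)).hasDerivAt
    have h2 : HasDerivAt φ (deriv φ (ψ 0)) ((F n c)^[e] (ψ 0)) :=
      he.symm ▸ (hb.dφ.differentiableAt (m.opn.mem_nhds (hb.mψ h00))).hasDerivAt
    have h3 := h2.comp 0 ((hasDerivAt_iter n c e (ψ 0)).comp 0 h1)
    have h4 := hb.symm.deriv_mul isOpen_ball m.opn h00
    exact h3.deriv.trans (by linear_combination dF n c e (ψ 0) * h4)
  have uniq : ∀ u ∈ ball (0 : ℂ) (1 - t ^ 6 / 2 ^ 23), φ ((F n c)^[d] (ψ u)) = u → u = 0 := by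
    intro u hu h1
    obtain ⟨A, C, hA, hC, h2⟩ := cov d hdk hdW
    have h3 := hNR A C _ κ (t ^ 2 / 64) (t ^ 6 / 2 ^ 23) _ _ hA hC (by positivity) (by positivity)
      (by linarith) (hκt.trans_eq (by ring)) hx1 hd2 (fun s hs => (h2 s hs).2) (dif d hdk hdW)
      (by simp only [hfix, hb.right 0 h00]) u hu
    simp only [h1] at h3
    rw [der d hfix, ← one_sub_mul, norm_mul, norm_sub_rev] at h3
    by_contra h4
    have h5 := le_of_mul_le_mul_right h3 (norm_pos_iff.mpr h4)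
    have h6 : 1280 * κ / (t ^ 6 / 2 ^ 23 * (t ^ 2 / 64) ^ 2) ≤ t ^ 6 / 10 := by
      rw [div_le_iff₀ (by positivity)]
      have : 0 < t ^ 16 := by positivity
      calc 1280 * κ ≤ 1280 * (t ^ 16 / 2 ^ 67) := by gcongr
        _ ≤ t ^ 16 / (10 * 2 ^ 35) := by linarith
        _ = _ := by ring
    have h7 : 1 / (5 * (k : ℝ)) = t / 5 := by rw [ht]; field_simp
    have h8 : t ^ 6 ≤ t ^ 1 := htp (by norm_num)
    rw [pow_one] at h8
    linarith
  have fix : ∀ e ≤ k, (F n c)^[e] x ∈ W → ‖φ ((F n c)^[e] x)‖ ≤ 1 - t ^ 4 / 8192 →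
      (F n c)^[e] (ψ 0) = ψ 0 := fun e he heW h1 => by
    obtain ⟨A, C, hA, hC, h2⟩ := cov e he heW
    obtain ⟨s, h3, -, h4⟩ := hC.cover (θ := t ^ 2 / 64) (β := -φ x) (by positivity)
      (hκt.trans (by linarith [htp (by norm_num : 4 ≤ 16)])) (by rwa [norm_neg])
    have h5 : ‖s‖ < 1 := by linarith
    obtain ⟨h6, h7⟩ := h2 s (mem_ball_zero_iff.mpr h5)
    rw [h4, mob_self] at h6 h7
    have h8 := mob_bound (z := -φ ((F n c)^[e] x)) (a := t ^ 4 / 8192) (θ := t ^ 2 / 64 / 2)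
      (by positivity) (by positivity) (by rwa [norm_neg]) ((hA.norm_le h5).trans h3)
    rw [← h7] at h8
    have h9 := uniq _ (mem_ball_zero_iff.mpr (h8.trans_lt (by linarith))) (by
      rw [hb.left _ h6, ← Function.iterate_add_apply, add_comm, Function.iterate_add_apply, hfix])
    rw [← hb.left _ h6, h9]
  have schw : ∀ e ≤ k, (F n c)^[e] x ∈ W → ‖φ ((F n c)^[e] x)‖ ≤ 1 - t ^ 4 / 8192 →
      ∀ y ∈ W, ‖φ y‖ ≤ 1 - t ^ 2 / 128 → (F n c)^[e] y ∈ W ∧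
        ‖φ ((F n c)^[e] y)‖ * (1 - t ^ 3 / 1024) ≤ ‖φ y‖ := fun e he heW h1 y hy h2 => by
    have h3 : φ y ∈ ball (0 : ℂ) (1 - t ^ 3 / 1024) := mem_ball_zero_iff.mpr (by linarith)
    have h4 := dist_le_div_mul_dist_of_mapsTo_ball ((dif e he heW).mono hsub') (R₂ := 1)
      (fun w hw => by
        simp only [fix e he heW h1, hb.right 0 h00]
        exact ball_subset_closedBall (hb.mφ (inW e he heW w (hsub' hw)))) h3
    have h5 := inW e he heW _ (hsub' h3)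
    simp only [fix e he heW h1, hb.right 0 h00, hb.left y hy, dist_zero_right] at h4 h5
    rw [div_mul_eq_mul_div, one_mul, le_div_iff₀ (by linarith)] at h4
    exact ⟨h5, h4⟩
  have small : ∀ e ≤ k, (F n c)^[e] x ∈ W → ‖φ ((F n c)^[e] x)‖ ≤ 1 - t ^ 4 / 8192 →
      ‖φ ((F n c)^[e] x)‖ ≤ 1 - t ^ 2 / 128 := fun e he heW h1 => by
    have h2 := (schw e he heW h1 x hxW (by linarith)).2
    refine le_of_mul_le_mul_right (a := 1 - t ^ 3 / 1024) (h2.trans ?_) (by linarith)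
    nlinarith
  have hper := h.per x hx
  have small' : ∀ e, (F n c)^[e] x ∈ W → ‖φ ((F n c)^[e] x)‖ ≤ 1 - t ^ 4 / 8192 →
      ‖φ ((F n c)^[e] x)‖ ≤ 1 - t ^ 2 / 128 := fun e heW h1 => by
    rw [← (show Function.IsPeriodicPt (F n c) k x from hper).iterate_mod_apply e] at heW h1 ⊢
    exact small _ (Nat.mod_lt _ h.pos).le heW h1
  obtain ⟨d₀, m₀, b1, b2, b3, b4⟩ := T55.multiples h.pos hper
    (P := fun y => y ∈ W ∧ ‖φ y‖ ≤ 1 - t ^ 4 / 8192) ⟨hxW, by linarith⟩ hd1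
    (lt_of_le_of_ne hdk fun e => hne (e ▸ hper)) ⟨hdW, by linarith⟩ fun e he h1 e' h2 => by
      obtain ⟨h3, h4⟩ := schw e he h1.1 h1.2 _ h2.1 (small' e' h2.1 h2.2)
      rw [Function.iterate_add_apply]
      refine ⟨h3, le_of_mul_le_mul_right (a := 1 - t ^ 3 / 1024)
        (h4.trans ((small' e' h2.1 h2.2).trans ?_)) (by linarith)⟩
      nlinarith
  have hd0 : 0 < d₀ := Nat.pos_of_mul_pos_left (b1 ▸ h.pos)
  have hjk : ∀ j ≤ m₀, j * d₀ ≤ k := fun j hj => b1 ▸ Nat.mul_le_mul_right _ hj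
  have hf0 : (F n c)^[d₀] (ψ 0) = ψ 0 := by
    simpa using fix _ (hjk 1 (by omega)) (b3 1).1 (b3 1).2
  refine ⟨φ, ψ, d₀, m₀, x, hx, hb, b1, b2, hf0, fun j h1 h2 => cyc_exact h hx (by positivity)
    (b1 ▸ Nat.mul_lt_mul_of_pos_right h2 hd0), fun j => ⟨(b3 j).1, small' _ (b3 j).1 (b3 j).2⟩,
    fun y hy h1 h2 => ?_, fun j hj w hw => ⟨inW _ (hjk j hj) (b3 j).1 w (hsub' hw), ?_⟩⟩
  · obtain ⟨e, -, h3, rfl⟩ := h.trans x hx y hy
    obtain ⟨j, rfl⟩ := b4 e ⟨h1, h2⟩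
    rcases h3.eq_or_lt with h4 | h4
    · exact ⟨0, by omega, by rw [h4, hper]; simp⟩
    · exact ⟨j, lt_of_mul_lt_mul_left (a := d₀) (by rwa [mul_comm d₀ m₀, ← b1]) (Nat.zero_le _),
        by rw [mul_comm]⟩
  · obtain ⟨A, C, hA, hC, h2⟩ := cov _ (hjk j hj) (b3 j).1
    have h1 := fix _ (hjk j hj) (b3 j).1 (b3 j).2
    have h3 := hNR A C _ κ (t ^ 2 / 128) (t ^ 3 / 1024) _ _ hA hC (by positivity) (by positivity)
      (by linarith) (hκt.trans (by
        have := htp (by norm_num : 10 ≤ 16)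
        have : 0 < t ^ 10 := by positivity
        calc t ^ 16 / 2 ^ 67 ≤ t ^ 10 / 2 ^ 43 := by linarith
          _ = _ := by ring)) (by linarith) (small' _ (b3 j).1 (b3 j).2)
      (fun s hs => (h2 s hs).2) ((dif _ (hjk j hj) (b3 j).1).mono hsub')
      (by simp only [h1, hb.right 0 h00]) w hw
    rw [der _ h1, mul_comm j d₀, dF_mul hf0, mul_comm d₀ j] at h3
    refine h3.trans (mul_le_mul_of_nonneg_right ?_ (norm_nonneg _))
    have h4 : 1280 * κ / (t ^ 3 / 1024 * (t ^ 2 / 128) ^ 2) = 1280 * 2 ^ 24 * (k ^ 7 * κ) := by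
      rw [ht]; field_simp; norm_num
    have h5 : 0 ≤ (k : ℝ) ^ 7 * κ := by positivity
    rw [h4]
    linarith

end Pool.Agent.Lib.MP_c35c17_an.R
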