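import Pool.Agent.Lib.MP_c35c17_an.LBlue

/-! Lower bound for the logarithmic derivative of the multiplier in the parameter. -/

set_option autoImplicit false

open Filter Topology Set Metric Complex Bornology N62a1eb23
open scoped Real

namespace Pool.Agent.Lib.MP_c35c17_an.L

namespace F1

/-- The derivatives of the orbit along a line. -/
noncomputable def vv (n : ℕ) (c z a b : ℂ) : ℕ → ℂ
  | 0 => b
  | j + 1 => n * (F n c)^[j] z ^ (n - 1) * vv n c z a b j + a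

theorem line (c a : ℂ) : HasDerivAt (fun t : ℂ => c + t * a) a 0 := by
  simpa using ((hasDerivAt_id' (0 : ℂ)).mul_const a).const_add c

theorem hd_iter (n : ℕ) (c z a b : ℂ) (j : ℕ) :
    HasDerivAt (fun t : ℂ => (F n (c + t * a))^[j] (z + t * b)) (vv n c z a b j) 0 := by
  induction j with
  | zero => exact line z b
  | succ j ih =>
    have h1 := (ih.fun_pow n).fun_add (line c a)
    simp only [zero_mul, add_zero] at h1
    simpa only [iter_succ, vv] using h1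

theorem hd_dF {n : ℕ} (hn : 2 ≤ n) (c z a b : ℂ) (h0 : ∀ j, (F n c)^[j] z ≠ 0) (m : ℕ) :
    HasDerivAt (fun t : ℂ => dF n (c + t * a) m (z + t * b)) (dF n c m z *
      ∑ j ∈ Finset.range m, ((n : ℂ) - 1) / (F n c)^[j] z * vv n c z a b j) 0 := by
  induction m with
  | zero => simpa [dF] using hasDerivAt_const (0 : ℂ) (1 : ℂ)
  | succ m ih =>
    simp only [dF_succ]
    refine ((((hd_iter n c z a b m).fun_pow (n - 1)).const_mul (n : ℂ)).fun_mul ih).congr_deriv ?_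
    have h1 := h0 m
    simp only [zero_mul, add_zero]
    rw [Finset.sum_range_succ, Nat.cast_sub (by omega), show n - 1 = n - 1 - 1 + 1 by omega,
      Nat.add_sub_cancel]
    field_simp
    push_cast
    ring

theorem sum_orbit {n : ℕ} {c : ℂ} {k : ℕ} {O : Finset ℂ} {ρ : ℂ} (h : Q.Cyc n c k O ρ) {z : ℂ}
    (hz : z ∈ O) (g : ℂ → ℂ) (e : ℕ) :
    ∑ j ∈ Finset.range (k * e), g ((F n c)^[j + 1] z) = e * ∑ x ∈ O, g x := by
  have h1 : SurjOn (fun j => (F n c)^[j + 1] z) (Finset.range k : Set ℕ) O := fun y hy => by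
    obtain ⟨d, h1, h2, rfl⟩ := h.trans z hz y hy
    exact ⟨d - 1, by simp; omega, by simp only [Nat.sub_add_cancel h1]⟩
  have h2 : MapsTo (fun j => (F n c)^[j + 1] z) (Finset.range k : Set ℕ) O :=
    fun j _ => h.iter_mem hz _
  have h3 : ∑ j ∈ Finset.range k, g ((F n c)^[j + 1] z) = ∑ x ∈ O, g x :=
    Finset.sum_nbij (fun j => (F n c)^[j + 1] z) h2 (Finset.injOn_of_surjOn_of_card_le _ h2 h1
      (by rw [h.card, Finset.card_range])) h1 fun _ _ => rfl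
  induction e with
  | zero => simp
  | succ e ih =>
    have h4 : (F n c)^[k * e] z = z :=
      Function.IsPeriodicPt.mul_const (show Function.IsPeriodicPt _ k z from h.per z hz) e
    rw [mul_add_one, Finset.sum_range_add, ih, Nat.cast_succ, add_one_mul, ← h3]
    congr 1
    refine Finset.sum_congr rfl fun j _ => ?_
    rw [add_assoc, add_comm (k * e), Function.iterate_add_apply, h4]

theorem s_eq {n : ℕ} {c : ℂ} {k : ℕ} {O : Finset ℂ} {ρ : ℂ} (h : Q.Cyc n c k O ρ) {z a b s : ℂ}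
    (hz : z ∈ O) (e : ℕ)
    (h1 : HasDerivAt (fun t : ℂ => (F n (c + t * a))^[k * e] (z + t * b)) b 0)
    (h2 : HasDerivAt (fun t : ℂ => dF n (c + t * a) (k * e) (z + t * b)) (dF n c (k * e) z * s) 0) :
    s = a * (e * ∑ x ∈ O, Q.coef n c k ρ x) := by
  have h3 : vv n c z a b (k * e) = b := (hd_iter n c z a b _).unique h1
  have h4 := mul_left_cancel₀ (h.dF_ne hz _)
    (h2.unique (hd_dF h.hn c z a b (fun j => h.ne_zero (h.iter_mem hz j)) _))
  have h5 : (F n c)^[k * e] z = z :=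
    Function.IsPeriodicPt.mul_const (show Function.IsPeriodicPt _ k z from h.per z hz) e
  have h6 := Finset.sum_range_sub' (fun j => Q.coef n c k ρ ((F n c)^[j] z) * vv n c z a b j) (k * e)
  rw [h5, h3, Function.iterate_zero, id, vv, sub_self] at h6
  rw [h4, ← sum_orbit h hz, Finset.mul_sum, ← sub_eq_zero, ← Finset.sum_sub_distrib, ← h6]
  refine Finset.sum_congr rfl fun j _ => ?_
  rw [vv, h.coef_eq (h.iter_mem hz j), Function.iterate_succ_apply']
  ring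

end F1

theorem f1 {n : ℕ} (hn : 2 ≤ n) : St_F1 n := by
  obtain ⟨C, hC, hm⟩ := Q.exists_model hn
  refine ⟨(C + 400) ^ 24, by positivity, fun d c z a b s hc hd hz h1 h2 h3 h4 h5 => ?_⟩
  obtain ⟨k, e, hk, he, rfl, hmin, hkz, hρ⟩ := Q.exists_min hd hz
  have hk1 : (1 : ℝ) ≤ k := by exact_mod_cast hk
  have he1 : (1 : ℝ) ≤ e := by exact_mod_cast he
  set ρ := dF n c k z with hρ'
  set K : ℝ := ((k * e : ℕ) : ℝ) with hK
  have hKe : K = k * e := by rw [hK, Nat.cast_mul]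
  have hkK : (k : ℝ) ≤ K := hKe ▸ le_mul_of_one_le_right (by linarith) he1
  have hK1 : 1 ≤ K := hk1.trans hkK
  rw [hρ, norm_pow] at h1 h2 h3
  have g1 : 1 < ‖ρ‖ := (one_lt_pow_iff_of_nonneg (norm_nonneg _) he.ne').mp h1
  have g2 : ‖ρ‖ ≤ ‖ρ‖ ^ e := le_self_pow₀ g1.le he.ne'
  have hμ := sub_pos.mpr g1
  have g3 : ‖ρ‖ ^ e ≤ 2 := by
    have e1 : (1 : ℝ) ≤ (C + 400) ^ 24 * K ^ 48 :=
      one_le_mul_of_one_le_of_one_le (one_le_pow₀ (by linarith)) (one_le_pow₀ hK1)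
    have e2 := mul_le_mul_of_nonneg_right e1 (sub_pos.mpr h1).le
    linarith
  obtain ⟨H, hH0, hH⟩ : ∃ H : ℝ, 0 < H ∧ (‖ρ‖ - 1) * H ^ 24 = 1 :=
    ⟨(‖ρ‖ - 1)⁻¹ ^ ((24 : ℕ) : ℝ)⁻¹, by positivity, by
      rw [Real.rpow_inv_natCast_pow (by positivity) (by norm_num), mul_inv_cancel₀ hμ.ne']⟩
  have g4 : (C + 400) * K ^ 2 ≤ H := by
    refine le_of_pow_le_pow_left₀ (n := 24) (by norm_num) hH0.le
      (le_of_mul_le_mul_left (a := ‖ρ‖ - 1) ?_ hμ)
    rw [hH, mul_pow, ← pow_mul, mul_comm]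
    exact le_trans (mul_le_mul_of_nonneg_left (by linarith) (by positivity)) h2
  have g5 : K ≤ K ^ 2 := le_self_pow₀ hK1 (by norm_num)
  have g6 : (k : ℝ) ^ 2 ≤ K ^ 2 := pow_le_pow_left₀ (by linarith) hkK 2
  have g7 : C * k ≤ C * K ^ 2 := mul_le_mul_of_nonneg_left (hkK.trans g5) (by linarith)
  have g8 : 0 ≤ C * K ^ 2 := by positivity
  obtain ⟨O, hzO, h⟩ := Q.exists_cyc hn hc hk hmin g1 (g2.trans g3)
  set S := ‖∑ x ∈ O, Q.coef n c k ρ x‖ with hS
  have g9 : 1 < (k * (‖ρ‖ - 1) + S) * H ^ 23 := not_le.mp fun g => by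
    obtain ⟨W, m⟩ := hm c k O _ h H (by linarith) hH.ge g
    have e1 := m.part1 h (by rw [mul_div_assoc', div_le_one hH0]; linarith)
    have e2 : ‖∑ i ∈ Finset.range e, ρ ^ i‖ ≤ e * 2 := by
      refine (norm_sum_le_of_le _ (n := fun _ => 2) fun i hi => ?_).trans ?_
      · rw [norm_pow]
        exact (pow_le_pow_right₀ g1.le (Finset.mem_range.mp hi).le).trans g3
      · rw [Finset.sum_const, Finset.card_range, nsmul_eq_mul]
    have e3 : ‖ρ ^ e - 1‖ * H ≤ 216 * K := by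
      rw [← mul_geom_sum, norm_mul]
      calc _ ≤ 36 * k * (3 / H) * (e * 2) * H := by gcongr
        _ = _ := by rw [hKe]; field_simp; norm_num
    have e4 : ‖ρ ^ e - 1‖ ^ 24 ≤ 216 ^ 24 * K ^ 24 * (‖ρ‖ - 1) := by
      calc _ = (‖ρ ^ e - 1‖ * H) ^ 24 * (‖ρ‖ - 1) := by
            rw [mul_pow, mul_assoc, mul_comm (H ^ 24), hH, mul_one]
        _ ≤ (216 * K) ^ 24 * (‖ρ‖ - 1) := by gcongr
        _ = _ := by rw [mul_pow]
    have e5 : 216 ^ 24 * K ^ 24 * (‖ρ‖ - 1) < (C + 400) ^ 24 * K ^ 24 * (‖ρ‖ ^ e - 1) := by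
      refine mul_lt_mul (mul_lt_mul_of_pos_right (pow_lt_pow_left₀ (by linarith) (by norm_num)
        (by norm_num)) (by positivity)) (by linarith) hμ (by positivity)
    linarith
  have g10 : 1 ≤ 2 * S * H ^ 23 := by
    have e1 : k * (‖ρ‖ - 1) * H ^ 23 * H = k := by
      rw [mul_assoc, mul_assoc, ← pow_succ, hH, mul_one]
    have e2 : k * (‖ρ‖ - 1) * H ^ 23 ≤ 1 / 2 :=
      le_of_mul_le_mul_right (a := H) (by rw [e1]; linarith) hH0
    rw [add_mul] at g9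
    linarith
  have g11 : (‖ρ‖ - 1) ^ 23 ≤ (2 * S) ^ 24 := by
    calc _ = 1 ^ 24 * (‖ρ‖ - 1) ^ 23 := by rw [one_pow, one_mul]
      _ ≤ (2 * S * H ^ 23) ^ 24 * (‖ρ‖ - 1) ^ 23 := by gcongr
      _ = (2 * S) ^ 24 * ((‖ρ‖ - 1) * H ^ 24) ^ 23 := by ring
      _ = _ := by rw [hH, one_pow, mul_one]
  have g12 := Real.log_le_sub_one_of_pos (one_pos.trans g1)
  have g13 := Real.log_nonneg g1.le
  rw [F1.s_eq h hzO e h4 h5, hρ, norm_pow, Real.log_pow, norm_mul, norm_mul, Complex.norm_natCast,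
    ← hS]
  calc _ ≤ ‖a‖ ^ 24 * (e * (‖ρ‖ - 1)) ^ 23 := by gcongr
    _ = ‖a‖ ^ 24 * (e ^ 23 * (‖ρ‖ - 1) ^ 23) := by rw [mul_pow]
    _ ≤ ‖a‖ ^ 24 * (e ^ 24 * (2 * S) ^ 24) := by
        gcongr
        norm_num
    _ = _ := by ring

end Pool.Agent.Lib.MP_c35c17_an.L
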