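import Pool.Agent.Lib.MP_c35c17_an.RBlue
import Pool.Agent.Lib.MP_c35c17_an.LF1

/-! Lower bound for the logarithmic derivative of the multiplier, with no condition near one. -/

set_option autoImplicit false

open Filter Topology Set Metric Complex Bornology
open scoped Real

namespace Pool.Agent.Lib.MP_c35c17_an.R

theorem st_F1 {n : ℕ} (hn : 2 ≤ n) (hcore : St_CORE n) : St_F1 n := by
  obtain ⟨C, hC, hm⟩ := hcore
  refine ⟨(4 * C) ^ 24, by positivity, fun d c z a b s hc hd hz h1 h2 h4 h5 => ?_⟩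
  obtain ⟨k, e, hk, he, rfl, hmin, hkz, hρ⟩ := Q.exists_min hd hz
  have hk1 : (1 : ℝ) ≤ k := by exact_mod_cast hk
  have he1 : (1 : ℝ) ≤ e := by exact_mod_cast he
  set ρ := dF n c k z with hρ'
  set K : ℝ := ((k * e : ℕ) : ℝ) with hK
  have hKe : K = k * e := by rw [hK, Nat.cast_mul]
  have hkK : (k : ℝ) ≤ K := hKe ▸ le_mul_of_one_le_right (by linarith) he1
  have hK1 : 1 ≤ K := hk1.trans hkK
  rw [hρ, norm_pow] at h1 h2
  have g1 : 1 < ‖ρ‖ := (one_lt_pow_iff_of_nonneg (norm_nonneg _) he.ne').mp h1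
  have g2 : ‖ρ‖ ≤ ‖ρ‖ ^ e := le_self_pow₀ g1.le he.ne'
  have hμ := sub_pos.mpr g1
  have g3 : ‖ρ‖ ^ e ≤ 2 := by
    have e1 : (1 : ℝ) ≤ (4 * C) ^ 24 * K ^ 456 :=
      one_le_mul_of_one_le_of_one_le (one_le_pow₀ (by linarith)) (one_le_pow₀ hK1)
    have e2 := mul_le_mul_of_nonneg_right e1 (sub_pos.mpr h1).le
    linarith
  obtain ⟨H, hH0, hH⟩ : ∃ H : ℝ, 0 < H ∧ (‖ρ‖ - 1) * H ^ 24 = 1 :=
    ⟨(‖ρ‖ - 1)⁻¹ ^ ((24 : ℕ) : ℝ)⁻¹, by positivity, by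
      rw [Real.rpow_inv_natCast_pow (by positivity) (by norm_num), mul_inv_cancel₀ hμ.ne']⟩
  have g4 : 4 * C * K ^ 19 ≤ H := by
    refine le_of_pow_le_pow_left₀ (n := 24) (by norm_num) hH0.le
      (le_of_mul_le_mul_left (a := ‖ρ‖ - 1) ?_ hμ)
    rw [hH, mul_pow (4 * C), ← pow_mul, mul_comm]
    exact le_trans (mul_le_mul_of_nonneg_left (by linarith) (by positivity)) h2
  have g5 : 4 * C * (k : ℝ) ^ 19 ≤ H := le_trans (by gcongr) g4
  have g6 : C * (k : ℝ) ^ 16 ≤ H := by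
    refine le_trans ?_ g5
    gcongr
    · linarith
    · norm_num
  have g7 : 2 * (k : ℝ) ≤ H := by
    refine le_trans ?_ g5
    gcongr
    · linarith
    · exact le_self_pow₀ hk1 (by norm_num)
  obtain ⟨O, hzO, h⟩ := Q.exists_cyc hn hc hk hmin g1 (g2.trans g3)
  set S := ‖∑ x ∈ O, Q.coef n c k ρ x‖ with hS
  have hS0 : 0 ≤ S := norm_nonneg _
  have g11 : (‖ρ‖ - 1) ^ 47 ≤ (4 * C) ^ 24 * K ^ 408 * S ^ 48 := by
    rcases le_or_gt (eps n c k O ρ * H ^ 23) 1 with g | g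
    · have e1 := hm c k O ρ h H g6 hH.ge g
      have e2 : ‖ρ‖ - 1 ≤ ‖ρ - 1‖ := by simpa using norm_sub_norm_le ρ 1
      rw [eps, ← hS] at e1
      generalize ‖ρ‖ - 1 = μ at e1 e2 hμ hH ⊢
      have e3 : μ ^ 2 * H ≤ C * k ^ 17 * (2 * (k * μ) ^ 2 + 2 * S ^ 2) := by
        calc μ ^ 2 * H ≤ ‖ρ - 1‖ ^ 2 * H := by gcongr
          _ ≤ _ := e1
          _ ≤ _ := by gcongr; nlinarith [sq_nonneg (k * μ - S)]
      have e4 : μ ^ 2 * (4 * C * (k : ℝ) ^ 19) ≤ μ ^ 2 * H := by gcongr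
      have e5 : μ ^ 2 * H ≤ 4 * C * k ^ 17 * S ^ 2 := by nlinarith
      calc μ ^ 47 = μ ^ 47 * (μ * H ^ 24) := by rw [hH, mul_one]
        _ = (μ ^ 2 * H) ^ 24 := by ring
        _ ≤ (4 * C * K ^ 17 * S ^ 2) ^ 24 :=
            pow_le_pow_left₀ (by positivity) (e5.trans (by gcongr)) _
        _ = _ := by rw [mul_pow, mul_pow, ← pow_mul, ← pow_mul]
    · rw [eps, ← hS] at g
      have g10 : 1 ≤ 2 * S * H ^ 23 := by
        have e1 : k * (‖ρ‖ - 1) * H ^ 23 * H = k := by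
          rw [mul_assoc, mul_assoc, ← pow_succ, hH, mul_one]
        have e2 : k * (‖ρ‖ - 1) * H ^ 23 ≤ 1 / 2 :=
          le_of_mul_le_mul_right (a := H) (by rw [e1]; linarith) hH0
        rw [add_mul] at g
        linarith
      have e3 : ‖ρ‖ - 1 ≤ 1 := by linarith
      generalize ‖ρ‖ - 1 = μ at e3 hμ hH ⊢
      calc μ ^ 47 ≤ μ ^ 46 := pow_le_pow_of_le_one hμ.le e3 (by norm_num)
        _ = 1 ^ 48 * μ ^ 46 := by rw [one_pow, one_mul]
        _ ≤ (2 * S * H ^ 23) ^ 48 * μ ^ 46 := by gcongr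
        _ = 4 ^ 24 * 1 * S ^ 48 * (μ * H ^ 24) ^ 46 := by ring
        _ = 4 ^ 24 * 1 * S ^ 48 := by rw [hH, one_pow, mul_one]
        _ ≤ _ := by
            gcongr
            · linarith
            · exact one_le_pow₀ hK1
  have g12 := Real.log_le_sub_one_of_pos (one_pos.trans g1)
  have g13 := Real.log_nonneg g1.le
  rw [L.F1.s_eq h hzO e h4 h5, hρ, norm_pow, Real.log_pow, norm_mul, norm_mul,
    Complex.norm_natCast, ← hS]
  calc _ ≤ ‖a‖ ^ 48 * (e * (‖ρ‖ - 1)) ^ 47 := by gcongr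
    _ = ‖a‖ ^ 48 * (e ^ 47 * (‖ρ‖ - 1) ^ 47) := by rw [mul_pow]
    _ ≤ ‖a‖ ^ 48 * (e ^ 48 * ((4 * C) ^ 24 * K ^ 408 * S ^ 48)) := by
        gcongr
        norm_num
    _ = _ := by ring

end Pool.Agent.Lib.MP_c35c17_an.R
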