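import Pool.Agent.Lib.MP_c35c17_an.RBlue

/-! The almost elliptic fixed point and its distance from the cycle. -/

set_option autoImplicit false

open Filter Topology Set Metric Complex
open scoped ComplexConjugate

namespace Pool.Agent.Lib.MP_c35c17_an.R

open Q

namespace T4

theorem mob_symm (a z : ℂ) : ‖mob a z‖ = ‖mob z a‖ := by
  rw [mob, mob, norm_div, norm_div, norm_sub_rev, ← RCLike.norm_conj (1 - conj a * z)]
  simp [mul_comm]

theorem fixed_in {a b ι : ℂ} (h : ‖a‖ ^ 2 = 1 + ‖b‖ ^ 2) {k : ℝ} (hk : 1 ≤ k) (ha : ‖a‖ ^ 2 ≤ 2 * k)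
    (hs : 1 / (64 * k ^ 2) ≤ 1 - a.re ^ 2) (hι : ‖ι‖ = 1) {A G : ℂ → ℂ}
    (hA : DifferentiableOn ℂ A (ball 0 1)) (hG : DifferentiableOn ℂ G (ball 0 1)) {e : ℝ}
    (he0 : 0 < e) (he : 200000 * k ^ 4 * e ≤ 1)
    (hAe : ∀ w, ‖w‖ ≤ 1 - 1 / (64 * k ^ 2) → ‖A w - ι * w‖ ≤ e ∧
      ‖G w - (a * (ι * w) + b) / (conj b * (ι * w) + conj a)‖ ≤ e) :
    ∃ w, ‖w‖ ≤ 1 - 1 / (64 * k ^ 2) ∧ A w = G w ∧ ∀ m, deriv A w = m * deriv G w →
      1 / (5 * k) ≤ ‖m - 1‖ := by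
  obtain ⟨s, α, h1, h2, h3, h4⟩ := su_fixed h (by
    have : 0 < 1 / (64 * k ^ 2) := by positivity
    linarith)
  set t : ℝ := 1 / k with ht
  have ht0 : 0 < t := by positivity
  have ht1 : t ≤ 1 := by rw [ht, div_le_one (by positivity)]; exact hk
  have hkt : k * t = 1 := by rw [ht]; field_simp
  have e1 : 1 / (64 * k ^ 2) = t ^ 2 / 64 := by rw [ht]; field_simp
  rw [e1] at hs hAe ⊢
  have ha2 : ‖a‖ ≤ 2 * k := by nlinarith [norm_nonneg a]
  have hba : ‖b‖ < ‖a‖ := lt_of_pow_lt_pow_left₀ 2 (norm_nonneg _) (by linarith)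
  have hst : t / 8 ≤ |s| := by
    refine le_of_pow_le_pow_left₀ two_ne_zero (abs_nonneg _) ?_
    rw [sq_abs]; linarith
  have hα : ‖α‖ ≤ 1 - t ^ 2 / 32 := by
    have h5 : 0 < 1 - ‖α‖ ^ 2 := pos_of_mul_pos_right (a := ‖a‖) (by linarith) (norm_nonneg a)
    have h6 : t / 8 * t ≤ 2 * k * (1 - ‖α‖ ^ 2) * t := by gcongr; nlinarith
    have h7 : 2 * k * (1 - ‖α‖ ^ 2) * t = 2 * (1 - ‖α‖ ^ 2) := by
      linear_combination 2 * (1 - ‖α‖ ^ 2) * hkt
    nlinarith [sq_nonneg (1 - ‖α‖)]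
  have hι0 : ι * conj ι = 1 := by rw [mul_conj', hι]; simp
  have hw₀ : ι * (conj ι * α) = α := by rw [← mul_assoc, hι0, one_mul]
  have hdist : ∀ w, ‖ι * w - α‖ = ‖w - conj ι * α‖ := fun w => by
    rw [← hw₀, ← mul_sub, norm_mul, hι, one_mul, hw₀]
  have hin : ∀ w ∈ closedBall (conj ι * α) (2 * (t ^ 2 / 128)), ‖w‖ ≤ 1 - t ^ 2 / 64 := fun w hw => by
    have h5 := norm_le_norm_add_norm_sub' w (conj ι * α)
    rw [norm_mul, RCLike.norm_conj, hι, one_mul] at h5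
    linarith [mem_closedBall_iff_norm.mp hw]
  have hsub : closedBall (conj ι * α) (2 * (t ^ 2 / 128)) ⊆ ball 0 1 := fun w hw =>
    mem_ball_zero_iff.mpr (by nlinarith [hin w hw])
  have hden : ∀ w, ‖w‖ < 1 → conj b * (ι * w) + conj a ≠ 0 ∧
      ‖conj b * (ι * w) + conj a‖ ≤ 4 * k := fun w hw => by
    have h5 : ‖conj b * (ι * w)‖ ≤ ‖b‖ := by
      rw [norm_mul, norm_mul, hι, one_mul, RCLike.norm_conj]
      exact mul_le_of_le_one_right (norm_nonneg _) hw.le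
    refine ⟨fun h6 => ?_, (norm_add_le _ _).trans (by rw [RCLike.norm_conj]; linarith)⟩
    rw [eq_neg_of_add_eq_zero_left h6, norm_neg, RCLike.norm_conj] at h5
    linarith
  have hk4 : k ^ 2 * e * k ^ 2 ≤ 1 / 200000 := by linarith
  have hρ : 160 * k ^ 2 * e ≤ t ^ 2 / 128 := by
    rw [ht, div_pow, one_pow, div_div, le_div_iff₀ (by positivity)]; linarith
  have hk3 : k ^ 3 * e ≤ t / 200000 := by
    rw [ht, div_div, le_div_iff₀ (by positivity)]; linarith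
  have hsub' : closedBall (conj ι * α) (160 * k ^ 2 * e) ⊆
      closedBall (conj ι * α) (2 * (t ^ 2 / 128)) := closedBall_subset_closedBall (by nlinarith)
  have htri : ∀ w, ‖w‖ ≤ 1 - t ^ 2 / 64 → |‖A w - G w‖ -
      ‖ι * w - (a * (ι * w) + b) / (conj b * (ι * w) + conj a)‖| ≤ 2 * e := fun w hw => by
    refine (abs_norm_sub_norm_le _ _).trans ?_
    rw [sub_sub_sub_comm]
    linarith [norm_sub_le (A w - ι * w) (G w - (a * (ι * w) + b) / (conj b * (ι * w) + conj a)),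
      (hAe w hw).1, (hAe w hw).2]
  have hform : ∀ w, ‖w‖ < 1 → ι * w - (a * (ι * w) + b) / (conj b * (ι * w) + conj a) =
      (ι * w - α) * (conj b * (ι * w - α) - 2 * s * I) / (conj b * (ι * w) + conj a) := fun w hw => by
    rw [← h4, sub_div, mul_div_cancel_right₀ _ (hden w hw).1]
  obtain ⟨w, hw, hz⟩ := exists_zero_of_norm_lt (h := fun w => A w - G w) (z := conj ι * α)
    (r := 160 * k ^ 2 * e) (m := 3 * e) (by positivity)
    ((hA.sub hG).mono (closure_ball_subset_closedBall.trans (hsub'.trans hsub))).diffContOnCl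
    (fun w hw => by
      have h5 := hsub' (sphere_subset_closedBall hw)
      have h6 := mem_ball_zero_iff.mp (hsub h5)
      have h7 := (abs_le.mp (htri w (hin w h5))).1
      have h8 : ‖ι * w - α‖ = 160 * k ^ 2 * e := by rw [hdist]; exact mem_sphere_iff_norm.mp hw
      have h9 : t / 8 ≤ ‖conj b * (ι * w - α) - 2 * s * I‖ := by
        have h10 := norm_sub_norm_le (2 * s * I) (conj b * (ι * w - α))
        rw [norm_sub_rev, norm_mul (conj b), h8, RCLike.norm_conj] at h10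
        simp only [norm_mul, norm_I, norm_real, Real.norm_eq_abs, Complex.norm_ofNat] at h10
        have h11 : ‖b‖ * (160 * k ^ 2 * e) ≤ 2 * k * (160 * k ^ 2 * e) := by gcongr; linarith
        nlinarith
      rw [hform w h6, norm_div, norm_mul, h8] at h7
      have h10 : 5 * e ≤ 160 * k ^ 2 * e * ‖conj b * (ι * w - α) - 2 * s * I‖ /
          ‖conj b * (ι * w) + conj a‖ := by
        calc 5 * e = 160 * k ^ 2 * e * (t / 8) / (4 * k) := by rw [ht]; field_simp; ring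
          _ ≤ _ := by gcongr; exacts [norm_pos_iff.mpr (hden w h6).1, (hden w h6).2]
      linarith)
    (by
      have h5 : conj ι * α ∈ closedBall (conj ι * α) (2 * (t ^ 2 / 128)) :=
        mem_closedBall_self (by positivity)
      have h7 := (abs_le.mp (htri _ (hin _ h5))).2
      rw [hform _ (mem_ball_zero_iff.mp (hsub h5)), hw₀, sub_self, zero_mul, zero_div, norm_zero] at h7
      linarith)
  have hw' := ball_subset_ball hρ hw
  have hw1 := hsub (hsub' (ball_subset_closedBall hw))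
  have hw2 := mem_ball_zero_iff.mp hw1
  refine ⟨w, hin w (hsub' (ball_subset_closedBall hw)), sub_eq_zero.mp hz, fun m hm => ?_⟩
  have hT : ∀ z, ‖z‖ < 1 → HasDerivAt (fun w => (a * (ι * w) + b) / (conj b * (ι * w) + conj a))
      (ι / (conj b * (ι * z) + conj a) ^ 2) z := fun z hz => by
    refine (((((hasDerivAt_id' z).const_mul ι).const_mul a).add_const b).fun_div
      ((((hasDerivAt_id' z).const_mul ι).const_mul (conj b)).add_const (conj a))
      (hden z hz).1).congr_deriv ?_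
    congr 1
    have h5 : a * conj a = 1 + b * conj b := by
      rw [mul_conj', mul_conj', ← ofReal_pow, h]; push_cast; rfl
    linear_combination ι * h5
  have d1 := deriv_small (D := fun w => A w - ι * w) (by positivity) ((hA.mono hsub).sub (by fun_prop))
    (fun z hz => (hAe z (hin z hz)).1) hw'
  have d2 := deriv_small (D := fun w => G w - (a * (ι * w) + b) / (conj b * (ι * w) + conj a))
    (by positivity) ((hG.mono hsub).sub fun z hz =>
      (hT z (mem_ball_zero_iff.mp (hsub hz))).differentiableAt.differentiableWithinAt)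
    (fun z hz => (hAe z (hin z hz)).2) hw'
  have hn := isOpen_ball.mem_nhds hw1
  rw [((hA.differentiableAt hn).hasDerivAt.fun_sub ((hasDerivAt_id' w).const_mul ι)).deriv] at d1
  rw [((hG.differentiableAt hn).hasDerivAt.fun_sub (hT w hw2)).deriv] at d2
  have e2 : e / (t ^ 2 / 128) ≤ 320 * k ^ 3 * e := by
    rw [ht, show e / ((1 / k) ^ 2 / 128) = 128 * k ^ 2 * e by field_simp]
    gcongr <;> norm_num
  have hE : ‖(a.re : ℂ) - s * I‖ = 1 := by
    rw [← sq_eq_sq₀ (norm_nonneg _) zero_le_one, ← normSq_eq_norm_sq, normSq_apply]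
    simp; linarith
  have hE1 : ‖((a.re : ℂ) - s * I) ^ 2 - 1‖ = 2 * |s| := by
    have h5 : ((a.re : ℂ) - s * I) ^ 2 - 1 = (a.re - s * I) * (-2 * s * I) := by
      have h6 : (s : ℂ) ^ 2 = 1 - a.re ^ 2 := by exact_mod_cast h1
      linear_combination h6 - s ^ 2 * I_sq
    rw [h5, norm_mul, hE]; simp
  have hη : ‖conj b * (ι * w) + conj a - (a.re - s * I)‖ ≤ 320 * k ^ 3 * e := by
    rw [← h3, add_sub_add_right_eq_sub, ← mul_sub, norm_mul, RCLike.norm_conj, hdist]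
    calc _ ≤ 2 * k * (160 * k ^ 2 * e) := by
          gcongr; exacts [by linarith, (mem_ball_iff_norm.mp hw).le]
      _ = _ := by ring
  have hd0 := (hden w hw2).1
  generalize conj b * (ι * w) + conj a = d at hη d2 hd0
  generalize (a.re : ℂ) - s * I = E at hη hE hE1
  have hε : 320 * k ^ 3 * e ≤ t / 625 := by linarith
  have hε0 : 0 < 320 * k ^ 3 * e := by positivity
  replace d1 := d1.trans e2
  replace d2 := d2.trans e2
  generalize 320 * k ^ 3 * e = ε at hη d1 d2 hε hε0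
  have hd : ‖d‖ ≤ 1 + ε := by linarith [norm_le_norm_add_norm_sub' d E]
  have hd2 : ‖d‖ ^ 2 ≤ 2 := by nlinarith [norm_nonneg d]
  have h5 : ι * (m - E ^ 2) = (deriv A w - ι * 1) * d ^ 2 + ι * ((d - E) * (d + E)) -
      m * ((deriv G w - ι / d ^ 2) * d ^ 2) := by
    rw [hm]; field_simp; ring
  have h6 : ‖m - E ^ 2‖ ≤ ε * 2 + ε * (2 + ε) + ‖m‖ * (ε * 2) := by
    rw [← one_mul ‖m - E ^ 2‖, ← hι, ← norm_mul, h5]
    refine (norm_sub_le _ _).trans (add_le_add ((norm_add_le _ _).trans (add_le_add ?_ ?_)) ?_)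
    · rw [norm_mul, norm_pow]; gcongr
    · rw [norm_mul, norm_mul, hι, one_mul]; gcongr; linarith [norm_add_le d E]
    · rw [norm_mul, norm_mul, norm_pow]; gcongr
  have h7 := norm_le_norm_add_norm_sub' m (E ^ 2)
  rw [norm_pow, hE, one_pow] at h7
  have h8 : ‖m‖ ≤ 3 / 2 := by nlinarith [norm_nonneg m]
  have h9 : ‖m - E ^ 2‖ ≤ 8 * ε := by nlinarith
  have h10 := norm_sub_le_norm_sub_add_norm_sub (E ^ 2) m 1
  rw [hE1, norm_sub_rev (E ^ 2) m] at h10
  rw [show 1 / (5 * k) = t / 5 by rw [ht]; field_simp]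
  linarith

theorem rigid_in {A C : ℂ → ℂ} {κ : ℝ} (hA : NearRot A κ) (hC : NearRot C κ) {k : ℕ} (hk : 0 < k)
    (hκ0 : 0 < κ) (hκ : 10 ^ 9 * (k : ℝ) ^ 7 * κ ≤ 1) {u : ℂ} (hu0 : u ≠ 0)
    (hu : ‖u‖ ≤ 1 - 1 / (2 * k))
    (hor : ∀ w, ‖w‖ < 1 → C w = -u → ‖u‖ ^ 2 + ‖A w‖ ^ 2 ≤ ‖u + A w‖) {R : ℕ → ℂ → Prop}
    (h0 : R 0 0) (hstep : ∀ m w, ‖w‖ < 1 → R m (A w) → R (m + 1) (mob (-u) (C w)))
    (hclose : ∀ ξ, R k ξ → ξ = 0) :
    ∃ w, ‖w‖ ≤ 1 - 1 / (64 * k ^ 2) ∧ A w = mob (-u) (C w) ∧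
      ∀ m, deriv A w = m * deriv (mob (-u) ∘ C) w → 1 / (5 * k) ≤ ‖m - 1‖ := by
  have hk1 : (1 : ℝ) ≤ k := by exact_mod_cast hk
  have hpw : ∀ i ≤ 7, 10 ^ 9 * ((k : ℝ) ^ i * κ) ≤ 1 := fun i hi => by
    refine le_trans ?_ hκ
    rw [mul_assoc]; gcongr
  have hκ1 : κ < 1 := by linarith [hpw 0 (by norm_num)]
  obtain ⟨ι, hι, -, hιA⟩ := hA.approx hκ1
  obtain ⟨ι', hι', -, hιC⟩ := hC.approx hκ1
  have hιι : conj ι * ι = 1 := by rw [conj_mul', hι]; simp
  have hιι' : conj ι' * ι' = 1 := by rw [conj_mul', hι']; simp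
  obtain ⟨j, hj, hjre⟩ : ∃ j : ℂ, j ^ 2 = ι' * conj ι ∧ 0 ≤ j.re := by
    obtain ⟨j, hj⟩ := IsAlgClosed.exists_pow_nat_eq (ι' * conj ι) two_pos
    rcases le_total 0 j.re with h | h
    · exact ⟨j, hj, h⟩
    · exact ⟨-j, by rw [neg_sq, hj], by simpa using h⟩
  have hj1 : ‖j‖ = 1 := by
    rw [← sq_eq_sq₀ (norm_nonneg _) zero_le_one, ← norm_pow, hj]; simp [hι, hι']
  have hjj : conj j * j = 1 := by rw [conj_mul', hj1]; simp
  have h2k : 0 < 1 / (2 * (k : ℝ)) := by positivity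
  have hu1 : ‖u‖ < 1 := by linarith
  have hnu := norm_pos_iff.mpr hu0
  obtain ⟨g, hg0, hg⟩ : ∃ g : ℝ, 0 < g ∧ g ^ 2 = 1 - ‖u‖ ^ 2 :=
    ⟨√(1 - ‖u‖ ^ 2), Real.sqrt_pos.mpr (by nlinarith), Real.sq_sqrt (by nlinarith)⟩
  have hgk : 1 ≤ 2 * k * g ^ 2 := by rw [← div_le_iff₀' (by positivity)]; nlinarith
  have hgc : (g : ℂ) ≠ 0 := by exact_mod_cast hg0.ne'
  have hab : ‖j / g‖ ^ 2 = 1 + ‖u * conj j / g‖ ^ 2 := by
    simp only [norm_div, norm_mul, RCLike.norm_conj, hj1, norm_real, Real.norm_of_nonneg hg0.le]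
    field_simp; linarith
  have ha : ‖j / g‖ ^ 2 ≤ 2 * k := by
    rw [norm_div, hj1, norm_real, Real.norm_of_nonneg hg0.le, div_pow, one_pow,
      div_le_iff₀ (by positivity)]
    exact hgk
  have hT : ∀ ξ, (j / g * ξ + u * conj j / g) / (conj (u * conj j / g) * ξ + conj (j / g)) =
      mob (-u) (j ^ 2 * ξ) := fun ξ => by
    rw [mob, ← mul_div_mul_right _ _ (mul_ne_zero hgc (right_ne_zero_of_mul_eq_one hjj))]
    simp only [map_div₀, map_mul, conj_conj, conj_ofReal, map_neg]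
    congr 1
    · field_simp; linear_combination u * hjj
    · field_simp; linear_combination hjj
  by_cases hcase : 1 / (64 * (k : ℝ) ^ 2) ≤ 1 - (j / g).re ^ 2
  · exact fixed_in hab hk1 ha hcase hι hA.diff
      ((mob_diff (a := -u) (by rwa [norm_neg])).comp hC.diff hC.maps) (e := 512 * k ^ 3 * κ) (by positivity)
      (by linarith [hpw 7 le_rfl]) (fun w hw => by
        have h4 : 0 < 1 / (64 * (k : ℝ) ^ 2) := by positivity
        have h1 : ∀ {B : ℂ → ℂ} {η : ℂ}, (∀ w, ‖w‖ < 1 → (1 - ‖w‖) * ‖B w - η * w‖ ≤ 2 * κ * ‖w‖) →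
            ‖B w - η * w‖ ≤ 128 * k ^ 2 * κ := fun hB =>
          (approx_le hB (by positivity) hw).trans (by
            calc _ ≤ 2 * (64 * k ^ 2) * κ * 1 := by gcongr; linarith
              _ = _ := by ring)
        refine ⟨(h1 hιA).trans (by gcongr <;> norm_num), ?_⟩
        rw [hT, hj, show ι' * conj ι * (ι * w) = ι' * w by linear_combination ι' * w * hιι]
        have h5 : ‖w‖ < 1 := by linarith
        refine (mob_lip (k := k) (u := -u) (z := C w) (z' := ι' * w) (by positivity)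
          (by rwa [norm_neg]) ((hC.norm_le h5).trans h5.le)
          (by rw [norm_mul, hι', one_mul]; exact h5.le)).trans ?_
        calc _ ≤ 4 * k * (128 * k ^ 2 * κ) := by gcongr; exact h1 hιC
          _ = _ := by ring)
  exfalso
  have hup : (j / g).re ^ 2 - 1 ≤ 1 / (64 * (k : ℝ) ^ 2) := by
    obtain ⟨w, h1, h2, h3⟩ := hC.cover h2k (β := -u) (by
      rw [div_pow, div_div, le_div_iff₀ (by positivity)]; linarith [hpw 2 (by norm_num)])
      (by rwa [norm_neg])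
    rw [norm_neg] at h2
    have h4 : ‖w‖ ≤ 1 - 1 / (4 * k) := h1.trans_eq (by field_simp; ring)
    have h5 := hor w (by linarith) h3
    have h6 : ‖A w - -(conj (j ^ 2) * u)‖ ≤ 32 * k * κ * ‖u‖ := by
      have h7 := approx_le hιA (by positivity) h4
      have h8 := approx_le hιC (by positivity) h4
      rw [show A w - -(conj (j ^ 2) * u) = (A w - ι * w) - ι * conj ι' * (C w - ι' * w) by
        rw [hj, h3, map_mul, conj_conj]; linear_combination -ι * w * hιι']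
      refine (norm_sub_le _ _).trans ?_
      rw [norm_mul, norm_mul, hι, RCLike.norm_conj, hι', one_mul, one_mul]
      have h9 : 2 * (4 * k) * κ * ‖w‖ ≤ 2 * (4 * k) * κ * (2 * ‖u‖) := by gcongr
      linarith
    have h7 : ‖conj (j ^ 2) * u‖ = ‖u‖ := by rw [norm_mul, RCLike.norm_conj, norm_pow, hj1]; simp
    have h8 : ‖u + -(conj (j ^ 2) * u)‖ = 2 * |j.im| * ‖u‖ := by
      rw [show u + -(conj (j ^ 2) * u) = (j - conj j) * (conj j * u) by
        rw [map_pow]; linear_combination -u * hjj, sub_conj]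
      simp [hj1]
    have h9 := norm_sub_le_norm_sub_add_norm_sub u (conj (j ^ 2) * u) (-A w)
    rw [sub_neg_eq_add, sub_neg_eq_add, sub_eq_add_neg u, h8, add_comm (conj (j ^ 2) * u),
      ← sub_neg_eq_add (A w)] at h9
    have h10 := norm_sub_norm_le (-(conj (j ^ 2) * u)) (A w)
    rw [norm_neg, h7, norm_sub_rev] at h10
    have hη0 : 0 < 32 * k * κ := by positivity
    have hη1 : 32 * k * κ ≤ 1 / 2 := by linarith [hpw 1 (by norm_num)]
    have hη2 : 2 * k * (3 * (32 * k * κ)) ≤ 1 / (64 * (k : ℝ) ^ 2) := by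
      rw [le_div_iff₀ (by positivity)]; linarith [hpw 4 (by norm_num)]
    generalize 32 * k * κ = η at h6 hη0 hη1 hη2
    have h11 : ((1 - η) * ‖u‖) ^ 2 ≤ ‖A w‖ ^ 2 := by
      gcongr; exacts [by nlinarith, by linarith]
    have h12 : 2 * ‖u‖ - 3 * η ≤ 2 * |j.im| := by
      refine le_of_mul_le_mul_right ?_ hnu
      have h12 : η * ‖u‖ ^ 2 ≤ η * ‖u‖ := by gcongr; nlinarith
      have h13 : ((1 - η) * ‖u‖) ^ 2 = ‖u‖ ^ 2 - 2 * (η * ‖u‖ ^ 2) + (η * ‖u‖) ^ 2 := by ring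
      linarith [sq_nonneg (η * ‖u‖)]
    have h13 : ‖u‖ ^ 2 - 3 * η ≤ j.im ^ 2 := by
      rw [← sq_abs j.im]
      rcases le_total (2 * ‖u‖ - 3 * η) 0 with h | h
      · nlinarith [sq_nonneg |j.im|]
      · have : (2 * ‖u‖ - 3 * η) ^ 2 ≤ (2 * |j.im|) ^ 2 := by gcongr
        nlinarith [sq_nonneg η]
    have h14 : j.re ^ 2 = 1 - j.im ^ 2 := by
      have := normSq_eq_norm_sq j
      rw [normSq_apply, hj1] at this
      linarith
    refine le_trans ?_ hη2
    rw [div_ofReal_re, div_pow, sub_le_iff_le_add, div_le_iff₀ (by positivity)]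
    nlinarith
  obtain ⟨ξ, h1, h2⟩ := no_close hab hk ha (by rw [div_ofReal_re]; positivity)
    (abs_le.mpr ⟨by linarith, (not_le.mp hcase).le⟩)
    (div_ne_zero (mul_ne_zero hu0 (left_ne_zero_of_mul_eq_one hjj)) hgc) h0 fun m ξ h1 h2 => by
      obtain ⟨w, h3, h4, rfl⟩ := hA.cover (by positivity) (by
        rw [div_pow, div_div, le_div_iff₀ (by positivity)]; linarith [hpw 6 (by norm_num)]) h2
      have h5 : ‖w‖ ≤ 1 - 1 / (68 * k ^ 3) := h3.trans_eq (by field_simp; ring)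
      have h6 : 0 < 1 / (68 * (k : ℝ) ^ 3) := by positivity
      refine ⟨ι * conj ι' * C w, ?_, ?_⟩
      · have h7 := approx_le hιA (by positivity) h5
        have h8 := approx_le hιC (by positivity) h5
        rw [show ι * conj ι' * C w - A w = ι * conj ι' * (C w - ι' * w) - (A w - ι * w) by
          linear_combination ι * w * hιι']
        refine (norm_sub_le _ _).trans ?_
        rw [norm_mul, norm_mul, hι, RCLike.norm_conj, hι', one_mul, one_mul]
        have h9 : 2 * (68 * k ^ 3) * κ * ‖w‖ ≤ 2 * (68 * k ^ 3) * κ * (2 * ‖A w‖) := by gcongr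
        have h10 : 544 * k ^ 3 * κ * ‖A w‖ ≤ 1 / (64 * k ^ 4) * ‖A w‖ := by
          gcongr; rw [le_div_iff₀ (by positivity)]; linarith [hpw 7 le_rfl]
        linarith
      · rw [hT, hj, show ι' * conj ι * (ι * conj ι' * C w) = C w by
          linear_combination ι' * conj ι' * C w * hιι + C w * hιι']
        exact hstep m w (by linarith) h1
  exact h1 (hclose ξ h2)

end T4
open T4

theorem st_FP : St_FP := by
  intro n c k O ρ W κ m h hκ0 hκ
  classical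
  have h00 : (0 : ℂ) ∈ ball (0 : ℂ) 1 := mem_ball_self one_pos
  obtain ⟨x, hx, φ₁, ψ₁, hb₁, rfl⟩ := m.chart
  obtain ⟨x₀, hx₀, hmax⟩ := (O.filter (· ∈ W)).exists_max_image (fun z => ‖φ₁ z‖)
    ⟨_, Finset.mem_filter.mpr ⟨hx, hb₁.mψ h00⟩⟩
  obtain ⟨hO, hW⟩ := Finset.mem_filter.mp hx₀
  have hp := hb₁.lt hW
  have hb := hb₁.trans (bihol_mob hp)
  have hφ : ∀ z ∈ O, z ∈ W → ‖mob (-φ₁ x₀) ((mob (φ₁ x₀) ∘ φ₁) z)‖ ≤ ‖φ₁ x₀‖ := fun z hz hz' => by
    rw [Function.comp_apply, mob_neg_mob hp (hb₁.lt hz').le]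
    exact hmax z (Finset.mem_filter.mpr ⟨hz, hz'⟩)
  have hψ : (ψ₁ ∘ mob (-φ₁ x₀)) 0 = x₀ := by simp [hb₁.left _ hW]
  generalize mob (φ₁ x₀) ∘ φ₁ = φ at hb hφ
  generalize ψ₁ ∘ mob (-φ₁ x₀) = ψ at hb hψ
  have hφ0 : φ x₀ = 0 := by rw [← hψ, hb.right 0 h00]
  obtain ⟨y, hy, hyW, hne, hle⟩ := m.jen φ ψ hb (hψ ▸ hO)
  obtain ⟨d, hd1, hdk, hd⟩ := h.trans y hy x₀ hO
  have hu := hb.lt hyW
  have hψy : (ψ ∘ mob (-φ y)) 0 = y := by simp [hb.left _ hyW]
  obtain ⟨α, β, a1, a2, a3, a4, a5, hA, hC⟩ := m.inv d hdk _ _ φ ψ (hb.trans (bihol_mob hu)) hb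
    (hψy.symm ▸ hy) (by rw [hψy, hd, hψ])
  have hG : ∀ w, ‖w‖ < 1 → mob (-φ y) (((mob (φ y) ∘ φ) ∘ β) w) = φ (β w) := fun w hw =>
    mob_neg_mob hu (hb.lt (a4 (mem_ball_zero_iff.mpr hw))).le
  obtain ⟨w, h0, h2, h3⟩ := rigid_in hA hC h.pos hκ0 hκ (u := φ y)
    (fun e => hne (by rw [← e, hb.left _ hyW])) hle (fun w hw e => by
      have hw' := mem_ball_zero_iff.mpr hw
      have h1 := hG w hw
      rw [e, mob_self, ← hφ0] at h1
      have h2 : α w ∈ O := by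
        rw [← (a5 w hw').1, ← hb.injOn hW (a4 hw') h1]; exact h.iter_mem hO d
      exact horo hp hu (hb.lt (a3 hw')) (hφ y hy hyW) (hφ _ h2 (a3 hw')))
    (R := fun i ξ => ∃ z ∈ O, z ∈ W ∧ φ z = ξ ∧ (F n c)^[d * i] z = x₀) ⟨x₀, hO, hW, hφ0, rfl⟩
    (fun i w hw ⟨z, h1, h2, h3, h4⟩ => by
      have hw' := mem_ball_zero_iff.mpr hw
      obtain rfl := hb.injOn h2 (a3 hw') h3
      exact ⟨β w, (a5 w hw').2 h1, a4 hw', (hG w hw).symm, by
        rw [mul_add_one, Function.iterate_add_apply, (a5 w hw').1, h4]⟩)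
    (fun ξ ⟨z, h1, _, h3, h4⟩ => by
      rw [mul_comm, Function.iterate_mul, Function.iterate_fixed (h.per z h1)] at h4
      rw [← h3, h4, hφ0])
  have h1 : ‖w‖ < 1 := by
    have hk : (0 : ℝ) < k := by exact_mod_cast h.pos
    have : 0 < 1 / (64 * (k : ℝ) ^ 2) := by positivity
    linarith
  have hw := mem_ball_zero_iff.mpr h1
  have h4 : α w = β w := hb.injOn (a3 hw) (a4 hw) (h2.trans (hG w h1))
  have h5 : (ψ ∘ mob (-φ (β w))) 0 = β w := by simp [hb.left _ (a4 hw)]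
  refine ⟨_, _, d, y, hy, hb.trans (bihol_mob (hb.lt (a4 hw))), hd1, hdk, ?_, ?_, hyW, hd ▸ hW,
    fun e => hne (by rw [← e, hd, hψ]), ?_, ?_⟩
  · rw [h5]; exact (a5 w hw).1.trans h4
  rotate_left
  · rw [Function.comp_apply, mob_symm]
    exact (hC.norm_le h1).trans h0
  · rw [hd, Function.comp_apply, hφ0, mob_zero, norm_neg, ← h4]
    exact (hA.norm_le h1).trans h0
  rw [h5]
  refine h3 _ ?_
  rw [deriv_rel a2 (fun w hw => (a5 w hw).1) hw h4 (hb.dφ.differentiableAt (m.opn.mem_nhds (a4 hw)))]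
  congr 1
  exact EventuallyEq.deriv_eq (eventually_of_mem (isOpen_ball.mem_nhds hw) fun z hz =>
    (hG z (mem_ball_zero_iff.mp hz)).symm)

end Pool.Agent.Lib.MP_c35c17_an.R
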