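import Pool.Agent.Lib.MP_c35c17_an.RBase

/-! Moments of the polar part. -/

set_option autoImplicit false

open Filter Topology Set Metric Complex
open scoped Real

namespace Pool.Agent.Lib.MP_c35c17_an.R

namespace T86

theorem mom {m : ℕ} {z a : ℕ → ℂ} {σ : ℝ} {g : ℂ → ℂ} (hz : ∀ j < m, ‖z j‖ < 1)
    (hg : DifferentiableOn ℂ g (closedBall 0 1)) (hb : ∀ w, ‖w‖ = 1 → ‖pol m z a w + g w‖ ≤ σ)
    (k : ℕ) : ‖∑ j ∈ Finset.range m, (k * z j ^ (k - 1) + a j * z j ^ k)‖ ≤ σ := by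
  have zb : ∀ j ∈ Finset.range m, z j ∈ ball (0 : ℂ) 1 := fun j hj =>
    mem_ball_zero_iff.2 (hz j (Finset.mem_range.1 hj))
  have ci : ∀ j ∈ Finset.range m, ContinuousOn (fun w => (w - z j)⁻¹) (sphere (0 : ℂ) 1) :=
    fun j hj => (continuousOn_id.sub continuousOn_const).inv₀ fun w hw =>
      sub_ne_zero.2 (ne_of_mem_of_not_mem hw (ne_of_lt (zb j hj)))
  have cp : ContinuousOn (fun w : ℂ => w ^ k) (sphere (0 : ℂ) 1) := by fun_prop
  have i1 : ∀ j ∈ Finset.range m,
      CircleIntegrable (fun w => ((w - z j) ^ 2)⁻¹ • w ^ k) 0 1 := fun j hj => by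
    simp only [← inv_pow]
    exact (((ci j hj).pow 2).smul cp).circleIntegrable zero_le_one
  have i2 : ∀ j ∈ Finset.range m,
      CircleIntegrable (fun w => a j • ((w - z j)⁻¹ • w ^ k)) 0 1 := fun j hj =>
    (((ci j hj).smul cp).const_smul (a j)).circleIntegrable zero_le_one
  have hd : DifferentiableOn ℂ (fun w => g w * w ^ k) (closedBall 0 1) := hg.mul (by fun_prop)
  have i3 : CircleIntegrable (fun w => g w * w ^ k) 0 1 :=
    (hd.continuousOn.mono sphere_subset_closedBall).circleIntegrable zero_le_one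
  have e := circleIntegral.norm_two_pi_i_inv_smul_integral_le_of_norm_le_const (c := 0) (C := σ) zero_le_one
    (f := fun w => ∑ j ∈ Finset.range m, (((w - z j) ^ 2)⁻¹ • w ^ k + a j • ((w - z j)⁻¹ • w ^ k)) +
      g w * w ^ k) fun w hw => by
      have hw := mem_sphere_zero_iff_norm.1 hw
      have := hb w hw
      rw [← mul_one ‖_‖, ← one_pow k, ← hw, ← norm_pow, ← norm_mul, pol, add_mul,
        Finset.sum_mul] at this
      simpa only [smul_eq_mul, add_mul, inv_pow, mul_assoc] using this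
  have i4 : ∀ j ∈ Finset.range m, CircleIntegrable
      (fun w => ((w - z j) ^ 2)⁻¹ • w ^ k + a j • ((w - z j)⁻¹ • w ^ k)) 0 1 := fun j hj =>
    (i1 j hj).add (i2 j hj)
  rw [circleIntegral.integral_add (CircleIntegrable.fun_sum _ i4) i3,
    circleIntegral.integral_fun_sum i4,
    (hd.mono closure_ball_subset_closedBall).diffContOnCl.circleIntegral_eq_zero zero_le_one,
    add_zero, Finset.smul_sum, one_mul] at e
  refine le_of_eq_of_le (congrArg norm (Finset.sum_congr rfl fun j hj => ?_)) e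
  rw [circleIntegral.integral_add (i1 j hj) (i2 j hj), smul_add, circleIntegral.integral_smul,
    two_pi_I_inv_smul_circleIntegral_sub_sq_inv_smul_of_differentiable isOpen_univ (subset_univ _)
      (f := fun w => w ^ k) (by fun_prop) (zb j hj), smul_comm,
    DiffContOnCl.two_pi_i_inv_smul_circleIntegral_sub_inv_smul (f := fun w => w ^ k)
      (Differentiable.diffContOnCl (by fun_prop)) (zb j hj)]
  simp

theorem pow_near {x y : ℂ} {δ : ℝ} (h0 : 0 ≤ δ) (h : ‖x - y‖ ≤ δ * ‖y‖) (j : ℕ) :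
    ‖x ^ j - y ^ j‖ ≤ ((1 + δ) ^ j - 1) * ‖y‖ ^ j := by
  induction j with
  | zero => simp
  | succ j ih =>
    have a : ‖x‖ ≤ (1 + δ) * ‖y‖ := by linarith [norm_sub_norm_le x y]
    rw [show x ^ (j + 1) - y ^ (j + 1) = x * (x ^ j - y ^ j) + (x - y) * y ^ j by ring]
    refine (norm_add_le _ _).trans ?_
    rw [norm_mul, norm_mul, norm_pow]
    refine (add_le_add (mul_le_mul a ih (norm_nonneg _) (by positivity))
      (mul_le_mul_of_nonneg_right h (by positivity))).trans_eq (by ring)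

theorem sum_near {m : ℕ} {u : ℕ → ℂ} {c : ℂ} {σ e : ℝ} (h : ‖∑ j ∈ Finset.range m, u j‖ ≤ σ)
    (he : ∀ j < m, ‖u j - c‖ ≤ e) : m * ‖c‖ ≤ σ + m * e := by
  have a := norm_sum_le_of_le (Finset.range m) fun j hj => he j (Finset.mem_range.1 hj)
  have b := norm_sub_norm_le ((m : ℂ) * c) (∑ j ∈ Finset.range m, u j)
  rw [Finset.sum_sub_distrib] at a
  simp only [Finset.sum_const, Finset.card_range, nsmul_eq_mul] at a
  rw [norm_sub_rev, norm_mul, norm_natCast] at b
  linarith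

end T86

open T86 in
theorem st_G1 : St_G1 := by
  intro m ζ z a δ σ g h δ0 σ0 hs hg hb
  have m2 : (2 : ℝ) ≤ m := by exact_mod_cast h.two
  have m0 : 0 < m := lt_of_lt_of_le two_pos h.two
  have s1 : δ + σ ≤ 1 / 200 := by nlinarith
  have k := mom h.lt hg hb
  have k0 := k 0
  have k1 := k 1
  have k2 := k (m + 1)
  simp only [Nat.cast_zero, zero_mul, zero_add, pow_zero, mul_one, Nat.cast_one, Nat.sub_self,
    pow_one, Nat.add_sub_cancel] at k0 k1 k2
  have a1 : ∀ j < m, ‖1 + z j * a j - (1 + z 0 * a 0)‖ ≤ 2 * δ * (2 + ‖1 + z 0 * a 0‖) :=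
    fun j hj => by
      have b1 := h.coc j hj
      have b2 := norm_sub_norm_le (z j * a j) (z 0 * a 0)
      have b3 := norm_sub_le (1 + z 0 * a 0) 1
      rw [add_sub_cancel_left, norm_one] at b3
      rw [add_sub_add_left_eq_sub]
      refine b1.trans ?_
      rw [mul_comm 2 δ, mul_assoc]
      refine mul_le_mul_of_nonneg_left ?_ δ0
      nlinarith [norm_nonneg (z j * a j)]
  have a2 := sum_near (u := fun j => 1 + z j * a j) (by simpa only [mul_comm] using k1) a1
  have a3 : ‖1 + z 0 * a 0‖ ≤ σ + 2 * δ * (2 + ‖1 + z 0 * a 0‖) :=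
    le_of_mul_le_mul_left (by nlinarith) (show (0 : ℝ) < m by linarith)
  have a4 : ‖1 + z 0 * a 0‖ ≤ 5 * (δ + σ) := by nlinarith [norm_nonneg (1 + z 0 * a 0)]
  have a5 : ∀ j < m, ‖1 + z j * a j‖ ≤ 14 * (δ + σ) := fun j hj => by
    nlinarith [a1 j hj, norm_sub_norm_le (1 + z j * a j) (1 + z 0 * a 0)]
  refine ⟨k0, a5, ?_⟩
  have n1 := norm_eq_one_of_pow_eq_one h.prim.pow_eq_one m0.ne'
  have a6 := sum_near (c := m * z 0 ^ m) (e := m * ‖z 0‖ ^ m / 2) k2 fun j hj => by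
    have nj : ‖ζ ^ j * z 0‖ = ‖z 0‖ := by rw [norm_mul, norm_pow, n1, one_pow, one_mul]
    have b1 := pow_near δ0 ((h.near j hj).trans_eq (by rw [nj])) m
    rw [nj, mul_pow, ← pow_mul, mul_comm j m, pow_mul, h.prim.pow_eq_one, one_pow, one_mul] at b1
    have b2 := one_add_pow_le (m := m) δ0 (by nlinarith)
    have p0 : 0 ≤ ‖z 0‖ ^ m := by positivity
    have b3 : ‖z j ^ m - z 0 ^ m‖ ≤ 1 / 50 * ‖z 0‖ ^ m :=
      b1.trans (mul_le_mul_of_nonneg_right (by nlinarith) p0)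
    have b4 := norm_sub_norm_le (z j ^ m) (z 0 ^ m)
    rw [norm_pow (z 0)] at b4
    rw [show ((m + 1 : ℕ) : ℂ) * z j ^ m + a j * z j ^ (m + 1) - m * z 0 ^ m =
      m * (z j ^ m - z 0 ^ m) + z j ^ m * (1 + z j * a j) by push_cast; ring]
    refine (norm_add_le _ _).trans ?_
    rw [norm_mul, norm_mul, norm_natCast]
    have b5 : ‖z j ^ m‖ * ‖1 + z j * a j‖ ≤ (2 * ‖z 0‖ ^ m) * (1 / 10) :=
      mul_le_mul (by linarith) (by linarith [a5 j hj]) (norm_nonneg _) (by positivity)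
    nlinarith [mul_le_mul_of_nonneg_left b3 (show (0 : ℝ) ≤ m by linarith)]
  rw [norm_mul, norm_natCast, norm_pow] at a6
  linarith

end Pool.Agent.Lib.MP_c35c17_an.R
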