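import Pool.Agent.Lib.MP_c35c17_an.RBase

/-! Comparison of the polar part with the symmetric differential. -/

set_option autoImplicit false

open Filter Topology Set Metric Complex Bornology MeasureTheory
open scoped Real ENNReal ComplexConjugate

namespace Pool.Agent.Lib.MP_c35c17_an.R

open Q

namespace T58

theorem sym {m : ℕ} (hm : 2 ≤ m) {ζ : ℂ} (hζ : IsPrimitiveRoot ζ m) {w a : ℂ} (ha : a ≠ 0)
    (hw : w ≠ 0) (h : w ^ m ≠ a ^ m) :
    (m : ℂ) ^ 2 * a ^ m * w ^ (m - 2) / (w ^ m - a ^ m) ^ 2 * w ^ 2 =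
      ∑ j ∈ Finset.range m, ((w * (w - ζ ^ j * a)⁻¹) ^ 2 - w * (w - ζ ^ j * a)⁻¹) := by
  have hz : ζ ≠ 0 := hζ.ne_zero (by omega)
  have h0 : ∀ j, w - ζ ^ j * a ≠ 0 := fun j e => h (by
    rw [sub_eq_zero.mp e, mul_pow, ← pow_mul, mul_comm j m, pow_mul, hζ.pow_eq_one, one_pow,
      one_mul])
  have e : ∀ j, (ζ⁻¹ ^ j * w - a)⁻¹ = ζ ^ j * (w - ζ ^ j * a)⁻¹ := fun j => by
    have h1 : ζ ^ j ≠ 0 := pow_ne_zero j hz
    rw [inv_pow, show (ζ ^ j)⁻¹ * w - a = (ζ ^ j)⁻¹ * (w - ζ ^ j * a) by field_simp, mul_inv,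
      inv_inv]
  have k1 := kernel hm hζ.inv h
  have k2 := kernel2 hm hζ.inv h
  have k3 : ∑ j ∈ Finset.range m, ζ⁻¹ ^ j = 0 := hζ.inv.geom_sum_eq_zero (by omega)
  have e1 : ∀ j ∈ Finset.range m, (w * (w - ζ ^ j * a)⁻¹) ^ 2 - w * (w - ζ ^ j * a)⁻¹ =
      w ^ 2 * ((ζ⁻¹ ^ j) ^ 2 * (ζ⁻¹ ^ j * w - a)⁻¹ ^ 2) -
        w ^ 2 / a * ((ζ⁻¹ ^ j) ^ 2 * (ζ⁻¹ ^ j * w - a)⁻¹) + w / a * ζ⁻¹ ^ j := fun j _ => by
    have h1 : ζ ^ j ≠ 0 := pow_ne_zero j hz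
    have h2 := h0 j
    rw [e, inv_pow]
    field_simp
    ring
  have h3 := sub_ne_zero.mpr h
  rw [Finset.sum_congr rfl e1, Finset.sum_add_distrib, Finset.sum_sub_distrib, ← Finset.mul_sum,
    ← Finset.mul_sum, ← Finset.mul_sum, k1, k2, k3]
  field_simp
  ring

theorem far {m s t : ℝ} {w y : ℂ} (hm : 2 ≤ m) (hs : 0 < s) (hw : (1 + 1 / m) * s ≤ ‖w‖)
    (ht : 4 * m * t ≤ s) (hy : ‖y‖ ≤ s + t) : w - y ≠ 0 ∧ ‖w * (w - y)⁻¹‖ ≤ 2 * m := by
  have h0 : (0 : ℝ) < m := by linarith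
  have h1 : (m + 1) * s ≤ m * ‖w‖ := by
    calc (m + 1) * s = m * ((1 + 1 / m) * s) := by field_simp
      _ ≤ _ := by gcongr
  have h2 := norm_sub_norm_le w y
  have h3 : 0 < ‖w‖ := by nlinarith
  have h4 : ‖w‖ ≤ 2 * m * ‖w - y‖ := by
    refine le_of_mul_le_mul_left ?_ (by linarith : 0 < 2 * (m + 1))
    have h5 : 4 * m * (m + 1) * (‖w‖ - s - t) ≤ 4 * m * (m + 1) * ‖w - y‖ := by
      gcongr; linarith
    have h6 : (m + 1) * (4 * m * t) ≤ (m + 1) * s := by gcongr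
    have h7 : 4 * m * ((m + 1) * s) ≤ 4 * m * (m * ‖w‖) := by gcongr
    nlinarith
  have h5 : 0 < ‖w - y‖ := by nlinarith [norm_nonneg (w - y)]
  refine ⟨norm_pos_iff.mp h5, ?_⟩
  rw [norm_mul, norm_inv, ← div_eq_mul_inv, div_le_iff₀ h5]
  exact h4

end T58

theorem st_G2 : St_G2 := by
  intro m ζ z a δ ν h hδ hν h4 hs ht w hw hw1
  have hm : (2 : ℝ) ≤ m := by exact_mod_cast h.two
  have hs0 := norm_pos_iff.mpr h.ne
  have hζ : ∀ j, ‖ζ ^ j * z 0‖ = ‖z 0‖ := fun j => by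
    rw [norm_mul, norm_pow, h.prim.norm'_eq_one (by have := h.two; omega), one_pow, one_mul]
  have hlt : ‖z 0‖ < ‖w‖ := lt_of_lt_of_le (lt_mul_of_one_lt_left hs0 (by
    have : 0 < 1 / (m : ℝ) := by positivity
    linarith)) hw
  have hw0 : w ≠ 0 := norm_pos_iff.mp (hs0.trans hlt)
  have hne : w ^ m ≠ z 0 ^ m := fun e => by
    have h1 := congrArg norm e
    rw [norm_pow, norm_pow] at h1
    exact (pow_lt_pow_left₀ hlt hs0.le (by have := h.two; omega)).ne' h1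
  have hV := fun j => T58.far (t := 0) (y := ζ ^ j * z 0) hm hs0 hw (by linarith) (by
    rw [hζ, add_zero])
  have hU := fun j (hj : j < m) => T58.far (t := δ * ‖z 0‖) (y := z j) hm hs0 hw (by nlinarith) (by
    have := norm_le_norm_add_norm_sub' (z j) (ζ ^ j * z 0)
    linarith [hζ j, h.near j hj])
  have key : (pol m z a w - m ^ 2 * z 0 ^ m * w ^ (m - 2) / (w ^ m - z 0 ^ m) ^ 2) * w ^ 2 =
      ∑ j ∈ Finset.range m, ((w * (w - z j)⁻¹ - w * (w - ζ ^ j * z 0)⁻¹) *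
        (w * (w - z j)⁻¹ + w * (w - ζ ^ j * z 0)⁻¹ - 1) + (1 + z j * a j) * (w * (w - z j)⁻¹)) +
        w * ∑ j ∈ Finset.range m, a j := by
    rw [sub_mul, T58.sym h.two h.prim h.ne hw0 hne, pol, Finset.sum_mul, ← Finset.sum_sub_distrib,
      Finset.mul_sum, ← Finset.sum_add_distrib]
    refine Finset.sum_congr rfl fun j hj => ?_
    have h1 := (hU j (Finset.mem_range.mp hj)).1
    have h2 : w * (w - z j)⁻¹ = 1 + z j * (w - z j)⁻¹ := by field_simp; ring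
    linear_combination (w * a j) * h2
  have hν0 : 0 ≤ ν := hδ.trans hν
  rw [← norm_pow, ← norm_mul, key]
  refine (norm_add_le _ _).trans ?_
  have h5 : ‖w * ∑ j ∈ Finset.range m, a j‖ ≤ ν := by
    rw [norm_mul]; exact (mul_le_of_le_one_left (norm_nonneg _) hw1).trans hs
  have h6 := norm_sum_le_of_le (Finset.range m) (n := fun _ => 60 * (m : ℝ) ^ 3 * ν)
    (f := fun j => (w * (w - z j)⁻¹ - w * (w - ζ ^ j * z 0)⁻¹) *
        (w * (w - z j)⁻¹ + w * (w - ζ ^ j * z 0)⁻¹ - 1) + (1 + z j * a j) * (w * (w - z j)⁻¹))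
    fun j hj => by
      have hj := Finset.mem_range.mp hj
      obtain ⟨u1, u2⟩ := hU j hj
      obtain ⟨v1, v2⟩ := hV j
      have d1 : ‖w * (w - z j)⁻¹ - w * (w - ζ ^ j * z 0)⁻¹‖ ≤ 2 * m * (2 * m) * δ := by
        rw [show w * (w - z j)⁻¹ - w * (w - ζ ^ j * z 0)⁻¹ = w * (w - z j)⁻¹ *
          (w * (w - ζ ^ j * z 0)⁻¹) * ((z j - ζ ^ j * z 0) / w) by field_simp; ring, norm_mul,
          norm_mul]
        gcongr
        rw [norm_div, div_le_iff₀ (hs0.trans hlt)]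
        exact (h.near j hj).trans (by gcongr)
      have d2 : ‖w * (w - z j)⁻¹ + w * (w - ζ ^ j * z 0)⁻¹ - 1‖ ≤ 2 * m + 2 * m + 1 :=
        (norm_sub_le _ _).trans (by rw [norm_one]; linarith [norm_add_le_of_le u2 v2])
      refine (norm_add_le _ _).trans ?_
      rw [norm_mul, norm_mul (1 + _)]
      calc _ ≤ 2 * m * (2 * m) * ν * (2 * m + 2 * m + 1) + 14 * ν * (2 * m) := by
            gcongr
            · exact d1.trans (by gcongr)
            · exact ht j hj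
        _ = (16 * m ^ 2 + 4 * m + 28) * (m * ν) := by ring
        _ ≤ 60 * m ^ 2 * (m * ν) := by gcongr; nlinarith
        _ = _ := by ring
  rw [Finset.sum_const, Finset.card_range, nsmul_eq_mul] at h6
  have h7 : ν ≤ m ^ 4 * ν := le_mul_of_one_le_left hν0 (one_le_pow₀ (by linarith))
  nlinarith

end Pool.Agent.Lib.MP_c35c17_an.R
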