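import Pool.Agent.Lib.MP_c35c17_an.RBase

/-! The interpolation inequality on an almost regular polygon. -/

set_option autoImplicit false

open Filter Topology Set Metric Complex

namespace Pool.Agent.Lib.MP_c35c17_an.R

namespace T4

theorem divide {U : Set ℂ} (hU : IsOpen U) (z : ℕ → ℂ) (S : Finset ℕ) (hz : ∀ i ∈ S, z i ∈ U)
    (hi : InjOn z S) {f : ℂ → ℂ} (hf : DifferentiableOn ℂ f U) (h0 : ∀ i ∈ S, f (z i) = 0) :
    ∃ G, DifferentiableOn ℂ G U ∧ ∀ w ∈ U, f w = (∏ i ∈ S, (w - z i)) * G w := by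
  induction S using Finset.induction_on with
  | empty => exact ⟨f, hf, by simp⟩
  | insert a S ha ih =>
    obtain ⟨G, hG, e⟩ := ih (fun i hi => hz i (by simp [hi])) (hi.mono (by simp))
      fun i hi => h0 i (by simp [hi])
    have ha' := hz a (by simp)
    have h1 : G (z a) = 0 := by
      have h2 := e _ ha'
      rw [h0 a (by simp)] at h2
      refine (mul_eq_zero.mp h2.symm).resolve_left (Finset.prod_ne_zero_iff.mpr
        fun i hi' => sub_ne_zero.mpr fun h => ha ?_)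
      rwa [hi (by simp) (by simp [hi']) h]
    refine ⟨dslope G (z a), (differentiableOn_dslope (hU.mem_nhds ha')).mpr hG, fun w hw => ?_⟩
    have h2 := sub_smul_dslope G (z a) w
    rw [h1, sub_zero, smul_eq_mul] at h2
    rw [e w hw, Finset.prod_insert ha, ← h2]; ring

theorem deriv_fac {F g : ℂ → ℂ} {x : ℂ} (hg : DifferentiableAt ℂ g x)
    (h : ∀ᶠ w in 𝓝 x, F w = (w - x) * g w) : HasDerivAt F (g x) x := by
  have h1 := ((hasDerivAt_id x).sub_const x).mul hg.hasDerivAt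
  simp only [id, sub_self, zero_mul, add_zero, one_mul] at h1
  exact h1.congr_of_eventuallyEq h

theorem prod_near {S : Finset ℕ} {m : ℕ} (hm : 0 < m) (hS : S.card ≤ m) {u v : ℕ → ℂ}
    (h : ∀ i ∈ S, ‖u i - v i‖ ≤ 1 / (4 * m) * ‖v i‖) :
    3 / 4 * ‖∏ i ∈ S, v i‖ ≤ ‖∏ i ∈ S, u i‖ ∧ ‖∏ i ∈ S, u i‖ ≤ 3 / 2 * ‖∏ i ∈ S, v i‖ := by
  have h1 : (1 : ℝ) ≤ m := by exact_mod_cast hm
  have h2 : (S.card : ℝ) ≤ m := by exact_mod_cast hS
  set x : ℝ := 1 / (4 * m) with hx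
  have h3 : m * x = 1 / 4 := by rw [hx]; field_simp
  have h4 : 0 < x := by positivity
  have h5 : x ≤ 1 / 4 := by nlinarith
  have h6 : 0 ≤ ∏ i ∈ S, ‖v i‖ := Finset.prod_nonneg fun _ _ => norm_nonneg _
  rw [norm_prod, norm_prod]
  constructor
  · calc _ ≤ (1 + -x) ^ S.card * ∏ i ∈ S, ‖v i‖ := by
          refine mul_le_mul_of_nonneg_right (le_trans ?_ (one_add_mul_le_pow (by linarith) _)) h6
          nlinarith
      _ = ∏ i ∈ S, ((1 + -x) * ‖v i‖) := by rw [Finset.prod_mul_distrib, Finset.prod_const]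
      _ ≤ _ := Finset.prod_le_prod (fun i _ => mul_nonneg (by linarith) (norm_nonneg _))
          fun i hi => by
            have := norm_sub_norm_le (v i) (u i)
            rw [norm_sub_rev] at this
            linarith [h i hi]
  · calc _ ≤ ∏ i ∈ S, ((1 + x) * ‖v i‖) := Finset.prod_le_prod (fun i _ => norm_nonneg _)
          fun i hi => by linarith [norm_sub_norm_le (u i) (v i), h i hi]
      _ = (1 + x) ^ S.card * ∏ i ∈ S, ‖v i‖ := by rw [Finset.prod_mul_distrib, Finset.prod_const]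
      _ ≤ _ := by
          refine mul_le_mul_of_nonneg_right ((pow_le_pow_right₀ (by linarith) hS).trans
            ((one_add_pow_le h4.le (by linarith)).trans (by linarith))) h6

theorem prod_root {m : ℕ} {ζ : ℂ} (hζ : IsPrimitiveRoot ζ m) (hm : 0 < m) (y w : ℂ) :
    ∏ i ∈ Finset.range m, (w - ζ ^ i * y) = w ^ m - y ^ m := by
  have h := congrArg (Polynomial.eval w) (X_pow_sub_C_eq_prod hζ hm (rfl : y ^ m = y ^ m))
  simpa [Polynomial.eval_prod] using h.symm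

theorem diff_prod (S : Finset ℕ) (z : ℕ → ℂ) : Differentiable ℂ fun w => ∏ i ∈ S, (w - z i) := by
  fun_prop

theorem prod_root' {m : ℕ} {ζ : ℂ} (hζ : IsPrimitiveRoot ζ m) (y : ℂ) {j : ℕ} (hj : j < m) :
    ‖∏ i ∈ (Finset.range m).erase j, (ζ ^ j * y - ζ ^ i * y)‖ = m * ‖y‖ ^ (m - 1) := by
  have h1 := deriv_fac (F := fun w => w ^ m - y ^ m) (x := ζ ^ j * y)
    (diff_prod ((Finset.range m).erase j) (fun i => ζ ^ i * y) _) (Eventually.of_forall fun w => by
      rw [← prod_root hζ (by omega), Finset.mul_prod_erase _ (fun i => w - ζ ^ i * y)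
        (Finset.mem_range.mpr hj)])
  have h2 := h1.unique ((hasDerivAt_pow m _).sub_const _)
  have h3 := norm_eq_one_of_pow_eq_one hζ.pow_eq_one (by omega)
  rw [h2]; simp [h3]

theorem root_far {m : ℕ} {ζ : ℂ} (hζ : IsPrimitiveRoot ζ m) {i j : ℕ} (hi : i < m) (hj : j < m)
    (h : i ≠ j) : 2 ≤ m * ‖ζ ^ j - ζ ^ i‖ := by
  have h3 := norm_eq_one_of_pow_eq_one hζ.pow_eq_one (by omega)
  have h4 : ζ ^ j ≠ 0 := pow_ne_zero _ (hζ.ne_zero (by omega))
  have h5 := root_sep (m := m) (ω := ζ ^ i / ζ ^ j) (by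
    rw [div_pow, ← pow_mul, ← pow_mul, mul_comm i, mul_comm j, pow_mul, pow_mul, hζ.pow_eq_one]
    simp) (fun e => h (hζ.pow_inj hi hj (eq_of_div_eq_one e))) (by omega)
  rwa [one_sub_div h4, norm_div, norm_pow, h3, one_pow, div_one] at h5

end T4
open T4

theorem st_G5 : St_G5 := by
  intro m ζ z a δ T r R M f τ hG hδ hδ' ha hT hr hR hrm hf hf0 hz hτ hM
  have hm := hG.two
  have m1 : (2 : ℝ) ≤ m := by exact_mod_cast hm
  have hζ := norm_eq_one_of_pow_eq_one hG.prim.pow_eq_one (by omega)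
  have hs := norm_pos_iff.mpr hG.ne
  set s := ‖z 0‖ with hs'
  set S := Finset.range m with hS
  have hSc : S.card = m := Finset.card_range m
  have n1 : ∀ j, ‖ζ ^ j * z 0‖ = s := fun j => by rw [norm_mul, norm_pow, hζ, one_pow, one_mul]
  have d1 : ∀ j < m, ‖z j - ζ ^ j * z 0‖ ≤ 1 / (4 * m) * (s / m) := fun j hj =>
    (hG.near j hj).trans (by
      rw [div_mul_div_comm, le_div_iff₀ (by positivity)]
      nlinarith [mul_le_mul_of_nonneg_right hδ' hs.le])
  have d2 : 1 / (4 * m) * (s / m) ≤ 1 / 8 * (s / m) := by gcongr; linarith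
  have d3 : s / m ≤ s / 2 := by gcongr
  have d4 : 0 < s / m := by positivity
  have r1 : s + s / m ≤ r := by
    refine le_of_pow_le_pow_left₀ (by omega : m ≠ 0) hr.le ?_
    rw [hrm, show s + s / m = (1 + 1 / m) * s by ring, mul_pow]
    gcongr
    linarith [one_add_inv_pow_le m]
  have z1 : ∀ j < m, 7 / 8 * s ≤ ‖z j‖ ∧ ‖z j‖ ≤ s + 1 / 8 * (s / m) := fun j hj => by
    have h1 := abs_le.mp ((abs_norm_sub_norm_le _ _).trans (d1 j hj))
    rw [n1] at h1
    constructor <;> linarith [h1.1, h1.2]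
  have z2 : ∀ j ∈ S, z j ∈ ball (0 : ℂ) R := fun j hj =>
    mem_ball_zero_iff.mpr (by linarith [(z1 j (Finset.mem_range.mp hj)).2])
  have q1 : ∀ j < m, 3 / 4 * (m * s ^ (m - 1)) ≤ ‖∏ i ∈ S.erase j, (z j - z i)‖ := fun j hj => by
    rw [← prod_root' hG.prim (z 0) hj]
    refine (prod_near (by omega) ((Finset.card_erase_le).trans hSc.le) fun i hi => ?_).1
    obtain ⟨h1, h2⟩ := Finset.mem_erase.mp hi
    have h3 := Finset.mem_range.mp h2
    have h4 := root_far hG.prim h3 hj h1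
    have h5 : 2 * (s / m) ≤ ‖ζ ^ j * z 0 - ζ ^ i * z 0‖ := by
      rw [← sub_mul, norm_mul, ← mul_div_assoc, div_le_iff₀ (by positivity)]
      nlinarith
    calc _ = ‖(z j - ζ ^ j * z 0) - (z i - ζ ^ i * z 0)‖ := by congr 1; ring
      _ ≤ 1 / (4 * m) * (s / m) + 1 / (4 * m) * (s / m) :=
          (norm_sub_le _ _).trans (add_le_add (d1 j hj) (d1 i h3))
      _ = 1 / (4 * m) * (2 * (s / m)) := by ring
      _ ≤ _ := by gcongr
  have q2 : ∀ j < m, ∏ i ∈ S.erase j, (z j - z i) ≠ 0 := fun j hj =>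
    norm_pos_iff.mp (lt_of_lt_of_le (by positivity) (q1 j hj))
  have inj : InjOn z S := fun i hi j hj e => by
    by_contra h
    exact q2 j (Finset.mem_range.mp hj) (Finset.prod_eq_zero (Finset.mem_erase.mpr ⟨h, hi⟩)
      (by rw [e, sub_self]))
  obtain ⟨G, dG, eG⟩ := divide isOpen_ball z S z2 inj (hf.sub_const (τ ^ 2))
    fun i hi => by rw [(hz i (Finset.mem_range.mp hi)).1, sub_self]
  set c : ℕ → ℂ := fun j => -(a j * τ ^ 3) / (∏ i ∈ S.erase j, (z j - z i)) ^ 2 with hc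
  obtain ⟨G1, dG1, eG1⟩ := divide isOpen_ball z S z2 inj
    (f := fun w => G w - ∑ j ∈ S, c j * ∏ i ∈ S.erase j, (w - z i))
    (dG.sub (Differentiable.differentiableOn (by fun_prop))) fun j hj => by
      have hj' := Finset.mem_range.mp hj
      have hb := isOpen_ball.mem_nhds (z2 j hj)
      have h1 := deriv_fac (F := fun w => f w - τ ^ 2) (x := z j)
        ((diff_prod (S.erase j) z _).mul (dG.differentiableAt hb))
        (by
          filter_upwards [hb] with w hw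
          rw [eG w hw, ← Finset.mul_prod_erase _ (fun i => w - z i) hj, mul_assoc]; rfl)
      have h2 := h1.unique ((hf.differentiableAt hb).hasDerivAt.sub_const _)
      rw [(hz j hj').2, Pi.mul_apply] at h2
      have h3 := q2 j hj'
      rw [Finset.sum_eq_single j (fun i _ hi => by
        rw [Finset.prod_eq_zero (Finset.mem_erase.mpr ⟨hi.symm, hj⟩) (sub_self _), mul_zero])
        fun h => absurd hj h, hc]
      simp only
      rw [← h2]; field_simp; ring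
  have sm : s ^ m = s ^ (m - 1) * s := by rw [← pow_succ]; congr 1; omega
  have hP : 0 < s ^ m := by positivity
  have c1 : ∀ j < m, ‖c j‖ ≤ 6 * ‖τ‖ ^ 3 * s / (m ^ 2 * (s ^ m) ^ 2) := fun j hj => by
    have h1 : ‖z j‖ * ‖a j‖ ≤ 2 := by
      have h2 := norm_sub_le (1 + z j * a j) 1
      rw [add_sub_cancel_left, norm_mul, norm_one] at h2
      linarith [ha j hj]
    have h2 : ‖a j‖ ≤ 3 / s := by
      rw [le_div_iff₀ hs]
      nlinarith [mul_le_mul_of_nonneg_right (z1 j hj).1 (norm_nonneg (a j)), norm_nonneg (a j)]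
    rw [hc]
    simp only [norm_div, norm_neg, norm_mul, norm_pow]
    calc _ ≤ 3 / s * ‖τ‖ ^ 3 / (3 / 4 * (m * s ^ (m - 1))) ^ 2 := by gcongr; exact q1 j hj
      _ = 16 / 3 * ‖τ‖ ^ 3 * s / (m ^ 2 * (s ^ m) ^ 2) := by rw [sm]; field_simp; ring
      _ ≤ _ := by gcongr; norm_num
  have key : ∀ w ∈ ball (0 : ℂ) R, (∀ j < m, s / m / 2 ≤ ‖w - z j‖) →
      ‖G1 w - (f w - τ ^ 2) / (∏ i ∈ S, (w - z i)) ^ 2‖ ≤ 12 * ‖τ‖ ^ 3 / (s ^ m) ^ 2 := by
    intro w hw h
    have h1 : ∀ j ∈ S, w - z j ≠ 0 := fun j hj =>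
      norm_pos_iff.mp (lt_of_lt_of_le (by positivity) (h j (Finset.mem_range.mp hj)))
    have h2 := Finset.prod_ne_zero_iff.mpr h1
    have h3 : ∑ j ∈ S, c j * ∏ i ∈ S.erase j, (w - z i) =
        (∏ i ∈ S, (w - z i)) * ∑ j ∈ S, c j / (w - z j) := by
      rw [Finset.mul_sum]
      refine Finset.sum_congr rfl fun j hj => ?_
      have h4 := h1 j hj
      rw [← Finset.mul_prod_erase _ (fun i => w - z i) hj]; field_simp
    have h4 := eG1 w hw
    simp only [h3] at h4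
    have h5 : G1 w - (f w - τ ^ 2) / (∏ i ∈ S, (w - z i)) ^ 2 = -∑ j ∈ S, c j / (w - z j) := by
      rw [eG w hw]; field_simp; linear_combination -h4
    rw [h5, norm_neg]
    refine (norm_sum_le_of_le S (n := fun _ => 6 * ‖τ‖ ^ 3 * s / (m ^ 2 * (s ^ m) ^ 2) / (s / m / 2))
      fun j hj => ?_).trans (le_of_eq ?_)
    · rw [norm_div]
      gcongr
      exacts [c1 j (Finset.mem_range.mp hj), h j (Finset.mem_range.mp hj)]
    · rw [Finset.sum_const, hSc, nsmul_eq_mul]; field_simp; ring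
  have M0 : 0 ≤ M := (norm_nonneg _).trans (hM r (by simp [hr.le]))
  have b1 : ‖G1 0‖ ≤ (M + ‖τ‖ ^ 2) / (T * s ^ m / 2) ^ 2 + 12 * ‖τ‖ ^ 3 / (s ^ m) ^ 2 := by
    refine norm_le_of_forall_mem_frontier_norm_le (isBounded_ball (x := 0) (r := r))
      (DifferentiableOn.diffContOnCl (dG1.mono ?_)) (fun w hw => ?_)
      (subset_closure (mem_ball_self hr))
    · rw [closure_ball _ hr.ne']; exact closedBall_subset_ball hR
    rw [frontier_ball _ hr.ne', mem_sphere_zero_iff_norm] at hw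
    have h1 := key w (mem_ball_zero_iff.mpr (by linarith)) fun j hj => by
      linarith [norm_sub_norm_le w (z j), (z1 j hj).2]
    have h2 := (prod_near (S := S) (u := fun i => w - z i) (v := fun i => w - ζ ^ i * z 0)
      (by omega) hSc.le fun i hi => by
        have h3 := norm_sub_norm_le w (ζ ^ i * z 0)
        rw [sub_sub_sub_cancel_left, norm_sub_rev]
        refine (d1 i (Finset.mem_range.mp hi)).trans ?_
        gcongr
        linarith [n1 i]).1
    have h3 := norm_sub_norm_le (w ^ m) (z 0 ^ m)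
    rw [norm_pow, norm_pow, hw, hrm, ← prod_root hG.prim (by omega)] at h3
    have h4 : T * s ^ m / 2 ≤ ‖∏ i ∈ S, (w - z i)‖ := by nlinarith
    have h5 : ‖(f w - τ ^ 2) / (∏ i ∈ S, (w - z i)) ^ 2‖ ≤
        (M + ‖τ‖ ^ 2) / (T * s ^ m / 2) ^ 2 := by
      rw [norm_div, norm_pow]
      gcongr
      exact (norm_sub_le _ _).trans (by rw [norm_pow]; linarith [hM w hw])
    linarith [norm_sub_norm_le (G1 w) ((f w - τ ^ 2) / (∏ i ∈ S, (w - z i)) ^ 2)]
  have b2 := key 0 (mem_ball_self (by linarith)) fun j hj => by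
    rw [zero_sub, norm_neg]; linarith [(z1 j hj).1]
  have b3 := prod_near (S := S) (u := fun i => 0 - z i) (v := fun i => 0 - ζ ^ i * z 0)
    (by omega) hSc.le fun i hi => by
      rw [sub_sub_sub_cancel_left, norm_sub_rev, zero_sub, norm_neg, n1]
      refine (d1 i (Finset.mem_range.mp hi)).trans ?_
      gcongr
      linarith
  rw [prod_root hG.prim (by omega), zero_pow (by omega), zero_sub, norm_neg, norm_pow] at b3
  have b4 : ‖τ‖ ^ 2 / (3 / 2 * s ^ m) ^ 2 ≤ ‖(f 0 - τ ^ 2) / (∏ i ∈ S, (0 - z i)) ^ 2‖ := by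
    have h1 : 0 < ‖∏ i ∈ S, (0 - z i)‖ := lt_of_lt_of_le (by positivity) b3.1
    rw [hf0, zero_sub, norm_div, norm_neg, norm_pow, norm_pow]
    gcongr
    exact b3.2
  have b5 : ‖τ‖ ^ 2 / (3 / 2 * s ^ m) ^ 2 ≤
      (M + ‖τ‖ ^ 2) / (T * s ^ m / 2) ^ 2 + 24 * ‖τ‖ ^ 3 / (s ^ m) ^ 2 := by
    have h1 := norm_sub_norm_le ((f 0 - τ ^ 2) / (∏ i ∈ S, (0 - z i)) ^ 2) (G1 0)
    rw [norm_sub_rev] at h1
    have h2 : 24 * ‖τ‖ ^ 3 / (s ^ m) ^ 2 = 2 * (12 * ‖τ‖ ^ 3 / (s ^ m) ^ 2) := by ring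
    linarith
  have T0 : 0 < T := by linarith
  have b6 : 4 / 9 * (‖τ‖ ^ 2 * T ^ 2) ≤ 4 * (M + ‖τ‖ ^ 2) + 24 * ‖τ‖ * (‖τ‖ ^ 2 * T ^ 2) := by
    have h1 := mul_le_mul_of_nonneg_right b5 (by positivity : 0 ≤ T ^ 2 * (s ^ m) ^ 2)
    refine le_trans (le_of_eq ?_) (h1.trans (le_of_eq ?_)) <;> field_simp <;> ring
  have b7 : ‖τ‖ ^ 2 * 256 ^ 2 ≤ ‖τ‖ ^ 2 * T ^ 2 := by gcongr
  have b8 : ‖τ‖ * (‖τ‖ ^ 2 * T ^ 2) ≤ 1 / 1280 * (‖τ‖ ^ 2 * T ^ 2) := by gcongr
  nlinarith [sq_nonneg ‖τ‖]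

end Pool.Agent.Lib.MP_c35c17_an.R
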