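import Pool.Agent.Lib.MP_c35c17_an.RBase

/-! The polygon lemma. -/

set_option autoImplicit false

open Filter Topology Set Metric Complex Bornology MeasureTheory
open scoped Real ENNReal

namespace Pool.Agent.Lib.MP_c35c17_an.R

namespace T48

theorem zinj {m : ℕ} {ζ : ℂ} {z a : ℕ → ℂ} {δ : ℝ} (h : Gon m ζ z a δ) (hδ : m * δ < 1) {i j : ℕ}
    (hi : i < m) (hj : j < m) (e : z i = z j) : i = j := by
  by_contra hne
  have hm : 0 < m := by omega
  have h0 : ζ ≠ 0 := h.prim.ne_zero hm.ne'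
  have hn : ‖ζ‖ = 1 := h.prim.norm'_eq_one hm.ne'
  have h1 : (ζ ^ i / ζ ^ j) ^ m = 1 := by
    rw [div_pow, ← pow_mul, ← pow_mul, mul_comm i, mul_comm j, pow_mul, pow_mul,
      h.prim.pow_eq_one]; simp
  have h2 : ζ ^ i / ζ ^ j ≠ 1 := fun h2 =>
    hne (h.prim.pow_inj hi hj ((div_eq_one_iff_eq (pow_ne_zero _ h0)).mp h2))
  have h3 := root_sep h1 h2 hm
  have h4 : ‖1 - ζ ^ i / ζ ^ j‖ * ‖z 0‖ ≤ 2 * δ * ‖z 0‖ := by
    have h5 : (1 - ζ ^ i / ζ ^ j) * z 0 * ζ ^ j = (z i - ζ ^ i * z 0) - (z j - ζ ^ j * z 0) := by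
      rw [e]; field_simp; ring
    have h6 := congrArg norm h5
    rw [norm_mul, norm_mul, norm_pow, hn, one_pow, mul_one] at h6
    rw [h6]
    linarith [norm_sub_le (z i - ζ ^ i * z 0) (z j - ζ ^ j * z 0), h.near i hi, h.near j hj]
  have h7 := le_of_mul_le_mul_right h4 (norm_pos_iff.mpr h.ne)
  have h8 : (0 : ℝ) ≤ m := by positivity
  nlinarith [mul_le_mul_of_nonneg_left h7 h8]

theorem zsize {m : ℕ} {ζ : ℂ} {z a : ℕ → ℂ} {δ : ℝ} (h : Gon m ζ z a δ) (hδ : δ < 1) {j : ℕ}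
    (hj : j < m) : z j ≠ 0 ∧ ‖z j‖ ≤ (1 + δ) * ‖z 0‖ := by
  have hn : ‖ζ‖ = 1 := h.prim.norm'_eq_one (by omega)
  have h1 := h.near j hj
  have h2 : ‖ζ ^ j * z 0‖ = ‖z 0‖ := by rw [norm_mul, norm_pow, hn, one_pow, one_mul]
  have h3 := norm_pos_iff.mpr h.ne
  refine ⟨fun h0 => ?_, ?_⟩
  · rw [h0, zero_sub, norm_neg, h2] at h1
    nlinarith
  · linarith [norm_sub_norm_le (z j) (ζ ^ j * z 0)]

theorem ds2 {v : ℂ → ℂ} {U : Set ℂ} (hU : IsOpen U) (hv : DifferentiableOn ℂ v U) {z : ℂ}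
    (hz : z ∈ U) : deriv (deriv v) z = 2 * deriv (dslope v z) z := by
  have hγ : DifferentiableOn ℂ (dslope v z) U := (differentiableOn_dslope (hU.mem_nhds hz)).mpr hv
  have e : v = fun w => (w - z) * dslope v z w + v z := funext fun w => by
    have := sub_smul_dslope v z w
    rw [smul_eq_mul] at this
    rw [this]; ring
  have e1 : deriv v =ᶠ[𝓝 z] fun w => dslope v z w + (w - z) * deriv (dslope v z) w := by
    filter_upwards [hU.mem_nhds hz] with w hw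
    have h1 := ((((hasDerivAt_id' w).sub_const z).fun_mul
      (hγ.differentiableAt (hU.mem_nhds hw)).hasDerivAt).add_const (v z)).deriv
    rw [← e] at h1
    rw [h1]; ring
  have h2 := ((hγ.differentiableAt (hU.mem_nhds hz)).hasDerivAt.fun_add
    (((hasDerivAt_id' z).sub_const z).fun_mul
      ((hγ.deriv hU).differentiableAt (hU.mem_nhds hz)).hasDerivAt)).deriv
  rw [e1.deriv_eq, h2]; ring

theorem mvt {f : ℂ → ℂ} {r Q : ℝ} (hr : 0 < r) (hr1 : r < 1) (hf : DifferentiableOn ℂ f (ball 0 1))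
    (h0 : f 0 = 0) (h : ∀ w, ‖w‖ = r → r * ‖deriv f w‖ ≤ 3 / 4 * ‖f w‖ + Q) :
    ∀ w, ‖w‖ = r → ‖f w‖ ≤ 4 * Q := by
  have hs : closedBall (0 : ℂ) r ⊆ ball 0 1 := closedBall_subset_ball hr1
  have hd : DiffContOnCl ℂ (deriv f) (ball 0 r) :=
    ((hf.deriv isOpen_ball).mono (closure_ball_subset_closedBall.trans hs)).diffContOnCl
  obtain ⟨p, hp, hM⟩ := exists_mem_frontier_isMaxOn_norm isBounded_ball (nonempty_ball.mpr hr) hd
  rw [frontier_ball _ hr.ne', mem_sphere_zero_iff_norm] at hp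
  rw [closure_ball _ hr.ne'] at hM
  have key : ∀ w, ‖w‖ = r → ‖f w‖ ≤ ‖deriv f p‖ * r := fun w hw => by
    have := (convex_closedBall (0 : ℂ) r).norm_image_sub_le_of_norm_deriv_le
      (fun x hx => hf.differentiableAt (isOpen_ball.mem_nhds (hs hx))) (fun x hx => hM hx)
      (mem_closedBall_self hr.le) (mem_closedBall_zero_iff.mpr hw.le)
    simpa [h0, hw] using this
  intro w hw
  linarith [key w hw, key p hp, h p hp]

theorem exF {m : ℕ} {z a : ℕ → ℂ} {g H : ℂ → ℂ} {ρ : ℂ} (hg : DifferentiableOn ℂ g (ball 0 1))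
    (hH : DifferentiableOn ℂ H (ball 0 1)) (hz : ∀ j < m, ‖z j‖ < 1) (hz0 : ∀ j < m, z j ≠ 0)
    (hi : ∀ i < m, ∀ j < m, z i = z j → i = j) (h0 : H 0 = 0) (hρ : ρ ≠ 0)
    (h : ∀ j < m, H (z j) = z j ∧ deriv H (z j) = ρ ∧ act H (z j) (a j) = a j) :
    ∃ f : ℂ → ℂ, DifferentiableOn ℂ f (ball 0 1) ∧ f 0 = 0 ∧
      (∀ j < m, f (z j) = (ρ - 1) ^ 2 ∧ deriv f (z j) = -(a j * (ρ - 1) ^ 3)) ∧
      ∀ w, (∀ j < m, w ≠ z j) → f w = (H w - w) ^ 2 * (pol m z a w + g w) := by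
  set v : ℂ → ℂ := fun w => H w - w with hv
  have hvd : DifferentiableOn ℂ v (ball 0 1) := hH.sub differentiableOn_id
  have hn : ∀ j < m, ball (0 : ℂ) 1 ∈ 𝓝 (z j) := fun j hj =>
    isOpen_ball.mem_nhds (mem_ball_zero_iff.mpr (hz j hj))
  have hγ : ∀ j < m, DifferentiableOn ℂ (dslope v (z j)) (ball 0 1) := fun j hj =>
    (differentiableOn_dslope (hn j hj)).mpr hvd
  have hv0 : ∀ j < m, v (z j) = 0 := fun j hj => sub_eq_zero.mpr (h j hj).1
  have hγ1 : ∀ j < m, ∀ w, w ≠ z j → dslope v (z j) w = v w * (w - z j)⁻¹ := fun j hj w hw => by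
    rw [dslope_of_ne _ hw, slope_def_field, hv0 j hj, sub_zero, div_eq_mul_inv]
  have hv1 : ∀ w ∈ ball (0 : ℂ) 1, deriv v w = deriv H w - 1 := fun w hw =>
    ((hH.differentiableAt (isOpen_ball.mem_nhds hw)).hasDerivAt.fun_sub (hasDerivAt_id' w)).deriv
  have hγ2 : ∀ j < m, dslope v (z j) (z j) = ρ - 1 := fun j hj => by
    rw [dslope_same, hv1 _ (mem_of_mem_nhds (hn j hj)), (h j hj).2.1]
  have hγ3 : ∀ j < m, 2 * deriv (dslope v (z j)) (z j) = -(a j * ρ * (ρ - 1)) := fun j hj => by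
    have e1 : deriv v =ᶠ[𝓝 (z j)] fun w => deriv H w - 1 := by
      filter_upwards [hn j hj] with w hw using hv1 w hw
    have e2 := (h j hj).2.2
    rw [act, (h j hj).2.1] at e2
    rw [← ds2 isOpen_ball hvd (mem_of_mem_nhds (hn j hj)), e1.deriv_eq, deriv_sub_const]
    field_simp at e2
    linear_combination e2
  have hf : ∀ w, (∀ j < m, w ≠ z j) → ∑ j ∈ Finset.range m, (dslope v (z j) w ^ 2 +
      a j * (v w * dslope v (z j) w)) + v w ^ 2 * g w = v w ^ 2 * (pol m z a w + g w) := by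
    intro w hw
    rw [mul_add, pol, Finset.mul_sum]
    congr 1
    refine Finset.sum_congr rfl fun j hj => ?_
    rw [hγ1 j (Finset.mem_range.mp hj) w (hw j (Finset.mem_range.mp hj))]; ring
  have hγ4 : ∀ j < m, ∀ i < m, i ≠ j → dslope v (z i) (z j) = 0 := fun j hj i hi' hij => by
    rw [hγ1 i hi' _ fun e => hij (hi j hj i hi' e).symm, hv0 j hj, zero_mul]
  refine ⟨fun w => ∑ j ∈ Finset.range m, (dslope v (z j) w ^ 2 + a j * (v w * dslope v (z j) w)) +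
    v w ^ 2 * g w, ?_, ?_, fun j hj => ⟨?_, ?_⟩, hf⟩
  · refine (DifferentiableOn.fun_sum fun j hj => ?_).add ((hvd.pow 2).mul hg)
    have := hγ j (Finset.mem_range.mp hj)
    exact (this.pow 2).add ((hvd.mul this).const_mul _)
  · have : v 0 = 0 := by simp [hv, h0]
    beta_reduce
    rw [hf 0 fun j hj => (hz0 j hj).symm, this]; simp
  · beta_reduce
    rw [Finset.sum_eq_single_of_mem j (Finset.mem_range.mpr hj) fun i hi' hij => by
      rw [hγ4 j hj i (Finset.mem_range.mp hi') hij]; simp, hγ2 j hj, hv0 j hj]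
    ring
  · have d0 := (hvd.differentiableAt (hn j hj)).hasDerivAt
    have d1 := fun i (hi' : i ∈ Finset.range m) =>
      ((hγ i (Finset.mem_range.mp hi')).differentiableAt (hn j hj)).hasDerivAt
    have d2 := (HasDerivAt.fun_sum fun i hi' => ((d1 i hi').fun_pow 2).fun_add
      ((d0.fun_mul (d1 i hi')).const_mul (a i))).fun_add
      ((d0.fun_pow 2).fun_mul (hg.differentiableAt (hn j hj)).hasDerivAt)
    rw [d2.deriv, Finset.sum_eq_single_of_mem j (Finset.mem_range.mpr hj) fun i hi' hij => by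
      rw [hγ4 j hj i (Finset.mem_range.mp hi') hij, hv0 j hj]; simp, hγ2 j hj, hv0 j hj,
      hv1 _ (mem_of_mem_nhds (hn j hj)), (h j hj).2.1]
    have := hγ3 j hj
    simp only [Nat.cast_ofNat, Nat.add_one_sub_one, pow_one]
    linear_combination (ρ - 1) * this

theorem exE (hPB : St_PB) {m : ℕ} {z a : ℕ → ℂ} {g H : ℂ → ℂ} {ρ : ℂ} {U : Set ℂ} (hU : IsOpen U)
    (hU1 : U ⊆ ball 0 1) (hg : DifferentiableOn ℂ g (ball 0 1))
    (hH : DifferentiableOn ℂ H (ball 0 1)) (hm : MapsTo H U (ball 0 1)) (hi : InjOn H U)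
    (hz : ∀ j < m, z j ∈ U) (hρ : ρ ≠ 0)
    (h : ∀ j < m, H (z j) = z j ∧ deriv H (z j) = ρ ∧ act H (z j) (a j) = a j) :
    ∃ E : ℂ → ℂ, DifferentiableOn ℂ E U ∧ ∀ w ∈ U, (∀ j < m, w ≠ z j) →
      E w = deriv H w ^ 2 * (pol m z a (H w) + g (H w)) - (pol m z a w + g w) := by
  have h1 : ∀ j, ∃ R : ℂ → ℂ, j < m → DifferentiableOn ℂ R U ∧ ∀ w ∈ U, w ≠ z j →
      deriv H w ^ 2 * ((H w - z j)⁻¹ ^ 2 + a j * (H w - z j)⁻¹) =
        (w - z j)⁻¹ ^ 2 + a j * (w - z j)⁻¹ + R w := fun j => by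
    by_cases hj : j < m
    · obtain ⟨R, h2, h3⟩ := hPB U H (z j) (a j) hU (hH.mono hU1) (hz j hj)
        (by rw [(h j hj).2.1]; exact hρ) fun w hw e => hi hw (hz j hj) e
      rw [(h j hj).1, (h j hj).2.2] at h3
      exact ⟨R, fun _ => ⟨h2, h3⟩⟩
    · exact ⟨0, fun h => absurd h hj⟩
  choose R hR using h1
  refine ⟨fun w => ∑ j ∈ Finset.range m, R j w + deriv H w ^ 2 * g (H w) - g w, ?_,
    fun w hw hne => ?_⟩
  · exact ((DifferentiableOn.fun_sum fun j hj => (hR j (Finset.mem_range.mp hj)).1).add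
      ((((hH.mono hU1).deriv hU).pow 2).mul (hg.comp (hH.mono hU1) hm))).sub (hg.mono hU1)
  · have : deriv H w ^ 2 * pol m z a (H w) = pol m z a w + ∑ j ∈ Finset.range m, R j w := by
      rw [pol, pol, Finset.mul_sum, ← Finset.sum_add_distrib]
      exact Finset.sum_congr rfl fun j hj =>
        (hR j (Finset.mem_range.mp hj)).2 w hw (hne j (Finset.mem_range.mp hj))
    linear_combination -this

theorem geo {m : ℕ} {r y t : ℝ} (hm : 2 ≤ m) (hr : 0 < r) (ht : 8 * m * t = r) (hy : r ^ m = y)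
    (h4 : 4 * y ≤ 1) : r + 8 * t ≤ 1 ∧ ∀ x, r - 3 * t ≤ x → x ≤ r + 3 * t →
      y ≤ 2 * x ^ m ∧ x ^ m ≤ 2 * y := by
  have hM : (2 : ℝ) ≤ m := by exact_mod_cast hm
  have e : t = r / (8 * m) := by rw [← ht]; field_simp
  have hy0 : 0 < y := hy ▸ pow_pos hr m
  refine ⟨?_, fun x h1 h2 => ⟨?_, ?_⟩⟩
  · have e1 : r + 8 * t = r * (1 + 1 / m) := by rw [e]; field_simp
    rw [e1, ← pow_le_one_iff_of_nonneg (by positivity) (by omega : m ≠ 0), mul_pow, hy]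
    nlinarith [one_add_inv_pow_le m]
  · have e1 : r - 3 * t = r * (1 + -(3 / (8 * m))) := by rw [e]; field_simp; ring
    have h3 : 3 / (8 * (m : ℝ)) ≤ 1 := by rw [div_le_one (by positivity)]; linarith
    have h5 := one_add_mul_le_pow (a := -(3 / (8 * (m : ℝ)))) (by linarith) m
    have e2 : 1 + (m : ℝ) * -(3 / (8 * (m : ℝ))) = 5 / 8 := by field_simp; ring
    have h6 : (r - 3 * t) ^ m ≤ x ^ m := pow_le_pow_left₀ (by rw [e1]; nlinarith) h1 m
    rw [e1, mul_pow, hy] at h6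
    rw [e2] at h5
    nlinarith
  · have e1 : r + 3 * t = r * (1 + 3 / (8 * m)) := by rw [e]; field_simp
    have e2 : 2 * (m : ℝ) * (3 / (8 * (m : ℝ))) = 3 / 4 := by field_simp; ring
    have h5 := one_add_pow_le (m := m) (x := 3 / (8 * (m : ℝ))) (by positivity) (by linarith)
    have h0 : 0 ≤ x := by nlinarith
    have h6 : x ^ m ≤ (r + 3 * t) ^ m := pow_le_pow_left₀ h0 h2 m
    rw [e1, mul_pow, hy] at h6
    rw [e2] at h5
    nlinarith

theorem ratio {m : ℕ} {u w Bu Bw β : ℂ} {y : ℝ} (hβ : β ≠ 0) (hu : u ≠ 0)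
    (h1 : ‖u ^ (m + 2) * Bu / β - 1‖ ≤ 1 / 16) (h2 : ‖w ^ (m + 2) * Bw / β - 1‖ ≤ 1 / 16)
    (h3 : y ≤ 2 * ‖u‖ ^ m) (h4 : ‖w‖ ^ m ≤ 2 * y) (h5 : 2 * ‖w‖ ≤ 3 * ‖u‖) :
    ‖Bu‖ ≤ 13 * ‖Bw‖ := by
  have hb := norm_pos_iff.mpr hβ
  have hu0 := norm_pos_iff.mpr hu
  have a1 := norm_sub_norm_le (u ^ (m + 2) * Bu / β) 1
  have a2 := norm_sub_norm_le 1 (w ^ (m + 2) * Bw / β)
  rw [norm_sub_rev] at a2
  rw [norm_div, norm_mul, norm_pow, norm_one] at a1 a2
  have a3 : ‖u‖ ^ (m + 2) * ‖Bu‖ ≤ 17 / 16 * ‖β‖ := (div_le_iff₀ hb).mp (by linarith)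
  have a4 : 15 / 16 * ‖β‖ ≤ ‖w‖ ^ (m + 2) * ‖Bw‖ := (le_div_iff₀ hb).mp (by linarith)
  have a5 : ‖w‖ ^ (m + 2) ≤ 9 * ‖u‖ ^ (m + 2) := by
    have b1 : ‖w‖ ^ 2 ≤ 9 / 4 * ‖u‖ ^ 2 := by nlinarith [norm_nonneg w]
    calc ‖w‖ ^ (m + 2) = ‖w‖ ^ m * ‖w‖ ^ 2 := pow_add _ _ _
      _ ≤ (4 * ‖u‖ ^ m) * (9 / 4 * ‖u‖ ^ 2) := by gcongr; linarith
      _ = _ := by ring
  have a6 := mul_le_mul_of_nonneg_right a5 (norm_nonneg Bw)
  have a7 : 0 ≤ ‖u‖ ^ (m + 2) * ‖Bw‖ := by positivity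
  refine le_of_mul_le_mul_left ?_ (pow_pos hu0 (m + 2))
  nlinarith

theorem amgm {r x e b d q : ℝ} (hb : 0 < b) (h1 : r ^ 2 * e ^ 2 ≤ q * b)
    (h2 : r * d ≤ 2 * x * (r * e) + 1 / 4 * (x ^ 2 * b)) : r * d ≤ 3 / 4 * (x ^ 2 * b) + 2 * q := by
  have : 2 * x * (r * e) ≤ 1 / 2 * (x ^ 2 * b) + 2 * q := by
    refine le_of_mul_le_mul_right ?_ hb
    nlinarith [sq_nonneg (x * b - 2 * (r * e))]
  linarith

end T48

open T48

theorem st_GON (hPB : St_PB) (hAN : St_AN) (hLOC : St_LOC) (hMEAN : St_MEAN) (hG5 : St_G5) :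
    St_GON := by
  intro m ζ z a δ σ T L g H ρ hG hδ hσ hL hT hs hg hB hH hv hz hA
  obtain ⟨han, h4, hΩ⟩ := hAN m ζ z a δ σ T g hG hδ hσ hT hs hg hB
  have hg1 : DifferentiableOn ℂ g (ball 0 1) := hg.mono ball_subset_closedBall
  have hM : (2 : ℝ) ≤ m := by exact_mod_cast hG.two
  have hm0 : m ≠ 0 := by have := hG.two; omega
  have hs0 := norm_pos_iff.mpr hG.ne
  have hδ2 : 10 ^ 7 * (m ^ 2 * δ) ≤ 1 := by
    have b1 : 0 ≤ (m : ℝ) ^ 2 * δ := by positivity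
    have b2 : 0 ≤ (m : ℝ) ^ 2 * σ * T := by positivity
    nlinarith
  have hδ1 : 10 ^ 7 * (2 * (m * δ)) ≤ 1 := by
    have b1 : 0 ≤ (m : ℝ) * δ := by positivity
    nlinarith
  have hδ0 : 10 ^ 7 * (4 * δ) ≤ 1 := by nlinarith
  obtain ⟨y, hy⟩ : ∃ y, y = T * ‖z 0‖ ^ m := ⟨_, rfl⟩
  have hy0 : 0 < y := by rw [hy]; have : 0 < T := by linarith
                         positivity
  obtain ⟨r, hr, hrm⟩ : ∃ r : ℝ, 0 < r ∧ r ^ m = y :=
    ⟨y ^ (m⁻¹ : ℝ), Real.rpow_pos_of_pos hy0 _, Real.rpow_inv_natCast_pow hy0.le hm0⟩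
  obtain ⟨t, ht⟩ : ∃ t : ℝ, 8 * m * t = r := ⟨r / (8 * m), by field_simp⟩
  have ht0 : 0 < t := by nlinarith
  have ht1 : 16 * t ≤ r := by nlinarith
  obtain ⟨h8, hgeo⟩ := geo hG.two hr ht hrm (by rw [hy]; linarith)
  set B : ℂ → ℂ := fun w => pol m z a w + g w with hBd
  set β : ℂ := m ^ 2 * z 0 ^ m with hβd
  have hβ : β ≠ 0 := mul_ne_zero (pow_ne_zero _ (Nat.cast_ne_zero.mpr hm0)) (pow_ne_zero _ hG.ne)
  have hβn : T * ‖β‖ = m ^ 2 * y := by
    rw [hβd, hy, norm_mul, norm_pow, norm_pow, Complex.norm_natCast]; ring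
  have hΩ' : ∀ w : ℂ, r - 3 * t ≤ ‖w‖ → ‖w‖ ≤ r + 3 * t → ‖w ^ (m + 2) * B w / β - 1‖ ≤ 1 / 16 :=
    fun w h1 h2 => hΩ w (hy ▸ (hgeo _ h1 h2).1) (by rw [mul_assoc, ← hy]; exact (hgeo _ h1 h2).2)
  have hzs : ∀ j < m, ‖z j‖ < r - 3 * t := fun j hj => by
    by_contra hc
    have b1 := (hgeo _ le_rfl (by linarith)).1
    have b2 : (r - 3 * t) ^ m ≤ ((1 + δ) * ‖z 0‖) ^ m :=
      pow_le_pow_left₀ (by linarith) ((not_lt.mp hc).trans (zsize hG (by linarith) hj).2) m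
    have b3 := one_add_pow_le (m := m) hδ (by linarith)
    have b4 := pow_pos hs0 m
    rw [mul_pow] at b2
    nlinarith
  have hne : ∀ w : ℂ, r - 3 * t ≤ ‖w‖ → ∀ j < m, w ≠ z j := fun w h1 j hj e => by
    rw [e] at h1; linarith [hzs j hj]
  set v : ℂ → ℂ := fun w => H w - w with hvd
  have hvD : DifferentiableOn ℂ v (ball 0 1) := hH.sub differentiableOn_id
  obtain ⟨ε, hε⟩ : ∃ ε : ℝ, ε = 16 * (m * δ) := ⟨_, rfl⟩
  have hε0 : 0 ≤ ε := by rw [hε]; positivity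
  have hεt : ε * t = 2 * δ * r := by rw [hε, ← ht]; ring
  have hv0 : ∀ w : ℂ, ‖w‖ ≤ r + 7 * t → ‖v w‖ ≤ ε * t := fun w hw =>
    (hv w (mem_ball_zero_iff.mpr (by linarith))).trans (by rw [hεt]; nlinarith)
  have hv1 : ∀ w : ℂ, ‖w‖ < 1 → deriv v w = deriv H w - 1 := fun w hw =>
    ((hH.differentiableAt (isOpen_ball.mem_nhds (mem_ball_zero_iff.mpr hw))).hasDerivAt.fun_sub
      (hasDerivAt_id' w)).deriv
  have hv2 : ∀ w : ℂ, ‖w‖ ≤ r + 3 * t → ‖deriv v w‖ ≤ ε := fun w hw => by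
    have b1 : ∀ u ∈ closedBall w (2 * t), ‖u‖ ≤ r + 5 * t := fun u hu => by
      linarith [mem_closedBall_iff_norm.mp hu, norm_sub_norm_le u w]
    have b2 := Q.deriv_small ht0 (hvD.mono fun u hu => mem_ball_zero_iff.mpr (by linarith [b1 u hu]))
      (fun u hu => hv0 u (by linarith [b1 u hu])) (mem_ball_self ht0)
    rwa [mul_div_cancel_right₀ _ ht0.ne'] at b2
  have hU1 : ball (0 : ℂ) (r + 3 * t) ⊆ ball 0 1 := ball_subset_ball (by linarith)
  have hmap : MapsTo H (ball 0 (r + 3 * t)) (ball 0 1) := fun w hw => by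
    have b1 := mem_ball_zero_iff.mp hw
    have b2 := hv0 w (by linarith)
    have b3 := norm_sub_norm_le (H w) w
    exact mem_ball_zero_iff.mpr (by nlinarith)
  have hinj : InjOn H (ball 0 (r + 3 * t)) := fun p hp q hq e => by
    have b1 := (convex_ball (0 : ℂ) (r + 3 * t)).norm_image_sub_le_of_norm_deriv_le
      (fun x hx => hvD.differentiableAt (isOpen_ball.mem_nhds (hU1 hx)))
      (fun x hx => hv2 x (mem_ball_zero_iff.mp hx).le) hp hq
    have b2 : v q - v p = -(q - p) := by simp only [hvd, e]; ring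
    rw [b2, norm_neg] at b1
    have b3 : ‖q - p‖ ≤ 0 := by nlinarith [norm_nonneg (q - p)]
    exact (sub_eq_zero.mp (norm_le_zero_iff.mp b3)).symm
  have hzU : ∀ j < m, z j ∈ ball (0 : ℂ) (r + 3 * t) := fun j hj =>
    mem_ball_zero_iff.mpr (by linarith [hzs j hj])
  have hτ : ‖ρ - 1‖ ≤ 1 / 1280 := by
    have b0 : 0 < m := Nat.pos_of_ne_zero hm0
    have b1 := hv2 (z 0) (by linarith [hzs 0 b0])
    rw [hv1 _ (hG.lt 0 b0), (hz 0 b0).2.1] at b1
    linarith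
  have hρ : ρ ≠ 0 := fun e => by rw [e] at hτ; norm_num at hτ
  obtain ⟨E, hE, hE1⟩ := exE hPB isOpen_ball hU1 hg1 hH hmap hinj hzU hρ hz
  obtain ⟨f, hf, hf0, hf1, hf2⟩ := exF hg1 hH hG.lt (fun j hj => (zsize hG (by linarith) hj).1)
    (fun i hi j hj => zinj hG (by linarith) hi hj)
    (by simpa using hv 0 (mem_ball_self one_pos)) hρ hz
  have hBD : ∀ w : ℂ, r - 3 * t ≤ ‖w‖ → ‖w‖ < 1 → DifferentiableAt ℂ B w := fun w h1 h2 => by
    refine DifferentiableAt.add (DifferentiableAt.fun_sum fun j hj => ?_)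
      (hg1.differentiableAt (isOpen_ball.mem_nhds (mem_ball_zero_iff.mpr h2)))
    have b1 : DifferentiableAt ℂ (fun u : ℂ => (u - z j)⁻¹) w :=
      (differentiableAt_id.sub_const _).inv (sub_ne_zero.mpr (hne w h1 j (Finset.mem_range.mp hj)))
    exact (b1.pow 2).add (b1.const_mul _)
  have hball : ∀ w : ℂ, r - t ≤ ‖w‖ → ‖w‖ ≤ r + t → ∀ u ∈ ball w (2 * t),
      r - 3 * t ≤ ‖u‖ ∧ ‖u‖ ≤ r + 3 * t := fun w h1 h2 u hu => by
    have b1 := mem_ball_iff_norm.mp hu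
    have b2 := norm_sub_norm_le u w
    have b3 := norm_sub_norm_le w u
    rw [norm_sub_rev] at b3
    constructor <;> linarith
  have hloc : ∀ w : ℂ, r - t ≤ ‖w‖ → ‖w‖ ≤ r + t →
      E w = deriv H w ^ 2 * B (H w) - B w ∧ ‖E w‖ ≤ 11 * ε * ‖B w‖ ∧
      ‖2 * v w * deriv v w * B w + v w ^ 2 * deriv B w‖ ≤
        2 * ‖v w‖ * ‖E w‖ + 68 * ε * (‖v w‖ ^ 2 * ‖B w‖) / t := fun w h1 h2 => by
    have b0 := hE1 w (mem_ball_zero_iff.mpr (by linarith)) (hne w (by linarith))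
    have b1 := hLOC.1 B w (v w) (deriv v w) t ε ht0 hε0 (by linarith)
      (fun u hu => (hBD u (hball w h1 h2 u hu).1
        (by linarith [(hball w h1 h2 u hu).2])).differentiableWithinAt)
      (fun u hu => by
        obtain ⟨c1, c2⟩ := hball w h1 h2 u hu
        exact ratio hβ (norm_pos_iff.mp (by linarith)) (hΩ' u c1 c2)
          (hΩ' w (by linarith) (by linarith)) (hgeo _ c1 c2).1
          (hgeo _ (by linarith) (by linarith)).2 (by linarith))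
      (hv0 w (by linarith)) (hv2 w (by linarith))
    have b2 : (1 + deriv v w) ^ 2 * B (w + v w) - B w = E w := by
      rw [b0, hv1 w (by linarith)]
      simp only [hvd, hBd, add_sub_cancel]
    rw [b2] at b1
    exact ⟨b0, b1⟩
  have hK : 0 ≤ 4 * T * r ^ 2 / m ^ 2 := by have : 0 < T := by linarith
                                            positivity
  have hb0 := norm_pos_iff.mpr hβ
  have hmean := hMEAN (fun w => w ^ (m + 2) / β * E w)
    (fun w => dfc (B w) (deriv H w ^ 2 * B (H w))) r t (4 * T * r ^ 2 / m ^ 2) L ht0 (by linarith) hK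
    hL (DifferentiableOn.mul (by fun_prop) (hE.mono (ball_subset_ball (by linarith)))) (by simp)
    (fun w hw => by
      have h2 := (mem_ball_zero_iff.mp hw.1).le
      have h1 : r - t ≤ ‖w‖ := not_lt.mp fun h => hw.2 (mem_ball_zero_iff.mpr h)
      obtain ⟨b0, b1, -⟩ := hloc w h1 h2
      have b2 := hΩ' w (by linarith) (by linarith)
      rw [mul_div_right_comm] at b2
      have b3 := norm_sub_norm_le (w ^ (m + 2) / β * B w) 1
      rw [norm_one] at b3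
      have b4 : ‖w ^ (m + 2) / β * E w‖ ≤ 11 * ε * ‖w ^ (m + 2) / β * B w‖ := by
        rw [norm_mul, norm_mul]
        nlinarith [mul_le_mul_of_nonneg_left b1 (norm_nonneg (w ^ (m + 2) / β))]
      have b5 := hLOC.2 _ (w ^ (m + 2) / β * E w) b2
        (by nlinarith [norm_nonneg (w ^ (m + 2) / β * B w)])
      rw [← mul_add, dfc_mul, b0, add_sub_cancel, ← b0] at b5
      have b6 : ‖w ^ (m + 2) / β‖ ≤ 4 * T * r ^ 2 / m ^ 2 := by
        rw [norm_div, norm_pow, div_le_div_iff₀ hb0 (by positivity), pow_add]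
        have c1 := (hgeo _ (by linarith : r - 3 * t ≤ ‖w‖) (by linarith)).2
        have c2 : ‖w‖ ^ 2 ≤ 2 * r ^ 2 := by nlinarith [norm_nonneg w]
        calc _ ≤ 2 * y * (2 * r ^ 2) * m ^ 2 := by gcongr
          _ = 4 * r ^ 2 * (T * ‖β‖) := by rw [hβn]; ring
          _ = _ := by ring
      linarith [mul_le_mul_of_nonneg_right b6 (dfc_nonneg (B w) (deriv H w ^ 2 * B (H w)))])
    (by
      have b1 : ball (0 : ℂ) (r + t) \ ball 0 (r - t) ⊆ ball 0 (r + 3 * t) :=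
        fun w hw => ball_subset_ball (by linarith) hw.1
      refine hA _ (measurableSet_ball.diff measurableSet_ball) (b1.trans hU1) (hmap.mono_left b1)
        (hinj.mono b1) fun w hw j hj => ?_
      have h1 : r - t ≤ ‖w‖ := not_lt.mp fun h => hw.2 (mem_ball_zero_iff.mpr h)
      have h2 := hne w (by linarith) j hj
      exact ⟨h2, fun e => h2 (hinj (b1 hw) (hzU j hj) (e.trans (hz j hj).1.symm))⟩)
  have hT0 : 0 < T := by linarith
  have hfin := mvt (Q := 2 * (2 ^ 19 * T * L ^ 2 * m ^ 2)) hr (by linarith) hf hf0 fun w hw => by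
    obtain ⟨-, -, b1⟩ := hloc w (by linarith) (by linarith)
    have b2 : f =ᶠ[𝓝 w] fun u => v u ^ 2 * B u := by
      filter_upwards [ball_mem_nhds w (by linarith : 0 < 2 * t)] with u hu
      exact hf2 u (hne u (hball w (by linarith) (by linarith) u hu).1)
    have b3 := (((hvD.differentiableAt (isOpen_ball.mem_nhds (mem_ball_zero_iff.mpr
      (by linarith : ‖w‖ < 1)))).hasDerivAt.fun_pow 2).fun_mul
      (hBD w (by linarith) (by linarith)).hasDerivAt).deriv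
    have b4 : deriv f w = 2 * v w * deriv v w * B w + v w ^ 2 * deriv B w := by
      rw [b2.deriv_eq, b3]; simp
    have b5 := hΩ' w (by linarith) (by linarith)
    have b6 := norm_sub_norm_le 1 (w ^ (m + 2) * B w / β)
    have c0 : ‖w ^ (m + 2) / β‖ = T * r ^ 2 / m ^ 2 := by
      rw [norm_div, norm_pow, hw, div_eq_div_iff hb0.ne' (by positivity), pow_add, hrm]
      linear_combination -r ^ 2 * hβn
    have c1 := hmean w hw
    rw [norm_sub_rev, mul_div_right_comm, norm_mul, c0, norm_one] at b6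
    rw [mul_div_right_comm] at b5
    simp only [norm_mul, c0] at c1
    have c2 : 15 / 16 * m ^ 2 ≤ T * r ^ 2 * ‖B w‖ := by
      have : 15 / 16 ≤ T * r ^ 2 * ‖B w‖ / m ^ 2 := by rw [mul_div_right_comm]; linarith
      exact (le_div_iff₀ (by positivity)).mp this
    have c3 : ‖E w‖ * r ^ 2 ≤ 512 * m ^ 2 * L := by
      have d1 : T * r ^ 2 / m ^ 2 * (‖E w‖ * t ^ 2) ≤ T * r ^ 2 / m ^ 2 * (8 * L) := by
        calc _ = T * r ^ 2 / m ^ 2 * ‖E w‖ * t ^ 2 := by ring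
          _ ≤ _ := c1
          _ = _ := by ring
      have d2 := le_of_mul_le_mul_left d1 (by positivity)
      calc ‖E w‖ * r ^ 2 = 64 * m ^ 2 * (‖E w‖ * t ^ 2) := by rw [← ht]; ring
        _ ≤ 64 * m ^ 2 * (8 * L) := by gcongr
        _ = _ := by ring
    have c4 : 0 < ‖B w‖ := by
      by_contra hc
      rw [le_antisymm (not_lt.mp hc) (norm_nonneg _)] at c2
      nlinarith
    rw [b2.eq_of_nhds, norm_mul, norm_pow, b4]
    refine amgm (e := ‖E w‖) c4 ?_ ?_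
    · refine le_of_mul_le_mul_right ?_ (pow_pos hr 2)
      have d1 : (‖E w‖ * r ^ 2) ^ 2 ≤ (512 * m ^ 2 * L) ^ 2 := by gcongr
      have d2 : 0 ≤ L ^ 2 * m ^ 2 := by positivity
      have d3 := mul_le_mul_of_nonneg_left c2 d2
      nlinarith
    · have d1 : r * (68 * ε * (‖v w‖ ^ 2 * ‖B w‖) / t) =
          8704 * (m ^ 2 * δ) * (‖v w‖ ^ 2 * ‖B w‖) := by
        rw [hε, ← ht]; field_simp; ring
      have d2 : 0 ≤ ‖v w‖ ^ 2 * ‖B w‖ := by positivity
      have d3 := mul_le_mul_of_nonneg_left b1 hr.le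
      have d4 : 8704 * (m ^ 2 * δ) * (‖v w‖ ^ 2 * ‖B w‖) ≤ 1 / 4 * (‖v w‖ ^ 2 * ‖B w‖) := by
        gcongr; linarith
      rw [mul_add r, d1] at d3
      linarith
  have h5 := hG5 m ζ z a δ T r 1 _ f (ρ - 1) hG hδ (by linarith) han hT hr (by linarith)
    (hrm.trans hy) hf hf0 hf1 hτ hfin
  refine le_of_mul_le_mul_right ?_ hT0
  have d2 : 0 ≤ T * L ^ 2 * m ^ 2 := by positivity
  nlinarith

end Pool.Agent.Lib.MP_c35c17_an.R
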