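import Pool.Agent.Lib.MP_c35c17_an.RBase

/-! The loss of one step. -/

set_option autoImplicit false

open Filter Topology Set Metric Complex Polynomial MeasureTheory
open scoped ENNReal Real

namespace Pool.Agent.Lib.MP_c35c17_an.R

open Q

namespace T39

variable {n : ℕ} {c : ℂ} {k : ℕ} {O : Finset ℂ} {ρ : ℂ}

theorem loss_aux (h : Cyc n c k O ρ) {ω : ℂ} (hω : IsPrimitiveRoot ω n) :
    ∀ᶠ η in 𝓝[>] (0 : ℝ),
      (∫⁻ w in F n c ⁻¹' (ball 0 6 \ ⋃ x ∈ O, ball x (η / wt n c k 1 x)), ENNReal.ofReal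
        (dfc (qd O (coef n c k ρ) w) (((n : ℂ) * w ^ (n - 1)) ^ 2 * qd O (coef n c k ρ) (F n c w)))) +
        n * ∫⁻ w in ball 0 6 \ F n c ⁻¹' ball 0 6, ‖qd O (coef n c k ρ) w‖ₑ ≤
      ENNReal.ofReal (120 * Lam n * (k * (‖ρ‖ - 1) + ‖∑ x ∈ O, coef n c k ρ x‖)) := by
  filter_upwards [(O.eventually_all).mpr fun x hx => h.annulus (coef n c k ρ) hx,
    Ioo_mem_nhdsGT one_pos] with η hann ⟨hη, hη1⟩
  set B := qd O (coef n c k ρ) with hB
  set a := ∑ x ∈ O, coef n c k ρ x with ha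
  set K := ⋃ x ∈ O, ball x (η / wt n c k 1 x) with hK
  have hBm : Measurable B := qd_meas _ _
  have hKo : IsOpen K := isOpen_biUnion fun _ _ => isOpen_ball
  have hOK : ∀ x ∈ O, x ∈ K := fun x hx => mem_biUnion hx (mem_ball_self
    (div_pos hη (one_pos.trans_le (h.wt_bounds zero_le_one le_rfl hx).1)))
  have hFm : Measurable (F n c) := by fun_prop
  have hV' : MeasurableSet (ball (0 : ℂ) 6 \ K) := measurableSet_ball.diff hKo.measurableSet
  have hU' := hFm hV'
  have hn0 : n ≠ 0 := by have := h.hn; omega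
  have hn1 : ∀ t, ‖ω ^ t‖ = 1 := fun t => by rw [norm_pow, hω.norm'_eq_one hn0, one_pow]
  have hrot : ∀ t w, F n c (ω ^ t * w) = F n c w := fun t w => by
    simp only [F]
    rw [mul_pow, ← pow_mul, mul_comm t n, pow_mul, hω.pow_eq_one, one_pow, one_mul]
  have hfin : ∫⁻ w in ball 0 6 \ K, ‖B w‖ₑ ≠ ⊤ := by
    have h1 : ContinuousOn B (closedBall 0 6 \ K) := fun w hw =>
      (qd_diff _ fun h' => hw.2 (hOK w h')).continuousAt.continuousWithinAt
    exact ((lintegral_mono_set (diff_subset_diff_left ball_subset_closedBall)).trans_lt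
      (h1.integrableOn_compact ((isCompact_closedBall 0 6).diff hKo)).2).ne
  have hA : n * ∫⁻ w in ball 0 6 \ K, ‖B w‖ₑ ≤ ∫⁻ w in F n c ⁻¹' (ball 0 6 \ K),
      ‖((n : ℂ) * w ^ (n - 1)) ^ 2 * B (F n c w)‖ₑ := by
    have hm : Measurable fun w => (n : ℂ)⁻¹ * (((n : ℂ) * w ^ (n - 1)) ^ 2 * B (F n c w)) := by
      fun_prop
    have hnc : (n : ℂ) ≠ 0 := Nat.cast_ne_zero.mpr hn0
    refine (mul_le_mul_right (transfer h.hn c hω hm (Eventually.of_forall fun w => ?_) hV') _).trans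
      (le_of_eq ?_)
    · rw [Finset.sum_congr rfl (g := fun _ => (n : ℂ)⁻¹ * (((n : ℂ) * w ^ (n - 1)) ^ 2 *
        B (F n c w))) fun t _ => ?_, Finset.sum_const, Finset.card_range, nsmul_eq_mul,
        mul_inv_cancel_left₀ hnc]
      have h1 : ω ^ t * (ω ^ t) ^ (n - 1) = 1 := by
        rw [← pow_succ', Nat.sub_add_cancel (by omega), ← pow_mul, mul_comm, pow_mul, hω.pow_eq_one,
          one_pow]
      rw [hrot, mul_pow (ω ^ t)]
      linear_combination (n : ℂ)⁻¹ * ((n : ℂ) * w ^ (n - 1)) ^ 2 * B (F n c w) *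
        (ω ^ t * (ω ^ t) ^ (n - 1) + 1) * h1
    · rw [← lintegral_const_mul _ hm.enorm]
      refine lintegral_congr fun w => ?_
      rw [← ofReal_norm, ← ofReal_norm, ← ENNReal.ofReal_natCast, ← ENNReal.ofReal_mul (by positivity),
        norm_mul _ (_ * _), norm_inv, Complex.norm_natCast, mul_inv_cancel_left₀ (by positivity)]
  have hD : (∫⁻ w in F n c ⁻¹' (ball 0 6 \ K), ‖B w‖ₑ) + ∫⁻ w in ball 0 6 \ F n c ⁻¹' ball 0 6,
      ‖B w‖ₑ ≤ (∫⁻ w in ball 0 6 \ K, ‖B w‖ₑ) + ENNReal.ofReal (k * (120 * (‖ρ‖ - 1))) := by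
    rw [← lintegral_union (measurableSet_ball.diff (hFm measurableSet_ball))
      (disjoint_left.mpr fun w h1 h2 => h2.2 h1.1)]
    refine (lintegral_mono_set (t := (ball 0 6 \ K) ∪ ⋃ x ∈ O, (ball x (η / wt n c k 1 x) \
      F n c ⁻¹' ball (F n c x) (η / wt n c k 1 (F n c x)))) fun w hw => ?_).trans
      ((lintegral_union_le _ _ _).trans (add_le_add le_rfl ((lint_biUnion_le _ _ _).trans ?_)))
    · have h1 : w ∈ ball (0 : ℂ) 6 := hw.elim
        (fun h' => mem_ball_zero_iff.mpr (by linarith [h.norm_lt_of_F h'.1])) fun h' => h'.1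
      by_cases h2 : w ∈ K
      · obtain ⟨x, hx, h3⟩ := mem_iUnion₂.mp h2
        refine Or.inr (mem_biUnion hx ⟨h3, fun h4 => hw.elim
          (fun h' => h'.2 (mem_biUnion (h.maps x hx) h4)) fun h' => h'.2 ?_⟩)
        have h5 := div_le_self hη.le (h.wt_bounds zero_le_one le_rfl (h.maps x hx)).1
        exact ball_subset_ball' (by rw [dist_zero_right]; linarith [h.norm_le (h.maps x hx)]) h4
      · exact Or.inl ⟨h1, h2⟩
    · refine (Finset.sum_le_card_nsmul _ _ _ hann).trans (le_of_eq ?_)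
      rw [h.card, nsmul_eq_mul, ← ENNReal.ofReal_natCast, ← ENNReal.ofReal_mul (by positivity)]
  have hL := h.one_le_Lam
  have hμ := sub_pos.mpr h.big
  refine (ENNReal.add_le_add_iff_left (ENNReal.mul_ne_top (ENNReal.natCast_ne_top n) hfin)).mp ?_
  calc _ ≤ ((∫⁻ w in F n c ⁻¹' (ball 0 6 \ K), ‖((n : ℂ) * w ^ (n - 1)) ^ 2 * B (F n c w)‖ₑ) +
        ∫⁻ w in F n c ⁻¹' (ball 0 6 \ K), ENNReal.ofReal
          (dfc (B w) (((n : ℂ) * w ^ (n - 1)) ^ 2 * B (F n c w)))) +
        n * ∫⁻ w in ball 0 6 \ F n c ⁻¹' ball 0 6, ‖B w‖ₑ := by rw [← add_assoc]; gcongr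
    _ ≤ (∫⁻ w in F n c ⁻¹' (ball 0 6 \ K), (∑ t ∈ Finset.range n, ‖B (ω ^ t * w)‖ₑ) +
          ENNReal.ofReal (‖a‖ * Lam n)) + n * ∫⁻ w in ball 0 6 \ F n c ⁻¹' ball 0 6, ‖B w‖ₑ := by
        gcongr
        rw [← lintegral_add_left (by fun_prop)]
        refine setLIntegral_mono' hU' fun w hw => ?_
        simp only [← ofReal_norm]
        rw [← ENNReal.ofReal_sum_of_nonneg fun _ _ => norm_nonneg _,
          ← ENNReal.ofReal_add (norm_nonneg _) (dfc_nonneg _ _),
          ← ENNReal.ofReal_add (by positivity) (by positivity)]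
        refine ENNReal.ofReal_le_ofReal ?_
        have h0 : 0 ∈ Finset.range n := Finset.mem_range.mpr (by omega)
        have h1 : ((n : ℂ) * w ^ (n - 1)) ^ 2 * B (F n c w) - B w =
            ∑ t ∈ (Finset.range n).erase 0, (ω ^ t) ^ 2 * B (ω ^ t * w) +
              a * (n ^ 2 * w ^ (n - 2)) := by
          rw [h.ident hω fun h' => hw.2 (hOK _ h'), ← Finset.add_sum_erase _ _ h0, pow_zero,
            one_pow, one_mul, one_mul]
          ring
        rw [dfc, h1, ← Finset.add_sum_erase _ _ h0, pow_zero, one_mul]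
        have h2 : ‖∑ t ∈ (Finset.range n).erase 0, (ω ^ t) ^ 2 * B (ω ^ t * w)‖ ≤
            ∑ t ∈ (Finset.range n).erase 0, ‖B (ω ^ t * w)‖ :=
          norm_sum_le_of_le _ fun t _ => by simp [hn1]
        have h3 : ‖a * (n ^ 2 * w ^ (n - 2))‖ ≤ ‖a‖ * Lam n := by
          rw [norm_mul, norm_mul, norm_pow, norm_pow, Complex.norm_natCast, Lam]
          gcongr
          exact (pow_le_pow_left₀ (norm_nonneg _) (h.norm_lt_of_F hw.1).le _).trans
            (pow_le_pow_right₀ (by norm_num) (Nat.sub_le _ _))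
        linarith [norm_add_le (∑ t ∈ (Finset.range n).erase 0, (ω ^ t) ^ 2 * B (ω ^ t * w))
          (a * (n ^ 2 * w ^ (n - 2)))]
    _ ≤ n * ((∫⁻ w in F n c ⁻¹' (ball 0 6 \ K), ‖B w‖ₑ) +
          ∫⁻ w in ball 0 6 \ F n c ⁻¹' ball 0 6, ‖B w‖ₑ) + ENNReal.ofReal (‖a‖ * Lam n * 36) := by
        rw [lintegral_add_right _ measurable_const, lintegral_finsetSum _ fun t _ => by fun_prop,
          Finset.sum_congr rfl fun t _ => lint_rot (hn1 t) hU'
            (fun w => by simp only [mem_preimage, hrot]) fun w => ‖B w‖ₑ,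
          Finset.sum_const, Finset.card_range, nsmul_eq_mul, mul_add, add_right_comm,
          setLIntegral_const, ENNReal.ofReal_mul (by positivity : 0 ≤ ‖a‖ * Lam n)]
        gcongr
        refine (measure_mono fun w hw => mem_ball_zero_iff.mpr (h.norm_lt_of_F hw.1)).trans
          ((vol_ball_le 0 (by norm_num)).trans (le_of_eq (by norm_num)))
    _ ≤ _ := by
        refine (add_le_add (mul_le_mul_right hD _) le_rfl).trans ?_
        rw [mul_add, add_assoc]
        gcongr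
        rw [← ENNReal.ofReal_natCast, ← ENNReal.ofReal_mul (by positivity),
          ← ENNReal.ofReal_add (by positivity) (by positivity)]
        refine ENNReal.ofReal_le_ofReal ?_
        have h1 : (n : ℝ) * (k * (120 * (‖ρ‖ - 1))) ≤ Lam n * (k * (120 * (‖ρ‖ - 1))) := by
          gcongr; exact (le_Lam h.hn).1
        have h2 : 0 ≤ ‖a‖ * Lam n := by positivity
        nlinarith

theorem loss (h : Cyc n c k O ρ) :
    ∫⁻ w in ball 0 4, ENNReal.ofReal
        (dfc (qd O (coef n c k ρ) w) (((n : ℂ) * w ^ (n - 1)) ^ 2 * qd O (coef n c k ρ) (F n c w))) ≤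
      ENNReal.ofReal (120 * Lam n * (k * (‖ρ‖ - 1) + ‖∑ x ∈ O, coef n c k ρ x‖)) := by
  have hn0 : n ≠ 0 := by have := h.hn; omega
  have hev := loss_aux h (Complex.isPrimitiveRoot_exp n hn0)
  set B := qd O (coef n c k ρ) with hB
  have hBm : Measurable B := qd_meas _ _
  set ℒ : ℂ → ℝ≥0∞ := fun w => ENNReal.ofReal
    (dfc (B w) (((n : ℂ) * w ^ (n - 1)) ^ 2 * B (F n c w))) with hℒ
  have h1 : ∫⁻ w in ball 0 6 \ F n c ⁻¹' ball 0 6, ℒ w ≤
      n * ∫⁻ w in ball 0 6 \ F n c ⁻¹' ball 0 6, ‖B w‖ₑ := by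
    rw [← lintegral_const_mul _ hBm.enorm]
    refine lintegral_mono fun w => ?_
    rw [← ofReal_norm, ← ENNReal.ofReal_natCast, ← ENNReal.ofReal_mul (by positivity)]
    refine ENNReal.ofReal_le_ofReal ((dfc_le _ _).trans ?_)
    gcongr
    exact_mod_cast h.hn
  set S : ℕ → Set ℂ := fun m => F n c ⁻¹' (ball 0 6 \ ⋃ x ∈ O,
    ball x (1 / ((m : ℝ) + 1) / wt n c k 1 x)) ∪ (ball 0 6 \ F n c ⁻¹' ball 0 6) with hS
  have hw := fun x hx => (h.wt_bounds zero_le_one le_rfl (x := x) hx).1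
  have hmono : Monotone S := fun m m' hm => union_subset_union_left _ (preimage_mono
    (diff_subset_diff_right (iUnion₂_mono fun x hx => ball_subset_ball (by
      have := hw x hx; gcongr))))
  have hnull : volume (F n c ⁻¹' (O : Set ℂ)) = 0 := by
    refine Set.Finite.measure_zero (O.finite_toSet.preimage' fun x _ => ?_) _
    refine ((X ^ n - C (x - c)).roots.toFinset.finite_toSet).subset fun w hw => ?_
    rw [Finset.mem_coe, Multiset.mem_toFinset, mem_roots (X_pow_sub_C_ne_zero (by omega) _)]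
    simp [← (show w ^ n + c = x from hw)]
  calc _ ≤ ∫⁻ w in (⋃ m, S m) ∪ F n c ⁻¹' (O : Set ℂ), ℒ w := by
        refine lintegral_mono_set fun w hw4 => ?_
        by_cases h2 : F n c w ∈ O
        · exact Or.inr h2
        by_cases h3 : F n c w ∈ ball (0 : ℂ) 6
        swap
        · exact Or.inl (mem_iUnion.mpr ⟨0, Or.inr ⟨ball_subset_ball (by norm_num) hw4, h3⟩⟩)
        obtain ⟨m, hm⟩ := ((O.eventually_all).mpr fun x hx =>
          tendsto_one_div_add_atTop_nhds_zero_nat.eventually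
            (gt_mem_nhds (dist_pos.mpr fun e : F n c w = x => h2 (e ▸ hx)))).exists
        refine Or.inl (mem_iUnion.mpr ⟨m, Or.inl ⟨h3, fun h4 => ?_⟩⟩)
        obtain ⟨x, hx, h5⟩ := mem_iUnion₂.mp h4
        exact absurd ((mem_ball.mp h5).trans_le (div_le_self (by positivity) (hw x hx)))
          (not_lt.mpr (hm x hx).le)
    _ ≤ _ := by
        refine (lintegral_union_le _ _ _).trans ?_
        rw [setLIntegral_measure_zero _ _ hnull, add_zero,
          setLIntegral_iUnion_of_directed _ hmono.directed_le]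
        refine iSup_le fun m => ?_
        have h2 : Tendsto (fun m : ℕ => 1 / ((m : ℝ) + 1)) atTop (𝓝[>] 0) :=
          tendsto_nhdsWithin_iff.mpr ⟨tendsto_one_div_add_atTop_nhds_zero_nat,
            Eventually.of_forall fun m => mem_Ioi.mpr (by positivity)⟩
        obtain ⟨m', h3, h4⟩ := ((h2.eventually hev).and (eventually_ge_atTop m)).exists
        exact (lintegral_mono_set (hmono h4)).trans ((lintegral_union_le _ _ _).trans
          ((add_le_add le_rfl h1).trans h3))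

end T39

theorem st_L1 {n : ℕ} (hn : 2 ≤ n) : St_L1 n := by
  have hL : 0 < Lam n := lt_of_lt_of_le (by exact_mod_cast (by omega : 0 < n)) (le_Lam hn).1
  refine ⟨120 * Lam n + 240 * Lam n * (4 * (4 ^ n + 3) ^ 2), by positivity, fun c k O ρ h => ?_⟩
  have he := eps_pos h
  have h1 : _ ≤ ENNReal.ofReal (120 * Lam n * eps n c k O ρ) := T39.loss h
  have h2 : ∫⁻ w in ball (0 : ℂ) (4 ^ n + 3) \ ball 0 4, ENNReal.ofReal
      (dfc (qd O (coef n c k ρ) w)
        (((n : ℂ) * w ^ (n - 1)) ^ 2 * qd O (coef n c k ρ) (F n c w))) ≤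
      ENNReal.ofReal (240 * Lam n * eps n c k O ρ * (4 * (4 ^ n + 3) ^ 2)) := by
    refine (setLIntegral_mono' (g := fun _ => ENNReal.ofReal (240 * Lam n * eps n c k O ρ))
      (measurableSet_ball.diff measurableSet_ball) fun w hw => ?_).trans ?_
    · refine ENNReal.ofReal_le_ofReal ((dfc_le _ _).trans ?_)
      have h3 := h.far (w := w) (not_lt.mp fun h' => hw.2 (mem_ball_zero_iff.mpr h'))
      unfold eps
      linarith
    · rw [setLIntegral_const, ENNReal.ofReal_mul (by positivity : 0 ≤ 240 * Lam n * eps n c k O ρ)]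
      gcongr
      exact (measure_mono diff_subset).trans (vol_ball_le 0 (by positivity))
  refine (lintegral_mono_set (t := ball 0 4 ∪ (ball (0 : ℂ) (4 ^ n + 3) \ ball 0 4))
    fun w hw => ?_).trans ((lintegral_union_le _ _ _).trans ((add_le_add h1 h2).trans ?_))
  · by_cases h3 : w ∈ ball (0 : ℂ) 4
    · exact Or.inl h3
    · exact Or.inr ⟨hw, h3⟩
  · have h4 : 0 ≤ 120 * Lam n * eps n c k O ρ := by positivity
    rw [← ENNReal.ofReal_add h4 (by positivity)]
    refine ENNReal.ofReal_le_ofReal (le_of_eq ?_)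
    ring

end Pool.Agent.Lib.MP_c35c17_an.R
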