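import Pool.Agent.Lib.MP_c35c17_an.RBase

/-! The loss of many steps in a chart. -/

set_option autoImplicit false

open Filter Topology Set Metric Complex Bornology MeasureTheory
open scoped Real ENNReal ComplexConjugate

namespace Pool.Agent.Lib.MP_c35c17_an.R

open Q

namespace T55

theorem image_holo {s : Set ℂ} (hs : MeasurableSet s) {f f' : ℂ → ℂ}
    (hf : ∀ z ∈ s, HasDerivAt f (f' z) z) (hi : InjOn f s) (g : ℂ → ℝ≥0∞) :
    ∫⁻ x in f '' s, g x = ∫⁻ x in s, ‖f' x ^ 2‖ₑ * g (f x) := by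
  rw [lintegral_image_eq_lintegral_abs_det_fderiv_mul volume hs
    (fun x hx => ((hf x hx).hasFDerivAt.restrictScalars ℝ).hasFDerivWithinAt) hi]
  refine lintegral_congr fun x => ?_
  congr 1
  rw [← ofReal_norm]
  congr 1
  simp [ContinuousLinearMap.det, LinearMap.det_restrictScalars, Algebra.norm_complex_eq,
    Complex.normSq_eq_norm_sq]

theorem escape {n : ℕ} (hn : 2 ≤ n) {c : ℂ} (hc : ‖c‖ ≤ 2) {R : ℝ} (hR : 3 ≤ R) (j : ℕ) {u : ℂ}
    (hu : R ≤ ‖u‖) : R ≤ ‖(F n c)^[j] u‖ := by
  induction j with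
  | zero => exact hu
  | succ j ih =>
    rw [iter_succ]
    have h3 : ‖(F n c)^[j] u‖ ^ 2 ≤ ‖(F n c)^[j] u‖ ^ n := pow_le_pow_right₀ (by linarith) hn
    have h4 := norm_sub_norm_le ((F n c)^[j] u ^ n) (-c)
    rw [sub_neg_eq_add, norm_neg, norm_pow] at h4
    nlinarith

theorem dfc_sum (b : ℕ → ℂ) (k : ℕ) :
    dfc (b 0) (b k) ≤ ∑ i ∈ Finset.range k, dfc (b i) (b (i + 1)) := by
  induction k with
  | zero => simp [dfc]
  | succ k ih => rw [Finset.sum_range_succ]; linarith [dfc_trans (b 0) (b k) (b (k + 1))]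

end T55

theorem st_LK : St_LK := by
  intro n c k B Ψ U A R L hn hc hR hL hB hU hΨ hA hAU hinj hmaps h
  set D : ℂ → ℝ≥0∞ := fun w =>
    ENNReal.ofReal (dfc (B w) (((n : ℂ) * w ^ (n - 1)) ^ 2 * B (F n c w))) with hD
  have hDm : Measurable D := by
    simp only [hD, dfc]
    fun_prop
  have hΨm : AEMeasurable Ψ (volume.restrict A) := (hΨ.continuousOn.mono hAU).aemeasurable hA
  have hd : ∀ i, ∀ w ∈ A, HasDerivAt ((F n c)^[i] ∘ Ψ) (dF n c i (Ψ w) * deriv Ψ w) w :=
    fun i w hw => (hasDerivAt_iter n c i (Ψ w)).comp w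
      (hΨ.differentiableAt (hU.mem_nhds (hAU hw))).hasDerivAt
  have hk : ∀ i ≤ k, ∀ u, (F n c)^[k] u = (F n c)^[k - i] ((F n c)^[i] u) := fun i hi u => by
    rw [← Function.iterate_add_apply, Nat.sub_add_cancel hi]
  calc _ ≤ ∫⁻ w in A, ∑ i ∈ Finset.range k,
        ‖(dF n c i (Ψ w) * deriv Ψ w) ^ 2‖ₑ * D (((F n c)^[i] ∘ Ψ) w) := by
        refine lintegral_mono fun w => ?_
        have h1 := T55.dfc_sum (fun i => (dF n c i (Ψ w) * deriv Ψ w) ^ 2 * B ((F n c)^[i] (Ψ w))) k
        simp only [show dF n c 0 (Ψ w) = 1 by simp [dF], one_mul, Function.iterate_zero, id] at h1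
        refine (ENNReal.ofReal_le_ofReal h1).trans (le_of_eq ?_)
        rw [ENNReal.ofReal_sum_of_nonneg fun _ _ => dfc_nonneg _ _]
        refine Finset.sum_congr rfl fun i _ => ?_
        rw [← ofReal_norm, hD, ← ENNReal.ofReal_mul (norm_nonneg _), ← dfc_mul, dF_succ,
          Function.iterate_succ_apply']
        congr 2
        simp only [Function.comp_apply]
        ring
    _ = ∑ i ∈ Finset.range k, ∫⁻ w in A,
        ‖(dF n c i (Ψ w) * deriv Ψ w) ^ 2‖ₑ * D (((F n c)^[i] ∘ Ψ) w) := by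
        refine lintegral_finsetSum' _ fun i _ => ?_
        have h1 : Measurable (dF n c i) := by
          rw [show dF n c i = deriv (F n c)^[i] from funext fun z => (hasDerivAt_iter n c i z).deriv.symm]
          exact measurable_deriv _
        have h2 : Measurable (F n c)^[i] := (differentiable_iter n c i).continuous.measurable
        exact (((h1.comp_aemeasurable hΨm).mul (measurable_deriv Ψ).aemeasurable).pow_const 2).enorm.mul
          (hDm.comp_aemeasurable (h2.comp_aemeasurable hΨm))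
    _ ≤ ∑ _i ∈ Finset.range k, ENNReal.ofReal L := by
        refine Finset.sum_le_sum fun i hi => ?_
        have hi' := (Finset.mem_range.mp hi).le
        rw [← T55.image_holo hA (hd i) (fun u hu v hv e => hinj hu hv (by
          simp only [Function.comp_apply] at e ⊢
          rw [hk i hi', e, ← hk i hi']))]
        refine (lintegral_mono_set ?_).trans h
        rintro _ ⟨w, hw, rfl⟩
        refine mem_ball_zero_iff.mpr (not_le.mp fun h1 => ?_)
        have h2 := T55.escape hn hc hR (k - i) h1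
        rw [Function.comp_apply, ← hk i hi'] at h2
        exact absurd (mem_ball_zero_iff.mp (hmaps hw)) (not_lt.mpr h2)
    _ = _ := by
        rw [Finset.sum_const, Finset.card_range, nsmul_eq_mul, ← ENNReal.ofReal_natCast,
          ← ENNReal.ofReal_mul (by positivity)]

end Pool.Agent.Lib.MP_c35c17_an.R
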