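import Pool.Agent.Lib.MP_c35c17_an.RBase

/-! Local estimates for a small displacement. -/

set_option autoImplicit false

open Filter Topology Set Metric Complex Bornology MeasureTheory
open scoped Real ENNReal ComplexConjugate

namespace Pool.Agent.Lib.MP_c35c17_an.R

open Q

theorem st_LOC : St_LOC := by
  refine ⟨fun B w v X r ε hr hε0 hε hB hle hv hX => ?_, fun Ω e hΩ he => ?_⟩
  · set b := ‖B w‖ with hb
    have hb0 : 0 ≤ b := norm_nonneg _
    have hw : w ∈ ball w (2 * r) := mem_ball_self (by positivity)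
    have hv' : w + v ∈ ball w (2 * r) := by
      rw [mem_ball_iff_norm, add_sub_cancel_left]; nlinarith
    have h1 : ∀ u ∈ ball w (2 * r), ‖dslope B w u‖ ≤ 14 * b / (2 * r) := fun u hu =>
      norm_dslope_le_div_of_mapsTo_ball hB (fun u hu => by
        rw [mem_closedBall_iff_norm]
        linarith [norm_sub_le (B u) (B w), hle u hu]) hu
    have h2 := dist_le_div_mul_dist_of_mapsTo_ball
      ((differentiableOn_dslope (isOpen_ball.mem_nhds hw)).mpr hB) (R₂ := 2 * (14 * b / (2 * r)))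
      (fun u hu => by
        rw [mem_closedBall_iff_norm]
        linarith [norm_sub_le (dslope B w u) (dslope B w w), h1 u hu, h1 w hw]) hv'
    rw [dslope_same, dist_eq_norm, dist_eq_norm, add_sub_cancel_left] at h2
    have h3 := sub_smul_dslope B w (w + v)
    rw [add_sub_cancel_left, smul_eq_mul] at h3
    have h4 := h1 _ hv'
    generalize dslope B w (w + v) = s at h2 h3 h4
    obtain ⟨y, hy⟩ : ∃ y : ℝ, y = ‖v‖ * b / r := ⟨_, rfl⟩
    have hy0 : 0 ≤ y := by rw [hy]; positivity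
    have hyε : y ≤ ε * b := by
      rw [hy, div_le_iff₀ hr]; nlinarith
    have h5 : ‖v * s‖ ≤ 7 * y := by
      rw [norm_mul]
      calc _ ≤ ‖v‖ * (14 * b / (2 * r)) := by gcongr
        _ = _ := by rw [hy]; field_simp; ring
    have h6 : ‖v * s - v * deriv B w‖ ≤ 7 * ε * y := by
      rw [← mul_sub, norm_mul]
      calc _ ≤ ‖v‖ * (2 * (14 * b / (2 * r)) / (2 * r) * (ε * r)) :=
            mul_le_mul_of_nonneg_left (h2.trans (by gcongr)) (norm_nonneg _)
        _ = _ := by rw [hy]; field_simp; ring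
    rw [show B (w + v) = B w + v * s by rw [h3]; ring]
    generalize v * s = Δ at h5 h6
    have h7 : ‖2 + X‖ ≤ 2 + ε := (norm_add_le _ _).trans (by simpa using hX)
    have h8 : 1 ≤ ‖2 + X‖ := by
      have := norm_sub_norm_le (2 : ℂ) (-X)
      rw [sub_neg_eq_add, norm_neg, Complex.norm_ofNat] at this
      linarith
    have h9 : ‖(3 / 2 + X) * X * Δ‖ ≤ 2 * ε * (7 * y) := by
      rw [norm_mul, norm_mul]
      gcongr
      refine (norm_add_le _ _).trans ?_
      rw [norm_div, Complex.norm_ofNat, Complex.norm_ofNat]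
      linarith
    have h10 : (1 + X) ^ 2 * (B w + Δ) - B w = (2 + X) * (X * B w + Δ / 2) + (3 / 2 + X) * X * Δ := by
      ring
    constructor
    · rw [h10]
      refine (norm_add_le _ _).trans ?_
      have h11 : ‖X * B w + Δ / 2‖ ≤ ε * b + 7 * y / 2 := (norm_add_le _ _).trans (by
        rw [norm_mul, norm_div, Complex.norm_ofNat]; gcongr)
      have h12 : ‖(2 + X) * (X * B w + Δ / 2)‖ ≤ (2 + 1 / 50) * (ε * b + 7 * y / 2) := by
        rw [norm_mul]; gcongr; linarith
      nlinarith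
    · have h11 : ‖X * B w + Δ / 2‖ ≤ ‖(1 + X) ^ 2 * (B w + Δ) - B w‖ + 2 * ε * (7 * y) := by
        have h12 := norm_sub_le ((1 + X) ^ 2 * (B w + Δ) - B w) ((3 / 2 + X) * X * Δ)
        rw [h10, add_sub_cancel_right, norm_mul, ← h10] at h12
        nlinarith [norm_nonneg (X * B w + Δ / 2)]
      rw [show 2 * v * X * B w + v ^ 2 * deriv B w =
        v * (2 * (X * B w + Δ / 2) - (Δ - v * deriv B w)) by ring, norm_mul,
        show 68 * ε * (‖v‖ ^ 2 * b) / r = ‖v‖ * (68 * ε * y) by rw [hy]; field_simp,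
        mul_comm 2 ‖v‖, mul_assoc, ← mul_add]
      refine mul_le_mul_of_nonneg_left ((norm_sub_le _ _).trans ?_) (norm_nonneg _)
      rw [norm_mul, Complex.norm_ofNat]
      nlinarith [mul_nonneg hε0 hy0]
  · have h1 : |‖Ω‖ - 1| ≤ 1 / 16 := by simpa using (abs_norm_sub_norm_le Ω 1).trans hΩ
    obtain ⟨h2, h3⟩ := abs_le.mp h1
    have h4 : ‖conj Ω - ‖Ω‖‖ ≤ 1 / 8 := by
      have h5 := norm_sub_le (conj Ω - 1) ((‖Ω‖ : ℂ) - 1)
      rw [sub_sub_sub_cancel_right, show conj Ω - 1 = conj (Ω - 1) by simp, RCLike.norm_conj,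
        show (‖Ω‖ : ℂ) - 1 = ((‖Ω‖ - 1 : ℝ) : ℂ) by simp, norm_real, Real.norm_eq_abs] at h5
      linarith
    have h5 : ((conj Ω - ‖Ω‖) * e).re ≤ 1 / 8 * ‖e‖ :=
      (re_le_norm _).trans (by rw [norm_mul]; gcongr)
    have h6 : ‖Ω + e‖ ^ 2 = ‖Ω‖ ^ 2 + ‖e‖ ^ 2 + 2 * (conj Ω * e).re := by
      simp only [← normSq_eq_norm_sq, normSq_apply, add_re, add_im, mul_re, conj_re, conj_im]
      ring
    rw [sub_mul, sub_re, re_ofReal_mul] at h5
    have h7 := abs_le.mp (abs_re_le_norm e)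
    have h8 := norm_nonneg e
    have h9 : ‖Ω + e‖ ≤ ‖Ω‖ + (e.re + ‖e‖ / 2) := by
      refine le_of_pow_le_pow_left₀ two_ne_zero (by linarith) ?_
      nlinarith [sq_nonneg (e.re + ‖e‖ / 2)]
    rw [dfc, add_sub_cancel_left]
    linarith

end Pool.Agent.Lib.MP_c35c17_an.R
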