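import Pool.Agent.Lib.MP_c35c17_an.RBase

/-! A holomorphic function of mean zero is bounded by its angular defect. -/

set_option autoImplicit false

open Filter Topology Set Metric Complex Bornology MeasureTheory
open scoped Real ENNReal ComplexConjugate

namespace Pool.Agent.Lib.MP_c35c17_an.R

open Q

namespace T55

theorem ball_zero {e : ℂ → ℂ} {R b : ℝ} (hR : b < R)
    (he : DifferentiableOn ℂ e (ball 0 R)) (h0 : e 0 = 0) : ∫ w in ball (0 : ℂ) b, e w = 0 := by
  have hpol : ∀ p : ℝ × ℝ, Complex.polarCoord.symm p = circleMap 0 p.1 p.2 := fun p => by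
    rw [Complex.polarCoord_symm_apply, circleMap, exp_mul_I]; simp
  have hmeas : MeasurableSet (Ioo 0 b ×ˢ Ioo (-π) π) := measurableSet_Ioo.prod measurableSet_Ioo
  have hc : ContinuousOn (fun p : ℝ × ℝ => p.1 • e (circleMap 0 p.1 p.2)) (Icc 0 b ×ˢ Icc (-π) π) :=
    continuousOn_fst.smul (he.continuousOn.comp (f := fun p : ℝ × ℝ => circleMap 0 p.1 p.2)
      (by unfold circleMap; fun_prop) fun p hp => by
        rw [mem_ball_zero_iff, norm_circleMap_zero, abs_of_nonneg hp.1.1]
        exact hp.1.2.trans_lt hR)
  rw [← integral_indicator measurableSet_ball, ← Complex.integral_comp_polarCoord_symm,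
    polarCoord_target]
  calc _ = ∫ p in Ioo 0 b ×ˢ Ioo (-π) π, p.1 • e (circleMap 0 p.1 p.2) := by
        rw [← integral_indicator hmeas, ← integral_indicator
          (measurableSet_Ioi.prod measurableSet_Ioo)]
        refine integral_congr_ae (Eventually.of_forall fun p => ?_)
        by_cases h1 : p ∈ Ioi (0 : ℝ) ×ˢ Ioo (-π) π
        · have h2 : ‖circleMap 0 p.1 p.2‖ = p.1 := by rw [norm_circleMap_zero, abs_of_pos h1.1]
          rw [indicator_of_mem h1, hpol]
          by_cases h3 : p.1 < b
          · rw [indicator_of_mem (mem_ball_zero_iff.mpr (h2.trans_lt h3)),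
              indicator_of_mem (show p ∈ Ioo 0 b ×ˢ Ioo (-π) π from ⟨⟨h1.1, h3⟩, h1.2⟩)]
          · rw [indicator_of_notMem fun h => h3 (h2.symm.trans_lt (mem_ball_zero_iff.mp h)),
              indicator_of_notMem fun h => h3 h.1.2, smul_zero]
        · rw [indicator_of_notMem h1, indicator_of_notMem fun h => h1 ⟨h.1.1, h.2⟩]
    _ = 0 := by
        rw [Measure.volume_eq_prod, setIntegral_prod _ (by
          rw [← Measure.volume_eq_prod]
          exact (hc.integrableOn_compact (isCompact_Icc.prod isCompact_Icc)).mono_set
            (prod_mono Ioo_subset_Icc_self Ioo_subset_Icc_self))]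
        refine setIntegral_eq_zero_of_forall_eq_zero fun t ht => ?_
        have h1 : Real.circleAverage e 0 t = e 0 := DiffContOnCl.circleAverage (by
          rw [abs_of_pos ht.1]
          exact (he.mono ((closure_ball_subset_closedBall).trans
            (closedBall_subset_ball (ht.2.trans hR)))).diffContOnCl)
        rw [Real.circleAverage_eq_integral_add (-π), intervalIntegral.integral_comp_add_right
          (fun θ => e (circleMap 0 t θ)), zero_add, show 2 * π + -π = π by ring,
          intervalIntegral.integral_of_le (by linarith [Real.pi_pos]),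
          integral_Ioc_eq_integral_Ioo, h0, smul_eq_zero] at h1
        simp only
        rw [integral_smul, h1.resolve_left (by positivity), smul_zero]

end T55

theorem st_MEAN : St_MEAN := by
  intro e D r s K L hs hsr hK hL he h0 hle hD w hw
  set A := ball (0 : ℂ) (r + s) \ ball 0 (r - s) with hA
  have hAm : MeasurableSet A := measurableSet_ball.diff measurableSet_ball
  have hi : IntegrableOn e (ball 0 (r + s)) := ((he.continuousOn.mono (closedBall_subset_ball
    (by linarith))).integrableOn_compact (isCompact_closedBall 0 (r + s))).mono_set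
      ball_subset_closedBall
  have hiA : IntegrableOn e A := hi.mono_set sdiff_subset
  have h1 : ∫ u in A, e u = 0 := by
    rw [hA, setIntegral_sdiff measurableSet_ball hi (ball_subset_ball (by linarith)),
      T55.ball_zero (by linarith) he h0,
      T55.ball_zero (by linarith) he h0, sub_zero]
  have h2 : ∫ u in A, (e u).re = 0 := by
    have := integral_re (𝕜 := ℂ) hiA
    rw [h1] at this
    simpa using this
  have hsub : ball w s ⊆ A := fun u hu => by
    have h3 := abs_lt.mp ((abs_norm_sub_norm_le u w).trans_lt (mem_ball_iff_norm.mp hu))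
    exact ⟨mem_ball_zero_iff.mpr (by linarith), fun h => by linarith [mem_ball_zero_iff.mp h]⟩
  have hd := he.mono (hsub.trans (sdiff_subset.trans (ball_subset_ball (by linarith))))
  have h3 := area_mean (G := fun u => ‖e u‖) hs (norm_nonneg (e w)) hd.continuousOn.norm
    fun t _ => ⟨_, hd, le_rfl, fun _ _ => le_rfl⟩
  have hi1 : Integrable (fun u => 2 * (e u).re) (volume.restrict A) := hiA.re.const_mul 2
  have hi2 : Integrable (fun u => ‖e u‖ - 2 * (e u).re) (volume.restrict A) := hiA.norm.sub hi1
  rw [← ENNReal.ofReal_le_ofReal_iff (by positivity)]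
  calc _ ≤ ∫⁻ u in A, ENNReal.ofReal ‖e u‖ := h3.trans (lintegral_mono_set hsub)
    _ = ENNReal.ofReal (∫ u in A, (‖e u‖ - 2 * (e u).re)) := by
        rw [integral_sub hiA.norm hi1, integral_const_mul, h2, mul_zero, sub_zero,
          ofReal_integral_eq_lintegral_ofReal hiA.norm (Eventually.of_forall fun _ => norm_nonneg _)]
    _ ≤ ∫⁻ u in A, ENNReal.ofReal (‖e u‖ - 2 * (e u).re) := by
        rw [integral_eq_lintegral_pos_part_sub_lintegral_neg_part hi2]
        exact (ENNReal.ofReal_le_ofReal (sub_le_self _ ENNReal.toReal_nonneg)).trans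
          ENNReal.ofReal_toReal_le
    _ ≤ ∫⁻ u in A, ENNReal.ofReal (2 * K) * ENNReal.ofReal (D u) := by
        refine setLIntegral_mono' hAm fun u hu => ?_
        rw [← ENNReal.ofReal_mul (by positivity)]
        exact ENNReal.ofReal_le_ofReal (by linarith [hle u hu])
    _ ≤ _ := by
        rw [lintegral_const_mul' _ _ ENNReal.ofReal_ne_top,
          ENNReal.ofReal_mul (by positivity : 0 ≤ 2 * K)]
        gcongr

end Pool.Agent.Lib.MP_c35c17_an.R
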