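import Pool.Agent.Lib.MP_c35c17_an.RBlue

/-! The model domain together with the bound for the size of its boundary. -/

set_option autoImplicit false

open Filter Topology Set Metric Complex Polynomial MeasureTheory
open scoped ENNReal Real

namespace Pool.Agent.Lib.MP_c35c17_an.R

open Q

namespace T99

theorem model_aux {n : ℕ} {c : ℂ} {k : ℕ} {O : Finset ℂ} {ρ : ℂ} (h : Cyc n c k O ρ)
    {A : ℂ → ℂ} {X X' : Set ℂ} {Λ δ s : ℝ} (hX : XData n c O (qd O A) X X' Λ δ s) (hs : 0 < s)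
    (hs1 : s ≤ 1) (hΛ : 1 ≤ Λ) (hδ : 0 ≤ δ) {J : ℕ} (hJ : 0 < J)
    (hcap : (J * k + 1) * Λ ^ (J * k + 1) * δ ≤ ‖kappa‖ / 16) {L κ : ℝ}
    (hL : 2 * (4 ^ n + 3) * Lam n ^ (4 * k + 2) / (s * (‖ρ‖ - 1)) ≤ Real.exp L)
    (hκ : (k * L + k ^ 2) / J + k * (‖ρ‖ - 1) ≤ κ) (hκ1 : κ < 1) :
    ∃ W, Model n c k O W κ ∧ W ⊆ ball 0 (4 ^ n + 3) ∧ (∀ y ∈ O, y ∉ frontier W) ∧
      CapLe (frontier W) (qd O A) ((J * k + 1) * Λ ^ (J * k + 1) * δ) := by
  classical
  have hμ := sub_pos.mpr h.big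
  have hLam := h.one_le_Lam
  obtain ⟨σ, hσ⟩ := h.radii hs hs1
  set ℓ : ℕ → ℂ → ℝ := fun t x => Real.log (rad (fill (Cp (F n c) X t x)) x) with hℓ
  have hanti : ∀ {t t'}, t ≤ t' → ∀ x ∈ O, ℓ t' x ≤ ℓ t x := fun ht x hx =>
    Real.log_le_log (h.rad_anti hX hs ht hx).1 (h.rad_anti hX hs ht hx).2
  have hrange : ∀ t, ∀ x ∈ O, ℓ 0 x - ℓ t x ≤ L := fun t x hx => by
    obtain ⟨a1, a2, φ, ψ, a3, a4⟩ := h.chart_Om hX hs 0 hx
    obtain ⟨b1, -, φ', ψ', b3, b4⟩ := h.chart_Om hX hs t hx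
    have h1 : rad (fill (Cp (F n c) X 0 x)) x ≤ 2 * (4 ^ n + 3) := by
      rw [rad_eq a1 a3 a4]
      simpa using norm_deriv_le_div_of_mapsTo_ball a3.dψ (R₂ := 2 * (4 ^ n + 3)) (fun w hw => by
        have h2 := mem_ball_zero_iff.mp (a2 (a3.mψ hw))
        have h3 := mem_ball_zero_iff.mp (a2 (a3.mψ (mem_ball_self one_pos)))
        rw [mem_closedBall_iff_norm]
        linarith [norm_sub_le (ψ w) (ψ 0)]) one_pos
    have h2 : 0 < σ x := lt_of_lt_of_le (by positivity) (hσ x hx).1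
    have h3 : σ x ≤ rad (fill (Cp (F n c) X t x)) x := by
      rw [rad_eq b1 b3 b4]
      have h4 := (schwarz_chart b1 b3 (β := fun w => x + σ x * w) (by fun_prop) (fun w hw =>
        subset_fill _ ((convex_ball x (σ x)).isPreconnected.subset_connectedComponentIn
          (mem_ball_self h2) (h.ball_Zs hX (fun y hy => (hσ y hy).2) t x hx) (by
            rw [mem_ball_iff_norm, add_sub_cancel_left, norm_mul, norm_real, Real.norm_of_nonneg h2.le]
            exact mul_lt_of_lt_one_right h2 (mem_ball_zero_iff.mp hw)))) (by simp [b4])).2.1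
      simpa [abs_of_pos h2] using h4
    rw [hℓ, ← Real.log_div (h.rad_anti hX hs le_rfl hx).1.ne' (h.rad_anti hX hs le_rfl hx).1.ne',
      Real.log_le_iff_le_exp (div_pos (h.rad_anti hX hs le_rfl hx).1 (h.rad_anti hX hs le_rfl hx).1)]
    refine le_trans (div_le_div₀ (by positivity) h1 (by positivity) ((hσ x hx).1.trans h3)) ?_
    rwa [div_div_eq_mul_div]
  set Pr : ℕ → Finset (ℂ × ℂ) := fun t => (O ×ˢ O).filter fun p => p.2 ∈ Cp (F n c) X t p.1 with hPr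
  have hPa : ∀ {t t'}, t ≤ t' → Pr t' ⊆ Pr t := fun ht => Finset.monotone_filter_right _
    fun p _ hp => connectedComponentIn_mono _ (Zs_anti _ _ ht) hp
  obtain ⟨i, hi, hw⟩ := exists_window (fun i => ∑ x ∈ O, ℓ (i * k) x + (Pr (i * k)).card) hJ
    (D := k * L + k ^ 2) (by
      have h1 : ∑ x ∈ O, (ℓ 0 x - ℓ (J * k) x) ≤ k * L := by
        simpa [h.card] using Finset.sum_le_card_nsmul _ _ _ (hrange (J * k))
      have h2 : ((Pr 0).card : ℝ) ≤ k ^ 2 := by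
        exact_mod_cast (Finset.card_filter_le _ _).trans (by rw [Finset.card_product, h.card, sq])
      rw [Finset.sum_sub_distrib] at h1
      simp only [zero_mul]
      linarith [Nat.cast_nonneg (α := ℝ) (Pr (J * k)).card])
  simp only [add_one_mul] at hw
  set t := i * k with ht
  have htJ : t ≤ J * k := Nat.mul_le_mul_right k hi.le
  have hkμ : 0 ≤ k * (‖ρ‖ - 1) := by positivity
  have hsum : ∀ d, 0 ≤ ∑ x ∈ O, (ℓ t x - ℓ (t + d) x) := fun d =>
    Finset.sum_nonneg fun x hx => sub_nonneg.mpr (hanti le_self_add x hx)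
  have hcard : ((Pr (t + k)).card : ℝ) ≤ (Pr t).card := by
    exact_mod_cast Finset.card_le_card (hPa le_self_add)
  have hPe : Pr (t + k) = Pr t := Finset.eq_of_subset_of_card_le (hPa le_self_add) (by
    have h1 := hsum k
    rw [Finset.sum_sub_distrib] at h1
    have h2 : ((Pr t).card : ℝ) < (Pr (t + k)).card + 1 := by linarith
    exact_mod_cast Nat.lt_succ_iff.mp (by exact_mod_cast h2))
  have hI : ∀ d ≤ k, ∑ x ∈ O, (ℓ t x - ℓ (t + d) x) + k * (‖ρ‖ - 1) ≤ κ := fun d hd => by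
    have h1 : ∑ x ∈ O, ℓ (t + k) x ≤ ∑ x ∈ O, ℓ (t + d) x :=
      Finset.sum_le_sum (hanti (Nat.add_le_add_left hd t))
    rw [Finset.sum_sub_distrib]
    linarith
  obtain ⟨x₀, hx₀, hmin⟩ := O.exists_min_image (fun x => sSup (norm '' Cp (F n c) X t x))
    (Finset.card_pos.mp (h.card ▸ h.pos))
  have hin : ∀ y ∈ O, y ∈ fill (Cp (F n c) X t x₀) → y ∈ Cp (F n c) X t x₀ := fun y hy h1 => by
    by_contra h2
    have h3 := mem_connectedComponentIn (h.mem_Zs hX hs t y hy)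
    obtain ⟨w, hw, b, hb, hb'⟩ := dominated isPreconnected_connectedComponentIn (disjoint_left.mpr
      fun z h4 h5 => h2 (by
        rw [Cp, connectedComponentIn_eq h5, ← connectedComponentIn_eq h4]; exact h3)) h3 h1
    have h4 : sSup (norm '' Cp (F n c) X t y) ≤ b :=
      csSup_le ⟨_, y, h3, rfl⟩ (by rintro _ ⟨z, hz, rfl⟩; exact hb' z hz)
    have h5 : ‖w‖ ≤ sSup (norm '' Cp (F n c) X t x₀) := le_csSup ⟨4 ^ n + 3, by
      rintro _ ⟨z, hz, rfl⟩
      exact (mem_ball_zero_iff.mp (h.Zs_bdd hX t (connectedComponentIn_subset _ _ hz))).le⟩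
      ⟨w, hw, rfl⟩
    linarith [hmin y hy]
  obtain ⟨hWo, hWb, hWc⟩ := h.chart_Om hX hs t hx₀
  have h00 : (0 : ℂ) ∈ ball (0 : ℂ) 1 := mem_ball_self one_pos
  have hBc : ∀ w ∉ O, ContinuousAt (qd O A) w := fun w hw => (qd_diff A hw).continuousAt
  obtain ⟨g1, g2, g3, g4, g5⟩ := h.Gs_spec hX hs (qd_meas O A) hBc hΛ hδ t
  have hfr := (frontier_fill_subset (h.Zs_open hX t).connectedComponentIn).trans
    ((frontier_comp (h.Zs_open hX t) x₀).trans g1)
  have hcp : CapLe (frontier (fill (Cp (F n c) X t x₀))) (qd O A)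
      ((J * k + 1) * Λ ^ (J * k + 1) * δ) := by
    refine CapLe.mono (g5.localize (qd_meas O A) (by positivity) one_pos g3 hfr
      (g2.of_isClosed_subset isClosed_frontier hfr) O.finite_toSet.isClosed.isOpen_compl
      (fun w hw h' => g4 w h' (hfr hw)) (fun w hw => (hBc w hw).continuousWithinAt)
      (fun w _ => by simp)) ?_
    rw [one_mul]
    gcongr
    exact_mod_cast htJ
  refine ⟨_, ⟨hWo, ⟨x₀, hx₀, hWc⟩, fun φ ψ hb hO => ?_,
    fun d hd φ ψ φ' ψ' hb hb' hO he => ?_⟩, hWb, fun y hy h' => g4 y hy (hfr h'), hcp⟩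
  · exact jensen hWo (isBounded_ball.subset hWb) hb hO (hb.mψ h00) (hb.right 0 h00) (qP_eval A hO)
      (qd_meas O A) (fun w hw => qd_eq A hw) (fun y hy h' => g4 y hy (hfr h')) (hcp.mono hcap)
      h.card.le
  · have hz := h.iter_mem hO d
    have e1 := connectedComponentIn_eq (hin _ hO (hb.mψ h00))
    have e2 := connectedComponentIn_eq (hin _ hz (he ▸ hb'.mψ h00))
    obtain ⟨φ₂, α, β, a1, a2, a3, a4, a5, a6, a7⟩ := h.inv_chart hX hs t hO d
    have hα : MapsTo α (ball 0 1) (fill (Cp (F n c) X t x₀)) := a1.mψ.mono_right (by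
      rw [Cp, Cp, e2]
      exact fill_mono (h.Zs_open hX t).connectedComponentIn
        (connectedComponentIn_mono _ (Zs_anti _ _ le_self_add)))
    have hβ : MapsTo β (ball 0 1) (fill (Cp (F n c) X t x₀)) := by rw [Cp, e1]; exact a4
    have hpos := fun t x hx => (h.rad_anti hX hs (le_refl t) (x := x) hx).1
    refine ⟨α, β, a1.dψ, a3, hα, hβ, fun w hw => ⟨(a6 w hw).1, fun h1 => (a6 w hw).2 h1 ?_⟩,
      (schwarz_chart hWo hb' a1.dψ hα (a2.trans he.symm)).2.2 κ ?_,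
      (schwarz_chart hWo hb a3 hβ a5).2.2 κ ?_⟩
    · have h2 : ((F n c)^[d] (ψ 0), α w) ∈ Pr t := Finset.mem_filter.mpr
        ⟨Finset.mem_product.mpr ⟨hz, h1⟩, by rw [Cp, ← e2]; exact hin _ h1 (hα hw)⟩
      exact (Finset.mem_filter.mp (hPa (Nat.add_le_add_left hd t) (hPe ▸ h2))).2
    · rw [← rad_eq hWo hb' he, ← rad_eq (h.chart_Om hX hs _ hz).1 a1 a2, Cp, e2]
      refine one_sub_mul_le (hpos _ _ hz) (hpos _ _ hz) (le_trans ?_ (hI d hd))
      exact (Finset.single_le_sum (f := fun x => ℓ t x - ℓ (t + d) x)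
        (fun x hx => sub_nonneg.mpr (hanti le_self_add x hx)) hz).trans (le_add_of_nonneg_right hkμ)
    · have hdF := fun x hx => norm_pos_iff.mpr (h.dF_ne (x := x) hx d)
      refine le_of_mul_le_mul_left ?_ (hdF _ hO)
      rw [← rad_eq hWo hb rfl, a7, Cp, e1, mul_left_comm]
      refine one_sub_mul_le (mul_pos (hdF _ hO) (hpos _ _ hO)) (hpos _ _ hz) (le_trans ?_ (hI d hd))
      rw [Real.log_mul (hdF _ hO).ne' (hpos _ _ hO).ne']
      refine (Finset.single_le_sum (f := fun x => Real.log ‖dF n c d x‖ + ℓ t x -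
        ℓ (t + d) ((F n c)^[d] x)) (fun x hx => ?_) hO).trans ?_
      · obtain ⟨φ₃, α₃, β₃, -, -, b3, b4, b5, -, b7⟩ := h.inv_chart hX hs t hx d
        obtain ⟨c1, -, φ₄, ψ₄, c2, c3⟩ := h.chart_Om hX hs t hx
        rw [sub_nonneg, hℓ, ← Real.log_mul (hdF _ hx).ne' (hpos _ _ hx).ne']
        refine Real.log_le_log (hpos _ _ (h.iter_mem hx d)) ?_
        rw [← b7, rad_eq c1 c2 c3]
        exact mul_le_mul_of_nonneg_left (schwarz_chart c1 c2 b3 b4 (b5.trans c3.symm)).2.1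
          (norm_nonneg _)
      · rw [Finset.sum_sub_distrib, Finset.sum_sub_distrib, Finset.sum_add_distrib, h.sum_log_dF,
          h.sum_comp_iter]
        have h1 : d * Real.log ‖ρ‖ ≤ k * (‖ρ‖ - 1) := mul_le_mul (by exact_mod_cast hd)
          (Real.log_le_sub_one_of_pos (by linarith)) (Real.log_nonneg h.big.le) (by positivity)
        linarith

end T99

theorem st_MOD {n : ℕ} (hn : 2 ≤ n) : St_MOD n := by
  have hB := bumpC_spec.1
  have hκ := kappa_pos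
  have hL := (le_Lam hn).2
  refine ⟨10 ^ 12 * Lam n ^ 2 + 16 * (4 ^ n + 3) + 115200 * n * bumpC / ‖kappa‖ + 7200 * n * bumpC,
    ?_, fun c k O ρ h H hH h1 h2 => ?_⟩
  · have : 0 ≤ 115200 * n * bumpC / ‖kappa‖ := by positivity
    have : (0 : ℝ) ≤ 4 ^ n := by positivity
    have : 0 ≤ 7200 * n * bumpC := by positivity
    nlinarith
  unfold eps at h2
  have hk : (1 : ℝ) ≤ k := by exact_mod_cast h.pos
  have hμ := sub_pos.mpr h.big
  obtain ⟨c1, c2, c3⟩ : 10 ^ 12 * Lam n ^ 2 * k ≤ H ∧ 16 * (4 ^ n + 3) ≤ H ∧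
      115200 * n * bumpC / ‖kappa‖ ≤ H := by
    have e1 : 0 ≤ 115200 * n * bumpC / ‖kappa‖ := by positivity
    have e2 : (0 : ℝ) ≤ 16 * (4 ^ n + 3) := by positivity
    have e3 : 0 ≤ 10 ^ 12 * Lam n ^ 2 := by positivity
    have e4 : 0 ≤ 7200 * n * bumpC := by positivity
    refine ⟨?_, ?_, ?_⟩ <;> nlinarith
  have hL2 : Lam n ≤ Lam n ^ 2 := by nlinarith
  have c4 : 10 ^ 12 * Lam n ^ 2 ≤ H := le_trans (le_mul_of_one_le_right (by positivity) hk) c1
  have c5 : 16 * (Lam n * k) ≤ H := by nlinarith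
  have hH1 : 80 ≤ H := by nlinarith
  have hkH : (k : ℝ) ≤ H := by nlinarith
  have hH0 : 0 < H := by linarith
  have hp : ∀ {i j : ℕ}, i ≤ j → H ^ i ≤ H ^ j := fun hij => pow_le_pow_right₀ (by linarith) hij
  set ε := k * (‖ρ‖ - 1) + ‖∑ x ∈ O, coef n c k ρ x‖ with hε
  have hε0 : 0 ≤ ε := by positivity
  obtain ⟨X, X', hX⟩ := h.exists_X (M := H ^ 6) (y := 1 / H ^ 7)
    (by linarith [hp (by norm_num : 1 ≤ 6)]) (by positivity)
    (by rw [div_le_one (by positivity)]; exact one_le_pow₀ (by linarith)) (by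
      rw [div_pow, one_pow, le_div_iff₀ (by positivity)]
      calc _ ≤ H * H ^ 2 * H ^ 6 * ε * (H ^ 7) ^ 2 := by gcongr; linarith
        _ = ε * H ^ 23 := by ring
        _ ≤ 1 := h2)
  have hE : 1 ≤ Lam n ^ (3 * k + 2) / (‖ρ‖ - 1) :=
    (one_le_pow₀ h.one_le_Lam).trans (le_div_self (by positivity) hμ (by linarith [h.small]))
  have hJ1 : H ^ 4 ≤ ⌈H ^ 4⌉₊ := Nat.le_ceil _
  have hJ2 : (⌈H ^ 4⌉₊ : ℝ) * k + 1 ≤ 3 * H ^ 5 := by
    have e1 := (Nat.ceil_lt_add_one (by positivity : 0 ≤ H ^ 4)).le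
    have e2 : 1 ≤ H ^ 4 := one_le_pow₀ (by linarith)
    have e3 : 1 ≤ H ^ 5 := one_le_pow₀ (by linarith)
    have e4 : (⌈H ^ 4⌉₊ : ℝ) * k ≤ 2 * H ^ 4 * H := by gcongr; linarith
    linarith
  have e1 : (1 + 3 * Lam n ^ 2 / H ^ 6) ^ (⌈H ^ 4⌉₊ * k + 1) ≤ 3 := by
    calc _ ≤ Real.exp (3 * Lam n ^ 2 / H ^ 6) ^ (⌈H ^ 4⌉₊ * k + 1) := by
          gcongr; linarith [Real.add_one_le_exp (3 * Lam n ^ 2 / H ^ 6)]
      _ ≤ Real.exp 1 := by
          rw [← Real.exp_nat_mul, Real.exp_le_exp, mul_div_assoc', div_le_one (by positivity)]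
          push_cast
          calc _ ≤ 3 * H ^ 5 * (3 * Lam n ^ 2) := by gcongr
            _ = H ^ 5 * (9 * Lam n ^ 2) := by ring
            _ ≤ H ^ 5 * H := by gcongr; nlinarith
            _ = _ := by ring
      _ ≤ 3 := by linarith [Real.exp_one_lt_d9]
  refine Exists.imp (fun W hW => ⟨hW.1, hW.2.1, hW.2.2.1, hW.2.2.2.mono ?_⟩)
    (T99.model_aux h hX (by positivity) ?_ (le_add_of_nonneg_right (by positivity))
    (by positivity) (J := ⌈H ^ 4⌉₊) (Nat.ceil_pos.mpr (by positivity)) ?_ (L := H ^ 2) ?_ ?_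
    (by rw [div_lt_one hH0]; linarith))
  · rw [div_le_one (by positivity)]
    calc (1 : ℝ) = 1 * 1 * 1 ^ 2 := by ring
      _ ≤ _ := by gcongr; exacts [by norm_num, one_le_pow₀ (by linarith)]
  · rw [div_le_iff₀ hκ] at c3
    calc _ ≤ 3 * H ^ 5 * 3 * (n * (800 * bumpC * H * (1 / H ^ 7))) := by gcongr
      _ = 115200 * n * bumpC / H / 16 := by field_simp; ring
      _ ≤ _ := by gcongr; rw [div_le_iff₀ hH0]; linarith
  · have e1 : 1 / (‖ρ‖ - 1) ≤ H ^ 24 := by rw [div_le_iff₀ hμ]; linarith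
    have e2 : Lam n ^ (10 * k + 6) ≤ Real.exp H := by
      calc _ ≤ Lam n ^ (16 * k) := pow_le_pow_right₀ h.one_le_Lam (by have := h.pos; omega)
        _ ≤ Real.exp (Lam n) ^ (16 * k) := by gcongr; linarith [Real.add_one_le_exp (Lam n)]
        _ ≤ _ := by rw [← Real.exp_nat_mul, Real.exp_le_exp]; push_cast; linarith
    have e3 : H ≤ Real.exp H := by linarith [Real.add_one_le_exp H]
    calc _ = 16 * (4 ^ n + 3) * H ^ 6 * (1 / (‖ρ‖ - 1)) ^ 3 * Lam n ^ (10 * k + 6) := by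
          field_simp; ring
      _ ≤ H * H ^ 6 * (H ^ 24) ^ 3 * Real.exp H := by gcongr
      _ = H ^ 79 * Real.exp H := by ring
      _ ≤ Real.exp H ^ 79 * Real.exp H := by gcongr
      _ ≤ _ := by rw [← pow_succ, ← Real.exp_nat_mul, Real.exp_le_exp]; push_cast; nlinarith
  · have e1 : k * (‖ρ‖ - 1) ≤ 1 / H := by
      rw [le_div_iff₀ hH0]
      calc _ ≤ ε * H ^ 23 := by
            gcongr
            exacts [le_add_of_nonneg_right (norm_nonneg _), by simpa using hp (by norm_num : 1 ≤ 23)]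
        _ ≤ 1 := h2
    have e2 : (k * H ^ 2 + k ^ 2) / ⌈H ^ 4⌉₊ ≤ 2 / H := by
      calc _ ≤ (H * H ^ 2 + H ^ 3) / H ^ 4 := by
            gcongr
            exact (pow_le_pow_left₀ (by positivity) hkH 2).trans (hp (by norm_num))
        _ = _ := by field_simp; ring
    rw [show 3 / H = 2 / H + 1 / H by ring]
    linarith
  · calc _ ≤ 3 * H ^ 5 * 3 * (n * (800 * bumpC * H * (1 / H ^ 7))) := by gcongr
      _ = 7200 * n * bumpC / H := by field_simp; ring
      _ ≤ _ := by gcongr; exact le_add_of_nonneg_left (by positivity)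

end Pool.Agent.Lib.MP_c35c17_an.R
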