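import Pool.Agent.Lib.MP_c35c17_an.RBase

/-! An almost automorphism of the disc that fixes the origin is almost linear. -/

set_option autoImplicit false

open Filter Topology Set Metric Complex
open scoped ComplexConjugate

namespace Pool.Agent.Lib.MP_c35c17_an.R

open Q

namespace T24

theorem bihol_rot {η : ℂ} (h : ‖η‖ = 1) :
    Bihol (fun w => η * w) (fun w => η⁻¹ * w) (ball 0 1) (ball 0 1) := by
  have h0 : η ≠ 0 := by rintro rfl; simp at h
  exact ⟨differentiableOn_id.const_mul _, differentiableOn_id.const_mul _,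
    fun w hw => by simpa [h] using hw, fun w hw => by simpa [h] using hw,
    fun w _ => inv_mul_cancel_left₀ h0 w, fun w _ => mul_inv_cancel_left₀ h0 w⟩

theorem aut_near {T T' : ℂ → ℂ} (h : Bihol T T' (ball 0 1) (ball 0 1)) (hb : ‖T 0‖ ≤ 1 / 2) :
    ∃ ι : ℂ, ∀ w, ‖w‖ < 1 → ‖T w - ι * w‖ ≤ 4 * ‖T 0‖ := by
  have h00 : (0 : ℂ) ∈ ball (0 : ℂ) 1 := mem_ball_self one_pos
  have hb1 : ‖T 0‖ < 1 := by linarith
  have hS := h.trans (bihol_mob hb1)
  have s0 : (mob (T 0) ∘ T) 0 = 0 := mob_self _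
  have s1 := hS.left 0 h00
  have s2 := hS.deriv_mul isOpen_ball isOpen_ball h00
  rw [s0] at s1 s2
  have s3 := norm_deriv_le_one_of_mapsTo_ball hS.dψ
    (by rw [s1]; exact hS.mψ.mono_right ball_subset_closedBall) one_pos
  have s4 : NearRot (mob (T 0) ∘ T) 0 := ⟨hS.dφ, hS.mφ, s0, by
    have := congrArg norm s2
    rw [norm_mul, norm_one] at this
    nlinarith [norm_nonneg (deriv (mob (T 0) ∘ T) 0)]⟩
  obtain ⟨ι, hι, -, h1⟩ := s4.approx one_pos
  refine ⟨ι, fun w hw => ?_⟩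
  have h2 : mob (T 0) (T w) = ι * w := by
    have h3 := h1 w hw
    rw [mul_zero, zero_mul] at h3
    exact sub_eq_zero.1 (norm_le_zero_iff.1 (nonpos_of_mul_nonpos_right h3 (by linarith)))
  have h3 := mob_neg_mob hb1 (mem_ball_zero_iff.1 (h.mφ (mem_ball_zero_iff.2 hw))).le
  have hu : ‖ι * w‖ ≤ 1 := by rw [norm_mul, hι, one_mul]; exact hw.le
  rw [← h3, h2]
  generalize ι * w = u at hu
  generalize T 0 = b at hb hb1
  have d1 := mob_den_norm (-b) u
  have d2 : 1 / 2 ≤ ‖1 - conj (-b) * u‖ := by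
    rw [norm_neg] at d1
    nlinarith [norm_nonneg b, norm_nonneg u]
  have d3 : 1 - conj (-b) * u ≠ 0 := norm_pos_iff.1 (by linarith)
  have e : mob (-b) u - u = (b + conj (-b) * u ^ 2) / (1 - conj (-b) * u) := by
    rw [mob, div_sub' d3]; congr 1; ring
  have d4 : ‖b + conj (-b) * u ^ 2‖ ≤ 2 * ‖b‖ := by
    refine (norm_add_le _ _).trans ?_
    rw [norm_mul, norm_conj, norm_neg, norm_pow]
    have : ‖u‖ ^ 2 ≤ 1 := pow_le_one₀ (norm_nonneg _) hu
    nlinarith [norm_nonneg b]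
  rw [e, norm_div, div_le_iff₀ (by linarith)]
  nlinarith [norm_nonneg b]

end T24

open T24

theorem st_NR : St_NR := by
  intro A C g κ a θ z z' hA hC ha hθ hθ2 hκ hz hz' hg hd h0
  have hκ0 : 0 ≤ κ := by linarith [hA.big, hA.deriv_le]
  have ha1 : a ≤ 1 := by linarith [norm_nonneg z]
  have hp : 0 < θ * a := mul_pos hθ ha
  have hp1 : θ * a ≤ 1 := mul_le_one₀ (by linarith) ha.le ha1
  have hκ1 : κ < 1 := by nlinarith
  obtain ⟨ι, hι, -, hιA⟩ := hA.approx hκ1
  obtain ⟨ι', hι', -, hιC⟩ := hC.approx hκ1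
  have hι0 : ι' ≠ 0 := by rintro rfl; simp at hι'
  have hη : ‖ι / ι'‖ = 1 := by rw [norm_div, hι, hι', div_one]
  have hz1 : ‖z‖ < 1 := by linarith
  have hz1' : ‖-z'‖ < 1 := by rw [norm_neg]; linarith
  have hT := ((bihol_mob hz1).trans (bihol_rot hη)).trans (bihol_mob hz1')
  set e := 64 * κ / (θ * a ^ 2) with he
  have e0 : 0 ≤ e := by positivity
  have e1 : e ≤ 1 / 16 := by
    rw [he, div_le_iff₀ (by positivity)]
    nlinarith [mul_le_mul_of_nonneg_right hθ2 (mul_pos hθ (pow_pos ha 2)).le]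
  have near : ∀ w, ‖w‖ ≤ 1 - θ → ‖g w - mob (-z') (ι / ι' * mob z w)‖ ≤ e := fun w hw => by
    have b1 := mob_bound ha hθ hz hw
    obtain ⟨t, t1, -, t2⟩ := hC.cover (θ := θ * a / 4) (by positivity) (by linarith) b1
    have t3 : ‖t‖ ≤ 1 - 1 / (8 / (θ * a)) := by rw [one_div_div]; linarith
    have t4 : ‖t‖ < 1 := by linarith
    have a1 := approx_le hιA (by positivity) t3
    have a2 := approx_le hιC (by positivity) t3
    have a3 : 2 * (8 / (θ * a)) * κ * ‖t‖ ≤ 2 * (8 / (θ * a)) * κ :=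
      mul_le_of_le_one_right (by positivity) t4.le
    have a4 : ‖A t - ι / ι' * mob z w‖ ≤ 4 * (8 / (θ * a)) * κ := by
      have e2 : A t - ι / ι' * mob z w = (A t - ι * t) - ι / ι' * (C t - ι' * t) := by
        rw [t2]; field_simp; ring
      rw [e2]
      refine (norm_sub_le _ _).trans ?_
      rw [norm_mul, hη, one_mul]
      linarith
    have a5 := hg t (mem_ball_zero_iff.2 t4)
    rw [t2, mob_neg_mob hz1 (by linarith)] at a5
    rw [a5]
    refine (mob_lip (k := 1 / (2 * a)) (by positivity)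
      (by rw [norm_neg, show 1 / (2 * (1 / (2 * a))) = a by field_simp]; exact hz')
      ((hA.norm_le t4).trans t4.le) (by rw [norm_mul, hη, one_mul]; linarith)).trans ?_
    refine (mul_le_mul_of_nonneg_left a4 (by positivity)).trans (le_of_eq ?_)
    rw [he]; field_simp; ring
  have n0 : ‖mob (-z') (ι / ι' * mob z 0)‖ ≤ e := by
    have := near 0 (by rw [norm_zero]; linarith)
    rwa [h0, zero_sub, norm_neg] at this
  obtain ⟨ξ, hξ⟩ := aut_near hT (n0.trans (by linarith))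
  have hf : DifferentiableOn ℂ (fun w => g w - ξ * w) (ball 0 (1 - θ)) :=
    hd.sub (differentiableOn_id.const_mul ξ)
  have hm : MapsTo (fun w => g w - ξ * w) (ball 0 (1 - θ))
      (closedBall ((fun w => g w - ξ * w) 0) (5 * e)) := fun w hw => by
    have h1 := mem_ball_zero_iff.1 hw
    have h2 := near w h1.le
    have h3 : ‖mob (-z') (ι / ι' * mob z w) - ξ * w‖ ≤ 4 * ‖mob (-z') (ι / ι' * mob z 0)‖ :=
      hξ w (by linarith)
    have h4 := norm_sub_le_norm_sub_add_norm_sub (g w) (mob (-z') (ι / ι' * mob z w)) (ξ * w)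
    simp only [h0, mul_zero, sub_zero, mem_closedBall_zero_iff]
    linarith
  have hr : 0 < 1 - θ := by linarith
  have c1 : 5 * e / (1 - θ) ≤ 10 * e := by rw [div_le_iff₀ hr]; nlinarith
  have c2 := (norm_deriv_le_div_of_mapsTo_ball hf hm hr).trans c1
  have c3 : deriv (fun w => g w - ξ * w) 0 = deriv g 0 - ξ := by
    have := ((hd.differentiableAt (ball_mem_nhds 0 hr)).hasDerivAt.fun_sub
      ((hasDerivAt_id' (0 : ℂ)).const_mul ξ)).deriv
    rwa [mul_one] at this
  intro w hw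
  have c4 := dist_le_div_mul_dist_of_mapsTo_ball hf hm hw
  simp only [h0, mul_zero, sub_zero, dist_zero_right] at c4
  have c5 := mul_le_mul_of_nonneg_right c1 (norm_nonneg w)
  rw [c3] at c2
  have c6 := mul_le_mul_of_nonneg_right c2 (norm_nonneg w)
  rw [show g w - deriv g 0 * w = (g w - ξ * w) - (deriv g 0 - ξ) * w by ring,
    show 1280 * κ / (θ * a ^ 2) = 20 * e by rw [he]; ring]
  refine (norm_sub_le _ _).trans ?_
  rw [norm_mul]
  linarith

end Pool.Agent.Lib.MP_c35c17_an.R
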