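import Pool.Agent.Lib.MP_c35c17_an.RBlue

/-! Pull-back of double poles and the chain rule for their residues. -/

set_option autoImplicit false

open Filter Topology Set Metric Complex

namespace Pool.Agent.Lib.MP_c35c17_an.R

open Q

theorem st_PB : St_PB := by
  intro U G z a hU hG hz h0 hinj
  have hγ : DifferentiableOn ℂ (dslope G z) U := (differentiableOn_dslope (hU.mem_nhds hz)).2 hG
  have e0 : ∀ w, G w - G z = (w - z) * dslope G z w := fun w => (sub_smul_dslope G z w).symm
  have g0 : dslope G z z = deriv G z := dslope_same G z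
  generalize dslope G z = γ at hγ e0 g0
  have hγ' : DifferentiableOn ℂ (deriv γ) U := hγ.deriv hU
  have ne : ∀ w ∈ U, γ w ≠ 0 := fun w hw h1 => by
    have h2 := e0 w
    rw [h1, mul_zero, sub_eq_zero] at h2
    rw [hinj w hw h2, g0] at h1
    exact h0 h1
  have d1 : ∀ w ∈ U, deriv G w = γ w + (w - z) * deriv γ w := fun w hw => by
    have h1 := (((hasDerivAt_id' w).sub_const z).fun_mul
      (hγ.differentiableAt (hU.mem_nhds hw)).hasDerivAt).const_add (G z)
    have h2 : G = fun w => G z + (w - z) * γ w := funext fun w => by rw [← e0]; ring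
    rw [← h2] at h1
    rw [h1.deriv, one_mul]
  have d2 : deriv (deriv G) z = 2 * deriv γ z := by
    have h1 := (hγ.differentiableAt (hU.mem_nhds hz)).hasDerivAt.fun_add
      (((hasDerivAt_id' z).sub_const z).fun_mul (hγ'.differentiableAt (hU.mem_nhds hz)).hasDerivAt)
    have h2 : deriv G =ᶠ[𝓝 z] fun w => γ w + (w - z) * deriv γ w :=
      eventually_of_mem (hU.mem_nhds hz) d1
    rw [h2.deriv_eq, h1.deriv]
    ring
  have hφ : DifferentiableOn ℂ (fun w => 2 * deriv γ w / γ w + a * γ w) U :=
    ((hγ'.const_mul 2).div hγ ne).add (hγ.const_mul a)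
  refine ⟨fun w => dslope (fun w => 2 * deriv γ w / γ w + a * γ w) z w + (deriv γ w / γ w) ^ 2 +
    2 * a * deriv γ w + a * (w - z) * (deriv γ w ^ 2 / γ w),
    ((((differentiableOn_dslope (hU.mem_nhds hz)).2 hφ).add ((hγ'.div hγ ne).pow 2)).add
      (hγ'.const_mul _)).add (((differentiableOn_id.sub_const z).const_mul a).mul
        ((hγ'.pow 2).div hγ ne)), fun w hw hne => ?_⟩
  have h1 := ne w hw
  have h2 := sub_ne_zero.2 hne
  have h3 := ne z hz
  beta_reduce
  rw [dslope_of_ne _ hne, slope_def_field, act, d2, ← g0, d1 w hw, e0]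
  field_simp
  ring

theorem st_ACT : St_ACT := by
  have key : ∀ (G₁ G₂ : ℂ → ℂ) (z a : ℂ), AnalyticAt ℂ G₂ z → AnalyticAt ℂ G₁ (G₂ z) →
      deriv G₂ z ≠ 0 → deriv G₁ (G₂ z) ≠ 0 →
      act (G₁ ∘ G₂) z a = act G₂ z (act G₁ (G₂ z) a) := by
    intro G₁ G₂ z a h2 h1 n2 n1
    have e : deriv (G₁ ∘ G₂) =ᶠ[𝓝 z] fun w => deriv G₁ (G₂ w) * deriv G₂ w := by
      filter_upwards [h2.eventually_analyticAt,
        h2.continuousAt.eventually h1.eventually_analyticAt] with w a2 a1
      exact deriv_comp w a1.differentiableAt a2.differentiableAt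
    have d := (h1.deriv.differentiableAt.hasDerivAt.comp z h2.differentiableAt.hasDerivAt).fun_mul
      h2.deriv.differentiableAt.hasDerivAt
    have d' : deriv (fun w => deriv G₁ (G₂ w) * deriv G₂ w) z = _ := d.deriv
    rw [act, act, act, e.deriv_eq, e.eq_of_nhds, d', Function.comp_apply]
    field_simp
    ring
  refine ⟨key, fun n c k O ρ h x hx e => ?_⟩
  have an : ∀ e y, AnalyticAt ℂ (F n c)^[e] y := fun e y =>
    Differentiable.analyticAt (fun z => (hasDerivAt_iter n c e z).differentiableAt) y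
  have d1 : deriv (F n c) = fun y : ℂ => (n : ℂ) * y ^ (n - 1) := funext fun y =>
    ((hasDerivAt_pow n y).add_const c).deriv
  induction e generalizing x with
  | zero => simp [act]
  | succ e ih =>
    have h0 := h.ne_zero hx
    have hn : (n : ℂ) ≠ 0 := Nat.cast_ne_zero.mpr (by have := h.hn; omega)
    rw [Function.iterate_succ_apply, Function.iterate_succ, key _ (F n c) _ _ (an 1 x) (an e _)
      (by rw [d1]; exact mul_ne_zero hn (pow_ne_zero _ h0))
      (by rw [(hasDerivAt_iter n c e _).deriv]; exact h.dF_ne (h.maps x hx) e),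
      ih _ (h.maps x hx), h.coef_eq hx, act, d1,
      ((hasDerivAt_pow (n - 1) x).const_mul (n : ℂ)).deriv]
    obtain ⟨m, rfl⟩ := Nat.exists_eq_add_of_le' h.hn
    simp only [show m + 2 - 1 = m + 1 by omega, Nat.add_sub_cancel]
    push_cast at hn ⊢
    field_simp
    ring

end Pool.Agent.Lib.MP_c35c17_an.R
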