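import Pool.Agent.Lib.MP_c35c17_an.RBlue

/-! A short boundary makes the differential small away from its poles. -/

set_option autoImplicit false

open Filter Topology Set Metric Complex Bornology MeasureTheory Polynomial
open scoped Real ENNReal ComplexConjugate

namespace Pool.Agent.Lib.MP_c35c17_an.R

open Q

namespace T76

theorem fac_self {W : Set ℂ} {φ ψ e : ℂ → ℂ} (hW : IsOpen W) (h : Bihol φ ψ W (ball 0 1)) {x : ℂ}
    (hx : x ∈ W) (he : DifferentiableOn ℂ e W) (hf : ∀ z ∈ W, z - x = bl W φ x z * e z) :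
    ‖e x‖ = ‖deriv ψ (φ x)‖ * (1 - ‖φ x‖ ^ 2) := by
  have hp := h.lt hx
  have h1 := ((hasDerivAt_mob hp hp.le).comp x
    (h.dφ.differentiableAt (hW.mem_nhds hx)).hasDerivAt).mul
    (he.differentiableAt (hW.mem_nhds hx)).hasDerivAt
  have h2 := ((hasDerivAt_id x).sub_const x).unique (h1.congr_of_eventuallyEq
    (eventually_of_mem (hW.mem_nhds hx) fun z hz => by simpa [bl, hx] using hf z hz))
  have h3 := h.deriv_mul hW isOpen_ball hx
  have h4 := mob_den_ne hp hp.le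
  have h5 : e x = deriv ψ (φ x) * (1 - conj (φ x) * φ x) := by
    simp only [Function.comp_apply, mob_self, zero_mul, add_zero] at h2
    field_simp at h2
    linear_combination -deriv ψ (φ x) * h2 - e x * h3
  rw [h5, one_sub_conj_mul, norm_mul, norm_real,
    Real.norm_of_nonneg (by nlinarith [norm_nonneg (φ x)])]

end T76

theorem st_SM : St_SM := by
  intro W φ ψ O A σ hW hb h ⟨x₀, hx₀⟩ hdis hσ hcap p hp hpO
  have hP0 : qP O A ≠ 0 := fun h0 => by
    have := qP_eval A hx₀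
    rw [h0, eval_zero] at this
    exact pow_ne_zero 2 (Finset.prod_ne_zero_iff.mpr fun y hy =>
      sub_ne_zero.mpr (Finset.ne_of_mem_erase hy).symm) this.symm
  obtain ⟨e, β, he, hβ, heβ⟩ := h.fac_multiset hW (qP O A).roots
  obtain ⟨s, hs, hse⟩ := h.exists_sqrt (he.const_mul (qP O A).leadingCoeff)
    fun z hz => mul_ne_zero (leadingCoeff_ne_zero.mpr hP0) (heβ z hz).1
  have hPe : ∀ z ∈ W, (qP O A).eval z = β z * s z ^ 2 := fun z hz => by
    rw [(IsAlgClosed.splits (qP O A)).eval_eq_prod_roots, (heβ z hz).2.2, hse z hz]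
    ring
  choose E hE hE' using h.fac hW
  have hE0 : ∀ z ∈ W, ∏ y ∈ O, E y z ≠ 0 := fun z hz =>
    Finset.prod_ne_zero_iff.mpr fun y _ => (hE' y z hz).1
  have key : ∀ z ∈ W, z ∉ O → ‖β z‖ * ‖s z / ∏ y ∈ O, E y z‖ ^ 2 =
      ‖qd O A z‖ * ∏ y ∈ O, ‖bl W φ y z‖ ^ 2 := fun z hz hzO => by
    have h1 : ∏ y ∈ O, (z - y) = (∏ y ∈ O, bl W φ y z) * ∏ y ∈ O, E y z := by
      rw [← Finset.prod_mul_distrib]
      exact Finset.prod_congr rfl fun y _ => (hE' y z hz).2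
    have h4 : ∏ y ∈ O, bl W φ y z ≠ 0 := left_ne_zero_of_mul (h1 ▸
      Finset.prod_ne_zero_iff.mpr fun y hy => sub_ne_zero.mpr (by rintro rfl; exact hzO hy))
    have h5 := hE0 z hz
    rw [Finset.prod_pow, ← norm_prod, ← norm_pow, ← norm_pow, ← norm_mul, ← norm_mul, qd_eq A hzO,
      h1, hPe z hz]
    congr 1
    field_simp
  have hx := h.mψ hp
  set x := ψ p
  obtain ⟨r, hr1, hr⟩ : ∃ r < 1, ∀ z ∈ W, r < ‖φ z‖ → 1 / 4 < ‖β z‖ * ‖bl W φ x z‖ ^ 2 := by
    have h1 := (hβ.mul ((h.bl_tendsto x).pow 2)).eventually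
      (lt_mem_nhds (by norm_num : (1 / 4 : ℝ) < 1 * 1 ^ 2))
    rw [bdry, eventually_inf_principal, eventually_comap, Metric.eventually_nhds_iff] at h1
    obtain ⟨ε, hε, h1⟩ := h1
    refine ⟨1 - ε, by linarith, fun z hz hz' => h1 ?_ z rfl hz⟩
    rw [Real.dist_eq, abs_lt]
    constructor <;> linarith [h.lt hz]
  have hsub : closedBall (0 : ℂ) r ⊆ ball 0 1 := closedBall_subset_ball hr1
  have hK : IsCompact (ψ '' closedBall 0 r) :=
    (isCompact_closedBall 0 r).image_of_continuousOn (h.dψ.continuousOn.mono hsub)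
  have hin : ∀ z ∈ W, z ∉ ψ '' closedBall 0 r → 1 / 4 < ‖β z‖ * ‖bl W φ x z‖ ^ 2 := fun z hz h1 =>
    hr z hz (not_le.mp fun h' => h1 ⟨φ z, mem_closedBall_zero_iff.mpr h', h.left z hz⟩)
  have hκ := kappa_pos
  have main : ‖kappa‖ * ‖s x / (∏ y ∈ O, E y x) * E x x‖ ≤ 4 * σ := by
    refine le_of_forall_pos_le_add fun η hη => ?_
    obtain ⟨χ, hχ, hv⟩ := hcap ((ψ '' closedBall 0 r)ᶜ ∩ (O : Set ℂ)ᶜ)
      (hK.isClosed.isOpen_compl.inter O.finite_toSet.isClosed.isOpen_compl)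
      (fun z hz => ⟨by
        rintro ⟨w, hw, rfl⟩
        rw [hW.frontier_eq] at hz
        exact hz.2 (h.mψ (hsub hw)), fun hO => hdis z hO hz⟩) (η / 4) (by positivity)
    have h1 := pompeiu_bound hW hb hχ (G := fun z => s z / (∏ y ∈ O, E y z) * E x z)
      ((hs.div (DifferentiableOn.fun_finsetProd fun y _ => hE y) hE0).mul (hE x)) (qd_meas O A) hx
      (fun h' => by
        have := hin x hx h'.1
        rw [bl, if_pos hx, mob_self] at this
        norm_num at this)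
      (fun z hz => by
        have h2 := hin z hz.1 hz.2.1
        have h3 : bl W φ x z ≠ 0 := fun h0 => by
          rw [h0] at h2
          norm_num at h2
        have h7 := key z hz.1 hz.2.2
        have h9 : ∏ y ∈ O, ‖bl W φ y z‖ ^ 2 ≤ 1 := Finset.prod_le_one (fun _ _ => sq_nonneg _)
          fun y _ => pow_le_one₀ (norm_nonneg _) (h.bl_le y hz.1)
        rw [show 2 * √‖qd O A z‖ = √(4 * ‖qd O A z‖) by
          rw [Real.sqrt_mul (by norm_num), show (4 : ℝ) = 2 ^ 2 by norm_num,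
            Real.sqrt_sq zero_le_two], (hE' x z hz.1).2, mul_div_mul_right _ _ (hE' x z hz.1).1,
          norm_div]
        refine Real.le_sqrt_of_sq_le ?_
        have h10 := pow_pos (norm_pos_iff.mpr h3) 2
        rw [div_pow, div_le_iff₀ h10]
        nlinarith [mul_le_mul_of_nonneg_left h9 (norm_nonneg (qd O A z)),
          sq_nonneg ‖s z / ∏ y ∈ O, E y z‖])
    have h4 := h1.trans (mul_le_mul_right hv 4)
    rw [show (4 : ℝ≥0∞) = ENNReal.ofReal 4 by simp, ← ENNReal.ofReal_mul (by norm_num),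
      ENNReal.ofReal_le_ofReal_iff (by positivity)] at h4
    linarith
  rw [norm_mul, T76.fac_self hW h hx (hE x) (fun z hz => (hE' x z hz).2), h.right p hp] at main
  have h8 := mul_le_of_le_one_left (sq_nonneg ‖s x / ∏ y ∈ O, E y x‖) (heβ x hx).2.1
  rw [key x hx hpO] at h8
  have h9 : 0 ≤ 1 - ‖p‖ ^ 2 := by nlinarith [norm_nonneg p, mem_ball_zero_iff.mp hp]
  calc _ = ‖qd O A x‖ * (∏ y ∈ O, ‖bl W φ y x‖ ^ 2) *
        (‖kappa‖ * (‖deriv ψ p‖ * (1 - ‖p‖ ^ 2))) ^ 2 := by ring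
    _ ≤ ‖s x / ∏ y ∈ O, E y x‖ ^ 2 * (‖kappa‖ * (‖deriv ψ p‖ * (1 - ‖p‖ ^ 2))) ^ 2 := by gcongr
    _ = (‖kappa‖ * (‖s x / ∏ y ∈ O, E y x‖ * (‖deriv ψ p‖ * (1 - ‖p‖ ^ 2)))) ^ 2 := by ring
    _ ≤ (4 * σ) ^ 2 := by gcongr
    _ = _ := by ring

end Pool.Agent.Lib.MP_c35c17_an.R
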