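import Mathlib
import Pool.Prelude.Def_F_c31e40fa

set_option autoImplicit false

open Filter Topology Set Metric N62a1eb23

namespace Pool.Agent.Lib.MP_c35c17_an

/-- The unicritical polynomial. -/
abbrev F (n : ℕ) (c : ℂ) : ℂ → ℂ := fun z => z ^ n + c

/-- Derivative of the iterates. -/
noncomputable def dF (n : ℕ) (c : ℂ) (k : ℕ) (z : ℂ) : ℂ :=
  ∏ j ∈ Finset.range k, (n : ℂ) * ((F n c)^[j] z) ^ (n - 1)

theorem dF_succ (n : ℕ) (c : ℂ) (k : ℕ) (z : ℂ) :
    dF n c (k + 1) z = (n : ℂ) * ((F n c)^[k] z) ^ (n - 1) * dF n c k z := by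
  rw [dF, Finset.prod_range_succ, mul_comm]; rfl

theorem iter_succ (n : ℕ) (c : ℂ) (k : ℕ) (z : ℂ) :
    (F n c)^[k + 1] z = ((F n c)^[k] z) ^ n + c := Function.iterate_succ_apply' _ _ _

theorem hasDerivAt_iter (n : ℕ) (c : ℂ) (k : ℕ) (z : ℂ) :
    HasDerivAt (F n c)^[k] (dF n c k z) z := by
  induction k with
  | zero => simpa [dF] using hasDerivAt_id z
  | succ k ih =>
    have h : (F n c)^[k + 1] = fun z => ((F n c)^[k] z) ^ n + c := funext (iter_succ n c k)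
    rw [h, dF_succ]
    exact (ih.fun_pow n).add_const c

theorem differentiable_iter (n : ℕ) (c : ℂ) (k : ℕ) : Differentiable ℂ (F n c)^[k] :=
  fun z => (hasDerivAt_iter n c k z).differentiableAt

theorem dF_add (n : ℕ) (c : ℂ) (i k : ℕ) (z : ℂ) :
    dF n c (i + k) z = dF n c k ((F n c)^[i] z) * dF n c i z := by
  induction k with
  | zero => simp [dF]
  | succ k ih =>
    rw [← add_assoc, dF_succ, ih, dF_succ, add_comm i k, Function.iterate_add_apply]
    ring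

theorem escape_step {n : ℕ} (hn : 2 ≤ n) {c z : ℂ} {ρ : ℝ} (hρ : ‖c‖ + 3 ≤ ρ) (hz : ρ ≤ ‖z‖) :
    ‖z‖ ^ 2 / 2 ≤ ‖F n c z‖ := by
  have h0 := norm_nonneg c
  have h1 : ‖z‖ ^ 2 ≤ ‖z‖ ^ n := pow_le_pow_right₀ (by linarith) hn
  have h2 : ‖z ^ n‖ ≤ ‖z ^ n + c‖ + ‖c‖ := by
    simpa using norm_sub_le (z ^ n + c) c
  rw [norm_pow] at h2
  change _ ≤ ‖z ^ n + c‖
  nlinarith

theorem escape_iter {n : ℕ} (hn : 2 ≤ n) {c z : ℂ} {ρ : ℝ} (hρ : ‖c‖ + 3 ≤ ρ) (hz : ρ ≤ ‖z‖)
    (k : ℕ) : ‖z‖ ≤ ‖(F n c)^[k] z‖ ∧ 2 * (3 / 2 : ℝ) ^ (2 ^ k) ≤ ‖(F n c)^[k] z‖ := by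
  have h0 := norm_nonneg c
  induction k with
  | zero => exact ⟨le_rfl, by simp only [pow_zero, pow_one, Function.iterate_zero, id]; linarith⟩
  | succ k ih =>
    have h1 := escape_step hn hρ (hz.trans ih.1)
    rw [Function.iterate_succ_apply']
    have h2 : (0 : ℝ) ≤ 2 * (3 / 2 : ℝ) ^ (2 ^ k) := by positivity
    constructor
    · nlinarith [ih.1]
    · rw [pow_succ 2 k, pow_mul]
      nlinarith [ih.2, mul_self_le_mul_self h2 ih.2]

theorem dbl_tendsto : Tendsto (fun k : ℕ => 2 * (3 / 2 : ℝ) ^ (2 ^ k)) atTop atTop :=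
  ((tendsto_pow_atTop_atTop_of_one_lt (by norm_num)).comp
    (tendsto_pow_atTop_atTop_of_one_lt (by norm_num : 1 < 2))).const_mul_atTop (by norm_num)

theorem escape_tendsto {n : ℕ} (hn : 2 ≤ n) {c z : ℂ} {ρ : ℝ} (hρ : ‖c‖ + 3 ≤ ρ) {j : ℕ}
    (hz : ρ ≤ ‖(F n c)^[j] z‖) : Tendsto (fun k => ‖(F n c)^[k] z‖) atTop atTop := by
  rw [← tendsto_add_atTop_iff_nat j]
  refine tendsto_atTop_mono (fun k => ?_) dbl_tendsto
  rw [Function.iterate_add_apply]
  exact (escape_iter hn hρ hz k).2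

theorem orbit_lt {n : ℕ} (hn : 2 ≤ n) {c : ℂ} (hc : c ∈ multibrotSet n) {ρ : ℝ}
    (hρ : ‖c‖ + 3 ≤ ρ) (k : ℕ) : ‖(F n c)^[k] 0‖ < ρ := by
  by_contra h
  exact hc (tendsto_norm_atTop_iff_cobounded.mp (escape_tendsto hn hρ (not_lt.mp h)))

/-- A very close return of the critical point produces an attracting cycle. -/
theorem attracting_of_close {n : ℕ} (hn : 2 ≤ n) {c : ℂ} {ρ : ℝ} (hρ : 0 ≤ ρ) {k : ℕ} (hk : 0 < k)
    (hb : ∀ j ≤ k, ‖(F n c)^[j] 0‖ ≤ ρ)
    (hc : ‖(F n c)^[k] 0‖ ≤ 1 / (4 * (n * (ρ + 1) ^ (n - 1)) ^ k)) :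
    ∃ z, IsAttractingCycle (F n c) k z := by
  set Λ : ℝ := n * (ρ + 1) ^ (n - 1) with hΛ
  have hn' : (2 : ℝ) ≤ n := by exact_mod_cast hn
  have hΛn : (n : ℝ) ≤ Λ := le_mul_of_one_le_right (by linarith) (one_le_pow₀ (by linarith))
  have hΛ1 : 1 ≤ Λ := by linarith
  have hΛk : 1 ≤ Λ ^ k := one_le_pow₀ hΛ1
  set s : ℝ := 1 / (2 * Λ ^ k) with hs
  have hs0 : 0 < s := by positivity
  have hs1 : s ≤ 1 / 2 := by
    rw [hs]; apply one_div_le_one_div_of_le <;> linarith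
  have hmv : ∀ (j : ℕ) (B : ℝ), (∀ z ∈ closedBall (0 : ℂ) s, ‖dF n c j z‖ ≤ B) →
      ∀ z ∈ closedBall (0 : ℂ) s, ∀ w ∈ closedBall (0 : ℂ) s,
        ‖(F n c)^[j] z - (F n c)^[j] w‖ ≤ B * ‖z - w‖ := fun j B hB z hz w hw =>
    (convex_closedBall 0 s).norm_image_sub_le_of_norm_hasDerivWithin_le
      (fun x _ => (hasDerivAt_iter n c j x).hasDerivWithinAt) hB hw hz
  have key : ∀ j ≤ k, ∀ z ∈ closedBall (0 : ℂ) s, ‖dF n c j z‖ ≤ Λ ^ j ∧
      (0 < j → ‖dF n c j z‖ ≤ s * Λ ^ j) := by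
    intro j
    induction j with
    | zero => intro _ z _; simp [dF]
    | succ j ih =>
      intro hj z hz
      have ih' := ih (by omega)
      have h1 := hmv j _ (fun x hx => (ih' x hx).1) z hz 0 (mem_closedBall_self hs0.le)
      have hz' : ‖z‖ ≤ s := by simpa using hz
      have h2 : Λ ^ j * ‖z - 0‖ ≤ 1 := by
        rw [sub_zero]
        calc Λ ^ j * ‖z‖ ≤ Λ ^ k * s := mul_le_mul (pow_le_pow_right₀ hΛ1 (by omega)) hz'
              (norm_nonneg _) (by positivity)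
          _ = 1 / 2 := by rw [hs]; field_simp
          _ ≤ 1 := by norm_num
      have h3 : ‖(F n c)^[j] z‖ ≤ ρ + 1 := by
        have := norm_le_norm_sub_add ((F n c)^[j] z) ((F n c)^[j] 0)
        linarith [hb j (by omega)]
      have h4 : ‖(n : ℂ) * ((F n c)^[j] z) ^ (n - 1)‖ ≤ Λ := by
        rw [norm_mul, norm_pow, Complex.norm_natCast]
        exact mul_le_mul_of_nonneg_left (pow_le_pow_left₀ (norm_nonneg _) h3 _) (by linarith)
      rw [dF_succ, norm_mul, pow_succ']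
      refine ⟨mul_le_mul h4 (ih' z hz).1 (norm_nonneg _) (by linarith), fun _ => ?_⟩
      rcases Nat.eq_zero_or_pos j with rfl | hj0
      · simp only [dF, Finset.range_zero, Finset.prod_empty, norm_one, mul_one, pow_zero,
          Function.iterate_zero, id, norm_mul, norm_pow, Complex.norm_natCast]
        have : ‖z‖ ^ (n - 1) ≤ s := (pow_le_of_le_one (norm_nonneg _) (by linarith)
          (by omega)).trans hz'
        nlinarith
      · calc _ ≤ Λ * (s * Λ ^ j) := mul_le_mul h4 ((ih' z hz).2 hj0) (norm_nonneg _) (by linarith)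
          _ = _ := by ring
  have hhalf : ∀ z ∈ closedBall (0 : ℂ) s, ‖dF n c k z‖ ≤ 1 / 2 := fun z hz =>
    ((key k le_rfl z hz).2 hk).trans (le_of_eq (by rw [hs]; field_simp))
  have hmaps : MapsTo (F n c)^[k] (closedBall 0 s) (closedBall 0 s) := by
    intro z hz
    have h1 := hmv k _ hhalf z hz 0 (mem_closedBall_self hs0.le)
    have hz' : ‖z‖ ≤ s := by simpa using hz
    have h2 := norm_le_norm_sub_add ((F n c)^[k] z) ((F n c)^[k] 0)
    have h3 : 1 / (4 * Λ ^ k) = s / 2 := by rw [hs]; field_simp; norm_num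
    rw [mem_closedBall_zero_iff]
    rw [sub_zero] at h1
    linarith
  have hcon : ContractingWith (1 / 2) (hmaps.restrict _ _ _) := by
    refine ⟨by norm_num, LipschitzWith.of_dist_le_mul fun x y => ?_⟩
    have := hmv k _ hhalf x x.2 y y.2
    simpa [Subtype.dist_eq, dist_eq_norm] using this
  obtain ⟨y, hy, hfix, -⟩ := ContractingWith.exists_fixedPoint' isClosed_closedBall.isComplete hmaps
    hcon (mem_closedBall_self hs0.le) (edist_ne_top _ _)
  refine ⟨y, hk, hfix, differentiable_iter n c k y, ?_⟩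
  rw [(hasDerivAt_iter n c k y).deriv]
  linarith [hhalf y hy]

/-- Derivative of the critical orbit with respect to the parameter. -/
noncomputable def dP (n : ℕ) (c : ℂ) : ℕ → ℂ
  | 0 => 0
  | k + 1 => (n : ℂ) * ((F n c)^[k] 0) ^ (n - 1) * dP n c k + 1

theorem hasDerivAt_param (n : ℕ) (k : ℕ) (c : ℂ) :
    HasDerivAt (fun l => (F n l)^[k] 0) (dP n c k) c := by
  induction k with
  | zero => simpa [dP] using hasDerivAt_const c (0 : ℂ)
  | succ k ih =>
    simp only [iter_succ, dP]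
    exact (ih.fun_pow n).add (hasDerivAt_id c)

theorem exists_log_ball {g : ℂ → ℂ} (hg : Differentiable ℂ g) {r : ℝ} (hr : 0 < r)
    (h0 : ∀ z ∈ ball (0 : ℂ) r, g z ≠ 0) : ∃ φ : ℂ → ℂ, φ 0 = Complex.log (g 0) ∧
      DifferentiableOn ℂ φ (ball 0 r) ∧ ∀ z ∈ ball (0 : ℂ) r, Complex.exp (φ z) = g z := by
  have hd : DifferentiableOn ℂ (fun z => deriv g z / g z) (ball 0 r) :=
    hg.deriv.differentiableOn.div hg.differentiableOn h0
  obtain ⟨φ, hφ0, hφ⟩ := hd.isExactOn_ball.with_val_at 0 (Complex.log (g 0))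
  refine ⟨φ, hφ0, fun z hz => (hφ z hz).differentiableAt.differentiableWithinAt, fun z hz => ?_⟩
  have hc : ∀ w ∈ ball (0 : ℂ) r, HasDerivAt (fun w => g w * Complex.exp (-φ w)) 0 w := by
    intro w hw
    have h1 := (hg w).hasDerivAt.fun_mul (hφ w hw).fun_neg.cexp
    have h2 := h0 w hw
    have h3 : deriv g w * Complex.exp (-φ w) + g w * (Complex.exp (-φ w) * -(deriv g w / g w)) = 0 := by
      field_simp
      ring
    rwa [h3] at h1
  have h1 := (convex_ball (0 : ℂ) r).norm_image_sub_le_of_norm_hasDerivWithin_le (C := 0)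
    (fun w hw => (hc w hw).hasDerivWithinAt) (fun _ _ => by simp) (mem_ball_self hr) hz
  rw [zero_mul, norm_le_zero_iff, sub_eq_zero, hφ0, Complex.exp_neg, Complex.exp_neg,
    Complex.exp_log (h0 0 (mem_ball_self hr)), mul_inv_cancel₀ (h0 0 (mem_ball_self hr)),
    mul_inv_eq_one₀ (Complex.exp_ne_zero _)] at h1
  exact h1.symm

theorem lin_lt_dbl (A : ℝ) (j : ℕ) : ∃ m : ℕ, A * (m + j + 1) < 2 ^ m * Real.log (3 / 2) := by
  have hl : 0 < Real.log (3 / 2) := Real.log_pos (by norm_num)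
  have h1 := tendsto_pow_const_div_const_pow_of_one_lt 1 (by norm_num : (1 : ℝ) < 2)
  have h0 := tendsto_pow_const_div_const_pow_of_one_lt 0 (by norm_num : (1 : ℝ) < 2)
  have h2 := (h1.add (h0.const_mul ((j : ℝ) + 1))).const_mul A
  simp only [mul_zero, add_zero] at h2
  obtain ⟨m, hm⟩ := (h2.eventually (gt_mem_nhds hl)).exists
  refine ⟨m, ?_⟩
  have hp : (0 : ℝ) < 2 ^ m := by positivity
  rw [pow_one, pow_zero, ← mul_div_assoc, mul_one, ← add_div, ← mul_div_assoc,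
    div_lt_iff₀ hp] at hm
  linarith

/-- Off the closure of the hyperbolic parameters the critical orbit avoids `0` and has bounded
parameter derivative. -/
theorem param_bound {n : ℕ} (hn : 2 ≤ n) {c : ℂ} (hc : c ∈ multibrotSet n)
    (hH : c ∉ closure {c | ∃ m z, IsAttractingCycle (fun z ↦ z ^ n + c) m z}) :
    (∀ k, (F n c)^[k + 1] 0 ≠ 0) ∧ ∃ L : ℝ, ∀ k, ‖dP n c k‖ ≤ L := by
  rw [Metric.mem_closure_iff] at hH
  push Not at hH
  obtain ⟨r₀, hr₀, hH⟩ := hH
  set r := min r₀ 1 with hr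
  have hr0 : 0 < r := lt_min hr₀ one_pos
  set ρ := ‖c‖ + 4 with hρ
  have hρ1 : 1 ≤ ρ := by linarith [norm_nonneg c]
  set Λ : ℝ := n * (ρ + 1) ^ (n - 1) with hΛ
  have hn' : (2 : ℝ) ≤ n := by exact_mod_cast hn
  have hΛ1 : 1 ≤ Λ := by
    have : (1 : ℝ) ≤ (ρ + 1) ^ (n - 1) := one_le_pow₀ (by linarith)
    nlinarith
  have hρu : ∀ u ∈ ball (0 : ℂ) r, ‖c + u‖ + 3 ≤ ρ := by
    intro u hu
    have h1 : ‖u‖ < 1 := (mem_ball_zero_iff.mp hu).trans_le (min_le_right _ _)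
    linarith [norm_add_le c u]
  have hlow : ∀ u ∈ ball (0 : ℂ) r, ∀ k, 1 / (4 * Λ ^ (k + 1)) < ‖(F n (c + u))^[k + 1] 0‖ := by
    intro u hu k
    by_contra hcon
    have hcon := not_lt.mp hcon
    have hle : 1 / (4 * Λ ^ (k + 1)) < ρ := by
      have : 1 ≤ Λ ^ (k + 1) := one_le_pow₀ hΛ1
      rw [div_lt_iff₀ (by positivity)]
      nlinarith
    have hb : ∀ j ≤ k + 1, ‖(F n (c + u))^[j] 0‖ ≤ ρ := by
      intro j hj
      by_contra h
      obtain ⟨i, hi⟩ := Nat.exists_eq_add_of_le' hj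
      have := (escape_iter hn (hρu u hu) (not_le.mp h).le i).1
      rw [← Function.iterate_add_apply, ← hi] at this
      linarith [not_le.mp h]
    obtain ⟨z, hz⟩ := attracting_of_close hn (by linarith) (Nat.succ_pos k) hb hcon
    have := hH (c + u) ⟨_, z, hz⟩
    rw [dist_comm, dist_eq_norm, add_sub_cancel_left] at this
    linarith [(mem_ball_zero_iff.mp hu).trans_le (min_le_left _ _)]
  have hne : ∀ u ∈ ball (0 : ℂ) r, ∀ k, (F n (c + u))^[k + 1] 0 ≠ 0 := by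
    intro u hu k h
    have := hlow u hu k
    rw [h, norm_zero] at this
    have : 0 < 1 / (4 * Λ ^ (k + 1)) := by positivity
    linarith
  have hdiff : ∀ k, Differentiable ℂ fun u => (F n (c + u))^[k] 0 := fun k u =>
    ((hasDerivAt_param n k (c + u)).comp_const_add c u).differentiableAt
  set A : ℝ := 5 * Real.log (4 * Λ) + 3 * (Real.log ρ + Real.pi) with hA
  have hl4 : 0 < Real.log (4 * Λ) := Real.log_pos (by linarith)
  have hlρ : 0 ≤ Real.log ρ := Real.log_nonneg hρ1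
  have hup : ∀ u ∈ closedBall (0 : ℂ) (r / 2), ∀ k,
      ‖(F n (c + u))^[k + 1] 0‖ ≤ Real.exp (A * (k + 1)) := by
    intro u hu k
    obtain ⟨φ, h0, hφ, he⟩ := exists_log_ball (hdiff (k + 1)) hr0 fun z hz => hne z hz k
    have hM : ∀ z ∈ ball (0 : ℂ) r, -(φ z).re ≤ (k + 1) * Real.log (4 * Λ) := by
      intro z hz
      have h1 := hlow z hz k
      rw [← he z hz, Complex.norm_exp] at h1
      have h2 := Real.log_lt_log (by positivity) h1
      rw [Real.log_exp, one_div, Real.log_inv] at h2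
      have h3 : Real.log (4 * Λ ^ (k + 1)) ≤ Real.log ((4 * Λ) ^ (k + 1)) := by
        refine Real.log_le_log (by positivity) ?_
        rw [mul_pow (4 : ℝ) Λ]
        exact mul_le_mul_of_nonneg_right (le_self_pow₀ (by norm_num : (1 : ℝ) ≤ 4) (by omega))
          (by positivity)
      rw [Real.log_pow] at h3
      push_cast at h3
      linarith
    have hu' : ‖u‖ ≤ r / 2 := by simpa using hu
    have hub : u ∈ ball (0 : ℂ) r := by rw [mem_ball_zero_iff]; linarith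
    have hBC := Complex.borelCaratheodory (f := fun z => -φ z) (M := (k + 1) * Real.log (4 * Λ))
      (by positivity) hφ.neg (fun z hz => by simpa using hM z hz) hr0 hub
    have h00 : ‖φ 0‖ ≤ (k + 1) * Real.log (4 * Λ) + (Real.log ρ + Real.pi) := by
      refine (Complex.norm_le_abs_re_add_abs_im _).trans ?_
      have a1 : |(φ 0).im| ≤ Real.pi := by rw [h0, Complex.log_im]; exact Complex.abs_arg_le_pi _
      have a2 := hM 0 (mem_ball_self hr0)
      have a3 : (φ 0).re ≤ Real.log ρ := by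
        rw [h0, Complex.log_re]
        refine Real.log_le_log (norm_pos_iff.mpr (hne 0 (mem_ball_self hr0) k)) ?_
        rw [add_zero]
        exact (orbit_lt hn hc (by linarith) _).le
      have a4 : 0 ≤ (k + 1) * Real.log (4 * Λ) := by positivity
      have : |(φ 0).re| ≤ (k + 1) * Real.log (4 * Λ) + Real.log ρ := abs_le.mpr ⟨by linarith, by linarith⟩
      linarith
    simp only [norm_neg] at hBC
    have hd : 0 < r - ‖u‖ := by linarith
    have b1 : 2 * ((k + 1) * Real.log (4 * Λ)) * ‖u‖ / (r - ‖u‖) ≤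
        2 * ((k + 1) * Real.log (4 * Λ)) := by
      rw [div_le_iff₀ hd]
      gcongr
      linarith
    have b2 : ‖φ 0‖ * (r + ‖u‖) / (r - ‖u‖) ≤ ‖φ 0‖ * 3 := by
      rw [div_le_iff₀ hd, mul_assoc]
      gcongr
      linarith
    rw [← he u hub, Complex.norm_exp]
    refine Real.exp_le_exp.mpr ((Complex.re_le_norm _).trans ?_)
    have hk : (0 : ℝ) ≤ k := Nat.cast_nonneg k
    have := Real.pi_pos
    rw [hA]
    nlinarith
  have hbd : ∀ u ∈ closedBall (0 : ℂ) (r / 2), ∀ k, ‖(F n (c + u))^[k] 0‖ ≤ ρ := by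
    intro u hu j
    by_contra h
    have hub : u ∈ ball (0 : ℂ) r := closedBall_subset_ball (by linarith) hu
    obtain ⟨m, hm⟩ := lin_lt_dbl A j
    have h1 := (escape_iter hn (hρu u hub) (not_le.mp h).le (m + 1)).2
    rw [← Function.iterate_add_apply, show m + 1 + j = (m + j) + 1 by ring] at h1
    have h2 := hup u hu (m + j)
    have h3 : Real.exp (2 ^ m * Real.log (3 / 2)) ≤ 2 * (3 / 2 : ℝ) ^ (2 ^ (m + 1)) := by
      have : Real.exp (2 ^ m * Real.log (3 / 2)) = (3 / 2 : ℝ) ^ (2 ^ m) := by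
        rw [show (2 : ℝ) ^ m = ((2 ^ m : ℕ) : ℝ) by push_cast; ring, Real.exp_nat_mul,
          Real.exp_log (by norm_num)]
      rw [this]
      have h4 : (3 / 2 : ℝ) ^ (2 ^ m) ≤ (3 / 2 : ℝ) ^ (2 ^ (m + 1)) :=
        pow_le_pow_right₀ (by norm_num) (Nat.pow_le_pow_right (by norm_num) (by omega))
      have h5 : (0 : ℝ) ≤ (3 / 2 : ℝ) ^ (2 ^ (m + 1)) := by positivity
      linarith
    push_cast at h2
    have := Real.exp_lt_exp.mpr hm
    linarith
  refine ⟨fun k => by simpa using hne 0 (mem_ball_self hr0) k, ρ / (r / 2), fun k => ?_⟩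
  have h1 := Complex.norm_deriv_le_of_forall_mem_sphere_norm_le (c := 0) (half_pos hr0)
    (hdiff k).diffContOnCl fun z hz => hbd z (sphere_subset_closedBall hz) k
  have h2 : HasDerivAt (fun u => (F n (c + u))^[k] 0) (dP n c k) 0 :=
    HasDerivAt.comp_const_add c 0 (by simpa using hasDerivAt_param n k c)
  rwa [h2.deriv] at h1

end Pool.Agent.Lib.MP_c35c17_an
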