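import Mathlib
import Pool.Agent.Lib.MP_c35c17_an.Dyn

set_option autoImplicit false

open Filter Topology Set Metric MeasureTheory Complex
open scoped ENNReal

namespace Pool.Agent.Lib.MP_c35c17_an

theorem lintegral_image_holo {s : Set ℂ} (hs : MeasurableSet s) {f f' : ℂ → ℂ}
    (hf : ∀ z, HasDerivAt f (f' z) z) (hi : InjOn f s) (g : ℂ → ℝ≥0∞) :
    ∫⁻ x in f '' s, g x = ∫⁻ x in s, ‖f' x ^ 2‖ₑ * g (f x) := by
  rw [lintegral_image_eq_lintegral_abs_det_fderiv_mul volume hs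
    (fun x _ => ((hf x).hasFDerivAt.restrictScalars ℝ).hasFDerivWithinAt) hi]
  refine lintegral_congr fun x => ?_
  congr 1
  rw [← ofReal_norm]
  congr 1
  simp [ContinuousLinearMap.det, LinearMap.det_restrictScalars, Algebra.norm_complex_eq,
    Complex.normSq_eq_norm_sq]

theorem transfer {n : ℕ} (hn : 2 ≤ n) (c : ℂ) {ω : ℂ} (hω : IsPrimitiveRoot ω n) {H G : ℂ → ℂ}
    (hH : Measurable H) (h : ∀ᵐ w, ((n : ℂ) * w ^ (n - 1)) ^ 2 * G (F n c w) =
      ∑ t ∈ Finset.range n, (ω ^ t) ^ 2 * H (ω ^ t * w)) {V : Set ℂ} (hV : MeasurableSet V) :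
    ∫⁻ x in V, ‖G x‖ₑ ≤ ∫⁻ x in F n c ⁻¹' V, ‖H x‖ₑ := by
  have hn0 : n ≠ 0 := by omega
  have hF : Measurable (F n c) := by fun_prop
  set S : Set ℂ := {w | (w ^ n) ^ (n⁻¹ : ℂ) = w} ∩ (F n c ⁻¹' V \ {0}) with hS
  have hSm : MeasurableSet S :=
    (measurableSet_eq_fun (by fun_prop) measurable_id).inter
      ((hF hV).diff (measurableSet_singleton 0))
  have hinj : ∀ w ∈ S, ∀ w' ∈ S, w ^ n = w' ^ n → w = w' := fun w hw w' hw' e => by
    rw [← hw.1, ← hw'.1, e]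
  have himg : V \ {c} ⊆ F n c '' S := by
    intro x hx
    have e : ((x - c) ^ (n⁻¹ : ℂ)) ^ n = x - c := cpow_nat_inv_pow _ hn0
    refine ⟨(x - c) ^ (n⁻¹ : ℂ), ⟨?_, ?_, ?_⟩, ?_⟩
    · simp only [mem_ofPred_eq, e]
    · simpa only [mem_preimage, F, e, sub_add_cancel] using hx.1
    · intro h0
      rw [mem_singleton_iff.mp h0, zero_pow hn0] at e
      exact hx.2 (sub_eq_zero.mp e.symm)
    · simp only [F, e, sub_add_cancel]
  have hn1 : ∀ t, ‖ω ^ t‖ = 1 := fun t => by rw [norm_pow, hω.norm'_eq_one hn0, one_pow]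
  have hne : ∀ t, ω ^ t ≠ 0 := fun t => by rw [← norm_ne_zero_iff, hn1]; norm_num
  have hpow : ∀ t w, (ω ^ t * w) ^ n = w ^ n := fun t w => by
    rw [mul_pow, ← pow_mul, mul_comm t n, pow_mul, hω.pow_eq_one, one_pow, one_mul]
  have hen : ∀ t, ‖(ω ^ t) ^ 2‖ₑ = 1 := fun t => by
    rw [← ofReal_norm, norm_pow, hn1]; simp
  have hrot : ∀ t, ∫⁻ w in S, ‖H (ω ^ t * w)‖ₑ = ∫⁻ x in (fun w => ω ^ t * w) '' S, ‖H x‖ₑ := by
    intro t
    rw [lintegral_image_holo hSm (f' := fun _ => ω ^ t)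
      (fun z => by simpa using (hasDerivAt_id z).const_mul (ω ^ t))
      (mul_right_injective₀ (hne t)).injOn]
    simp only [hen, one_mul]
  have hrm : ∀ t, MeasurableSet ((fun w => ω ^ t * w) '' S) := fun t =>
    (measurableEmbedding_mulLeft₀ (hne t)).measurableSet_image.mpr hSm
  calc ∫⁻ x in V, ‖G x‖ₑ = ∫⁻ x in V \ {c}, ‖G x‖ₑ :=
        (setLIntegral_congr (sdiff_ae_eq_self.mpr
          (measure_mono_null inter_subset_right (measure_singleton c)))).symm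
    _ ≤ ∫⁻ x in F n c '' S, ‖G x‖ₑ := lintegral_mono_set himg
    _ = ∫⁻ w in S, ‖((n : ℂ) * w ^ (n - 1)) ^ 2‖ₑ * ‖G (F n c w)‖ₑ :=
        lintegral_image_holo hSm (fun z => (hasDerivAt_pow n z).add_const c)
          (fun w hw w' hw' e => hinj w hw w' hw' (add_right_cancel e)) _
    _ ≤ ∫⁻ w in S, ∑ t ∈ Finset.range n, ‖H (ω ^ t * w)‖ₑ := by
        refine lintegral_mono_ae (ae_restrict_of_ae (h.mono fun w hw => ?_))
        rw [← enorm_mul, hw]
        refine (enorm_sum_le _ _).trans (le_of_eq (Finset.sum_congr rfl fun t _ => ?_))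
        rw [enorm_mul, hen, one_mul]
    _ = ∑ t ∈ Finset.range n, ∫⁻ x in (fun w => ω ^ t * w) '' S, ‖H x‖ₑ := by
        rw [lintegral_finsetSum _ fun t _ => by fun_prop]
        exact Finset.sum_congr rfl fun t _ => hrot t
    _ = ∫⁻ x in ⋃ t ∈ Finset.range n, (fun w => ω ^ t * w) '' S, ‖H x‖ₑ := by
        refine (lintegral_biUnion_finset ?_ (fun t _ => hrm t) _).symm
        intro t ht t' ht' htt
        refine disjoint_left.mpr ?_
        rintro _ ⟨w, hw, rfl⟩ ⟨w', hw', e⟩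
        have e' : ω ^ t' * w' = ω ^ t * w := e
        have : w = w' := hinj w hw w' hw' (by rw [← hpow t w, ← e', hpow])
        subst this
        exact htt (hω.pow_inj (by simpa using ht) (by simpa using ht')
          (mul_right_cancel₀ hw.2.2 e').symm)
    _ ≤ _ := by
        refine lintegral_mono_set (iUnion₂_subset fun t _ => ?_)
        rintro _ ⟨w, hw, rfl⟩
        have := hw.2.1
        simpa only [mem_preimage, F, hpow] using this

theorem kernel {n : ℕ} (hn : 2 ≤ n) {ω : ℂ} (hω : IsPrimitiveRoot ω n) {w a : ℂ}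
    (h : w ^ n ≠ a ^ n) : ∑ t ∈ Finset.range n, (ω ^ t) ^ 2 * (ω ^ t * w - a)⁻¹ =
      n * a * w ^ (n - 2) / (w ^ n - a ^ n) := by
  have hpow : ∀ t, (ω ^ t * w) ^ n = w ^ n := fun t => by
    rw [mul_pow, ← pow_mul, mul_comm t n, pow_mul, hω.pow_eq_one, one_pow, one_mul]
  have h0 : w ^ n - a ^ n ≠ 0 := sub_ne_zero.mpr h
  have e : ∀ t, (ω ^ t) ^ 2 * (ω ^ t * w - a)⁻¹ = (∑ l ∈ Finset.range n,
      (ω ^ (l + 2)) ^ t * (w ^ l * a ^ (n - 1 - l))) / (w ^ n - a ^ n) := by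
    intro t
    have h1 := geom_sum₂_mul (ω ^ t * w) a n
    rw [hpow] at h1
    have h2 : ω ^ t * w - a ≠ 0 := fun h2 => h0 (by rw [← h1, h2, mul_zero])
    rw [eq_div_iff h0, ← h1, mul_assoc, mul_comm _ (ω ^ t * w - a), inv_mul_cancel_left₀ h2,
      Finset.mul_sum]
    exact Finset.sum_congr rfl fun l _ => by ring
  simp only [e]
  rw [← Finset.sum_div, Finset.sum_comm, Finset.sum_eq_single (n - 2)]
  · rw [← Finset.sum_mul, Nat.sub_add_cancel hn, hω.pow_eq_one,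
      show n - 1 - (n - 2) = 1 by omega]
    simp only [one_pow, Finset.sum_const, Finset.card_range, nsmul_eq_mul, mul_one, pow_one]
    ring
  · intro l hl hl'
    have hl := Finset.mem_range.mp hl
    have h1 : ω ^ (l + 2) ≠ 1 := by
      rw [Ne, hω.pow_eq_one_iff_dvd]
      rintro ⟨q, hq⟩
      rcases q with _ | _ | q
      · omega
      · omega
      · nlinarith
    rw [← Finset.sum_mul, geom_sum_eq h1, ← pow_mul, mul_comm (l + 2), pow_mul, hω.pow_eq_one]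
    simp
  · intro h1
    exact absurd (Finset.mem_range.mpr (by omega)) h1

/-- The orbit of the critical value. -/
noncomputable def orb (n : ℕ) (c : ℂ) (k : ℕ) : ℂ := (F n c)^[k] c

/-- The inverse derivatives along the orbit of the critical value. -/
noncomputable def al (n : ℕ) (c : ℂ) (k : ℕ) : ℂ := (dF n c k c)⁻¹

/-- The Cauchy transform of the weighted orbit. -/
noncomputable def HN (n : ℕ) (c : ℂ) (N : ℕ) (x : ℂ) : ℂ :=
  ∑ k ∈ Finset.range (N + 1), al n c k * (x - orb n c k)⁻¹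

theorem orb_succ (n : ℕ) (c : ℂ) (k : ℕ) : orb n c (k + 1) = orb n c k ^ n + c := iter_succ n c k c

theorem orb_eq {n : ℕ} (hn : 2 ≤ n) (c : ℂ) (k : ℕ) : orb n c k = (F n c)^[k + 1] 0 := by
  rw [Function.iterate_succ_apply, orb, F, zero_pow (by omega), zero_add]

theorem al_succ (n : ℕ) (c : ℂ) (k : ℕ) :
    al n c (k + 1) = al n c k * ((n : ℂ) * orb n c k ^ (n - 1))⁻¹ := by
  rw [al, dF_succ, mul_inv, mul_comm]; rfl

theorem sum_al {n : ℕ} (hn : 2 ≤ n) {c : ℂ} (h0 : ∀ k, orb n c k ≠ 0) (k : ℕ) :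
    ∑ j ∈ Finset.range (k + 1), al n c j = al n c k * dP n c (k + 1) := by
  induction k with
  | zero => simp [al, dP, dF]
  | succ k ih =>
    have : (n : ℂ) ≠ 0 := by exact_mod_cast (by omega : n ≠ 0)
    have e : dP n c (k + 1 + 1) = n * orb n c k ^ (n - 1) * dP n c (k + 1) + 1 := by
      rw [orb_eq hn]; rfl
    rw [Finset.sum_range_succ, ih, e, al_succ]
    have := h0 k
    field_simp

theorem inv_int (R : ℝ) : ∫⁻ z in ball (0 : ℂ) R, ‖z⁻¹‖ₑ < ⊤ :=
  (integrableOn_ball_of_norm_le_rpow (μ := volume) (f := fun z : ℂ => z⁻¹) (C := 1) (α := 1)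
    (r := R) (by simp) (by simp) (Eventually.of_forall fun z => by simp [Real.rpow_neg_one])
    (by fun_prop)).2

theorem inv_int_le {ρ : ℝ} {a : ℂ} (ha : ‖a‖ ≤ ρ) {V : Set ℂ} (hV : V ⊆ ball 0 (2 * ρ)) :
    ∫⁻ z in V, ‖(z - a)⁻¹‖ₑ ≤ ∫⁻ z in ball (0 : ℂ) (3 * ρ), ‖z⁻¹‖ₑ := by
  have h1 : V ⊆ (fun z => z - a) ⁻¹' ball 0 (3 * ρ) := fun z hz => by
    have := mem_ball_zero_iff.mp (hV hz)
    rw [mem_preimage, mem_ball_zero_iff]
    linarith [norm_sub_le z a]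
  refine (lintegral_mono_set h1).trans (le_of_eq ?_)
  exact (measurePreserving_sub_right volume a).setLIntegral_comp_preimage measurableSet_ball
    (f := fun z : ℂ => ‖z⁻¹‖ₑ) (by fun_prop)

theorem area_bound {n : ℕ} (hn : 2 ≤ n) {c : ℂ} (h0 : ∀ k, orb n c k ≠ 0) {ρ L : ℝ}
    (hρ : ∀ k, ‖orb n c k‖ ≤ ρ) (hL : ∀ k, ‖dP n c k‖ ≤ L) : ∃ C : ℝ, 0 ≤ C ∧ ∀ (N : ℕ) (V : Set ℂ),
      MeasurableSet V → V ⊆ ball 0 (2 * ρ) → F n c ⁻¹' V ⊆ V →
      ∫⁻ x in V \ F n c ⁻¹' V, ‖HN n c N x‖ₑ ≤ ENNReal.ofReal (C * ‖al n c (N + 1)‖) := by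
  set I₀ := ∫⁻ z in ball (0 : ℂ) (3 * ρ), ‖z⁻¹‖ₑ with hI₀
  have hI : I₀ ≠ ⊤ := (inv_int _).ne
  have hL0 : 0 ≤ L := (norm_nonneg _).trans (hL 0)
  refine ⟨(1 + L) * I₀.toReal, by positivity, fun N V hV hVb hVF => ?_⟩
  have hn0 : n ≠ 0 := by omega
  have hnc : (n : ℂ) ≠ 0 := by exact_mod_cast hn0
  have hω := Complex.isPrimitiveRoot_exp n hn0
  set ω := Complex.exp (2 * Real.pi * I / n)
  set G : ℂ → ℂ := fun x => ∑ k ∈ Finset.range (N + 1),
    al n c (k + 1) * ((x - orb n c (k + 1))⁻¹ - (x - c)⁻¹) with hG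
  have hHm : Measurable (HN n c N) := by unfold HN; fun_prop
  have hfin : ∀ y : ℂ, ∀ᵐ w : ℂ, w ^ n ≠ y := fun y => by
    refine compl_mem_ae_iff.mpr (Set.Finite.measure_zero (s := {w : ℂ | w ^ n = y}) ?_ _)
    exact (Polynomial.nthRoots n y).toFinset.finite_toSet.subset fun w hw => by
      simpa [Polynomial.mem_nthRoots (Nat.pos_of_ne_zero hn0)] using hw
  have ht := transfer hn c hω hHm (G := G) (by
    filter_upwards [hfin 0, ae_all_iff.mpr fun k => hfin (orb n c k ^ n)] with w hw hw'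
    simp only [hG, HN, Finset.mul_sum]
    rw [Finset.sum_comm]
    refine Finset.sum_congr rfl fun k _ => ?_
    have := kernel hn hω (hw' k)
    simp only [mul_left_comm _ (al n c k)]
    rw [← Finset.mul_sum, this, orb_succ, al_succ, add_sub_add_right_eq_sub, add_sub_cancel_right]
    obtain ⟨m, rfl⟩ := Nat.exists_eq_add_of_le' hn
    have h1 := h0 k
    have h2 := sub_ne_zero.mpr (hw' k)
    have h3 : w ≠ 0 := fun h => hw (by rw [h]; simp)
    rw [show m + 2 - 1 = m + 1 by omega, show m + 2 - 2 = m by omega]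
    field_simp
    ring) hV
  have hdec : ∀ x, HN n c N x = G x + (-al n c (N + 1) * (x - orb n c (N + 1))⁻¹ +
      al n c (N + 1) * dP n c (N + 2) * (x - c)⁻¹) := by
    intro x
    have e1 := Finset.sum_range_succ' (fun k => al n c k * (x - orb n c k)⁻¹) (N + 1)
    rw [Finset.sum_range_succ] at e1
    have e2 := Finset.sum_range_succ' (fun k => al n c k) (N + 1)
    rw [sum_al hn h0] at e2
    simp only [hG, HN, mul_sub, Finset.sum_sub_distrib, ← Finset.sum_mul]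
    have e3 : orb n c 0 = c := rfl
    rw [e3] at e1
    rw [e2]
    linear_combination e1
  have hc : ‖c‖ ≤ ρ := hρ 0
  have hb : ∀ (β a : ℂ), ‖a‖ ≤ ρ → ∀ W ⊆ V, ∫⁻ x in W, ‖β * (x - a)⁻¹‖ₑ ≤ ‖β‖ₑ * I₀ := by
    intro β a ha W hW
    simp only [enorm_mul]
    rw [lintegral_const_mul _ (by fun_prop)]
    exact mul_le_mul_right (inv_int_le ha (hW.trans hVb)) _
  have hU : ∫⁻ x in F n c ⁻¹' V, ‖HN n c N x‖ₑ ≠ ⊤ := by
    refine ne_top_of_le_ne_top (b := ∑ k ∈ Finset.range (N + 1), ‖al n c k‖ₑ * I₀)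
      (ENNReal.sum_ne_top.mpr fun k _ => ENNReal.mul_ne_top enorm_ne_top hI) ?_
    refine (lintegral_mono fun x => enorm_sum_le _ _).trans ?_
    rw [lintegral_finsetSum _ fun k _ => by fun_prop]
    exact Finset.sum_le_sum fun k _ => hb _ _ (hρ k) _ hVF
  have hF : Measurable (F n c) := by fun_prop
  have h1 := lintegral_inter_add_sdiff (μ := volume) (fun x => ‖HN n c N x‖ₑ) V (hF hV)
  rw [inter_eq_right.mpr hVF] at h1
  have h2 : ∫⁻ x in V, ‖HN n c N x‖ₑ ≤ (∫⁻ x in V, ‖G x‖ₑ) + (‖-al n c (N + 1)‖ₑ * I₀ +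
      ‖al n c (N + 1) * dP n c (N + 2)‖ₑ * I₀) := by
    calc _ ≤ ∫⁻ x in V, ‖G x‖ₑ + (‖-al n c (N + 1) * (x - orb n c (N + 1))⁻¹‖ₑ +
          ‖al n c (N + 1) * dP n c (N + 2) * (x - c)⁻¹‖ₑ) := lintegral_mono fun x => by
          rw [hdec]
          exact (enorm_add_le _ _).trans (add_le_add_right (enorm_add_le _ _) _)
      _ ≤ _ := by
          rw [lintegral_add_right _ (by fun_prop), lintegral_add_right _ (by fun_prop)]
          exact add_le_add_right (add_le_add (hb _ _ (hρ _) _ subset_rfl)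
            (hb _ _ hc _ subset_rfl)) _
  rw [← h1] at h2
  refine ((ENNReal.add_le_add_iff_left hU).mp (h2.trans (add_le_add_left ht _))).trans ?_
  rw [← add_mul, ← ENNReal.ofReal_toReal hI, ← ofReal_norm, ← ofReal_norm,
    ← ENNReal.ofReal_add (norm_nonneg _) (norm_nonneg _),
    ← ENNReal.ofReal_mul (by positivity), ENNReal.toReal_ofReal ENNReal.toReal_nonneg]
  refine ENNReal.ofReal_le_ofReal ?_
  rw [norm_neg, norm_mul]
  have := mul_le_mul_of_nonneg_left (hL (N + 2)) (norm_nonneg (al n c (N + 1)))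
  have h3 : 0 ≤ I₀.toReal := ENNReal.toReal_nonneg
  nlinarith

end Pool.Agent.Lib.MP_c35c17_an
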