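import Mathlib

set_option autoImplicit false

open Filter Topology Set Metric MeasureTheory Complex

namespace Pool.Agent.Lib.MP_c35c17_an

/-- Twice the Wirtinger derivative. -/
noncomputable def dbar (χ : ℂ → ℂ) (z : ℂ) : ℂ := fderiv ℝ χ z 1 + I * fderiv ℝ χ z I

theorem integrable_of_supp {K : Set ℂ} (hK : IsCompact K) {φ : ℂ → ℂ} (hc : ContinuousOn φ K)
    (h0 : ∀ z ∉ K, φ z = 0) : Integrable φ :=
  (integrableOn_iff_integrable_of_support_subset (s := K)
    (fun z hz => by_contra fun h => hz (h0 z h))).mp (hc.integrableOn_compact hK)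

theorem fderiv_real_holo {h : ℂ → ℂ} {z : ℂ} (hh : DifferentiableAt ℂ h z) (v : ℂ) :
    fderiv ℝ h z v = v * deriv h z := by
  rw [(hh.hasDerivAt.hasFDerivAt.restrictScalars ℝ).fderiv]
  simp

theorem stokes {V : Set ℂ} (hV : IsOpen V) {χ : ℂ → ℂ} (hχ : ContDiff ℝ 1 χ)
    (hs : HasCompactSupport χ) (hsV : tsupport χ ⊆ V) {h : ℂ → ℂ} (hh : DifferentiableOn ℂ h V) :
    Integrable (fun z => dbar χ z * h z) ∧ ∫ z, dbar χ z * h z = 0 := by
  have hd : ∀ z ∈ tsupport χ, DifferentiableAt ℂ h z := fun z hz =>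
    hh.differentiableAt (hV.mem_nhds (hsV hz))
  have hc : ContinuousOn h (tsupport χ) := hh.continuousOn.mono hsV
  have hc' : ContinuousOn (deriv h) (tsupport χ) := (hh.deriv hV).continuousOn.mono hsV
  have hz0 : ∀ z ∉ tsupport χ, χ z = 0 := fun z hz => image_eq_zero_of_notMem_tsupport hz
  have hz1 : ∀ z ∉ tsupport χ, fderiv ℝ χ z = 0 := fun z hz =>
    image_eq_zero_of_notMem_tsupport fun h => hz (tsupport_fderiv_subset ℝ h)
  have hcf : ∀ v, Continuous fun z => fderiv ℝ χ z v := fun v =>
    (hχ.continuous_fderiv one_ne_zero).clm_apply continuous_const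
  have i1 : ∀ v, Integrable fun z => fderiv ℝ χ z v * h z := fun v =>
    integrable_of_supp hs ((hcf v).continuousOn.mul hc) fun z hz => by simp [hz1 z hz]
  have e2 : ∀ v z, χ z * fderiv ℝ h z v = v * (χ z * deriv h z) := by
    intro v z
    by_cases hz : z ∈ tsupport χ
    · rw [fderiv_real_holo (hd z hz)]; ring
    · simp [hz0 z hz]
  have i2 : Integrable fun z => χ z * deriv h z :=
    integrable_of_supp hs (hχ.continuous.continuousOn.mul hc') fun z hz => by simp [hz0 z hz]
  have i3 : Integrable fun z => χ z * h z :=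
    integrable_of_supp hs (hχ.continuous.continuousOn.mul hc) fun z hz => by simp [hz0 z hz]
  have key : ∀ v, ∫ z, fderiv ℝ χ z v * h z = -(v * ∫ z, χ z * deriv h z) := by
    intro v
    have := integral_mul_fderiv_eq_neg_fderiv_mul_of_integrable (μ := volume) (f := χ) (g := h)
      (v := v) (i1 v) (by simp only [e2]; exact i2.const_mul v) i3
      (fun z _ => hχ.differentiable one_ne_zero z) (fun z hz => (hd z hz).restrictScalars ℝ)
    simp only [e2, integral_const_mul] at this
    rw [this, neg_neg]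
  have e3 : (fun z => dbar χ z * h z) =
      fun z => fderiv ℝ χ z 1 * h z + I * (fderiv ℝ χ z I * h z) := by
    funext z; simp only [dbar]; ring
  rw [e3]
  refine ⟨(i1 1).add ((i1 I).const_mul I), ?_⟩
  rw [integral_add (i1 1) ((i1 I).const_mul I), integral_const_mul, key, key]
  linear_combination (-∫ z, χ z * deriv h z) * I_mul_I

/-- A radial cutoff. -/
noncomputable def theta (z : ℂ) : ℂ := (Real.smoothTransition (3 - normSq z) : ℝ)

theorem normSq_contDiff : ContDiff ℝ 1 fun z : ℂ => normSq z := by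
  simp only [normSq_apply]
  exact (reCLM.contDiff.mul reCLM.contDiff).add (imCLM.contDiff.mul imCLM.contDiff)

theorem theta_contDiff : ContDiff ℝ 1 theta :=
  ofRealCLM.contDiff.comp (Real.smoothTransition.contDiff.comp (contDiff_const.sub normSq_contDiff))

theorem theta_one {z : ℂ} (hz : ‖z‖ ^ 2 ≤ 2) : theta z = 1 := by
  rw [theta, Real.smoothTransition.one_of_one_le (by rw [normSq_eq_norm_sq]; linarith)]; simp

theorem theta_zero {z : ℂ} (hz : 3 ≤ ‖z‖ ^ 2) : theta z = 0 := by
  rw [theta, Real.smoothTransition.zero_of_nonpos (by rw [normSq_eq_norm_sq]; linarith)]; simp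

theorem theta_supp : HasCompactSupport theta :=
  HasCompactSupport.intro (isCompact_closedBall 0 2) fun z hz => theta_zero (by
    rw [mem_closedBall_zero_iff, not_le] at hz
    nlinarith)

theorem dbar_theta (z : ℂ) :
    dbar theta z = -2 * (deriv Real.smoothTransition (3 - normSq z) : ℝ) * z := by
  have h1 : HasFDerivAt (fun z : ℂ => normSq z)
      (z.re • reCLM + z.re • reCLM + (z.im • imCLM + z.im • imCLM)) z := by
    simp only [normSq_apply]
    exact (reCLM.hasFDerivAt.mul reCLM.hasFDerivAt).add (imCLM.hasFDerivAt.mul imCLM.hasFDerivAt)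
  have h2 := (Real.smoothTransition.contDiff (n := 1).differentiable one_ne_zero
    (3 - normSq z)).hasDerivAt.comp_hasFDerivAt z (h1.const_sub 3)
  have h3 : HasFDerivAt theta _ z := ofRealCLM.hasFDerivAt.comp z h2
  rw [dbar, h3.fderiv]
  generalize deriv Real.smoothTransition (3 - normSq z) = d
  simp
  conv_rhs => rw [← re_add_im z]
  ring

theorem deriv_st_zero {t : ℝ} (ht : t < 0) : deriv Real.smoothTransition t = 0 := by
  have : Real.smoothTransition =ᶠ[𝓝 t] fun _ => 0 :=
    (gt_mem_nhds ht).mono fun s hs => Real.smoothTransition.zero_of_nonpos hs.le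
  rw [this.deriv_eq]; simp

/-- The constant in the Cauchy-Pompeiu formula. -/
noncomputable def kappa : ℂ := ∫ z, dbar theta z * z⁻¹

theorem kappa_spec : Integrable (fun z => dbar theta z * z⁻¹) ∧ kappa ≠ 0 := by
  set φ : ℂ → ℝ := fun z => deriv Real.smoothTransition (3 - normSq z) with hφ
  have hc : Continuous φ :=
    (Real.smoothTransition.contDiff (n := 1).continuous_deriv le_rfl).comp
      (continuous_const.sub continuous_normSq)
  have hs : HasCompactSupport φ := HasCompactSupport.intro (isCompact_closedBall 0 2) fun z hz => by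
    rw [mem_closedBall_zero_iff, not_le] at hz
    exact deriv_st_zero (by rw [normSq_eq_norm_sq]; nlinarith)
  have hae : (fun z => dbar theta z * z⁻¹) =ᵐ[volume] fun z => -2 * (φ z : ℂ) := by
    filter_upwards [compl_mem_ae_iff.mpr (measure_singleton (0 : ℂ))] with z hz
    rw [dbar_theta, mul_assoc, mul_inv_cancel₀ hz, mul_one]
  have hi : Integrable φ := hc.integrable_of_hasCompactSupport hs
  refine ⟨(integrable_congr hae).mpr (hi.ofReal.const_mul _), ?_⟩
  obtain ⟨t, ht, hdt⟩ := exists_deriv_eq_slope Real.smoothTransition (by norm_num : (0 : ℝ) < 1)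
    Real.smoothTransition.continuous.continuousOn
    (Real.smoothTransition.contDiff (n := 1).differentiable one_ne_zero).differentiableOn
  have hpos : 0 < ∫ z, φ z := hc.integral_pos_of_hasCompactSupport_nonneg_nonzero hs
    (fun z => Real.smoothTransition.monotone.deriv_nonneg) (x := (Real.sqrt (3 - t) : ℝ)) (by
      simp only [hφ, normSq_ofReal]
      rw [Real.mul_self_sqrt (by linarith [ht.2]), sub_sub_cancel, hdt]
      simp)
  rw [kappa, integral_congr_ae hae, integral_const_mul, integral_complex_ofReal]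
  exact mul_ne_zero (by norm_num) (by exact_mod_cast hpos.ne')

theorem dbar_of_eventually_const {χ : ℂ → ℂ} {a w : ℂ} (ha : ∀ᶠ z in 𝓝 a, χ z = w) :
    dbar χ a = 0 := by
  have : χ =ᶠ[𝓝 a] fun _ => w := ha
  simp [dbar, this.fderiv_eq]

theorem cauchy_pompeiu {V : Set ℂ} (hV : IsOpen V) {χ : ℂ → ℂ} (hχ : ContDiff ℝ 1 χ)
    (hs : HasCompactSupport χ) (hsV : tsupport χ ⊆ V) {g : ℂ → ℂ} (hg : DifferentiableOn ℂ g V)
    {a : ℂ} (haV : a ∈ V) (ha : ∀ᶠ z in 𝓝 a, χ z = 1) :
    Integrable (fun z => dbar χ z * (g z / (z - a))) ∧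
      ∫ z, dbar χ z * (g z / (z - a)) = kappa * g a := by
  obtain ⟨i1, e1⟩ := stokes hV hχ hs hsV
    ((differentiableOn_dslope (hV.mem_nhds haV)).mpr hg)
  have hθ : ContDiff ℝ 1 fun z => theta (z - a) :=
    theta_contDiff.comp (contDiff_id.sub contDiff_const)
  have hθs : HasCompactSupport fun z => theta (z - a) :=
    theta_supp.comp_homeomorph (Homeomorph.subRight a)
  have hθ1 : ∀ᶠ z in 𝓝 a, theta (z - a) = 1 := by
    filter_upwards [ball_mem_nhds a one_pos] with z hz
    rw [mem_ball, dist_eq_norm] at hz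
    exact theta_one (by nlinarith [norm_nonneg (z - a)])
  obtain ⟨i2, e2⟩ := stokes (V := {a}ᶜ) isOpen_compl_singleton (χ := fun z => χ z - theta (z - a))
    (hχ.sub hθ) (hs.sub hθs) (by
      intro z hz hza
      rw [mem_singleton_iff.mp hza] at hz
      refine notMem_tsupport_iff_eventuallyEq.mpr ?_ hz
      filter_upwards [ha, hθ1] with w h1 h2
      simp [h1, h2]) (h := fun z => (z - a)⁻¹)
    ((differentiableOn_id.sub_const a).inv fun z hz => sub_ne_zero.mpr hz)
  have i3 := kappa_spec.1.comp_sub_right a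
  have e3 : ∫ z, dbar theta (z - a) * (z - a)⁻¹ = kappa :=
    integral_sub_right_eq_self (fun z => dbar theta z * z⁻¹) a
  have e : (fun z => dbar χ z * (g z / (z - a))) = fun z => dbar χ z * dslope g a z +
      (g a * (dbar (fun z => χ z - theta (z - a)) z * (z - a)⁻¹) +
        g a * (dbar theta (z - a) * (z - a)⁻¹)) := by
    funext z
    rcases eq_or_ne z a with rfl | hz
    · simp [dbar_of_eventually_const ha]
    · have : dbar (fun z => χ z - theta (z - a)) z = dbar χ z - dbar theta (z - a) := by
        simp only [dbar]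
        rw [fderiv_fun_sub (hχ.differentiable one_ne_zero z) (hθ.differentiable one_ne_zero z),
          fderiv_comp_sub]
        simp only [sub_apply]
        ring
      rw [this, dslope_of_ne _ hz, slope_def_field]
      field_simp
      ring
  rw [e]
  have i4 : Integrable fun z => g a * (dbar (fun z => χ z - theta (z - a)) z * (z - a)⁻¹) +
      g a * (dbar theta (z - a) * (z - a)⁻¹) := (i2.const_mul _).add (i3.const_mul _)
  refine ⟨i1.add i4, ?_⟩
  rw [integral_add i1 i4,
    integral_add (i2.const_mul _) (i3.const_mul _), integral_const_mul, integral_const_mul, e1, e2,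
    e3]
  ring

end Pool.Agent.Lib.MP_c35c17_an
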