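import Mathlib

set_option autoImplicit false

open Filter Topology Set Metric Complex

namespace Pool.Agent.Lib.MP_c35c17_an

theorem exists_far {P : ℂ → ℂ} (hP : Differentiable ℂ P) {R : ℝ} {b : ℂ} (hb : R < ‖P b‖) {r : ℝ}
    (hr : 0 < r) : ∃ β, 5 / 6 * r ≤ ‖β - b‖ ∧ JoinedIn ({z | R < ‖P z‖} ∩ ball b r) b β := by
  set T : Set ℂ := {z | R < ‖P z‖} ∩ ball b r with hT
  have hTo : IsOpen T := (isOpen_lt continuous_const hP.continuous.norm).inter isOpen_ball
  have hbT : b ∈ T := ⟨hb, mem_ball_self hr⟩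
  set W := connectedComponentIn T b with hW
  have hWo : IsOpen W := hTo.connectedComponentIn
  have hbW : b ∈ W := mem_connectedComponentIn hbT
  have hWp : IsPathConnected W :=
    hWo.isConnected_iff_isPathConnected.mp ⟨⟨b, hbW⟩, isPreconnected_connectedComponentIn⟩
  by_contra hcon
  push Not at hcon
  have hsub : W ⊆ closedBall b (5 / 6 * r) := fun z hz => by
    rw [mem_closedBall, dist_eq_norm]
    by_contra h
    exact hcon z (not_le.mp h).le
      ((hWp.joinedIn b hbW z hz).mono (connectedComponentIn_subset _ _))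
  have := norm_le_of_forall_mem_frontier_norm_le (isBounded_closedBall.subset hsub)
    hP.diffContOnCl (C := R) (fun z hz => ?_) (subset_closure hbW)
  · linarith
  rw [hWo.frontier_eq] at hz
  by_contra h
  have hzT : z ∈ T := ⟨not_le.mp h, closedBall_subset_ball (by linarith)
    (closure_minimal hsub isClosed_closedBall hz.1)⟩
  obtain ⟨y, hy1, hy2⟩ := mem_closure_iff.mp hz.1 _ hTo.connectedComponentIn
    (mem_connectedComponentIn hzT)
  refine hz.2 ?_
  rw [hW, connectedComponentIn_eq hy2, ← connectedComponentIn_eq hy1]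
  exact mem_connectedComponentIn hzT

theorem differentiableAt_of_exp {ℓ q : ℂ → ℂ} {z : ℂ} (hℓ : ContinuousAt ℓ z)
    (hq : DifferentiableAt ℂ q z) (he : ∀ᶠ w in 𝓝 z, exp (ℓ w) = q w) :
    DifferentiableAt ℂ ℓ z := by
  have hz : exp (ℓ z) = q z := he.self_of_nhds
  have h0 : q z ≠ 0 := hz ▸ exp_ne_zero _
  have h1 : DifferentiableAt ℂ (fun w => ℓ z + log (q w / q z)) z :=
    ((hq.div_const _).clog (by simp [h0])).const_add _
  refine h1.congr_of_eventuallyEq ?_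
  have h2 : ∀ᶠ w in 𝓝 z, ℓ w ∈ ball (ℓ z) Real.pi := hℓ (ball_mem_nhds _ Real.pi_pos)
  filter_upwards [he, h2] with w hw hw2
  rw [mem_ball, dist_eq_norm] at hw2
  have := abs_lt.mp ((abs_im_le_norm _).trans_lt hw2)
  rw [← hw, ← hz, ← exp_sub, log_exp this.1 this.2.le]
  ring

theorem exists_branch {V : Set ℂ} (hV : IsOpen V) {b β : ℂ} {r : ℝ} (γ : Path b β)
    (hγ : ∀ t, γ t ∉ V ∧ γ t ∈ ball b r) : ∃ e : ℂ → ℂ, DifferentiableOn ℂ e V ∧
      (∀ z ∈ V, e z ^ 2 = (z - β) / (z - b)) ∧ ∀ z ∈ V, r ≤ ‖z - b‖ → 0 ≤ (e z).re := by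
  classical
  have hne : ∀ (t : unitInterval) (z : V), (z : ℂ) - γ t ≠ 0 := fun t z h =>
    (hγ t).1 (sub_eq_zero.mp h ▸ z.2)
  have hb : ∀ z : V, (z : ℂ) - b ≠ 0 := fun z => by simpa using hne 0 z
  let H : C(unitInterval × V, {z : ℂ // z ≠ 0}) :=
    ⟨fun p => ⟨((p.2 : ℂ) - γ p.1) / (p.2 - b), div_ne_zero (hne _ _) (hb _)⟩,
      Continuous.subtype_mk (Continuous.div (by fun_prop) (by fun_prop) fun p => hb _) _⟩
  have H0 : ∀ a : V, H (0, a) = (fun z : ℂ => (⟨_, z.exp_ne_zero⟩ : {z : ℂ // z ≠ 0}))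
      ((ContinuousMap.const V (0 : ℂ)) a) := fun a => Subtype.ext (by simp [H, hb a])
  set L := isCoveringMap_exp.liftHomotopy H (ContinuousMap.const V 0) H0 with hL
  have hl : ∀ t (z : V), exp (L (t, z)) = ((z : ℂ) - γ t) / (z - b) := fun t z =>
    congrArg Subtype.val (congrFun (isCoveringMap_exp.liftHomotopy_lifts H _ H0) (t, z))
  let ℓ : ℂ → ℂ := fun z => if h : z ∈ V then L (1, ⟨z, h⟩) else 0
  have hℓ : ∀ z (h : z ∈ V), ℓ z = L (1, ⟨z, h⟩) := fun z h => dif_pos h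
  have hℓc : ContinuousOn ℓ V := by
    rw [continuousOn_iff_continuous_domRestrict]
    have : V.domRestrict ℓ = fun z => L (1, z) := funext fun z => hℓ z z.2
    rw [this]
    fun_prop
  have hℓe : ∀ z ∈ V, exp (ℓ z) = (z - β) / (z - b) := fun z h => by
    rw [hℓ z h, hl]; simp
  refine ⟨fun z => exp (ℓ z / 2), fun z hz => ?_, fun z hz => ?_, fun z hz hr => ?_⟩
  · refine ((differentiableAt_of_exp (hℓc.continuousAt (hV.mem_nhds hz))
      (q := fun z => (z - β) / (z - b)) ?_ ?_).div_const 2).cexp.differentiableWithinAt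
    · exact (differentiableAt_id.sub_const β).div (differentiableAt_id.sub_const b) (hb ⟨z, hz⟩)
    · filter_upwards [hV.mem_nhds hz] with w hw using hℓe w hw
  · rw [← hℓe z hz, sq, ← exp_add, add_halves]
  · have hs : ∀ t, (z - γ t) / (z - b) ∈ slitPlane := fun t => by
      have h1 := hb ⟨z, hz⟩
      have : (z - γ t) / (z - b) = 1 + -(γ t - b) / (z - b) := by
        simp only at h1
        field_simp
        ring
      rw [this]
      refine mem_slitPlane_of_norm_lt_one ?_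
      rw [norm_div, norm_neg, div_lt_one (norm_pos_iff.mpr h1)]
      exact (mem_ball_iff_norm.mp (hγ t).2).trans_le hr
    have h2 := isCoveringMap_exp.eq_of_comp_eq (g₁ := fun t => L (t, ⟨z, hz⟩))
      (g₂ := fun t => log ((z - γ t) / (z - b))) (by fun_prop)
      (Continuous.clog (by fun_prop) hs)
      (funext fun t => Subtype.ext (by
        simp only [Function.comp_apply]
        rw [hl, exp_log (slitPlane_ne_zero (hs t))])) 0 (by
        rw [hL, IsCoveringMap.liftHomotopy_zero]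
        simp [hb ⟨z, hz⟩])
    have h3 : ℓ z = log ((z - γ 1) / (z - b)) := (hℓ z hz).trans (congrFun h2 1)
    rw [exp_re]
    refine mul_nonneg (Real.exp_pos _).le (Real.cos_nonneg_of_mem_Icc ?_)
    have h4 := abs_le.mp (abs_arg_le_pi ((z - γ 1) / (z - b)))
    rw [h3, div_ofNat_im, log_im]
    constructor <;> linarith [h4.1, h4.2]

theorem exists_k {P : ℂ → ℂ} (hP : Differentiable ℂ P) {R : ℝ} {b : ℂ} (hb : R < ‖P b‖) {r : ℝ}
    (hr : 0 < r) : ∃ k : ℂ → ℂ, DifferentiableOn ℂ k {z | ‖P z‖ < R} ∧ ∀ z, ‖P z‖ < R → ∀ t : ℝ,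
      0 ≤ t → ‖z - b‖ = t ^ 2 * r → (t ≤ 1 → ‖k z - 1‖ ≤ 6 * t) ∧ (1 ≤ t → ‖k z‖ * t ^ 2 ≤ 1) := by
  obtain ⟨β, hβ, γ, hγ⟩ := exists_far hP hb hr
  obtain ⟨e, he, he2, he3⟩ := exists_branch (V := {z | ‖P z‖ < R})
    (isOpen_lt hP.continuous.norm continuous_const) γ
    fun t => ⟨fun h => lt_asymm (show ‖P (γ t)‖ < R from h) (hγ t).1, (hγ t).2⟩
  have hD : ‖β - b‖ < r := by simpa [dist_eq_norm] using (hγ 1).2
  have hD0 : 0 < ‖β - b‖ := by linarith
  have hD1 : β - b ≠ 0 := norm_pos_iff.mp hD0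
  refine ⟨fun z => 1 + 2 * ((e z - 1) * (z - b)) / (β - b),
    ((((he.sub_const 1).mul (differentiableOn_id.sub_const b)).const_mul 2).div_const _).const_add 1,
    fun z hz t ht hzt => ⟨fun ht1 => ?_, fun ht1 => ?_⟩⟩
  all_goals
    have hy : z - b ≠ 0 := fun h => lt_asymm hz (sub_eq_zero.mp h ▸ hb)
    have h2 : e z ^ 2 * (z - b) = z - β := by rw [he2 z hz]; field_simp
  · rw [add_sub_cancel_left, norm_div, div_le_iff₀ hD0, norm_mul, norm_ofNat, sub_mul, one_mul]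
    have h3 : ‖e z * (z - b)‖ ^ 2 ≤ (3 / 2 * t * r) ^ 2 := by
      rw [← norm_pow, show (e z * (z - b)) ^ 2 = ((z - b) - (β - b)) * (z - b) by
        linear_combination (z - b) * h2, norm_mul]
      have h4 := norm_sub_le (z - b) (β - b)
      have h5 : t ^ 2 * r ≤ r := by nlinarith [pow_le_one₀ (n := 2) ht ht1]
      have h6 : 0 ≤ t ^ 2 * r := by positivity
      rw [hzt] at h4 ⊢
      nlinarith [mul_le_mul_of_nonneg_right (h4.trans (by linarith : _ ≤ 2 * r)) h6,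
        mul_nonneg h6 hr.le]
    have h7 := abs_le_of_sq_le_sq' h3 (by positivity)
    have h8 := norm_sub_le (e z * (z - b)) (z - b)
    have h9 : t ^ 2 * r ≤ t * r := by nlinarith [mul_nonneg ht hr.le]
    nlinarith [mul_le_mul_of_nonneg_left hβ ht, h7.2]
  · have hk : (1 + 2 * ((e z - 1) * (z - b)) / (β - b)) * (β - b) =
        (β - b) + 2 * ((e z - 1) * (z - b)) := by field_simp
    change ‖1 + 2 * ((e z - 1) * (z - b)) / (β - b)‖ * _ ≤ _
    generalize 1 + 2 * ((e z - 1) * (z - b)) / (β - b) = K at hk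
    have h3 : K * (e z + 1) ^ 2 * (z - b) = -(β - b) := by
      apply mul_right_cancel₀ hD1
      linear_combination ((e z + 1) ^ 2 * (z - b)) * hk + ((β - b) + 2 * (e z + 1) * (z - b)) * h2
    have h4 : 1 ≤ ‖e z + 1‖ := by
      have := he3 z hz (by nlinarith [one_le_pow₀ (n := 2) ht1])
      refine le_trans ?_ (re_le_norm _)
      simpa using this
    have h5 := congrArg norm h3
    rw [norm_mul, norm_mul, norm_pow, norm_neg, hzt] at h5
    have h6 : ‖K‖ * 1 * (t ^ 2 * r) ≤ ‖K‖ * ‖e z + 1‖ ^ 2 * (t ^ 2 * r) := by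
      gcongr
      exact one_le_pow₀ h4
    refine le_of_mul_le_mul_right ?_ hr
    linarith

theorem tele (t : ℝ) (ht : 0 ≤ t) (M : ℕ) (u : ℕ → ℝ)
    (hu : ∀ m < M, u m ≤ 36 * ((t / 2 ^ m) / ((1 + t / 2 ^ m) * (2 + t / 2 ^ m)))) :
    ∑ m ∈ Finset.range M, u m ≤ 36 := by
  have h1 := Finset.sum_range_sub' (fun m => 36 * ((t / 2 ^ m) / (1 + t / 2 ^ m))) M
  have h2 : ∑ m ∈ Finset.range M, u m ≤ _ := Finset.sum_le_sum (g := fun m =>
      36 * ((t / 2 ^ m) / (1 + t / 2 ^ m)) - 36 * ((t / 2 ^ (m + 1)) / (1 + t / 2 ^ (m + 1))))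
    fun m hm => (hu m (Finset.mem_range.mp hm)).trans (le_of_eq (by
      rw [show t / 2 ^ (m + 1) = t / 2 ^ m / 2 by rw [pow_succ, div_div]]
      have : 0 ≤ t / 2 ^ m := by positivity
      generalize t / 2 ^ m = s at this
      field_simp
      ring))
  rw [h1] at h2
  have h3 : 0 ≤ (t / 2 ^ M) / (1 + t / 2 ^ M) := by positivity
  have h4 : (t / 2 ^ 0) / (1 + t / 2 ^ 0) ≤ 1 := div_le_one_of_le₀ (by linarith) (by positivity)
  linarith

theorem exists_strip {P : ℂ → ℂ} (hP : Differentiable ℂ P) {R : ℝ} {b : ℂ} (hb : R < ‖P b‖)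
    {d : ℝ} (hd : 0 < d) (M : ℕ) : ∃ S : ℂ → ℂ, DifferentiableOn ℂ S {z | ‖P z‖ < R} ∧
      ∀ z, ‖P z‖ < R → |(S z).im| ≤ 36 ∧ (‖z - b‖ ≤ d → (M : ℝ) - 36 ≤ (S z).re) ∧
        (∀ l ≤ M, d * 4 ^ l ≤ 4 * ‖z - b‖ → (S z).re ≤ (M : ℝ) - l + 36) := by
  choose k hk hk' using fun m : ℕ => exists_k hP hb (r := d * 4 ^ m) (by positivity)
  refine ⟨fun z => ∑ m ∈ Finset.range M, k m z, DifferentiableOn.fun_sum fun m _ => hk m,
    fun z hz => ?_⟩
  set t := Real.sqrt (‖z - b‖ / d) with ht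
  have ht0 : 0 ≤ t := Real.sqrt_nonneg _
  have ht2 : ‖z - b‖ = t ^ 2 * d := by rw [ht, Real.sq_sqrt (by positivity)]; field_simp
  have h4 : ∀ m : ℕ, (4 : ℝ) ^ m = (2 ^ m) ^ 2 := fun m => by
    rw [← pow_mul, mul_comm, pow_mul]; norm_num
  have key : ∀ m : ℕ, (t / 2 ^ m ≤ 1 →
      ‖k m z - 1‖ ≤ 36 * ((t / 2 ^ m) / ((1 + t / 2 ^ m) * (2 + t / 2 ^ m)))) ∧ (1 ≤ t / 2 ^ m →
      ‖k m z‖ ≤ 36 * ((t / 2 ^ m) / ((1 + t / 2 ^ m) * (2 + t / 2 ^ m)))) := by
    intro m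
    have h0 : 0 ≤ t / 2 ^ m := by positivity
    have h1 := hk' m z hz (t / 2 ^ m) h0 (by rw [ht2, h4]; field_simp)
    generalize t / 2 ^ m = s at h0 h1
    rw [← mul_div_assoc]
    refine ⟨fun h => (h1.1 h).trans ?_, fun h => ?_⟩
    · rw [le_div_iff₀ (by positivity)]
      nlinarith [mul_nonneg h0 (by nlinarith : 0 ≤ 6 - (1 + s) * (2 + s))]
    · rw [le_div_iff₀ (by positivity)]
      have := mul_le_mul_of_nonneg_left (by nlinarith : (1 + s) * (2 + s) ≤ 6 * s ^ 2)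
        (norm_nonneg (k m z))
      nlinarith [h1.2 h]
  refine ⟨?_, fun h => ?_, fun l hl h => ?_⟩
  · rw [im_sum]
    refine (Finset.abs_sum_le_sum_abs _ _).trans (tele t ht0 M _ fun m _ => ?_)
    rcases le_total (t / 2 ^ m) 1 with h | h
    · refine le_trans ?_ ((key m).1 h)
      simpa using abs_im_le_norm (k m z - 1)
    · exact (abs_im_le_norm _).trans ((key m).2 h)
  · have ht1 : t ≤ 1 := Real.sqrt_le_one.mpr (div_le_one_of_le₀ h hd.le)
    have := tele t ht0 M (fun m => 1 - (k m z).re) fun m _ => by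
      refine le_trans ?_ ((key m).1 (div_le_one_of_le₀ (ht1.trans (one_le_pow₀ one_le_two))
        (by positivity)))
      have := (abs_le.mp (abs_re_le_norm (k m z - 1))).1
      rw [sub_re, one_re] at this
      linarith
    rw [Finset.sum_sub_distrib] at this
    simp only [Finset.sum_const, Finset.card_range, nsmul_eq_mul, mul_one] at this
    rw [re_sum]
    linarith
  · have := tele t ht0 M (fun m => (k m z).re - if m ∈ Finset.range l then 0 else 1) fun m _ => by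
      split_ifs with hm
      · rw [sub_zero]
        refine (re_le_norm _).trans ((key m).2 ?_)
        rw [le_div_iff₀ (by positivity), one_mul]
        refine abs_le_of_sq_le_sq' ?_ ht0 |>.2
        have h1 : (4 : ℝ) ^ (m + 1) ≤ 4 ^ l :=
          pow_le_pow_right₀ (by norm_num) (Finset.mem_range.mp hm)
        rw [← h4]
        rw [ht2] at h
        rw [pow_succ] at h1
        nlinarith
      · rcases le_total (t / 2 ^ m) 1 with h' | h'
        · refine le_trans ?_ ((key m).1 h')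
          simpa using re_le_norm (k m z - 1)
        · linarith [re_le_norm (k m z), (key m).2 h']
    have e : ∑ m ∈ Finset.range M, (if m ∈ Finset.range l then 0 else 1 : ℝ) = M - l := by
      rw [← Finset.sum_sdiff (Finset.range_mono hl),
        Finset.sum_congr rfl fun m hm => if_neg (Finset.mem_sdiff.mp hm).2,
        Finset.sum_congr rfl fun m hm => if_pos hm]
      simp [Finset.card_sdiff_of_subset (Finset.range_mono hl), Nat.cast_sub hl]
    rw [Finset.sum_sub_distrib, e] at this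
    rw [re_sum]
    linarith

theorem half_plane {p q : ℂ} (hp : 0 < p.re) (hq : 0 < q.re) :
    p + (starRingEnd ℂ) q ≠ 0 ∧ ‖(p - q) / (p + (starRingEnd ℂ) q)‖ ≤ 1 := by
  have h1 : p + (starRingEnd ℂ) q ≠ 0 := fun h => by
    have := congrArg re h
    simp at this
    linarith
  refine ⟨h1, ?_⟩
  rw [norm_div]
  refine div_le_one_of_le₀ (abs_le_of_sq_le_sq' ?_ (norm_nonneg _)).2 (norm_nonneg _)
  simp only [← normSq_eq_norm_sq, normSq_apply, sub_re, sub_im, add_re, add_im, conj_re, conj_im]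
  nlinarith [mul_pos hp hq]

theorem exp_consts : 4 ≤ Real.exp (17 / 12) ∧ Real.exp 3 ≤ 41 / 2 := by
  constructor
  · have h1 := Real.exp_one_gt_d9
    have h2 := Real.quadratic_le_exp_of_nonneg (x := 5 / 12) (by norm_num)
    rw [show (17 / 12 : ℝ) = 1 + 5 / 12 by norm_num, Real.exp_add]
    nlinarith
  · have h1 := Real.exp_one_lt_d9
    rw [show (3 : ℝ) = (3 : ℕ) * 1 by norm_num, Real.exp_nat_mul]
    exact (pow_le_pow_left₀ (Real.exp_pos 1).le h1.le 3).trans (by norm_num)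

theorem exists_h {P : ℂ → ℂ} (hP : Differentiable ℂ P) {R : ℝ} {b : ℂ} (hb : R < ‖P b‖)
    {x : ℂ} (hx : ‖P x‖ < R) (D₀ : ℝ) : ∃ h : ℂ → ℂ, DifferentiableOn ℂ h {z | ‖P z‖ < R} ∧
      (∀ z, ‖P z‖ < R → 0 < (h z).re) ∧ ∀ y, ‖P y‖ < R → ‖y - b‖ ≤ D₀ → ∀ σ : ℝ, 0 < σ →
        σ ≤ 1 / 82 → ‖b - x‖ = σ ^ 34 * ‖y - x‖ → ‖h y‖ ≤ 41 * σ * ‖h x‖ := by
  set d := ‖b - x‖ with hd
  have hd0 : 0 < d := norm_pos_iff.mpr fun h => lt_asymm hx (sub_eq_zero.mp h ▸ hb)
  have hxb : ‖x - b‖ = d := norm_sub_rev _ _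
  obtain ⟨M, hM⟩ := pow_unbounded_of_one_lt (D₀ / d) (by norm_num : (1 : ℝ) < 4)
  rw [div_lt_iff₀ hd0] at hM
  obtain ⟨S, hS, hS'⟩ := exists_strip hP hb hd0 M
  refine ⟨fun z => exp (S z / 24), (hS.div_const 24).cexp, fun z hz => ?_,
    fun y hy hyD σ hσ0 hc hdl => ?_⟩
  · rw [exp_re]
    refine mul_pos (Real.exp_pos _) (Real.cos_pos_of_mem_Ioo ?_)
    have := abs_le.mp (hS' z hz).1
    rw [div_ofNat_im]
    constructor <;> linarith [this.1, this.2, Real.pi_gt_three]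
  set l := ‖y - x‖ with hl
  set τ := σ ^ 34 with hστ
  have hτ0 : 0 < τ := by positivity
  have hl0 : 0 < l := (mul_pos_iff_of_pos_left hτ0).mp (hdl ▸ hd0)
  have hyb2 : l ≤ ‖y - b‖ + d := norm_sub_le_norm_sub_add_norm_sub y b x
  have hτs : τ ≤ 1 / 82 := (pow_le_of_le_one hσ0.le (by linarith) (by norm_num)).trans hc
  have hu : l ≤ 2 * ‖y - b‖ := by nlinarith
  obtain ⟨m, hm1, hm2⟩ := exists_nat_pow_near (x := ‖y - b‖ / d) (y := 4)
    (by rw [le_div_iff₀ hd0]; nlinarith) (by norm_num)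
  rw [le_div_iff₀ hd0] at hm1
  rw [div_lt_iff₀ hd0] at hm2
  have hmM : m + 1 ≤ M := (pow_lt_pow_iff_right₀ (by norm_num : (1 : ℝ) < 4)).mp
    (lt_of_mul_lt_mul_right (hm1.trans_lt (hyD.trans_lt hM)) hd0.le)
  have h1 := (hS' x hx).2.1 hxb.le
  have h2 := (hS' y hy).2.2 (m + 1) hmM (by rw [pow_succ]; linarith)
  set E := Real.exp (((m + 1 : ℕ) : ℝ) / 24) with hE
  have hE1 : 1 ≤ 2 * σ * E := by
    refine (one_le_pow_iff_of_nonneg (by positivity) (by norm_num : 34 ≠ 0)).mp ?_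
    have h3 : (4 : ℝ) ^ (m + 1) ≤ E ^ 34 := by
      rw [hE, ← Real.exp_nat_mul, show ((34 : ℕ) : ℝ) * (((m + 1 : ℕ) : ℝ) / 24) =
        ((m + 1 : ℕ) : ℝ) * (17 / 12) by push_cast; ring, Real.exp_nat_mul]
      exact pow_le_pow_left₀ (by norm_num) exp_consts.1 _
    have h4 : 1 ≤ 2 * τ * 4 ^ (m + 1) := by
      refine le_of_mul_le_mul_right ?_ hl0
      rw [hdl] at hm2
      linarith
    rw [mul_pow, mul_pow, ← hστ]
    nlinarith [mul_le_mul_of_nonneg_left h3 hτ0.le]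
  have hp : ‖exp (S y / 24)‖ * E ≤ ‖exp (S x / 24)‖ * (41 / 2) := by
    refine le_trans ?_ (mul_le_mul_of_nonneg_left exp_consts.2 (norm_nonneg _))
    rw [norm_exp, norm_exp, hE, ← Real.exp_add, ← Real.exp_add, div_ofNat_re, div_ofNat_re]
    exact Real.exp_le_exp.mpr (by linarith)
  nlinarith [mul_le_mul_of_nonneg_left hE1 (norm_nonneg (exp (S y / 24))),
    mul_le_mul_of_nonneg_left hp hσ0.le]

theorem exists_peak {P : ℂ → ℂ} (hP : Differentiable ℂ P) {R : ℝ} {b : ℂ} (hb : R < ‖P b‖)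
    {x : ℂ} (hx : ‖P x‖ < R) (D₀ : ℝ) {θ : ℝ} (hθ : 0 < θ) (hθ1 : θ ≤ 1) :
    ∃ q : ℂ → ℂ, DifferentiableOn ℂ q {z | ‖P z‖ < R} ∧ (∀ z, ‖P z‖ < R → ‖q z‖ ≤ 1) ∧
      1 ≤ (1 + θ) * ‖q x‖ ∧ ∀ y, ‖P y‖ < R → ‖y - b‖ ≤ D₀ →
        ‖q y‖ * max 1 (θ / 82 * (‖y - x‖ / ‖b - x‖) ^ (1 / 34 : ℝ)) ≤ 1 := by
  obtain ⟨h, hh, hre, hy⟩ := exists_h hP hb hx D₀
  have hd0 : 0 < ‖b - x‖ := norm_pos_iff.mpr fun h => lt_asymm hx (sub_eq_zero.mp h ▸ hb)
  have hx0 : 0 < ‖h x‖ := (hre x hx).trans_le (re_le_norm _)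
  set t := θ * ‖h x‖ with ht
  have ht0 : 0 < t := by positivity
  have h1 : ∀ z, ‖P z‖ < R → t ≤ ‖h z + t‖ := fun z hz => by
    refine le_trans ?_ (re_le_norm _)
    simpa using (hre z hz).le
  have h2 : ∀ z, ‖P z‖ < R → ‖h z‖ ≤ ‖h z + t‖ := fun z hz => by
    refine (abs_le_of_sq_le_sq' ?_ (norm_nonneg _)).2
    simp only [← normSq_eq_norm_sq, normSq_apply, add_re, add_im, ofReal_re, ofReal_im]
    nlinarith [mul_pos ht0 (hre z hz)]
  have h3 : ∀ z, ‖P z‖ < R → ‖h z / (h z + t)‖ ≤ 1 := fun z hz => by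
    rw [norm_div]; exact div_le_one_of_le₀ (h2 z hz) (norm_nonneg _)
  refine ⟨fun z => h z / (h z + t), hh.div (hh.add_const _)
    fun z hz => norm_pos_iff.mp (ht0.trans_le (h1 z hz)), h3, ?_, fun y hy1 hy2 => ?_⟩
  · rw [norm_div, ← mul_div_assoc, one_le_div (ht0.trans_le (h1 x hx))]
    refine (norm_add_le _ _).trans (le_of_eq ?_)
    rw [norm_real, Real.norm_of_nonneg ht0.le, ht]
    ring
  · set u := (‖y - x‖ / ‖b - x‖) ^ (1 / 34 : ℝ) with hu
    rcases le_total (θ / 82 * u) 1 with hc | hc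
    · rw [max_eq_left hc, mul_one]; exact h3 y hy1
    have hu0 : 82 ≤ u := by nlinarith [Real.rpow_nonneg (by positivity :
      0 ≤ ‖y - x‖ / ‖b - x‖) (1 / 34)]
    have hu1 : u ^ 34 = ‖y - x‖ / ‖b - x‖ := by
      rw [hu, ← Real.rpow_natCast, ← Real.rpow_mul (by positivity)]; norm_num
    have h4 := hy y hy1 hy2 u⁻¹ (by positivity) (by rw [one_div]; exact inv_anti₀ (by norm_num) hu0)
      (by
        rw [inv_pow, eq_inv_mul_iff_mul_eq₀ (by positivity), hu1]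
        field_simp)
    rw [max_eq_right hc, norm_div, div_mul_eq_mul_div, div_le_one (ht0.trans_le (h1 y hy1))]
    refine le_trans ?_ (h1 y hy1)
    refine (mul_le_mul_of_nonneg_right h4 (by positivity)).trans ?_
    rw [ht, show 41 * u⁻¹ * ‖h x‖ * (θ / 82 * u) = θ * ‖h x‖ / 2 by field_simp; ring]
    linarith

theorem exists_killer {P : ℂ → ℂ} (hP : Differentiable ℂ P) {R : ℝ} {b : ℂ} (hb : R < ‖P b‖)
    {x y : ℂ} (hx : ‖P x‖ < R) (hy : ‖P y‖ < R) (hxy : y ≠ x) :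
    ∃ B : ℂ → ℂ, DifferentiableOn ℂ B {z | ‖P z‖ < R} ∧ (∀ z, ‖P z‖ < R → ‖B z‖ ≤ 1) ∧ B y = 0 ∧
      1 ≤ (1 + 2000 * (‖b - x‖ / ‖y - x‖ + (‖b - x‖ / ‖y - x‖) ^ (1 / 34 : ℝ))) * ‖B x‖ := by
  set d := ‖b - x‖ with hd
  set l := ‖y - x‖ with hl
  have hd0 : 0 < d := norm_pos_iff.mpr fun h => lt_asymm hx (sub_eq_zero.mp h ▸ hb)
  have hl0 : 0 < l := norm_pos_iff.mpr (sub_ne_zero.mpr hxy)
  have hxb : ‖x - b‖ = d := norm_sub_rev _ _
  set τ := d / l with hτ
  have hτ0 : 0 < τ := by positivity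
  have hdl : d = τ * l := by rw [hτ]; field_simp
  set σ := τ ^ (1 / 34 : ℝ) with hσ
  have hσ0 : 0 < σ := by positivity
  have hστ : σ ^ 34 = τ := by
    rw [hσ, ← Real.rpow_natCast, ← Real.rpow_mul hτ0.le]; norm_num
  have hyb1 : ‖y - b‖ ≤ l + d := by simpa [hxb] using norm_sub_le_norm_sub_add_norm_sub y x b
  have hyb2 : l ≤ ‖y - b‖ + d := norm_sub_le_norm_sub_add_norm_sub y b x
  rcases le_total (1 / 82) σ with hc | hc
  · obtain ⟨k, hk, hk'⟩ := exists_k hP hb (r := 100 * d) (by positivity)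
    have hD : 0 < 7 * (100 * d + ‖y - b‖) := by positivity
    refine ⟨fun z => k z * (z - y) / (7 * (100 * d + ‖y - b‖) : ℝ),
      (hk.mul (differentiableOn_id.sub_const y)).div_const _, fun z hz => ?_, by simp, ?_⟩
    · rw [norm_div, norm_mul, norm_real, Real.norm_of_nonneg hD.le]
      refine div_le_one_of_le₀ ?_ hD.le
      set t := Real.sqrt (‖z - b‖ / (100 * d)) with ht
      have ht0 : 0 ≤ t := Real.sqrt_nonneg _
      have ht2 : ‖z - b‖ = t ^ 2 * (100 * d) := by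
        rw [ht, Real.sq_sqrt (by positivity)]; field_simp
      have h1 := hk' z hz t ht0 ht2
      have h2 : ‖z - y‖ ≤ t ^ 2 * (100 * d) + ‖y - b‖ := by
        rw [← ht2, norm_sub_rev y b]; exact norm_sub_le_norm_sub_add_norm_sub z b y
      rcases le_total t 1 with h | h
      · have h3 : ‖k z‖ ≤ 7 := by
          have := norm_le_norm_sub_add (k z) 1
          rw [norm_one] at this
          linarith [h1.1 h]
        refine mul_le_mul h3 (h2.trans ?_) (norm_nonneg _) (by norm_num)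
        nlinarith [pow_le_one₀ (n := 2) ht0 h]
      · have h3 := h1.2 h
        have h4 : ‖k z‖ ≤ 1 := by nlinarith [one_le_pow₀ (n := 2) h, norm_nonneg (k z)]
        have h5 := mul_le_mul_of_nonneg_left h2 (norm_nonneg (k z))
        nlinarith [norm_nonneg (y - b), mul_le_mul_of_nonneg_right h3 hd0.le,
          mul_le_mul_of_nonneg_right h4 (norm_nonneg (y - b))]
    · have h1 := (hk' x hx (1 / 10) (by norm_num) (by rw [hxb]; ring)).1 (by norm_num)
      have h2 : 2 / 5 ≤ ‖k x‖ := by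
        have := norm_le_norm_sub_add (1 : ℂ) (k x)
        rw [norm_one, norm_sub_rev] at this
        linarith
      rw [norm_div, norm_mul, norm_real, Real.norm_of_nonneg hD.le, norm_sub_rev x y, ← hl,
        ← mul_div_assoc, le_div_iff₀ hD]
      have h3 : (1 + 2000 * (τ + σ)) * (2 / 5 * l) ≤ (1 + 2000 * (τ + σ)) * (‖k x‖ * l) := by
        gcongr
      nlinarith [mul_le_mul_of_nonneg_right hc hl0.le]
  · obtain ⟨h, hh, hre, hy'⟩ := exists_h hP hb hx ‖y - b‖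
    refine ⟨fun z => (h z - h y) / (h z + (starRingEnd ℂ) (h y)),
      (hh.sub_const _).div (hh.add_const _) fun z hz => (half_plane (hre z hz) (hre y hy)).1,
      fun z hz => (half_plane (hre z hz) (hre y hy)).2, by simp, ?_⟩
    have h0 := norm_pos_iff.mpr (half_plane (hre x hx) (hre y hy)).1
    have h7 := hy' y hy le_rfl σ hσ0 hc (by rw [hστ]; exact hdl)
    have h5 := norm_sub_norm_le (h x) (h y)
    have h6 := norm_add_le (h x) ((starRingEnd ℂ) (h y))
    rw [norm_conj] at h6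
    rw [norm_div, ← mul_div_assoc, le_div_iff₀ h0]
    have hq := norm_nonneg (h y)
    have h8 : (1 + 164 * σ) * (‖h x‖ - ‖h y‖) ≤ (1 + 164 * σ) * ‖h x - h y‖ := by
      gcongr
    nlinarith [mul_le_mul_of_nonneg_right hc hq, norm_nonneg (h x - h y),
      mul_nonneg (by positivity : 0 ≤ 2000 * τ + 1836 * σ) (norm_nonneg (h x - h y))]

end Pool.Agent.Lib.MP_c35c17_an
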