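import Mathlib
import Pool.Agent.Lib.MP_c35c17_an.Area
import Pool.Agent.Lib.MP_c35c17_an.Pair
import Pool.Agent.Lib.MP_c35c17_an.Peak

set_option autoImplicit false

open Filter Topology Set Metric MeasureTheory Complex N62a1eb23
open scoped ENNReal

namespace Pool.Agent.Lib.MP_c35c17_an

theorem early_lt {n : ℕ} (hn : 2 ≤ n) {c z : ℂ} {ρ : ℝ} (hρ : ‖c‖ + 3 ≤ ρ) {j l : ℕ} (hl : l ≤ j)
    (hz : ‖(F n c)^[j] z‖ < 2 * ρ) : ‖(F n c)^[l] z‖ < 2 * ρ := by
  by_contra h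
  obtain ⟨i, rfl⟩ := Nat.exists_eq_add_of_le' hl
  have h1 := (escape_iter hn hρ (z := (F n c)^[l] z) (by linarith [norm_nonneg c, not_lt.mp h]) i).1
  rw [← Function.iterate_add_apply] at h1
  linarith [not_lt.mp h]

theorem orb_iter (n : ℕ) (c : ℂ) (j k : ℕ) : (F n c)^[j] (orb n c k) = orb n c (j + k) :=
  (Function.iterate_add_apply _ _ _ _).symm

theorem pairing {n : ℕ} (hn : 2 ≤ n) {c : ℂ} (h0 : ∀ k, orb n c k ≠ 0) {ρ L : ℝ}
    (hρ3 : ‖c‖ + 3 ≤ ρ) (hρ : ∀ k, ‖orb n c k‖ ≤ ρ) (hL : ∀ k, ‖dP n c k‖ ≤ L) :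
    ∃ C Λ : ℝ, 0 ≤ C ∧ 1 ≤ Λ ∧ ∀ (j N : ℕ) (g : ℂ → ℂ),
      DifferentiableOn ℂ g {z | ‖(F n c)^[j] z‖ < 2 * ρ} →
      (∀ z, ‖(F n c)^[j] z‖ < 2 * ρ → ‖g z‖ ≤ 1) →
      ‖∑ k ∈ Finset.range (N + 1), al n c k * g (orb n c k)‖ ≤ C * Λ ^ j * ‖al n c (N + 1)‖ := by
  obtain ⟨C, hC, hA⟩ := area_bound hn h0 hρ hL
  obtain ⟨M, hM⟩ := (theta_contDiff.continuous_fderiv one_ne_zero).bounded_above_of_compact_support
    (theta_supp.fderiv ℝ)
  have hM0 : 0 ≤ M := (norm_nonneg _).trans (hM 0)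
  have hρ1 : 3 ≤ ρ := by linarith [norm_nonneg c]
  have hκ : 0 < ‖kappa‖ := norm_pos_iff.mpr kappa_spec.2
  have hn' : (2 : ℝ) ≤ n := by exact_mod_cast hn
  refine ⟨2 * M * C / ‖kappa‖, n * (2 * ρ) ^ (n - 1), by positivity,
    one_le_mul_of_one_le_of_one_le (by linarith) (one_le_pow₀ (by linarith)),
    fun j N g hg hg1 => ?_⟩
  set Λ : ℝ := n * (2 * ρ) ^ (n - 1) with hΛ
  have hΛ0 : 0 ≤ Λ := by positivity
  set V : Set ℂ := {z | ‖(F n c)^[j] z‖ < 2 * ρ} with hV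
  have hP := differentiable_iter n c j
  have hVo : IsOpen V := isOpen_lt hP.continuous.norm continuous_const
  have hVb : V ⊆ ball 0 (2 * ρ) := fun z hz =>
    mem_ball_zero_iff.mpr (early_lt hn hρ3 (Nat.zero_le j) hz)
  have hVF : F n c ⁻¹' V ⊆ V := fun z hz => early_lt hn hρ3 (Nat.le_succ j) hz
  set χ : ℂ → ℂ := fun z => theta ((F n c)^[j] z / ρ) with hχ
  have hPρ : Differentiable ℂ fun z => (F n c)^[j] z / ρ := hP.div_const _
  have hχd : ContDiff ℝ 1 χ := theta_contDiff.comp (hPρ.contDiff.restrict_scalars ℝ)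
  have hnrm : ∀ z, ‖(F n c)^[j] z / ρ‖ ^ 2 = ‖(F n c)^[j] z‖ ^ 2 / ρ ^ 2 := fun z => by
    rw [norm_div, norm_real, Real.norm_of_nonneg (by linarith), div_pow]
  have hρ2 : 0 < ρ ^ 2 := by positivity
  have hzero : ∀ z ∉ V, ∀ᶠ w in 𝓝 z, χ w = 0 := fun z hz => by
    have h1 : 3 * ρ ^ 2 < ‖(F n c)^[j] z‖ ^ 2 := by
      have : 2 * ρ ≤ ‖(F n c)^[j] z‖ := not_lt.mp hz
      nlinarith
    filter_upwards [(isOpen_lt continuous_const (hP.continuous.norm.pow 2)).mem_nhds h1] with w hw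
    exact theta_zero (by rw [hnrm, le_div_iff₀ hρ2]; exact le_of_lt hw)
  have hone : ∀ z, ‖(F n c)^[j] z‖ ^ 2 < 2 * ρ ^ 2 → ∀ᶠ w in 𝓝 z, χ w = 1 := fun z hz => by
    filter_upwards [(isOpen_lt (hP.continuous.norm.pow 2) continuous_const).mem_nhds hz] with w hw
    exact theta_one (by rw [hnrm, div_le_iff₀ hρ2]; exact le_of_lt hw)
  have hsV : tsupport χ ⊆ V := fun z hz => by_contra fun h =>
    notMem_tsupport_iff_eventuallyEq.mpr (hzero z h) hz
  have hs : HasCompactSupport χ := HasCompactSupport.intro (isCompact_closedBall 0 (2 * ρ))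
    fun z hz => (hzero z fun h => hz (ball_subset_closedBall (hVb h))).self_of_nhds
  have hok : ∀ k, ‖(F n c)^[j] (orb n c k)‖ ≤ ρ := fun k => by rw [orb_iter]; exact hρ _
  have hcp := fun k => cauchy_pompeiu hVo hχd hs hsV hg (a := orb n c k)
    (show _ < 2 * ρ by linarith [hok k])
    (hone _ (by nlinarith [hok k, norm_nonneg ((F n c)^[j] (orb n c k))]))
  have hint : kappa * ∑ k ∈ Finset.range (N + 1), al n c k * g (orb n c k) =
      ∫ z, dbar χ z * g z * HN n c N z := by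
    have : (fun z => dbar χ z * g z * HN n c N z) = fun z => ∑ k ∈ Finset.range (N + 1),
        al n c k * (dbar χ z * (g z / (z - orb n c k))) := by
      funext z
      rw [HN, Finset.mul_sum]
      exact Finset.sum_congr rfl fun k _ => by ring
    rw [this, integral_finsetSum _ fun k _ => (hcp k).1.const_mul _, Finset.mul_sum]
    exact Finset.sum_congr rfl fun k _ => by rw [integral_const_mul, (hcp k).2]; ring
  have hdF : ∀ z ∈ V, ∀ l ≤ j, ‖dF n c l z‖ ≤ Λ ^ l := by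
    intro z hz l
    induction l with
    | zero => simp [dF]
    | succ l ih =>
      intro hl
      rw [dF_succ, norm_mul, pow_succ', norm_mul, norm_pow, Complex.norm_natCast]
      exact mul_le_mul (mul_le_mul_of_nonneg_left (pow_le_pow_left₀ (norm_nonneg _)
        (early_lt hn hρ3 (by omega) hz).le _) (by linarith)) (ih (by omega)) (norm_nonneg _) hΛ0
  have hdb : ∀ z ∈ V, ‖dbar χ z‖ ≤ 2 * M * Λ ^ j := by
    intro z hz
    have h1 : ∀ v : ℂ, ‖v‖ = 1 → ‖fderiv ℝ χ z v‖ ≤ M * Λ ^ j := fun v hv => by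
      have : fderiv ℝ χ z v = fderiv ℝ theta ((F n c)^[j] z / ρ) (v * (dF n c j z / ρ)) := by
        rw [show χ = theta ∘ fun z => (F n c)^[j] z / ρ from rfl,
          fderiv_comp _ (theta_contDiff.differentiable one_ne_zero _) ((hPρ z).restrictScalars ℝ),
          ContinuousLinearMap.comp_apply, fderiv_real_holo (hPρ z),
          ((hasDerivAt_iter n c j z).div_const _).deriv]
      rw [this]
      refine (ContinuousLinearMap.le_opNorm _ _).trans (mul_le_mul (hM _) ?_ (norm_nonneg _) hM0)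
      rw [norm_mul, hv, one_mul, norm_div, norm_real, Real.norm_of_nonneg (by linarith)]
      exact (div_le_self (norm_nonneg _) (by linarith)).trans (hdF z hz j le_rfl)
    refine (norm_add_le _ _).trans ?_
    rw [norm_mul, norm_I, one_mul]
    linarith [h1 1 norm_one, h1 I norm_I]
  have hF : Measurable (F n c) := by fun_prop
  have hm : MeasurableSet (V \ F n c ⁻¹' V) := hVo.measurableSet.diff (hF hVo.measurableSet)
  have hpt : ∀ z, ‖dbar χ z * g z * HN n c N z‖ₑ ≤ (V \ F n c ⁻¹' V).indicator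
      (fun z => ENNReal.ofReal (2 * M * Λ ^ j) * ‖HN n c N z‖ₑ) z := by
    intro z
    by_cases hz : z ∈ V \ F n c ⁻¹' V
    · rw [indicator_of_mem hz, enorm_mul]
      refine mul_le_mul_left ?_ _
      rw [← ofReal_norm, norm_mul]
      refine ENNReal.ofReal_le_ofReal ?_
      exact (mul_le_of_le_one_right (norm_nonneg _) (hg1 z hz.1)).trans (hdb z hz.1)
    · have : dbar χ z = 0 := by
        by_cases h1 : z ∈ V
        · refine dbar_of_eventually_const (hone z ?_)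
          have h2 : ‖(F n c)^[j + 1] z‖ < 2 * ρ := by_contra fun h => hz ⟨h1, h⟩
          by_contra h3
          have h4 : ρ ≤ ‖(F n c)^[j] z‖ :=
            (abs_le_of_sq_le_sq' (by nlinarith [not_lt.mp h3]) (norm_nonneg _)).2
          have h5 := escape_step hn hρ3 h4
          rw [Function.iterate_succ_apply'] at h2
          nlinarith [not_lt.mp h3]
        · exact dbar_of_eventually_const (hzero z h1)
      simp [this]
  have hfin : ‖∫ z, dbar χ z * g z * HN n c N z‖ₑ ≤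
      ENNReal.ofReal (2 * M * Λ ^ j * (C * ‖al n c (N + 1)‖)) := by
    refine (enorm_integral_le_lintegral_enorm _).trans ((lintegral_mono hpt).trans ?_)
    rw [lintegral_indicator hm, lintegral_const_mul' _ _ ENNReal.ofReal_ne_top,
      ENNReal.ofReal_mul (p := 2 * M * Λ ^ j) (by positivity)]
    exact mul_le_mul_right (hA N V hVo.measurableSet hVb hVF) _
  rw [← hint, ← ofReal_norm, ENNReal.ofReal_le_ofReal_iff (by positivity), norm_mul] at hfin
  rw [div_mul_eq_mul_div, div_mul_eq_mul_div, le_div_iff₀ hκ]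
  linarith

/-- The interpolation factor. -/
noncomputable def fac (τ : ℝ) : ℝ := 1 + 2000 * (τ + τ ^ (1 / 34 : ℝ))

theorem one_le_fac {τ : ℝ} (h : 0 ≤ τ) : 1 ≤ fac τ := le_add_of_nonneg_right (by positivity)

/-- The damping factor. -/
noncomputable def damp (θ t : ℝ) : ℝ := max 1 (θ / 82 * t ^ (1 / 34 : ℝ))

theorem master {n : ℕ} (hn : 2 ≤ n) {c : ℂ} (hc : c ∈ multibrotSet n)
    (hH : c ∉ closure {c | ∃ m z, IsAttractingCycle (fun z ↦ z ^ n + c) m z}) :
    (∀ k, orb n c k ≠ 0) ∧ ∃ Λ : ℝ, 1 ≤ Λ ∧ ∀ (j N i m : ℕ) (θ : ℝ) (b : ℂ) (A : Finset ℕ), i ≤ N →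
      0 < θ → θ ≤ 1 → ‖c‖ + 3 ≤ ‖(F n c)^[j] b‖ → (∀ k ∈ A, k ≤ N ∧ orb n c k ≠ orb n c i) →
      ‖al n c i‖ ≤ (1 + θ) ^ m * (∏ k ∈ A, fac (‖b - orb n c i‖ / ‖orb n c k - orb n c i‖)) *
        (∑ k ∈ Finset.range (N + 1) \ insert i A,
          ‖al n c k‖ / damp θ (‖orb n c k - orb n c i‖ / ‖b - orb n c i‖) ^ m +
          Λ ^ (j + 1) * ‖al n c (N + 1)‖) := by
  obtain ⟨h0, L, hL⟩ := param_bound hn hc hH
  have h0' : ∀ k, orb n c k ≠ 0 := fun k => by rw [orb_eq hn]; exact h0 k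
  set ρ := ‖c‖ + 3 with hρ
  have hρ1 : 3 ≤ ρ := by linarith [norm_nonneg c]
  have hρo : ∀ k, ‖orb n c k‖ ≤ ρ := fun k => by rw [orb_eq hn]; exact (orbit_lt hn hc le_rfl _).le
  obtain ⟨C, Λ, hC, hΛ, hp⟩ := pairing hn h0' le_rfl hρo hL
  refine ⟨h0', (C + 1) * Λ ^ 2, one_le_mul_of_one_le_of_one_le (by linarith) (one_le_pow₀ hΛ),
    fun j N i m θ b A hi hθ hθ1 hb hA => ?_⟩
  have hb2 : 2 * ρ < ‖(F n c)^[j + 2] b‖ := by
    have h1 := escape_step hn (c := c) le_rfl hb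
    have h3 : 3 / 2 * ρ ≤ ‖F n c ((F n c)^[j] b)‖ := by nlinarith
    have h2 := escape_step hn (c := c) (ρ := ρ) le_rfl (z := F n c ((F n c)^[j] b)) (by linarith)
    rw [Function.iterate_succ_apply', Function.iterate_succ_apply']
    nlinarith
  have hV : ∀ k, ‖(F n c)^[j + 2] (orb n c k)‖ < 2 * ρ := fun k => by
    rw [orb_iter]; linarith [hρo (j + 2 + k)]
  choose! B hB hB1 hB0 hBx using fun k (hk : k ∈ A) =>
    exists_killer (differentiable_iter n c (j + 2)) hb2 (hV i) (hV k) (hA k hk).2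
  obtain ⟨q, hq, hq1, hqx, hqy⟩ :=
    exists_peak (differentiable_iter n c (j + 2)) hb2 (hV i) (ρ + ‖b‖) hθ hθ1
  have hg0 : ∀ z, ‖(F n c)^[j + 2] z‖ < 2 * ρ → ‖∏ k ∈ A, B k z‖ ≤ 1 := fun z hz => by
    rw [norm_prod]
    exact Finset.prod_le_one (fun _ _ => norm_nonneg _) fun k hk => hB1 k hk z hz
  have h1 := hp (j + 2) N (fun z => q z ^ m * ∏ k ∈ A, B k z)
    ((hq.pow m).mul (DifferentiableOn.fun_finsetProd hB)) fun z hz => by
      rw [norm_mul, norm_pow]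
      exact mul_le_one₀ (pow_le_one₀ (norm_nonneg _) (hq1 z hz)) (norm_nonneg _) (hg0 z hz)
  have hiA : i ∉ A := fun h => (hA i h).2 rfl
  have hsub : insert i A ⊆ Finset.range (N + 1) := fun k hk => by
    rcases Finset.mem_insert.mp hk with rfl | hk
    · exact Finset.mem_range.mpr (by omega)
    · exact Finset.mem_range.mpr (Nat.lt_succ_of_le (hA k hk).1)
  rw [← Finset.sum_sdiff hsub, Finset.sum_insert hiA, Finset.sum_eq_zero (s := A)
    (fun k hk => by rw [Finset.prod_eq_zero hk (hB0 k hk), mul_zero, mul_zero]), add_zero] at h1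
  have h2 : ‖∑ k ∈ Finset.range (N + 1) \ insert i A,
      al n c k * (q (orb n c k) ^ m * ∏ l ∈ A, B l (orb n c k))‖ ≤
      ∑ k ∈ Finset.range (N + 1) \ insert i A,
        ‖al n c k‖ / damp θ (‖orb n c k - orb n c i‖ / ‖b - orb n c i‖) ^ m :=
    norm_sum_le_of_le _ fun k _ => by
      have hd : 0 < damp θ (‖orb n c k - orb n c i‖ / ‖b - orb n c i‖) :=
        one_pos.trans_le (le_max_left _ _)
      rw [norm_mul, norm_mul, norm_pow, le_div_iff₀ (by positivity), mul_assoc, mul_right_comm,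
        ← mul_pow]
      exact mul_le_of_le_one_right (norm_nonneg _) (mul_le_one₀ (pow_le_one₀ (by positivity)
        (hqy _ (hV k) ((norm_sub_le _ _).trans (by linarith [hρo k])))) (norm_nonneg _)
        (hg0 _ (hV k)))
  have h3 : C * Λ ^ (j + 2) ≤ ((C + 1) * Λ ^ 2) ^ (j + 1) := by
    rw [mul_pow, ← pow_mul]
    exact mul_le_mul ((by linarith : C ≤ C + 1).trans (le_self_pow₀ (by linarith) (by omega)))
      (pow_le_pow_right₀ hΛ (by omega)) (by positivity) (by positivity)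
  have h4 : 1 ≤ ((1 + θ) * ‖q (orb n c i)‖) ^ m *
      ((∏ k ∈ A, fac (‖b - orb n c i‖ / ‖orb n c k - orb n c i‖)) *
        ‖∏ k ∈ A, B k (orb n c i)‖) := by
    rw [norm_prod, ← Finset.prod_mul_distrib]
    exact one_le_mul_of_one_le_of_one_le (one_le_pow₀ hqx)
      (Finset.one_le_prod fun k hk => hBx k hk)
  have h5 : 0 ≤ (1 + θ) ^ m * ∏ k ∈ A, fac (‖b - orb n c i‖ / ‖orb n c k - orb n c i‖) :=
    mul_nonneg (by positivity)
      (Finset.prod_nonneg fun k _ => zero_le_one.trans (one_le_fac (by positivity)))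
  have h6 := norm_sub_le (∑ k ∈ Finset.range (N + 1) \ insert i A,
    al n c k * (q (orb n c k) ^ m * ∏ l ∈ A, B l (orb n c k)) +
      al n c i * (q (orb n c i) ^ m * ∏ l ∈ A, B l (orb n c i)))
    (∑ k ∈ Finset.range (N + 1) \ insert i A,
      al n c k * (q (orb n c k) ^ m * ∏ l ∈ A, B l (orb n c k)))
  rw [add_sub_cancel_left, norm_mul, norm_mul, norm_pow] at h6
  calc ‖al n c i‖ ≤ ‖al n c i‖ * _ := le_mul_of_one_le_right (norm_nonneg _) h4
    _ = _ * (‖al n c i‖ * (‖q (orb n c i)‖ ^ m * ‖∏ k ∈ A, B k (orb n c i)‖)) := by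
        rw [mul_pow]; ring
    _ ≤ _ := mul_le_mul_of_nonneg_left (by
        linarith [mul_le_mul_of_nonneg_right h3 (norm_nonneg (al n c (N + 1)))]) h5

end Pool.Agent.Lib.MP_c35c17_an
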