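import Mathlib
import Pool.Agent.Lib.MP_c35c17_an.Main

set_option autoImplicit false

open Filter Topology Set Metric N62a1eb23

namespace Pool.Agent.Lib.MP_c35c17_an

theorem exists_b (n : ℕ) (c : ℂ) (j : ℕ) (x : ℂ) {ρ : ℝ} (hρ : 0 < ρ) (hD : dF n c j x ≠ 0) :
    ∃ b, ‖b - x‖ = 2 * ρ / ‖dF n c j x‖ ∧ ρ ≤ ‖(F n c)^[j] b‖ := by
  by_contra h
  push Not at h
  have hD' := norm_pos_iff.mpr hD
  have h1 := Complex.norm_deriv_le_of_forall_mem_sphere_norm_le (c := x)
    (R := 2 * ρ / ‖dF n c j x‖) (by positivity) (differentiable_iter n c j).diffContOnCl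
    fun z hz => (h z (mem_sphere_iff_norm.mp hz)).le
  rw [(hasDerivAt_iter n c j x).deriv, le_div_iff₀ (by positivity), mul_div_cancel₀ _ hD'.ne'] at h1
  linarith

theorem dF_ne {n : ℕ} (hn : 2 ≤ n) {c : ℂ} (h0 : ∀ k, orb n c k ≠ 0) (k : ℕ) : dF n c k c ≠ 0 :=
  Finset.prod_ne_zero_iff.mpr fun j _ =>
    mul_ne_zero (by exact_mod_cast (by omega : n ≠ 0)) (pow_ne_zero _ (h0 j))

theorem base0 {n : ℕ} (hn : 2 ≤ n) {c : ℂ} (hc : c ∈ multibrotSet n)
    (hH : c ∉ closure {c | ∃ m z, IsAttractingCycle (fun z ↦ z ^ n + c) m z}) :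
    (∀ k, orb n c k ≠ 0) ∧ ∃ Λ : ℝ, 1 ≤ Λ ∧ ∀ j N : ℕ, ‖dF n c (N + 1) c‖ ≤
      (∏ k ∈ Finset.range N, fac (2 * (‖c‖ + 3) / ‖dF n c j c‖ / ‖orb n c k‖ ^ n)) * Λ ^ (j + 1) := by
  obtain ⟨h0, Λ, hΛ, h⟩ := master hn hc hH
  refine ⟨h0, Λ, hΛ, fun j N => ?_⟩
  obtain ⟨b, hb1, hb2⟩ := exists_b n c j c (ρ := ‖c‖ + 3) (by positivity) (dF_ne hn h0 j)
  have e0 : orb n c 0 = c := rfl
  have h1 := h j N 0 0 1 b ((Finset.range N).map (addRightEmbedding 1)) (Nat.zero_le _) one_pos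
    le_rfl hb2 (by
    intro k hk
    obtain ⟨l, hl, rfl⟩ := Finset.mem_map.mp hk
    refine ⟨Finset.mem_range.mp hl, fun e => h0 l ?_⟩
    rw [addRightEmbedding_apply, orb_succ, e0, add_eq_right] at e
    exact eq_zero_of_pow_eq_zero e)
  have h2 : Finset.range (N + 1) \ insert 0 ((Finset.range N).map (addRightEmbedding 1)) = ∅ := by
    rw [Finset.sdiff_eq_empty_iff_subset]
    intro k hk
    rcases k with _ | k
    · simp
    · simpa using hk
  rw [h2, Finset.sum_empty, zero_add, Finset.prod_map, pow_zero, one_mul] at h1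
  simp only [addRightEmbedding_apply, orb_succ, e0, add_sub_cancel_right, norm_pow, hb1, al,
    norm_inv] at h1
  rw [show dF n c 0 c = 1 by simp [dF], norm_one, inv_one, ← mul_assoc, ← div_eq_mul_inv,
    one_le_div (norm_pos_iff.mpr (dF_ne hn h0 _))] at h1
  exact h1

theorem fac_mono {s t : ℝ} (hs : 0 ≤ s) (h : s ≤ t) : fac s ≤ fac t := by
  unfold fac
  gcongr

theorem fac_mul {t y : ℝ} (ht : 0 ≤ t) (hy : 1 ≤ y) : fac (t * y) ≤ fac t * y := by
  unfold fac
  rw [Real.mul_rpow ht (by linarith)]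
  have h1 : y ^ (1 / 34 : ℝ) ≤ y := by
    simpa using Real.rpow_le_rpow_of_exponent_le hy (by norm_num : (1 / 34 : ℝ) ≤ 1)
  have h2 := mul_le_mul_of_nonneg_left h1 (Real.rpow_nonneg ht (1 / 34))
  nlinarith

theorem cor_jump {n : ℕ} (hn : 2 ≤ n) {c : ℂ} (hc : c ∈ multibrotSet n)
    (h : ∀ ε : ℝ, 0 < ε → ∃ j N : ℕ, (∀ k, 1 ≤ k → k ≤ N →
      (N : ℝ) ^ 34 ≤ ‖dF n c j c‖ * ‖orb n c k - c‖) ∧
      (j : ℝ) + 1 ≤ ε * Real.log ‖dF n c (N + 1) c‖) :
    c ∈ closure {c | ∃ m z, IsAttractingCycle (fun z ↦ z ^ n + c) m z} := by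
  by_contra hH
  obtain ⟨h0, Λ, hΛ, hb⟩ := base0 hn hc hH
  set ρ := ‖c‖ + 3 with hρ
  have hρ1 : 3 ≤ ρ := by linarith [norm_nonneg c]
  have hl := Real.log_nonneg hΛ
  obtain ⟨j, N, h1, h2⟩ := h (1 / (2 * (8000 * ρ + Real.log Λ))) (by positivity)
  have hDj := norm_pos_iff.mpr (dF_ne hn h0 j)
  have h3 : ∏ k ∈ Finset.range N, fac (2 * ρ / ‖dF n c j c‖ / ‖orb n c k‖ ^ n) ≤
      Real.exp (8000 * ρ) := by
    rcases Nat.eq_zero_or_pos N with rfl | hN
    · simp only [Finset.range_zero, Finset.prod_empty]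
      exact Real.one_le_exp (by positivity)
    have hN' : (1 : ℝ) ≤ N := by exact_mod_cast hN
    calc _ ≤ ∏ k ∈ Finset.range N, Real.exp (8000 * ρ / N) := by
          refine Finset.prod_le_prod (fun k _ => zero_le_one.trans (one_le_fac (by positivity)))
            fun k hk => ?_
          have h4 := h1 (k + 1) (by omega) (Finset.mem_range.mp hk)
          rw [orb_succ, add_sub_cancel_right, norm_pow] at h4
          have h5 : 2 * ρ / ‖dF n c j c‖ / ‖orb n c k‖ ^ n ≤ 2 * ρ / N ^ 34 := by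
            rw [div_div]
            exact div_le_div_of_nonneg_left (by positivity) (by positivity) h4
          have h6 : 2 * ρ / N ^ 34 ≤ 2 * ρ / N :=
            div_le_div_of_nonneg_left (by positivity) (by positivity)
              (le_self_pow₀ hN' (by norm_num))
          have h7 : (2 * ρ / N ^ 34) ^ (1 / 34 : ℝ) ≤ 2 * ρ / N := by
            have h8 : 2 * ρ / N ^ 34 ≤ (2 * ρ / N) ^ 34 := by
              rw [div_pow]
              exact div_le_div_of_nonneg_right (le_self_pow₀ (by linarith) (by norm_num))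
                (by positivity)
            refine (Real.rpow_le_rpow (by positivity) h8 (by norm_num)).trans (le_of_eq ?_)
            rw [← Real.rpow_natCast, ← Real.rpow_mul (by positivity)]
            norm_num
          refine (fac_mono (by positivity) h5).trans (le_trans ?_ (Real.add_one_le_exp _))
          rw [fac, show 8000 * ρ / N = 4000 * (2 * ρ / N) by ring]
          linarith
      _ = _ := by
          rw [Finset.prod_const, Finset.card_range, ← Real.exp_nat_mul]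
          congr 1
          field_simp
  have h4 := Real.log_le_log (norm_pos_iff.mpr (dF_ne hn h0 _))
    ((hb j N).trans (mul_le_mul_of_nonneg_right h3 (by positivity)))
  rw [Real.log_mul (by positivity) (by positivity), Real.log_exp, Real.log_pow] at h4
  push_cast at h4
  rw [one_div, inv_mul_eq_div, le_div_iff₀ (by positivity)] at h2
  have hj : (0 : ℝ) ≤ j := Nat.cast_nonneg j
  nlinarith [mul_nonneg hj hl, mul_nonneg hj (by linarith : 0 ≤ ρ)]

theorem cor_reg {n : ℕ} (hn : 2 ≤ n) {c : ℂ} (hc : c ∈ multibrotSet n) {δ χ : ℝ} (hδ : 0 < δ)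
    (hχ : 0 < χ) (h : ∃ᶠ N : ℕ in atTop, χ * N + n * ∑ k ∈ Finset.range N,
      max 0 (Real.log (δ / ‖orb n c k‖)) ≤ Real.log ‖dF n c (N + 1) c‖) :
    c ∈ closure {c | ∃ m z, IsAttractingCycle (fun z ↦ z ^ n + c) m z} := by
  by_contra hH
  obtain ⟨h0, Λ, hΛ, hb⟩ := base0 hn hc hH
  set ρ := ‖c‖ + 3 with hρ
  have hρ1 : 3 ≤ ρ := by linarith [norm_nonneg c]
  have hD : ∀ k, 0 < ‖dF n c k c‖ := fun k => norm_pos_iff.mpr (dF_ne hn h0 k)
  have hfc : Continuous fac := by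
    unfold fac
    exact continuous_const.add (continuous_const.mul (continuous_id.add
      (Real.continuous_rpow_const (by norm_num))))
  have hlin : Tendsto (fun N : ℕ => χ * N) atTop atTop :=
    tendsto_natCast_atTop_atTop.const_mul_atTop hχ
  have ht : Tendsto (fun N : ℕ => fac (2 * ρ / δ ^ n * Real.exp (-(χ * N)))) atTop (𝓝 (fac 0)) := by
    refine (hfc.tendsto 0).comp ?_
    simpa using (Real.tendsto_exp_neg_atTop_nhds_zero.comp hlin).const_mul (2 * ρ / δ ^ n)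
  have hf0 : fac 0 < Real.exp (χ / 2) := by
    simpa [fac] using Real.one_lt_exp_iff.mpr (half_pos hχ)
  obtain ⟨M, hM1, hM2⟩ := (h.and_eventually (ht.eventually (gt_mem_nhds hf0))).exists
  have hs : ∀ N : ℕ, 0 ≤ (n : ℝ) * ∑ k ∈ Finset.range N, max 0 (Real.log (δ / ‖orb n c k‖)) :=
    fun N => mul_nonneg (Nat.cast_nonneg n) (Finset.sum_nonneg fun _ _ => le_max_left _ _)
  have h1 : fac (2 * ρ / ‖dF n c (M + 1) c‖ / δ ^ n) ≤ Real.exp (χ / 2) := by
    refine (fac_mono (by positivity) ?_).trans hM2.le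
    rw [div_right_comm, Real.exp_neg, ← div_eq_mul_inv]
    refine div_le_div_of_nonneg_left (by positivity) (Real.exp_pos _) ?_
    exact (Real.le_log_iff_exp_le (hD _)).mp (by linarith [hs M])
  obtain ⟨N, hN1, hN2⟩ := (h.and_eventually
    (hlin.eventually_gt_atTop (2 * ((M + 1 + 1 : ℕ) * Real.log Λ)))).exists
  have h3 : ∏ k ∈ Finset.range N, fac (2 * ρ / ‖dF n c (M + 1) c‖ / ‖orb n c k‖ ^ n) ≤
      Real.exp (χ * N / 2 + n * ∑ k ∈ Finset.range N, max 0 (Real.log (δ / ‖orb n c k‖))) := by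
    calc _ ≤ ∏ k ∈ Finset.range N, Real.exp (χ / 2 + n * max 0 (Real.log (δ / ‖orb n c k‖))) := by
          refine Finset.prod_le_prod (fun k _ => zero_le_one.trans (one_le_fac (by positivity)))
            fun k _ => ?_
          have hk := norm_pos_iff.mpr (h0 k)
          set y := Real.exp (n * max 0 (Real.log (δ / ‖orb n c k‖))) with hy
          have hy1 : 1 ≤ y := Real.one_le_exp (mul_nonneg (Nat.cast_nonneg n) (le_max_left _ _))
          have hy2 : (δ / ‖orb n c k‖) ^ n ≤ y := by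
            rw [hy, Real.exp_nat_mul]
            refine pow_le_pow_left₀ (by positivity) ?_ _
            exact (Real.log_le_iff_le_exp (by positivity)).mp (le_max_right _ _)
          have h4 : 2 * ρ / ‖dF n c (M + 1) c‖ / ‖orb n c k‖ ^ n ≤
              2 * ρ / ‖dF n c (M + 1) c‖ / δ ^ n * y := by
            refine le_trans (le_of_eq ?_) (mul_le_mul_of_nonneg_left hy2 (by positivity))
            rw [div_pow]
            field_simp
          rw [Real.exp_add]
          exact (fac_mono (by positivity) h4).trans ((fac_mul (by positivity) hy1).trans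
            (mul_le_mul_of_nonneg_right h1 (by linarith)))
      _ = _ := by
          rw [← Real.exp_sum, Finset.sum_add_distrib, Finset.sum_const, Finset.card_range,
            ← Finset.mul_sum, nsmul_eq_mul]
          congr 1
          ring
  have h4 := Real.log_le_log (hD _)
    ((hb (M + 1) N).trans (mul_le_mul_of_nonneg_right h3 (by positivity)))
  rw [Real.log_mul (by positivity) (by positivity), Real.log_exp, Real.log_pow] at h4
  linarith

theorem cor_gap {n : ℕ} (hn : 2 ≤ n) {c : ℂ} (hc : c ∈ multibrotSet n) {ε : ℝ} (hε : 0 < ε)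
    (h : ∀ K : ℝ, 1 ≤ K → ∃ j N : ℕ, (∀ k, 1 ≤ k → k ≤ N → K ≤ ‖dF n c j c‖ * ‖orb n c k - c‖) ∧
      K ^ (j + 1) * (∑ k ∈ Finset.range (N + 1), ‖dF n c k c‖⁻¹) ^ ε < ‖dF n c (N + 1) c‖) :
    c ∈ closure {c | ∃ m z, IsAttractingCycle (fun z ↦ z ^ n + c) m z} := by
  by_contra hH
  obtain ⟨h0, Λ, hΛ, hm⟩ := master hn hc hH
  set ρ := ‖c‖ + 3 with hρ
  have hρ1 : 3 ≤ ρ := by linarith [norm_nonneg c]
  have hD : ∀ k, 0 < ‖dF n c k c‖ := fun k => norm_pos_iff.mpr (dF_ne hn h0 k)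
  obtain ⟨p, hp⟩ := exists_nat_gt ε⁻¹
  have hp0 : (0 : ℝ) < p := (inv_pos.mpr hε).trans hp
  have hp1 : p ≠ 0 := by exact_mod_cast hp0.ne'
  obtain ⟨j, N, h1, h2⟩ := h (max (8 * Λ) (2 * ρ * (82 * (2 * 2 ^ p)) ^ 34))
    (le_max_of_le_left (by linarith))
  obtain ⟨b, hb1, hb2⟩ := exists_b n c j c (ρ := ρ) (by linarith) (dF_ne hn h0 j)
  set σ := ∑ k ∈ Finset.range (N + 1), ‖dF n c k c‖⁻¹ with hσ
  have hd0 : dF n c 0 c = 1 := by simp [dF]
  have hσ1 : 1 ≤ σ := by
    have := Finset.single_le_sum (f := fun k => ‖dF n c k c‖⁻¹) (fun k _ => by positivity)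
      (Finset.mem_range.mpr (Nat.succ_pos N))
    simpa [hd0] using this
  obtain ⟨l, hl1, hl2⟩ := exists_nat_pow_near (x := 2 * σ) (y := 2 ^ p) (by linarith)
    (one_lt_pow₀ one_lt_two hp1)
  have h3 := hm j N 0 (l + 1) 1 b ∅ (Nat.zero_le _) one_pos le_rfl hb2 (by simp)
  have e0 : orb n c 0 = c := rfl
  simp only [al, norm_inv, hd0, norm_one, inv_one, Finset.prod_empty, mul_one, e0, hb1,
    one_add_one_eq_two] at h3
  have h4 : ∑ k ∈ Finset.range (N + 1) \ insert 0 ∅, ‖dF n c k c‖⁻¹ /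
      damp 1 (‖orb n c k - c‖ / (2 * ρ / ‖dF n c j c‖)) ^ (l + 1) ≤ σ / (2 * 2 ^ p) ^ (l + 1) := by
    rw [hσ, Finset.sum_div]
    refine (Finset.sum_le_sum fun k hk => ?_).trans (Finset.sum_le_sum_of_subset_of_nonneg
      Finset.sdiff_subset fun _ _ _ => by positivity)
    simp only [Finset.mem_sdiff, Finset.mem_range, Finset.mem_insert, Finset.notMem_empty,
      or_false] at hk
    refine div_le_div_of_nonneg_left (by positivity) (by positivity)
      (pow_le_pow_left₀ (by positivity) (le_max_of_le_right ?_) _)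
    have h5 : (82 * (2 * 2 ^ p) : ℝ) ^ 34 ≤ ‖orb n c k - c‖ / (2 * ρ / ‖dF n c j c‖) := by
      rw [div_div_eq_mul_div, le_div_iff₀ (by linarith)]
      linarith [(le_max_right _ _).trans (h1 k (by omega) (by omega))]
    have h6 := Real.rpow_le_rpow (by positivity) h5 (by norm_num : (0 : ℝ) ≤ 1 / 34)
    rw [← Real.rpow_natCast, ← Real.rpow_mul (by positivity)] at h6
    norm_num at h6 ⊢
    linarith
  have h5 : 2 ^ (l + 1) * (σ / (2 * 2 ^ p) ^ (l + 1)) ≤ 1 / 2 := by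
    rw [mul_pow, ← mul_div_assoc, mul_div_mul_left _ _ (by positivity), div_le_iff₀ (by positivity)]
    linarith
  have h6 : (2 : ℝ) ^ l ≤ 2 * σ ^ ε := by
    have h7 := Real.rpow_le_rpow (by positivity) hl1 (inv_pos.mpr hp0).le
    rw [← pow_mul, mul_comm p l, pow_mul, Real.pow_rpow_inv_natCast (by positivity) hp1,
      Real.mul_rpow (by norm_num) (by linarith)] at h7
    refine h7.trans (mul_le_mul ?_ (Real.rpow_le_rpow_of_exponent_le hσ1 ?_) (by positivity)
      (by norm_num))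
    · simpa using Real.rpow_le_rpow_of_exponent_le (one_le_two (α := ℝ))
        (inv_le_one_of_one_le₀ (by exact_mod_cast Nat.one_le_iff_ne_zero.mpr hp1) : (p : ℝ)⁻¹ ≤ 1)
    · exact (inv_lt_comm₀ hε hp0).mp hp |>.le
  have h7 : 8 * Λ ^ (j + 1) ≤ (max (8 * Λ) (2 * ρ * (82 * (2 * 2 ^ p)) ^ 34)) ^ (j + 1) := by
    refine le_trans ?_ (pow_le_pow_left₀ (by linarith) (le_max_left _ _) _)
    rw [mul_pow]
    exact mul_le_mul_of_nonneg_right (le_self_pow₀ (by norm_num) (by omega)) (by positivity)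
  have h8 : 1 / 2 ≤ 2 ^ (l + 1) * (Λ ^ (j + 1) * ‖dF n c (N + 1) c‖⁻¹) := by
    have := mul_le_mul_of_nonneg_left h4 (by positivity : (0 : ℝ) ≤ 2 ^ (l + 1))
    rw [mul_add] at h3
    linarith
  rw [← mul_assoc, ← div_eq_mul_inv, le_div_iff₀ (hD _), pow_succ] at h8
  have h9 := mul_le_mul_of_nonneg_right h7 (by positivity : 0 ≤ σ ^ ε)
  have h10 := mul_le_mul_of_nonneg_right h6 (by positivity : 0 ≤ Λ ^ (j + 1))
  nlinarith

end Pool.Agent.Lib.MP_c35c17_an
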