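import Pool.Agent.Lib.MP_c35c17_an.LBlue

/-! A root of the critical orbit polynomial. -/

set_option autoImplicit false

open Filter Topology Set Metric Complex Bornology N62a1eb23
open scoped Real unitInterval

namespace Pool.Agent.Lib.MP_c35c17_an.L

namespace A1

variable {n : ℕ}

theorem inc (hn : 2 ≤ n) {c y : ℂ} (h3 : 3 < ‖y‖) (hc : ‖c‖ ≤ ‖y‖) (k : ℕ) :
    ‖y‖ ≤ ‖(F n c)^[k] y‖ ∧ ‖y‖ < ‖(F n c)^[k + 1] y‖ := by
  have step : ∀ z : ℂ, ‖y‖ ≤ ‖z‖ → ‖z‖ < ‖z ^ n + c‖ := fun z hz => by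
    have h1 := norm_sub_norm_le (z ^ n) (-c)
    have h2 : ‖z‖ ^ 2 ≤ ‖z‖ ^ n := pow_le_pow_right₀ (by linarith) hn
    rw [sub_neg_eq_add, norm_neg, norm_pow] at h1
    nlinarith
  induction k with
  | zero => exact ⟨le_rfl, step y le_rfl⟩
  | succ k ih =>
    refine ⟨ih.2.le, ih.2.trans ?_⟩
    rw [iter_succ n c (k + 1)]
    exact step _ ih.2.le

theorem lt_last (hn : 2 ≤ n) {c : ℂ} {m j : ℕ} (h : 3 < ‖(F n c)^[m] c‖) (hj : j < m) :
    ‖(F n c)^[j] c‖ < ‖(F n c)^[m] c‖ := by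
  refine not_le.mp fun h1 => ?_
  rcases le_or_gt ‖c‖ ‖(F n c)^[j] c‖ with h2 | h2
  · obtain ⟨k, rfl⟩ := Nat.exists_eq_add_of_lt hj
    have h4 := (inc hn (h.trans_le h1) h2 k).2
    rw [← Function.iterate_add_apply, show k + 1 + j = j + k + 1 by omega] at h4
    linarith
  · linarith [(inc hn (c := c) (y := c) (by linarith) le_rfl j).1]

/-- A bound for the orbits of points of moderate size. -/
noncomputable def β (n j : ℕ) (x : ℝ) : ℝ := (fun b => b ^ n + x)^[j] (x + 3)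

theorem β_succ (j : ℕ) (x : ℝ) : β n (j + 1) x = β n j x ^ n + x :=
  Function.iterate_succ_apply' _ _ _

theorem β_cont (j : ℕ) : Continuous (β n j) := by
  induction j with
  | zero => exact continuous_id.add continuous_const
  | succ j ih => exact ((ih.pow n).add continuous_id).congr fun x => (β_succ j x).symm

theorem β_bound (j : ℕ) {c u : ℂ} (hu : ‖u‖ ≤ ‖c‖ + 3) : ‖(F n c)^[j] u‖ ≤ β n j ‖c‖ := by
  induction j with
  | zero => exact hu
  | succ j ih =>
    rw [iter_succ, β_succ]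
    refine (norm_add_le _ _).trans (add_le_add_left ?_ _)
    rw [norm_pow]
    exact pow_le_pow_left₀ (norm_nonneg _) ih n

theorem β_nonneg (j : ℕ) (c : ℂ) : 0 ≤ β n j ‖c‖ :=
  (norm_nonneg _).trans (β_bound j (u := 0) (by rw [norm_zero]; positivity))

theorem iter_zero (k : ℕ) (z : ℂ) : (F n 0)^[k] z = z ^ n ^ k := by
  induction k with
  | zero => simp
  | succ k ih => rw [iter_succ, ih, add_zero, ← pow_mul, ← pow_succ]

end A1

open A1 in
theorem a1 {n : ℕ} (hn : 2 ≤ n) : St_A1 n := by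
  intro m
  have hn0 : n ≠ 0 := by omega
  let X := {c : ℂ | 3 < ‖(F n c)^[m] c‖}
  have hit : ∀ k, Continuous fun c : X => (F n c)^[k] c := fun k =>
    (continuous_iter n k).comp (continuous_subtype_val.prodMk continuous_subtype_val)
  let U : I × X → ℂ := fun p => ((1 + p.1 * β n m ‖(p.2 : ℂ)‖ : ℝ) : ℂ) * (F n p.2)^[m] p.2
  have hβ : Continuous (β n m) := β_cont m
  have hU : Continuous U := (continuous_ofReal.comp (by fun_prop)).mul ((hit m).comp continuous_snd)
  have hU0 : ∀ c : X, U (0, c) = (F n c)^[m] c := fun c => by simp [U]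
  have hUn : ∀ p : I × X, ‖U p‖ = (1 + p.1 * β n m ‖(p.2 : ℂ)‖) * ‖(F n p.2)^[m] p.2‖ := fun p => by
    rw [norm_mul, norm_real, Real.norm_of_nonneg]
    exact add_nonneg zero_le_one (mul_nonneg p.1.2.1 (β_nonneg m _))
  have hU1 : ∀ p : I × X, ‖(F n p.2)^[m] p.2‖ ≤ ‖U p‖ := fun p => by
    rw [hUn]
    exact le_mul_of_one_le_left (norm_nonneg _)
      (le_add_of_nonneg_right (mul_nonneg p.1.2.1 (β_nonneg m _)))
  have h1 : ∀ j ≤ m, ∃ u : I × X → ℂ, Continuous u ∧ (∀ c : X, u (0, c) = (F n c)^[m - j] c) ∧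
      ∀ p, (F n p.2)^[j] (u p) = U p := fun j => by
    induction j with
    | zero => exact fun _ => ⟨U, hU, hU0, fun _ => rfl⟩
    | succ j ih =>
      intro hj
      obtain ⟨u, h2, h3, h4⟩ := ih (by omega)
      obtain ⟨v, h5, h6, h7⟩ := lift_pow hn0 (H := fun p => u p - p.2) (by fun_prop) (fun p e => by
        have h5 := h4 p
        rw [sub_eq_zero.mp e] at h5
        have h6 := lt_last hn p.2.2 (show j < m by omega)
        rw [h5] at h6
        linarith [hU1 p]) (hit (m - (j + 1))) fun c => by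
          rw [h3, show m - j = m - (j + 1) + 1 by omega, iter_succ, add_sub_cancel_right]
      refine ⟨v, h5, h6, fun p => ?_⟩
      rw [Function.iterate_succ_apply, ← h4, F, h7, sub_add_cancel]
  obtain ⟨u, h2, -, h4⟩ := h1 m le_rfl
  have h5 : ∀ c : X, ‖(c : ℂ)‖ + 3 ≤ ‖u (1, c)‖ := fun c => by
    refine (not_le.mp fun h => ?_).le
    have h6 := β_bound (n := n) m h
    have h7 : 3 < ‖(F n c)^[m] c‖ := c.2
    rw [h4 (1, c), hUn] at h6
    simp only [Icc.coe_one, one_mul] at h6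
    nlinarith [β_nonneg (n := n) m c]
  have hN : n ^ m ≠ 0 := pow_ne_zero m hn0
  obtain ⟨v, h6, -, h7⟩ := lift_pow hN
    (H := fun p : I × X => (F n (((p.1 : ℝ) : ℂ) * p.2))^[m] (u (1, p.2)))
    ((continuous_iter n m).comp (f := fun p : I × X => (((p.1 : ℝ) : ℂ) * p.2, u (1, p.2)))
      (by fun_prop)) (fun p e => by
      have h6 := (escape_iter hn (c := ((p.1 : ℝ) : ℂ) * p.2) (ρ := ‖(p.2 : ℂ)‖ + 3) (by
        rw [norm_mul, norm_real, Real.norm_of_nonneg p.1.2.1]
        nlinarith [p.1.2.2, norm_nonneg (p.2 : ℂ)]) (h5 p.2) m).1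
      rw [e, norm_zero] at h6
      linarith [h5 p.2, norm_nonneg (p.2 : ℂ)]) (v₀ := fun c => u (1, c)) (by fun_prop) fun c => by
      simp only [Icc.coe_zero, ofReal_zero, zero_mul, iter_zero]
  obtain ⟨w, h8, -, h9⟩ := lift_pow hN (H := fun p : I × X => U (σ p.1, p.2)) (by fun_prop)
    (fun p e => by
      have h8 := hU1 (σ p.1, p.2)
      have h9 : 3 < ‖(F n p.2)^[m] p.2‖ := p.2.2
      rw [e, norm_zero] at h8
      linarith) (v₀ := fun c => v (1, c)) (by fun_prop) fun c => by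
      rw [h7, unitInterval.symm_zero, ← h4]
      simp only [Icc.coe_one, ofReal_one, one_mul]
  classical
  refine ⟨fun c => if h : c ∈ X then w (1, ⟨c, h⟩) else 0, ?_, fun c hc => ?_⟩
  · rw [continuousOn_iff_continuous_domRestrict]
    refine (h8.comp (Continuous.prodMk_right 1)).congr fun c => ?_
    simp only [Function.comp_apply, domRestrict_apply]
    rw [dif_pos (show (c : ℂ) ∈ X from c.2)]
  · simp only []
    rw [dif_pos (show c ∈ X from hc), h9, unitInterval.symm_one, hU0]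

end Pool.Agent.Lib.MP_c35c17_an.L
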