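import Pool.Agent.Lib.MP_c35c17_an.LBlue

/-! Block A2: a polynomial with a continuous root outside a level set has a connected sublevel set. -/

set_option autoImplicit false

open Filter Topology Set Metric Complex Bornology N62a1eb23
open scoped Real

namespace Pool.Agent.Lib.MP_c35c17_an.L

namespace A2

variable {p : Polynomial ℂ} {G : ℂ → ℂ}

theorem isOpen_W (p : Polynomial ℂ) : IsOpen {c | 3 < ‖p.eval c‖} :=
  isOpen_lt continuous_const p.continuous.norm

theorem compact_le (hp : 0 < p.natDegree) (R : ℝ) : IsCompact {c | ‖p.eval c‖ ≤ R} := by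
  have h := (p.isProperMap_eval (Polynomial.natDegree_pos_iff_degree_pos.mp hp)).isCompact_preimage
    (isCompact_closedBall (0 : ℂ) R)
  convert h using 1
  ext c
  simp

theorem nhds_le (hp : 0 < p.natDegree) (hG : ContinuousOn G {c | 3 < ‖p.eval c‖})
    (he : ∀ c, 3 < ‖p.eval c‖ → G c ^ p.natDegree = p.eval c) {c : ℂ} (hc : 3 < ‖p.eval c‖) :
    𝓝 (G c) ≤ map G (𝓝 c) := by
  have hd : DifferentiableOn ℂ G {c | 3 < ‖p.eval c‖} := fun z hz => by
    have h0 : G z ≠ 0 := fun h => by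
      have h1 := he z hz
      rw [h, zero_pow hp.ne'] at h1
      have h2 : 3 < ‖p.eval z‖ := hz
      rw [← h1, norm_zero] at h2
      norm_num at h2
    refine (hasDerivAt_of_comp (f := fun x => x ^ p.natDegree) (h := fun x => p.eval x)
      (hasStrictDerivAt_pow p.natDegree (G z))
      (mul_ne_zero (Nat.cast_ne_zero.mpr hp.ne') (pow_ne_zero _ h0))
      (hG.continuousAt ((isOpen_W p).mem_nhds hz)) (p.hasDerivAt z) ?_).differentiableAt.differentiableWithinAt
    filter_upwards [(isOpen_W p).mem_nhds hz] with y hy using he y hy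
  refine (hd.analyticAt ((isOpen_W p).mem_nhds hc)).eventually_constant_or_nhds_le_map_nhds.resolve_left
    fun h => ?_
  have h1 : ∀ᶠ z in 𝓝 c, p.eval z = p.eval c := by
    filter_upwards [h, (isOpen_W p).mem_nhds hc] with z hz hz'
    rw [← he z hz', hz, he c hc]
  have h2 := (p.isOpenQuotientMap_eval hp.ne').isOpenMap.image_mem_nhds h1
  have h3 : ({p.eval c} : Set ℂ) ∈ 𝓝 (p.eval c) :=
    mem_of_superset h2 (by rintro _ ⟨z, hz, rfl⟩; exact hz)
  exact not_isOpen_singleton (p.eval c) (isOpen_iff_mem_nhds.mpr fun x hx => by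
    rwa [mem_singleton_iff.mp hx])

theorem pow_conn {N : ℕ} (hN : 0 < N) : IsPreconnected {w : ℂ | 3 < ‖w ^ N‖} := by
  have h := ext_conn (r := (3 : ℝ) ^ ((N : ℝ)⁻¹)) (by positivity)
  convert h using 3 with w
  rw [norm_pow, Real.rpow_inv_lt_iff_of_pos (by norm_num) (norm_nonneg w) (by exact_mod_cast hN),
    Real.rpow_natCast]

theorem surj (hp : 0 < p.natDegree) (hG : ContinuousOn G {c | 3 < ‖p.eval c‖})
    (he : ∀ c, 3 < ‖p.eval c‖ → G c ^ p.natDegree = p.eval c) :
    {w : ℂ | 3 < ‖w ^ p.natDegree‖} ⊆ G '' {c | 3 < ‖p.eval c‖} := by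
  refine (pow_conn hp).subset_of_closure_inter_subset (isOpen_iff_mem_nhds.mpr ?_) ?_ ?_
  · rintro _ ⟨c, hc, rfl⟩
    exact nhds_le hp hG he hc (image_mem_map ((isOpen_W p).mem_nhds hc))
  · obtain ⟨c, hc⟩ := (p.isOpenQuotientMap_eval hp.ne').surjective 4
    have h1 : 3 < ‖p.eval c‖ := by rw [show p.eval c = 4 from hc]; norm_num
    exact ⟨G c, by simpa only [mem_ofPred_eq, he c h1] using h1, c, h1, rfl⟩
  · rintro w ⟨hw, hw'⟩
    obtain ⟨r, hr, hr'⟩ := exists_between (show 3 < ‖w ^ p.natDegree‖ from hw')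
    have hK : IsCompact ({c | ‖p.eval c‖ ≤ ‖w ^ p.natDegree‖ + 1} ∩ {c | r ≤ ‖p.eval c‖}) :=
      (compact_le hp _).inter_right (isClosed_le continuous_const p.continuous.norm)
    have hs : {c | ‖p.eval c‖ ≤ ‖w ^ p.natDegree‖ + 1} ∩ {c | r ≤ ‖p.eval c‖} ⊆
        {c | 3 < ‖p.eval c‖} := fun c hc => hr.trans_le hc.2
    have hU : IsOpen ((fun x : ℂ => ‖x ^ p.natDegree‖) ⁻¹' Ioo r (‖w ^ p.natDegree‖ + 1)) :=
      isOpen_Ioo.preimage (by fun_prop)
    have h1 := hU.inter_closure ⟨⟨hr', lt_add_one _⟩, hw⟩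
    refine image_mono hs ((hK.image_of_continuousOn (hG.mono hs)).isClosed.closure_subset_iff.mpr
      ?_ h1)
    rintro _ ⟨h2, c, hc, rfl⟩
    simp only [mem_preimage, he c hc] at h2
    exact ⟨c, ⟨h2.2.le, h2.1.le⟩, rfl⟩

theorem inj (hp : 0 < p.natDegree) (hG : ContinuousOn G {c | 3 < ‖p.eval c‖})
    (he : ∀ c, 3 < ‖p.eval c‖ → G c ^ p.natDegree = p.eval c) :
    InjOn G {c | 3 < ‖p.eval c‖} := fun a ha b hb hab => by
  classical
  have ha' : 3 < ‖p.eval a‖ := ha
  have hv : p.eval b = p.eval a := by rw [← he a ha, ← he b hb, hab]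
  have h0 : p - Polynomial.C (p.eval a) ≠ 0 := fun h => by
    have h1 := Polynomial.natDegree_sub_C (p := p) (a := p.eval a)
    rw [h, Polynomial.natDegree_zero] at h1
    omega
  have hm : ∀ c, c ∈ (p - Polynomial.C (p.eval a)).roots.toFinset ↔ p.eval c = p.eval a := fun c => by
    simp [Polynomial.mem_roots h0, sub_eq_zero]
  have hn : ∀ w, w ∈ (Polynomial.nthRoots p.natDegree (p.eval a)).toFinset ↔
      w ^ p.natDegree = p.eval a := fun w => by simp [Polynomial.mem_nthRoots hp]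
  have hz := Complex.isPrimitiveRoot_exp p.natDegree hp.ne'
  refine Finset.injOn_of_surjOn_of_card_le (s := (p - Polynomial.C (p.eval a)).roots.toFinset)
    (t := (Polynomial.nthRoots p.natDegree (p.eval a)).toFinset) G (fun c hc => ?_)
    (fun w hw => ?_) ?_ ((hm a).mpr rfl) ((hm b).mpr hv) hab
  · have h1 := (hm c).mp hc
    exact (hn _).mpr (by rw [he c (h1 ▸ ha'), h1])
  · have h1 := (hn w).mp hw
    obtain ⟨c, hc, rfl⟩ := surj hp hG he (show 3 < ‖w ^ p.natDegree‖ from h1 ▸ ha')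
    exact ⟨c, (hm c).mpr (by rw [← he c hc, h1]), rfl⟩
  · rw [Multiset.toFinset_card_of_nodup (hz.nthRoots_nodup (norm_pos_iff.mp (by linarith))),
      hz.card_nthRoots, if_pos ⟨G a, he a ha⟩]
    exact (Multiset.toFinset_card_le _).trans ((Polynomial.card_roots' _).trans
      (Polynomial.natDegree_sub_C).le)

theorem level (hp : 0 < p.natDegree) (hG : ContinuousOn G {c | 3 < ‖p.eval c‖})
    (he : ∀ c, 3 < ‖p.eval c‖ → G c ^ p.natDegree = p.eval c) :
    IsPreconnected {c | ‖p.eval c‖ = 4} := by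
  have hN : (0 : ℝ) < p.natDegree := by exact_mod_cast hp
  have hs : ∀ w : ℂ, w ∈ sphere (0 : ℂ) ((4 : ℝ) ^ ((p.natDegree : ℝ)⁻¹)) ↔
      ‖w ^ p.natDegree‖ = 4 := fun w => by
    rw [mem_sphere_zero_iff_norm, norm_pow, eq_comm,
      Real.rpow_inv_eq (by norm_num) (norm_nonneg w) hN.ne', Real.rpow_natCast, eq_comm]
  have ho : IsOpenMap fun c : {c | 3 < ‖p.eval c‖} => G c := by
    refine IsOpenMap.of_nhds_le fun c => (nhds_le hp hG he c.2).trans ?_
    rw [← (isOpen_W p).isOpenEmbedding_subtypeVal.map_nhds_eq c, map_map]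
    rfl
  have h := ((isPreconnected_sphere (by simp) (0 : ℂ)
    ((4 : ℝ) ^ ((p.natDegree : ℝ)⁻¹))).preimage_of_isOpenMap
      (fun a b hab => Subtype.ext (inj hp hG he a.2 b.2 hab)) ho fun w hw => by
        obtain ⟨c, hc, rfl⟩ := surj hp hG he (show 3 < ‖w ^ p.natDegree‖ by
          rw [(hs w).mp hw]; norm_num)
        exact ⟨⟨c, hc⟩, rfl⟩).image Subtype.val continuous_subtype_val.continuousOn
  convert h using 1
  ext c
  constructor
  · intro hc
    have hc' : ‖p.eval c‖ = 4 := hc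
    have h1 : 3 < ‖p.eval c‖ := by rw [hc']; norm_num
    exact ⟨⟨c, h1⟩, (hs _).mpr (by rw [he c h1, hc']), rfl⟩
  · rintro ⟨c, hc, rfl⟩
    have h1 := (hs _).mp hc
    rwa [he c c.2] at h1

end A2

theorem a2 : St_A2 := fun p G hp hG he => by
  have hK := A2.compact_le hp 4
  have hc : IsClosed {c | ‖p.eval c‖ = 4} := isClosed_eq p.continuous.norm continuous_const
  have key : ∀ u v : Set ℂ, IsClosed u → IsClosed v → {c | ‖p.eval c‖ ≤ 4} ⊆ u ∪ v → Disjoint u v →
      {c | ‖p.eval c‖ = 4} ⊆ u → {c | ‖p.eval c‖ ≤ 4} ⊆ u := fun u v hu hv hs hd h => by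
    have e : {c | ‖p.eval c‖ ≤ 4} ∩ v = {c | ‖p.eval c‖ < 4} ∩ uᶜ := by
      ext c
      constructor
      · rintro ⟨h1, h2⟩
        have h3 : c ∉ u := fun h3 => disjoint_left.mp hd h3 h2
        exact ⟨lt_of_le_of_ne h1 fun h4 => h3 (h h4), h3⟩
      · rintro ⟨h1, h2⟩
        have h3 : ‖p.eval c‖ ≤ 4 := le_of_lt h1
        exact ⟨h3, (hs h3).resolve_left h2⟩
    have h1 := Q.eq_empty_of_isCompact_isOpen (hK.inter_right hv)
      (e ▸ (isOpen_lt p.continuous.norm continuous_const).inter hu.isOpen_compl)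
    exact fun c hc => (hs hc).resolve_right fun h2 => (h1.le ⟨hc, h2⟩ :)
  rw [isPreconnected_iff_subset_of_fully_disjoint_closed hK.isClosed]
  intro u v hu hv hs hd
  rcases (isPreconnected_iff_subset_of_fully_disjoint_closed hc).mp (A2.level hp hG he) u v hu hv
    (fun c hc => hs (le_of_eq hc)) hd with h | h
  · exact Or.inl (key u v hu hv hs hd h)
  · exact Or.inr (key v u hv hu (by rwa [union_comm]) hd.symm h)

end Pool.Agent.Lib.MP_c35c17_an.L
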