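import Pool.Agent.Lib.MP_c35c17_an.LBlue

/-! Connectedness of the Multibrot set and gluing of the inverse Boettcher maps. -/

set_option autoImplicit false

open Filter Topology Set Metric Complex Bornology N62a1eb23
open scoped Real

namespace Pool.Agent.Lib.MP_c35c17_an.L

namespace A3B3

/-- A decreasing intersection of compact preconnected sets is preconnected. -/
theorem nested {K : ℕ → Set ℂ} (hm : Antitone K) (hc : ∀ m, IsCompact (K m))
    (hp : ∀ m, IsPreconnected (K m)) : IsPreconnected (⋂ m, K m) := by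
  rw [isPreconnected_iff_subset_of_fully_disjoint_closed (isClosed_iInter fun m => (hc m).isClosed)]
  intro u v hu hv huv hd
  obtain ⟨U, V, hU, hV, h1, h2, h3⟩ := normal_separation hu hv hd
  obtain ⟨m, hm'⟩ := exists_subset_nhds_of_isCompact (V := K) (U := U ∪ V) hm.directed_ge hc
    fun x hx => (hU.union hV).mem_nhds (union_subset_union h1 h2 (huv hx))
  rcases (hp m).subset_or_subset hU hV h3 hm' with h | h
  · exact Or.inl fun x hx => (huv hx).resolve_right fun hv' =>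
      disjoint_left.mp h3 (h (iInter_subset K m hx)) (h2 hv')
  · exact Or.inr fun x hx => (huv hx).resolve_left fun hu' =>
      disjoint_left.mp h3 (h1 hu') (h (iInter_subset K m hx))

/-- The critical orbit polynomials. -/
noncomputable def pol (n : ℕ) : ℕ → Polynomial ℂ
  | 0 => Polynomial.X
  | m + 1 => pol n m ^ n + Polynomial.X

theorem pol_eval (n m : ℕ) (c : ℂ) : (pol n m).eval c = (F n c)^[m] c := by
  induction m with
  | zero => simp [pol]
  | succ m ih => simp [pol, ih, iter_succ]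

theorem pol_deg {n : ℕ} (hn : 2 ≤ n) (m : ℕ) : (pol n m).natDegree = n ^ m := by
  induction m with
  | zero => simp [pol]
  | succ m ih =>
    have h1 : (pol n m ^ n).natDegree = n ^ (m + 1) := by
      rw [Polynomial.natDegree_pow, ih, pow_succ']
    rw [pol, Polynomial.natDegree_add_eq_left_of_natDegree_lt, h1]
    rw [h1, Polynomial.natDegree_X]
    exact Nat.one_lt_pow (by omega) hn

theorem step {n : ℕ} (hn : 2 ≤ n) (c : ℂ) {y : ℂ} (hy : 1 ≤ ‖y‖) :
    ‖y‖ ^ 2 - ‖c‖ ≤ ‖y ^ n + c‖ := by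
  have h3 := norm_sub_norm_le (y ^ n) (-c)
  have h4 : ‖y‖ ^ 2 ≤ ‖y‖ ^ n := pow_le_pow_right₀ hy hn
  rw [sub_neg_eq_add, norm_neg, norm_pow] at h3
  linarith

theorem big {n : ℕ} (hn : 2 ≤ n) {c : ℂ} (hc : 4 < ‖c‖) (m : ℕ) : ‖c‖ ≤ ‖(F n c)^[m] c‖ := by
  induction m with
  | zero => exact le_rfl
  | succ m ih =>
    rw [iter_succ]
    have := step hn c (y := (F n c)^[m] c) (by linarith)
    nlinarith

theorem shift {n : ℕ} (hn : 2 ≤ n) (c : ℂ) (m : ℕ) : (F n c)^[m + 1] 0 = (F n c)^[m] c := by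
  rw [Function.iterate_succ_apply]
  simp [F, zero_pow (show n ≠ 0 by omega)]

theorem fam_mono {n : ℕ} {S S' : Set ℂ} {r r' : ℝ} {Ψ : ℂ → ℂ → ℂ} (h : Fam n S r Ψ) (hS : S' ⊆ S)
    (hr : r ≤ r') : Fam n S' r' Ψ :=
  ⟨h.cont.mono (prod_mono hS fun _ hw => hr.trans_lt hw), fun c hc => (h.bot c (hS hc)).mono hr⟩

theorem descend {n : ℕ} (hn : 2 ≤ n) (h2 : St_B2 n) {r : ℝ} (hr : 1 < r) (j : ℕ)
    (h : ∃ Ψ, Fam n (multibrotSet n) (r ^ n ^ j) Ψ) : ∃ Ψ, Fam n (multibrotSet n) r Ψ := by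
  induction j with
  | zero => simpa using h
  | succ j ih =>
    obtain ⟨Ψ, hΨ⟩ := h
    rw [pow_succ, pow_mul] at hΨ
    exact ih (h2 _ Ψ (one_lt_pow₀ hr (by positivity)) hΨ)

end A3B3

open A3B3

theorem a3 {n : ℕ} (hn : 2 ≤ n) (h1 : St_A1 n) (h2 : St_A2) : St_A n := by
  have hm : Antitone fun m => {c : ℂ | ‖(F n c)^[m] c‖ ≤ 4} := by
    refine antitone_nat_of_succ_le fun m c hc => ?_
    simp only [mem_ofPred_eq] at hc ⊢
    refine not_lt.mp fun h => not_lt.mpr hc ?_
    have h3 : ‖c‖ ≤ ‖(F n c)^[m] c‖ := by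
      rcases le_or_gt ‖c‖ 4 with h4 | h4
      · exact h4.trans h.le
      · exact big hn h4 m
    rw [iter_succ]
    have := step hn c (y := (F n c)^[m] c) (by linarith)
    nlinarith
  have he : multibrotSet n = ⋂ m, {c : ℂ | ‖(F n c)^[m] c‖ ≤ 4} := by
    refine Subset.antisymm (fun c hc => mem_iInter.mpr fun m =>
      (not_lt.mp fun h => ?_ : ‖(F n c)^[m] c‖ ≤ 4))
      fun c hc => mem_of_bdd (R := 4) fun k => ?_
    · have h3 := norm_le_two hn hc
      have h4 := orbit_lt hn hc (ρ := 5) (by linarith) (m + 1 + 1)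
      rw [shift hn, iter_succ] at h4
      have := step hn c (y := (F n c)^[m] c) (by linarith)
      nlinarith
    · rcases k with _ | k
      · simp
      · rw [shift hn]; exact mem_iInter.mp hc k
  rw [St_A, he]
  refine nested hm (fun m => (isCompact_closedBall 0 4).of_isClosed_subset ?_ fun c hc => ?_)
    fun m => ?_
  · exact isClosed_le ((continuous_iter n m).comp (continuous_id.prodMk continuous_id)).norm
      continuous_const
  · exact mem_closedBall_zero_iff.mpr (hm (Nat.zero_le m) hc)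
  · obtain ⟨G, hG, hG'⟩ := h1 m
    have := h2 (pol n m) G (by rw [pol_deg hn]; positivity) (by simpa only [pol_eval] using hG)
      (by simpa only [pol_eval, pol_deg hn] using hG')
    simpa only [pol_eval] using this

theorem b3 {n : ℕ} (hn : 2 ≤ n) (h1 : St_B1 n) (hU : St_U n) (h2 : St_B2 n) : St_B n := by
  have h3 : ∀ r : ℝ, ∃ Ψ, 1 < r → Fam n (multibrotSet n) r Ψ := fun r => by
    by_cases hr : 1 < r
    · obtain ⟨Ψ, hΨ⟩ := h1
      obtain ⟨j, hj⟩ := (((tendsto_pow_atTop_atTop_of_one_lt hr).comp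
        (tendsto_pow_atTop_atTop_of_one_lt (by omega : 1 < n))).eventually_ge_atTop 4).exists
      exact (descend hn h2 hr j ⟨Ψ, fam_mono hΨ
        (fun c hc => mem_closedBall_zero_iff.mpr (norm_le_two hn hc)) hj⟩).imp fun _ h _ => h
    · exact ⟨fun _ _ => 0, fun h => absurd h hr⟩
  choose Ψ hΨ using h3
  have key : ∀ r : ℝ, 1 < r → ∀ c ∈ multibrotSet n, ∀ w : ℂ, r < ‖w‖ →
      Ψ ((1 + ‖w‖) / 2) c w = Ψ r c w := fun r hr c hc w hw =>
    hU c (max ((1 + ‖w‖) / 2) r) _ _ (hr.le.trans (le_max_right _ _))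
      (((hΨ _ (by linarith)).bot c hc).mono (le_max_left _ _))
      (((hΨ r hr).bot c hc).mono (le_max_right _ _)) (max_lt (by linarith) hw)
  refine ⟨fun c w => Ψ ((1 + ‖w‖) / 2) c w, fun p hp => ?_, fun c hc => ⟨fun w hw => ?_, ?_, ?_⟩⟩
  · have hw : 1 < ‖p.2‖ := hp.2
    have hr : 1 < (1 + ‖p.2‖) / 2 := by linarith
    have hN : {q : ℂ × ℂ | (1 + ‖p.2‖) / 2 < ‖q.2‖} ∈ 𝓝 p :=
      (isOpen_lt continuous_const continuous_snd.norm).mem_nhds (by
        simp only [mem_ofPred_eq]; linarith)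
    rw [← continuousWithinAt_inter hN]
    refine (((hΨ _ hr).cont p ⟨hp.1, (mem_of_mem_nhds hN :)⟩).mono
      fun q hq => ⟨hq.1.1, hq.2⟩).congr (fun q hq => key _ hr q.1 hq.1.1 q.2 hq.2) rfl
  · have hw' : 1 < ‖w‖ := hw
    have hr : 1 < (1 + ‖w‖) / 2 := by linarith
    have hN : {q : ℂ | (1 + ‖w‖) / 2 < ‖q‖} ∈ 𝓝 w :=
      (ext_open _).mem_nhds (by simp only [mem_ofPred_eq]; linarith)
    exact ((((hΨ _ hr).bot c hc).diff.differentiableAt hN).congr_of_eventuallyEq
      (eventually_of_mem hN fun q hq => key _ hr c hc q hq)).differentiableWithinAt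
  · intro w hw
    have hr : 1 < (1 + ‖w‖) / 2 := by linarith
    have h4 : (1 + ‖w‖) / 2 < ‖w ^ n‖ := by
      rw [norm_pow]
      exact lt_of_lt_of_le (by linarith) (le_self_pow₀ hw.le (by omega))
    rw [key _ hr c hc _ h4]
    exact ((hΨ _ hr).bot c hc).conj w (by linarith)
  · refine ((hΨ 2 one_lt_two).bot c hc).norm.congr' ?_
    filter_upwards [(tendsto_norm_cobounded_atTop (E := ℂ)).eventually_gt_atTop 2] with w hw
    rw [key 2 one_lt_two c hc w hw]

end Pool.Agent.Lib.MP_c35c17_an.L
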