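import Pool.Agent.Lib.MP_c35c17_an.LBlue

/-! Inverse Boettcher maps near infinity. -/

set_option autoImplicit false

open Filter Topology Set Metric Complex Bornology N62a1eb23
open scoped Real

namespace Pool.Agent.Lib.MP_c35c17_an.L

namespace B1

lemma slit {y : ℂ} (hy : ‖y - 1‖ ≤ 1 / 3) : y ∈ slitPlane :=
  ball_one_subset_slitPlane (mem_ball_iff_norm.2 (by linarith))

lemma lip {n : ℕ} (hn : 2 ≤ n) {x y : ℂ} (hx : ‖x - 1‖ ≤ 1 / 3) (hy : ‖y - 1‖ ≤ 1 / 3) :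
    ‖x ^ (n⁻¹ : ℂ) - y ^ (n⁻¹ : ℂ)‖ ≤ 3 / 4 * ‖x - y‖ := by
  refine (convex_closedBall (1 : ℂ) (1 / 3)).norm_image_sub_le_of_norm_hasDerivWithin_le
    (f := fun y => y ^ (n⁻¹ : ℂ)) (f' := fun y => (n⁻¹ : ℂ) * y ^ ((n⁻¹ : ℂ) - 1))
    (fun z hz => (hasStrictDerivAt_cpow_const
      (slit (mem_closedBall_iff_norm.1 hz))).hasDerivAt.hasDerivWithinAt) (fun z hz => ?_)
    (mem_closedBall_iff_norm.2 hy) (mem_closedBall_iff_norm.2 hx)
  have h1 := norm_sub_norm_le (1 : ℂ) z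
  rw [norm_sub_rev, norm_one] at h1
  have h2 := mem_closedBall_iff_norm.1 hz
  have h3 : (n : ℝ)⁻¹ ≤ 2⁻¹ := inv_anti₀ two_pos (by exact_mod_cast hn)
  have h4 : 0 ≤ (n : ℝ)⁻¹ := by positivity
  have h5 : ‖z‖ ^ ((n : ℝ)⁻¹ - 1) ≤ 3 / 2 :=
    (Real.rpow_le_rpow_of_nonpos (x := 2 / 3) (by norm_num) (by linarith) (by linarith)).trans
      ((Real.rpow_le_rpow_of_exponent_ge (z := -1) (by norm_num) (by norm_num)
        (by linarith)).trans_eq (by rw [Real.rpow_neg_one]; norm_num))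
  rw [norm_mul, show (n⁻¹ : ℂ) - 1 = (((n : ℝ)⁻¹ - 1 : ℝ) : ℂ) by push_cast; rfl, norm_cpow_real,
    norm_inv, Complex.norm_natCast]
  nlinarith [mul_le_mul h3 h5 (by positivity) (by norm_num)]

/-- The approximations of `Ψ c w / w`. -/
noncomputable def u (n : ℕ) : ℕ → ℂ → ℂ → ℂ
  | 0, _, _ => 1
  | j + 1, c, w => (u n j c (w ^ n) - c / w ^ n) ^ (n⁻¹ : ℂ)

variable {n : ℕ} (hn : 2 ≤ n)
include hn

lemma pw {w : ℂ} (hw : 4 < ‖w‖) : 4 * ‖w‖ ≤ ‖w ^ n‖ := by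
  rw [norm_pow]
  nlinarith [pow_le_pow_right₀ (show 1 ≤ ‖w‖ by linarith) hn]

lemma pw' {w : ℂ} (hw : 4 < ‖w‖) : 4 < ‖w ^ n‖ := by linarith [pw hn hw]

lemma arg {c w y : ℂ} (hc : ‖c‖ ≤ 2) (hw : 4 < ‖w‖) (hy : ‖y - 1‖ ≤ ‖w ^ n‖⁻¹) :
    ‖y - c / w ^ n - 1‖ ≤ ‖w‖⁻¹ ∧ ‖y - c / w ^ n - 1‖ ≤ 1 / 3 := by
  have h1 : ‖w ^ n‖⁻¹ ≤ (4 * ‖w‖)⁻¹ := inv_anti₀ (by linarith) (pw hn hw)
  have h2 : ‖w‖⁻¹ ≤ 4⁻¹ := inv_anti₀ four_pos hw.le
  have h3 := norm_sub_le (y - 1) (c / w ^ n)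
  have h4 : 0 ≤ ‖w ^ n‖⁻¹ := by positivity
  rw [norm_div, div_eq_mul_inv ‖c‖, sub_right_comm] at h3
  rw [mul_inv] at h1
  have h5 := mul_le_mul_of_nonneg_right hc h4
  constructor <;> linarith

lemma bd (j : ℕ) {c : ℂ} (hc : ‖c‖ ≤ 2) : ∀ w, 4 < ‖w‖ → ‖u n j c w - 1‖ ≤ ‖w‖⁻¹ := by
  induction j with
  | zero => intro w _; simp [u]
  | succ j ih =>
    intro w hw
    obtain ⟨h1, h2⟩ := arg hn hc hw (ih _ (pw' hn hw))
    have h3 := lip hn h2 (y := 1) (by simp)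
    rw [one_cpow] at h3
    rw [u]
    linarith [norm_nonneg (u n j c (w ^ n) - c / w ^ n - 1)]

lemma bd' (j : ℕ) {c w : ℂ} (hc : ‖c‖ ≤ 2) (hw : 4 < ‖w‖) :
    ‖u n j c (w ^ n) - c / w ^ n - 1‖ ≤ 1 / 3 := (arg hn hc hw (bd hn j hc _ (pw' hn hw))).2

lemma step (j : ℕ) {c : ℂ} (hc : ‖c‖ ≤ 2) :
    ∀ w, 4 < ‖w‖ → ‖u n (j + 1) c w - u n j c w‖ ≤ (3 / 4) ^ j := by
  induction j with
  | zero =>
    intro w hw
    exact (bd hn 1 hc w hw).trans (by simpa using inv_le_one_of_one_le₀ (by linarith))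
  | succ j ih =>
    intro w hw
    have h1 := lip hn (bd' hn (j + 1) hc hw) (bd' hn j hc hw)
    rw [sub_sub_sub_cancel_right] at h1
    have h2 := ih _ (pw' hn hw)
    rw [pow_succ']
    exact h1.trans (by linarith)

lemma cont (j : ℕ) : ContinuousOn (fun p : ℂ × ℂ => u n j p.1 p.2)
    (closedBall 0 2 ×ˢ {w | 4 < ‖w‖}) := by
  induction j with
  | zero => exact continuousOn_const
  | succ j ih =>
    refine ContinuousOn.cpow_const (.sub (ih.comp (f := fun p : ℂ × ℂ => (p.1, p.2 ^ n))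
      (by fun_prop) fun p hp => ⟨hp.1, pw' hn hp.2⟩) (.div (by fun_prop) (by fun_prop)
        fun p hp => norm_pos_iff.1 (four_pos.trans (pw' hn hp.2))))
      fun p hp => slit (bd' hn j (mem_closedBall_zero_iff.1 hp.1) hp.2)

lemma diff (j : ℕ) {c : ℂ} (hc : ‖c‖ ≤ 2) : DifferentiableOn ℂ (u n j c) {w | 4 < ‖w‖} := by
  induction j with
  | zero => exact differentiableOn_const 1
  | succ j ih =>
    exact DifferentiableOn.cpow_const (.sub (ih.comp (f := fun w : ℂ => w ^ n)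
      (by fun_prop) fun w hw => pw' hn hw) (.div (by fun_prop) (by fun_prop)
        fun w hw => norm_pos_iff.1 (four_pos.trans (pw' hn hw)))) fun w hw => slit (bd' hn j hc hw)

end B1

open B1 in
theorem b1 {n : ℕ} (hn : 2 ≤ n) : St_B1 n := by
  have hs : Summable fun j : ℕ => (3 / 4 : ℝ) ^ j :=
    summable_geometric_of_lt_one (by norm_num) (by norm_num)
  let U : ℂ → ℂ → ℂ := fun c w => (∑' j, (u n (j + 1) c w - u n j c w)) + 1
  have lim : ∀ {c w : ℂ}, ‖c‖ ≤ 2 → 4 < ‖w‖ → Tendsto (fun j => u n j c w) atTop (𝓝 (U c w)) :=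
    fun {c w} hc hw => by
      refine ((hs.of_norm_bounded fun j => step hn j hc w hw).hasSum.tendsto_sum_nat.add_const
        1).congr fun j => ?_
      rw [Finset.sum_range_sub fun j => u n j c w]
      simp [u]
  refine ⟨fun c w => w * U c w, continuousOn_snd.mul (.add (continuousOn_tsum
    (fun j => (cont hn (j + 1)).sub (cont hn j)) hs fun j p hp =>
      step hn j (mem_closedBall_zero_iff.1 hp.1) _ hp.2) continuousOn_const), fun c hc => ?_⟩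
  rw [mem_closedBall_zero_iff] at hc
  refine ⟨differentiableOn_id.mul (.add (differentiableOn_tsum_of_summable_norm hs
    (fun j => (diff hn (j + 1) hc).sub (diff hn j hc)) (isOpen_lt continuous_const continuous_norm)
    fun j w hw => step hn j hc w hw) (differentiableOn_const 1)), fun w hw => ?_, ?_⟩
  · have h1 : U c w ^ n = U c (w ^ n) - c / w ^ n :=
      tendsto_nhds_unique (((tendsto_add_atTop_iff_nat 1).2 (lim hc hw)).pow n)
        (((lim hc (pw' hn hw)).sub_const _).congr fun j =>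
          (cpow_nat_inv_pow _ (by omega)).symm)
    have h2 : w ^ n ≠ 0 := norm_pos_iff.1 (four_pos.trans (pw' hn hw))
    rw [mul_pow, h1]
    field_simp
    ring
  · have h0 : Tendsto (fun w : ℂ => ‖w‖) (cobounded ℂ) atTop := tendsto_norm_cobounded_atTop
    rw [tendsto_iff_norm_sub_tendsto_zero]
    refine squeeze_zero' (.of_forall fun _ => norm_nonneg _) ?_ h0.inv_tendsto_atTop
    filter_upwards [h0.eventually_gt_atTop 4] with w hw
    rw [mul_div_cancel_left₀ _ (norm_pos_iff.1 (four_pos.trans hw))]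
    exact le_of_tendsto' ((lim hc hw).sub_const 1).norm fun j => bd hn j hc w hw

end Pool.Agent.Lib.MP_c35c17_an.L
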