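import Pool.Agent.Lib.MP_c35c17_an.LBlue

/-! One extension step for the inverse Boettcher maps. -/

set_option autoImplicit false

open Filter Topology Set Metric Complex Bornology N62a1eb23
open scoped Real unitInterval

namespace Pool.Agent.Lib.MP_c35c17_an.L

theorem b2 {n : ℕ} (hn : 2 ≤ n) : St_B2 n := by
  classical
  intro r Ψ hr hΨ
  have hn0 : n ≠ 0 := by omega
  have hrR : r ≤ r ^ n := le_self_pow₀ hr.le hn0
  have hR1 : 1 ≤ r ^ n := hr.le.trans hrR
  let l : I → ℝ := fun s => 1 + (1 - (s : ℝ)) * r ^ n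
  have hl : ∀ s, 1 ≤ l s := fun s =>
    le_add_of_nonneg_right (mul_nonneg (by linarith [s.2.2]) (by positivity))
  have hlc : Continuous l := by fun_prop
  have hnorm : ∀ (s : I) (w : ℂ), ‖w‖ ≤ ‖(l s : ℂ) * w‖ := fun s w => by
    rw [norm_mul, Complex.norm_real, Real.norm_of_nonneg (by linarith [hl s])]
    exact le_mul_of_one_le_left (norm_nonneg _) (hl s)
  have hpow : ∀ w : ℂ, r < ‖w‖ → r ^ n < ‖w ^ n‖ := fun w hw => by
    rw [norm_pow]; exact pow_lt_pow_left₀ hw (by linarith) hn0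
  have hne : ∀ c ∈ multibrotSet n, ∀ w : ℂ, r ^ n < ‖w‖ → Ψ c w - c ≠ 0 := fun c hc w hw h => by
    refine (hΨ.bot c hc).ne_orbit hn hc hR1 hw 1 ?_
    simpa [F, zero_pow hn0] using sub_eq_zero.mp h
  let X := ↥(multibrotSet n ×ˢ {w : ℂ | r < ‖w‖})
  have h0 : ∀ x : X, r ^ n < ‖(l 0 : ℂ) * x.1.2‖ := fun x => by
    have h1 : r < ‖x.1.2‖ := x.2.2
    rw [norm_mul, Complex.norm_real, Real.norm_of_nonneg (by linarith [hl 0])]
    simp only [l, Icc.coe_zero, sub_zero, one_mul]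
    nlinarith
  have hX1 : Continuous fun p : I × X => p.2.1.1 :=
    (continuous_subtype_val.comp continuous_snd).fst
  have hX2 : Continuous fun p : I × X => p.2.1.2 :=
    (continuous_subtype_val.comp continuous_snd).snd
  have hX3 : Continuous fun p : I × X => (l p.1 : ℂ) :=
    continuous_ofReal.comp (hlc.comp continuous_fst)
  obtain ⟨v, hv, hv0, hvn⟩ := lift_pow (X := X) hn0
    (H := fun p => Ψ p.2.1.1 (((l p.1 : ℂ) * p.2.1.2) ^ n) - p.2.1.1)
    (Continuous.sub (hΨ.cont.comp_continuous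
      (f := fun p : I × X => (p.2.1.1, ((l p.1 : ℂ) * p.2.1.2) ^ n))
      (hX1.prodMk ((hX3.mul hX2).pow n))
      fun p => ⟨p.2.2.1, hpow _ (lt_of_lt_of_le p.2.2.2 (hnorm _ _))⟩) hX1)
    (fun p => hne _ p.2.2.1 _ (hpow _ (lt_of_lt_of_le p.2.2.2 (hnorm _ _))))
    (v₀ := fun x => Ψ x.1.1 ((l 0 : ℂ) * x.1.2))
    (hΨ.cont.comp_continuous (f := fun x : X => (x.1.1, (l 0 : ℂ) * x.1.2))
      (continuous_subtype_val.fst.prodMk (continuous_const.mul continuous_subtype_val.snd))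
      fun x => ⟨x.2.1, h0 x⟩)
    fun x => by rw [(hΨ.bot _ x.2.1).conj _ (h0 x), add_sub_cancel_right]
  let Ψ' : ℂ → ℂ → ℂ := fun c w =>
    if h : (c, w) ∈ multibrotSet n ×ˢ {w : ℂ | r < ‖w‖} then v (1, ⟨(c, w), h⟩) else 0
  have hcont : ContinuousOn (fun p : ℂ × ℂ => Ψ' p.1 p.2)
      (multibrotSet n ×ˢ {w : ℂ | r < ‖w‖}) := by
    rw [continuousOn_iff_continuous_domRestrict]
    have : Continuous fun x : X => v (1, x) := hv.comp (continuous_const.prodMk continuous_id)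
    exact this.congr fun x => by
      simp only [Ψ', domRestrict_apply, Prod.mk.eta, dif_pos x.2]
      rfl
  have hroot : ∀ c ∈ multibrotSet n, ∀ w : ℂ, r < ‖w‖ → Ψ' c w ^ n = Ψ c (w ^ n) - c :=
    fun c hc w hw => by
      have h1 : (c, w) ∈ multibrotSet n ×ˢ {w : ℂ | r < ‖w‖} := ⟨hc, hw⟩
      simp only [Ψ', dif_pos h1]
      rw [hvn]
      simp [l]
  have heq : ∀ c ∈ multibrotSet n, ∀ w : ℂ, r ^ n < ‖w‖ → Ψ' c w = Ψ c w := fun c hc w hw => by
    have h1 : (c, w) ∈ multibrotSet n ×ˢ {w : ℂ | r < ‖w‖} := ⟨hc, hrR.trans_lt hw⟩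
    have h2 : ∀ s : I, r ^ n < ‖(l s : ℂ) * w‖ := fun s => hw.trans_le (hnorm s w)
    have h3 : ∀ s : I, Ψ c ((l s : ℂ) * w) ^ n = Ψ c (((l s : ℂ) * w) ^ n) - c := fun s => by
      rw [(hΨ.bot c hc).conj _ (h2 s), add_sub_cancel_right]
    have h4 := eqOn_of_pow (X := I) hn0 isPreconnected_univ (v := fun s => v (s, ⟨(c, w), h1⟩))
      (w := fun s => Ψ c ((l s : ℂ) * w))
      (hv.comp (continuous_id.prodMk continuous_const)).continuousOn
      ((hΨ.bot c hc).diff.continuousOn.comp_continuous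
        ((continuous_ofReal.comp hlc).mul continuous_const) h2).continuousOn
      (fun s _ h => hne c hc _ (hpow _ (hrR.trans_lt (h2 s))) (by rw [← h3, h, zero_pow hn0]))
      (fun s _ => by rw [hvn, h3]) (mem_univ 0) (hv0 _) (mem_univ 1)
    simp only [Ψ', dif_pos h1]
    simpa [l] using h4
  refine ⟨Ψ', hcont, fun c hc => ⟨fun w hw => ?_, fun w hw => ?_, ?_⟩⟩
  · have hw' : r < ‖w‖ := hw
    have h1 : Ψ' c w ≠ 0 := fun h =>
      hne c hc _ (hpow w hw') (by rw [← hroot c hc w hw', h, zero_pow hn0])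
    have h2 : ContinuousAt (Ψ' c) w :=
      (hcont.comp (f := fun w : ℂ => (c, w)) (by fun_prop) fun w hw => ⟨hc, hw⟩).continuousAt
        ((ext_open r).mem_nhds hw)
    have h3 : DifferentiableAt ℂ (fun w : ℂ => Ψ c (w ^ n) - c) w :=
      (((hΨ.bot c hc).diff.differentiableAt ((ext_open _).mem_nhds (hpow w hw'))).comp w
        (f := fun w : ℂ => w ^ n) (by fun_prop)).sub_const c
    exact (hasDerivAt_of_comp (f := fun y => y ^ n) (hasStrictDerivAt_pow n (Ψ' c w))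
      (mul_ne_zero (Nat.cast_ne_zero.mpr hn0) (pow_ne_zero _ h1)) h2 h3.hasDerivAt
      (by filter_upwards [(ext_open r).mem_nhds hw] with y hy using hroot c hc y hy)
      ).differentiableAt.differentiableWithinAt
  · rw [heq c hc _ (hpow w hw), hroot c hc w hw, sub_add_cancel]
  · refine (hΨ.bot c hc).norm.congr' ?_
    filter_upwards [(tendsto_norm_cobounded_atTop (E := ℂ)).eventually (eventually_gt_atTop (r ^ n))] with w hw
    rw [heq c hc w hw]

end Pool.Agent.Lib.MP_c35c17_an.L
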