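import Pool.Agent.Lib.MP_c35c17_an.LDefs

/-! Statements of the blocks of the limb diameter theorem. -/

set_option autoImplicit false

open Filter Topology Set Metric Complex Bornology N62a1eb23
open scoped Real

namespace Pool.Agent.Lib.MP_c35c17_an.L

/-- A root of the critical orbit polynomial outside the level three set. -/
def St_A1 (n : ℕ) : Prop := ∀ m : ℕ, ∃ G : ℂ → ℂ, ContinuousOn G {c | 3 < ‖(F n c)^[m] c‖} ∧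
  ∀ c, 3 < ‖(F n c)^[m] c‖ → G c ^ n ^ m = (F n c)^[m] c

/-- A polynomial with such a root has a connected sublevel set. -/
def St_A2 : Prop := ∀ (p : Polynomial ℂ) (G : ℂ → ℂ), 0 < p.natDegree →
  ContinuousOn G {c | 3 < ‖p.eval c‖} → (∀ c, 3 < ‖p.eval c‖ → G c ^ p.natDegree = p.eval c) →
    IsPreconnected {c | ‖p.eval c‖ ≤ 4}

/-- The Multibrot set is connected. -/
def St_A (n : ℕ) : Prop := IsPreconnected (multibrotSet n)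

/-- Inverse Boettcher maps near infinity. -/
def St_B1 (n : ℕ) : Prop := ∃ Ψ, Fam n (closedBall 0 2) 4 Ψ

/-- Uniqueness of the inverse Boettcher map. -/
def St_U (n : ℕ) : Prop := ∀ (c : ℂ) (r : ℝ) (Φ Φ' : ℂ → ℂ), 1 ≤ r → Bot n c r Φ → Bot n c r Φ' →
  EqOn Φ Φ' {w | r < ‖w‖}

/-- One extension step. -/
def St_B2 (n : ℕ) : Prop := ∀ (r : ℝ) (Ψ : ℂ → ℂ → ℂ), 1 < r → Fam n (multibrotSet n) (r ^ n) Ψ →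
  ∃ Ψ', Fam n (multibrotSet n) r Ψ'

/-- Inverse Boettcher maps on the exterior of the unit disc. -/
def St_B (n : ℕ) : Prop := ∃ Ψ, Fam n (multibrotSet n) 1 Ψ

/-- Injectivity. -/
def St_I (n : ℕ) : Prop := ∀ c ∈ multibrotSet n, ∀ Φ, Bot n c 1 Φ → InjOn Φ {w | 1 < ‖w‖}

/-- Periodic rays land at periodic points. -/
def St_D (n : ℕ) : Prop := ∀ (P : ℕ) (c ζ : ℂ) (Φ : ℂ → ℂ), Cj n c Φ → 0 < P → ‖ζ‖ = 1 →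
  ζ ^ n ^ P = ζ → ∃ z, (F n c)^[P] z = z ∧ Tendsto (fun x : ℝ => ray Φ ζ x) atBot (𝓝 z)

/-- The logarithm of the multiplier selected by a ray. -/
def St_C1 (n : ℕ) : Prop := ∀ (P : ℕ) (c ζ z : ℂ) (Φ : ℂ → ℂ), Cj n c Φ → 0 < P → ‖ζ‖ = 1 →
  ζ ^ n ^ P = ζ → (F n c)^[P] z = z → Tendsto (fun x : ℝ => ray Φ ζ x) atBot (𝓝 z) →
    1 ≤ ‖dF n c P z‖ ∧ ∃ τ, Land n P c Φ ζ z τ ∧ exp τ = dF n c P z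

/-- The length-area inequality in logarithmic coordinates. -/
def St_C2a : Prop := ∀ (T : Finset ℂ) (l : ℂ → ℂ → ℂ) (τ : ℂ → ℂ) (a L Λ ε : ℝ), 0 < L → 0 ≤ Λ →
  0 ≤ ε → (∀ j ∈ T, DifferentiableOn ℂ (l j) (univ ×ℂ Ioo (-(3 / 2)) (3 / 2))) →
  (∀ i ∈ T, ∀ j ∈ T, ∀ u ∈ Iic a ×ℂ Icc (-1) 1, ∀ v ∈ Iic a ×ℂ Icc (-1) 1,
    exp (l i u) = exp (l j v) → i = j ∧ u = v) →
  (∀ j ∈ T, (τ j).re ≤ Λ ∧ ∀ u ∈ Iic a ×ℂ Icc (-1) 1,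
    (l j u).re ≤ 0 ∧ ‖l j u - l j (u - L) - τ j‖ ≤ ε) →
  ∑ j ∈ T, (‖τ j‖ ^ 2 - 2 * ε * ‖τ j‖) ≤ π * L * (Λ + ε)

/-- The Pommerenke-Levin-Yoccoz inequality with rotation. -/
def St_C2 (n : ℕ) : Prop := ∀ (P : ℕ) (c z : ℂ) (Φ : ℂ → ℂ) (T : Finset ℂ) (τ : ℂ → ℂ), Cj n c Φ →
  0 < P → (∀ ζ ∈ T, ‖ζ‖ = 1 ∧ ζ ^ n ^ P = ζ ∧ Land n P c Φ ζ z (τ ζ)) → 1 ≤ ‖dF n c P z‖ →
    ∑ ζ ∈ T, ‖τ ζ‖ ^ 2 ≤ π * (P * Real.log n) * Real.log ‖dF n c P z‖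

/-- Landing at a repelling point persists. -/
def St_E1 (n : ℕ) : Prop := ∀ (P : ℕ) (S : Set ℂ) (Ψ : ℂ → ℂ → ℂ) (c ζ z : ℂ),
  ContinuousOn (fun p : ℂ × ℂ => Ψ p.1 p.2) (S ×ˢ {w | 1 < ‖w‖}) → (∀ u ∈ S, Cj n u (Ψ u)) →
  c ∈ S → 0 < P → ‖ζ‖ = 1 → ζ ^ n ^ P = ζ → (F n c)^[P] z = z →
  Tendsto (fun x : ℝ => ray (Ψ c) ζ x) atBot (𝓝 z) → 1 < ‖dF n c P z‖ →
    ∀ η > 0, ∃ a : ℝ, ∀ᶠ u in 𝓝[S] c, ∃ w, (F n u)^[P] w = w ∧ ‖w - z‖ < η ∧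
      Tendsto (fun x : ℝ => ray (Ψ u) ζ x) atBot (𝓝 w) ∧ ∀ x : ℝ, x ≤ a → ‖ray (Ψ u) ζ x - z‖ ≤ η

/-- Landing at a repelling point persists, with the logarithm of the multiplier. -/
def St_E (n : ℕ) : Prop := ∀ (P : ℕ) (S : Set ℂ) (Ψ : ℂ → ℂ → ℂ) (c ζ z τ : ℂ),
  ContinuousOn (fun p : ℂ × ℂ => Ψ p.1 p.2) (S ×ˢ {w | 1 < ‖w‖}) → (∀ u ∈ S, Cj n u (Ψ u)) →
  c ∈ S → 0 < P → ‖ζ‖ = 1 → ζ ^ n ^ P = ζ → Land n P c (Ψ c) ζ z τ → 1 < ‖dF n c P z‖ →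
    ∀ ε > 0, ∀ᶠ u in 𝓝[S] c, ∃ w σ, Land n P u (Ψ u) ζ w σ ∧ ‖w - z‖ < ε ∧ ‖σ - τ‖ < ε

/-- Lower bound for the logarithmic derivative of the multiplier in the parameter. -/
def St_F1 (n : ℕ) : Prop := ∃ C : ℝ, 0 < C ∧ ∀ (k : ℕ) (c z a b s : ℂ), ‖c‖ ≤ 2 → 0 < k →
  (F n c)^[k] z = z → 1 < ‖dF n c k z‖ → C * k ^ 48 * (‖dF n c k z‖ - 1) ≤ 1 →
  C * k ^ 24 * (‖dF n c k z‖ - 1) ≤ ‖dF n c k z - 1‖ ^ 24 →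
  HasDerivAt (fun t : ℂ => (F n (c + t * a))^[k] (z + t * b)) b 0 →
  HasDerivAt (fun t : ℂ => dF n (c + t * a) k (z + t * b)) (dF n c k z * s) 0 →
    ‖a‖ ^ 24 * Real.log ‖dF n c k z‖ ^ 23 ≤ (2 * ‖s‖) ^ 24

/-- Cycles are strongly repelling outside the disc of radius two. -/
def St_F2 (n : ℕ) : Prop := ∀ (k : ℕ) (c z : ℂ), 2 ≤ ‖c‖ → 0 < k → (F n c)^[k] z = z →
  6 / 5 ≤ ‖dF n c k z‖

/-- Lifting a curve through a map that is proper and unramified over it. -/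
def St_F3a : Prop := ∀ (Θ : ℂ × ℂ → ℂ × ℂ) (γ γ' : ℂ → ℂ × ℂ) (t₁ t₀ : ℂ) (D R : ℝ) (p₀ : ℂ × ℂ),
  ContDiff ℂ 1 Θ → (∀ t, HasDerivAt γ (γ' t) t) →
  (∀ t ∈ ball t₁ D, ∀ p, Θ p = γ t → ‖p‖ < R ∧ Function.Injective (fderiv ℂ Θ p)) →
  t₀ ∈ ball t₁ D → Θ p₀ = γ t₀ → ∃ G : ℂ → ℂ × ℂ, G t₀ = p₀ ∧ ∀ t ∈ ball t₁ D, Θ (G t) = γ t ∧
    (∃ v, HasDerivAt G v t ∧ fderiv ℂ Θ (G t) v = γ' t) ∧
      ∀ᶠ q : (ℂ × ℂ) × ℂ in 𝓝 (G t, t), Θ q.1 = γ q.2 → G q.2 = q.1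

/-- Continuation of a cycle along the logarithm of its multiplier. -/
def St_F3 (n : ℕ) : Prop := ∃ C : ℝ, 1 ≤ C ∧ ∀ (k : ℕ) (D : ℝ) (ω t₀ c z : ℂ), 0 < k → 0 < D →
  ‖ω‖ = 1 → t₀ ∈ ball (D : ℂ) D → (F n c)^[k] z = z → dF n c k z = ω * exp t₀ →
  C * k ^ 48 * D ≤ 1 → C * k ^ 24 * D ≤ ‖dF n c k z - 1‖ ^ 24 →
    ∃ G : ℂ → ℂ × ℂ, ContinuousOn G (ball (D : ℂ) D) ∧ G t₀ = (c, z) ∧ ∀ t ∈ ball (D : ℂ) D,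
      (F n (G t).1)^[k] (G t).2 = (G t).2 ∧ dF n (G t).1 k (G t).2 = ω * exp t ∧
        ‖(G t).1 - c‖ ^ 24 ≤ C * D ∧ ∀ᶠ p : (ℂ × ℂ) × ℂ in 𝓝 (G t, t),
          (F n p.1.1)^[k] p.1.2 = p.1.2 → dF n p.1.1 k p.1.2 = ω * exp p.2 → G p.2 = p.1

/-- Finitely many parameters have a cycle of given period and multiplier one. -/
def St_G (n : ℕ) : Prop := ∀ P : ℕ, 0 < P →
  {c : ℂ | ‖c‖ ≤ 2 ∧ ∃ z, (F n c)^[P] z = z ∧ dF n c P z = 1}.Finite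

/-- Connected neighbourhoods inside an open piece with finite boundary. -/
def St_H : Prop := ∀ (M O E : Set ℂ) (c : ℂ), IsClosed M → IsPreconnected M → O ⊆ M →
  (∀ x ∈ O, O ∈ 𝓝[M] x) → closure O ⊆ O ∪ E → E.Finite → c ∈ O →
    ∃ N ⊆ closure O, IsClosed N ∧ IsPreconnected N ∧ N ∈ 𝓝[M] c ∧ N ∩ closure (M \ N) ⊆ E

end Pool.Agent.Lib.MP_c35c17_an.L
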