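import Pool.Agent.Lib.MP_c35c17_an.LBlue

/-! Block C1: the logarithm of the multiplier selected by a landing ray. -/

set_option autoImplicit false

open Filter Topology Set Metric Complex Bornology N62a1eb23
open scoped Real

namespace Pool.Agent.Lib.MP_c35c17_an.L

namespace C1

theorem one_le {g : ℝ → ℂ} {L : ℝ} {μ : ℂ} (hL : 0 < L) (h0 : ∀ x, g x ≠ 0)
    (hg : Tendsto g atBot (𝓝 0))
    (h : ∀ κ > 0, ∀ᶠ x in atBot, ‖g x - μ * g (x - L)‖ ≤ κ * ‖g (x - L)‖) : 1 ≤ ‖μ‖ := by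
  refine not_lt.mp fun h1 => ?_
  obtain ⟨a, ha⟩ := eventually_atBot.mp (h (1 - ‖μ‖) (by linarith))
  have h2 : ∀ j : ℕ, ‖g a‖ ≤ ‖g (a - j * L)‖ := fun j => by
    induction j with
    | zero => simp
    | succ j ih =>
      have h3 := ha (a - j * L) (by have := mul_nonneg (Nat.cast_nonneg j) hL.le; linarith)
      have h4 := norm_sub_norm_le (g (a - j * L)) (μ * g (a - j * L - L))
      rw [norm_mul] at h4
      rw [show a - ((j + 1 : ℕ) : ℝ) * L = a - j * L - L by push_cast; ring]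
      linarith
  have h3 : Tendsto (fun j : ℕ => a - j * L) atTop atBot :=
    tendsto_atBot_add_const_left _ a (tendsto_neg_atTop_atBot.comp
      (tendsto_natCast_atTop_atTop.atTop_mul_const hL))
  have h4 := ge_of_tendsto' (hg.comp h3).norm h2
  rw [norm_zero] at h4
  exact h0 a (norm_le_zero_iff.mp h4)

theorem exists_lim {d : ℝ → ℂ} {μ : ℂ} (hd : Continuous d) (hμ : μ ≠ 0)
    (h : Tendsto (fun x => exp (d x)) atBot (𝓝 μ)) :
    ∃ τ, Tendsto d atBot (𝓝 τ) ∧ exp τ = μ := by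
  have h1 : ∀ ε > 0, ∀ᶠ x in atBot, ‖exp (d x) / μ - 1‖ ≤ ε := fun ε hε => by
    have h2 := ((h.div_const μ).sub_const 1).norm
    rw [div_self hμ, sub_self, norm_zero] at h2
    exact h2.eventually (ge_mem_nhds hε)
  obtain ⟨a, ha⟩ := eventually_atBot.mp (h1 (1 / 2) (by norm_num))
  have h2 : exp (d a - log (exp (d a) / μ)) = μ := by
    rw [exp_sub, exp_log (div_ne_zero (exp_ne_zero _) hμ)]
    field_simp
  refine ⟨_, ?_, h2⟩
  have h3 : ‖d a - (d a - log (exp (d a) / μ))‖ ≤ 1 := by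
    have h4 := norm_log_one_add_half_le_self (ha a le_rfl)
    rw [add_sub_cancel] at h4
    rw [sub_sub_cancel]
    linarith [ha a le_rfl]
  generalize d a - log (exp (d a) / μ) = τ at h2 h3
  have h4 := branch isPreconnected_Iic hd.continuousOn (τ := τ) le_rfl
    (fun x hx => by rw [exp_sub, h2]; exact ha x hx) (mem_Iic.mpr le_rfl) h3
  refine Metric.tendsto_nhds.mpr fun ε hε => ?_
  obtain ⟨b, hb⟩ := eventually_atBot.mp ((h1 (min (1 / 2) (ε / 2)) (by positivity)).and
    (eventually_le_atBot a))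
  have h5 := branch isPreconnected_Iic hd.continuousOn (τ := τ) (min_le_left (1 / 2) (ε / 2))
    (fun x hx => by rw [exp_sub, h2]; exact (hb x hx).1) (mem_Iic.mpr le_rfl)
    ((h4 b (hb b le_rfl).2).trans (by norm_num))
  filter_upwards [eventually_le_atBot b] with x hx
  rw [dist_eq_norm]
  linarith [h5 x hx, min_le_right (1 / 2) (ε / 2)]

end C1

theorem c1 {n : ℕ} (hn : 2 ≤ n) : St_C1 n := by
  intro P c ζ z Φ hΦ hP h1 hζ hz hl
  have hL : 0 < P * Real.log n := mul_pos (Nat.cast_pos.mpr hP)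
    (Real.log_pos (by exact_mod_cast (by omega : 1 < n)))
  have hne : ∀ x : ℝ, ray Φ ζ x ≠ z := fun x =>
    hΦ.ne_per hn hP hz (Q.ray_norm h1 (by norm_num))
  obtain ⟨l, hc, he⟩ := exists_log_curve (hΦ.ray_cont h1) hne
  have hs : Tendsto (fun x : ℝ => x - P * Real.log n) atBot atBot :=
    tendsto_atBot_add_const_right _ _ tendsto_id
  have key : ∀ κ > 0, ∀ᶠ x : ℝ in atBot, ‖exp (l x) - dF n c P z * exp (l (x - P * Real.log n))‖ ≤
      κ * ‖exp (l (x - P * Real.log n))‖ := fun κ hκ => by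
    obtain ⟨δ, hδ, h2⟩ := strict_iter n P c z hκ
    filter_upwards [(hl.comp hs).eventually (closedBall_mem_nhds z hδ)] with x hx
    have h3 := h2.self_of_nhds _ z (mem_closedBall_iff_norm.mp hx) (by simpa using hδ.le)
    rw [he, he, ray_shift (P := P) hn hΦ.conj h1 hζ (u := x) (by norm_num), ← ofReal_sub]
    rwa [hz] at h3
  have h2 : 1 ≤ ‖dF n c P z‖ := C1.one_le hL (fun x => exp_ne_zero (l x))
    (by simpa only [he] using tendsto_sub_nhds_zero_iff.mpr hl) key
  obtain ⟨τ, h3, h4⟩ := C1.exists_lim (d := fun x => l x - l (x - P * Real.log n))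
    (μ := dF n c P z) (by fun_prop) (norm_pos_iff.mp (by linarith))
    (Metric.tendsto_nhds.mpr fun ε hε => by
      filter_upwards [key (ε / 2) (half_pos hε)] with x hx
      have h5 := exp_ne_zero (l (x - P * Real.log n))
      rw [dist_eq_norm, exp_sub, div_sub' h5, norm_div, div_lt_iff₀ (norm_pos_iff.mpr h5), mul_comm]
      nlinarith [norm_pos_iff.mpr h5])
  exact ⟨h2, τ, ⟨hz, hl, l, hc, he, h3⟩, h4⟩

end Pool.Agent.Lib.MP_c35c17_an.L
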