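import Pool.Agent.Lib.MP_c35c17_an.LBlue

/-! The length-area inequality in logarithmic coordinates. -/

set_option autoImplicit false

open Filter Topology Set Metric Complex Bornology MeasureTheory
open scoped Real ComplexConjugate

namespace Pool.Agent.Lib.MP_c35c17_an.L

namespace C2a

theorem ofReal_sum_le {ι : Type*} (T : Finset ι) (f : ι → ℝ) :
    ENNReal.ofReal (∑ j ∈ T, f j) ≤ ∑ j ∈ T, ENNReal.ofReal (f j) := by
  classical
  induction T using Finset.induction_on with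
  | empty => simp
  | insert a s ha ih =>
    rw [Finset.sum_insert ha, Finset.sum_insert ha]
    exact ENNReal.ofReal_add_le.trans (add_le_add_right ih _)

theorem line_bound {l : ℂ → ℂ} {U : Set ℂ} (hU : IsOpen U) (hd : DifferentiableOn ℂ l U)
    {a b y : ℝ} (β : ℂ) (hab : a ≤ b) (hin : ∀ x ∈ Icc a b, (x + y * I : ℂ) ∈ U) :
    ENNReal.ofReal (2 * (conj β * (l (b + y * I) - l (a + y * I))).re - ‖β‖ ^ 2 * (b - a)) ≤
      ∫⁻ x in Icc a b, ENNReal.ofReal (‖deriv l (x + y * I)‖ ^ 2) := by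
  have hl : Continuous fun x : ℝ => (x + y * I : ℂ) := by fun_prop
  have hc : ContinuousOn (fun x : ℝ => ‖deriv l (x + y * I)‖ ^ 2) (Icc a b) :=
    ((hd.deriv hU).continuousOn.comp hl.continuousOn hin).norm.pow 2
  have hD : ∀ x ∈ Icc a b, HasDerivAt
      (fun x : ℝ => 2 * (conj β * l (x + y * I)).re - ‖β‖ ^ 2 * x)
      (2 * (conj β * deriv l (x + y * I)).re - ‖β‖ ^ 2 * 1) x := by
    intro x hx
    have h1 := (((hd.differentiableAt (hU.mem_nhds (hin x hx))).hasDerivAt.comp_add_const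
      (x : ℂ) (y * I)).const_mul (conj β)).real_of_complex
    exact (h1.const_mul 2).sub ((hasDerivAt_id x).const_mul _)
  have h1 := intervalIntegral.sub_le_integral_of_hasDeriv_right_of_le hab
    (fun x hx => (hD x hx).continuousAt.continuousWithinAt)
    (fun x hx => (hD x (Ioo_subset_Icc_self hx)).hasDerivWithinAt) hc.integrableOn_Icc
    fun x _ => by
      have h3 := re_le_norm (conj β * deriv l (x + y * I))
      rw [norm_mul, norm_conj] at h3
      nlinarith [sq_nonneg (‖deriv l (x + y * I)‖ - ‖β‖)]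
  rw [← ofReal_integral_eq_lintegral_ofReal hc.integrableOn_Icc
    (Eventually.of_forall fun x => by positivity), integral_Icc_eq_integral_Ioc,
    ← intervalIntegral.integral_of_le hab]
  refine ENNReal.ofReal_le_ofReal (le_trans (le_of_eq ?_) h1)
  rw [mul_sub, sub_re]
  ring

theorem num {τ w : ℂ} {L ε : ℝ} (m : ℕ) (hL : 0 < L) (hw : ‖w - m * τ‖ ≤ m * ε) :
    m * ((‖τ‖ ^ 2 - 2 * ε * ‖τ‖) / L) ≤
      2 * (conj (τ / L) * w).re - ‖τ / (L : ℂ)‖ ^ 2 * (m * L) := by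
  have e1 : conj (τ / L) * w = ((L⁻¹ : ℝ) : ℂ) * (conj τ * (w - m * τ) + m * (conj τ * τ)) := by
    rw [map_div₀, conj_ofReal]; push_cast; ring
  have e2 : conj τ * τ = ((‖τ‖ ^ 2 : ℝ) : ℂ) := by
    rw [mul_comm, mul_conj, normSq_eq_norm_sq]
  have h1 := (abs_le.mp (abs_re_le_norm (conj τ * (w - m * τ)))).1
  rw [norm_mul, norm_conj] at h1
  have h2 := mul_le_mul_of_nonneg_left hw (norm_nonneg τ)
  have e3 : (conj (τ / L) * w).re = L⁻¹ * ((conj τ * (w - m * τ)).re + m * ‖τ‖ ^ 2) := by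
    rw [e1, e2, re_ofReal_mul, add_re, ← ofReal_natCast, ← ofReal_mul, ofReal_re]
  rw [e3, norm_div, norm_real, Real.norm_of_nonneg hL.le]
  have e4 : (‖τ‖ / L) ^ 2 * (m * L) = L⁻¹ * (m * ‖τ‖ ^ 2) := by field_simp
  have e5 : m * ((‖τ‖ ^ 2 - 2 * ε * ‖τ‖) / L) = L⁻¹ * (m * ‖τ‖ ^ 2 - 2 * (‖τ‖ * (m * ε))) := by
    field_simp
  rw [e4, e5]
  have h3 : 0 ≤ L⁻¹ := by positivity
  have h4 := mul_le_mul_of_nonneg_left (show m * ‖τ‖ ^ 2 - 2 * (‖τ‖ * (m * ε)) ≤
    2 * ((conj τ * (w - m * τ)).re + m * ‖τ‖ ^ 2) - m * ‖τ‖ ^ 2 by linarith) h3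
  linarith

end C2a

open C2a in
theorem c2a : St_C2a := by
  intro T l τ a L Λ ε hL hΛ hε hd hinj hb
  set U : Set ℂ := univ ×ℂ Ioo (-(3 / 2)) (3 / 2) with hUdef
  have hU : IsOpen U := isOpen_univ.reProdIm isOpen_Ioo
  have hI : Icc (-1 : ℝ) 1 ⊆ Ioo (-(3 / 2)) (3 / 2) := Icc_subset_Ioo (by norm_num) (by norm_num)
  have hSU : Iic a ×ℂ Icc (-1) 1 ⊆ U := fun u hu => ⟨mem_univ _, hI hu.2⟩
  have hsub : ∀ b, Icc b a ×ℂ Icc (-1) 1 ⊆ Iic a ×ℂ Icc (-1) 1 := fun b u hu => ⟨hu.1.2, hu.2⟩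
  obtain ⟨B, hB0, hB⟩ : ∃ B : ℝ, 0 ≤ B ∧
      ∀ j ∈ T, ∀ u ∈ Icc (a - L) a ×ℂ Icc (-1) 1, -B ≤ (l j u).re := by
    have h3 : ∀ᶠ B in atTop, ∀ j ∈ T, ∀ u ∈ Icc (a - L) a ×ℂ Icc (-1) 1, -B ≤ (l j u).re := by
      refine (eventually_all_finset T).mpr fun j hj => ?_
      obtain ⟨C, hC⟩ := (isCompact_Icc.reProdIm isCompact_Icc).exists_bound_of_continuousOn
        ((hd j hj).continuousOn.mono ((hsub (a - L)).trans hSU))
      filter_upwards [eventually_ge_atTop C] with B hB u hu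
      linarith [(abs_le.mp ((abs_re_le_norm _).trans (hC u hu))).1]
    exact (h3.and (eventually_ge_atTop 0)).exists.imp fun B h => ⟨h.2, h.1⟩
  have hlow : ∀ m : ℕ, ∀ j ∈ T, ∀ u ∈ Icc (a - L - m * L) a ×ℂ Icc (-1) 1,
      -B - m * (Λ + ε) ≤ (l j u).re := by
    intro m j hj
    induction m with
    | zero => simpa using hB j hj
    | succ m ih =>
      intro u hu
      by_cases h3 : a - L ≤ u.re
      · have h4 : 0 ≤ ((m + 1 : ℕ) : ℝ) * (Λ + ε) := by positivity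
        linarith [hB j hj u ⟨⟨h3, hu.1.2⟩, hu.2⟩]
      · have h4 : u + L ∈ Icc (a - L - m * L) a ×ℂ Icc (-1) 1 := by
          have h5 := hu.1.1
          push_cast at h5
          refine ⟨⟨?_, ?_⟩, by simpa using hu.2⟩ <;> simp only [add_re, ofReal_re] <;> linarith
        have h5 := ((hb j hj).2 _ (hsub _ h4)).2
        rw [add_sub_cancel_right] at h5
        have h6 := (re_le_norm _).trans h5
        rw [sub_re, sub_re] at h6
        have h7 := ih _ h4
        have h8 := (hb j hj).1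
        push_cast
        linarith
  have hmem : ∀ (x y : ℝ), x ≤ a → y ∈ Icc (-1 : ℝ) 1 → (x + y * I : ℂ) ∈ Iic a ×ℂ Icc (-1) 1 :=
    fun x y hx hy => by simpa [mem_reProdIm, hx] using hy
  have hgr : ∀ m : ℕ, ∀ j ∈ T, ∀ y ∈ Icc (-1 : ℝ) 1,
      ‖l j (a + y * I) - l j ((a - m * L : ℝ) + y * I) - m * τ j‖ ≤ m * ε := by
    intro m j hj y hy
    induction m with
    | zero => simp
    | succ m ih =>
      have h3 := ((hb j hj).2 _ (hmem (a - m * L) y
        (by nlinarith [Nat.cast_nonneg (α := ℝ) m]) hy)).2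
      have e : (((a - m * L : ℝ) : ℂ) + y * I - L) = ((a - (m + 1 : ℕ) * L : ℝ) : ℂ) + y * I := by
        push_cast; ring
      rw [e] at h3
      have h4 := (norm_add_le _ _).trans (add_le_add ih h3)
      refine le_trans (le_of_eq ?_) (h4.trans (le_of_eq ?_))
      · congr 1; push_cast; ring
      · push_cast; ring
  have key : ∀ m : ℕ, ∑ j ∈ T, (m * ((‖τ j‖ ^ 2 - 2 * ε * ‖τ j‖) / L) * 2) ≤
      (B + m * (Λ + ε)) * (2 * π) := by
    intro m
    have hm : a - m * L ≤ a := by nlinarith [Nat.cast_nonneg (α := ℝ) m]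
    set R := Icc (a - m * L) a ×ℂ Icc (-1) 1 with hR
    have hRc : IsCompact R := isCompact_Icc.reProdIm isCompact_Icc
    have hRU : R ⊆ U := (hsub _).trans hSU
    have h3 : ∀ j ∈ T, ENNReal.ofReal (m * ((‖τ j‖ ^ 2 - 2 * ε * ‖τ j‖) / L) * 2) ≤
        ∫⁻ w in (fun u => exp (l j u)) '' R, ENNReal.ofReal (1 / ‖w‖ ^ 2) := by
      intro j hj
      rw [Q.log_area hRc.measurableSet (f' := fun u => exp (l j u) * deriv (l j) u)
        (fun u hu => ((hd j hj).differentiableAt (hU.mem_nhds (hRU hu))).hasDerivAt.cexp)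
        (fun u hu v hv e => (hinj j hj j hj u (hsub _ hu) v (hsub _ hv) e).2)]
      have e : ∀ u : ℂ, ‖exp (l j u) * deriv (l j) u‖ ^ 2 / ‖exp (l j u)‖ ^ 2 =
          ‖deriv (l j) u‖ ^ 2 := fun u => by
        have := norm_ne_zero_iff.mpr (exp_ne_zero (l j u))
        rw [norm_mul]; field_simp
      simp only [e]
      rw [Q.lintegral_rect measurableSet_Icc measurableSet_Icc
        (G := fun u => ‖deriv (l j) u‖ ^ 2)
        ((((hd j hj).deriv hU).continuousOn.mono hRU).norm.pow 2)]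
      refine le_trans (le_of_eq ?_) (setLIntegral_mono' measurableSet_Icc
        (f := fun _ => ENNReal.ofReal (m * ((‖τ j‖ ^ 2 - 2 * ε * ‖τ j‖) / L))) fun y hy => ?_)
      · rw [setLIntegral_const, Real.volume_Icc, ← ENNReal.ofReal_mul' (by norm_num)]
        norm_num
      · refine le_trans (ENNReal.ofReal_le_ofReal ?_) (line_bound hU (hd j hj) (τ j / L) hm
          (fun x hx => hSU (hmem x y hx.2 hy)))
        rw [sub_sub_cancel]
        exact num m hL (hgr m j hj y hy)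
    have h4 := (ofReal_sum_le T _).trans (Finset.sum_le_sum h3)
    rw [← lintegral_biUnion_finset _ fun j hj =>
      (hRc.image_of_continuousOn ((hd j hj).continuousOn.mono hRU).cexp).measurableSet] at h4
    · have h5 := h4.trans (Q.annulus_area (a := Real.exp (-B - m * (Λ + ε))) (b := 1)
        (Real.exp_pos _) fun w hw => by
          simp only [mem_iUnion] at hw
          obtain ⟨j, hj, u, hu, rfl⟩ := hw
          rw [norm_exp]
          refine ⟨Real.exp_le_exp.mpr (hlow m j hj u ⟨⟨?_, hu.1.2⟩, hu.2⟩),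
            Real.exp_le_one_iff.mpr ((hb j hj).2 u (hsub _ hu)).1⟩
          linarith [hu.1.1])
      have h6 : 0 ≤ B + m * (Λ + ε) := by positivity
      rw [Real.log_one, Real.log_exp, show 0 - (-B - m * (Λ + ε)) = B + m * (Λ + ε) by ring,
        ← ENNReal.ofReal_mul h6] at h5
      exact (ENNReal.ofReal_le_ofReal_iff (by positivity)).mp h5
    · intro i hi j hj hij
      refine Set.disjoint_left.mpr ?_
      rintro _ ⟨u, hu, rfl⟩ ⟨v, hv, e⟩
      exact hij (hinj j hj i hi v (hsub _ hv) u (hsub _ hu) e).1.symm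
  by_contra hcon
  set S := ∑ j ∈ T, (‖τ j‖ ^ 2 - 2 * ε * ‖τ j‖) with hS
  have e : ∀ m : ℕ, ∑ j ∈ T, (m * ((‖τ j‖ ^ 2 - 2 * ε * ‖τ j‖) / L) * 2) = m * (S / L) * 2 := by
    intro m
    rw [hS, Finset.sum_div, Finset.mul_sum, Finset.sum_mul]
  have h1 : 0 < S / L - π * (Λ + ε) := by
    rw [sub_pos, lt_div_iff₀ hL]
    linarith [not_le.mp hcon]
  obtain ⟨m, hm⟩ := exists_nat_gt (B * π / (S / L - π * (Λ + ε)))
  rw [div_lt_iff₀ h1] at hm
  have h2 := key m
  rw [e] at h2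
  linarith

end Pool.Agent.Lib.MP_c35c17_an.L
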