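import Pool.Agent.Lib.MP_c35c17_an.LBlue

/-! The Pommerenke-Levin-Yoccoz inequality with rotation. -/

set_option autoImplicit false

open Filter Topology Set Metric Complex Bornology N62a1eb23
open scoped Real

namespace Pool.Agent.Lib.MP_c35c17_an.L

namespace C2b

theorem convex_box {s t : Set ℝ} (hs : Convex ℝ s) (ht : Convex ℝ t) : Convex ℝ (s ×ℂ t) := by
  rw [← convexHull_eq_self, convexHull_reProdIm, hs.convexHull_eq, ht.convexHull_eq]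

variable {n P : ℕ} {c ζ z τ : ℂ} {Φ : ℂ → ℂ}

/-- A holomorphic logarithm of the ray on the strip. -/
theorem exists_log (hn : 2 ≤ n) (h : Cj n c Φ) (hP : 0 < P) (h1 : ‖ζ‖ = 1)
    (hz : (F n c)^[P] z = z) : ∃ l : ℂ → ℂ,
      DifferentiableOn ℂ l (univ ×ℂ Ioo (-(3 / 2)) (3 / 2)) ∧
        ∀ u ∈ univ ×ℂ Ioo (-(3 / 2) : ℝ) (3 / 2), exp (l u) = ray Φ ζ u - z := by
  have hU : IsOpen (univ ×ℂ Ioo (-(3 / 2) : ℝ) (3 / 2)) := isOpen_univ.reProdIm isOpen_Ioo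
  obtain ⟨l, h2, h3⟩ := exists_continuousOn_eqOn_exp_comp
    (U := univ ×ℂ Ioo (-(3 / 2) : ℝ) (3 / 2))
    (by
      have := (convex_box convex_univ (convex_Ioo (-(3 / 2) : ℝ) (3 / 2))).contractibleSpace
        ⟨0, mem_univ _, by norm_num⟩
      exact (inferInstance : SimplyConnectedSpace (univ ×ℂ Ioo (-(3 / 2) : ℝ) (3 / 2) : Set ℂ)))
    hU ((h.ray_diff h1).sub_const z).continuousOn
    (by
      rintro ⟨u, hu, e⟩
      exact h.ne_per hn hP hz (Q.ray_norm h1 hu.2) (sub_eq_zero.mp e))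
  refine ⟨l, fun u hu => ?_, fun u hu => h3 hu⟩
  have h4 := hU.mem_nhds hu
  exact (hasDerivAt_of_comp (hasStrictDerivAt_exp (l u)) (exp_ne_zero _) (h2.continuousAt h4)
    (((h.ray_diff h1).sub_const z).differentiableAt h4).hasDerivAt
    (eventually_of_mem h4 fun y hy => h3 hy)).differentiableAt.differentiableWithinAt

/-- The logarithm is an approximate translation on far left half strips. -/
theorem near (hn : 2 ≤ n) (h : Cj n c Φ) (h1 : ‖ζ‖ = 1) (hζ : ζ ^ n ^ P = ζ)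
    (hL : Land n P c Φ ζ z τ) (hτ : exp τ = dF n c P z) {l : ℂ → ℂ}
    (hl : DifferentiableOn ℂ l (univ ×ℂ Ioo (-(3 / 2)) (3 / 2)))
    (he : ∀ u ∈ univ ×ℂ Ioo (-(3 / 2) : ℝ) (3 / 2), exp (l u) = ray Φ ζ u - z) {ε : ℝ}
    (hε : 0 < ε) : ∀ᶠ a in atBot, ∀ u ∈ Iic a ×ℂ Icc (-1) 1,
      (l u).re ≤ 0 ∧ ‖l u - l (u - (P * Real.log n : ℝ)) - τ‖ ≤ ε := by
  set L : ℝ := P * Real.log n with hLd
  have hL0 : 0 ≤ L := by positivity
  have hI : Icc (-1 : ℝ) 1 ⊆ Ioo (-(3 / 2)) (3 / 2) := Icc_subset_Ioo (by norm_num) (by norm_num)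
  set e : ℝ := min (1 / 2) (2 / 3 * ε) with hed
  have he0 : 0 < e := lt_min (by norm_num) (by positivity)
  obtain ⟨δ, hδ, h2⟩ := strict_iter n P c z (κ := e * ‖exp τ‖)
    (mul_pos he0 (norm_pos_iff.mpr (exp_ne_zero _)))
  replace h2 := h2.self_of_nhds
  obtain ⟨a, ha⟩ := h.strip hn h1 hL.lands (lt_min hδ one_pos)
  have hm : ∀ u ∈ Iic a ×ℂ Icc (-1 : ℝ) 1, u - L ∈ Iic a ×ℂ Icc (-1 : ℝ) 1 := fun u hu =>
    ⟨by have := hu.1; simp only [mem_preimage, mem_Iic, sub_re, ofReal_re] at this ⊢; linarith,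
      by simpa using hu.2⟩
  have hs : Iic a ×ℂ Icc (-1 : ℝ) 1 ⊆ univ ×ℂ Ioo (-(3 / 2) : ℝ) (3 / 2) := fun u hu =>
    ⟨mem_univ _, hI hu.2⟩
  have h3 : ∀ u ∈ Iic a ×ℂ Icc (-1 : ℝ) 1, ‖exp (l u - l (u - L) - τ) - 1‖ ≤ e := fun u hu => by
    have h4 := h2 (ray Φ ζ (u - L)) z ((ha _ (hm u hu)).trans (min_le_left _ _)) (by simp [hδ.le])
    rw [← ray_shift hn h.conj h1 hζ (hI hu.2), hL.fix, ← he u (hs hu), ← he _ (hs (hm u hu)), ← hτ,
      mul_assoc, ← norm_mul] at h4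
    have h5 : exp τ * exp (l (u - L)) ≠ 0 := mul_ne_zero (exp_ne_zero _) (exp_ne_zero _)
    rw [← div_le_iff₀ (norm_pos_iff.mpr h5), ← norm_div, sub_div, div_self h5] at h4
    rwa [exp_sub, exp_sub, div_div, mul_comm]
  obtain ⟨l₀, h4, h5, h6⟩ := hL.rot
  have hr : ∀ x : ℝ, (x : ℂ) ∈ univ ×ℂ Ioo (-(3 / 2) : ℝ) (3 / 2) := fun x =>
    ⟨mem_univ _, by norm_num⟩
  have h7 : ∀ x : ℝ, l x - l (x - L) = l₀ x - l₀ (x - L) := fun x => by
    have h8 := Q.const_of_exp_eq_one isPreconnected_univ (d := fun x : ℝ => l x - l₀ x)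
      ((hl.continuousOn.comp_continuous continuous_ofReal hr).sub h4).continuousOn
      (fun x _ => by rw [exp_sub, he _ (hr x), ← h5, div_self (exp_ne_zero _)])
      (mem_univ x) (mem_univ (x - L))
    simp only [ofReal_sub] at h8
    linear_combination h8
  obtain ⟨x, hx, hxa⟩ := ((h6.eventually (closedBall_mem_nhds τ one_pos)).and
    (eventually_le_atBot a)).exists
  have h8 := branch (convex_box (convex_Iic a) (convex_Icc (-1 : ℝ) 1)).isPreconnected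
    (d := fun u => l u - l (u - L))
    ((hl.continuousOn.mono hs).sub (hl.continuousOn.comp (by fun_prop) fun u hu => hs (hm u hu)))
    (min_le_left _ _) h3 (a := x) ⟨hxa, by norm_num⟩ (by rw [h7]; exact mem_closedBall_iff_norm.mp hx)
  filter_upwards [eventually_le_atBot a] with b hb u hu
  have hu' : u ∈ Iic a ×ℂ Icc (-1 : ℝ) 1 := ⟨hu.1.trans hb, hu.2⟩
  refine ⟨?_, (h8 u hu').trans (by linarith [min_le_right (1 / 2) (2 / 3 * ε)])⟩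
  rw [← Real.exp_le_one_iff, ← norm_exp, he u (hs hu')]
  exact (ha u hu').trans (min_le_right _ _)

end C2b

theorem c2b {n : ℕ} (hn : 2 ≤ n) (h1 : St_C1 n) (h2 : St_C2a) : St_C2 n := by
  intro P c z Φ T τ h hP hT hz
  have hn1 : (1 : ℝ) < n := by exact_mod_cast (by omega : 1 < n)
  have hL : 0 < P * Real.log n := mul_pos (by exact_mod_cast hP) (Real.log_pos hn1)
  have hI : Icc (-1 : ℝ) 1 ⊆ Ioo (-(3 / 2)) (3 / 2) := Icc_subset_Ioo (by norm_num) (by norm_num)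
  have hτ : ∀ ζ ∈ T, exp (τ ζ) = dF n c P z := fun ζ hζ => by
    obtain ⟨h3, h4, h5⟩ := hT ζ hζ
    obtain ⟨-, σ, h6, h7⟩ := h1 P c ζ z Φ h hP h3 h4 h5.fix h5.lands
    rw [h5.rot.unique h6.rot, h7]
  have h3 : ∀ ζ, ∃ l : ℂ → ℂ, ζ ∈ T → DifferentiableOn ℂ l (univ ×ℂ Ioo (-(3 / 2)) (3 / 2)) ∧
      ∀ u ∈ univ ×ℂ Ioo (-(3 / 2) : ℝ) (3 / 2), exp (l u) = ray Φ ζ u - z := fun ζ => by
    by_cases hζ : ζ ∈ T
    · obtain ⟨l, hl⟩ := C2b.exists_log hn h hP (hT ζ hζ).1 (hT ζ hζ).2.2.fix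
      exact ⟨l, fun _ => hl⟩
    · exact ⟨0, fun h' => absurd h' hζ⟩
  choose l hl using h3
  obtain ⟨a₀, ha₀⟩ := Q.ray_inj T fun ζ hζ => (hT ζ hζ).1
  have h4 : ∀ ε > 0, ∑ ζ ∈ T, (‖τ ζ‖ ^ 2 - 2 * ε * ‖τ ζ‖) ≤
      π * (P * Real.log n) * (Real.log ‖dF n c P z‖ + ε) := fun ε hε => by
    obtain ⟨a, ha, ha'⟩ := (((eventually_all_finset T).mpr fun ζ hζ => C2b.near hn h (hT ζ hζ).1
      (hT ζ hζ).2.1 (hT ζ hζ).2.2 (hτ ζ hζ) (hl ζ hζ).1 (hl ζ hζ).2 hε).and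
      (eventually_le_atBot a₀)).exists
    refine h2 T l τ a _ _ ε hL (Real.log_nonneg hz) hε.le (fun ζ hζ => (hl ζ hζ).1)
      (fun i hi j hj u hu v hv e => ?_) fun ζ hζ => ⟨?_, ha ζ hζ⟩
    · rw [(hl i hi).2 u ⟨mem_univ _, hI hu.2⟩, (hl j hj).2 v ⟨mem_univ _, hI hv.2⟩,
        sub_left_inj] at e
      exact ha₀ i hi j hj u ⟨hu.1.trans ha', hu.2⟩ v ⟨hv.1.trans ha', hv.2⟩
        (h.inj (Q.ray_norm (hT i hi).1 (hI hu.2)) (Q.ray_norm (hT j hj).1 (hI hv.2)) e)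
    · rw [← hτ ζ hζ, norm_exp, Real.log_exp]
  have h5 : Continuous fun ε : ℝ => ∑ ζ ∈ T, (‖τ ζ‖ ^ 2 - 2 * ε * ‖τ ζ‖) := by fun_prop
  have h6 : Continuous fun ε : ℝ => π * (P * Real.log n) * (Real.log ‖dF n c P z‖ + ε) := by
    fun_prop
  have h7 := le_of_tendsto_of_tendsto ((h5.tendsto 0).mono_left (nhdsWithin_le_nhds (s := Ioi 0)))
    ((h6.tendsto 0).mono_left nhdsWithin_le_nhds) (eventually_of_mem self_mem_nhdsWithin h4)
  simpa using h7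

end Pool.Agent.Lib.MP_c35c17_an.L
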