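import Pool.Agent.Lib.MP_c35c17_an.LBlue

/-! Periodic rays land at periodic points. -/

set_option autoImplicit false

open Filter Topology Set Metric Complex Bornology N62a1eb23 MeasureTheory
open scoped Real ENNReal

namespace Pool.Agent.Lib.MP_c35c17_an.L

namespace D

/-- A bounded curve along which a function with finitely many zeros tends to zero converges. -/
theorem conv {γ : ℝ → ℂ} {φ : ℂ → ℂ} {C : ℝ} (hγ : Continuous γ) (hφ : Continuous φ)
    (hC : ∀ x ≤ (0 : ℝ), ‖γ x‖ ≤ C) (hZ : {z | φ z = 0}.Finite)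
    (h : Tendsto (fun x => φ (γ x)) atBot (𝓝 0)) : ∃ z, φ z = 0 ∧ Tendsto γ atBot (𝓝 z) := by
  have key : ∀ w, MapClusterPt w atBot γ → φ w = 0 := fun w hw =>
    eq_of_nhds_neBot ((hw.continuousAt_comp hφ.continuousAt).clusterPt.mono h)
  have hmem : ∀ᶠ x in atBot, γ x ∈ closedBall (0 : ℂ) C :=
    (eventually_le_atBot 0).mono fun x hx => mem_closedBall_zero_iff.mpr (hC x hx)
  obtain ⟨z, -, hz⟩ := (isCompact_closedBall (0 : ℂ) C).exists_mapClusterPt_of_frequently
    hmem.frequently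
  refine ⟨z, key z hz, (isCompact_closedBall (0 : ℂ) C).tendsto_nhds_of_unique_mapClusterPt hmem
    fun w _ hw => ?_⟩
  by_contra hne
  refine Set.Ioo_infinite (dist_pos.mpr hne) ((hZ.image fun u => dist u z).subset fun r hr => ?_)
  have h1 : ∃ᶠ x in atBot, γ x ∈ sphere z r := by
    rw [frequently_atBot]
    intro b
    obtain ⟨x₁, h1, h2⟩ := frequently_atBot.mp
      (mapClusterPt_iff_frequently.mp hz _ (ball_mem_nhds z hr.1)) b
    obtain ⟨x₂, h3, h4⟩ := frequently_atBot.mp (mapClusterPt_iff_frequently.mp hw _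
      ((isOpen_lt continuous_const (continuous_id.dist continuous_const)).mem_nhds hr.2)) b
    obtain ⟨x, h5, h6⟩ := isPreconnected_Iic.intermediate_value (f := fun x => dist (γ x) z) h1 h3
      (hγ.dist continuous_const).continuousOn ⟨(mem_ball.mp h2).le, le_of_lt h4⟩
    exact ⟨x, h5, h6⟩
  obtain ⟨u, hu, h2⟩ := (isCompact_sphere z r).exists_mapClusterPt_of_frequently h1
  exact ⟨u, key u h2, hu⟩

/-- A bounded injective holomorphic map on a half strip has derivative tending to zero. -/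
theorem deriv_zero {g : ℂ → ℂ} {a C : ℝ}
    (hg : DifferentiableOn ℂ g (univ ×ℂ Ioo (-(3 / 2)) (3 / 2)))
    (hi : InjOn g (Iic a ×ℂ Icc (-1) 1)) (hC : ∀ u ∈ Iic a ×ℂ Icc (-1) 1, ‖g u‖ ≤ C) :
    Tendsto (fun x : ℝ => ‖deriv g x‖ ^ 2) atBot (𝓝 0) := by
  have hU : IsOpen (univ ×ℂ Ioo (-(3 / 2) : ℝ) (3 / 2)) := isOpen_univ.reProdIm isOpen_Ioo
  have hm : ∀ b : ℝ, MeasurableSet (Iic b ×ℂ Icc (-1 : ℝ) 1) := fun b =>
    (isClosed_Iic.reProdIm isClosed_Icc).measurableSet
  have hs : ∀ b : ℝ, Iic b ×ℂ Icc (-1 : ℝ) 1 ⊆ univ ×ℂ Ioo (-(3 / 2) : ℝ) (3 / 2) := fun b u hu =>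
    ⟨mem_univ _, by linarith [hu.2.1], by linarith [hu.2.2]⟩
  set ν : Measure ℂ := volume.withDensity fun u => ENNReal.ofReal (‖deriv g u‖ ^ 2) with hν
  have h1 : ν (Iic a ×ℂ Icc (-1) 1) ≠ ∞ := by
    have h2 := Q.lintegral_image_holo' (hm a) (fun u hu =>
      (hg.differentiableAt (hU.mem_nhds (hs a hu))).hasDerivAt) hi fun _ => 1
    simp only [mul_one, lintegral_const, MeasurableSet.univ, Measure.restrict_apply, univ_inter,
      one_mul] at h2
    rw [hν, withDensity_apply _ (hm a), ← h2]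
    refine ne_top_of_le_ne_top (measure_closedBall_lt_top (x := (0 : ℂ)) (r := C)).ne
      (measure_mono ?_)
    rintro _ ⟨u, hu, rfl⟩
    exact mem_closedBall_zero_iff.mpr (hC u hu)
  have h2 := tendsto_measure_iInter_atBot (μ := ν) (s := fun b : ℝ => Iic b ×ℂ Icc (-1 : ℝ) 1)
    (fun b => (hm b).nullMeasurableSet) (fun b b' h u hu => ⟨le_trans hu.1 h, hu.2⟩) ⟨a, h1⟩
  have h3 : ⋂ b : ℝ, Iic b ×ℂ Icc (-1 : ℝ) 1 = ∅ := eq_empty_of_forall_notMem fun u hu => by
    have h4 : u.re ≤ u.re - 1 := (mem_iInter.mp hu (u.re - 1)).1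
    linarith
  rw [h3, measure_empty] at h2
  have h4 := (ENNReal.tendsto_toReal ENNReal.zero_ne_top).comp
    (h2.comp (tendsto_atBot_add_const_right atBot 1 tendsto_id))
  refine squeeze_zero' (Eventually.of_forall fun x => sq_nonneg _) ?_ h4
  filter_upwards [eventually_le_atBot (a - 1)] with x hx
  have hb : ball (x : ℂ) 1 ⊆ Iic (x + 1) ×ℂ Icc (-1 : ℝ) 1 := fun u hu => by
    have h5 := abs_le.mp ((abs_re_le_norm (u - x)).trans (mem_ball_iff_norm.mp hu).le)
    have h6 := abs_le.mp ((abs_im_le_norm (u - x)).trans (mem_ball_iff_norm.mp hu).le)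
    simp only [sub_re, ofReal_re, sub_im, ofReal_im, sub_zero] at h5 h6
    exact ⟨show u.re ≤ x + 1 by linarith [h5.2], h6⟩
  have hd : DifferentiableOn ℂ (deriv g) (ball (x : ℂ) 1) := (hg.deriv hU).mono (hb.trans (hs _))
  have h5 := Q.area_mean (G := fun u => ‖deriv g u‖ ^ 2) (u₀ := x) one_pos
    (sq_nonneg ‖deriv g x‖) (hd.continuousOn.norm.pow 2) fun t _ =>
      ⟨fun u => deriv g u ^ 2, hd.pow 2, (norm_pow _ _).ge, fun w _ => (norm_pow _ _).le⟩
  rw [one_pow, mul_one] at h5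
  refine (ENNReal.ofReal_le_iff_le_toReal (ne_top_of_le_ne_top h1 (measure_mono fun u hu =>
    ⟨(show u.re ≤ x + 1 from hu.1).trans (show x + 1 ≤ a by linarith), hu.2⟩))).mp (h5.trans ?_)
  simp only [id]
  rw [hν, withDensity_apply _ (hm _)]
  exact lintegral_mono_set hb

end D

theorem dd {n : ℕ} (hn : 2 ≤ n) : St_D n := by
  intro P c ζ Φ h hP h1 hζ
  obtain ⟨C, hC⟩ := h.ray_bdd hn h1
  obtain ⟨a, ha⟩ := Q.ray_inj {ζ} (by simpa using h1)
  have hs : ∀ {b : ℝ} {u : ℂ}, u ∈ Iic b ×ℂ Icc (-1 : ℝ) 1 → u.im ∈ Ioo (-(3 / 2) : ℝ) (3 / 2) :=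
    fun hu => ⟨by linarith [hu.2.1], by linarith [hu.2.2]⟩
  have h2 := D.deriv_zero (a := min a 0) (C := C) (h.ray_diff h1) (fun u hu v hv e =>
    (ha ζ (Finset.mem_singleton_self _) ζ (Finset.mem_singleton_self _)
      u ⟨(show u.re ≤ min a 0 from hu.1).trans (min_le_left _ _), hu.2⟩
      v ⟨(show v.re ≤ min a 0 from hv.1).trans (min_le_left _ _), hv.2⟩
      (h.inj (Q.ray_norm h1 (hs hu)) (Q.ray_norm h1 (hs hv)) e)).2)
    fun u hu => hC u ⟨(show u.re ≤ min a 0 from hu.1).trans (min_le_right _ _), hs hu⟩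
  have h3 : Tendsto (fun x : ℝ => ‖deriv (ray Φ ζ) x‖) atBot (𝓝 0) := by
    simpa using h2.sqrt
  set L : ℝ := P * Real.log n with hL
  have hL0 : 0 ≤ L := by positivity
  have hd : ∀ x : ℝ, HasDerivAt (fun x : ℝ => ray Φ ζ x) (deriv (ray Φ ζ) x) x := fun x =>
    ((h.ray_diff h1).differentiableAt ((isOpen_univ.reProdIm isOpen_Ioo).mem_nhds
      ⟨mem_univ _, by norm_num⟩)).hasDerivAt.comp_ofReal
  obtain ⟨z, h4, h5⟩ := D.conv (φ := fun y => (F n c)^[P] y - y) (C := C) (h.ray_cont h1)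
    ((differentiable_iter n c P).continuous.sub continuous_id)
    (fun x hx => hC x ⟨hx, by norm_num⟩) (by
      obtain ⟨h4, h5⟩ := Q.itP_monic hn c P
      have h6 : (Polynomial.X : Polynomial ℂ).natDegree < (Q.itP n c P).natDegree := by
        rw [Polynomial.natDegree_X, h5]; exact Nat.one_lt_pow hP.ne' hn
      refine (Polynomial.finite_setOfPred_isRoot
        (h4.sub_of_left (Polynomial.degree_lt_degree h6)).ne_zero).subset fun y hy => ?_
      simpa [Q.itP_eval] using hy) (by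
      rw [Metric.tendsto_nhds]
      intro ε hε
      obtain ⟨b, hb⟩ := eventually_atBot.mp (h3.eventually_le_const
        (show 0 < ε / (L + 1) by positivity))
      filter_upwards [eventually_le_atBot (b - L)] with x hx
      have h6 := ray_shift hn h.conj h1 hζ (u := ((x + L : ℝ) : ℂ)) (by norm_num)
      rw [← ofReal_sub, add_sub_cancel_right] at h6
      have h7 := (convex_Iic b).norm_image_sub_le_of_norm_hasDerivWithin_le
        (fun y _ => (hd y).hasDerivWithinAt) hb (x := x) (y := x + L)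
        (show x ≤ b by linarith) (show x + L ≤ b by linarith)
      rw [add_sub_cancel_left, Real.norm_of_nonneg hL0, h6] at h7
      rw [dist_zero_right]
      refine h7.trans_lt ?_
      rw [div_mul_eq_mul_div, div_lt_iff₀ (by positivity)]
      linarith)
  exact ⟨z, sub_eq_zero.mp h4, h5⟩

end Pool.Agent.Lib.MP_c35c17_an.L
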