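import Pool.Agent.Lib.MP_c35c17_an.QPly

/-! Definitions and tools for the limb diameter theorem. -/

set_option autoImplicit false

open Filter Topology Set Metric Complex Bornology N62a1eb23
open scoped Real unitInterval

namespace Pool.Agent.Lib.MP_c35c17_an.L

/-- `Φ` is the normalised inverse Boettcher map on `r < ‖w‖`. -/
structure Bot (n : ℕ) (c : ℂ) (r : ℝ) (Φ : ℂ → ℂ) : Prop where
  diff : DifferentiableOn ℂ Φ {w | r < ‖w‖}
  conj : ∀ w, r < ‖w‖ → Φ (w ^ n) = Φ w ^ n + c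
  norm : Tendsto (fun w => Φ w / w) (cobounded ℂ) (𝓝 1)

/-- An injective holomorphic conjugacy on the exterior of the unit disc. -/
structure Cj (n : ℕ) (c : ℂ) (Φ : ℂ → ℂ) : Prop where
  diff : DifferentiableOn ℂ Φ {w | 1 < ‖w‖}
  inj : InjOn Φ {w | 1 < ‖w‖}
  conj : ∀ w, 1 < ‖w‖ → Φ (w ^ n) = Φ w ^ n + c

/-- A jointly continuous family of inverse Boettcher maps. -/
structure Fam (n : ℕ) (S : Set ℂ) (r : ℝ) (Ψ : ℂ → ℂ → ℂ) : Prop where
  cont : ContinuousOn (fun p : ℂ × ℂ => Ψ p.1 p.2) (S ×ˢ {w | r < ‖w‖})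
  bot : ∀ c ∈ S, Bot n c r (Ψ c)

/-- The external ray of direction `ζ`, extended to a strip. -/
noncomputable def ray (Φ : ℂ → ℂ) (ζ u : ℂ) : ℂ := Φ (ζ * exp (exp u))

/-- The logarithm of the multiplier selected by a curve landing at `z`. -/
def Rot (γ : ℝ → ℂ) (z : ℂ) (L : ℝ) (τ : ℂ) : Prop :=
  ∃ l : ℝ → ℂ, Continuous l ∧ (∀ x, exp (l x) = γ x - z) ∧
    Tendsto (fun x => l x - l (x - L)) atBot (𝓝 τ)

/-- The ray of direction `ζ` lands at the fixed point `z` of the `P`-th iterate. -/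
structure Land (n P : ℕ) (c : ℂ) (Φ : ℂ → ℂ) (ζ z τ : ℂ) : Prop where
  fix : (F n c)^[P] z = z
  lands : Tendsto (fun x : ℝ => ray Φ ζ x) atBot (𝓝 z)
  rot : Rot (fun x : ℝ => ray Φ ζ x) z (P * Real.log n) τ

/-! ### the Multibrot set -/

theorem norm_le_two {n : ℕ} (hn : 2 ≤ n) {c : ℂ} (hc : c ∈ multibrotSet n) : ‖c‖ ≤ 2 := by
  refine not_lt.mp fun h => hc ?_
  have h1 : ∀ j, (‖c‖ - 1) ^ j * ‖c‖ ≤ ‖(F n c)^[j + 1] 0‖ := fun j => by
    induction j with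
    | zero => simp [F, zero_pow (show n ≠ 0 by omega)]
    | succ j ih =>
      have h2 : ‖c‖ ≤ ‖(F n c)^[j + 1] 0‖ :=
        (le_mul_of_one_le_left (norm_nonneg _) (one_le_pow₀ (by linarith))).trans ih
      rw [iter_succ n c (j + 1)]
      generalize (F n c)^[j + 1] 0 = z at ih h2
      have h3 := norm_sub_norm_le (z ^ n) (-c)
      have h4 : ‖z‖ ^ 2 ≤ ‖z‖ ^ n := pow_le_pow_right₀ (by linarith) hn
      rw [sub_neg_eq_add, norm_neg, norm_pow] at h3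
      rw [pow_succ', mul_assoc]
      nlinarith [mul_le_mul_of_nonneg_left ih (show 0 ≤ ‖c‖ - 1 by linarith)]
  rw [← tendsto_norm_atTop_iff_cobounded, ← tendsto_add_atTop_iff_nat 1]
  exact tendsto_atTop_mono h1 ((tendsto_pow_atTop_atTop_of_one_lt (by linarith)).atTop_mul_const
    (by linarith))

theorem mem_of_bdd {n : ℕ} {c : ℂ} {R : ℝ} (h : ∀ k, ‖(F n c)^[k] 0‖ ≤ R) : c ∈ multibrotSet n :=
  fun h' => by
    obtain ⟨k, hk⟩ := ((tendsto_norm_atTop_iff_cobounded.mpr h').eventually_gt_atTop R).exists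
    exact absurd (h k) (not_le.mpr hk)

theorem isCompact_multibrot {n : ℕ} (hn : 2 ≤ n) : IsCompact (multibrotSet n) := by
  refine (isCompact_closedBall 0 2).of_isClosed_subset ?_
    fun c hc => mem_closedBall_zero_iff.mpr (norm_le_two hn hc)
  have : multibrotSet n = ⋂ k, {c | ‖(F n c)^[k] 0‖ ≤ 5} := Subset.antisymm
    (fun c hc => mem_iInter.mpr fun k => (orbit_lt hn hc (by linarith [norm_le_two hn hc]) k).le)
    fun c hc => mem_of_bdd (R := 5) fun k => mem_iInter.mp hc k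
  rw [this]
  exact isClosed_iInter fun k => isClosed_le (continuous_iff_continuousAt.mpr
    fun c => (hasDerivAt_param n k c).continuousAt).norm continuous_const

/-! ### roots and logarithms -/

/-- Homotopy lifting for roots. -/
theorem lift_pow {X : Type} [TopologicalSpace X] {N : ℕ} (hN : N ≠ 0) {H : I × X → ℂ}
    (hH : Continuous H) (h0 : ∀ p, H p ≠ 0) {v₀ : X → ℂ} (hv : Continuous v₀)
    (he : ∀ x, v₀ x ^ N = H (0, x)) :
    ∃ v : I × X → ℂ, Continuous v ∧ (∀ x, v (0, x) = v₀ x) ∧ ∀ p, v p ^ N = H p := by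
  have hc := isCoveringMap_npow (𝕜 := ℂ) N (Nat.cast_ne_zero.mpr hN)
  have h1 : ∀ x, v₀ x ≠ 0 := fun x h => h0 (0, x) (by rw [← he, h, zero_pow hN])
  let H' : C(I × X, {z : ℂ // z ≠ 0}) := ⟨fun p => ⟨H p, h0 p⟩, hH.subtype_mk _⟩
  let f : C(X, {z : ℂ // z ≠ 0}) := ⟨fun x => ⟨v₀ x, h1 x⟩, hv.subtype_mk _⟩
  have h2 : ∀ x, H' (0, x) = ⟨(f x : ℂ) ^ N, pow_ne_zero N (f x).2⟩ := fun x =>
    Subtype.ext (he x).symm
  exact ⟨fun p => hc.liftHomotopy H' f h2 p, by fun_prop,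
    fun x => congrArg Subtype.val (hc.liftHomotopy_zero H' f h2 x),
    fun p => congrArg Subtype.val (congrFun (hc.liftHomotopy_lifts H' f h2) p)⟩

/-- Uniqueness of continuous roots. -/
theorem eqOn_of_pow {X : Type} [TopologicalSpace X] {N : ℕ} (hN : N ≠ 0) {s : Set X}
    (hs : IsPreconnected s) {v w : X → ℂ} (hv : ContinuousOn v s) (hw : ContinuousOn w s)
    (h0 : ∀ x ∈ s, w x ≠ 0) (he : ∀ x ∈ s, v x ^ N = w x ^ N) {a : X} (ha : a ∈ s)
    (h : v a = w a) : EqOn v w s := fun x hx => by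
  have h1 := hs.constant_of_mapsTo (T := {u : ℂ | u ^ N = 1}) (f := fun x => v x / w x)
    (Set.Finite.isDiscrete ((Polynomial.nthRoots N (1 : ℂ)).toFinset.finite_toSet.subset
      fun u hu => by simpa [Polynomial.mem_nthRoots (Nat.pos_of_ne_zero hN)] using hu))
    (hv.div hw h0) (fun x hx => by
      simp only [mem_ofPred_eq, div_pow, he x hx, div_self (pow_ne_zero N (h0 x hx))]) hx ha
  rwa [h, div_self (h0 a ha), div_eq_one_iff_eq (h0 x hx)] at h1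

/-- A continuous solution of `f (v y) = h y` is differentiable. -/
theorem hasDerivAt_of_comp {f v h : ℂ → ℂ} {f' h' z : ℂ} (hf : HasStrictDerivAt f f' (v z))
    (h0 : f' ≠ 0) (hv : ContinuousAt v z) (hh : HasDerivAt h h' z)
    (he : ∀ᶠ y in 𝓝 z, f (v y) = h y) : HasDerivAt v (h' / f') z := by
  have h1 := (hf.to_localInverse h0).hasDerivAt
  rw [he.self_of_nhds] at h1
  rw [div_eq_inv_mul]
  refine (h1.comp z hh).congr_of_eventuallyEq ?_
  filter_upwards [he, hv.eventually (hf.eventually_left_inverse h0)] with y h2 h3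
  rw [Function.comp_apply, ← h2, h3]

/-- A continuous logarithm of a function close to `exp τ` stays close to `τ`. -/
theorem branch {X : Type} [TopologicalSpace X] {s : Set X} (hs : IsPreconnected s) {d : X → ℂ}
    (hd : ContinuousOn d s) {τ : ℂ} {ε : ℝ} (hε : ε ≤ 1 / 2)
    (h : ∀ x ∈ s, ‖exp (d x - τ) - 1‖ ≤ ε) {a : X} (ha : a ∈ s) (h0 : ‖d a - τ‖ ≤ 1) :
    ∀ x ∈ s, ‖d x - τ‖ ≤ 3 / 2 * ε := fun x hx => by
  have h1 : ∀ x ∈ s, ‖log (exp (d x - τ))‖ ≤ 3 / 2 * ε := fun x hx => by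
    have h2 := norm_log_one_add_half_le_self ((h x hx).trans hε)
    rw [add_sub_cancel] at h2
    linarith [h x hx]
  have h2 : ∀ x ∈ s, exp (d x - τ - log (exp (d x - τ))) = 1 := fun x _ => by
    rw [exp_sub, exp_log (exp_ne_zero _), div_self (exp_ne_zero _)]
  have h3 := Q.const_of_exp_eq_one hs ((hd.sub continuousOn_const).sub
    ((hd.sub continuousOn_const).cexp.clog fun x hx => by
      simpa using mem_slitPlane_of_norm_lt_one ((h x hx).trans_lt (by linarith)))) h2 hx ha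
  have h4 := Q.exp_eq_one_norm (h2 a ha) ((norm_sub_le _ _).trans_lt (by linarith [h1 a ha]))
  simp only [Pi.sub_apply] at h3
  rw [h4, sub_eq_zero] at h3
  exact h3 ▸ h1 x hx

theorem Rot.unique {γ : ℝ → ℂ} {z τ τ' : ℂ} {L : ℝ} (h : Rot γ z L τ) (h' : Rot γ z L τ') :
    τ = τ' := by
  obtain ⟨l, h1, h2, h3⟩ := h
  obtain ⟨l', h1', h2', h3'⟩ := h'
  refine tendsto_nhds_unique h3 (h3'.congr fun x => ?_)
  have h4 := Q.const_of_exp_eq_one isPreconnected_univ (h1.sub h1').continuousOn (fun x _ => by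
    rw [Pi.sub_apply, exp_sub, h2, ← h2', div_self (exp_ne_zero _)]) (mem_univ x) (mem_univ (x - L))
  simp only [Pi.sub_apply] at h4
  linear_combination -h4

/-! ### rays -/

section
variable {n P : ℕ} {c ζ z : ℂ} {Φ : ℂ → ℂ}

theorem ray_pow (hn : 2 ≤ n) (hζ : ζ ^ n ^ P = ζ) (u : ℂ) :
    (ζ * exp (exp (u - (P * Real.log n : ℝ)))) ^ n ^ P = ζ * exp (exp u) := by
  have hn1 : (0 : ℝ) < n := by exact_mod_cast (by omega : 0 < n)
  rw [mul_pow, hζ, ← exp_nat_mul, exp_sub, ← ofReal_exp, Real.exp_nat_mul, Real.exp_log hn1]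
  push_cast
  rw [mul_div_cancel₀ _ (pow_ne_zero _ (by exact_mod_cast hn1.ne'))]

theorem ray_shift (hn : 2 ≤ n) (hΦ : ∀ w, 1 < ‖w‖ → Φ (w ^ n) = Φ w ^ n + c) (h1 : ‖ζ‖ = 1)
    (hζ : ζ ^ n ^ P = ζ) {u : ℂ} (hu : u.im ∈ Ioo (-(3 / 2) : ℝ) (3 / 2)) :
    ray Φ ζ u = (F n c)^[P] (ray Φ ζ (u - (P * Real.log n : ℝ))) := by
  rw [ray, ray, ← Q.conj_iter hn hΦ _ (Q.ray_norm h1 (by rwa [sub_im, ofReal_im, sub_zero])), ray_pow hn hζ]

theorem Cj.ne_per (hn : 2 ≤ n) (h : Cj n c Φ) (hP : 0 < P) (hz : (F n c)^[P] z = z) {w : ℂ}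
    (hw : 1 < ‖w‖) : Φ w ≠ z := fun h0 => by
  have h5 := Q.conj_iter hn h.conj P hw
  have h6 := one_lt_pow₀ hw (n := n ^ P) (by positivity)
  rw [h0, hz, ← h0] at h5
  have h7 := congrArg norm (h.inj (by rwa [← norm_pow] at h6) hw h5)
  rw [norm_pow] at h7
  have h8 := pow_lt_pow_right₀ hw (Nat.one_lt_pow hP.ne' (by omega : 1 < n))
  rw [pow_one, h7] at h8
  exact lt_irrefl _ h8

theorem Cj.ray_diff (h : Cj n c Φ) (h1 : ‖ζ‖ = 1) :
    DifferentiableOn ℂ (ray Φ ζ) (univ ×ℂ Ioo (-(3 / 2)) (3 / 2)) :=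
  h.diff.comp (by fun_prop) fun _ hu => Q.ray_norm h1 hu.2

theorem Cj.ray_cont (h : Cj n c Φ) (h1 : ‖ζ‖ = 1) : Continuous fun x : ℝ => ray Φ ζ x :=
  (h.ray_diff h1).continuousOn.comp_continuous continuous_ofReal fun x => ⟨mem_univ _, by norm_num⟩

theorem Cj.ray_bdd (hn : 2 ≤ n) (h : Cj n c Φ) (h1 : ‖ζ‖ = 1) :
    ∃ C, ∀ u ∈ Iic 0 ×ℂ Ioo (-(3 / 2)) (3 / 2), ‖ray Φ ζ u‖ ≤ C := by
  obtain ⟨C, hC⟩ := Q.conj_bound hn h.diff h.conj
  refine ⟨C, fun u hu => hC _ (Q.ray_norm h1 hu.2) ?_⟩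
  rw [norm_mul, h1, one_mul]
  refine (norm_exp_le_exp_norm _).trans (le_trans (Real.exp_le_exp.mpr ?_)
    (Real.exp_one_lt_d9.le.trans (by norm_num)))
  rw [norm_exp, Real.exp_le_one_iff]
  exact hu.1

/-- Landing is uniform in the strip. -/
theorem Cj.strip (hn : 2 ≤ n) (h : Cj n c Φ) (h1 : ‖ζ‖ = 1)
    (hz : Tendsto (fun x : ℝ => ray Φ ζ x) atBot (𝓝 z)) {η : ℝ} (hη : 0 < η) :
    ∃ a, ∀ u ∈ Iic a ×ℂ Icc (-1) 1, ‖ray Φ ζ u - z‖ ≤ η := by
  obtain ⟨C, hC⟩ := h.ray_bdd hn h1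
  exact Q.lindelof ((h.ray_diff h1).sub_const z) (C := C + ‖z‖)
    (fun u hu => (norm_sub_le _ _).trans (add_le_add_left (hC u hu) _))
    (tendsto_sub_nhds_zero_iff.mpr hz) hη

theorem lands_of_radial (h : Tendsto (fun r : ℝ => Φ (r * ζ)) (𝓝[>] 1) (𝓝 z)) :
    Tendsto (fun x : ℝ => ray Φ ζ x) atBot (𝓝 z) := by
  have h2 : Tendsto (fun x : ℝ => Real.exp (Real.exp x)) atBot (𝓝[>] 1) :=
    tendsto_nhdsWithin_iff.mpr ⟨(Real.continuous_exp.tendsto' 0 1 Real.exp_zero).comp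
      Real.tendsto_exp_atBot, Eventually.of_forall fun x =>
        Real.one_lt_exp_iff.mpr (Real.exp_pos x)⟩
  simpa [ray, mul_comm, Function.comp_def] using h.comp h2

end

/-! ### more tools -/

theorem ext_conn {r : ℝ} (hr : 0 ≤ r) : IsPreconnected {w : ℂ | r < ‖w‖} := by
  have h := (isPreconnected_Ioi (a := r).prod isPreconnected_univ).image
    (fun p : ℝ × ℝ => (p.1 : ℂ) * exp (p.2 * Complex.I)) (by fun_prop)
  convert h using 1
  ext w
  refine ⟨fun hw => ⟨(‖w‖, arg w), ⟨hw, mem_univ _⟩, norm_mul_exp_arg_mul_I w⟩, ?_⟩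
  rintro ⟨p, hp, rfl⟩
  simpa [abs_of_nonneg (hr.trans hp.1.le)] using hp.1

theorem ext_open (r : ℝ) : IsOpen {w : ℂ | r < ‖w‖} := isOpen_lt continuous_const continuous_norm

theorem Bot.mono {n : ℕ} {c : ℂ} {r r' : ℝ} {Φ : ℂ → ℂ} (h : Bot n c r Φ) (hr : r ≤ r') :
    Bot n c r' Φ :=
  ⟨h.diff.mono fun _ hw => hr.trans_lt hw, fun w hw => h.conj w (hr.trans_lt hw), h.norm⟩

theorem Bot.iter {n : ℕ} (hn : 2 ≤ n) {c : ℂ} {r : ℝ} {Φ : ℂ → ℂ} (h : Bot n c r Φ) (hr : 1 ≤ r)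
    (j : ℕ) {w : ℂ} (hw : r < ‖w‖) : Φ (w ^ n ^ j) = (F n c)^[j] (Φ w) := by
  induction j with
  | zero => simp
  | succ j ih =>
    rw [pow_succ, pow_mul, h.conj, ih, iter_succ]
    rw [norm_pow]
    exact hw.trans_le (le_self_pow₀ (hr.trans hw.le) (by positivity))

theorem tendsto_pow_pow {n : ℕ} (hn : 2 ≤ n) {w : ℂ} (hw : 1 < ‖w‖) :
    Tendsto (fun j : ℕ => w ^ n ^ j) atTop (cobounded ℂ) := by
  rw [← tendsto_norm_atTop_iff_cobounded]
  simpa only [norm_pow, Function.comp_def] using (tendsto_pow_atTop_atTop_of_one_lt hw).comp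
    (tendsto_pow_atTop_atTop_of_one_lt (by omega : 1 < n))

/-- The image of the inverse Boettcher map avoids the critical orbit. -/
theorem Bot.ne_orbit {n : ℕ} (hn : 2 ≤ n) {c : ℂ} (hc : c ∈ multibrotSet n) {r : ℝ} {Φ : ℂ → ℂ}
    (h : Bot n c r Φ) (hr : 1 ≤ r) {w : ℂ} (hw : r < ‖w‖) (i : ℕ) : Φ w ≠ (F n c)^[i] 0 := by
  intro e
  have h1 := tendsto_pow_pow hn (hr.trans_lt hw)
  have h2 := (tendsto_norm_atTop_iff_cobounded.mpr h1).atTop_mul_pos one_pos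
    (by simpa using (h.norm.comp h1).norm)
  obtain ⟨j, hj⟩ := (h2.eventually_gt_atTop (‖c‖ + 3)).exists
  have h3 : w ^ n ^ j ≠ 0 := pow_ne_zero _ (norm_pos_iff.mp (by linarith))
  rw [← norm_pow, mul_div_cancel₀ _ (norm_ne_zero_iff.mpr h3), h.iter hn hr j hw, e,
    ← Function.iterate_add_apply] at hj
  exact absurd (orbit_lt hn hc le_rfl _) (not_lt.mpr hj.le)

theorem continuous_iter (n k : ℕ) : Continuous fun p : ℂ × ℂ => (F n p.1)^[k] p.2 :=
  (Q.contDiff_iter n k).continuous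

theorem contDiff_dF (n k : ℕ) : ContDiff ℂ 1 fun p : ℂ × ℂ => dF n p.1 k p.2 :=
  contDiff_prod fun j _ => contDiff_const.mul ((Q.contDiff_iter n j).pow _)

/-- Persistence and local uniqueness of a simple fixed point. -/
theorem fixed_chart {n P : ℕ} {c z : ℂ} (hz : (F n c)^[P] z = z) (h1 : dF n c P z ≠ 1) :
    (∀ ε > 0, ∀ᶠ u in 𝓝 c, ∃ w, (F n u)^[P] w = w ∧ ‖w - z‖ < ε) ∧
      ∃ η > 0, ∀ᶠ u in 𝓝 c, ∀ w w', ‖w - z‖ < η → ‖w' - z‖ < η → (F n u)^[P] w = w →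
        (F n u)^[P] w' = w' → w = w' := by
  obtain ⟨φ, hφ, he, -⟩ := Q.exists_chart (G := fun p => (F n p.1)^[P] p.2 - p.2)
    ((Q.contDiff_iter n P).sub contDiff_snd) (e := (c, z)) (by
      rwa [((hasDerivAt_iter n c P z).fun_sub (hasDerivAt_id' z)).deriv, sub_ne_zero])
  have h2 : φ (c, z) = (c, 0) := by rw [he]; simp only [hz, sub_self]
  constructor
  · intro ε hε
    have h3 : Tendsto (fun u => (u, (0 : ℂ))) (𝓝 c) (𝓝 (φ (c, z))) :=
      h2 ▸ (Continuous.prodMk_left 0).tendsto c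
    filter_upwards [h3.eventually (φ.eventually_right_inverse' hφ), (continuous_snd.tendsto _ |>.comp
      ((φ.tendsto_symm hφ).comp h3)).eventually (ball_mem_nhds z hε)] with u h4 h5
    simp only [Function.comp_apply] at h5
    generalize φ.symm (u, 0) = p at h4 h5
    rw [he, Prod.mk.injEq, sub_eq_zero] at h4
    exact ⟨p.2, h4.1 ▸ h4.2, mem_ball_iff_norm.mp h5⟩
  · obtain ⟨U, hU, V, hV, h3⟩ := mem_nhds_prod_iff.mp (φ.open_source.mem_nhds hφ)
    obtain ⟨η, hη, h4⟩ := Metric.mem_nhds_iff.mp hV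
    refine ⟨η, hη, eventually_of_mem hU fun u hu w w' hw hw' e e' => (Prod.mk.inj (φ.injOn
      (h3 (mk_mem_prod hu (h4 (mem_ball_iff_norm.mpr hw))))
      (h3 (mk_mem_prod hu (h4 (mem_ball_iff_norm.mpr hw')))) ?_)).2⟩
    rw [he]
    simp only [e, e', sub_self]

/-- A continuous logarithm along a curve avoiding `z`. -/
theorem exists_log_curve {γ : ℝ → ℂ} (hγ : Continuous γ) {z : ℂ} (h : ∀ x, γ x ≠ z) :
    ∃ l : ℝ → ℂ, Continuous l ∧ ∀ x, exp (l x) = γ x - z := by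
  obtain ⟨l, h1, h2⟩ := exists_continuousOn_eqOn_exp_comp (U := (univ : Set ℝ))
    (by
      have := (convex_univ (𝕜 := ℝ) (E := ℝ)).contractibleSpace univ_nonempty
      exact (inferInstance : SimplyConnectedSpace (univ : Set ℝ))) isOpen_univ
    (hγ.sub continuous_const (g := fun _ => z)).continuousOn
    (by rintro ⟨x, -, e⟩; exact h x (sub_eq_zero.mp e))
  exact ⟨l, continuousOn_univ.mp h1, fun x => h2 (mem_univ x)⟩

/-- Uniform linearisation near a point. -/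
theorem strict_iter (n P : ℕ) (c z : ℂ) {κ : ℝ} (hκ : 0 < κ) : ∃ δ > 0, ∀ᶠ u in 𝓝 c, ∀ y y',
    ‖y - z‖ ≤ δ → ‖y' - z‖ ≤ δ →
      ‖(F n u)^[P] y - (F n u)^[P] y' - dF n c P z * (y - y')‖ ≤ κ * ‖y - y'‖ := by
  have h1 := (Q.contDiff_iter n P).contDiffAt (x := (c, z)).hasStrictFDerivAt one_ne_zero
  have h2 : ∀ b : ℂ, fderiv ℂ (fun p : ℂ × ℂ => (F n p.1)^[P] p.2) (c, z) (0, b) =
      dF n c P z * b := fun b => by
    have h3 := (h1.hasFDerivAt.comp_hasDerivAt z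
      ((hasDerivAt_const z c).prodMk (hasDerivAt_id z))).unique (hasDerivAt_iter n c P z)
    rw [show ((0 : ℂ), b) = b • ((0 : ℂ), (1 : ℂ)) by simp, map_smul, h3, smul_eq_mul, mul_comm]
  obtain ⟨δ, hδ, h3⟩ := Metric.eventually_nhds_iff.mp (h1.isLittleO.def hκ)
  refine ⟨δ / 2, half_pos hδ, eventually_of_mem (ball_mem_nhds c hδ) fun u hu y y' hy hy' => ?_⟩
  have h4 := @h3 ((u, y), (u, y')) (by
    simp only [Prod.dist_eq, max_lt_iff, dist_eq_norm y, dist_eq_norm y']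
    exact ⟨⟨hu, by linarith⟩, hu, by linarith⟩)
  simpa [h2] using h4

end Pool.Agent.Lib.MP_c35c17_an.L
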