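import Pool.Agent.Lib.MP_c35c17_an.LBlue

/-! Landing at a repelling point persists. -/

set_option autoImplicit false

open Filter Topology Set Metric Complex Bornology N62a1eb23
open scoped Real

namespace Pool.Agent.Lib.MP_c35c17_an.L

namespace E1

theorem trap {γ : ℝ → ℂ} (hγ : Continuous γ) {g : ℂ → ℂ} {w : ℂ} {L μ δ a : ℝ} (hL : 0 < L)
    (hμ : 1 < μ) (hδ : 0 < δ) (h1 : ∀ x, γ x = g (γ (x - L)))
    (h2 : ∀ y, ‖y - w‖ ≤ δ → μ * ‖y - w‖ ≤ ‖g y - w‖)
    (h3 : ∀ x ∈ Icc (a - L) a, ‖γ x - w‖ < δ) :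
    (∀ x ≤ a, ‖γ x - w‖ < δ) ∧ Tendsto γ atBot (𝓝 w) := by
  have hc : Continuous fun x => ‖γ x - w‖ := (hγ.sub continuous_const).norm
  have hA : ∀ x ≤ a, ‖γ x - w‖ < δ := by
    intro x0 hx0
    by_contra hcon
    obtain ⟨x1, ⟨hx1, hx1'⟩, hmax⟩ := ((isCompact_Icc (a := x0) (b := a)).inter_right
      (isClosed_le continuous_const hc : IsClosed {x | δ ≤ ‖γ x - w‖})).exists_isGreatest
      ⟨x0, ⟨le_rfl, hx0⟩, not_lt.mp hcon⟩
    have h4 : x1 < a - L := not_le.mp fun h => absurd (h3 x1 ⟨h, hx1.2⟩) (not_lt.mpr hx1')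
    have h5 : ∀ x, x1 < x → x ≤ a → ‖γ x - w‖ < δ := fun x hx hxa =>
      not_le.mp fun h => absurd (hmax ⟨⟨hx1.1.trans hx.le, hxa⟩, h⟩) (not_le.mpr hx)
    have h6 : ‖γ x1 - w‖ ≤ δ := by
      refine le_of_tendsto (hc.tendsto x1 |>.mono_left (nhdsWithin_le_nhds (s := Ioi x1))) ?_
      filter_upwards [Ioo_mem_nhdsGT (show x1 < a by linarith)] with x hx
        using (h5 x hx.1 hx.2.le).le
    have h7 := h2 _ h6
    have h8 := h1 (x1 + L)
    rw [add_sub_cancel_right] at h8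
    rw [← h8] at h7
    have h9 := h5 (x1 + L) (by linarith) (by linarith)
    have h10 : δ ≤ ‖γ x1 - w‖ := hx1'
    nlinarith
  refine ⟨hA, ?_⟩
  have hB : ∀ j : ℕ, ∀ x ≤ a - j * L, μ ^ j * ‖γ x - w‖ ≤ δ := by
    intro j
    induction j with
    | zero => intro x hx; simpa using (hA x (by simpa using hx)).le
    | succ j ih =>
      intro x hx
      push_cast at hx
      have h4 : (0 : ℝ) ≤ j * L := by positivity
      have h5 := h2 _ (hA x (by linarith)).le
      have h8 := h1 (x + L)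
      rw [add_sub_cancel_right] at h8
      rw [← h8] at h5
      refine le_trans ?_ (ih (x + L) (by linarith))
      rw [pow_succ, mul_assoc]
      exact mul_le_mul_of_nonneg_left h5 (by positivity)
  rw [Metric.tendsto_nhds]
  intro ε hε
  obtain ⟨j, hj⟩ := ((tendsto_pow_atTop_atTop_of_one_lt hμ).eventually_gt_atTop (δ / ε)).exists
  filter_upwards [eventually_le_atBot (a - j * L)] with x hx
  rw [dist_eq_norm]
  rw [div_lt_iff₀ hε] at hj
  exact lt_of_mul_lt_mul_left ((hB j x hx).trans_lt hj) (by positivity)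

end E1

theorem e1 {n : ℕ} (hn : 2 ≤ n) : St_E1 n := by
  intro P S Ψ c ζ z hΨ hC hc hP h1 hζ hz hl hlam η hη
  have hL : 0 < (P * Real.log n : ℝ) :=
    mul_pos (by exact_mod_cast hP) (Real.log_pos (by exact_mod_cast (by omega : 1 < n)))
  obtain ⟨δ0, hδ0, hs⟩ := strict_iter n P c z (κ := (‖dF n c P z‖ - 1) / 2) (by linarith)
  set δ := min δ0 η / 2 with hδd
  have hδ : 0 < δ := half_pos (lt_min hδ0 hη)
  have hδ1 : 2 * δ ≤ δ0 := by have := min_le_left δ0 η; linarith
  have hδ2 : 2 * δ ≤ η := by have := min_le_right δ0 η; linarith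
  obtain ⟨a, ha⟩ := eventually_atBot.mp (hl.eventually (ball_mem_nhds z (show 0 < δ / 4 by linarith)))
  have hw := (fixed_chart hz (by rintro h; rw [h, norm_one] at hlam; exact lt_irrefl _ hlam)).1
    (δ / 4) (by linarith)
  have hj : ContinuousOn (fun p : ℂ × ℝ => ray (Ψ p.1) ζ p.2 - ray (Ψ c) ζ p.2) (S ×ˢ univ) := by
    refine ContinuousOn.sub (hΨ.comp (f := fun p : ℂ × ℝ => (p.1, ζ * exp (exp (p.2 : ℂ))))
      (by fun_prop) fun p hp => ⟨hp.1, Q.ray_norm h1 (by norm_num)⟩) ?_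
    exact (((hC c hc).ray_cont h1).comp continuous_snd).continuousOn
  have hK := (isCompact_Icc (a := a - P * Real.log n) (b := a)).eventually_forall_of_forall_eventually
    (x₀ := c) (P := fun u x => u ∈ S → ‖ray (Ψ u) ζ x - ray (Ψ c) ζ x‖ < δ / 4) (fun y _ => by
      have h2 := (hj (c, y) ⟨hc, mem_univ _⟩).tendsto
      simp only [sub_self] at h2
      have h3 := h2.eventually (ball_mem_nhds 0 (show 0 < δ / 4 by linarith))
      rw [eventually_nhdsWithin_iff] at h3
      filter_upwards [h3] with p hp hpS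
      exact mem_ball_zero_iff.mp (hp ⟨hpS, mem_univ _⟩))
  refine ⟨a, ?_⟩
  filter_upwards [self_mem_nhdsWithin, nhdsWithin_le_nhds hs, nhdsWithin_le_nhds hw,
    nhdsWithin_le_nhds hK] with u huS hsu hwu hKu
  obtain ⟨w, hw1, hw2⟩ := hwu
  obtain ⟨h2, h3⟩ := E1.trap ((hC u huS).ray_cont h1) (g := (F n u)^[P]) (w := w) (a := a)
    (μ := (‖dF n c P z‖ + 1) / 2) hL (by linarith) hδ
    (fun x => by
      rw [ray_shift hn (hC u huS).conj h1 hζ (u := x) (by norm_num)]
      push_cast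
      rfl)
    (fun y hy => by
      have h4 := hsu y w ((norm_sub_le_norm_sub_add_norm_sub y w z).trans (by linarith))
        (by linarith)
      rw [hw1] at h4
      have h5 := norm_sub_norm_le (dF n c P z * (y - w)) ((F n u)^[P] y - w)
      rw [norm_sub_rev (dF n c P z * (y - w)), norm_mul] at h5
      linarith)
    (fun x hx => by
      have h4 := hKu x hx huS
      have h5 := mem_ball_iff_norm.mp (ha x hx.2)
      have h6 := norm_sub_le_norm_sub_add_norm_sub (ray (Ψ u) ζ x) (ray (Ψ c) ζ x) w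
      have h7 := norm_sub_le_norm_sub_add_norm_sub (ray (Ψ c) ζ x) z w
      rw [norm_sub_rev z w] at h7
      linarith)
  refine ⟨w, hw1, by linarith, h3, fun x hx => ?_⟩
  have h4 := h2 x hx
  have h5 := norm_sub_le_norm_sub_add_norm_sub (ray (Ψ u) ζ x) w z
  linarith

end Pool.Agent.Lib.MP_c35c17_an.L
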