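import Pool.Agent.Lib.MP_c35c17_an.LBlue

/-! Block E2: the logarithm of the multiplier selected by a ray persists. -/

set_option autoImplicit false

open Filter Topology Set Metric Complex Bornology N62a1eb23
open scoped Real

namespace Pool.Agent.Lib.MP_c35c17_an.L

namespace E2

/-- Uniform closeness of the rays on a compact interval. -/
theorem close {S : Set ℂ} {Ψ : ℂ → ℂ → ℂ} {c ζ : ℂ}
    (hcont : ContinuousOn (fun p : ℂ × ℂ => Ψ p.1 p.2) (S ×ˢ {w | 1 < ‖w‖})) (hc : c ∈ S)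
    (h1 : ‖ζ‖ = 1) {K : Set ℝ} (hK : IsCompact K) {m : ℝ} (hm : 0 < m) :
    ∀ᶠ u in 𝓝[S] c, ∀ x ∈ K, ‖ray (Ψ u) ζ x - ray (Ψ c) ζ x‖ ≤ m := by
  have hn : ∀ x : ℝ, 1 < ‖ζ * exp (exp (x : ℂ))‖ := fun x => Q.ray_norm h1 (by norm_num)
  have hA : ContinuousOn (fun p : ℂ × ℝ => ray (Ψ p.1) ζ p.2) (S ×ˢ univ) :=
    hcont.comp (f := fun p : ℂ × ℝ => (p.1, ζ * exp (exp (p.2 : ℂ)))) (by fun_prop)
      fun p hp => ⟨hp.1, hn p.2⟩
  have hB : ContinuousOn (fun p : ℂ × ℝ => ray (Ψ c) ζ p.2) (S ×ˢ univ) :=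
    hcont.comp (f := fun p : ℂ × ℝ => (c, ζ * exp (exp (p.2 : ℂ)))) (by fun_prop)
      fun p _ => ⟨hc, hn p.2⟩
  have h2 := hK.eventually_forall_of_forall_eventually (x₀ := c)
    (P := fun u x => u ∈ S → ‖ray (Ψ u) ζ x - ray (Ψ c) ζ x‖ ≤ m) fun x _ => by
      have h3 := ((hA.sub hB).norm (c, x) ⟨hc, mem_univ _⟩).eventually
        (Iic_mem_nhds (a := m) (by simpa using hm))
      filter_upwards [eventually_nhdsWithin_iff.mp h3] with p hp hS
      exact hp ⟨hS, mem_univ _⟩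
  filter_upwards [mem_nhdsWithin_of_mem_nhds h2, self_mem_nhdsWithin] with u hu hS x hx
  exact hu x hx hS

/-- Two logarithms of close curves have close increments. -/
theorem incr {l l' : ℝ → ℂ} (hl : Continuous l) (hl' : Continuous l') {a b : ℝ} (hab : a ≤ b)
    (h : ∀ x ∈ Icc a b, ‖exp (l' x) - exp (l x)‖ ≤ ‖exp (l x)‖ / 20) :
    ‖(l' b - l' a) - (l b - l a)‖ ≤ 1 / 4 := by
  have h1 : ∀ x ∈ Icc a b, ‖exp (l' x - l x) - 1‖ ≤ 1 / 20 := fun x hx => by
    have h0 : 0 < ‖exp (l x)‖ := norm_pos_iff.mpr (exp_ne_zero _)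
    rw [exp_sub, div_sub_one (exp_ne_zero _), norm_div, div_le_iff₀ h0]
    linarith [h x hx]
  have hb : b ∈ Icc a b := ⟨hab, le_rfl⟩
  have h2 : exp (l' b - l b - log (exp (l' b - l b))) = 1 := by
    rw [exp_sub, exp_log (exp_ne_zero _), div_self (exp_ne_zero _)]
  have h3 := branch (d := fun x => l' x - l x) isPreconnected_Icc (hl'.sub hl).continuousOn
    (τ := l' b - l b - log (exp (l' b - l b))) (ε := 1 / 20) (by norm_num)
    (fun x hx => by rw [exp_sub, h2, div_one]; exact h1 x hx) hb (by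
      have h4 := norm_log_one_add_half_le_self ((h1 b hb).trans (by norm_num))
      rw [add_sub_cancel] at h4
      rw [sub_sub_cancel]
      linarith [h1 b hb])
  have h5 := norm_sub_le (l' b - l b - (l' b - l b - log (exp (l' b - l b))))
    (l' a - l a - (l' b - l b - log (exp (l' b - l b))))
  have h6 := h3 b hb
  have h7 := h3 a ⟨le_rfl, hab⟩
  rw [show (l' b - l' a) - (l b - l a) = l' b - l b - (l' b - l b - log (exp (l' b - l b))) -
    (l' a - l a - (l' b - l b - log (exp (l' b - l b)))) by ring]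
  linarith

end E2

theorem e2 {n : ℕ} (hn : 2 ≤ n) (h1 : St_C1 n) (h2 : St_E1 n) : St_E n := by
  intro P S Ψ c ζ z τ hcont hCj hc hP hζ1 hζ hland hlam ε hε
  obtain ⟨-, τ', hL', hexp⟩ := h1 P c ζ z (Ψ c) (hCj c hc) hP hζ1 hζ hland.fix hland.lands
  rw [← hland.rot.unique hL'.rot] at hexp
  obtain ⟨l, hl, hle, hlt⟩ := hland.rot
  have hL : (0 : ℝ) ≤ P * Real.log n := mul_nonneg (Nat.cast_nonneg _) (Real.log_natCast_nonneg _)
  have hk : 0 < min (ε / 2) (1 / 2) := lt_min (half_pos hε) one_half_pos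
  obtain ⟨δ, hδ, hlin⟩ := strict_iter n P c z hk
  obtain ⟨a₀, ha₀⟩ := h2 P S Ψ c ζ z hcont hCj hc hP hζ1 hζ hland.fix hland.lands hlam
    (min δ ε) (lt_min hδ hε)
  obtain ⟨a₁, ha₁⟩ := eventually_atBot.mp
    (hlt.eventually (closedBall_mem_nhds τ (show (0 : ℝ) < 1 / 4 by norm_num)))
  obtain ⟨a, haa₀, haa₁⟩ : ∃ a, a ≤ a₀ ∧ a ≤ a₁ := ⟨min a₀ a₁, min_le_left _ _, min_le_right _ _⟩
  obtain ⟨x₀, -, hx₀⟩ := (isCompact_Icc (a := a - P * Real.log n) (b := a)).exists_isMinOn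
    (nonempty_Icc.mpr (by linarith)) (f := fun x => ‖exp (l x)‖) (by fun_prop)
  have hm : 0 < ‖exp (l x₀)‖ / 40 := div_pos (norm_pos_iff.mpr (exp_ne_zero _)) (by norm_num)
  obtain ⟨a₂, ha₂⟩ := h2 P S Ψ c ζ z hcont hCj hc hP hζ1 hζ hland.fix hland.lands hlam _ hm
  filter_upwards [mem_nhdsWithin_of_mem_nhds hlin, ha₀, ha₂,
    E2.close hcont hc hζ1 (isCompact_Icc (a := a - P * Real.log n) (b := a)) hm,
    self_mem_nhdsWithin] with u hlin ⟨w, hw, hwz, hwl, hwa⟩ ⟨w', _, hwz', hwl', _⟩ hclose hu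
  rw [tendsto_nhds_unique hwl' hwl] at hwz'
  obtain ⟨-, σ, hσ, -⟩ := h1 P u ζ w (Ψ u) (hCj u hu) hP hζ1 hζ hw hwl
  refine ⟨w, σ, hσ, hwz.trans_le (min_le_right _ _), ?_⟩
  obtain ⟨l', hl', hle', hlt'⟩ := hσ.rot
  have h3 := E2.incr hl hl' (a := a - P * Real.log n) (b := a) (by linarith) fun x hx => by
    have h4 : ‖exp (l x₀)‖ ≤ ‖exp (l x)‖ := hx₀ hx
    have h5 := norm_sub_le (ray (Ψ u) ζ x - ray (Ψ c) ζ x) (w - z)
    rw [show exp (l' x) - exp (l x) = ray (Ψ u) ζ x - ray (Ψ c) ζ x - (w - z) by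
      rw [hle, hle']; ring]
    linarith [hclose x hx]
  have h4 := branch (d := fun x => l' x - l' (x - P * Real.log n)) (isPreconnected_Iic (a := a))
    (by fun_prop) (τ := τ) (min_le_right (ε / 2) (1 / 2)) (fun x hx => by
      have hx' : x ≤ a := hx
      have h5 := hlin (ray (Ψ u) ζ ((x - P * Real.log n : ℝ) : ℂ)) w
        ((hwa _ (by linarith)).trans (min_le_left _ _)) (hwz.le.trans (min_le_left _ _))
      have h6 := ray_shift hn (hCj u hu).conj hζ1 hζ (u := (x : ℂ)) (by norm_num)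
      rw [← ofReal_sub] at h6
      rw [← h6, hw, ← hle', ← hle', ← hexp] at h5
      rw [← hexp] at hlam
      have h7 : 0 < ‖exp (l' (x - P * Real.log n))‖ := norm_pos_iff.mpr (exp_ne_zero _)
      rw [exp_sub, exp_sub, div_div, div_sub_one (mul_ne_zero (exp_ne_zero _) (exp_ne_zero _)),
        norm_div, div_le_iff₀ (norm_pos_iff.mpr (mul_ne_zero (exp_ne_zero _) (exp_ne_zero _))),
        norm_mul, mul_comm (exp _) (exp τ)]
      exact h5.trans (mul_le_mul_of_nonneg_left (le_mul_of_one_le_right h7.le hlam.le) hk.le))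
    (a := a) self_mem_Iic (by
      have h5 := mem_closedBall_iff_norm.mp (ha₁ a haa₁)
      have h6 := norm_add_le (l' a - l' (a - P * Real.log n) - (l a - l (a - P * Real.log n)))
        (l a - l (a - P * Real.log n) - τ)
      rw [sub_add_sub_cancel] at h6
      linarith)
  have h5 := le_of_tendsto (hlt'.sub_const τ).norm (eventually_atBot.mpr ⟨a, h4⟩)
  linarith [min_le_left (ε / 2) (1 / 2)]

end Pool.Agent.Lib.MP_c35c17_an.L
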