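import Pool.Agent.Lib.MP_c35c17_an.LBlue

/-! Continuation of a cycle along the logarithm of its multiplier. -/

set_option autoImplicit false

open Filter Topology Set Metric Complex Bornology N62a1eb23
open scoped Real

namespace Pool.Agent.Lib.MP_c35c17_an.L

namespace F3b

/-- The map whose fibres are the cycles with given multiplier. -/
noncomputable def Th (n k : ℕ) (p : ℂ × ℂ) : ℂ × ℂ := ((F n p.1)^[k] p.2 - p.2, dF n p.1 k p.2)

theorem contDiff_Th (n k : ℕ) : ContDiff ℂ 1 (Th n k) :=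
  ((Q.contDiff_iter n k).sub contDiff_snd).prodMk (contDiff_dF n k)

theorem line (n k : ℕ) (p v : ℂ × ℂ) (s : ℂ) (h : fderiv ℂ (Th n k) p v = (0, s)) :
    HasDerivAt (fun t : ℂ => (F n (p.1 + t * v.1))^[k] (p.2 + t * v.2)) v.2 0 ∧
      HasDerivAt (fun t : ℂ => dF n (p.1 + t * v.1) k (p.2 + t * v.2)) s 0 := by
  have h1 : HasDerivAt (fun t : ℂ => p.1 + t * v.1) v.1 0 := by
    simpa using ((hasDerivAt_id (0 : ℂ)).mul_const v.1).const_add p.1
  have h2 : HasDerivAt (fun t : ℂ => p.2 + t * v.2) v.2 0 := by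
    simpa using ((hasDerivAt_id (0 : ℂ)).mul_const v.2).const_add p.2
  have h3 : HasFDerivAt (Th n k) (fderiv ℂ (Th n k) p) (p.1 + 0 * v.1, p.2 + 0 * v.2) := by
    simpa using ((contDiff_Th n k).differentiable one_ne_zero p).hasFDerivAt
  have h4 := h3.comp_hasDerivAt (0 : ℂ) (h1.prodMk h2)
  rw [show ((v.1, v.2) : ℂ × ℂ) = v from rfl, h] at h4
  refine ⟨?_, h4.snd⟩
  have h5 : HasDerivAt (fun t : ℂ => (Th n k (p.1 + t * v.1, p.2 + t * v.2)).1) 0 0 :=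
    (ContinuousLinearMap.fst ℂ ℂ ℂ).hasFDerivAt.comp_hasDerivAt (0 : ℂ) h4
  refine ((h5.add h2).congr_deriv (zero_add _)).congr_of_eventuallyEq
    (Eventually.of_forall fun t => ?_)
  simp [Th]

theorem re_pos {D : ℝ} {t : ℂ} (ht : t ∈ ball (D : ℂ) D) : 0 < t.re ∧ ‖t‖ ≤ 2 * D := by
  have h1 := mem_ball_iff_norm.mp ht
  have h2 := (abs_le.mp ((abs_re_le_norm (t - D)).trans h1.le)).1
  have h3 := (abs_lt.mp ((abs_re_le_norm (t - D)).trans_lt h1)).1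
  have h4 := norm_le_norm_sub_add t D
  have h5 : 0 < D := (norm_nonneg _).trans_lt h1
  rw [norm_real, Real.norm_of_nonneg h5.le] at h4
  simp only [sub_re, ofReal_re] at h3
  exact ⟨by linarith, by linarith⟩

/-- Integration of the derivative bound. -/
theorem path {D E : ℝ} (hE : 0 ≤ E) (hD : E ^ 24 = D) {g : ℂ → ℂ}
    (h : ∀ t ∈ ball (D : ℂ) D, ∃ a, HasDerivAt g a t ∧ ‖a‖ ^ 24 * t.re ^ 23 ≤ 2 ^ 24) {t : ℂ}
    (ht : t ∈ ball (D : ℂ) D) : ‖g D - g t‖ ≤ 48 * E := by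
  choose! a h1 h2 using h
  have h3 := mem_ball_iff_norm.mp ht
  have h0 : 0 < D := (norm_nonneg _).trans_lt h3
  have h4 : ∀ σ ∈ Icc (0 : ℝ) 1, t + (σ : ℂ) ^ 24 * (D - t) ∈ ball (D : ℂ) D := fun σ hσ => by
    have h5 : σ ^ 24 ≤ 1 := pow_le_one₀ hσ.1 hσ.2
    have h6 : 0 ≤ σ ^ 24 := pow_nonneg hσ.1 _
    rw [mem_ball_iff_norm, show t + (σ : ℂ) ^ 24 * (D - t) - D = ((1 - σ ^ 24 : ℝ) : ℂ) * (t - D) by
      push_cast; ring, norm_mul, norm_real, Real.norm_of_nonneg (by linarith)]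
    nlinarith [norm_nonneg (t - D)]
  have h5 : ∀ σ : ℝ, HasDerivAt (fun σ : ℝ => t + (σ : ℂ) ^ 24 * (D - t))
      (24 * (σ : ℂ) ^ 23 * (D - t)) σ := fun σ => by
    simpa using ((((hasDerivAt_id (σ : ℂ)).fun_pow 24).mul_const (D - t)).const_add t).comp_ofReal
  have h6 := norm_image_sub_le_of_norm_deriv_le_segment_01' (C := 48 * E)
    (f := fun σ : ℝ => g (t + (σ : ℂ) ^ 24 * (D - t)))
    (fun σ hσ => ((h1 _ (h4 σ hσ)).scomp σ (h5 σ)).hasDerivWithinAt) fun σ hσ => by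
      have h7 := h2 _ (h4 σ ⟨hσ.1, hσ.2.le⟩)
      generalize a (t + (σ : ℂ) ^ 24 * (D - t)) = b at h7
      have h8 : σ ^ 24 * D ≤ (t + (σ : ℂ) ^ 24 * (D - t)).re := by
        have h9 : σ ^ 24 ≤ 1 := pow_le_one₀ hσ.1 hσ.2.le
        rw [← ofReal_pow, add_re, re_ofReal_mul, sub_re, ofReal_re]
        nlinarith [(re_pos ht).1]
      have h9 : ‖b‖ ^ 24 * (σ ^ 24 * D) ^ 23 ≤ 2 ^ 24 :=
        (mul_le_mul_of_nonneg_left (pow_le_pow_left₀ (by have := hσ.1; positivity) h8 _)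
          (by positivity)).trans h7
      have h10 : ‖(24 * (σ : ℂ) ^ 23 * (D - t)) • b‖ ≤ 24 * σ ^ 23 * D * ‖b‖ := by
        rw [norm_smul, norm_mul, norm_mul, norm_pow, norm_real, Real.norm_of_nonneg hσ.1,
          norm_sub_rev, norm_ofNat]
        have := hσ.1
        gcongr
      refine h10.trans (le_of_pow_le_pow_left₀ (n := 24) (by norm_num) (by positivity) ?_)
      calc (24 * σ ^ 23 * D * ‖b‖) ^ 24 = 24 ^ 24 * D * (‖b‖ ^ 24 * (σ ^ 24 * D) ^ 23) := by ring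
        _ ≤ 24 ^ 24 * D * 2 ^ 24 := by gcongr
        _ = (48 * E) ^ 24 := by rw [mul_pow, hD]; ring
  simpa using h6

end F3b

open F3b in
theorem f3b {n : ℕ} (hn : 2 ≤ n) (h1 : St_F1 n) (h2 : St_F2 n) (h3 : St_F3a) : St_F3 n := by
  obtain ⟨C₁, hC₁, h1⟩ := h1
  refine ⟨2 ^ 26 * C₁ + 96 ^ 24, by nlinarith, fun k D ω t₀ c z hk hD hω ht₀ hz hρ hA hB => ?_⟩
  have hk1 : (1 : ℝ) ≤ k := by exact_mod_cast hk
  have hk48 : (1 : ℝ) ≤ (k : ℝ) ^ 48 := one_le_pow₀ hk1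
  have hk24 : (1 : ℝ) ≤ (k : ℝ) ^ 24 := one_le_pow₀ hk1
  have hD1 : 96 ^ 24 * D ≤ 1 := by
    refine le_trans ?_ hA
    gcongr
    nlinarith
  have hD2 : D ≤ 1 / 100 := by nlinarith
  have hex : ∀ t ∈ ball (D : ℂ) D, ‖exp t - 1‖ ≤ 4 * D := fun t ht => by
    have h := (re_pos ht).2
    linarith [norm_exp_sub_one_le (x := t) (by linarith)]
  have hn1 : ∀ t : ℂ, ‖ω * exp t‖ = Real.exp t.re := fun t => by rw [norm_mul, hω, one_mul, norm_exp]
  have hlt : ∀ t ∈ ball (D : ℂ) D, 1 < ‖ω * exp t‖ ∧ ‖ω * exp t‖ - 1 ≤ 4 * D := fun t ht => by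
    refine ⟨by rw [hn1]; exact Real.one_lt_exp_iff.mpr (re_pos ht).1, ?_⟩
    have h := norm_sub_norm_le (exp t) 1
    rw [norm_one] at h
    rw [norm_mul, hω, one_mul]
    linarith [hex t ht]
  have h16 : 16 * D ≤ ‖ω * exp t₀ - 1‖ := by
    refine le_of_pow_le_pow_left₀ (n := 24) (by norm_num) (norm_nonneg _) (le_trans ?_ (hρ ▸ hB))
    have h : D ^ 24 ≤ D := pow_le_of_le_one hD.le (by linarith) (by norm_num)
    calc (16 * D) ^ 24 = 16 ^ 24 * D ^ 24 := mul_pow _ _ _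
      _ ≤ 96 ^ 24 * 1 * D := by nlinarith
      _ ≤ _ := by gcongr; nlinarith
  have key : ∀ t ∈ ball (D : ℂ) D, ∀ p, Th n k p = (0, ω * exp t) → ‖p.1‖ < 2 ∧ ∀ v s,
      fderiv ℂ (Th n k) p v = (0, ω * exp t * s) → ‖v.1‖ ^ 24 * t.re ^ 23 ≤ (2 * ‖s‖) ^ 24 := by
    intro t ht p hp
    obtain ⟨e1, e2⟩ := Prod.mk.inj hp
    rw [sub_eq_zero] at e1
    obtain ⟨a1, a2⟩ := hlt t ht
    have hp2 : ‖p.1‖ < 2 := not_le.mp fun h => by
      have := h2 k p.1 p.2 h hk e1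
      rw [e2] at this
      linarith
    refine ⟨hp2, fun v s hv => ?_⟩
    obtain ⟨l1, l2⟩ := line n k p v _ hv
    have h4 : ‖ω * exp t₀ - 1‖ ≤ 2 * ‖ω * exp t - 1‖ := by
      have h5 : ‖ω * exp t₀ - ω * exp t‖ ≤ 8 * D := by
        rw [← mul_sub, norm_mul, hω, one_mul]
        have := norm_sub_le_norm_sub_add_norm_sub (exp t₀) 1 (exp t)
        rw [norm_sub_rev 1] at this
        linarith [hex t ht, hex t₀ ht₀]
      linarith [norm_sub_le_norm_sub_add_norm_sub (ω * exp t₀) (ω * exp t) 1]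
    have h5 := h1 k p.1 p.2 v.1 v.2 s hp2.le hk e1 (e2 ▸ a1) (by
      rw [e2]
      calc C₁ * k ^ 48 * (‖ω * exp t‖ - 1) ≤ C₁ * k ^ 48 * (4 * D) := by gcongr
        _ = 4 * C₁ * k ^ 48 * D := by ring
        _ ≤ _ := le_trans (by gcongr; nlinarith) hA) (by
      rw [e2]
      have h6 := pow_le_pow_left₀ (norm_nonneg _) h4 24
      rw [mul_pow] at h6
      have h7 : 2 ^ 24 * (C₁ * k ^ 24 * (‖ω * exp t‖ - 1)) ≤ ‖ω * exp t₀ - 1‖ ^ 24 :=
        calc 2 ^ 24 * (C₁ * k ^ 24 * (‖ω * exp t‖ - 1)) ≤ 2 ^ 24 * (C₁ * k ^ 24 * (4 * D)) := by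
              gcongr
          _ = 2 ^ 26 * C₁ * k ^ 24 * D := by ring
          _ ≤ _ := le_trans (by gcongr; nlinarith) (hρ ▸ hB)
      exact le_of_mul_le_mul_left (h7.trans h6) (by positivity)) l1 (e2 ▸ l2)
    rwa [e2, hn1, Real.log_exp] at h5
  obtain ⟨G, hG0, hG⟩ := h3 (Th n k) (fun t => (0, ω * exp t)) (fun t => (0, ω * exp t)) D t₀ D 5
    (c, z) (contDiff_Th n k)
    (fun t => (hasDerivAt_const t (0 : ℂ)).prodMk ((hasDerivAt_exp t).const_mul ω))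
    (fun t ht p hp => by
      obtain ⟨a1, a2⟩ := key t ht p hp
      obtain ⟨e1, e2⟩ := Prod.mk.inj hp
      rw [sub_eq_zero] at e1
      refine ⟨max_lt (by linarith) (by linarith [Q.per_lt hn hk e1]),
        (injective_iff_map_eq_zero _).mpr fun v hv => ?_⟩
      have h4 := a2 v 0 (by rw [hv, mul_zero]; rfl)
      have h5 : v.1 = 0 := by
        by_contra h
        have := norm_pos_iff.mpr h
        have := (re_pos ht).1
        have : 0 < ‖v.1‖ ^ 24 * t.re ^ 23 := by positivity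
        simp only [norm_zero, mul_zero, ne_eq, OfNat.ofNat_ne_zero, not_false_eq_true,
          zero_pow] at h4
        linarith
      have h6 := (line n k p v 0 hv).1
      have h7 : HasDerivAt (fun t : ℂ => p.2 + t * v.2) v.2 0 := by
        simpa using ((hasDerivAt_id (0 : ℂ)).mul_const v.2).const_add p.2
      have h8 := (hasDerivAt_iter n p.1 k (p.2 + 0 * v.2)).comp (0 : ℂ) h7
      simp only [h5, mul_zero, add_zero] at h6
      have h9 := h6.unique h8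
      rw [zero_mul, add_zero, e2] at h9
      refine Prod.ext h5 (by_contra fun h => ?_)
      have h10 := (hlt t ht).1
      rw [show ω * exp t = 1 from mul_right_cancel₀ h (by rw [← h9, one_mul]), norm_one] at h10
      exact lt_irrefl _ h10) ht₀ (Prod.ext (sub_eq_zero.mpr hz) hρ)
  obtain ⟨E, hE, hED⟩ : ∃ E : ℝ, 0 ≤ E ∧ E ^ 24 = D :=
    ⟨D ^ ((24 : ℕ)⁻¹ : ℝ), by positivity, Real.rpow_inv_natCast_pow hD.le (by norm_num)⟩
  have hP : ∀ t ∈ ball (D : ℂ) D, ‖(G D).1 - (G t).1‖ ≤ 48 * E := fun t ht =>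
    path hE hED (g := fun t => (G t).1) (fun t ht => by
      obtain ⟨a1, ⟨v, a2, a3⟩, -⟩ := hG t ht
      exact ⟨v.1, a2.fst, by simpa using (key t ht _ a1).2 v 1 (by rw [a3, mul_one])⟩) ht
  refine ⟨G, fun t ht => ?_, hG0, fun t ht => ?_⟩
  · obtain ⟨-, ⟨v, a2, -⟩, -⟩ := hG t ht
    exact a2.continuousAt.continuousWithinAt
  · obtain ⟨a1, -, a4⟩ := hG t ht
    obtain ⟨e1, e2⟩ := Prod.mk.inj a1
    refine ⟨sub_eq_zero.mp e1, e2, ?_, a4.mono fun q hq b1 b2 =>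
      hq (Prod.ext (sub_eq_zero.mpr b1) b2)⟩
    have h4 := hP t₀ ht₀
    have h5 := norm_sub_le_norm_sub_add_norm_sub (G t).1 (G D).1 c
    rw [hG0] at h4
    rw [norm_sub_rev (G t).1 (G D).1] at h5
    calc ‖(G t).1 - c‖ ^ 24 ≤ (96 * E) ^ 24 :=
          pow_le_pow_left₀ (norm_nonneg _) (by linarith [hP t ht]) _
      _ = 96 ^ 24 * D := by rw [mul_pow, hED]
      _ ≤ _ := by gcongr; nlinarith

end Pool.Agent.Lib.MP_c35c17_an.L
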