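import Pool.Agent.Lib.MP_c35c17_an.LBlue

/-! Connected neighbourhoods inside an open piece with finite boundary. -/

set_option autoImplicit false

open Filter Topology Set Metric

namespace Pool.Agent.Lib.MP_c35c17_an.L

theorem hh : St_H := by
  intro M O E c hM hMc hO ho hE hf hc
  have hK : closure O ⊆ M := closure_minimal hO hM
  have key : ∀ A ⊆ closure O, IsClosed (closure O \ A) → ∀ x ∈ A, x ∈ O → A ∈ 𝓝[M] x :=
    fun A _ h1 x hx hxO => by
      filter_upwards [ho x hxO, nhdsWithin_le_nhds (h1.isOpen_compl.mem_nhds fun h => h.2 hx)] with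
        y h2 h3 using by_contra fun h4 => h3 ⟨subset_closure h2, h4⟩
  have key' : ∀ A ⊆ closure O, IsClosed (closure O \ A) → A ∩ closure (M \ A) ⊆ E :=
    fun A hA h1 x hx => (hE (hA hx.1)).resolve_left fun h2 => by
      obtain ⟨y, h3, h4⟩ := ((mem_closure_iff_frequently.mp hx.2).and_eventually
        (eventually_nhdsWithin_iff.mp (key A hA h1 x hx.1 h2))).exists
      exact h3.2 (h4 h3.1)
  obtain ⟨A, ⟨h1, h2, h3, h4⟩, hmin⟩ := (measure fun A : Set ℂ => (A ∩ E).ncard).wf.has_min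
    {A | c ∈ A ∧ A ⊆ closure O ∧ IsClosed A ∧ IsClosed (closure O \ A)}
    ⟨closure O, subset_closure hc, subset_rfl, isClosed_closure, by simp⟩
  refine ⟨A, h2, h3, ?_, key A h2 h4 c h1 hc, key' A h2 h4⟩
  have step : ∀ u v : Set ℂ, IsClosed u → IsClosed v → A ⊆ u ∪ v → A ∩ (u ∩ v) = ∅ → c ∈ u →
      A ⊆ u := fun u v hu hv hA hd hcu => by
    have hd' : ∀ x ∈ A, x ∈ u → x ∉ v := fun x h5 h6 h7 => (hd.subset ⟨h5, h6, h7⟩ :)
    have e : ∀ u v : Set ℂ, IsClosed v → A ⊆ u ∪ v → (∀ x ∈ A, x ∈ u → x ∉ v) →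
        IsClosed (closure O \ (A ∩ u)) := fun u v hv hA hd => by
      convert h4.union (h3.inter hv) using 1
      ext x
      exact ⟨fun h => (em (x ∈ A)).elim (fun h5 => Or.inr ⟨h5, (hA h5).resolve_left
        fun h6 => h.2 ⟨h5, h6⟩⟩) fun h5 => Or.inl ⟨h.1, h5⟩, fun h => h.elim
          (fun h => ⟨h.1, fun h5 => h.2 h5.1⟩) fun h => ⟨h2 h.1, fun h5 => hd x h.1 h5.2 h.2⟩⟩
    have h5 : A ∩ u ∩ E = A ∩ E := eq_of_subset_of_ncard_le
      (inter_subset_inter_left _ inter_subset_left) (not_lt.mp (hmin (A ∩ u)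
        ⟨⟨h1, hcu⟩, inter_subset_left.trans h2, h3.inter hu, e u v hv hA hd'⟩)) (hf.inter_of_right _)
    have h6 := key' (A ∩ v) (inter_subset_left.trans h2)
      (e v u hu (union_comm u v ▸ hA) fun x h6 h7 h8 => hd' x h6 h8 h7)
    have h7 : ∀ x ∈ A ∩ v, x ∉ closure (M \ (A ∩ v)) := fun x hx h7 =>
      hd' x hx.1 (h5.superset ⟨hx.1, h6 ⟨hx, h7⟩⟩).1.2 hx.2
    rcases isPreconnected_iff_subset_of_disjoint_closed.mp hMc (A ∩ v) _ (h3.inter hv)
      isClosed_closure (fun x hx => (em (x ∈ A ∩ v)).imp_right fun h' =>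
        subset_closure (mem_sdiff_of_mem hx h'))
      (eq_empty_of_forall_notMem fun x hx => h7 x hx.2.1 hx.2.2) with h | h
    · exact absurd (h (hO hc)).2 (hd' c h1 hcu)
    · exact fun x hx => (hA hx).resolve_right fun h8 => h7 x ⟨hx, h8⟩ (h (hK (h2 hx)))
  refine isPreconnected_iff_subset_of_disjoint_closed.mpr fun u v hu hv hA hd => ?_
  exact (hA h1).imp (step u v hu hv hA hd)
    (step v u hv hu (union_comm u v ▸ hA) (inter_comm u v ▸ hd))

end Pool.Agent.Lib.MP_c35c17_an.L
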