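import Pool.Agent.Lib.MP_c35c17_an.LBlue

/-! Uniqueness and injectivity of the inverse Boettcher map. -/

set_option autoImplicit false

open Filter Topology Set Metric Complex Bornology N62a1eb23
open scoped Real

namespace Pool.Agent.Lib.MP_c35c17_an.L

namespace UI

theorem expand {n : ℕ} (hn : 2 ≤ n) : ∃ δ > 0, ∀ x y : ℂ, ‖x - 1‖ < δ → ‖y - 1‖ < δ →
    3 / 2 * ‖x - y‖ ≤ ‖x ^ n - y ^ n‖ := by
  have h1 := (hasStrictDerivAt_pow n (1 : ℂ)).hasStrictFDerivAt.isLittleO.def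
    (show (0 : ℝ) < 1 / 2 by norm_num)
  obtain ⟨δ, hδ, h3⟩ := Metric.eventually_nhds_iff.mp h1
  refine ⟨δ, hδ, fun x y hx hy => ?_⟩
  have h4 := @h3 (x, y) (by
    simp only [Prod.dist_eq, max_lt_iff, dist_eq_norm x, dist_eq_norm y]
    exact ⟨hx, hy⟩)
  have h5 : ‖x ^ n - y ^ n - (x - y) * n‖ ≤ 1 / 2 * ‖x - y‖ := by simpa using h4
  have h6 := norm_sub_norm_le ((x - y) * n) (x ^ n - y ^ n)
  rw [norm_sub_rev ((x - y) * n), norm_mul, Complex.norm_natCast] at h6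
  have h7 : (2 : ℝ) ≤ n := by exact_mod_cast hn
  nlinarith [norm_nonneg (x - y)]

theorem seq_zero {a : ℕ → ℝ} {B : ℝ} (h0 : 0 ≤ a 0) (h1 : ∀ j, 3 / 2 * a j ≤ a (j + 1))
    (hB : ∀ j, a j ≤ B) : a 0 = 0 := by
  refine h0.antisymm' (not_lt.mp fun h => ?_)
  have h2 : ∀ j, (3 / 2 : ℝ) ^ j * a 0 ≤ a j := fun j => by
    induction j with
    | zero => simp
    | succ j ih => rw [pow_succ', mul_assoc]; linarith [h1 j]
  obtain ⟨j, hj⟩ := (((tendsto_pow_atTop_atTop_of_one_lt (show (1 : ℝ) < 3 / 2 by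
    norm_num)).atTop_mul_const h).eventually_gt_atTop B).exists
  linarith [h2 j, hB j]

theorem far {n : ℕ} {c : ℂ} {r δ : ℝ} {Φ : ℂ → ℂ} (h : Bot n c r Φ) (hδ : 0 < δ) :
    ∃ R, ∀ w, R < ‖w‖ → ‖Φ w / w - 1‖ < δ := by
  have h1 := h.norm.eventually (ball_mem_nhds 1 hδ)
  obtain ⟨R, -, hR⟩ := (Filter.hasBasis_cobounded_norm.eventually_iff).mp h1
  exact ⟨R, fun w hw => mem_ball_iff_norm.mp (hR hw.le)⟩

theorem rot {n : ℕ} (hn : 2 ≤ n) {c : ℂ} (hc : c ∈ multibrotSet n) {Φ : ℂ → ℂ}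
    (h : Bot n c 1 Φ) {θ : ℂ} (hθ : θ ^ n = 1) {w : ℂ} (hw : 1 < ‖w‖) : Φ (θ * w) = θ * Φ w := by
  have h1 : ‖θ‖ = 1 := norm_eq_one_of_pow_eq_one hθ (by omega)
  have h0 : θ ≠ 0 := norm_ne_zero_iff.mp (by rw [h1]; exact one_ne_zero)
  have h2 : ∀ w : ℂ, ‖θ * w‖ = ‖w‖ := fun w => by rw [norm_mul, h1, one_mul]
  have h3 : ∀ w : ℂ, 1 < ‖w‖ → Φ (θ * w) ^ n = Φ w ^ n := fun w hw => by
    have h4 := h.conj (θ * w) (by rwa [h2])
    rw [mul_pow, hθ, one_mul, h.conj w hw] at h4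
    exact (add_right_cancel h4).symm
  obtain ⟨δ, hδ, he⟩ := expand hn
  obtain ⟨R, hR⟩ := far h hδ
  obtain ⟨a, ha⟩ := NormedSpace.exists_lt_norm ℂ ℂ (max R 1)
  have ha1 := (le_max_right _ _).trans_lt ha
  have haR := (le_max_left _ _).trans_lt ha
  have ha0 : a ≠ 0 := norm_pos_iff.mp (by linarith)
  have h5 := he _ _ (hR (θ * a) (by rwa [h2])) (hR a haR)
  rw [div_pow, div_pow, h3 a ha1, mul_pow, hθ, one_mul, sub_self, norm_zero] at h5
  have h6 : Φ (θ * a) / (θ * a) = Φ a / a :=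
    sub_eq_zero.mp (norm_le_zero_iff.mp (by linarith))
  refine eqOn_of_pow (N := n) (by omega) (ext_conn zero_le_one) (v := fun w => Φ (θ * w))
    (w := fun w => θ * Φ w) (h.diff.continuousOn.comp (by fun_prop) fun w hw => ?_)
    (continuousOn_const.mul h.diff.continuousOn)
    (fun w hw => mul_ne_zero h0 (h.ne_orbit hn hc le_rfl hw 0))
    (fun w hw => by rw [h3 w hw, mul_pow, hθ, one_mul]) (a := a) ha1 ?_ hw
  · simpa only [mem_ofPred_eq, h2] using hw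
  · field_simp at h6
    simpa only [mul_comm] using h6

end UI

theorem uu {n : ℕ} (hn : 2 ≤ n) : St_U n := by
  intro c r Φ Φ' hr h h'
  obtain ⟨δ, hδ, he⟩ := UI.expand hn
  obtain ⟨R, hR⟩ := UI.far h hδ
  obtain ⟨R', hR'⟩ := UI.far h' hδ
  have key : ∀ w : ℂ, max r (max R R') < ‖w‖ → Φ w = Φ' w := fun w hw => by
    have h1 : ∀ j, max r (max R R') < ‖w ^ n ^ j‖ := fun j => by
      rw [norm_pow]
      exact hw.trans_le (le_self_pow₀ (hr.trans ((le_max_left _ _).trans hw.le)) (by positivity))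
    simp only [max_lt_iff] at h1 hw
    have h2 := UI.seq_zero (a := fun j => ‖Φ (w ^ n ^ j) / w ^ n ^ j - Φ' (w ^ n ^ j) / w ^ n ^ j‖)
      (B := δ + δ) (norm_nonneg _) (fun j => by
        refine (he _ _ (hR _ (h1 j).2.1) (hR' _ (h1 j).2.2)).trans_eq ?_
        rw [pow_succ, pow_mul, h.conj _ (h1 j).1, h'.conj _ (h1 j).1, div_pow, div_pow]
        congr 1
        ring) fun j => by
        have h3 := norm_sub_le_norm_sub_add_norm_sub (Φ (w ^ n ^ j) / w ^ n ^ j) 1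
          (Φ' (w ^ n ^ j) / w ^ n ^ j)
        rw [norm_sub_rev 1] at h3
        linarith [hR _ (h1 j).2.1, hR' _ (h1 j).2.2]
    simp only [pow_zero, pow_one, norm_eq_zero, sub_eq_zero] at h2
    exact (div_left_inj' (norm_pos_iff.mp (by linarith [hw.1]))).mp h2
  obtain ⟨a, ha⟩ := NormedSpace.exists_lt_norm ℂ ℂ (max r (max R R'))
  exact (h.diff.analyticOnNhd (ext_open r)).eqOn_of_preconnected_of_eventuallyEq
    (h'.diff.analyticOnNhd (ext_open r)) (ext_conn (by linarith)) (z₀ := a)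
    ((le_max_left _ _).trans_lt ha) (eventually_of_mem ((ext_open _).mem_nhds ha) key)

theorem ii {n : ℕ} (hn : 2 ≤ n) : St_I n := by
  intro c hc Φ h w₁ h₁ w₂ h₂ e
  have hp : ∀ {w : ℂ}, 1 < ‖w‖ → ∀ j, 1 < ‖w ^ n ^ j‖ := fun hw j => by
    rw [norm_pow]
    exact one_lt_pow₀ hw (by positivity)
  have hz : ∀ {w : ℂ}, 1 < ‖w‖ → w ≠ 0 := fun hw => norm_pos_iff.mp (by linarith)
  have h1 : ∀ j, Φ (w₁ ^ n ^ j) = Φ (w₂ ^ n ^ j) := fun j => by
    rw [h.iter hn le_rfl j h₁, h.iter hn le_rfl j h₂, e]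
  have h2 : ∀ j, Φ (w₂ ^ n ^ j) ≠ 0 := fun j => h.ne_orbit hn hc le_rfl (hp h₂ j) 0
  have h3 : Tendsto (fun j => (w₂ / w₁) ^ n ^ j) atTop (𝓝 1) := by
    have h4 := (h.norm.comp (tendsto_pow_pow hn h₁)).div (h.norm.comp (tendsto_pow_pow hn h₂))
      one_ne_zero
    rw [div_one] at h4
    refine h4.congr fun j => ?_
    have h5 := h2 j
    have h6 := hz (hp h₁ j)
    have h7 := hz (hp h₂ j)
    simp only [Pi.div_apply, Function.comp_apply, h1, div_pow]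
    field_simp
  obtain ⟨δ, hδ, he⟩ := UI.expand hn
  obtain ⟨J, hJ'⟩ := eventually_atTop.mp (h3.eventually (ball_mem_nhds 1 hδ))
  have hJ : ∀ j ≥ J, ‖(w₂ / w₁) ^ n ^ j - 1‖ < δ := fun j hj => mem_ball_iff_norm.mp (hJ' j hj)
  have h4 := UI.seq_zero (a := fun j => ‖(w₂ / w₁) ^ n ^ (J + j) - 1‖) (B := δ) (norm_nonneg _)
    (fun j => by
      refine (he _ 1 (hJ _ (Nat.le_add_right _ _)) (by simpa using hδ)).trans_eq ?_
      rw [one_pow, ← pow_mul, ← pow_succ, add_assoc])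
    fun j => (hJ _ (Nat.le_add_right _ _)).le
  rw [add_zero, norm_eq_zero, sub_eq_zero] at h4
  have h5 : ∀ j, (w₂ / w₁) ^ n ^ j = 1 → w₂ / w₁ = 1 := fun j => by
    induction j with
    | zero => simp
    | succ j ih =>
      refine fun hj => ih ?_
      rw [pow_succ, pow_mul] at hj
      have h6 := UI.rot hn hc h hj (hp h₁ j)
      rw [← mul_pow, div_mul_cancel₀ _ (hz h₁), h1] at h6
      exact (mul_eq_right₀ (h2 j)).mp h6.symm
  exact ((div_eq_one_iff_eq (hz h₁)).mp (h5 J h4)).symm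

end Pool.Agent.Lib.MP_c35c17_an.L
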