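import Pool.Agent.Lib.MP_c35c17_an.QFull
import Pool.Agent.Lib.MP_c35c17_an.QHolo

set_option autoImplicit false

open Filter Topology Set Metric Complex
open scoped ComplexConjugate

namespace Pool.Agent.Lib.MP_c35c17_an.Q

theorem montel (𝒰 : Ultrafilter ℕ) {U : Set ℂ} (hU : IsOpen U) {F : ℕ → ℂ → ℂ} {C : ℝ}
    (h : ∀ z ∈ U, ∃ r > 0, ∀ᶠ j in 𝒰, DifferentiableOn ℂ (F j) (ball z r) ∧
      ∀ w ∈ ball z r, ‖F j w‖ ≤ C) :
    ∃ G, TendstoLocallyUniformlyOn F G 𝒰 U ∧ DifferentiableOn ℂ G U := by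
  have h1 : ∀ z ∈ U, ∃ g, Tendsto (fun j => F j z) 𝒰 (𝓝 g) := by
    intro z hz
    obtain ⟨r, hr, hj⟩ := h z hz
    obtain ⟨g, -, hg⟩ := (isCompact_closedBall (0 : ℂ) C).ultrafilter_le_nhds
      (𝒰.map fun j => F j z) (le_principal_iff.mpr (hj.mono fun j hj =>
        mem_closedBall_zero_iff.mpr (hj.2 z (mem_ball_self hr))))
    exact ⟨g, hg⟩
  choose! G hG using h1
  have h2 : TendstoLocallyUniformlyOn F G 𝒰 U := by
    rw [Metric.tendstoLocallyUniformlyOn_iff]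
    intro ε hε z hz
    obtain ⟨r, hr, hj⟩ := h z hz
    have hC : 0 ≤ C := (norm_nonneg _).trans (hj.exists.choose_spec.2 z (mem_ball_self hr))
    have hδ : 0 < min r (ε / 4 * r / (2 * C + 1)) := lt_min hr (by positivity)
    have hL : ∀ᶠ j in 𝒰, ∀ y ∈ ball z (min r (ε / 4 * r / (2 * C + 1))),
        dist (F j y) (F j z) ≤ ε / 4 := by
      filter_upwards [hj] with j hj y hy
      have h3 := dist_le_div_mul_dist_of_mapsTo_ball hj.1 (R₂ := 2 * C + 1) (fun w hw => by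
        rw [mem_closedBall_iff_norm]
        linarith [norm_sub_le (F j w) (F j z), hj.2 w hw, hj.2 z (mem_ball_self hr)])
        (ball_subset_ball (min_le_left _ _) hy)
      refine h3.trans ?_
      have h4 := (lt_min_iff.mp (mem_ball.mp hy)).2.le
      calc _ ≤ (2 * C + 1) / r * (ε / 4 * r / (2 * C + 1)) := by gcongr
        _ = ε / 4 := by field_simp
    refine ⟨U ∩ ball z _, inter_mem_nhdsWithin U (ball_mem_nhds z hδ), ?_⟩
    filter_upwards [hL, Metric.tendsto_nhds.mp (hG z hz) (ε / 4) (by linarith)] with j h3 h4 y hy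
    have h5 : dist (G y) (G z) ≤ ε / 4 :=
      le_of_tendsto ((hG y hy.1).dist (hG z hz)) (hL.mono fun j hj => hj y hy.2)
    have h6 := dist_triangle4 (G y) (G z) (F j z) (F j y)
    rw [dist_comm (G z), dist_comm (F j z) (F j y)] at h6
    linarith [h3 y hy.2]
  refine ⟨G, h2, fun z hz => ?_⟩
  obtain ⟨r, hr, hj⟩ := h z hz
  have h3 := (h2.mono (inter_subset_left (t := ball z r))).differentiableOn
    (hj.mono fun j hj => hj.1.mono inter_subset_right) (hU.inter isOpen_ball)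
  exact (h3.differentiableAt ((hU.inter isOpen_ball).mem_nhds
    ⟨hz, mem_ball_self hr⟩)).differentiableWithinAt

/-- Mutually inverse holomorphic maps. -/
structure Bihol (φ ψ : ℂ → ℂ) (W V : Set ℂ) : Prop where
  dφ : DifferentiableOn ℂ φ W
  dψ : DifferentiableOn ℂ ψ V
  mφ : MapsTo φ W V
  mψ : MapsTo ψ V W
  left : ∀ z ∈ W, ψ (φ z) = z
  right : ∀ z ∈ V, φ (ψ z) = z

theorem Bihol.symm {φ ψ : ℂ → ℂ} {W V : Set ℂ} (h : Bihol φ ψ W V) : Bihol ψ φ V W :=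
  ⟨h.dψ, h.dφ, h.mψ, h.mφ, h.right, h.left⟩

theorem Bihol.trans {φ ψ φ' ψ' : ℂ → ℂ} {W V V' : Set ℂ} (h : Bihol φ ψ W V)
    (h' : Bihol φ' ψ' V V') : Bihol (φ' ∘ φ) (ψ ∘ ψ') W V' :=
  ⟨h'.dφ.comp h.dφ h.mφ, h.dψ.comp h'.dψ h'.mψ, h'.mφ.comp h.mφ, h.mψ.comp h'.mψ,
    fun z hz => by simp [h'.left _ (h.mφ hz), h.left z hz],
    fun z hz => by simp [h.right _ (h'.mψ hz), h'.right z hz]⟩

theorem Bihol.injOn {φ ψ : ℂ → ℂ} {W V : Set ℂ} (h : Bihol φ ψ W V) : InjOn φ W :=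
  fun z hz w hw e => by rw [← h.left z hz, e, h.left w hw]

theorem Bihol.image_eq {φ ψ : ℂ → ℂ} {W V : Set ℂ} (h : Bihol φ ψ W V) : φ '' W = V :=
  Subset.antisymm h.mφ.image_subset fun z hz => ⟨ψ z, h.mψ hz, h.right z hz⟩

theorem Bihol.restrict {φ ψ : ℂ → ℂ} {W V S : Set ℂ} (h : Bihol φ ψ W V) (hS : S ⊆ W) :
    Bihol φ ψ S (φ '' S) :=
  ⟨h.dφ.mono hS, h.dψ.mono (h.mφ.mono_left hS).image_subset, mapsTo_image _ _,
    by rintro _ ⟨z, hz, rfl⟩; rwa [h.left z (hS hz)], fun z hz => h.left z (hS hz),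
    by rintro _ ⟨z, hz, rfl⟩; rw [h.left z (hS hz)]⟩

theorem Bihol.deriv_mul {φ ψ : ℂ → ℂ} {W V : Set ℂ} (h : Bihol φ ψ W V) (hW : IsOpen W)
    (hV : IsOpen V) {z : ℂ} (hz : z ∈ W) : deriv ψ (φ z) * deriv φ z = 1 := by
  have h1 := (h.dψ.differentiableAt (hV.mem_nhds (h.mφ hz))).hasDerivAt.comp z
    (h.dφ.differentiableAt (hW.mem_nhds hz)).hasDerivAt
  have h2 : ψ ∘ φ =ᶠ[𝓝 z] id := eventually_of_mem (hW.mem_nhds hz) h.left
  rw [← h1.deriv, h2.deriv_eq, deriv_id]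

theorem bihol_mob {a : ℂ} (ha : ‖a‖ < 1) : Bihol (mob a) (mob (-a)) (ball 0 1) (ball 0 1) :=
  ⟨mob_diff ha, mob_diff (by simpa using ha), mob_mapsTo ha, mob_mapsTo (by simpa using ha),
    fun _ hz => mob_neg_mob ha (mem_ball_zero_iff.mp hz).le,
    fun _ hz => mob_mob_neg ha (mem_ball_zero_iff.mp hz).le⟩

theorem full_image_disc {M M' : ℂ → ℂ} (h : Bihol M M' (ball 0 1) (ball 0 1)) {V : Set ℂ}
    (hf : Full V) (hV : V ⊆ ball 0 1) : Full (M '' V) := by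
  intro K hK
  have hs : M '' V ⊆ ball 0 1 := (h.mφ.mono_left hV).image_subset
  have hKb : K ⊆ ball 0 1 := hK.subset_fill.trans (fill_subset isOpen_ball (full_ball 0 1) hs)
  have h1 : Hole V (M' '' K) := by
    refine ⟨hK.1.image_of_continuousOn (h.dψ.continuousOn.mono hKb), disjoint_left.mpr ?_, ?_⟩
    · rintro _ ⟨z, hz, rfl⟩ hz'
      exact disjoint_left.mp hK.2.1 hz ⟨_, hz', h.right z (hKb hz)⟩
    · have := isOpen_image_of_injOn isOpen_ball h.dψ h.symm.injOn _ (union_subset hs hKb) hK.2.2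
      rwa [image_union, (h.restrict hV).symm.image_eq] at this
  exact image_eq_empty.mp (hf _ h1)

theorem exists_sqrt_full {V : Set ℂ} (hV : IsOpen V) (hc : IsPreconnected V) (hf : Full V)
    (h0 : (0 : ℂ) ∉ V) : ∃ s : ℂ → ℂ, Bihol s (fun z => z ^ 2) V (s '' V) ∧ Full (s '' V) := by
  obtain ⟨L, hL, hLe⟩ := exists_log_of_full hV hc hf h0
  have hs : ∀ z ∈ V, exp (L z / 2) ^ 2 = z := fun z hz => by
    rw [← exp_nat_mul, show ((2 : ℕ) : ℂ) * (L z / 2) = L z by push_cast; ring, hLe z hz, sub_zero]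
  have hb : Bihol (fun z => exp (L z / 2)) (fun z => z ^ 2) V ((fun z => exp (L z / 2)) '' V) :=
    ⟨(hL.div_const 2).cexp, by fun_prop, mapsTo_image _ _,
      by rintro _ ⟨z, hz, rfl⟩; simp only [hs z hz, hz], hs,
      by rintro _ ⟨z, hz, rfl⟩; simp only [hs z hz]⟩
  refine ⟨_, hb, fun K hK => ?_⟩
  set S := (fun z => exp (L z / 2)) '' V
  have hS : IsOpen S := isOpen_image_of_injOn hV hb.dφ hb.injOn V subset_rfl hV
  have h1 : Hole V ((fun z => z ^ 2) '' K \ V) := by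
    refine ⟨(hK.1.image (by fun_prop)).diff hV, disjoint_sdiff_left, ?_⟩
    have := (isOpenQuotientMap_pow 2).isOpenMap _ hK.2.2
    rwa [image_union, hb.symm.image_eq, ← union_sdiff_self] at this
  have h2 := sdiff_eq_empty.mp (hf _ h1)
  refine eq_empty_of_isCompact_isOpen hK.1 ?_
  have e : K = (S ∪ K) ∩ (fun z => -z) ⁻¹' S := by
    ext u
    constructor
    · intro hu
      refine ⟨Or.inr hu, ?_⟩
      have h3 : u ^ 2 ∈ V := h2 (mem_image_of_mem _ hu)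
      rcases sq_eq_sq_iff_eq_or_eq_neg.mp (hs _ h3) with h4 | h4
      · exact absurd ⟨_, h3, h4⟩ (disjoint_left.mp hK.2.1 hu)
      · exact ⟨_, h3, h4⟩
    · rintro ⟨hu | hu, hu'⟩
      · have h3 : u = -u := hb.symm.injOn hu hu' (by simp)
        have h4 : u = 0 := by linear_combination h3 / 2
        exact absurd (by simpa [h4] using hb.mψ hu) h0
      · exact hu
  rw [e]
  exact hK.2.2.inter (hS.preimage (by fun_prop))

/-- The competitors in the extremal problem. -/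
def Comp (W : Set ℂ) (a : ℂ) (φ ψ : ℂ → ℂ) (V : Set ℂ) : Prop :=
  Bihol φ ψ W V ∧ IsOpen V ∧ Full V ∧ V ⊆ ball 0 1 ∧ φ a = 0

theorem Comp.improve {W V : Set ℂ} {a : ℂ} {φ ψ : ℂ → ℂ} (h : Comp W a φ ψ V) (hW : IsOpen W)
    (hc : IsPreconnected W) (ha : a ∈ W) {α : ℂ} (hα : ‖α‖ < 1) (hαV : α ∉ V) :
    ∃ φ₁ ψ₁ V₁, Comp W a φ₁ ψ₁ V₁ ∧ (1 + (1 - ‖α‖) ^ 2 / 8) * ‖deriv φ a‖ ≤ ‖deriv φ₁ a‖ := by
  obtain ⟨hb, hV, hf, hVb, h0⟩ := h
  have h1 := (bihol_mob hα).restrict hVb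
  have hV1 : IsOpen (mob α '' V) :=
    isOpen_image_of_injOn isOpen_ball (mob_diff hα) (bihol_mob hα).injOn V hVb hV
  have hb1 : mob α '' V ⊆ ball 0 1 := ((mob_mapsTo hα).mono_left hVb).image_subset
  obtain ⟨s, hs, hfs⟩ := exists_sqrt_full hV1
    ((hb.image_eq ▸ hc.image φ hb.dφ.continuousOn).image _ h1.dφ.continuousOn)
    (full_image_disc (bihol_mob hα) hf hVb) (by
      rintro ⟨v, hv, e⟩
      rw [← mob_self α] at e
      exact hαV ((bihol_mob hα).injOn (hVb hv) (mem_ball_zero_iff.mpr hα) e ▸ hv))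
  have hV2 : IsOpen (s '' (mob α '' V)) := isOpen_image_of_injOn hV1 hs.dφ hs.injOn _ subset_rfl hV1
  have hb2 : s '' (mob α '' V) ⊆ ball 0 1 := fun u hu => by
    have := mem_ball_zero_iff.mp (hb1 (hs.mψ hu))
    rw [norm_pow] at this
    exact mem_ball_zero_iff.mpr (lt_of_pow_lt_pow_left₀ 2 zero_le_one (by simpa using this))
  have hm : -α ∈ mob α '' V := ⟨0, h0 ▸ hb.mφ ha, mob_zero α⟩
  have hγ : ‖s (-α)‖ < 1 := mem_ball_zero_iff.mp (hb2 (mem_image_of_mem s hm))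
  have h3 := (bihol_mob hγ).restrict hb2
  refine ⟨_, _, _, ⟨((hb.trans h1).trans hs).trans h3, isOpen_image_of_injOn isOpen_ball
    (mob_diff hγ) (bihol_mob hγ).injOn _ hb2 hV2, full_image_disc (bihol_mob hγ) hfs hb2,
    ((mob_mapsTo hγ).mono_left hb2).image_subset, by simp [h0]⟩, ?_⟩
  have d1 := (hb.dφ.differentiableAt (hW.mem_nhds ha)).hasDerivAt
  have d2 := (hasDerivAt_mob hα (z := φ a) (by simp [h0])).comp a d1
  have e2 : (mob α ∘ φ) a = -α := by simp [h0]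
  have d3 := (e2 ▸ (hs.dφ.differentiableAt (hV1.mem_nhds hm)).hasDerivAt).comp a d2
  have d4 := (hasDerivAt_mob hγ (z := (s ∘ mob α ∘ φ) a) (by simpa [h0] using hγ.le)).comp a d3
  have e3 := hs.deriv_mul hV1 hV2 hm
  have e4 : ‖s (-α)‖ ^ 2 = ‖α‖ := by rw [← norm_pow, hs.left _ hm, norm_neg]
  rw [d4.deriv]
  simp only [Function.comp_apply, h0, mob_zero, mul_zero, sub_zero, one_pow, div_one,
    one_sub_conj_mul, norm_mul, norm_div, norm_pow, norm_real, Real.norm_eq_abs]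
  have e5 := congrArg norm e3
  simp only [deriv_fun_pow, differentiableAt_fun_id, deriv_id'', norm_mul, norm_one] at e5
  norm_num at e5
  set t := ‖s (-α)‖
  set D := ‖deriv s (-α)‖
  have ht0 : 0 ≤ t := norm_nonneg _
  have ht : 0 < t := ht0.lt_of_ne (by rintro h; rw [← h] at e5; norm_num at e5)
  have hp : 0 < 1 - t ^ 2 := by nlinarith
  rw [← e4, abs_of_pos hp, abs_of_pos (by nlinarith : 0 < 1 - (t ^ 2) ^ 2)]
  have eD : D = 1 / (2 * t) := by field_simp; linarith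
  have e6 : (1 - t ^ 2) / (1 - t ^ 2) ^ 2 * (D * ((1 - (t ^ 2) ^ 2) * ‖deriv φ a‖)) =
      (1 + t ^ 2) / (2 * t) * ‖deriv φ a‖ := by
    rw [eD]; field_simp; ring
  rw [e6]
  refine mul_le_mul_of_nonneg_right ?_ (norm_nonneg _)
  rw [le_div_iff₀ (by linarith)]
  have h5 : t * (1 + t) ^ 2 ≤ 4 := by nlinarith
  nlinarith [mul_le_mul_of_nonneg_left h5 (sq_nonneg (1 - t))]

/-- The Riemann mapping theorem for bounded full domains. -/
theorem riemann {W : Set ℂ} (hW : IsOpen W) (hb : Bornology.IsBounded W) (hc : IsPreconnected W)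
    (hf : Full W) {a : ℂ} (ha : a ∈ W) : ∃ φ ψ, Bihol φ ψ W (ball 0 1) ∧ ψ 0 = a := by
  obtain ⟨R, hR⟩ := hb.subset_ball a
  have hR0 : 0 < R := by simpa using hR ha
  have hRc : (R : ℂ) ≠ 0 := by exact_mod_cast hR0.ne'
  obtain ⟨d, hd, hdW⟩ := Metric.isOpen_iff.mp hW a ha
  let S : Set ℝ := {x | ∃ φ ψ V, Comp W a φ ψ V ∧ x = ‖deriv φ a‖}
  have hbdd : BddAbove S := ⟨1 / d, by
    rintro _ ⟨φ, ψ, V, h, rfl⟩
    exact norm_deriv_le_div_of_mapsTo_ball (h.1.dφ.mono hdW) (by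
      rw [h.2.2.2.2]
      exact fun z hz => ball_subset_closedBall (h.2.2.2.1 (h.1.mφ (hdW hz)))) hd⟩
  have hne : 1 / R ∈ S := by
    have h1 : Bihol (fun z => (z - a) / R) (fun z => R * z + a) univ univ :=
      ⟨by fun_prop, by fun_prop, mapsTo_univ _ _, mapsTo_univ _ _,
        fun z _ => by field_simp; ring, fun z _ => by field_simp; ring⟩
    have h2 := h1.restrict (subset_univ W)
    have h3 := isOpen_image_of_injOn hW h2.dφ h2.injOn W subset_rfl hW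
    refine ⟨_, _, _, ⟨h2, h3, full_of_log h3 fun q hq => ?_, ?_, by simp⟩, ?_⟩
    · obtain ⟨L, hL, hLe⟩ := exists_log_of_full hW hc hf (x := R * q + a)
        fun h => hq ⟨_, h, h1.right q trivial⟩
      refine ⟨fun z => L (R * z + a) - log R,
        (hL.continuousOn.comp (by fun_prop) h2.mψ).sub continuousOn_const, fun z hz => ?_⟩
      rw [exp_sub, hLe _ (h2.mψ hz), exp_log hRc]
      field_simp
      ring
    · rintro _ ⟨z, hz, rfl⟩
      have := mem_ball_iff_norm.mp (hR hz)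
      rwa [mem_ball_zero_iff, norm_div, norm_real, Real.norm_of_nonneg hR0.le, div_lt_one hR0]
    · simp [abs_of_pos hR0]
  obtain ⟨u, -, hu, huS⟩ := exists_seq_tendsto_sSup ⟨_, hne⟩ hbdd
  have hs : 0 < sSup S := lt_of_lt_of_le (by positivity) (le_csSup hbdd hne)
  choose φ ψ V hC hu' using huS
  let 𝒰 : Ultrafilter ℕ := Ultrafilter.of atTop
  have hU : (𝒰 : Filter ℕ) ≤ atTop := Ultrafilter.of_le _
  have hV : ∀ r < 1, ∀ᶠ j in 𝒰, closedBall (0 : ℂ) r ⊆ V j := by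
    intro r hr
    have h1 : sSup S / (1 + (1 - r) ^ 2 / 8) < sSup S :=
      div_lt_self hs (by have := sq_pos_of_pos (sub_pos.mpr hr); linarith)
    filter_upwards [hU (hu.eventually (lt_mem_nhds h1))] with j hj α hα
    by_contra hαV
    have h2 := mem_closedBall_zero_iff.mp hα
    obtain ⟨φ₁, ψ₁, V₁, h3, h4⟩ := (hC j).improve hW hc ha (h2.trans_lt hr) hαV
    have h5 : ‖deriv φ₁ a‖ ≤ sSup S := le_csSup hbdd ⟨_, _, _, h3, rfl⟩
    have h6 : sSup S / (1 + (1 - r) ^ 2 / 8) < ‖deriv (φ j) a‖ := hu' j ▸ hj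
    rw [div_lt_iff₀ (by positivity)] at h6
    have h7 : (1 - r) ^ 2 ≤ (1 - ‖α‖) ^ 2 := by gcongr
    nlinarith [norm_nonneg (deriv (φ j) a)]
  have hV' : ∀ ξ ∈ ball (0 : ℂ) 1, ∃ r > 0, closedBall ξ r ⊆ ball 0 1 ∧
      ∀ᶠ j in 𝒰, closedBall ξ r ⊆ V j := by
    intro ξ hξ
    rw [mem_ball_zero_iff] at hξ
    have h1 : closedBall ξ ((1 - ‖ξ‖) / 2) ⊆ closedBall 0 ((1 + ‖ξ‖) / 2) :=
      closedBall_subset_closedBall' (by rw [dist_zero_right]; linarith)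
    exact ⟨(1 - ‖ξ‖) / 2, by linarith, h1.trans (closedBall_subset_ball (by linarith)),
      (hV ((1 + ‖ξ‖) / 2) (by linarith)).mono fun j hj => h1.trans hj⟩
  obtain ⟨Φ, hΦ, hΦd⟩ := montel 𝒰 hW (F := φ) (C := 1) fun z hz => by
    obtain ⟨r, hr, hrW⟩ := Metric.isOpen_iff.mp hW z hz
    exact ⟨r, hr, Eventually.of_forall fun j => ⟨(hC j).1.dφ.mono hrW, fun w hw =>
      (mem_ball_zero_iff.mp ((hC j).2.2.2.1 ((hC j).1.mφ (hrW hw)))).le⟩⟩
  obtain ⟨Ψ, hΨ, hΨd⟩ := montel 𝒰 (isOpen_ball (x := (0 : ℂ)) (ε := 1)) (F := ψ) (C := R + ‖a‖)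
    fun ξ hξ => by
      obtain ⟨r, hr, -, h1⟩ := hV' ξ hξ
      refine ⟨r, hr, h1.mono fun j hj => ⟨(hC j).1.dψ.mono (ball_subset_closedBall.trans hj),
        fun w hw => ?_⟩⟩
      have := mem_ball_iff_norm.mp (hR ((hC j).1.mψ (hj (ball_subset_closedBall hw))))
      linarith [norm_le_norm_add_norm_sub' (ψ j w) a]
  have hΦa : Φ a = 0 := tendsto_nhds_unique (hΦ.tendsto_at ha)
    (by simp only [fun j => (hC j).2.2.2.2]; exact tendsto_const_nhds)
  have hle : ∀ z ∈ W, ‖Φ z‖ ≤ 1 := fun z hz => le_of_tendsto' (hΦ.tendsto_at hz).norm fun j =>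
    (mem_ball_zero_iff.mp ((hC j).2.2.2.1 ((hC j).1.mφ hz))).le
  have hmφ : MapsTo Φ W (ball 0 1) := fun z hz => by
    refine mem_ball_zero_iff.mpr ((hle z hz).lt_of_ne fun h1 => ?_)
    have h2 := eqOn_of_isPreconnected_of_isMaxOn_norm hc hW hΦd hz
      (fun w hw => by simpa [h1] using hle w hw) ha
    simp only [Function.const_apply] at h2
    rw [← h2, hΦa] at h1
    simp at h1
  have hleft : ∀ z ∈ W, Ψ (Φ z) = z := fun z hz => by
    have h1 := hΨ.tendsto_comp (hΨd.continuousOn _ (hmφ hz)) (hmφ hz)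
      (by rw [isOpen_ball.nhdsWithin_eq (hmφ hz)]; exact hΦ.tendsto_at hz)
    simp only [fun j => (hC j).1.left z hz] at h1
    exact tendsto_nhds_unique h1 tendsto_const_nhds
  have hΨ0 : Ψ 0 = a := by rw [← hΦa, hleft a ha]
  have hmψ : MapsTo Ψ (ball 0 1) W := fun ξ hξ => by
    by_contra hx
    have han : AnalyticOnNhd ℂ (fun w => Ψ w - Ψ ξ) (ball 0 1) :=
      (hΨd.sub_const _).analyticOnNhd isOpen_ball
    rcases (han ξ hξ).eventually_eq_zero_or_eventually_ne_zero with h1 | h1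
    · have h2 := han.eqOn_zero_of_preconnected_of_eventuallyEq_zero
        (convex_ball 0 1).isPreconnected hξ h1 (mem_ball_self one_pos)
      simp only [Pi.zero_apply, hΨ0, sub_eq_zero] at h2
      exact hx (h2 ▸ ha)
    obtain ⟨r₀, hr₀, h2, h3⟩ := hV' ξ hξ
    obtain ⟨r₁, hr₁, h4⟩ := Metric.nhds_basis_closedBall.eventually_iff.mp
      (eventually_nhdsWithin_iff.mp h1)
    have hr : 0 < min r₀ r₁ := lt_min hr₀ hr₁
    have h5 : closedBall ξ (min r₀ r₁) ⊆ closedBall ξ r₀ :=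
      closedBall_subset_closedBall (min_le_left _ _)
    obtain ⟨w₀, hw₀, hmin⟩ := (isCompact_sphere ξ (min r₀ r₁)).exists_isMinOn
      (NormedSpace.sphere_nonempty.mpr hr.le)
      (han.continuousOn.mono (sphere_subset_closedBall.trans (h5.trans h2))).norm
    have hm : 0 < ‖Ψ w₀ - Ψ ξ‖ := norm_pos_iff.mpr (h4
      (closedBall_subset_closedBall (min_le_right _ _) (sphere_subset_closedBall hw₀))
      (ne_of_mem_sphere hw₀ hr.ne'))
    have h6 := Metric.tendstoUniformlyOn_iff.mp ((tendstoLocallyUniformlyOn_iff_forall_isCompact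
      isOpen_ball).mp hΨ _ (h5.trans h2) (isCompact_closedBall _ _)) (‖Ψ w₀ - Ψ ξ‖ / 2)
      (by linarith)
    obtain ⟨j, h7, h8⟩ := (h3.and h6).exists
    obtain ⟨w, hw, hw'⟩ := exists_zero_of_norm_lt (h := fun w => ψ j w - Ψ ξ) hr
      (m := ‖Ψ w₀ - Ψ ξ‖ / 2) (DifferentiableOn.diffContOnCl (by
        rw [closure_ball _ hr.ne']
        exact ((hC j).1.dψ.mono (h5.trans h7)).sub_const _))
      (fun w hw => by
        have h9 : ‖Ψ w₀ - Ψ ξ‖ ≤ ‖Ψ w - Ψ ξ‖ := hmin hw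
        have h10 := h8 w (sphere_subset_closedBall hw)
        rw [dist_eq_norm] at h10
        linarith [norm_sub_le_norm_sub_add_norm_sub (Ψ w) (ψ j w) (Ψ ξ)])
      (by
        have h10 := h8 ξ (mem_closedBall_self hr.le)
        rwa [dist_comm, dist_eq_norm] at h10)
    exact hx (sub_eq_zero.mp hw' ▸ (hC j).1.mψ (h7 (h5 (ball_subset_closedBall hw))))
  refine ⟨Φ, Ψ, ⟨hΦd, hΨd, hmφ, hmψ, hleft, fun ξ hξ => ?_⟩, hΨ0⟩
  have h1 := hΦ.tendsto_comp (hΦd.continuousOn _ (hmψ hξ)) (hmψ hξ)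
    (by rw [hW.nhdsWithin_eq (hmψ hξ)]; exact hΨ.tendsto_at hξ)
  obtain ⟨r, hr, -, h2⟩ := hV' ξ hξ
  exact tendsto_nhds_unique h1 (tendsto_const_nhds.congr'
    (h2.mono fun j hj => ((hC j).1.right ξ (hj (mem_closedBall_self hr.le))).symm))

end Pool.Agent.Lib.MP_c35c17_an.Q
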