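import Pool.Agent.Lib.MP_c35c17_an.Pair
import Pool.Agent.Lib.MP_c35c17_an.QRmt

set_option autoImplicit false

open Filter Topology Set Metric Complex MeasureTheory
open scoped ComplexConjugate ENNReal

namespace Pool.Agent.Lib.MP_c35c17_an.Q

/-- A cutoff function equal to one near `Γ` and supported in `O`. -/
structure Cut (χ : ℂ → ℝ) (Γ O : Set ℂ) : Prop where
  smooth : ContDiff ℝ 1 χ
  cpt : HasCompactSupport χ
  supp : tsupport χ ⊆ O
  mem : ∀ w, χ w ∈ Icc (0 : ℝ) 1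
  one : ∀ z ∈ Γ, ∀ᶠ w in 𝓝 z, χ w = 1

/-- The variation of `χ` in the metric of the quadratic differential `B`. -/
noncomputable def var (χ : ℂ → ℝ) (B : ℂ → ℂ) : ℝ≥0∞ :=
  ∫⁻ w, ENNReal.ofReal (‖fderiv ℝ χ w‖ * √‖B w‖)

/-- The set `Γ` has length at most about `δ` in the metric of `B`. -/
def CapLe (Γ : Set ℂ) (B : ℂ → ℂ) (δ : ℝ) : Prop :=
  ∀ O, IsOpen O → Γ ⊆ O → ∀ η > 0, ∃ χ, Cut χ Γ O ∧ var χ B ≤ ENNReal.ofReal (δ + η)

theorem Cut.diff {χ : ℂ → ℝ} {Γ O : Set ℂ} (h : Cut χ Γ O) (w : ℂ) : DifferentiableAt ℝ χ w :=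
  h.smooth.differentiable one_ne_zero w

theorem Cut.cont {χ : ℂ → ℝ} {Γ O : Set ℂ} (h : Cut χ Γ O) : Continuous (fderiv ℝ χ) :=
  h.smooth.continuous_fderiv one_ne_zero

theorem fderiv_zero_of_notMem {χ : ℂ → ℝ} {w : ℂ} (h : w ∉ tsupport χ) : fderiv ℝ χ w = 0 :=
  image_eq_zero_of_notMem_tsupport fun h' => h (tsupport_fderiv_subset ℝ h')

theorem Cut.meas {χ : ℂ → ℝ} {Γ O : Set ℂ} (h : Cut χ Γ O) {B : ℂ → ℂ} (hB : Measurable B) :
    Measurable fun w => ENNReal.ofReal (‖fderiv ℝ χ w‖ * √‖B w‖) :=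
  (h.cont.measurable.norm.mul hB.norm.sqrt).ennreal_ofReal

theorem exists_cut {K O : Set ℂ} (hK : IsCompact K) (hO : IsOpen O) (h : K ⊆ O) :
    ∃ χ, Cut χ K O := by
  obtain ⟨N, hN, hKN, hNO⟩ := exists_compact_between hK hO h
  obtain ⟨f, h1, h0, hf⟩ := exists_contMDiffMap_one_nhds_of_subset_interior (n := 1)
    (modelWithCornersSelf ℝ ℂ) hK.isClosed hKN
  have hs : tsupport f ⊆ N := closure_minimal (fun x hx => by_contra fun h => hx (h0 x h))
    hN.isClosed
  exact ⟨f, f.contMDiff.contDiff, hN.of_isClosed_subset isClosed_closure hs, hs.trans hNO, hf,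
    fun z hz => (nhds_le_nhdsSet hz) h1⟩

theorem cap_empty (B : ℂ → ℂ) : CapLe ∅ B 0 := fun _ _ _ _ _ =>
  ⟨0, ⟨contDiff_const, HasCompactSupport.zero, by simp, by simp, by simp⟩, by simp [var]⟩

theorem CapLe.mono {Γ : Set ℂ} {B : ℂ → ℂ} {δ δ' : ℝ} (h : CapLe Γ B δ) (hδ : δ ≤ δ') :
    CapLe Γ B δ' := fun O hO hΓ η hη =>
  let ⟨χ, h1, h2⟩ := h O hO hΓ η hη
  ⟨χ, h1, h2.trans (ENNReal.ofReal_le_ofReal (by linarith))⟩

theorem CapLe.union {Γ₁ Γ₂ : Set ℂ} {B : ℂ → ℂ} (hB : Measurable B) {δ₁ δ₂ : ℝ} (h0 : 0 ≤ δ₁)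
    (h0' : 0 ≤ δ₂) (h₁ : CapLe Γ₁ B δ₁) (h₂ : CapLe Γ₂ B δ₂) : CapLe (Γ₁ ∪ Γ₂) B (δ₁ + δ₂) := by
  intro O hO hΓ η hη
  obtain ⟨χ₁, c₁, v₁⟩ := h₁ O hO (subset_union_left.trans hΓ) (η / 2) (by linarith)
  obtain ⟨χ₂, c₂, v₂⟩ := h₂ O hO (subset_union_right.trans hΓ) (η / 2) (by linarith)
  have hs : tsupport (fun w => χ₁ w + χ₂ w - χ₁ w * χ₂ w) ⊆ tsupport χ₁ ∪ tsupport χ₂ :=
    closure_minimal (fun w hw => by_contra fun h => hw (by
      rw [mem_union, not_or] at h
      simp [image_eq_zero_of_notMem_tsupport h.1, image_eq_zero_of_notMem_tsupport h.2]))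
      (isClosed_closure.union isClosed_closure)
  refine ⟨fun w => χ₁ w + χ₂ w - χ₁ w * χ₂ w,
    ⟨(c₁.smooth.add c₂.smooth).sub (c₁.smooth.mul c₂.smooth),
      (IsCompact.union c₁.cpt c₂.cpt).of_isClosed_subset isClosed_closure hs,
      hs.trans (union_subset c₁.supp c₂.supp), fun w => ?_, fun z hz => ?_⟩, ?_⟩
  · obtain ⟨a, b⟩ := c₁.mem w
    obtain ⟨c, d⟩ := c₂.mem w
    constructor <;> nlinarith
  · rcases hz with hz | hz
    · exact (c₁.one z hz).mono fun w hw => by simp [hw]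
    · exact (c₂.one z hz).mono fun w hw => by simp [hw]
  · calc var _ B ≤ ∫⁻ w, ENNReal.ofReal (‖fderiv ℝ χ₁ w‖ * √‖B w‖) +
          ENNReal.ofReal (‖fderiv ℝ χ₂ w‖ * √‖B w‖) := by
          refine lintegral_mono fun w => ?_
          rw [← ENNReal.ofReal_add (by positivity) (by positivity), ← add_mul]
          refine ENNReal.ofReal_le_ofReal (mul_le_mul_of_nonneg_right ?_ (Real.sqrt_nonneg _))
          have h1 := (((c₁.diff w).hasFDerivAt.add (c₂.diff w).hasFDerivAt).sub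
            ((c₁.diff w).hasFDerivAt.mul (c₂.diff w).hasFDerivAt)).fderiv
          have e : fderiv ℝ (fun w => χ₁ w + χ₂ w - χ₁ w * χ₂ w) w =
              (1 - χ₂ w) • fderiv ℝ χ₁ w + (1 - χ₁ w) • fderiv ℝ χ₂ w := by
            refine Eq.trans h1 ?_
            module
          rw [e]
          obtain ⟨a, b⟩ := c₁.mem w
          obtain ⟨c, d⟩ := c₂.mem w
          refine (norm_add_le _ _).trans (add_le_add ?_ ?_) <;>
            rw [norm_smul, Real.norm_of_nonneg (by linarith)] <;>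
            exact mul_le_of_le_one_left (norm_nonneg _) (by linarith)
      _ ≤ ENNReal.ofReal (δ₁ + η / 2) + ENNReal.ofReal (δ₂ + η / 2) := by
          rw [lintegral_add_left (c₁.meas hB)]
          exact add_le_add v₁ v₂
      _ = _ := by
          rw [← ENNReal.ofReal_add (by linarith) (by linarith)]
          congr 1
          ring

theorem CapLe.biUnion {ι : Type*} (s : Finset ι) {Γ : ι → Set ℂ} {B : ℂ → ℂ} (hB : Measurable B)
    {δ : ℝ} (h0 : 0 ≤ δ) (h : ∀ i ∈ s, CapLe (Γ i) B δ) : CapLe (⋃ i ∈ s, Γ i) B (s.card * δ) := by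
  classical
  induction s using Finset.induction_on with
  | empty => simpa using cap_empty B
  | insert i s hi ih =>
    rw [Finset.set_biUnion_insert, Finset.card_insert_of_notMem hi]
    refine (CapLe.union hB h0 (by positivity) (h i (Finset.mem_insert_self i s))
      (ih fun j hj => h j (Finset.mem_insert_of_mem hj))).mono (le_of_eq ?_)
    push_cast
    ring

theorem CapLe.localize {Γ Γ' O' : Set ℂ} {B B' : ℂ → ℂ} (hB : Measurable B) {δ Λ : ℝ}
    (h0 : 0 ≤ δ) (hΛ : 0 < Λ) (hn : volume Γ = 0) (h : CapLe Γ B δ) (hΓ : Γ' ⊆ Γ)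
    (hc : IsCompact Γ') (hO' : IsOpen O') (hΓO : Γ' ⊆ O') (hB' : ContinuousOn B' O')
    (hle : ∀ w ∈ O', ‖B' w‖ ≤ Λ ^ 2 * ‖B w‖) : CapLe Γ' B' (Λ * δ) := by
  intro O hO hΓ' η hη
  obtain ⟨κ, hκ⟩ := exists_cut hc (hO.inter hO') (subset_inter hΓ' hΓO)
  obtain ⟨C, hC⟩ := IsCompact.exists_bound_of_continuousOn hκ.cpt
    (f := fun w => ‖fderiv ℝ κ w‖ * √‖B' w‖) (hκ.cont.norm.continuousOn.mul
      (hB'.mono (hκ.supp.trans inter_subset_right)).norm.sqrt)
  have hC' : ∀ w, ‖fderiv ℝ κ w‖ * √‖B' w‖ ≤ |C| + 1 := fun w => by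
    by_cases hw : w ∈ tsupport κ
    · exact ((le_abs_self _).trans (hC w hw)).trans (by linarith [le_abs_self C])
    · rw [fderiv_zero_of_notMem hw]; simp; positivity
  obtain ⟨O₁, h1, hO₁, h2⟩ := Γ.exists_isOpen_lt_of_lt (μ := volume)
    (ENNReal.ofReal (η / 2 / (|C| + 1))) (by rw [hn]; exact ENNReal.ofReal_pos.mpr (by positivity))
  obtain ⟨χ, hχ, hv⟩ := h O₁ hO₁ h1 (η / 2 / Λ) (by positivity)
  have hs : tsupport (fun w => χ w * κ w) ⊆ tsupport κ := tsupport_mul_subset_right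
  refine ⟨fun w => χ w * κ w, ⟨hχ.smooth.mul hκ.smooth,
    IsCompact.of_isClosed_subset hκ.cpt isClosed_closure hs,
    hs.trans (hκ.supp.trans inter_subset_left), fun w => ?_, fun z hz => ?_⟩, ?_⟩
  · obtain ⟨a, b⟩ := hχ.mem w
    obtain ⟨c, d⟩ := hκ.mem w
    constructor <;> nlinarith
  · filter_upwards [hχ.one z (hΓ hz), hκ.one z hz] with w h1 h2
    simp [h1, h2]
  calc var _ B' ≤ ∫⁻ w, ENNReal.ofReal Λ * ENNReal.ofReal (‖fderiv ℝ χ w‖ * √‖B w‖) +
        O₁.indicator (fun _ => ENNReal.ofReal (|C| + 1)) w := by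
        refine lintegral_mono fun w => ?_
        have e := ((hχ.diff w).hasFDerivAt.mul (hκ.diff w).hasFDerivAt).fderiv
        have e' : fderiv ℝ (fun w => χ w * κ w) w =
          χ w • fderiv ℝ κ w + κ w • fderiv ℝ χ w := e
        obtain ⟨a, b⟩ := hχ.mem w
        obtain ⟨c, d⟩ := hκ.mem w
        have h3 : κ w * ‖fderiv ℝ χ w‖ * √‖B' w‖ ≤ Λ * (‖fderiv ℝ χ w‖ * √‖B w‖) := by
          by_cases hw : w ∈ tsupport κ
          · have h4 : √‖B' w‖ ≤ Λ * √‖B w‖ := by
              rw [← Real.sqrt_sq hΛ.le, ← Real.sqrt_mul (sq_nonneg _)]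
              exact Real.sqrt_le_sqrt (hle w (hκ.supp hw).2)
            calc _ ≤ 1 * ‖fderiv ℝ χ w‖ * (Λ * √‖B w‖) := by gcongr
              _ = _ := by ring
          · rw [image_eq_zero_of_notMem_tsupport hw, zero_mul, zero_mul]
            positivity
        have h4 : ENNReal.ofReal (χ w * (‖fderiv ℝ κ w‖ * √‖B' w‖)) ≤
            O₁.indicator (fun _ => ENNReal.ofReal (|C| + 1)) w := by
          by_cases hw : w ∈ O₁
          · rw [indicator_of_mem hw]
            exact ENNReal.ofReal_le_ofReal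
              ((mul_le_of_le_one_left (by positivity) b).trans (hC' w))
          · rw [image_eq_zero_of_notMem_tsupport fun h => hw (hχ.supp h)]
            simp
        refine le_trans ?_ (add_le_add_right h4 _)
        rw [← ENNReal.ofReal_mul hΛ.le, ← ENNReal.ofReal_add (by positivity) (by positivity)]
        refine ENNReal.ofReal_le_ofReal ?_
        have h5 : ‖fderiv ℝ (fun w => χ w * κ w) w‖ ≤
            χ w * ‖fderiv ℝ κ w‖ + κ w * ‖fderiv ℝ χ w‖ := by
          rw [e']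
          refine (norm_add_le _ _).trans (le_of_eq ?_)
          rw [norm_smul, norm_smul, Real.norm_of_nonneg a, Real.norm_of_nonneg c]
        nlinarith [mul_le_mul_of_nonneg_right h5 (Real.sqrt_nonneg ‖B' w‖)]
    _ ≤ ENNReal.ofReal Λ * ENNReal.ofReal (δ + η / 2 / Λ) +
        ENNReal.ofReal (|C| + 1) * ENNReal.ofReal (η / 2 / (|C| + 1)) := by
        rw [lintegral_add_left ((hχ.meas hB).const_mul _), lintegral_const_mul _ (hχ.meas hB),
          lintegral_indicator_const hO₁.measurableSet]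
        exact add_le_add (mul_le_mul_right hv _) (mul_le_mul_right h2.le _)
    _ = _ := by
        rw [← ENNReal.ofReal_mul hΛ.le, ← ENNReal.ofReal_mul (by positivity),
          ← ENNReal.ofReal_add (by positivity) (by positivity)]
        congr 1
        field_simp
        ring

theorem lintegral_image_holo' {s : Set ℂ} (hs : MeasurableSet s) {f f' : ℂ → ℂ}
    (hf : ∀ z ∈ s, HasDerivAt f (f' z) z) (hi : InjOn f s) (g : ℂ → ℝ≥0∞) :
    ∫⁻ x in f '' s, g x = ∫⁻ x in s, ENNReal.ofReal (‖f' x‖ ^ 2) * g (f x) := by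
  rw [lintegral_image_eq_lintegral_abs_det_fderiv_mul volume hs
    (fun x hx => ((hf x hx).hasFDerivAt.restrictScalars ℝ).hasFDerivWithinAt) hi]
  refine lintegral_congr fun x => ?_
  congr 2
  simp [ContinuousLinearMap.det, LinearMap.det_restrictScalars, Algebra.norm_complex_eq,
    Complex.normSq_eq_norm_sq]

theorem CapLe.push {Γ U : Set ℂ} {B F : ℂ → ℂ} {δ : ℝ} (hU : IsOpen U)
    (hd : DifferentiableOn ℂ F U) (hi : InjOn F U) (h0 : ∀ z ∈ U, deriv F z ≠ 0) (hΓ : Γ ⊆ U)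
    (h : CapLe Γ (fun w => deriv F w ^ 2 * B (F w)) δ) : CapLe (F '' Γ) B δ := by
  intro O hO hΓO η hη
  obtain ⟨χ, hχ, hv⟩ := h (U ∩ F ⁻¹' O) (hd.continuousOn.isOpen_inter_preimage hU hO)
    (subset_inter hΓ (image_subset_iff.mp hΓO)) η hη
  have hV : IsOpen (F '' U) := isOpen_image_of_injOn hU hd hi U subset_rfl hU
  have hg := differentiableOn_invFunOn hU hd hi h0
  set g := Function.invFunOn F U
  have hgF : ∀ z ∈ U, g (F z) = z := fun z hz => hi.leftInvOn_invFunOn hz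
  have hsU : tsupport χ ⊆ U := hχ.supp.trans inter_subset_left
  have hK : IsCompact (F '' tsupport χ) :=
    IsCompact.image_of_continuousOn hχ.cpt (hd.continuousOn.mono hsU)
  set χ' : ℂ → ℝ := (F '' U).indicator (χ ∘ g) with hχ'
  have hs : tsupport χ' ⊆ F '' tsupport χ := closure_minimal (fun z hz => by
    obtain ⟨w, hw, rfl⟩ : z ∈ F '' U := by_contra fun h => hz (indicator_of_notMem h _)
    refine mem_image_of_mem F (subset_tsupport _ fun h => hz ?_)
    rw [hχ', indicator_of_mem (mem_image_of_mem F hw), Function.comp_apply, hgF w hw, h])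
    hK.isClosed
  have hev : ∀ z ∈ F '' U, χ' =ᶠ[𝓝 z] χ ∘ g := fun z hz =>
    eventually_of_mem (hV.mem_nhds hz) fun w hw => indicator_of_mem hw _
  refine ⟨χ', ⟨contDiff_iff_contDiffAt.mpr fun z => ?_, hK.of_isClosed_subset isClosed_closure hs,
    hs.trans (image_subset_iff.mpr (hχ.supp.trans inter_subset_right)), fun z => ?_, ?_⟩, ?_⟩
  · by_cases hz : z ∈ F '' U
    · exact (hχ.smooth.contDiffAt.comp z
        ((hg.analyticAt (hV.mem_nhds hz)).contDiffAt.restrict_scalars ℝ)).congr_of_eventuallyEq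
        (hev z hz)
    · exact contDiffAt_const.congr_of_eventuallyEq (notMem_tsupport_iff_eventuallyEq.mp
        fun h => hz (image_mono hsU (hs h)))
  · by_cases hz : z ∈ F '' U
    · rw [hχ', indicator_of_mem hz]; exact hχ.mem _
    · rw [hχ', indicator_of_notMem hz]; simp
  · rintro _ ⟨w, hw, rfl⟩
    have h1 := mem_image_of_mem F (hΓ hw)
    have h2 : Tendsto g (𝓝 (F w)) (𝓝 w) := by
      have := (hg.differentiableAt (hV.mem_nhds h1)).continuousAt
      rwa [ContinuousAt, hgF w (hΓ hw)] at this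
    filter_upwards [hev _ h1, h2.eventually (hχ.one w hw)] with z h3 h4
    rw [h3, Function.comp_apply, h4]
  refine le_trans ?_ hv
  calc var χ' B = ∫⁻ z in F '' U, ENNReal.ofReal (‖fderiv ℝ χ' z‖ * √‖B z‖) := by
        refine (setLIntegral_eq_of_support_subset fun z hz => by_contra fun h => hz ?_).symm
        simp [fderiv_zero_of_notMem fun h' => h (image_mono hsU (hs h'))]
    _ = ∫⁻ w in U, ENNReal.ofReal (‖deriv F w‖ ^ 2) *
          ENNReal.ofReal (‖fderiv ℝ χ' (F w)‖ * √‖B (F w)‖) :=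
        lintegral_image_holo' hU.measurableSet
          (fun z hz => (hd.differentiableAt (hU.mem_nhds hz)).hasDerivAt) hi _
    _ ≤ ∫⁻ w in U, ENNReal.ofReal (‖fderiv ℝ χ w‖ * √‖deriv F w ^ 2 * B (F w)‖) := by
        refine setLIntegral_mono' hU.measurableSet fun w hw => ?_
        rw [← ENNReal.ofReal_mul (by positivity)]
        refine ENNReal.ofReal_le_ofReal ?_
        have h1 := mem_image_of_mem F hw
        have h2 := (hg.differentiableAt (hV.mem_nhds h1)).hasDerivAt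
        have h3 : deriv g (F w) * deriv F w = 1 := by
          have h4 := h2.comp w (hd.differentiableAt (hU.mem_nhds hw)).hasDerivAt
          have h5 : g ∘ F =ᶠ[𝓝 w] id := eventually_of_mem (hU.mem_nhds hw) hgF
          rw [← h4.deriv, h5.deriv_eq, deriv_id]
        have h4 : ‖fderiv ℝ χ' (F w)‖ ≤ ‖fderiv ℝ χ w‖ * ‖deriv g (F w)‖ := by
          rw [(hev _ h1).fderiv_eq, ((hχ.diff _).hasFDerivAt.comp _
            (h2.hasFDerivAt.restrictScalars ℝ)).fderiv, hgF w hw]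
          refine (ContinuousLinearMap.opNorm_comp_le _ _).trans (le_of_eq ?_)
          simp
        have h5 : ‖deriv g (F w)‖ * ‖deriv F w‖ = 1 := by rw [← norm_mul, h3, norm_one]
        rw [norm_mul, norm_pow, Real.sqrt_mul (sq_nonneg _), Real.sqrt_sq (norm_nonneg _)]
        calc _ ≤ ‖deriv F w‖ ^ 2 * (‖fderiv ℝ χ w‖ * ‖deriv g (F w)‖ * √‖B (F w)‖) := by gcongr
          _ = ‖fderiv ℝ χ w‖ * (‖deriv F w‖ * √‖B (F w)‖) * (‖deriv g (F w)‖ * ‖deriv F w‖) := by
            ring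
          _ = _ := by rw [h5, mul_one]
    _ ≤ _ := setLIntegral_le_lintegral _ _

end Pool.Agent.Lib.MP_c35c17_an.Q
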