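import Pool.Agent.Lib.MP_c35c17_an.QRigid

set_option autoImplicit false

open Filter Topology Set Metric Complex
open scoped ComplexConjugate

namespace Pool.Agent.Lib.MP_c35c17_an.Q

theorem mob_lip {u z z' : ℂ} {k : ℝ} (hk : 0 < k) (hu : ‖u‖ ≤ 1 - 1 / (2 * k)) (hz : ‖z‖ ≤ 1)
    (hz' : ‖z'‖ ≤ 1) : ‖mob u z - mob u z'‖ ≤ 4 * k * ‖z - z'‖ := by
  have h0 : 0 < 1 / (2 * k) := by positivity
  have hu1 : ‖u‖ < 1 := by linarith
  have h1 : ∀ z : ℂ, ‖z‖ ≤ 1 → 1 - ‖u‖ ≤ ‖1 - conj u * z‖ := fun z hz =>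
    le_trans (by nlinarith [norm_nonneg u]) (mob_den_norm u z)
  have h2 : mob u z - mob u z' = (1 - conj u * u) * (z - z') / ((1 - conj u * z) * (1 - conj u * z')) := by
    rw [mob, mob, div_sub_div _ _ (mob_den_ne hu1 hz) (mob_den_ne hu1 hz')]
    congr 1; ring
  rw [h2, one_sub_conj_mul, norm_div, norm_mul, norm_mul, norm_real,
    Real.norm_of_nonneg (by nlinarith [norm_nonneg u]), div_le_iff₀ (mul_pos
      (norm_pos_iff.mpr (mob_den_ne hu1 hz)) (norm_pos_iff.mpr (mob_den_ne hu1 hz')))]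
  have h3 : 1 ≤ 2 * k * (1 - ‖u‖) := by rw [← div_le_iff₀' (by positivity)]; linarith
  calc (1 - ‖u‖ ^ 2) * ‖z - z'‖ = (1 + ‖u‖) * 1 * ((1 - ‖u‖) * ‖z - z'‖) := by ring
    _ ≤ 2 * (2 * k * (1 - ‖u‖)) * ((1 - ‖u‖) * ‖z - z'‖) := by
        have := sub_pos.mpr hu1
        gcongr; linarith
    _ = 4 * k * ‖z - z'‖ * ((1 - ‖u‖) * (1 - ‖u‖)) := by ring
    _ ≤ _ := by
        have := sub_pos.mpr hu1
        gcongr; exacts [h1 z hz, h1 z' hz']

theorem approx_le {A : ℂ → ℂ} {ι : ℂ} {κ : ℝ}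
    (h : ∀ w, ‖w‖ < 1 → (1 - ‖w‖) * ‖A w - ι * w‖ ≤ 2 * κ * ‖w‖) {w : ℂ} {L : ℝ} (hL : 0 < L)
    (hw : ‖w‖ ≤ 1 - 1 / L) : ‖A w - ι * w‖ ≤ 2 * L * κ * ‖w‖ := by
  have h0 : 0 < 1 / L := by positivity
  have h1 : 1 / L * ‖A w - ι * w‖ ≤ 2 * κ * ‖w‖ :=
    le_trans (by gcongr; linarith) (h w (by linarith))
  rw [one_div, inv_mul_le_iff₀ hL] at h1
  linarith

theorem rigid_core {A C : ℂ → ℂ} {κ : ℝ} (hA : NearRot A κ) (hC : NearRot C κ) {k : ℕ} (hk : 0 < k)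
    (hκ0 : 0 < κ) (hκ : 10 ^ 9 * (k : ℝ) ^ 7 * κ ≤ 1) {u : ℂ} (hu0 : u ≠ 0)
    (hu : ‖u‖ ≤ 1 - 1 / (2 * k))
    (hor : ∀ w, ‖w‖ < 1 → C w = -u → ‖u‖ ^ 2 + ‖A w‖ ^ 2 ≤ ‖u + A w‖) {R : ℕ → ℂ → Prop}
    (h0 : R 0 0) (hstep : ∀ m w, ‖w‖ < 1 → R m (A w) → R (m + 1) (mob (-u) (C w)))
    (hclose : ∀ ξ, R k ξ → ξ = 0) :
    ∃ w, ‖w‖ < 1 ∧ A w = mob (-u) (C w) ∧ ∀ m, deriv A w = m * deriv (mob (-u) ∘ C) w →
      ‖m‖ ≤ 1 + 2 * 10 ^ 6 * k ^ 6 * κ ∧ 1 / (5 * k) ≤ ‖m - 1‖ := by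
  have hk1 : (1 : ℝ) ≤ k := by exact_mod_cast hk
  have hpw : ∀ i ≤ 7, 10 ^ 9 * ((k : ℝ) ^ i * κ) ≤ 1 := fun i hi => by
    refine le_trans ?_ hκ
    rw [mul_assoc]; gcongr
  have hκ1 : κ < 1 := by linarith [hpw 0 (by norm_num)]
  obtain ⟨ι, hι, -, hιA⟩ := hA.approx hκ1
  obtain ⟨ι', hι', -, hιC⟩ := hC.approx hκ1
  have hιι : conj ι * ι = 1 := by rw [conj_mul', hι]; simp
  have hιι' : conj ι' * ι' = 1 := by rw [conj_mul', hι']; simp
  obtain ⟨j, hj, hjre⟩ : ∃ j : ℂ, j ^ 2 = ι' * conj ι ∧ 0 ≤ j.re := by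
    obtain ⟨j, hj⟩ := IsAlgClosed.exists_pow_nat_eq (ι' * conj ι) two_pos
    rcases le_total 0 j.re with h | h
    · exact ⟨j, hj, h⟩
    · exact ⟨-j, by rw [neg_sq, hj], by simpa using h⟩
  have hj1 : ‖j‖ = 1 := by
    rw [← sq_eq_sq₀ (norm_nonneg _) zero_le_one, ← norm_pow, hj]; simp [hι, hι']
  have hjj : conj j * j = 1 := by rw [conj_mul', hj1]; simp
  have h2k : 0 < 1 / (2 * (k : ℝ)) := by positivity
  have hu1 : ‖u‖ < 1 := by linarith
  have hnu := norm_pos_iff.mpr hu0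
  obtain ⟨g, hg0, hg⟩ : ∃ g : ℝ, 0 < g ∧ g ^ 2 = 1 - ‖u‖ ^ 2 :=
    ⟨√(1 - ‖u‖ ^ 2), Real.sqrt_pos.mpr (by nlinarith), Real.sq_sqrt (by nlinarith)⟩
  have hgk : 1 ≤ 2 * k * g ^ 2 := by rw [← div_le_iff₀' (by positivity)]; nlinarith
  have hgc : (g : ℂ) ≠ 0 := by exact_mod_cast hg0.ne'
  have hab : ‖j / g‖ ^ 2 = 1 + ‖u * conj j / g‖ ^ 2 := by
    simp only [norm_div, norm_mul, RCLike.norm_conj, hj1, norm_real, Real.norm_of_nonneg hg0.le]
    field_simp; linarith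
  have ha : ‖j / g‖ ^ 2 ≤ 2 * k := by
    rw [norm_div, hj1, norm_real, Real.norm_of_nonneg hg0.le, div_pow, one_pow,
      div_le_iff₀ (by positivity)]
    exact hgk
  have hT : ∀ ξ, (j / g * ξ + u * conj j / g) / (conj (u * conj j / g) * ξ + conj (j / g)) =
      mob (-u) (j ^ 2 * ξ) := fun ξ => by
    rw [mob, ← mul_div_mul_right _ _ (mul_ne_zero hgc (right_ne_zero_of_mul_eq_one hjj))]
    simp only [map_div₀, map_mul, conj_conj, conj_ofReal, map_neg]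
    congr 1
    · field_simp; linear_combination u * hjj
    · field_simp; linear_combination hjj
  by_cases hcase : 1 / (64 * (k : ℝ) ^ 2) ≤ 1 - (j / g).re ^ 2
  · obtain ⟨w, h1, h2, h3⟩ := fixed_pt hab hk1 ha hcase hι hA.diff
      ((mob_diff (a := -u) (by rwa [norm_neg])).comp hC.diff hC.maps) (e := 512 * k ^ 3 * κ) (by positivity)
      (by linarith [hpw 7 le_rfl]) (fun w hw => by
        have h4 : 0 < 1 / (64 * (k : ℝ) ^ 2) := by positivity
        have h1 : ∀ {B : ℂ → ℂ} {η : ℂ}, (∀ w, ‖w‖ < 1 → (1 - ‖w‖) * ‖B w - η * w‖ ≤ 2 * κ * ‖w‖) →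
            ‖B w - η * w‖ ≤ 128 * k ^ 2 * κ := fun hB =>
          (approx_le hB (by positivity) hw).trans (by
            calc _ ≤ 2 * (64 * k ^ 2) * κ * 1 := by gcongr; linarith
              _ = _ := by ring)
        refine ⟨(h1 hιA).trans (by gcongr <;> norm_num), ?_⟩
        rw [hT, hj, show ι' * conj ι * (ι * w) = ι' * w by linear_combination ι' * w * hιι]
        have h5 : ‖w‖ < 1 := by linarith
        refine (mob_lip (k := k) (u := -u) (z := C w) (z' := ι' * w) (by positivity)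
          (by rwa [norm_neg]) ((hC.norm_le h5).trans h5.le)
          (by rw [norm_mul, hι', one_mul]; exact h5.le)).trans ?_
        calc _ ≤ 4 * k * (128 * k ^ 2 * κ) := by gcongr; exact h1 hιC
          _ = _ := by ring)
    refine ⟨w, h1, h2, fun m hm => ⟨(h3 m hm).1.trans ?_, (h3 m hm).2⟩⟩
    have : 0 ≤ (k : ℝ) ^ 6 * κ := by positivity
    linarith
  exfalso
  have hup : (j / g).re ^ 2 - 1 ≤ 1 / (64 * (k : ℝ) ^ 2) := by
    obtain ⟨w, h1, h2, h3⟩ := hC.cover h2k (β := -u) (by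
      rw [div_pow, div_div, le_div_iff₀ (by positivity)]; linarith [hpw 2 (by norm_num)])
      (by rwa [norm_neg])
    rw [norm_neg] at h2
    have h4 : ‖w‖ ≤ 1 - 1 / (4 * k) := h1.trans_eq (by field_simp; ring)
    have h5 := hor w (by linarith) h3
    have h6 : ‖A w - -(conj (j ^ 2) * u)‖ ≤ 32 * k * κ * ‖u‖ := by
      have h7 := approx_le hιA (by positivity) h4
      have h8 := approx_le hιC (by positivity) h4
      rw [show A w - -(conj (j ^ 2) * u) = (A w - ι * w) - ι * conj ι' * (C w - ι' * w) by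
        rw [hj, h3, map_mul, conj_conj]; linear_combination -ι * w * hιι']
      refine (norm_sub_le _ _).trans ?_
      rw [norm_mul, norm_mul, hι, RCLike.norm_conj, hι', one_mul, one_mul]
      have h9 : 2 * (4 * k) * κ * ‖w‖ ≤ 2 * (4 * k) * κ * (2 * ‖u‖) := by gcongr
      linarith
    have h7 : ‖conj (j ^ 2) * u‖ = ‖u‖ := by rw [norm_mul, RCLike.norm_conj, norm_pow, hj1]; simp
    have h8 : ‖u + -(conj (j ^ 2) * u)‖ = 2 * |j.im| * ‖u‖ := by
      rw [show u + -(conj (j ^ 2) * u) = (j - conj j) * (conj j * u) by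
        rw [map_pow]; linear_combination -u * hjj, sub_conj]
      simp [hj1]
    have h9 := norm_sub_le_norm_sub_add_norm_sub u (conj (j ^ 2) * u) (-A w)
    rw [sub_neg_eq_add, sub_neg_eq_add, sub_eq_add_neg u, h8, add_comm (conj (j ^ 2) * u),
      ← sub_neg_eq_add (A w)] at h9
    have h10 := norm_sub_norm_le (-(conj (j ^ 2) * u)) (A w)
    rw [norm_neg, h7, norm_sub_rev] at h10
    have hη0 : 0 < 32 * k * κ := by positivity
    have hη1 : 32 * k * κ ≤ 1 / 2 := by linarith [hpw 1 (by norm_num)]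
    have hη2 : 2 * k * (3 * (32 * k * κ)) ≤ 1 / (64 * (k : ℝ) ^ 2) := by
      rw [le_div_iff₀ (by positivity)]; linarith [hpw 4 (by norm_num)]
    generalize 32 * k * κ = η at h6 hη0 hη1 hη2
    have h11 : ((1 - η) * ‖u‖) ^ 2 ≤ ‖A w‖ ^ 2 := by
      gcongr; exacts [by nlinarith, by linarith]
    have h12 : 2 * ‖u‖ - 3 * η ≤ 2 * |j.im| := by
      refine le_of_mul_le_mul_right ?_ hnu
      have h12 : η * ‖u‖ ^ 2 ≤ η * ‖u‖ := by gcongr; nlinarith
      have h13 : ((1 - η) * ‖u‖) ^ 2 = ‖u‖ ^ 2 - 2 * (η * ‖u‖ ^ 2) + (η * ‖u‖) ^ 2 := by ring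
      linarith [sq_nonneg (η * ‖u‖)]
    have h13 : ‖u‖ ^ 2 - 3 * η ≤ j.im ^ 2 := by
      rw [← sq_abs j.im]
      rcases le_total (2 * ‖u‖ - 3 * η) 0 with h | h
      · nlinarith [sq_nonneg |j.im|]
      · have : (2 * ‖u‖ - 3 * η) ^ 2 ≤ (2 * |j.im|) ^ 2 := by gcongr
        nlinarith [sq_nonneg η]
    have h14 : j.re ^ 2 = 1 - j.im ^ 2 := by
      have := normSq_eq_norm_sq j
      rw [normSq_apply, hj1] at this
      linarith
    refine le_trans ?_ hη2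
    rw [div_ofReal_re, div_pow, sub_le_iff_le_add, div_le_iff₀ (by positivity)]
    nlinarith
  obtain ⟨ξ, h1, h2⟩ := no_close hab hk ha (by rw [div_ofReal_re]; positivity)
    (abs_le.mpr ⟨by linarith, (not_le.mp hcase).le⟩)
    (div_ne_zero (mul_ne_zero hu0 (left_ne_zero_of_mul_eq_one hjj)) hgc) h0 fun m ξ h1 h2 => by
      obtain ⟨w, h3, h4, rfl⟩ := hA.cover (by positivity) (by
        rw [div_pow, div_div, le_div_iff₀ (by positivity)]; linarith [hpw 6 (by norm_num)]) h2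
      have h5 : ‖w‖ ≤ 1 - 1 / (68 * k ^ 3) := h3.trans_eq (by field_simp; ring)
      have h6 : 0 < 1 / (68 * (k : ℝ) ^ 3) := by positivity
      refine ⟨ι * conj ι' * C w, ?_, ?_⟩
      · have h7 := approx_le hιA (by positivity) h5
        have h8 := approx_le hιC (by positivity) h5
        rw [show ι * conj ι' * C w - A w = ι * conj ι' * (C w - ι' * w) - (A w - ι * w) by
          linear_combination ι * w * hιι']
        refine (norm_sub_le _ _).trans ?_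
        rw [norm_mul, norm_mul, hι, RCLike.norm_conj, hι', one_mul, one_mul]
        have h9 : 2 * (68 * k ^ 3) * κ * ‖w‖ ≤ 2 * (68 * k ^ 3) * κ * (2 * ‖A w‖) := by gcongr
        have h10 : 544 * k ^ 3 * κ * ‖A w‖ ≤ 1 / (64 * k ^ 4) * ‖A w‖ := by
          gcongr; rw [le_div_iff₀ (by positivity)]; linarith [hpw 7 le_rfl]
        linarith
      · rw [hT, hj, show ι' * conj ι * (ι * conj ι' * C w) = C w by
          linear_combination ι' * conj ι' * C w * hιι + C w * hιι']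
        exact hstep m w (by linarith) h1
  exact h1 (hclose ξ h2)

end Pool.Agent.Lib.MP_c35c17_an.Q

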