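import Pool.Agent.Lib.MP_c35c17_an.Area

set_option autoImplicit false

open Filter Topology Set Metric Complex Polynomial

namespace Pool.Agent.Lib.MP_c35c17_an.Q

/-- A bound for the first two derivatives of `z ^ n` on the disc of radius three. -/
def Lam (n : ℕ) : ℝ := (n : ℝ) ^ 2 * 3 ^ n

theorem pow_lip (n : ℕ) {x y : ℂ} (hx : ‖x‖ ≤ 3) (hy : ‖y‖ ≤ 3) :
    ‖y ^ n - x ^ n‖ ≤ n * 3 ^ n * ‖y - x‖ := by
  induction n with
  | zero => simp
  | succ n ih =>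
    have h1 : ‖x ^ n‖ ≤ 3 ^ n := by rw [norm_pow]; gcongr
    calc _ = ‖y * (y ^ n - x ^ n) + x ^ n * (y - x)‖ := by congr 1; ring
      _ ≤ 3 * (n * 3 ^ n * ‖y - x‖) + 3 ^ n * ‖y - x‖ := by
          refine (norm_add_le _ _).trans ?_
          rw [norm_mul, norm_mul]
          gcongr
      _ ≤ _ := by
          have : 0 ≤ 3 ^ n * ‖y - x‖ := by positivity
          push_cast; rw [pow_succ]; nlinarith

theorem pow_taylor (n : ℕ) {x y : ℂ} (hx : ‖x‖ ≤ 3) (hy : ‖y‖ ≤ 3) :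
    ‖y ^ n - x ^ n - n * x ^ (n - 1) * (y - x)‖ ≤ Lam n * ‖y - x‖ ^ 2 := by
  induction n with
  | zero => simp [Lam]
  | succ n ih =>
    have h1 : ‖(n : ℂ) * x ^ (n - 1)‖ ≤ n * 3 ^ n := by
      rw [norm_mul, norm_pow, Complex.norm_natCast]
      gcongr
      exact (pow_le_pow_left₀ (norm_nonneg _) hx _).trans
        (pow_le_pow_right₀ (by norm_num) (Nat.sub_le n 1))
    have h2 : (n : ℂ) * x ^ (n - 1) * x = n * x ^ n := by
      rcases n with _ | n
      · simp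
      · rw [Nat.add_sub_cancel]; ring
    calc _ = ‖y * (y ^ n - x ^ n - n * x ^ (n - 1) * (y - x)) + n * x ^ (n - 1) * (y - x) ^ 2‖ := by
          congr 1; rw [Nat.add_sub_cancel]; push_cast; linear_combination (y - x) * h2
      _ ≤ 3 * (Lam n * ‖y - x‖ ^ 2) + n * 3 ^ n * ‖y - x‖ ^ 2 := by
          refine (norm_add_le _ _).trans ?_
          rw [norm_mul, norm_mul _ (_ ^ 2), norm_pow (y - x)]
          gcongr
      _ ≤ _ := by
          have h3 : 0 ≤ 3 ^ n * ‖y - x‖ ^ 2 := by positivity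
          have h4 : 0 ≤ n * (3 ^ n * ‖y - x‖ ^ 2) := by positivity
          simp only [Lam]; push_cast; rw [pow_succ 3]; nlinarith

theorem nine_le_pow {n : ℕ} (hn : 2 ≤ n) : (9 : ℝ) ≤ 3 ^ n :=
  le_trans (by norm_num) (pow_le_pow_right₀ (by norm_num) hn)

theorem mul_le_Lam {n : ℕ} (hn : 2 ≤ n) : (n : ℝ) * 3 ^ n ≤ Lam n := by
  have h : (2 : ℝ) ≤ n := by exact_mod_cast hn
  unfold Lam; gcongr; nlinarith

theorem le_Lam {n : ℕ} (hn : 2 ≤ n) : (n : ℝ) ≤ Lam n ∧ 2 ≤ Lam n := by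
  have h : (2 : ℝ) ≤ n := by exact_mod_cast hn
  have := mul_le_Lam hn
  have := nine_le_pow hn
  constructor <;> nlinarith

theorem nat_le_Lam_pow {n : ℕ} (hn : 2 ≤ n) (k : ℕ) : (k : ℝ) ≤ Lam n ^ k :=
  le_trans (by exact_mod_cast Nat.lt_two_pow_self.le) (pow_le_pow_left₀ (by norm_num) (le_Lam hn).2 k)

theorem norm_lam_le {n : ℕ} (hn : 2 ≤ n) {x : ℂ} (hx : ‖x‖ ≤ 3) {j : ℕ} (hj : j ≤ n) :
    ‖(n : ℂ) * x ^ j‖ ≤ Lam n := by
  rw [norm_mul, norm_pow, Complex.norm_natCast]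
  refine le_trans ?_ (mul_le_Lam hn)
  gcongr
  exact (pow_le_pow_left₀ (norm_nonneg _) hx _).trans (pow_le_pow_right₀ (by norm_num) hj)

theorem F_lip {n : ℕ} (hn : 2 ≤ n) (c : ℂ) {x y : ℂ} (hx : ‖x‖ ≤ 3) (hy : ‖y‖ ≤ 3) :
    ‖F n c y - F n c x‖ ≤ Lam n * ‖y - x‖ := by
  rw [F, F, add_sub_add_right_eq_sub]
  exact (pow_lip n hx hy).trans (mul_le_mul_of_nonneg_right (mul_le_Lam hn) (norm_nonneg _))

theorem isOpenMap_F {n : ℕ} (hn : 2 ≤ n) (c : ℂ) : IsOpenMap (F n c) :=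
  have : NeZero n := ⟨by omega⟩
  (isOpenMap_add_right c).comp (Complex.isOpenQuotientMap_pow n).isOpenMap

theorem ball_subset_image {n : ℕ} (hn : 2 ≤ n) (c : ℂ) {x : ℂ} (hx : ‖x‖ ≤ 2) {σ R : ℝ}
    (h0 : 0 < σ) (h1 : σ ≤ 1) (hR : R ≤ ‖(n : ℂ) * x ^ (n - 1)‖ * σ - Lam n * σ ^ 2) :
    ball (F n c x) R ⊆ F n c '' ball x σ := by
  rcases le_or_gt R 0 with h | h
  · simp [ball_eq_empty.mpr h]
  refine (convex_ball _ _).isPreconnected.subset_of_closure_inter_subset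
    (isOpenMap_F hn c _ isOpen_ball) ⟨_, mem_ball_self h, x, mem_ball_self h0, rfl⟩ ?_
  rintro z ⟨h2, h3⟩
  obtain ⟨w, hw, rfl⟩ := closure_minimal (image_mono ball_subset_closedBall)
    ((isCompact_closedBall x σ).image (by fun_prop : Continuous (F n c))).isClosed h2
  refine ⟨w, ?_, rfl⟩
  rw [mem_closedBall_iff_norm] at hw
  rw [mem_ball_iff_norm] at h3 ⊢
  refine lt_of_le_of_ne hw fun e => ?_
  have h4 := pow_taylor n (x := x) (y := w) (by linarith)
    (by linarith [norm_le_norm_add_norm_sub' w x])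
  have h5 := norm_sub_norm_le ((n : ℂ) * x ^ (n - 1) * (w - x)) (w ^ n - x ^ n)
  rw [norm_sub_rev (_ * _), norm_mul, e] at h5
  rw [F, F, add_sub_add_right_eq_sub] at h3
  rw [e] at h4
  linarith

/-- A weakly repelling cycle of exact period `k` and multiplier `ρ`. -/
structure Cyc (n : ℕ) (c : ℂ) (k : ℕ) (O : Finset ℂ) (ρ : ℂ) : Prop where
  hn : 2 ≤ n
  hc : ‖c‖ ≤ 2
  big : 1 < ‖ρ‖
  small : ‖ρ‖ ≤ 2
  card : O.card = k
  pos : 0 < k
  maps : ∀ x ∈ O, F n c x ∈ O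
  per : ∀ x ∈ O, (F n c)^[k] x = x
  mult : ∀ x ∈ O, dF n c k x = ρ
  prod : ∏ x ∈ O, (n : ℂ) * x ^ (n - 1) = ρ
  trans : ∀ x ∈ O, ∀ y ∈ O, ∃ d, 1 ≤ d ∧ d ≤ k ∧ (F n c)^[d] x = y

theorem exists_cyc {n : ℕ} (hn : 2 ≤ n) {c : ℂ} (hc : ‖c‖ ≤ 2) {z : ℂ} {k : ℕ} (hk : 0 < k)
    (hz : Function.minimalPeriod (F n c) z = k) (h1 : 1 < ‖dF n c k z‖) (h2 : ‖dF n c k z‖ ≤ 2) :
    ∃ O, z ∈ O ∧ Cyc n c k O (dF n c k z) := by
  classical
  have hp : Function.IsPeriodicPt (F n c) k z := hz ▸ Function.isPeriodicPt_minimalPeriod _ _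
  have hinj : InjOn (fun j => (F n c)^[j] z) (Finset.range k : Set ℕ) := by
    rw [Finset.coe_range, ← hz]; exact Function.iterate_injOn_Iio_minimalPeriod
  have hmem : ∀ j, (F n c)^[j] z ∈ (Finset.range k).image fun j => (F n c)^[j] z := fun j =>
    Finset.mem_image.mpr ⟨j % k, Finset.mem_range.mpr (Nat.mod_lt _ hk), hp.iterate_mod_apply j⟩
  have hne : dF n c k z ≠ 0 := norm_pos_iff.mp (by linarith)
  refine ⟨_, hmem 0, hn, hc, h1, h2, by rw [Finset.card_image_of_injOn hinj, Finset.card_range], hk,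
    ?_, ?_, ?_, by rw [Finset.prod_image hinj]; rfl, ?_⟩
  all_goals simp only [Finset.forall_mem_image, Finset.mem_range]
  · exact fun j _ => Function.iterate_succ_apply' (F n c) j z ▸ hmem (j + 1)
  · exact fun j _ => hp.apply_iterate j
  · intro j hj
    have h3 := dF_add n c j k z
    rw [add_comm, dF_add, hp.eq, mul_comm] at h3
    refine (mul_right_cancel₀ (fun h => hne ?_) h3).symm
    rw [← Nat.add_sub_cancel' hj.le, dF_add, h, mul_zero]
  · intro i hi j hj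
    rcases lt_or_ge i j with h | h
    · exact ⟨j - i, by omega, by omega, by rw [← Function.iterate_add_apply, Nat.sub_add_cancel h.le]⟩
    · refine ⟨j + k - i, by omega, by omega, ?_⟩
      rw [← Function.iterate_add_apply, Nat.sub_add_cancel (by omega), Function.iterate_add_apply,
        hp.eq]

namespace Cyc
variable {n : ℕ} {c : ℂ} {k : ℕ} {O : Finset ℂ} {ρ : ℂ} (h : Cyc n c k O ρ)
include h

theorem iter_mem {x : ℂ} (hx : x ∈ O) (j : ℕ) : (F n c)^[j] x ∈ O := by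
  induction j with
  | zero => exact hx
  | succ j ih => rw [Function.iterate_succ_apply']; exact h.maps _ ih

theorem injOn : InjOn (F n c) O := fun x hx y hy e => by
  rw [← h.per x hx, ← h.per y hy, ← Nat.sub_add_cancel h.pos, Function.iterate_succ_apply,
    Function.iterate_succ_apply, e]

theorem bijOn : BijOn (F n c) O O :=
  (O.finite_toSet.injOn_iff_bijOn_of_mapsTo h.maps).mp h.injOn

theorem sum_comp {M : Type*} [AddCommMonoid M] (g : ℂ → M) :
    ∑ x ∈ O, g (F n c x) = ∑ x ∈ O, g x :=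
  Finset.sum_nbij (F n c) h.maps h.injOn h.bijOn.surjOn fun _ _ => rfl

theorem sum_comp_iter {M : Type*} [AddCommMonoid M] (g : ℂ → M) (j : ℕ) :
    ∑ x ∈ O, g ((F n c)^[j] x) = ∑ x ∈ O, g x := by
  induction j with
  | zero => rfl
  | succ j ih => rw [← ih, ← h.sum_comp fun x => g ((F n c)^[j] x)]; rfl

theorem norm_le {x : ℂ} (hx : x ∈ O) : ‖x‖ ≤ 2 := by
  obtain ⟨y, hy, hm⟩ := O.exists_max_image (fun z => ‖z‖) ⟨x, hx⟩
  refine (hm x hx).trans (not_lt.mp fun h1 => ?_)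
  have h2 := hm _ (h.maps y hy)
  have h3 : ‖y‖ ^ 2 ≤ ‖y‖ ^ n := pow_le_pow_right₀ (by linarith) h.hn
  have h4 := norm_sub_norm_le (y ^ n) (-c)
  rw [sub_neg_eq_add, norm_neg, norm_pow] at h4
  have := h.hc
  nlinarith

theorem lam_le {x : ℂ} (hx : x ∈ O) : ‖(n : ℂ) * x ^ (n - 1)‖ ≤ Lam n :=
  norm_lam_le h.hn (by linarith [h.norm_le hx]) (Nat.sub_le _ _)

theorem one_le_Lam : 1 ≤ Lam n := by linarith [(le_Lam h.hn).2]

theorem dF_le {x : ℂ} (hx : x ∈ O) (l : ℕ) : ‖dF n c l x‖ ≤ Lam n ^ l := by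
  induction l with
  | zero => simp [dF]
  | succ l ih =>
    rw [dF_succ, norm_mul, pow_succ']
    exact mul_le_mul (h.lam_le (h.iter_mem hx l)) ih (norm_nonneg _) (by linarith [h.one_le_Lam])

omit h in
theorem dF_succ' (l : ℕ) (x : ℂ) : dF n c (l + 1) x = dF n c l (F n c x) * (n * x ^ (n - 1)) := by
  rw [add_comm, dF_add]; simp [dF]

theorem lam_ge {x : ℂ} (hx : x ∈ O) : 1 ≤ Lam n ^ k * ‖(n : ℂ) * x ^ (n - 1)‖ := by
  have h1 := h.big
  rw [← h.mult x hx, ← Nat.sub_add_cancel h.pos, dF_succ', norm_mul] at h1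
  refine h1.le.trans (mul_le_mul_of_nonneg_right ((h.dF_le (h.maps x hx) _).trans
    (pow_le_pow_right₀ h.one_le_Lam (Nat.sub_le _ _))) (norm_nonneg _))

theorem norm_ge {x : ℂ} (hx : x ∈ O) : 1 ≤ Lam n ^ (k + 1) * ‖x‖ := by
  have h1 := h.lam_ge hx
  rw [show n - 1 = n - 2 + 1 by have := h.hn; omega, pow_succ, ← mul_assoc, norm_mul] at h1
  rw [pow_succ, mul_assoc]
  refine h1.trans (mul_le_mul_of_nonneg_left (mul_le_mul_of_nonneg_right
    (norm_lam_le h.hn (by linarith [h.norm_le hx]) (Nat.sub_le _ _)) (norm_nonneg _))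
    (pow_nonneg (by linarith [h.one_le_Lam]) _))

theorem ne_zero {x : ℂ} (hx : x ∈ O) : x ≠ 0 := by
  rintro rfl
  have := h.norm_ge hx
  norm_num at this

theorem dF_ne {x : ℂ} (hx : x ∈ O) (l : ℕ) : dF n c l x ≠ 0 :=
  Finset.prod_ne_zero_iff.mpr fun j _ => mul_ne_zero (Nat.cast_ne_zero.mpr (by have := h.hn; omega))
    (pow_ne_zero _ (h.ne_zero (h.iter_mem hx j)))

omit h in
theorem mu_le : ‖ρ‖ - 1 ≤ ‖1 - ρ‖ := by
  simpa [norm_sub_rev] using norm_sub_norm_le ρ 1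

theorem sep_aux {x y : ℂ} (hx : x ∈ O) (hy : y ∈ O) (l : ℕ) :
    ‖(F n c)^[l] y - (F n c)^[l] x‖ ≤ Lam n ^ l * ‖y - x‖ ∧
      ‖(F n c)^[l] y - (F n c)^[l] x - dF n c l x * (y - x)‖ ≤ l * Lam n ^ (2 * l) * ‖y - x‖ ^ 2 := by
  have hL := h.one_le_Lam
  induction l with
  | zero => simp [dF]
  | succ l ih =>
    have h1 : ‖(F n c)^[l] x‖ ≤ 3 := by linarith [h.norm_le (h.iter_mem hx l)]
    have h2 : ‖(F n c)^[l] y‖ ≤ 3 := by linarith [h.norm_le (h.iter_mem hy l)]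
    constructor
    · rw [Function.iterate_succ_apply', Function.iterate_succ_apply', pow_succ', mul_assoc]
      exact (F_lip h.hn c h1 h2).trans (mul_le_mul_of_nonneg_left ih.1 (by linarith))
    · have h3 := pow_taylor n h1 h2
      have h4 := h.lam_le (h.iter_mem hx l)
      calc _ = ‖((F n c)^[l] y ^ n - (F n c)^[l] x ^ n - n * (F n c)^[l] x ^ (n - 1) *
            ((F n c)^[l] y - (F n c)^[l] x)) + n * (F n c)^[l] x ^ (n - 1) *
            ((F n c)^[l] y - (F n c)^[l] x - dF n c l x * (y - x))‖ := by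
            congr 1; rw [iter_succ, iter_succ, dF_succ]; ring
        _ ≤ Lam n * (Lam n ^ l * ‖y - x‖) ^ 2 + Lam n * (l * Lam n ^ (2 * l) * ‖y - x‖ ^ 2) := by
            refine (norm_add_le _ _).trans (add_le_add (h3.trans ?_) ?_)
            · gcongr; exact ih.1
            · rw [norm_mul]; gcongr; exact ih.2
        _ = (l + 1) * (Lam n ^ (2 * l) * Lam n) * ‖y - x‖ ^ 2 := by ring
        _ ≤ _ := by
            push_cast
            gcongr
            rw [← pow_succ]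
            exact pow_le_pow_right₀ hL (by omega)

theorem sep₀ {x y : ℂ} (hx : x ∈ O) (hy : y ∈ O) (hne : y ≠ x) :
    ‖ρ‖ - 1 ≤ Lam n ^ (3 * k) * ‖y - x‖ := by
  have h1 := (h.sep_aux hx hy k).2
  have h2 := norm_pos_iff.mpr (sub_ne_zero.mpr hne)
  rw [h.per x hx, h.per y hy, h.mult x hx, ← one_sub_mul, norm_mul, sq, ← mul_assoc] at h1
  refine mu_le.trans ((le_of_mul_le_mul_right h1 h2).trans ?_)
  rw [show 3 * k = k + 2 * k by ring, pow_add]
  have := h.one_le_Lam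
  gcongr
  exact nat_le_Lam_pow h.hn k

theorem sep {x y w : ℂ} (hx : x ∈ O) (hy : y ∈ O) (hw : w ^ n = x ^ n) (hne : w ≠ y) :
    ‖ρ‖ - 1 ≤ Lam n ^ (3 * k + 1) * ‖w - y‖ := by
  have hL := h.one_le_Lam
  have hw3 : ‖w‖ ≤ 3 := by
    have : ‖w‖ = ‖x‖ := (pow_left_inj₀ (norm_nonneg _) (norm_nonneg _)
      (by have := h.hn; omega : n ≠ 0)).mp (by rw [← norm_pow, hw, norm_pow])
    linarith [h.norm_le hx]
  have hy3 : ‖y‖ ≤ 3 := by linarith [h.norm_le hy]
  by_cases e : x = y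
  · subst e
    have h1 := pow_taylor n hy3 hw3
    have h2 := norm_pos_iff.mpr (sub_ne_zero.mpr hne)
    rw [hw, sub_self, zero_sub, norm_neg, norm_mul, sq, ← mul_assoc] at h1
    have h3 := le_of_mul_le_mul_right h1 h2
    calc ‖ρ‖ - 1 ≤ 1 := by linarith [h.small]
      _ ≤ Lam n ^ k * (Lam n * ‖w - x‖) := (h.lam_ge hx).trans (by gcongr)
      _ = Lam n ^ (k + 1) * ‖w - x‖ := by ring
      _ ≤ _ := by gcongr; omega
  · have h1 := h.sep₀ (h.maps y hy) (h.maps x hx) fun h' => e (h.injOn hx hy h')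
    have h2 := F_lip h.hn c hy3 hw3
    rw [show F n c w = F n c x by simp only [F, hw]] at h2
    rw [pow_succ, mul_assoc]
    exact h1.trans (by gcongr)

end Cyc

/-- The residue of the quadratic differential at a point of the cycle. -/
noncomputable def coef (n : ℕ) (c : ℂ) (k : ℕ) (ρ x : ℂ) : ℂ :=
  (1 - ρ)⁻¹ * ∑ l ∈ Finset.range k, dF n c l x * (((n : ℂ) - 1) / (F n c)^[l] x)

/-- Weights along the cycle. -/
noncomputable def wt (n : ℕ) (c : ℂ) (k : ℕ) (θ : ℝ) (x : ℂ) : ℝ :=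
  ∑ l ∈ Finset.range k, θ ^ l * ‖dF n c l x‖

namespace Cyc
variable {n : ℕ} {c : ℂ} {k : ℕ} {O : Finset ℂ} {ρ : ℂ} (h : Cyc n c k O ρ)
include h

theorem one_sub_ne : 1 - ρ ≠ 0 := norm_pos_iff.mp (by linarith [mu_le (ρ := ρ), h.big])

theorem coef_eq {x : ℂ} (hx : x ∈ O) :
    coef n c k ρ x = n * x ^ (n - 1) * coef n c k ρ (F n c x) + ((n : ℂ) - 1) / x := by
  have h1 := Finset.sum_range_succ (fun l => dF n c l x * (((n : ℂ) - 1) / (F n c)^[l] x)) k
  rw [Finset.sum_range_succ', h.per x hx, h.mult x hx] at h1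
  simp only [dF_succ', Function.iterate_succ_apply] at h1
  have h2 := h.one_sub_ne
  rw [coef, coef, mul_left_comm, inv_mul_eq_iff_eq_mul₀ h2, mul_add, mul_inv_cancel_left₀ h2,
    Finset.mul_sum]
  rw [Finset.sum_congr rfl fun l _ => (mul_assoc _ _ _).trans (mul_left_comm _ _ _),
    show dF n c 0 x = 1 by simp [dF], Function.iterate_zero, id] at h1
  linear_combination -h1

theorem coef_le {x : ℂ} (hx : x ∈ O) : ‖coef n c k ρ x‖ ≤ Lam n ^ (3 * k + 2) / (‖ρ‖ - 1) := by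
  have hL := h.one_le_Lam
  have hμ := sub_pos.mpr h.big
  rw [coef, norm_mul, norm_inv, ← div_eq_inv_mul]
  refine div_le_div₀ (by positivity) ?_ hμ mu_le
  calc _ ≤ ∑ l ∈ Finset.range k, Lam n ^ k * (Lam n * Lam n ^ (k + 1)) := by
        refine norm_sum_le_of_le _ fun l hl => ?_
        have h1 := h.norm_ge (h.iter_mem hx l)
        rw [norm_mul, norm_div]
        gcongr
        · exact (h.dF_le hx l).trans (pow_le_pow_right₀ hL (Finset.mem_range.mp hl).le)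
        · rw [div_le_iff₀ (norm_pos_iff.mpr (h.ne_zero (h.iter_mem hx l))), mul_assoc]
          refine le_trans ?_ (le_mul_of_one_le_right (by linarith) h1)
          have h2 : (1 : ℝ) ≤ n := by exact_mod_cast (by have := h.hn; omega : 1 ≤ n)
          rw [show (n : ℂ) - 1 = ((n - 1 : ℝ) : ℂ) by push_cast; rfl, norm_real,
            Real.norm_of_nonneg (by linarith)]
          linarith [(le_Lam h.hn).1]
    _ ≤ Lam n ^ k * (Lam n ^ k * (Lam n * Lam n ^ (k + 1))) := by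
        rw [Finset.sum_const, Finset.card_range, nsmul_eq_mul]
        gcongr
        exact nat_le_Lam_pow h.hn k
    _ = _ := by ring

theorem wt_eq (θ : ℝ) {x : ℂ} (hx : x ∈ O) : wt n c k θ x =
    θ * ‖(n : ℂ) * x ^ (n - 1)‖ * wt n c k θ (F n c x) + 1 - θ ^ k * ‖ρ‖ := by
  have h1 := Finset.sum_range_succ (fun l => θ ^ l * ‖dF n c l x‖) k
  rw [Finset.sum_range_succ', h.mult x hx] at h1
  simp only [dF_succ', norm_mul (dF n c _ _)] at h1
  have h2 : θ * ‖(n : ℂ) * x ^ (n - 1)‖ * wt n c k θ (F n c x) = ∑ l ∈ Finset.range k,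
      θ ^ (l + 1) * (‖dF n c l (F n c x)‖ * ‖(n : ℂ) * x ^ (n - 1)‖) := by
    rw [wt, Finset.mul_sum]; exact Finset.sum_congr rfl fun l _ => by ring
  rw [show dF n c 0 x = 1 by simp [dF], norm_one, pow_zero] at h1
  rw [h2, wt]
  linarith

theorem wt_bounds {θ : ℝ} (h0 : 0 ≤ θ) (h1 : θ ≤ 1) {x : ℂ} (hx : x ∈ O) :
    1 ≤ wt n c k θ x ∧ wt n c k θ x ≤ Lam n ^ (2 * k) := by
  have hL := h.one_le_Lam
  constructor
  · simpa [dF, wt] using Finset.single_le_sum (f := fun l => θ ^ l * ‖dF n c l x‖)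
      (fun l _ => by positivity) (Finset.mem_range.mpr h.pos)
  · calc _ ≤ ∑ l ∈ Finset.range k, Lam n ^ k := Finset.sum_le_sum fun l hl =>
          (mul_le_of_le_one_left (norm_nonneg _) (pow_le_one₀ h0 h1)).trans
            ((h.dF_le hx l).trans (pow_le_pow_right₀ hL (Finset.mem_range.mp hl).le))
      _ ≤ Lam n ^ k * Lam n ^ k := by
          rw [Finset.sum_const, Finset.card_range, nsmul_eq_mul]
          gcongr
          exact nat_le_Lam_pow h.hn k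
      _ = _ := by ring

theorem radii {s : ℝ} (h0 : 0 < s) (h1 : s ≤ 1) : ∃ σ : ℂ → ℝ, ∀ x ∈ O,
    s * (‖ρ‖ - 1) / Lam n ^ (4 * k + 2) ≤ σ x ∧ σ x ≤ s ∧
      ball (F n c x) (σ (F n c x)) ⊆ F n c '' ball x (σ x) := by
  have hL := h.one_le_Lam
  have hμ := sub_pos.mpr h.big
  have hμ1 : ‖ρ‖ - 1 ≤ 1 := by linarith [h.small]
  have hk : (1 : ℝ) ≤ k := by exact_mod_cast h.pos
  set ν := (‖ρ‖ - 1) / (2 * k) with hν
  have hν0 : 0 < ν := by positivity
  have hν1 : ν ≤ 1 := by rw [hν, div_le_one (by positivity)]; linarith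
  have hb := fun x hx => h.wt_bounds (θ := 1 - ν) (by linarith) (by linarith) (x := x) hx
  set σ₀ := s * (‖ρ‖ - 1) / Lam n ^ (2 * k + 2) with hσ₀
  have hσ0 : 0 < σ₀ := by positivity
  have hσs : σ₀ ≤ s := (div_le_self (by positivity) (one_le_pow₀ hL)).trans (by nlinarith)
  refine ⟨fun x => σ₀ / wt n c k (1 - ν) x, fun x hx => ?_⟩
  have hx1 := (hb x hx).1
  have hfx := (hb _ (h.maps x hx)).1
  have hle : σ₀ / wt n c k (1 - ν) x ≤ σ₀ := div_le_self hσ0.le hx1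
  refine ⟨?_, hle.trans hσs, ball_subset_image h.hn c (h.norm_le hx) (by positivity)
    (hle.trans (hσs.trans h1)) ?_⟩
  · calc _ = σ₀ / Lam n ^ (2 * k) := by rw [hσ₀]; field_simp; ring
      _ ≤ _ := div_le_div_of_nonneg_left hσ0.le (by positivity) (hb x hx).2
  · have h2 : 1 ≤ (1 - ν) ^ k * ‖ρ‖ := by
      have h3 := one_add_mul_le_pow (a := -ν) (by linarith) k
      have h4 : k * ν = (‖ρ‖ - 1) / 2 := by rw [hν]; field_simp
      rw [← sub_eq_add_neg, mul_neg, h4] at h3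
      nlinarith
    have h3 := h.wt_eq (1 - ν) hx
    have h4 : σ₀ / wt n c k (1 - ν) (F n c x) ≤
        (1 - ν) * ‖(n : ℂ) * x ^ (n - 1)‖ * (σ₀ / wt n c k (1 - ν) x) := by
      rw [mul_div_assoc', div_le_div_iff₀ (by positivity) (by positivity)]
      nlinarith
    have h5 : Lam n * σ₀ ≤ ν * ‖(n : ℂ) * x ^ (n - 1)‖ := by
      have h6 := h.lam_ge hx
      have h7 : 2 * k ≤ Lam n ^ (k + 1) := by
        rw [pow_succ']; gcongr; exacts [(le_Lam h.hn).2, nat_le_Lam_pow h.hn k]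
      calc Lam n * σ₀ = s * ((‖ρ‖ - 1) / Lam n ^ (k + 1)) / Lam n ^ k := by
            rw [hσ₀]; field_simp; ring
        _ ≤ 1 * ν / Lam n ^ k := by rw [hν]; gcongr
        _ ≤ _ := by
            rw [one_mul, div_le_iff₀ (by positivity), mul_assoc, mul_comm ‖_‖]
            exact le_mul_of_one_le_right hν0.le h6
    have h6 : 0 < σ₀ / wt n c k (1 - ν) x := by positivity
    have h7 : Lam n * (σ₀ / wt n c k (1 - ν) x) ≤ ν * ‖(n : ℂ) * x ^ (n - 1)‖ :=
      le_trans (by gcongr) h5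
    nlinarith

end Cyc

end Pool.Agent.Lib.MP_c35c17_an.Q
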