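import Mathlib

set_option autoImplicit false

open Filter Topology Set Metric Complex

namespace Pool.Agent.Lib.MP_c35c17_an.Q

/-- A hole of `Y`: a compact set outside `Y` whose union with `Y` is open. -/
def Hole (Y K : Set ℂ) : Prop := IsCompact K ∧ Disjoint K Y ∧ IsOpen (Y ∪ K)

/-- A set without holes. -/
def Full (W : Set ℂ) : Prop := ∀ K, Hole W K → K = ∅

/-- The set together with all its holes. -/
def fill (Y : Set ℂ) : Set ℂ := Y ∪ ⋃₀ {K | Hole Y K}

theorem subset_fill (Y : Set ℂ) : Y ⊆ fill Y := subset_union_left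

theorem Hole.subset_fill {Y K : Set ℂ} (h : Hole Y K) : K ⊆ fill Y :=
  fun _ hz => Or.inr ⟨K, h, hz⟩

theorem mem_fill {Y : Set ℂ} {z : ℂ} (hz : z ∈ fill Y) : z ∈ Y ∨ ∃ K, Hole Y K ∧ z ∈ K := by
  rcases hz with h | ⟨K, hK, h⟩
  · exact Or.inl h
  · exact Or.inr ⟨K, hK, h⟩

theorem isOpen_fill {Y : Set ℂ} (hY : IsOpen Y) : IsOpen (fill Y) := by
  refine isOpen_iff_mem_nhds.mpr fun z hz => ?_
  rcases mem_fill hz with h | ⟨K, hK, h⟩
  · exact mem_of_superset (hY.mem_nhds h) (subset_fill Y)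
  · exact mem_of_superset (hK.2.2.mem_nhds (Or.inr h))
      (union_subset (subset_fill Y) hK.subset_fill)

theorem eq_empty_of_isCompact_isOpen {K : Set ℂ} (hK : IsCompact K) (ho : IsOpen K) : K = ∅ := by
  rcases isClopen_iff.mp ⟨hK.isClosed, ho⟩ with h | h
  · exact h
  · exact absurd (h ▸ hK) (noncompact_univ ℂ)

theorem Hole.isPreconnected {Y K : Set ℂ} (h : Hole Y K) (hY : IsPreconnected Y) :
    IsPreconnected (Y ∪ K) := by
  rw [isPreconnected_iff_subset_of_disjoint] at hY ⊢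
  intro u v hu hv hs hd
  have key : ∀ u v : Set ℂ, IsOpen u → IsOpen v → Y ∪ K ⊆ u ∪ v → (Y ∪ K) ∩ (u ∩ v) = ∅ →
      Y ⊆ u → Y ∪ K ⊆ u := by
    intro u v hu hv hs hd hYu
    have e : K \ u = (Y ∪ K) ∩ v := by
      ext z
      constructor
      · intro hz
        exact ⟨Or.inr hz.1, (hs (Or.inr hz.1)).resolve_left hz.2⟩
      · rintro ⟨hz, hzv⟩
        have hzu : z ∉ u := fun hzu => (hd ▸ (⟨hz, hzu, hzv⟩ : z ∈ (Y ∪ K) ∩ (u ∩ v)) : z ∈ (∅ : Set ℂ))
        exact ⟨hz.resolve_left fun hy => hzu (hYu hy), hzu⟩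
    have := eq_empty_of_isCompact_isOpen (h.1.diff hu) (e ▸ h.2.2.inter hv)
    exact union_subset hYu (sdiff_eq_empty.mp this)
  rcases hY u v hu hv (subset_union_left.trans hs)
    (subset_eq_empty (inter_subset_inter_left _ subset_union_left) hd) with h1 | h1
  · exact Or.inl (key u v hu hv hs hd h1)
  · exact Or.inr (key v u hv hu (by rwa [union_comm v u]) (by rwa [inter_comm v u]) h1)

theorem isPreconnected_fill {Y : Set ℂ} (hY : IsPreconnected Y) {y : ℂ} (hy : y ∈ Y) :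
    IsPreconnected (fill Y) := by
  refine isPreconnected_of_forall y fun z hz => ?_
  rcases mem_fill hz with h | ⟨K, hK, h⟩
  · exact ⟨Y, subset_fill Y, hy, h, hY⟩
  · exact ⟨Y ∪ K, union_subset (subset_fill Y) hK.subset_fill, Or.inl hy, Or.inr h,
      hK.isPreconnected hY⟩

theorem full_fill {Y : Set ℂ} (hY : IsOpen Y) : Full (fill Y) := by
  intro K hK
  obtain ⟨N, hNc, hKN, hNO⟩ := exists_compact_between hK.1 hK.2.2 subset_union_right
  have hfr : IsCompact (N \ interior N) := hNc.diff isOpen_interior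
  have hcov : N \ interior N ⊆ ⋃ L : {L // Hole Y L}, (Y ∪ L.1) := by
    intro z hz
    have h1 : z ∈ fill Y := (hNO hz.1).resolve_right fun h => hz.2 (hKN h)
    rcases mem_fill h1 with h | ⟨L, hL, h⟩
    · exact mem_iUnion.mpr ⟨⟨∅, isCompact_empty, empty_disjoint _, by simpa using hY⟩, Or.inl h⟩
    · exact mem_iUnion.mpr ⟨⟨L, hL⟩, Or.inr h⟩
  obtain ⟨t, ht⟩ := hfr.elim_finite_subcover _ (fun L => L.2.2.2) hcov
  have hH : Hole Y ((N \ Y) ∪ ⋃ L ∈ t, L.1) := by
    refine ⟨(hNc.diff hY).union (t.isCompact_biUnion fun L _ => L.2.1), ?_, ?_⟩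
    · rw [disjoint_union_left]
      exact ⟨disjoint_sdiff_left, disjoint_iUnion₂_left.mpr fun L _ => L.2.2.1⟩
    · have e : Y ∪ ((N \ Y) ∪ ⋃ L ∈ t, L.1) = (Y ∪ interior N) ∪ ⋃ L ∈ t, (Y ∪ L.1) := by
        apply Subset.antisymm
        · rintro z (hz | hz | hz)
          · exact Or.inl (Or.inl hz)
          · by_cases hi : z ∈ interior N
            · exact Or.inl (Or.inr hi)
            · exact Or.inr (ht ⟨hz.1, hi⟩)
          · obtain ⟨L, hL, h⟩ := mem_iUnion₂.mp hz
            exact Or.inr (mem_iUnion₂.mpr ⟨L, hL, Or.inr h⟩)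
        · rintro z ((hz | hz) | hz)
          · exact Or.inl hz
          · by_cases hy : z ∈ Y
            · exact Or.inl hy
            · exact Or.inr (Or.inl ⟨interior_subset hz, hy⟩)
          · obtain ⟨L, hL, h | h⟩ := mem_iUnion₂.mp hz
            · exact Or.inl h
            · exact Or.inr (Or.inr (mem_iUnion₂.mpr ⟨L, hL, h⟩))
      rw [e]
      exact (hY.union isOpen_interior).union (isOpen_biUnion fun L _ => L.2.2.2)
  refine eq_empty_of_forall_notMem fun z hz => ?_
  have hz' : z ∉ fill Y := disjoint_left.mp hK.2.1 hz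
  exact hz' (hH.subset_fill (Or.inl ⟨interior_subset (hKN hz), fun h => hz' (subset_fill Y h)⟩))

theorem image_fill_subset {Y V W : Set ℂ} {A : ℂ → ℂ} (hV : fill Y ⊆ V) (hA : ContinuousOn A V)
    (ho : ∀ s ⊆ V, IsOpen s → IsOpen (A '' s)) (hW : IsOpen W) (hf : Full W)
    (h : MapsTo A Y W) : MapsTo A (fill Y) W := by
  intro z hz
  rcases mem_fill hz with h1 | ⟨K, hK, h1⟩
  · exact h h1
  have hKV : K ⊆ V := hK.subset_fill.trans hV
  have h2 : Hole W (A '' K \ W) := by
    refine ⟨(hK.1.image_of_continuousOn (hA.mono hKV)).diff hW, disjoint_sdiff_left, ?_⟩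
    have e : W ∪ (A '' K \ W) = W ∪ A '' (Y ∪ K) := by
      rw [union_sdiff_self, image_union, ← union_assoc, union_eq_left.mpr h.image_subset]
    rw [e]
    exact hW.union (ho _ (union_subset ((subset_fill Y).trans hV) hKV) hK.2.2)
  exact sdiff_eq_empty.mp (hf _ h2) (mem_image_of_mem A h1)

theorem fill_subset {Y W : Set ℂ} (hW : IsOpen W) (hf : Full W) (h : Y ⊆ W) : fill Y ⊆ W :=
  image_fill_subset (A := id) (subset_univ _) continuousOn_id (fun s _ hs => by simpa using hs)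
    hW hf h

theorem fill_mono {Y Y' : Set ℂ} (hY' : IsOpen Y') (h : Y ⊆ Y') : fill Y ⊆ fill Y' :=
  fill_subset (isOpen_fill hY') (full_fill hY') (h.trans (subset_fill _))

theorem Hole.exists_gt {Y K : Set ℂ} (h : Hole Y K) (hne : K.Nonempty) (a : ℂ) :
    ∃ y ∈ Y, ∃ q ∈ K, ‖q - a‖ < ‖y - a‖ ∧ ∀ z ∈ K, ‖z - a‖ ≤ ‖q - a‖ := by
  obtain ⟨q, hq, hmax⟩ := h.1.exists_isMaxOn hne (f := fun z => ‖z - a‖) (by fun_prop)
  have h1 : q ∈ closure (closedBall a ‖q - a‖)ᶜ := by
    rw [closure_compl, interior_closedBall']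
    simp [dist_eq_norm]
  obtain ⟨y, hy, hy'⟩ := mem_closure_iff_nhds.mp h1 _ (h.2.2.mem_nhds (Or.inr hq))
  have hlt : ‖q - a‖ < ‖y - a‖ := by simpa [dist_eq_norm] using hy'
  refine ⟨y, hy.resolve_right fun hyK => absurd (hmax hyK) (not_le.mpr hlt), q, hq, hlt, hmax⟩

theorem full_ball (a : ℂ) (r : ℝ) : Full (ball a r) := by
  intro K hK
  by_contra hne
  obtain ⟨y, hy, q, hq, hlt, -⟩ := hK.exists_gt (nonempty_iff_ne_empty.mpr hne) a
  refine disjoint_left.mp hK.2.1 hq ?_
  rw [mem_ball_iff_norm] at hy ⊢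
  linarith

theorem frontier_fill_subset {Y : Set ℂ} (hY : IsOpen Y) : frontier (fill Y) ⊆ frontier Y := by
  intro x hx
  rw [(isOpen_fill hY).frontier_eq] at hx
  rw [hY.frontier_eq]
  refine ⟨?_, fun h => hx.2 (subset_fill Y h)⟩
  by_contra hc
  obtain ⟨ε, hε, hb⟩ := Metric.isOpen_iff.mp isClosed_closure.isOpen_compl x hc
  obtain ⟨p, hp, hpf⟩ := mem_closure_iff_nhds.mp hx.1 _ (ball_mem_nhds x hε)
  have hbY : ∀ z ∈ ball x ε, z ∉ Y := fun z hz h => hb hz (subset_closure h)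
  rcases mem_fill hpf with h | ⟨K, hK, h⟩
  · exact hbY p hp h
  have h1 : ball x ε ⊆ Y ∪ K := (convex_ball x ε).isPreconnected.subset_left_of_subset_union
    (v := Kᶜ ∩ ball x ε) hK.2.2 (hK.1.isClosed.isOpen_compl.inter isOpen_ball)
    (disjoint_left.mpr fun z hz hz' => hz.elim (hbY z hz'.2) hz'.1)
    (fun z hz => by
      by_cases hzK : z ∈ K
      · exact Or.inl (Or.inr hzK)
      · exact Or.inr ⟨hzK, hz⟩) ⟨p, hp, Or.inr h⟩
  exact hx.2 (union_subset (subset_fill Y) hK.subset_fill (h1 (mem_ball_self hε)))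

theorem Hole.subset_of_inter {Y K S : Set ℂ} (h : Hole Y K) (hS : IsPreconnected S)
    (hd : Disjoint S Y) {p : ℂ} (hp : p ∈ S) (hpK : p ∈ K) : S ⊆ K := by
  rcases (isPreconnected_iff_subset_of_disjoint.mp hS) (Y ∪ K) Kᶜ h.2.2
    h.1.isClosed.isOpen_compl (fun z _ => by
      by_cases hz : z ∈ K
      · exact Or.inl (Or.inr hz)
      · exact Or.inr hz)
    (eq_empty_of_forall_notMem fun z hz =>
      hz.2.1.elim (disjoint_left.mp hd hz.1) hz.2.2) with h1 | h1
  · exact fun z hz => (h1 hz).resolve_left (disjoint_left.mp hd hz)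
  · exact absurd hpK (h1 hp)

/-- A connected set inside a hole of `Y` is dominated in norm by a point of `Y`. -/
theorem dominated {Y S : Set ℂ} (hS : IsPreconnected S) (hd : Disjoint S Y) {p : ℂ} (hp : p ∈ S)
    (hpf : p ∈ fill Y) : ∃ y ∈ Y, ∃ s < ‖y‖, ∀ z ∈ S, ‖z‖ ≤ s := by
  rcases mem_fill hpf with h | ⟨K, hK, h⟩
  · exact absurd h (disjoint_left.mp hd hp)
  obtain ⟨y, hy, q, -, hlt, hmax⟩ := hK.exists_gt ⟨p, h⟩ 0
  refine ⟨y, hy, ‖q‖, by simpa using hlt, fun z hz => ?_⟩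
  simpa using hmax z (hK.subset_of_inter hS hd hp h hz)

theorem rot_fill {Y : Set ℂ} (hY : IsOpen Y) (hc : IsPreconnected Y) {ω : ℂ} (hω : ‖ω‖ = 1)
    (hd : ∀ w ∈ Y, ω * w ∉ Y) : ∀ w ∈ fill Y, ω * w ∉ fill Y := by
  intro w hw hw'
  have hω0 : ω ≠ 0 := by rintro rfl; simp at hω
  rcases Y.eq_empty_or_nonempty with rfl | ⟨y, hy⟩
  · rcases mem_fill hw with h | ⟨K, hK, h⟩
    · exact h
    · have := eq_empty_of_isCompact_isOpen hK.1 (by simpa using hK.2.2)
      rw [this] at h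
      exact h
  have step : ∀ v : ℂ, ‖v‖ = 1 → (∀ w ∈ Y, v * w ∉ Y) → ∀ w ∈ Y, v * w ∉ fill Y := by
    intro v hv hvd w hw hw'
    obtain ⟨y, hy, s, hs, hle⟩ := dominated (S := (fun z => v * z) '' Y)
      (hc.image _ (by fun_prop)) (disjoint_left.mpr (by rintro _ ⟨z, hz, rfl⟩; exact hvd z hz))
      (mem_image_of_mem _ hw) hw'
    have := hle _ (mem_image_of_mem _ hy)
    rw [norm_mul, hv, one_mul] at this
    linarith
  have h1 := step ω hω hd
  have h2 := step ω⁻¹ (by rw [norm_inv, hω, inv_one]) fun z hz hz' =>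
    hd _ hz' (by rwa [mul_inv_cancel_left₀ hω0])
  have hS : IsPreconnected ((fun z => ω * z) '' fill Y) :=
    (isPreconnected_fill hc hy).image _ (by fun_prop)
  have hdis : Disjoint ((fun z => ω * z) '' fill Y) Y := disjoint_left.mpr (by
    rintro _ ⟨z, hz, rfl⟩ hz'
    exact h2 _ hz' (by rwa [inv_mul_cancel_left₀ hω0]))
  rcases mem_fill hw' with h | ⟨K, hK, h⟩
  · exact disjoint_left.mp hdis (mem_image_of_mem _ hw) h
  · exact h1 y hy (hK.subset_fill (hK.subset_of_inter hS hdis (mem_image_of_mem _ hw) h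
      (mem_image_of_mem _ (subset_fill Y hy))))

theorem exp_eq_one_norm {x : ℂ} (h : exp x = 1) (hx : ‖x‖ < 2) : x = 0 := by
  obtain ⟨m, rfl⟩ := exp_eq_one_iff.mp h
  by_contra hne
  have hm : m ≠ 0 := by rintro rfl; simp at hne
  have h1 : (1 : ℝ) ≤ |(m : ℝ)| := by exact_mod_cast Int.one_le_abs hm
  simp only [norm_mul, norm_intCast, norm_ofNat, norm_real, Real.norm_eq_abs, norm_I, mul_one,
    abs_of_pos Real.pi_pos] at hx
  nlinarith [Real.pi_gt_three]

theorem const_of_exp_eq_one {X : Type*} [TopologicalSpace X] {s : Set X} (hs : IsPreconnected s)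
    {d : X → ℂ} (hd : ContinuousOn d s) (h : ∀ x ∈ s, exp (d x) = 1) {x y : X} (hx : x ∈ s)
    (hy : y ∈ s) : d x = d y := by
  refine hs.constant_of_mapsTo (T := {u | exp u = 1}) ?_ hd h hx hy
  refine isDiscrete_iff_forall_exists_isOpen.mpr fun u hu => ⟨ball u 1, isOpen_ball, ?_⟩
  ext v
  simp only [mem_inter_iff, mem_ball_iff_norm, mem_ofPred_eq, mem_singleton_iff]
  refine ⟨fun hv => sub_eq_zero.mp (exp_eq_one_norm ?_ (by linarith [hv.1])), ?_⟩
  · rw [exp_sub, hv.2, show exp u = 1 from hu, div_one]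
  · rintro rfl
    exact ⟨by simp, hu⟩

/-- On a full bounded domain every `z - x` with `x` outside has a holomorphic logarithm. -/
theorem exists_log_of_full {W : Set ℂ} (hW : IsOpen W) (hc : IsPreconnected W) (hf : Full W)
    {x : ℂ} (hx : x ∉ W) : ∃ L : ℂ → ℂ, DifferentiableOn ℂ L W ∧ ∀ z ∈ W, exp (L z) = z - x := by
  rcases W.eq_empty_or_nonempty with rfl | ⟨z₀, hz₀⟩
  · exact ⟨0, differentiableOn_empty, by simp⟩
  let P : ℂ → (ℂ → ℂ) → Prop := fun z l => ContinuousOn l Wᶜ ∧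
    (∀ y ∈ Wᶜ, exp (l y) = (z - y) / (z₀ - y)) ∧ Tendsto l (cocompact ℂ ⊓ 𝓟 Wᶜ) (𝓝 0)
  have huniq : ∀ z ∈ W, ∀ l l', P z l → P z l' → ∀ y ∈ Wᶜ, l y = l' y := by
    intro z hz l l' hl hl'
    have hd : ContinuousOn (fun y => l y - l' y) Wᶜ := hl.1.sub hl'.1
    have he : ∀ y ∈ Wᶜ, exp (l y - l' y) = 1 := fun y hy => by
      rw [exp_sub, hl.2.1 y hy, hl'.2.1 y hy]
      refine div_self (div_ne_zero ?_ ?_) <;> exact sub_ne_zero.mpr (by rintro rfl; contradiction)
    have ht : ∀ᶠ y in cocompact ℂ ⊓ 𝓟 Wᶜ, ‖l y - l' y‖ < 1 := by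
      have := (hl.2.2.sub hl'.2.2).norm
      rw [sub_zero, norm_zero] at this
      exact this.eventually (gt_mem_nhds one_pos)
    rw [eventually_inf_principal, Filter.Eventually, mem_cocompact] at ht
    obtain ⟨C, hC, hCs⟩ := ht
    have hcl : IsClosed (Wᶜ ∩ (fun y => ‖l y - l' y‖) ⁻¹' Ici 1) :=
      hd.norm.preimage_isClosed_of_isClosed hW.isClosed_compl isClosed_Ici
    have hH : Hole W (Wᶜ ∩ (fun y => ‖l y - l' y‖) ⁻¹' Ici 1) := by
      refine ⟨hC.of_isClosed_subset hcl fun y hy => by_contra fun h => ?_,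
        disjoint_left.mpr fun y hy => hy.1, ?_⟩
      · exact absurd (hCs h hy.1) (not_lt.mpr hy.2)
      · have hcl' : IsClosed (Wᶜ ∩ (fun y => l y - l' y) ⁻¹' {0}) :=
          hd.preimage_isClosed_of_isClosed hW.isClosed_compl isClosed_singleton
        convert hcl'.isOpen_compl using 1
        ext y
        by_cases hy : y ∈ W
        · simp [hy]
        · simp only [mem_union, hy, mem_inter_iff, mem_compl_iff, not_false_eq_true, mem_preimage,
            mem_Ici, true_and, false_or, mem_singleton_iff]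
          refine ⟨fun h h0 => by rw [h0] at h; norm_num at h, fun h => by_contra fun h' => ?_⟩
          exact h (exp_eq_one_norm (he y hy) (by linarith))
    intro y hy
    by_contra hne
    have : y ∈ (Wᶜ ∩ (fun y => ‖l y - l' y‖) ⁻¹' Ici 1) := ⟨hy, by_contra fun h' =>
      hne (sub_eq_zero.mp (exp_eq_one_norm (he y hy) (by
        simp only [mem_preimage, mem_Ici, not_le] at h'; linarith)))⟩
    rw [hf _ hH] at this
    exact this
  have hslit : ∀ z z' y : ℂ, ‖z' - z‖ < ‖z - y‖ → (z' - y) / (z - y) ∈ slitPlane := by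
    intro z z' y h
    have h0 : z - y ≠ 0 := by rintro h0; rw [h0, norm_zero] at h; linarith [norm_nonneg (z' - z)]
    have e : (z' - y) / (z - y) = 1 + (z' - z) / (z - y) := by field_simp; ring
    rw [e]
    refine mem_slitPlane_of_norm_lt_one ?_
    rwa [norm_div, div_lt_one (norm_pos_iff.mpr h0)]
  have hstep : ∀ z z' : ℂ, (∀ y ∈ Wᶜ, ‖z' - z‖ < ‖z - y‖) → ∀ l, P z l →
      P z' fun y => l y + log ((z' - y) / (z - y)) := by
    intro z z' h l hl
    have h0 : ∀ y ∈ Wᶜ, z - y ≠ 0 := fun y hy h0 => by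
      have := h y hy; rw [h0, norm_zero] at this; linarith [norm_nonneg (z' - z)]
    refine ⟨hl.1.add (ContinuousOn.clog (ContinuousOn.div (by fun_prop) (by fun_prop) h0)
      fun y hy => hslit _ _ _ (h y hy)), fun y hy => ?_, ?_⟩
    · rw [exp_add, hl.2.1 y hy, exp_log (slitPlane_ne_zero (hslit _ _ _ (h y hy)))]
      have := h0 y hy
      field_simp
    · have h1 : Tendsto (fun y : ℂ => (z - y)⁻¹) (cocompact ℂ) (𝓝 0) := by
        rw [← Metric.cobounded_eq_cocompact]
        exact tendsto_inv₀_cobounded.comp (tendsto_const_sub_cobounded z)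
      have h2 : Tendsto (fun y : ℂ => log (1 + (z' - z) * (z - y)⁻¹)) (cocompact ℂ) (𝓝 0) := by
        have h3 : Tendsto (fun y : ℂ => 1 + (z' - z) * (z - y)⁻¹) (cocompact ℂ) (𝓝 1) := by
          simpa using (h1.const_mul (z' - z)).const_add 1
        simpa [Function.comp_def] using (continuousAt_clog one_mem_slitPlane).tendsto.comp h3
      have h4 := hl.2.2.add (h2.mono_left (inf_le_left (b := 𝓟 Wᶜ)))
      rw [add_zero] at h4
      refine h4.congr' (eventually_inf_principal.mpr (Eventually.of_forall fun y hy => ?_))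
      have := h0 y hy
      congr 2
      field_simp
      ring
  have hloc : ∀ z ∈ W, ∃ r > 0, ball z r ⊆ W ∧ ∀ z' ∈ ball z r, ∀ y ∈ Wᶜ,
      ‖z' - z‖ < ‖z - y‖ ∧ ‖z - z'‖ < ‖z' - y‖ := by
    intro z hz
    obtain ⟨r, hr, hb⟩ := Metric.isOpen_iff.mp hW z hz
    refine ⟨r / 2, by linarith, (ball_subset_ball (by linarith)).trans hb, fun z' hz' y hy => ?_⟩
    have h1 : r ≤ ‖z - y‖ := by
      by_contra h
      exact hy (hb (by rw [mem_ball_iff_norm, norm_sub_rev]; linarith))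
    rw [mem_ball_iff_norm] at hz'
    have h2 : ‖z - y‖ ≤ ‖z - z'‖ + ‖z' - y‖ := by simpa using norm_add_le (z - z') (z' - y)
    rw [norm_sub_rev z z'] at h2 ⊢
    constructor <;> linarith
  have hall : ∀ z ∈ W, ∃ l, P z l := by
    intro z hz
    refine hc.induction₂' (P := fun a b => (∃ l, P a l) → ∃ l, P b l) (fun a ha => ?_)
      (fun a b c _ _ _ h1 h2 h => h2 (h1 h)) hz₀ hz ⟨0, continuousOn_const, fun y hy => ?_, tendsto_const_nhds⟩
    · obtain ⟨r, hr, -, h⟩ := hloc a ha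
      filter_upwards [mem_nhdsWithin_of_mem_nhds (ball_mem_nhds a hr)] with b hb
      exact ⟨fun ⟨l, hl⟩ => ⟨_, hstep a b (fun y hy => (h b hb y hy).1) l hl⟩,
        fun ⟨l, hl⟩ => ⟨_, hstep b a (fun y hy => (h b hb y hy).2) l hl⟩⟩
    · rw [div_self (sub_ne_zero.mpr (by rintro rfl; contradiction))]
      simp
  choose! lam hlam using hall
  have hx0 : z₀ - x ≠ 0 := sub_ne_zero.mpr (by rintro rfl; contradiction)
  refine ⟨fun z => lam z x + log (z₀ - x), fun z hz => ?_, fun z hz => ?_⟩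
  · obtain ⟨r, hr, hb, h⟩ := hloc z hz
    have he : (fun z' => lam z' x) =ᶠ[𝓝 z] fun z' => lam z x + log ((z' - x) / (z - x)) := by
      filter_upwards [ball_mem_nhds z hr] with z' hz'
      exact huniq z' (hb hz') _ _ (hlam z' (hb hz'))
        (hstep z z' (fun y hy => (h z' hz' y hy).1) _ (hlam z hz)) x hx
    refine (DifferentiableAt.add_const _ (he.differentiableAt_iff.mpr ?_)).differentiableWithinAt
    exact (DifferentiableAt.clog (f := fun z' => (z' - x) / (z - x)) (by fun_prop)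
      (hslit z z x (h z (mem_ball_self hr) x hx).1)).const_add _
  · simp only
    rw [exp_add, (hlam z hz).2.1 x hx, exp_log hx0, div_mul_cancel₀ _ hx0]

theorem no_log {G : ℂ → ℂ} (hG : Continuous G) (h0 : ∀ z, G z ≠ 0) {q : ℂ} {R : ℝ} (hR : 0 < R)
    (h : ∀ z, ‖z - q‖ = R → G z = z - q) : False := by
  have hsc : IsSimplyConnected (univ : Set ℂ) := by
    have := (convex_univ (𝕜 := ℝ) (E := ℂ)).contractibleSpace ⟨0, trivial⟩
    exact SimplyConnectedSpace.ofContractible _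
  obtain ⟨l, hl, hle⟩ := exists_continuousOn_eqOn_exp_comp hsc isOpen_univ hG.continuousOn
    (by rintro ⟨z, -, hz⟩; exact h0 z hz)
  rw [continuousOn_univ] at hl
  have hR0 : (R : ℂ) ≠ 0 := by exact_mod_cast hR.ne'
  have := const_of_exp_eq_one (s := (univ : Set ℝ)) isPreconnected_univ
    (d := fun t => l (q + R * exp (t * I)) - (log R + t * I)) (by fun_prop) (fun t _ => by
      have h1 : exp (l (q + R * exp (t * I))) = G (q + R * exp (t * I)) := hle (mem_univ _)
      rw [exp_sub, h1, h _ (by simp [abs_of_pos hR]), exp_add, exp_log hR0, add_sub_cancel_left]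
      exact div_self (mul_ne_zero hR0 (exp_ne_zero _))) (mem_univ 0) (mem_univ (2 * Real.pi))
  simp only [ofReal_zero, zero_mul, Complex.exp_zero, ofReal_mul, ofReal_ofNat,
    exp_two_pi_mul_I] at this
  have h2 : (2 * Real.pi * I : ℂ) = 0 := by linear_combination this
  exact two_pi_I_ne_zero h2

/-- An open set on which all `z - q` with `q` outside have continuous logarithms is full. -/
theorem full_of_log {W : Set ℂ} (hW : IsOpen W)
    (h : ∀ q ∉ W, ∃ L : ℂ → ℂ, ContinuousOn L W ∧ ∀ z ∈ W, exp (L z) = z - q) : Full W := by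
  classical
  intro K hK
  by_contra hne
  obtain ⟨q, hq⟩ := nonempty_iff_ne_empty.mpr hne
  obtain ⟨L, hL, hLe⟩ := h q (disjoint_left.mp hK.2.1 hq)
  obtain ⟨N₂, hN₂, hKN₂, hN₂O⟩ := exists_compact_between hK.1 hK.2.2 subset_union_right
  obtain ⟨N₁, hN₁, hKN₁, hN₁₂⟩ := exists_compact_between hK.1 isOpen_interior hKN₂
  obtain ⟨κ, hκ1, hκ0, -, -⟩ := exists_continuous_one_zero_of_isCompact hN₁
    isOpen_interior.isClosed_compl (disjoint_left.mpr fun z hz hz' => hz' (hN₁₂ hz))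
  let G : ℂ → ℂ := fun z => if z ∈ interior N₁ then 1 else (z - q) * exp (-((κ z : ℂ) * L z))
  have hout : ∀ z ∉ N₂, G z = z - q := fun z hz => by
    have h1 : z ∉ interior N₂ := fun h => hz (interior_subset h)
    have h2 : κ z = 0 := hκ0 h1
    simp only [G, if_neg fun h => h1 (hN₁₂ (interior_subset h)), h2]
    simp
  obtain ⟨R, hR⟩ := hN₂.isBounded.subset_ball q
  have hR0 : 0 < R := by simpa using hR (interior_subset (hKN₂ hq))
  refine no_log (G := G) (continuous_iff_continuousAt.mpr fun z => ?_) (fun z => ?_) (q := q) hR0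
    fun z hz => hout z fun hz' => ?_
  · by_cases h1 : z ∈ interior N₁
    · refine (continuousAt_const (y := (1 : ℂ))).congr ?_
      filter_upwards [isOpen_interior.mem_nhds h1] with w hw
      simp only [G, if_pos hw]
    by_cases h2 : z ∈ W
    · have h3 : ContinuousAt (fun w => exp ((1 - (κ w : ℂ)) * L w)) z :=
        ((continuousAt_const.sub (continuous_ofReal.comp κ.continuous).continuousAt).mul
          (hL.continuousAt (hW.mem_nhds h2))).cexp
      refine h3.congr ?_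
      filter_upwards [hW.mem_nhds h2] with w hw
      by_cases h4 : w ∈ interior N₁
      · have : κ w = 1 := hκ1 (interior_subset h4)
        simp [G, if_pos h4, this]
      · simp only [G, if_neg h4]
        rw [← hLe w hw, ← exp_add]
        congr 1
        ring
    · have h3 : z ∉ N₂ := fun h => (hN₂O h).elim h2 fun h' => h1 (hKN₁ h')
      refine (show ContinuousAt (fun w => w - q) z by fun_prop).congr ?_
      filter_upwards [hN₂.isClosed.isOpen_compl.mem_nhds h3] with w hw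
      exact (hout w hw).symm
  · by_cases h1 : z ∈ interior N₁
    · simp [G, if_pos h1]
    · simp only [G, if_neg h1]
      exact mul_ne_zero (sub_ne_zero.mpr (by rintro rfl; exact h1 (hKN₁ hq))) (exp_ne_zero _)
  · have := hR hz'
    rw [mem_ball_iff_norm] at this
    linarith

end Pool.Agent.Lib.MP_c35c17_an.Q
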