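import Pool.Agent.Lib.MP_c35c17_an.QCap

set_option autoImplicit false

open Filter Topology Set Metric Complex MeasureTheory Polynomial
open scoped ComplexConjugate ENNReal

namespace Pool.Agent.Lib.MP_c35c17_an.Q

theorem exists_log_disc {g : ℂ → ℂ} (hg : DifferentiableOn ℂ g (ball 0 1))
    (h0 : ∀ z ∈ ball (0 : ℂ) 1, g z ≠ 0) :
    ∃ l : ℂ → ℂ, DifferentiableOn ℂ l (ball 0 1) ∧ ∀ z ∈ ball (0 : ℂ) 1, exp (l z) = g z := by
  have hd : DifferentiableOn ℂ (fun z => deriv g z / g z) (ball 0 1) :=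
    (hg.deriv isOpen_ball).div hg h0
  have h00 : (0 : ℂ) ∈ ball (0 : ℂ) 1 := mem_ball_self one_pos
  obtain ⟨l, hl0, hl⟩ := hd.isExactOn_ball.with_val_at 0 (log (g 0))
  refine ⟨l, fun z hz => (hl z hz).differentiableAt.differentiableWithinAt, fun z hz => ?_⟩
  have hc : ∀ w ∈ ball (0 : ℂ) 1, HasDerivAt (fun w => g w * exp (-l w)) 0 w := by
    intro w hw
    have h1 := (hg.differentiableAt (isOpen_ball.mem_nhds hw)).hasDerivAt.fun_mul
      (hl w hw).fun_neg.cexp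
    have h2 := h0 w hw
    have h3 : deriv g w * exp (-l w) + g w * (exp (-l w) * -(deriv g w / g w)) = 0 := by
      field_simp
      ring
    rwa [h3] at h1
  have h1 := (convex_ball (0 : ℂ) 1).norm_image_sub_le_of_norm_hasDerivWithin_le (C := 0)
    (fun w hw => (hc w hw).hasDerivWithinAt) (fun _ _ => by simp) h00 hz
  rw [zero_mul, norm_le_zero_iff, sub_eq_zero, hl0, exp_neg, exp_neg, exp_log (h0 0 h00),
    mul_inv_cancel₀ (h0 0 h00), mul_inv_eq_one₀ (exp_ne_zero _)] at h1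
  exact h1.symm

open Classical in
/-- The Blaschke factor of the domain. -/
noncomputable def bl (W : Set ℂ) (φ : ℂ → ℂ) (x z : ℂ) : ℂ := if x ∈ W then mob (φ x) (φ z) else 1

/-- Approach to the boundary of the domain. -/
noncomputable def bdry (W : Set ℂ) (φ : ℂ → ℂ) : Filter ℂ := comap (fun z => ‖φ z‖) (𝓝 1) ⊓ 𝓟 W

section
variable {W : Set ℂ} {φ ψ : ℂ → ℂ}

theorem Bihol.lt (h : Bihol φ ψ W (ball 0 1)) {z : ℂ} (hz : z ∈ W) : ‖φ z‖ < 1 :=
  mem_ball_zero_iff.mp (h.mφ hz)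

theorem Bihol.exists_sqrt (h : Bihol φ ψ W (ball 0 1)) {e : ℂ → ℂ} (he : DifferentiableOn ℂ e W)
    (h0 : ∀ z ∈ W, e z ≠ 0) : ∃ s : ℂ → ℂ, DifferentiableOn ℂ s W ∧ ∀ z ∈ W, s z ^ 2 = e z := by
  obtain ⟨l, hl, hle⟩ := exists_log_disc (he.comp h.dψ h.mψ) fun z hz => h0 _ (h.mψ hz)
  refine ⟨fun z => exp (l (φ z) / 2), ((hl.comp h.dφ h.mφ).div_const 2).cexp, fun z hz => ?_⟩
  rw [← exp_nat_mul, show ((2 : ℕ) : ℂ) * (l (φ z) / 2) = l (φ z) by push_cast; ring,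
    hle _ (h.mφ hz), Function.comp_apply, h.left z hz]

theorem Bihol.bl_le (h : Bihol φ ψ W (ball 0 1)) (x : ℂ) {z : ℂ} (hz : z ∈ W) :
    ‖bl W φ x z‖ ≤ 1 := by
  unfold bl
  split_ifs with hx
  · exact mob_le (h.lt hx) (h.lt hz).le
  · simp

theorem Bihol.bl_tendsto (h : Bihol φ ψ W (ball 0 1)) (x : ℂ) :
    Tendsto (fun z => ‖bl W φ x z‖) (bdry W φ) (𝓝 1) := by
  unfold bl
  split_ifs with hx
  swap
  · simpa using tendsto_const_nhds
  have ha := h.lt hx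
  have h1 : Tendsto (fun z => ‖φ z‖) (bdry W φ) (𝓝 1) := tendsto_comap.mono_left inf_le_left
  have h2 : Tendsto (fun z => 1 - (1 - ‖φ z‖ ^ 2) / (1 - ‖φ x‖) ^ 2) (bdry W φ) (𝓝 1) := by
    simpa using (((h1.pow 2).const_sub 1).div_const ((1 - ‖φ x‖) ^ 2)).const_sub 1
  have h3 : ∀ᶠ z in bdry W φ, z ∈ W := mem_inf_of_right (mem_principal_self W)
  refine tendsto_of_tendsto_of_tendsto_of_le_of_le' h2 tendsto_const_nhds (h3.mono fun z hz => ?_)
    (h3.mono fun z hz => mob_le ha (h.lt hz).le)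
  have hz1 := h.lt hz
  have h4 := mob_norm_sq ha hz1.le
  have h5 := mob_le ha hz1.le
  have h6 : (1 - ‖φ x‖ ^ 2) * (1 - ‖φ z‖ ^ 2) / ‖1 - conj (φ x) * φ z‖ ^ 2 ≤
      (1 - ‖φ z‖ ^ 2) / (1 - ‖φ x‖) ^ 2 := by
    have h7 := norm_nonneg (φ z)
    have h8 := norm_nonneg (φ x)
    refine div_le_div₀ (by nlinarith) (by nlinarith [mul_nonneg (sq_nonneg ‖φ x‖) (by nlinarith :
      0 ≤ 1 - ‖φ z‖ ^ 2)]) (by nlinarith) (pow_le_pow_left₀ (by linarith) ?_ 2)
    nlinarith [mob_den_norm (φ x) (φ z)]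
  nlinarith [norm_nonneg (mob (φ x) (φ z))]

theorem Bihol.fac (h : Bihol φ ψ W (ball 0 1)) (hW : IsOpen W) (x : ℂ) :
    ∃ e : ℂ → ℂ, DifferentiableOn ℂ e W ∧ ∀ z ∈ W, e z ≠ 0 ∧ z - x = bl W φ x z * e z := by
  unfold bl
  split_ifs with hx
  · have h0 : ∀ z ∈ W, dslope φ x z ≠ 0 := fun z hz => by
      rcases eq_or_ne z x with rfl | hne
      · rw [dslope_same]
        exact right_ne_zero_of_mul_eq_one (h.deriv_mul hW isOpen_ball hz)
      · rw [dslope_of_ne _ hne, slope_def_field]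
        exact div_ne_zero (sub_ne_zero.mpr fun e => hne (h.injOn hz hx e)) (sub_ne_zero.mpr hne)
    refine ⟨fun z => (1 - conj (φ x) * φ z) / dslope φ x z, DifferentiableOn.div
      ((h.dφ.const_mul _).const_sub 1) ((differentiableOn_dslope (hW.mem_nhds hx)).mpr h.dφ) h0,
      fun z hz => ?_⟩
    have h1 := mob_den_ne (h.lt hx) (h.lt hz).le
    refine ⟨div_ne_zero h1 (h0 z hz), ?_⟩
    have h2 := sub_smul_dslope φ x z
    rw [mob, ← h2, smul_eq_mul, div_mul_div_cancel₀ h1, mul_div_cancel_right₀ _ (h0 z hz)]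
  · exact ⟨fun z => z - x, by fun_prop, fun z hz =>
      ⟨sub_ne_zero.mpr (by rintro rfl; contradiction), by simp⟩⟩

theorem Bihol.fac_multiset (h : Bihol φ ψ W (ball 0 1)) (hW : IsOpen W) (s : Multiset ℂ) :
    ∃ e β : ℂ → ℂ, DifferentiableOn ℂ e W ∧ Tendsto (fun z => ‖β z‖) (bdry W φ) (𝓝 1) ∧
      ∀ z ∈ W, e z ≠ 0 ∧ ‖β z‖ ≤ 1 ∧ (s.map fun x => z - x).prod = β z * e z := by
  induction s using Multiset.induction_on with
  | empty => exact ⟨1, 1, differentiableOn_const _, by simpa using tendsto_const_nhds, by simp⟩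
  | cons x s ih =>
    obtain ⟨e, β, h1, h2, h3⟩ := ih
    obtain ⟨e', h4, h5⟩ := h.fac hW x
    refine ⟨fun z => e' z * e z, fun z => bl W φ x z * β z, h4.mul h1,
      by simpa using (h.bl_tendsto x).mul h2, fun z hz => ⟨mul_ne_zero (h5 z hz).1 (h3 z hz).1,
      ?_, ?_⟩⟩
    · rw [norm_mul]
      exact mul_le_one₀ (h.bl_le x hz) (norm_nonneg _) (h3 z hz).2.1
    · rw [Multiset.map_cons, Multiset.prod_cons, (h3 z hz).2.2, (h5 z hz).2]
      ring

theorem kappa_pos : 0 < ‖kappa‖ := norm_pos_iff.mpr kappa_spec.2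

theorem pompeiu_bound (hW : IsOpen W) (hb : Bornology.IsBounded W) {O : Set ℂ} {χ : ℂ → ℝ}
    (hχ : Cut χ (frontier W) O) {G B : ℂ → ℂ} (hG : DifferentiableOn ℂ G W) (hB : Measurable B)
    {x : ℂ} (hx : x ∈ W) (hxO : x ∉ O) (hle : ∀ z ∈ W ∩ O, ‖G z / (z - x)‖ ≤ 2 * √‖B z‖) :
    ENNReal.ofReal (‖kappa‖ * ‖G x‖) ≤ 4 * var χ B := by
  set u : ℂ → ℂ := W.indicator fun z => ((1 - χ z : ℝ) : ℂ) with hu
  have hin : ∀ z ∈ W, u =ᶠ[𝓝 z] fun z => ((1 - χ z : ℝ) : ℂ) := fun z hz =>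
    eventually_of_mem (hW.mem_nhds hz) fun w hw => indicator_of_mem hw _
  have hout : ∀ z ∉ W, u =ᶠ[𝓝 z] 0 := fun z hz => by
    by_cases h1 : z ∈ closure W
    · filter_upwards [hχ.one z (by rw [hW.frontier_eq]; exact ⟨h1, hz⟩)] with w hw
      by_cases h2 : w ∈ W
      · simp [hu, indicator_of_mem h2, hw]
      · simp [hu, indicator_of_notMem h2]
    · filter_upwards [isClosed_closure.isOpen_compl.mem_nhds h1] with w hw
      exact indicator_of_notMem (fun h => hw (subset_closure h)) _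
  have hsm : ContDiff ℝ 1 fun z => ((1 - χ z : ℝ) : ℂ) :=
    ofRealCLM.contDiff.comp (contDiff_const.sub hχ.smooth)
  have hs : tsupport u ⊆ W := fun z hz => by_contra fun h =>
    notMem_tsupport_iff_eventuallyEq.mpr (hout z h) hz
  obtain ⟨-, hcp⟩ := cauchy_pompeiu hW (χ := u) (contDiff_iff_contDiffAt.mpr fun z => by
      by_cases hz : z ∈ W
      · exact hsm.contDiffAt.congr_of_eventuallyEq (hin z hz)
      · exact contDiffAt_const.congr_of_eventuallyEq (hout z hz))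
    (Metric.isCompact_of_isClosed_isBounded isClosed_closure (hb.subset hs)) hs hG hx (by
      filter_upwards [hin x hx, notMem_tsupport_iff_eventuallyEq.mp fun h => hxO (hχ.supp h)]
        with w h1 h2
      simp [h1, h2])
  rw [← norm_mul, ← hcp, ofReal_norm, var, ← lintegral_const_mul _ (hχ.meas hB)]
  refine (enorm_integral_le_lintegral_enorm _).trans (lintegral_mono fun z => ?_)
  by_cases hz : z ∈ W
  swap
  · have : dbar u z = 0 := dbar_of_eventually_const (hout z hz)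
    simp [this]
  have h1 : fderiv ℝ u z = -(ofRealCLM.comp (fderiv ℝ χ z)) := by
    rw [(hin z hz).fderiv_eq]
    have := ofRealCLM.hasFDerivAt.comp z ((hχ.diff z).hasFDerivAt.const_sub 1)
    rw [show (fun z => ((1 - χ z : ℝ) : ℂ)) = ofRealCLM ∘ fun z => 1 - χ z from rfl, this.fderiv]
    simp
  have h2 : ‖dbar u z‖ ≤ 2 * ‖fderiv ℝ χ z‖ := by
    rw [dbar, h1]
    refine (norm_add_le _ _).trans ?_
    have h3 := (fderiv ℝ χ z).le_opNorm 1
    have h4 := (fderiv ℝ χ z).le_opNorm I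
    simp at h3 h4 ⊢
    linarith
  rw [← ofReal_norm, show (4 : ℝ≥0∞) = ENNReal.ofReal 4 by simp,
    ← ENNReal.ofReal_mul (by norm_num), norm_mul]
  refine ENNReal.ofReal_le_ofReal ?_
  by_cases hzO : z ∈ O
  · calc _ ≤ 2 * ‖fderiv ℝ χ z‖ * (2 * √‖B z‖) := by gcongr; exact hle z ⟨hz, hzO⟩
      _ = _ := by ring
  · rw [fderiv_zero_of_notMem fun h => hzO (hχ.supp h), norm_zero, mul_zero] at h2
    rw [norm_le_zero_iff.mp h2]
    simp
    positivity

/-- A disc with short boundary contains a second pole at moderate distance. -/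
theorem jensen (hW : IsOpen W) (hb : Bornology.IsBounded W) (h : Bihol φ ψ W (ball 0 1))
    {O : Finset ℂ} {x : ℂ} (hx : x ∈ O) (hxW : x ∈ W) (hφ : φ x = 0) {P : ℂ[X]}
    (hP : P.eval x = (∏ y ∈ O.erase x, (x - y)) ^ 2) {B : ℂ → ℂ} (hBm : Measurable B)
    (hB : ∀ w ∉ O, B w = P.eval w / (∏ y ∈ O, (w - y)) ^ 2) (hdis : ∀ y ∈ O, y ∉ frontier W)
    (hcap : CapLe (frontier W) B (‖kappa‖ / 16)) {k : ℕ} (hk : O.card ≤ k) :
    ∃ y ∈ O, y ∈ W ∧ y ≠ x ∧ ‖φ y‖ ≤ 1 - 1 / (2 * k) := by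
  by_contra hcon
  push Not at hcon
  have hk0 : (1 : ℝ) ≤ k := by exact_mod_cast (Finset.card_pos.mpr ⟨x, hx⟩).trans_le hk
  have hP0 : P ≠ 0 := by
    rintro rfl
    rw [eval_zero] at hP
    exact pow_ne_zero 2 (Finset.prod_ne_zero_iff.mpr fun y hy =>
      sub_ne_zero.mpr (Finset.ne_of_mem_erase hy).symm) hP.symm
  obtain ⟨e, β, he, hβ, heβ⟩ := h.fac_multiset hW P.roots
  obtain ⟨s, hs, hse⟩ := h.exists_sqrt (he.const_mul P.leadingCoeff)
    fun z hz => mul_ne_zero (leadingCoeff_ne_zero.mpr hP0) (heβ z hz).1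
  have hPe : ∀ z ∈ W, P.eval z = β z * s z ^ 2 := fun z hz => by
    rw [(IsAlgClosed.splits P).eval_eq_prod_roots, (heβ z hz).2.2, hse z hz]
    ring
  choose E hE hE' using h.fac hW
  have hE0 : ∀ z ∈ W, ∏ y ∈ O.erase x, E y z ≠ 0 := fun z hz =>
    Finset.prod_ne_zero_iff.mpr fun y _ => (hE' y z hz).1
  have hfac : ∀ z ∈ W, ∏ y ∈ O.erase x, (z - y) =
      (∏ y ∈ O.erase x, bl W φ y z) * ∏ y ∈ O.erase x, E y z := fun z hz => by
    rw [← Finset.prod_mul_distrib]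
    exact Finset.prod_congr rfl fun y _ => (hE' y z hz).2
  obtain ⟨r, hr1, hr⟩ : ∃ r < 1, ∀ z ∈ W, r < ‖φ z‖ → 1 / 4 < ‖β z‖ := by
    have h1 := hβ.eventually (lt_mem_nhds (by norm_num : (1 / 4 : ℝ) < 1))
    rw [bdry, eventually_inf_principal, eventually_comap, Metric.eventually_nhds_iff] at h1
    obtain ⟨ε, hε, h1⟩ := h1
    refine ⟨1 - ε, by linarith, fun z hz hz' => h1 ?_ z rfl hz⟩
    rw [Real.dist_eq, abs_lt]
    constructor <;> linarith [h.lt hz]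
  have hsub : closedBall (0 : ℂ) r ⊆ ball 0 1 := closedBall_subset_ball hr1
  have hK : IsCompact (ψ '' closedBall 0 r) :=
    (isCompact_closedBall 0 r).image_of_continuousOn (h.dψ.continuousOn.mono hsub)
  have hκ := kappa_pos
  obtain ⟨χ, hχ, hv⟩ := hcap ((ψ '' closedBall 0 r)ᶜ ∩ (O : Set ℂ)ᶜ)
    (hK.isClosed.isOpen_compl.inter O.finite_toSet.isClosed.isOpen_compl)
    (fun z hz => ⟨by
      rintro ⟨w, hw, rfl⟩
      rw [hW.frontier_eq] at hz
      exact hz.2 (h.mψ (hsub hw)), fun hO => hdis z hO hz⟩) (‖kappa‖ / 32) (by positivity)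
  have h1 := pompeiu_bound hW hb hχ (G := fun z => s z / ∏ y ∈ O.erase x, E y z)
    (hs.div (DifferentiableOn.fun_finsetProd fun y _ => hE y) hE0) hBm hxW (fun h => h.2 hx)
    (fun z hz => by
      have h2 : 1 / 4 < ‖β z‖ := hr z hz.1 (not_le.mp fun h' =>
        hz.2.1 ⟨φ z, mem_closedBall_zero_iff.mpr h', h.left z hz.1⟩)
      have h3 : z - x ≠ 0 := sub_ne_zero.mpr (by rintro rfl; exact hz.2.2 hx)
      have h4 : ∏ y ∈ O.erase x, bl W φ y z ≠ 0 := left_ne_zero_of_mul (hfac z hz.1 ▸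
        Finset.prod_ne_zero_iff.mpr fun y hy => sub_ne_zero.mpr (by
          rintro rfl; exact hz.2.2 (Finset.mem_of_mem_erase hy)))
      have h5 := hE0 z hz.1
      have h6 : β z * (s z / (∏ y ∈ O.erase x, E y z) / (z - x)) ^ 2 =
          B z * (∏ y ∈ O.erase x, bl W φ y z) ^ 2 := by
        rw [hB z hz.2.2, ← Finset.mul_prod_erase O _ hx, hfac z hz.1, hPe z hz.1]
        field_simp
      have h7 := congrArg norm h6
      rw [norm_mul, norm_mul, norm_pow, norm_pow] at h7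
      have h8 : ‖∏ y ∈ O.erase x, bl W φ y z‖ ≤ 1 := by
        rw [norm_prod]
        exact Finset.prod_le_one (fun _ _ => norm_nonneg _) fun y _ => h.bl_le y hz.1
      have h9 : ‖∏ y ∈ O.erase x, bl W φ y z‖ ^ 2 ≤ 1 := pow_le_one₀ (norm_nonneg _) h8
      rw [show 2 * √‖B z‖ = √(4 * ‖B z‖) by
        rw [Real.sqrt_mul (by norm_num), show (4 : ℝ) = 2 ^ 2 by norm_num, Real.sqrt_sq zero_le_two]]
      refine Real.le_sqrt_of_sq_le ?_
      nlinarith [norm_nonneg (B z), sq_nonneg ‖s z / (∏ y ∈ O.erase x, E y z) / (z - x)‖])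
  have h2 : 1 / 2 ≤ ‖∏ y ∈ O.erase x, bl W φ y x‖ := by
    rw [norm_prod]
    have h3 : 0 ≤ 1 - 1 / (2 * (k : ℝ)) := by
      rw [sub_nonneg, div_le_one (by linarith)]; linarith
    calc (1 / 2 : ℝ) = 1 + k * (-(1 / (2 * k))) := by field_simp; ring
      _ ≤ (1 - 1 / (2 * k)) ^ k := one_add_mul_le_pow (by linarith) k
      _ ≤ (1 - 1 / (2 * k)) ^ (O.erase x).card := pow_le_pow_of_le_one h3
          (by have : (0 : ℝ) ≤ 1 / (2 * k) := by positivity
              linarith) (Finset.card_erase_le.trans hk)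
      _ = ∏ y ∈ O.erase x, (1 - 1 / (2 * (k : ℝ))) := by simp
      _ ≤ _ := Finset.prod_le_prod (fun _ _ => h3) fun y hy => by
          unfold bl
          split_ifs with hyW
          · rw [hφ, mob_zero, norm_neg]
            exact (hcon y (Finset.mem_of_mem_erase hy) hyW (Finset.ne_of_mem_erase hy)).le
          · have : (0 : ℝ) ≤ 1 / (2 * k) := by positivity
            rw [norm_one]; linarith
  have h3 : 1 / 2 ≤ ‖s x / ∏ y ∈ O.erase x, E y x‖ := by
    have h5 := hE0 x hxW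
    have h4 : β x * (s x / ∏ y ∈ O.erase x, E y x) ^ 2 = (∏ y ∈ O.erase x, bl W φ y x) ^ 2 := by
      have := hPe x hxW
      rw [hP, hfac x hxW] at this
      field_simp
      linear_combination -this
    have h7 := congrArg norm h4
    rw [norm_mul, norm_pow, norm_pow] at h7
    have h8 := (heβ x hxW).2.1
    refine le_of_sq_le_sq ?_ (norm_nonneg _) |>.trans le_rfl
    nlinarith [sq_nonneg ‖s x / ∏ y ∈ O.erase x, E y x‖]
  have h4 := h1.trans (mul_le_mul_right hv 4)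
  rw [show (4 : ℝ≥0∞) = ENNReal.ofReal 4 by simp, ← ENNReal.ofReal_mul (by norm_num),
    ENNReal.ofReal_le_ofReal_iff (by positivity)] at h4
  nlinarith

end

end Pool.Agent.Lib.MP_c35c17_an.Q
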