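import Pool.Agent.Lib.MP_c35c17_an.QCap

set_option autoImplicit false

open Filter Topology Set Metric Complex MeasureTheory Polynomial
open scoped ComplexConjugate ENNReal

namespace Pool.Agent.Lib.MP_c35c17_an.Q

theorem area_mult {U A : Set ℂ} (hU : IsOpen U) {F : ℂ → ℂ} (hd : DifferentiableOn ℂ F U)
    (hA : MeasurableSet A) (hAU : A ⊆ U) {N : ℕ}
    (hN : ∀ u, ∀ s : Finset ℂ, (∀ w ∈ s, w ∈ U ∧ F w = u ∧ deriv F w ≠ 0) → s.card ≤ N)
    {V : Set ℂ} (hV : MeasurableSet V) (hAV : MapsTo F A V) :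
    ∫⁻ w in A, ENNReal.ofReal (‖deriv F w‖ ^ 2) ≤ N * volume V := by
  classical
  have h : ∀ x, ∃ T : Set ℂ, IsOpen T ∧ InjOn F T ∧ (x ∈ U ∧ deriv F x ≠ 0 → x ∈ T) := by
    intro x
    by_cases hx : x ∈ U ∧ deriv F x ≠ 0
    · have h1 := ((hd.analyticAt (hU.mem_nhds hx.1)).hasStrictDerivAt.hasStrictFDerivAt_equiv hx.2)
      exact ⟨_, (h1.toOpenPartialHomeomorph F).open_source, (h1.toOpenPartialHomeomorph F).injOn,
        fun _ => h1.mem_toOpenPartialHomeomorph_source⟩
    · exact ⟨∅, isOpen_empty, injOn_empty _, fun h => absurd h hx⟩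
  choose T hTo hTi hTm using h
  set A' := A ∩ {w | deriv F w ≠ 0} with hA'
  have hA'm : MeasurableSet A' := hA.inter ((measurable_deriv F) (measurableSet_singleton 0)).compl
  obtain ⟨t, -, htc, ht⟩ := TopologicalSpace.countable_cover_nhdsWithin (s := A') (f := T)
    (fun x hx => mem_nhdsWithin_of_mem_nhds ((hTo x).mem_nhds (hTm x ⟨hAU hx.1, hx.2⟩)))
  let S : ℕ → Set ℂ := fun i => T (enumerateCountable htc 0 i)
  let P : ℕ → Set ℂ := fun i => A' ∩ disjointed S i
  have hPm : ∀ i, MeasurableSet (P i) := fun i =>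
    hA'm.inter (MeasurableSet.disjointed (fun i => (hTo _).measurableSet) i)
  have hPd : Pairwise (Function.onFun Disjoint P) := fun i j hij =>
    (disjoint_disjointed S hij).mono inter_subset_right inter_subset_right
  have hPi : ∀ i, InjOn F (P i) := fun i =>
    (hTi _).mono (inter_subset_right.trans (disjointed_subset S i))
  have hPU : ⋃ i, P i = A' := by
    simp only [P, ← inter_iUnion, iUnion_disjointed]
    refine inter_eq_left.2 fun x hx => ?_
    obtain ⟨a, ha, hxa⟩ := mem_iUnion₂.1 (ht hx)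
    obtain ⟨i, rfl⟩ := subset_range_enumerate htc 0 ha
    exact mem_iUnion.2 ⟨i, hxa⟩
  have hder : ∀ i, ∀ z ∈ P i, HasDerivAt F (deriv F z) z := fun i z hz =>
    (hd.differentiableAt (hU.mem_nhds (hAU hz.1.1))).hasDerivAt
  have hIm : ∀ i, MeasurableSet (F '' P i) := fun i =>
    measurable_image_of_fderivWithin (hPm i) (fun z hz =>
      ((hder i z hz).hasFDerivAt.restrictScalars ℝ).hasFDerivWithinAt) (hPi i)
  calc ∫⁻ w in A, ENNReal.ofReal (‖deriv F w‖ ^ 2)
      = ∫⁻ w in A', ENNReal.ofReal (‖deriv F w‖ ^ 2) := by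
        rw [← lintegral_inter_add_sdiff _ A
          ((measurable_deriv F) (measurableSet_singleton 0)).compl, setLIntegral_eq_zero
          (hA.diff ((measurable_deriv F) (measurableSet_singleton 0)).compl) fun w hw => by
            simp [show deriv F w = 0 by simpa using hw.2], add_zero]
        rfl
    _ = ∑' i, ∫⁻ u, (F '' P i).indicator 1 u := by
        rw [← hPU, lintegral_iUnion hPm hPd]
        refine tsum_congr fun i => ?_
        rw [lintegral_indicator (hIm i), lintegral_image_holo' (hPm i) (hder i) (hPi i)]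
        simp
    _ = ∫⁻ u, ∑' i, (F '' P i).indicator 1 u :=
        (lintegral_tsum fun i => (measurable_one.indicator (hIm i)).aemeasurable).symm
    _ ≤ ∫⁻ u, V.indicator (fun _ => (N : ℝ≥0∞)) u := by
        refine lintegral_mono fun u => ?_
        by_cases hu : u ∈ V
        swap
        · have : ∀ i, u ∉ F '' P i := fun i ⟨w, hw, e⟩ => hu (e ▸ hAV hw.1.1)
          simp [indicator_of_notMem (this _)]
        rw [indicator_of_mem hu, ENNReal.tsum_eq_iSup_sum]
        refine iSup_le fun s => ?_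
        have h1 : ∀ i, ∃ w, u ∈ F '' P i → w ∈ P i ∧ F w = u := fun i => by
          by_cases h : u ∈ F '' P i
          · obtain ⟨w, hw⟩ := h
            exact ⟨w, fun _ => hw⟩
          · exact ⟨0, fun h' => absurd h' h⟩
        choose w hw using h1
        have h2 := hN u ((s.filter fun i => u ∈ F '' P i).image w) (by
          intro z hz
          obtain ⟨i, hi, rfl⟩ := Finset.mem_image.mp hz
          have := hw i (Finset.mem_filter.mp hi).2
          exact ⟨hAU this.1.1.1, this.2, this.1.1.2⟩)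
        rw [Finset.card_image_of_injOn fun i hi j hj e => by_contra fun hij =>
          disjoint_left.mp (hPd hij) (hw i (Finset.mem_filter.mp hi).2).1
            (by rw [show w i = w j from e]; exact (hw j (Finset.mem_filter.mp hj).2).1)] at h2
        simp only [indicator_apply, Pi.one_apply, Finset.sum_boole]
        exact_mod_cast h2
    _ = N * volume V := lintegral_indicator_const hV _

theorem poly_mult {p q : ℂ[X]} {N : ℕ} (hp : p.natDegree ≤ N) (hq : q.natDegree ≤ N) (u : ℂ)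
    (s : Finset ℂ) (h : ∀ w ∈ s, w ∈ {w | q.eval w ≠ 0} ∧ p.eval w / q.eval w = u ∧
      deriv (fun w => p.eval w / q.eval w) w ≠ 0) : s.card ≤ N := by
  classical
  rcases s.eq_empty_or_nonempty with rfl | ⟨w, hw⟩
  · simp
  have h0 : p - C u * q ≠ 0 := by
    intro h0
    refine (h w hw).2.2 ?_
    have : (fun w => p.eval w / q.eval w) =ᶠ[𝓝 w] fun _ => u := by
      filter_upwards [q.continuous.continuousAt.eventually_ne (h w hw).1] with z hz
      rw [sub_eq_zero.mp h0, eval_mul, eval_C, mul_div_cancel_right₀ _ hz]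
    rw [this.deriv_eq, deriv_const]
  refine (Finset.card_le_card (t := (p - C u * q).roots.toFinset) fun z hz => ?_).trans
    ((Multiset.toFinset_card_le _).trans ((card_roots' _).trans ((natDegree_sub_le _ _).trans
      (max_le hp ((natDegree_C_mul_le _ _).trans hq)))))
  rw [Multiset.mem_toFinset, mem_roots h0, IsRoot, eval_sub, eval_mul, eval_C, ← (h z hz).2.1,
    div_mul_cancel₀ _ (h z hz).1, sub_self]

/-- A fixed bump function on the line. -/
noncomputable def bump : ContDiffBump (0 : ℝ) := ⟨1 / 2, 1, by norm_num, by norm_num⟩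

theorem exists_bumpC : ∃ C : ℝ, 1 ≤ C ∧ ∀ s, ‖deriv bump s‖ ≤ C := by
  obtain ⟨C, hC⟩ := ((bump.contDiff (n := 1)).continuous_deriv le_rfl).bounded_above_of_compact_support
    bump.hasCompactSupport.deriv
  exact ⟨max 1 C, le_max_left _ _, fun s => (hC s).trans (le_max_right _ _)⟩

/-- A bound for the derivative of the bump. -/
noncomputable def bumpC : ℝ := exists_bumpC.choose

theorem bumpC_spec : 1 ≤ bumpC ∧ ∀ s, ‖deriv bump s‖ ≤ bumpC := exists_bumpC.choose_spec

theorem exists_density (ν : Measure ℝ) [IsFiniteMeasure ν] {a b : ℝ} (hab : a < b) {S : Set ℝ}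
    (hS : S.Countable) {m : ℝ} (hm : 0 ≤ m) (hν : ν univ ≤ ENNReal.ofReal m) :
    ∃ τ ∈ Ioo a b, τ ∉ S ∧ ∀ η > 0, ∀ᶠ ε in 𝓝[>] (0 : ℝ),
      ν (closedBall τ ε) ≤ ENNReal.ofReal (2 * ε * (m / (b - a) + η)) := by
  have h1 := measure_le_setLAverage_pos (μ := volume) (s := Ioo a b) (f := ν.rnDeriv volume)
    (by simpa using hab) (by simp) (Measure.measurable_rnDeriv _ _).aemeasurable
  obtain ⟨τ, ⟨h2, h3⟩, h4, h5⟩ := (Measure.exists_mem_of_measure_ne_zero_of_ae h1.ne'
    (ae_restrict_of_ae ((Besicovitch.ae_tendsto_rnDeriv ν volume).and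
      (compl_mem_ae_iff.mpr (hS.measure_zero volume)))))
  refine ⟨τ, h2, h5, fun η hη => ?_⟩
  have h6 : ν.rnDeriv volume τ < ENNReal.ofReal (m / (b - a) + η) := by
    have := sub_pos.mpr hab
    refine (h3.trans ?_).trans_lt (ENNReal.ofReal_lt_ofReal_iff (p := m / (b - a))
      (by positivity) |>.mpr (by linarith))
    rw [setLAverage_eq, Real.volume_Ioo, ENNReal.ofReal_div_of_pos this]
    exact ENNReal.div_le_div_right (((Measure.setLIntegral_rnDeriv_le _).trans
      (measure_mono (subset_univ _))).trans hν) _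
  filter_upwards [h4.eventually (gt_mem_nhds h6), self_mem_nhdsWithin] with ε h7 hε
  have hε' : 0 < 2 * ε := by have : 0 < ε := hε; linarith
  rw [Real.volume_closedBall, ENNReal.div_lt_iff (Or.inl (by simpa using hε))
    (Or.inl ENNReal.ofReal_ne_top)] at h7
  rw [ENNReal.ofReal_mul hε'.le, mul_comm]
  exact h7.le

theorem short_level {p q : ℂ[X]} (hpq : IsCoprime p q) {N : ℕ} (hp : p.natDegree ≤ N)
    (hq : q.natDegree ≤ N) {t₁ t₂ : ℝ} (h₁ : 0 < t₁) (h₁₂ : t₁ < t₂) {B : ℂ → ℂ}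
    (hB : Measurable B) {m : ℝ} (hm : 0 ≤ m)
    (hZ : {w | t₁ < ‖p.eval w / q.eval w‖ ∧ ‖p.eval w / q.eval w‖ < t₂} ⊆ ball 0 4)
    (hZm : ∫⁻ w in {w | t₁ < ‖p.eval w / q.eval w‖ ∧ ‖p.eval w / q.eval w‖ < t₂}, ‖B w‖ₑ ≤
      ENNReal.ofReal m) {x : ℝ} (hx : 0 < x) :
    ∃ t ∈ Ioo t₁ t₂, volume {w | ‖p.eval w‖ = t * ‖q.eval w‖} = 0 ∧
      CapLe {w | ‖p.eval w‖ = t * ‖q.eval w‖} B (8 * bumpC * (N * x + t₂ * m / ((t₂ - t₁) * x))) := by
  set R : ℂ → ℂ := fun w => p.eval w / q.eval w with hR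
  set Z := {w | t₁ < ‖R w‖ ∧ ‖R w‖ < t₂} with hZdef
  have h₂ : 0 < t₂ := h₁.trans h₁₂
  have hC := bumpC_spec.1
  have hno : ∀ w, q.eval w = 0 → p.eval w ≠ 0 := fun w h1 h2 => by
    obtain ⟨a, b, hab⟩ := hpq
    have := congrArg (eval w) hab
    simp [h1, h2] at this
  have hRm : Measurable R := p.continuous.measurable.div q.continuous.measurable
  have hZM : MeasurableSet Z :=
    (measurableSet_lt measurable_const hRm.norm).inter (measurableSet_lt hRm.norm measurable_const)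
  have hUo : IsOpen {w | q.eval w ≠ 0} := isOpen_ne_fun q.continuous continuous_const
  have hRd : DifferentiableOn ℂ R {w | q.eval w ≠ 0} :=
    p.differentiable.differentiableOn.div q.differentiable.differentiableOn fun _ h => h
  have hq0 : ∀ w, 0 < ‖R w‖ → q.eval w ≠ 0 := fun w hw h => by simp [hR, h] at hw
  have hℓ : 0 < t₂ ^ 2 - t₁ ^ 2 := by nlinarith
  have hE : ∫⁻ w in Z, ENNReal.ofReal (‖deriv R w‖ ^ 2) ≤
      ENNReal.ofReal (N * (4 * (t₂ ^ 2 - t₁ ^ 2))) := by
    refine (area_mult hUo hRd hZM (fun w hw => hq0 w (h₁.trans hw.1)) (poly_mult hp hq)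
      (V := ball 0 t₂ \ ball 0 t₁) (measurableSet_ball.diff measurableSet_ball)
      (fun w hw => ⟨mem_ball_zero_iff.mpr hw.2,
        fun h => absurd (mem_ball_zero_iff.mp h) (not_lt.mpr hw.1.le)⟩)).trans ?_
    rw [measure_sdiff (ball_subset_ball h₁₂.le) measurableSet_ball.nullMeasurableSet
      measure_ball_lt_top.ne, Complex.volume_ball, Complex.volume_ball,
      ENNReal.ofReal_mul (Nat.cast_nonneg N), ENNReal.ofReal_natCast]
    refine mul_le_mul_right ?_ _
    rw [← ENNReal.ofReal_pow h₁.le, ← ENNReal.ofReal_pow h₂.le, ← ENNReal.ofReal_coe_nnreal,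
      ← ENNReal.ofReal_mul (by positivity), ← ENNReal.ofReal_mul (by positivity),
      ← ENNReal.ofReal_sub _ (by positivity)]
    refine ENNReal.ofReal_le_ofReal ?_
    rw [NNReal.coe_real_pi]
    nlinarith [Real.pi_le_four]
  set dens : ℂ → ℝ≥0∞ := fun w => ENNReal.ofReal (2 * t₂ * ‖deriv R w‖ * √‖B w‖) with hdens
  have hdm : Measurable dens :=
    (((measurable_deriv R).norm.const_mul _).mul hB.norm.sqrt).ennreal_ofReal
  have hUm : Measurable fun w => ‖R w‖ ^ 2 := hRm.norm.pow_const 2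
  set ν : Measure ℝ := Measure.map (fun w => ‖R w‖ ^ 2) ((volume.restrict Z).withDensity dens)
  have hν : ν univ ≤ ENNReal.ofReal (x * (N * (4 * (t₂ ^ 2 - t₁ ^ 2))) + t₂ ^ 2 / x * m) := by
    rw [Measure.map_apply hUm MeasurableSet.univ, preimage_univ,
      withDensity_apply _ MeasurableSet.univ, Measure.restrict_univ]
    calc _ ≤ ∫⁻ w in Z, ENNReal.ofReal x * ENNReal.ofReal (‖deriv R w‖ ^ 2) +
          ENNReal.ofReal (t₂ ^ 2 / x) * ‖B w‖ₑ := by
          refine lintegral_mono fun w => ?_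
          rw [← ofReal_norm, ← ENNReal.ofReal_mul hx.le, ← ENNReal.ofReal_mul (by positivity),
            ← ENNReal.ofReal_add (by positivity) (by positivity)]
          refine ENNReal.ofReal_le_ofReal ?_
          have h1 := Real.sq_sqrt (norm_nonneg (B w))
          have h2 : t₂ ^ 2 / x * ‖B w‖ = x * (t₂ * √‖B w‖ / x) ^ 2 := by
            rw [div_pow, mul_pow, h1]; field_simp
          have h3 : 2 * t₂ * ‖deriv R w‖ * √‖B w‖ = x * (2 * ‖deriv R w‖ * (t₂ * √‖B w‖ / x)) := by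
            field_simp
          rw [h2, h3, ← mul_add]
          exact mul_le_mul_of_nonneg_left (two_mul_le_add_sq _ _) hx.le
      _ ≤ _ := by
          rw [lintegral_add_right _ (hB.enorm.const_mul _), lintegral_const_mul _ hB.enorm,
            lintegral_const_mul _ ((measurable_deriv R).norm.pow_const 2).ennreal_ofReal,
            ENNReal.ofReal_add (by positivity) (by positivity), ENNReal.ofReal_mul hx.le,
            ENNReal.ofReal_mul (by positivity : 0 ≤ t₂ ^ 2 / x)]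
          exact add_le_add (mul_le_mul_right hE _) (mul_le_mul_right hZm _)
  have : IsFiniteMeasure ν := ⟨hν.trans_lt ENNReal.ofReal_lt_top⟩
  obtain ⟨τ, hτ, hτS, hτd⟩ := exists_density ν (sub_pos.mp hℓ)
    (Measure.countable_meas_level_set_pos (μ := volume) hUm) (by positivity) hν
  have hτ0 : 0 < τ := (pow_pos h₁ 2).trans hτ.1
  have hlev : ∀ w, ‖p.eval w‖ = √τ * ‖q.eval w‖ → q.eval w ≠ 0 ∧ ‖R w‖ ^ 2 = τ := fun w hw => by
    have h1 : q.eval w ≠ 0 := fun h => hno w h (by simpa [h] using hw)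
    refine ⟨h1, ?_⟩
    rw [hR, norm_div, hw, mul_div_cancel_right₀ _ (norm_ne_zero_iff.mpr h1), Real.sq_sqrt hτ0.le]
  refine ⟨√τ, ⟨Real.lt_sqrt_of_sq_lt hτ.1, (Real.sqrt_lt' h₂).mpr hτ.2⟩,
    measure_mono_null (t := {a | ‖R a‖ ^ 2 = τ}) (fun w hw => (hlev w hw).2)
      (nonpos_iff_eq_zero.mp (not_lt.mp hτS)), fun O hO hΓ η hη => ?_⟩
  set K : ℝ → Set ℂ := fun ε => {w | (τ - ε) * ‖q.eval w‖ ^ 2 ≤ ‖p.eval w‖ ^ 2} ∩
    {w | ‖p.eval w‖ ^ 2 ≤ (τ + ε) * ‖q.eval w‖ ^ 2} with hK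
  have hKc : ∀ ε, IsClosed (K ε) := fun ε =>
    (isClosed_le (by fun_prop) (by fun_prop)).inter (isClosed_le (by fun_prop) (by fun_prop))
  have hKq : ∀ ε, ∀ w ∈ K ε, q.eval w ≠ 0 := fun ε w hw h =>
    hno w h (by simpa [h] using hw.2)
  have hKiff : ∀ ε w, q.eval w ≠ 0 → (w ∈ K ε ↔ |‖R w‖ ^ 2 - τ| ≤ ε) := fun ε w hw => by
    have := pow_pos (norm_pos_iff.mpr hw) 2
    rw [abs_le, hR, norm_div, div_pow, le_sub_iff_add_le, sub_le_iff_le_add, le_div_iff₀ this,
      div_le_iff₀ this, add_comm ε, neg_add_eq_sub]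
    rfl
  obtain ⟨ε₀, hε₀, hε₁, hε₂⟩ : ∃ ε₀ > 0, t₁ ^ 2 < τ - ε₀ ∧ τ + ε₀ < t₂ ^ 2 :=
    ⟨min (τ - t₁ ^ 2) (t₂ ^ 2 - τ) / 2, by have := hτ.1; have := hτ.2; positivity,
      by linarith [min_le_left (τ - t₁ ^ 2) (t₂ ^ 2 - τ), hτ.1],
      by linarith [min_le_right (τ - t₁ ^ 2) (t₂ ^ 2 - τ), hτ.2]⟩
  have hinZ : ∀ w, |‖R w‖ ^ 2 - τ| ≤ ε₀ → w ∈ Z := fun w hw => by
    rw [abs_le] at hw
    exact ⟨lt_of_pow_lt_pow_left₀ 2 (norm_nonneg _) (by linarith),
      lt_of_pow_lt_pow_left₀ 2 h₂.le (by linarith)⟩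
  have hK0 : IsCompact (K ε₀) := Metric.isCompact_of_isClosed_isBounded (hKc _)
    (isBounded_ball.subset fun w hw => hZ (hinZ w ((hKiff _ w (hKq _ w hw)).mp hw)))
  have hRc : ∀ w, q.eval w ≠ 0 → ContinuousAt (fun w => ‖R w‖ ^ 2) w := fun w hw =>
    (hRd.differentiableAt (hUo.mem_nhds hw)).continuousAt.norm.pow 2
  obtain ⟨a, ha, haO⟩ := (hK0.diff hO).exists_forall_le' (f := fun w => |‖R w‖ ^ 2 - τ|) (a := 0)
    (fun w hw => ((hRc w (hKq _ w hw.1)).sub continuousAt_const).abs.continuousWithinAt)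
    (fun w hw => abs_pos.mpr fun h => hw.2 (hΓ (by
      have h1 := hKq _ w hw.1
      rw [mem_ofPred_eq, ← sub_eq_zero.mp h, Real.sqrt_sq (norm_nonneg _), hR, norm_div,
        div_mul_cancel₀ _ (norm_ne_zero_iff.mpr h1)])))
  obtain ⟨ε, hνε, hε⟩ := ((hτd (η / (2 * bumpC)) (by positivity)).and
    (Ioo_mem_nhdsGT (lt_min ha hε₀))).exists
  obtain ⟨hε0, hεa, hεε⟩ : 0 < ε ∧ ε < a ∧ ε < ε₀ := ⟨hε.1, lt_min_iff.mp hε.2⟩
  set χ : ℂ → ℝ := fun w => bump ((‖R w‖ ^ 2 - τ) / ε) with hχ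
  have hχ0 : ∀ w, ε ≤ |‖R w‖ ^ 2 - τ| → χ w = 0 := fun w hw => bump.zero_of_le_dist (by
    rw [dist_zero_right, Real.norm_eq_abs, abs_div, abs_of_pos hε0, le_div_iff₀ hε0]
    simpa [bump] using hw)
  have hs : tsupport χ ⊆ K ε := closure_minimal (fun w hw => by
    have h1 : |‖R w‖ ^ 2 - τ| ≤ ε := (not_le.mp fun h => hw (hχ0 w h)).le
    exact (hKiff _ w (hq0 w (h₁.trans (hinZ w (h1.trans hεε.le)).1))).mpr h1) (hKc ε)
  have hKK : K ε ⊆ K ε₀ := fun w hw =>
    (hKiff _ w (hKq _ w hw)).mpr (((hKiff _ w (hKq _ w hw)).mp hw).trans hεε.le)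
  refine ⟨χ, ⟨contDiff_iff_contDiffAt.mpr fun w => ?_,
    hK0.of_isClosed_subset isClosed_closure (hs.trans hKK), fun w hw => by_contra fun h => ?_,
    fun w => ⟨bump.nonneg, bump.le_one⟩, fun w hw => ?_⟩, ?_⟩
  · by_cases hw : q.eval w = 0
    · exact contDiffAt_const.congr_of_eventuallyEq (notMem_tsupport_iff_eventuallyEq.mp
        fun h => hKq _ w (hs h) hw)
    · exact bump.contDiffAt.comp w ((((hRd.analyticAt (hUo.mem_nhds hw)).contDiffAt.restrict_scalars
        ℝ).norm_sq ℂ |>.sub contDiffAt_const).div_const ε)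
  · have h1 := haO w ⟨hKK (hs hw), h⟩
    have h2 := (hKiff _ w (hKq _ w (hs hw))).mp (hs hw)
    linarith
  · obtain ⟨h1, h2⟩ := hlev w hw
    have h3 := (((hRc w h1).sub (continuousAt_const (y := τ))).div_const ε).tendsto
    simp only [Pi.sub_apply, h2, sub_self, zero_div] at h3
    exact h3.eventually bump.eventuallyEq_one
  calc var χ B ≤ ∫⁻ w, (((fun w => ‖R w‖ ^ 2) ⁻¹' closedBall τ ε) ∩ Z).indicator
        (fun w => ENNReal.ofReal (bumpC / ε) * dens w) w := by
        refine lintegral_mono fun w => ?_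
        by_cases hw : w ∈ tsupport χ
        swap
        · simp [fderiv_zero_of_notMem hw]
        have h1 := hKq _ w (hs hw)
        have h2 := (hKiff _ w h1).mp (hs hw)
        have h3 := hinZ w (h2.trans hεε.le)
        rw [indicator_of_mem (show w ∈ (fun w => ‖R w‖ ^ 2) ⁻¹' closedBall τ ε ∩ Z from ⟨h2, h3⟩),
          ← ENNReal.ofReal_mul (by positivity)]
        refine ENNReal.ofReal_le_ofReal ?_
        have h4 := ((hRd.differentiableAt (hUo.mem_nhds h1)).hasDerivAt.hasFDerivAt.restrictScalars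
          ℝ).norm_sq
        have h5 := (bump.contDiff (n := 1).differentiable one_ne_zero
          ((‖R w‖ ^ 2 - τ) / ε)).hasDerivAt.comp_hasFDerivAt w ((h4.sub_const τ).mul_const ε⁻¹)
        have h6 : ‖fderiv ℝ χ w‖ ≤ bumpC * (ε⁻¹ * (2 * (t₂ * ‖deriv R w‖))) := by
          rw [show χ = bump ∘ fun w => (‖R w‖ ^ 2 - τ) * ε⁻¹ from rfl, h5.fderiv, norm_smul,
            norm_smul, Real.norm_of_nonneg (inv_nonneg.mpr hε0.le)]
          gcongr
          · exact bumpC_spec.2 _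
          · rw [two_smul, two_mul]
            have h7 : ‖(innerSL ℝ (R w)).comp ((ContinuousLinearMap.toSpanSingleton ℂ
                (deriv R w)).restrictScalars ℝ)‖ ≤ t₂ * ‖deriv R w‖ := by
              refine (ContinuousLinearMap.opNorm_comp_le _ _).trans ?_
              simpa using mul_le_mul_of_nonneg_right h3.2.le (norm_nonneg _)
            exact (norm_add_le _ _).trans (add_le_add h7 h7)
        calc _ ≤ bumpC * (ε⁻¹ * (2 * (t₂ * ‖deriv R w‖))) * √‖B w‖ := by gcongr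
          _ = _ := by ring
    _ = ENNReal.ofReal (bumpC / ε) * ν (closedBall τ ε) := by
        rw [lintegral_indicator ((hUm measurableSet_closedBall).inter hZM),
          lintegral_const_mul _ hdm, Measure.map_apply hUm measurableSet_closedBall,
          withDensity_apply _ (hUm measurableSet_closedBall),
          Measure.restrict_restrict (hUm measurableSet_closedBall)]
    _ ≤ _ := by
        refine (mul_le_mul_right hνε _).trans ?_
        rw [← ENNReal.ofReal_mul (by positivity)]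
        refine ENNReal.ofReal_le_ofReal ?_
        have h1 : t₂ ^ 2 / x * m / (t₂ ^ 2 - t₁ ^ 2) ≤ t₂ * m / ((t₂ - t₁) * x) := by
          have := sub_pos.mpr h₁₂
          rw [div_le_div_iff₀ hℓ (by positivity)]
          have e : t₂ ^ 2 / x * m * ((t₂ - t₁) * x) = t₂ * m * (t₂ * (t₂ - t₁)) := by field_simp
          rw [e]
          gcongr
          nlinarith
        have h2 : 0 ≤ t₂ * m / ((t₂ - t₁) * x) := by have := sub_pos.mpr h₁₂; positivity
        have e : bumpC / ε * (2 * ε * ((x * (N * (4 * (t₂ ^ 2 - t₁ ^ 2))) + t₂ ^ 2 / x * m) /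
            (t₂ ^ 2 - t₁ ^ 2) + η / (2 * bumpC))) =
            8 * bumpC * (N * x) + 2 * bumpC * (t₂ ^ 2 / x * m / (t₂ ^ 2 - t₁ ^ 2)) + η := by
          field_simp
          ring
        rw [e]
        nlinarith

end Pool.Agent.Lib.MP_c35c17_an.Q
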