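import Pool.Agent.Lib.MP_c35c17_an.QLevel
import Pool.Agent.Lib.MP_c35c17_an.QSec

set_option autoImplicit false

open Filter Topology Set Metric Complex MeasureTheory Polynomial
open scoped ComplexConjugate ENNReal Real

namespace Pool.Agent.Lib.MP_c35c17_an.Q

theorem lint_biUnion_le {ι : Type*} (S : Finset ι) (A : ι → Set ℂ) (g : ℂ → ℝ≥0∞) :
    ∫⁻ w in ⋃ i ∈ S, A i, g w ≤ ∑ i ∈ S, ∫⁻ w in A i, g w := by
  classical
  induction S using Finset.induction_on with
  | empty => simp
  | insert a S ha ih =>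
    rw [Finset.set_biUnion_insert, Finset.sum_insert ha]
    exact (lintegral_union_le _ _ _).trans (add_le_add le_rfl ih)

theorem area_mean {G : ℂ → ℝ} {u₀ : ℂ} {s v : ℝ} (hs : 0 < s) (hv : 0 ≤ v)
    (hG : ContinuousOn G (ball u₀ s))
    (h : ∀ t ∈ Ioo (s / 2) s, ∃ h : ℂ → ℂ, DifferentiableOn ℂ h (ball u₀ s) ∧ v ≤ ‖h u₀‖ ∧
      ∀ w ∈ sphere u₀ t, ‖h w‖ ≤ G w) :
    ENNReal.ofReal (v * s ^ 2) ≤ ∫⁻ w in ball u₀ s, ENNReal.ofReal (G w) := by
  have hpol : ∀ p : ℝ × ℝ, u₀ + Complex.polarCoord.symm p = circleMap u₀ p.1 p.2 := fun p => by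
    rw [Complex.polarCoord_symm_apply, circleMap, exp_mul_I]; simp
  have hmem : ∀ p : ℝ × ℝ, p.1 ∈ Ioo (s / 2) s → circleMap u₀ p.1 p.2 ∈ ball u₀ s := fun p hp => by
    rw [mem_ball, mem_sphere.mp (circleMap_mem_sphere u₀ (R := p.1) (by linarith [hp.1]) p.2)]
    exact hp.2
  have hmeas : MeasurableSet (Ioo (s / 2) s ×ˢ Ioo (-π) π) := measurableSet_Ioo.prod measurableSet_Ioo
  rw [← lintegral_indicator measurableSet_ball, ← lintegral_add_left_eq_self _ u₀,
    ← Complex.lintegral_comp_polarCoord_symm]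
  calc _ ≤ ∫⁻ _ in Ioo (s / 2) s, ENNReal.ofReal (s / 2 * (2 * π * v)) := by
        rw [setLIntegral_const, Real.volume_Ioo, ← ENNReal.ofReal_mul (by positivity)]
        refine ENNReal.ofReal_le_ofReal ?_
        nlinarith [Real.pi_gt_three, mul_nonneg hv (sq_nonneg s)]
    _ ≤ ∫⁻ t in Ioo (s / 2) s, ∫⁻ θ in Ioo (-π) π,
          ENNReal.ofReal (s / 2) * ENNReal.ofReal (G (circleMap u₀ t θ)) := by
        refine setLIntegral_mono' measurableSet_Ioo fun t ht => ?_
        obtain ⟨g, hg, hv', hle⟩ := h t ht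
        have ht0 : 0 < t := by linarith [ht.1]
        have h1 : Real.circleAverage g u₀ t = g u₀ := DiffContOnCl.circleAverage (by
          rw [abs_of_pos ht0]
          exact (hg.mono ((closure_ball_subset_closedBall).trans
            (closedBall_subset_ball ht.2))).diffContOnCl)
        rw [Real.circleAverage_eq_integral_add (-π), intervalIntegral.integral_comp_add_right
          (fun θ => g (circleMap u₀ t θ)), zero_add, show 2 * π + -π = π by ring,
          intervalIntegral.integral_of_le (by linarith [Real.pi_pos]),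
          integral_Ioc_eq_integral_Ioo] at h1
        rw [lintegral_const_mul' _ _ ENNReal.ofReal_ne_top, ENNReal.ofReal_mul (by positivity)]
        gcongr
        calc ENNReal.ofReal (2 * π * v) ≤ ‖∫ θ in Ioo (-π) π, g (circleMap u₀ t θ)‖ₑ := by
              rw [← ofReal_norm]
              refine ENNReal.ofReal_le_ofReal ?_
              rw [← h1, norm_smul, Real.norm_of_nonneg (by positivity), ← div_eq_inv_mul,
                le_div_iff₀ (by positivity)] at hv'
              linarith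
          _ ≤ _ := (enorm_integral_le_lintegral_enorm _).trans (lintegral_mono fun θ => by
              rw [← ofReal_norm]
              exact ENNReal.ofReal_le_ofReal (hle _ (circleMap_mem_sphere u₀ ht0.le θ)))
    _ = ∫⁻ p in Ioo (s / 2) s ×ˢ Ioo (-π) π,
          ENNReal.ofReal (s / 2) * ENNReal.ofReal (G (circleMap u₀ p.1 p.2)) := by
        rw [Measure.volume_eq_prod, setLIntegral_prod]
        refine AEMeasurable.const_mul (AEMeasurable.ennreal_ofReal ?_) _
        exact (hG.comp (f := fun p : ℝ × ℝ => circleMap u₀ p.1 p.2) (by unfold circleMap; fun_prop)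
          fun p hp => hmem p hp.1).aemeasurable hmeas
    _ ≤ _ := by
        refine (setLIntegral_mono' hmeas fun p hp => ?_).trans (lintegral_mono_set
          (prod_mono (fun t ht => lt_trans (half_pos hs) ht.1) subset_rfl))
        rw [hpol, indicator_of_mem (hmem p hp.1), smul_eq_mul]
        gcongr
        exact hp.1.1.le

theorem bergman {φ : ℂ → ℂ} {x : ℂ} {r : ℝ} (hr : 0 < r) (hφ : DifferentiableOn ℂ φ (ball x r)) :
    ∫⁻ u in ball x (r / 2), ‖φ u‖ₑ ≤
      ENNReal.ofReal (256 / r ^ 2) * ∫⁻ u in ball x r, ‖φ u‖ₑ * ENNReal.ofReal (u.im ^ 2) := by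
  calc _ ≤ ∫⁻ _ in ball x (r / 2), ENNReal.ofReal (256 / r ^ 4) *
        ∫⁻ u in ball x r, ‖φ u‖ₑ * ENNReal.ofReal (u.im ^ 2) := by
        refine setLIntegral_mono' measurableSet_ball fun u₀ hu₀ => ?_
        have hsub : ball u₀ (r / 2) ⊆ ball x r :=
          ball_subset_ball' (by linarith [mem_ball.mp hu₀])
        have h1 := area_mean (G := fun u => ‖φ u‖ * u.im ^ 2) (u₀ := u₀) (half_pos hr)
          (v := ‖φ u₀‖ * (r ^ 2 / 64)) (by positivity)
          ((hφ.mono hsub).continuousOn.norm.mul (by fun_prop)) (fun t ht => by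
            have ht0 : 0 < t := by linarith [ht.1]
            have htc : (t : ℂ) ≠ 0 := by exact_mod_cast ht0.ne'
            refine ⟨fun w => φ w * ((2 * I * u₀.im * (w - u₀) + (w - u₀) ^ 2 - t ^ 2) / (2 * t)) ^ 2,
              (hφ.mono hsub).mul (by fun_prop), ?_, fun w hw => ?_⟩
            · have : (2 * I * u₀.im * (u₀ - u₀) + (u₀ - u₀) ^ 2 - t ^ 2) / (2 * t) =
                  ((-(t / 2) : ℝ) : ℂ) := by push_cast; field_simp; ring
              simp only [this, norm_mul, norm_pow, norm_real, Real.norm_eq_abs, sq_abs]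
              gcongr
              nlinarith [ht.1]
            · have h2 : ‖w - u₀‖ = t := mem_sphere_iff_norm.mp hw
              have h3 : 2 * I * u₀.im * (w - u₀) + (w - u₀) ^ 2 - t ^ 2 =
                  (w - u₀) * (2 * I * w.im) := by
                have h4 : (t : ℂ) ^ 2 = (w - u₀) * conj (w - u₀) := by
                  rw [mul_conj', h2]
                have h5 := sub_conj (w - u₀)
                rw [sub_im] at h5
                push_cast at h5
                rw [h4]
                linear_combination (w - u₀) * h5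
              simp only [h3, norm_mul, norm_pow, norm_div, h2, norm_real, Real.norm_eq_abs,
                norm_I, Complex.norm_ofNat, abs_of_pos ht0]
              rw [show t * (2 * 1 * |w.im|) / (2 * t) = |w.im| by field_simp, sq_abs])
        calc ‖φ u₀‖ₑ = ENNReal.ofReal (256 / r ^ 4) *
              ENNReal.ofReal (‖φ u₀‖ * (r ^ 2 / 64) * (r / 2) ^ 2) := by
              rw [← ENNReal.ofReal_mul (by positivity), ← ofReal_norm]
              congr 1; field_simp; ring
          _ ≤ _ := by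
              gcongr
              refine h1.trans ((lintegral_mono_set hsub).trans (lintegral_mono fun u => ?_))
              rw [ENNReal.ofReal_mul (norm_nonneg _), ofReal_norm]
    _ ≤ _ := by
        rw [setLIntegral_const, mul_right_comm, Complex.volume_ball]
        gcongr
        rw [← ENNReal.ofReal_pow (by positivity), ← ENNReal.ofReal_coe_nnreal,
          ← ENNReal.ofReal_mul (by positivity), ← ENNReal.ofReal_mul (by positivity)]
        refine ENNReal.ofReal_le_ofReal ?_
        rw [NNReal.coe_real_pi]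
        calc 256 / r ^ 4 * ((r / 2) ^ 2 * π) ≤ 256 / r ^ 4 * ((r / 2) ^ 2 * 4) := by
              gcongr; exact Real.pi_le_four
          _ = _ := by field_simp; norm_num

theorem sheets {p q : ℂ[X]} (hno : ∀ w, q.eval w = 0 → p.eval w ≠ 0) {x : ℂ} {r : ℝ} (hr : 0 < r)
    (hx : p - C x * q ≠ 0)
    (hD : ∀ w, q.eval w ≠ 0 → p.eval w / q.eval w ∈ ball x r →
      ‖w‖ < 4 ∧ (wronskian p q).eval w ≠ 0)
    {β : ℂ → ℂ} (hβ : DifferentiableOn ℂ β {w | q.eval w ≠ 0}) :
    ∫⁻ w in {w | q.eval w ≠ 0 ∧ p.eval w / q.eval w ∈ ball x (r / 2)}, ‖β w‖ₑ ≤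
      ENNReal.ofReal (256 / r ^ 2) * ∫⁻ w in {w | q.eval w ≠ 0 ∧ p.eval w / q.eval w ∈ ball x r},
        ‖β w‖ₑ * ENNReal.ofReal ((p.eval w / q.eval w).im ^ 2) := by
  classical
  set G : ℂ × ℂ → ℂ := fun z => p.eval z.2 - z.1 * q.eval z.2 with hG
  have hGc : ContDiff ℂ 1 G := by
    have h1 : ∀ a : ℂ[X], ContDiff ℂ 1 fun z : ℂ × ℂ => a.eval z.2 := fun a =>
      a.differentiable.contDiff.comp contDiff_snd
    exact (h1 p).sub (contDiff_fst.mul (h1 q))
  have hz : ∀ u w, G (u, w) = 0 → q.eval w ≠ 0 ∧ p.eval w / q.eval w = u := fun u w h => by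
    have h1 : p.eval w = u * q.eval w := sub_eq_zero.mp h
    have h2 : q.eval w ≠ 0 := fun h2 => hno w h2 (by rw [h1, h2, mul_zero])
    exact ⟨h2, by rw [h1, mul_div_cancel_right₀ _ h2]⟩
  have hb : ∀ u ∈ ball x r, ∀ w, G (u, w) = 0 → ‖w‖ < 4 ∧ deriv (fun w => G (u, w)) w ≠ 0 := by
    intro u hu w h
    obtain ⟨h1, rfl⟩ := hz u w h
    refine ⟨(hD w h1 hu).1, fun h2 => (hD w h1 hu).2 ?_⟩
    rw [((p.hasDerivAt w).fun_sub ((q.hasDerivAt w).const_mul _)).deriv] at h2
    simp only [wronskian, eval_sub, eval_mul]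
    field_simp at h2
    linear_combination -h2
  have hxb : x ∈ ball x r := mem_ball_self hr
  have h1 : ∀ w, ∃ g : ℂ → ℂ, G (x, w) = 0 → DifferentiableOn ℂ g (ball x r) ∧ g x = w ∧
      ∀ u ∈ ball x r, G (u, g u) = 0 := fun w => by
    by_cases h : G (x, w) = 0
    · obtain ⟨g, hg⟩ := exists_section hGc hb hxb h
      exact ⟨g, fun _ => hg⟩
    · exact ⟨0, fun h' => absurd h' h⟩
  choose g hg using h1
  set S := (p - C x * q).roots.toFinset
  have hS : ∀ w, w ∈ S ↔ G (x, w) = 0 := fun w => by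
    rw [Multiset.mem_toFinset, mem_roots hx, IsRoot, eval_sub, eval_mul, eval_C]
  have hinj : ∀ i ∈ S, InjOn (g i) (ball x r) := fun i hi u hu v hv e => by
    rw [← (hz _ _ ((hg i ((hS i).mp hi)).2.2 u hu)).2, e, (hz _ _ ((hg i ((hS i).mp hi)).2.2 v hv)).2]
  have hder : ∀ i ∈ S, ∀ u ∈ ball x r, HasDerivAt (g i) (deriv (g i) u) u := fun i hi u hu =>
    ((hg i ((hS i).mp hi)).1.differentiableAt (isOpen_ball.mem_nhds hu)).hasDerivAt
  have hnorm : ∀ i u, ENNReal.ofReal (‖deriv (g i) u‖ ^ 2) * ‖β (g i u)‖ₑ =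
      ‖deriv (g i) u ^ 2 * β (g i u)‖ₑ := fun i u => by
    rw [enorm_mul, ← norm_pow, ofReal_norm]
  have hhalf : ball x (r / 2) ⊆ ball x r := ball_subset_ball (by linarith)
  calc _ ≤ ∫⁻ w in ⋃ i ∈ S, g i '' ball x (r / 2), ‖β w‖ₑ := by
        refine lintegral_mono_set fun w hw => ?_
        have h2 : G (p.eval w / q.eval w, w) = 0 := by
          simp only [hG, div_mul_cancel₀ _ hw.1, sub_self]
        obtain ⟨g', h3, h4, h5⟩ := exists_section hGc hb (hhalf hw.2) h2
        have h6 := hg _ (h5 x hxb)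
        refine mem_iUnion₂.mpr ⟨g' x, (hS _).mpr (h5 x hxb), _, hw.2, ?_⟩
        rw [← section_unique hGc h3 h6.1 h5 h6.2.2 hxb (hb x hxb _ (h5 x hxb)).2 h6.2.1 (hhalf hw.2), h4]
    _ ≤ ∑ i ∈ S, ∫⁻ w in g i '' ball x (r / 2), ‖β w‖ₑ := lint_biUnion_le _ _ _
    _ ≤ ∑ i ∈ S, ENNReal.ofReal (256 / r ^ 2) * ∫⁻ w in g i '' ball x r,
          ‖β w‖ₑ * ENNReal.ofReal ((p.eval w / q.eval w).im ^ 2) := by
        refine Finset.sum_le_sum fun i hi => ?_
        obtain ⟨h2, -, h3⟩ := hg i ((hS i).mp hi)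
        rw [lintegral_image_holo' measurableSet_ball (fun u hu => hder i hi u (hhalf hu))
          ((hinj i hi).mono hhalf), lintegral_image_holo' measurableSet_ball (hder i hi) (hinj i hi)]
        simp only [hnorm, ← mul_assoc]
        refine (bergman hr (((h2.deriv isOpen_ball).pow 2).mul
          (hβ.comp h2 fun u hu => (hz _ _ (h3 u hu)).1))).trans (le_of_eq ?_)
        congr 1
        refine setLIntegral_congr_fun measurableSet_ball fun u hu => ?_
        simp only [(hz _ _ (h3 u hu)).2]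
        rfl
    _ ≤ _ := by
        rw [← Finset.mul_sum, ← lintegral_biUnion_finset]
        · gcongr
          refine iUnion₂_subset fun i hi => ?_
          rintro _ ⟨u, hu, rfl⟩
          have := hz _ _ ((hg i ((hS i).mp hi)).2.2 u hu)
          exact ⟨this.1, this.2.symm ▸ hu⟩
        · intro i hi j hj hij
          obtain ⟨a1, a2, a3⟩ := hg i ((hS i).mp hi)
          obtain ⟨b1, b2, b3⟩ := hg j ((hS j).mp hj)
          refine disjoint_left.mpr ?_
          rintro _ ⟨u, hu, rfl⟩ ⟨v, hv, e⟩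
          obtain rfl : u = v := by rw [← (hz _ _ (a3 u hu)).2, ← e, (hz _ _ (b3 v hv)).2]
          exact hij (by rw [← a2, ← b2,
            section_unique hGc a1 b1 a3 b3 hu (hb u hu _ (a3 u hu)).2 e hxb])
        · exact fun i hi => measurableSet_ball.image_of_continuousOn_injOn
            (hg i ((hS i).mp hi)).1.continuousOn (hinj i hi)

theorem exists_free_disc (S : Finset ℂ) {L : ℕ} (hS : S.card < L) (M : ℝ) {r : ℝ} (hr : 0 < r) :
    ∃ i < L, ∀ v ∈ S, v ∉ ball ((M + (2 * i + 1) * r : ℝ) : ℂ) r := by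
  by_contra h
  push Not at h
  choose! v hv hvb using h
  obtain ⟨i, hi, j, hj, hij, e⟩ := Finset.exists_ne_map_eq_of_card_lt_of_maps_to
    (s := Finset.range L) (t := S) (by simpa using hS) (f := v)
    fun i hi => hv i (Finset.mem_range.mp hi)
  have h1 := hvb i (Finset.mem_range.mp hi)
  have h2 := hvb j (Finset.mem_range.mp hj)
  rw [e] at h1
  have h3 := dist_lt_add_of_nonempty_ball_inter_ball ⟨_, h1, h2⟩
  rw [dist_eq_norm, ← ofReal_sub, norm_real, Real.norm_eq_abs, abs_lt] at h3
  rcases lt_or_gt_of_ne hij with h | h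
  · have : (i : ℝ) + 1 ≤ j := by exact_mod_cast h
    nlinarith
  · have : (j : ℝ) + 1 ≤ i := by exact_mod_cast h
    nlinarith

theorem zone_mass {p q : ℂ[X]} (hpq : IsCoprime p q) (hnc : derivative q ≠ 0) {N : ℕ} (hN : 1 ≤ N)
    (hp : p.natDegree ≤ N) (hq : q.natDegree ≤ N) {M : ℝ} (hM : 0 < M)
    (hZ : ∀ w, M < ‖p.eval w / q.eval w‖ → ‖w‖ < 4) {β : ℂ → ℂ} (hβm : Measurable β)
    (hβ : DifferentiableOn ℂ β {w | q.eval w ≠ 0}) {E : ℝ} (hE0 : 0 ≤ E)
    (hE : ∫⁻ w in {w | M < ‖p.eval w / q.eval w‖ ∧ ‖p.eval w / q.eval w‖ < 2 * M},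
      ‖β w‖ₑ * ENNReal.ofReal (‖p.eval w / q.eval w‖ - (p.eval w / q.eval w).re) ≤
        ENNReal.ofReal E) :
    ∃ t₁ t₂ : ℝ, M ≤ t₁ ∧ t₂ ≤ 2 * M ∧ M ≤ 12 * N * (t₂ - t₁) ∧
      ∫⁻ w in {w | t₁ < ‖p.eval w / q.eval w‖ ∧ ‖p.eval w / q.eval w‖ < t₂}, ‖β w‖ₑ ≤
        ENNReal.ofReal (40000 * N ^ 2 * E / M) := by
  classical
  have hW : wronskian p q ≠ 0 := fun h => hnc (hpq.wronskian_eq_zero_iff.mp h).2
  have hno : ∀ w, q.eval w = 0 → p.eval w ≠ 0 := fun w h1 h2 => by
    obtain ⟨a, b, hab⟩ := hpq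
    have := congrArg (eval w) hab
    simp [h1, h2] at this
  set R : ℂ → ℂ := fun w => p.eval w / q.eval w with hR
  have hRm : Measurable R := p.continuous.measurable.div q.continuous.measurable
  have hN' : (1 : ℝ) ≤ N := by exact_mod_cast hN
  set r : ℝ := M / (2 * (2 * N + 1)) with hr
  have hr0 : 0 < r := by positivity
  have hMr : M = 2 * (2 * N + 1) * r := by rw [hr]; field_simp
  obtain ⟨i, hi, hfree⟩ := exists_free_disc ((wronskian p q).roots.toFinset.image R)
    (L := 2 * N + 1) (lt_of_le_of_lt (Finset.card_image_le.trans ((Multiset.toFinset_card_le _).trans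
      (card_roots' _))) ((natDegree_wronskian_lt_add hW).trans (by omega))) M hr0
  have hi' : (i : ℝ) ≤ 2 * N := by exact_mod_cast Nat.lt_succ_iff.mp hi
  set x : ℝ := M + (2 * i + 1) * r with hx
  have hx1 : M + r ≤ x := by have : (0 : ℝ) ≤ i * r := by positivity
                             linarith
  have hx2 : x + r ≤ 2 * M := by nlinarith
  have hball : ∀ u ∈ ball (x : ℂ) r, M < ‖u‖ ∧ ‖u‖ < 2 * M := fun u hu => by
    have h1 := mem_ball_iff_norm.mp hu
    have h2 := abs_norm_sub_norm_le u x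
    rw [norm_real, Real.norm_of_nonneg (by linarith), abs_le] at h2
    constructor <;> linarith
  have hsh := sheets hno hr0 (x := x) (fun h => hW (by
      rw [sub_eq_zero.mp h, wronskian, derivative_C_mul]; ring))
    (fun w h1 h2 => ⟨hZ w (hball _ h2).1, fun h3 => hfree _ (Finset.mem_image_of_mem R
      (Multiset.mem_toFinset.mpr ((mem_roots hW).mpr h3))) h2⟩) hβ
  have hgm : Measurable fun w => ‖β w‖ₑ * ENNReal.ofReal (‖R w‖ - (R w).re) :=
    hβm.enorm.mul (hRm.norm.sub (measurable_re.comp hRm)).ennreal_ofReal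
  refine ⟨x - r / 4, x + r / 4, by linarith, by linarith, by nlinarith, ?_⟩
  calc _ ≤ ∫⁻ w in {w | q.eval w ≠ 0 ∧ R w ∈ ball (x : ℂ) (r / 2)} ∪
        ({w | M < ‖R w‖ ∧ ‖R w‖ < 2 * M} ∩ {w | r ^ 2 ≤ 22 * M * (‖R w‖ - (R w).re)}), ‖β w‖ₑ := by
        refine lintegral_mono_set fun w hw => ?_
        obtain ⟨h1, h2⟩ : x - r / 4 < ‖R w‖ ∧ ‖R w‖ < x + r / 4 := hw
        by_cases h : R w ∈ ball (x : ℂ) (r / 2)
        · refine Or.inl ⟨fun h3 => ?_, h⟩
          simp only [hR, h3, div_zero, norm_zero] at h1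
          linarith
        · refine Or.inr ⟨⟨by linarith, by linarith⟩, ?_⟩
          rw [mem_ball_iff_norm, not_lt] at h
          have h3 : ‖R w - x‖ ^ 2 = (‖R w‖ - x) ^ 2 + 2 * x * (‖R w‖ - (R w).re) := by
            rw [← normSq_eq_norm_sq, normSq_sub, normSq_eq_norm_sq, normSq_ofReal]
            simp only [conj_ofReal, mul_re, ofReal_re, ofReal_im]
            ring
          have h4 : (r / 2) ^ 2 ≤ ‖R w - x‖ ^ 2 := by gcongr
          have h5 : (‖R w‖ - x) ^ 2 ≤ (r / 4) ^ 2 := sq_le_sq' (by linarith) (by linarith)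
          have h6 : 0 ≤ ‖R w‖ - (R w).re := sub_nonneg.mpr (re_le_norm _)
          have h7 : x * (‖R w‖ - (R w).re) ≤ 2 * M * (‖R w‖ - (R w).re) := by gcongr; linarith
          rw [mem_ofPred_eq]
          nlinarith
    _ ≤ ENNReal.ofReal (256 / r ^ 2) * (ENNReal.ofReal (4 * M) * ENNReal.ofReal E) +
          ENNReal.ofReal (22 * M / r ^ 2) * ENNReal.ofReal E := by
        refine (lintegral_union_le _ _ _).trans (add_le_add (hsh.trans ?_) ?_)
        · gcongr
          refine le_trans ?_ (mul_le_mul_right hE _)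
          rw [← lintegral_const_mul _ hgm]
          refine (setLIntegral_mono (hgm.const_mul _) fun w hw => ?_).trans
            (lintegral_mono_set fun w hw => hball _ hw.2)
          rw [mul_left_comm, ← ENNReal.ofReal_mul (by positivity)]
          gcongr
          have h1 := (hball _ hw.2).2
          have h2 := re_le_norm (R w)
          have h3 : (R w).im ^ 2 = (‖R w‖ + (R w).re) * (‖R w‖ - (R w).re) := by
            have := normSq_eq_norm_sq (R w)
            rw [normSq_apply] at this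
            linarith
          exact h3.le.trans (mul_le_mul_of_nonneg_right (by linarith) (sub_nonneg.mpr h2))
        · refine le_trans ?_ (mul_le_mul_right hE _)
          rw [← lintegral_const_mul _ hgm]
          refine (setLIntegral_mono (hgm.const_mul _) fun w hw => ?_).trans
            (lintegral_mono_set inter_subset_left)
          rw [mul_left_comm, ← ENNReal.ofReal_mul (by positivity)]
          refine le_mul_of_one_le_right' (ENNReal.one_le_ofReal.mpr ?_)
          rw [div_mul_eq_mul_div, le_div_iff₀ (by positivity), one_mul]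
          exact hw.2
    _ ≤ _ := by
        rw [← ENNReal.ofReal_mul (by positivity), ← ENNReal.ofReal_mul (by positivity),
          ← ENNReal.ofReal_mul (by positivity), ← ENNReal.ofReal_add (by positivity) (by positivity)]
        refine ENNReal.ofReal_le_ofReal ?_
        have e : 256 / r ^ 2 * (4 * M * E) + 22 * M / r ^ 2 * E =
            1046 * (2 * (2 * N + 1)) ^ 2 * E / M := by rw [hr]; field_simp; ring
        rw [e]
        gcongr ?_ * E / M
        nlinarith

end Pool.Agent.Lib.MP_c35c17_an.Q
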