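import Pool.Agent.Lib.MP_c35c17_an.QCyc
import Pool.Agent.Lib.MP_c35c17_an.QZone

set_option autoImplicit false

open Filter Topology Set Metric Complex Polynomial MeasureTheory
open scoped ENNReal Real

namespace Pool.Agent.Lib.MP_c35c17_an.Q

/-- A quadratic differential with double poles on `O`. -/
noncomputable def qd (O : Finset ℂ) (A : ℂ → ℂ) (w : ℂ) : ℂ :=
  ∑ x ∈ O, ((w - x)⁻¹ ^ 2 + A x * (w - x)⁻¹)

/-- Its denominator is the square of this polynomial. -/
noncomputable def qQ (O : Finset ℂ) : ℂ[X] := ∏ y ∈ O, (X - C y)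

/-- Its numerator. -/
noncomputable def qP (O : Finset ℂ) (A : ℂ → ℂ) : ℂ[X] :=
  ∑ x ∈ O, (1 + C (A x) * (X - C x)) * qQ (O.erase x) ^ 2

theorem qQ_eval (O : Finset ℂ) (w : ℂ) : (qQ O).eval w = ∏ y ∈ O, (w - y) := by
  simp [qQ, eval_prod]

theorem qQ_eq_zero {O : Finset ℂ} {w : ℂ} : (qQ O).eval w = 0 ↔ w ∈ O := by
  simp [qQ_eval, Finset.prod_eq_zero_iff, sub_eq_zero]

theorem qQ_deg (O : Finset ℂ) : (qQ O).natDegree = O.card := by
  simp [qQ]

theorem qP_eval {O : Finset ℂ} (A : ℂ → ℂ) {x : ℂ} (hx : x ∈ O) :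
    (qP O A).eval x = (∏ y ∈ O.erase x, (x - y)) ^ 2 := by
  rw [qP, eval_finsetSum, Finset.sum_eq_single_of_mem x hx fun y _ hy => by
    rw [eval_mul, eval_pow, qQ_eq_zero.mpr (Finset.mem_erase.mpr ⟨hy.symm, hx⟩)]; simp]
  simp [qQ_eval]

theorem qd_eq {O : Finset ℂ} (A : ℂ → ℂ) {w : ℂ} (hw : w ∉ O) :
    qd O A w = (qP O A).eval w / (∏ y ∈ O, (w - y)) ^ 2 := by
  rw [qd, qP, eval_finsetSum, Finset.sum_div]
  refine Finset.sum_congr rfl fun x hx => ?_
  have h1 : w - x ≠ 0 := sub_ne_zero.mpr fun h => hw (h ▸ hx)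
  have h2 : ∏ y ∈ O.erase x, (w - y) ≠ 0 := by
    rw [← qQ_eval, Ne, qQ_eq_zero]; exact fun h => hw (Finset.mem_of_mem_erase h)
  rw [← Finset.mul_prod_erase O _ hx]
  simp only [eval_mul, eval_add, eval_one, eval_C, eval_sub, eval_X, eval_pow, qQ_eval]
  field_simp

theorem qP_deg (O : Finset ℂ) (A : ℂ → ℂ) : (qP O A).natDegree ≤ 2 * O.card := by
  refine natDegree_sum_le_of_forall_le _ _ fun x hx => natDegree_mul_le.trans ?_
  have h1 : (1 + C (A x) * (X - C x)).natDegree ≤ 1 := by compute_degree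
  have h2 := Finset.card_pos.mpr ⟨x, hx⟩
  rw [natDegree_pow, qQ_deg, Finset.card_erase_of_mem hx]
  omega

theorem qd_meas (O : Finset ℂ) (A : ℂ → ℂ) : Measurable (qd O A) := by
  unfold qd; fun_prop

theorem qd_diff {O : Finset ℂ} (A : ℂ → ℂ) {w : ℂ} (hw : w ∉ O) : DifferentiableAt ℂ (qd O A) w := by
  refine DifferentiableAt.fun_sum fun x hx => ?_
  have h1 : w - x ≠ 0 := sub_ne_zero.mpr fun h => hw (h ▸ hx)
  fun_prop (disch := exact h1)

theorem qd_near {O : Finset ℂ} (A : ℂ → ℂ) {x : ℂ} (hx : x ∈ O) :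
    ∀ᶠ w in 𝓝 x, ‖qd O A w‖ * ‖w - x‖ ^ 2 ≤ 2 := by
  have h1 : ContinuousAt (fun w => ‖1 + A x * (w - x) + qd (O.erase x) A w * (w - x) ^ 2‖) x := by
    have := (qd_diff A (Finset.notMem_erase x O)).continuousAt
    fun_prop
  filter_upwards [h1.eventually_lt (continuousAt_const (y := (2 : ℝ))) (by simp)] with w hw
  by_cases h : w - x = 0
  · simp [h]
  refine le_of_eq_of_le ?_ hw.le
  rw [← norm_pow, ← norm_mul, qd, ← Finset.add_sum_erase O _ hx, qd]
  congr 1; field_simp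

theorem kernel2 {n : ℕ} (hn : 2 ≤ n) {ω : ℂ} (hω : IsPrimitiveRoot ω n) {w a : ℂ}
    (h : w ^ n ≠ a ^ n) : ∑ t ∈ Finset.range n, (ω ^ t) ^ 2 * (ω ^ t * w - a)⁻¹ ^ 2 =
      n * w ^ (n - 2) * (w ^ n - a ^ n + n * a ^ n) / (w ^ n - a ^ n) ^ 2 := by
  have h0 : ∀ t, ω ^ t * w - a ≠ 0 := fun t e => h (by
    rw [← sub_eq_zero.mp e, mul_pow, ← pow_mul, mul_comm t n, pow_mul, hω.pow_eq_one, one_pow, one_mul])
  have h1 : HasDerivAt (fun x => ∑ t ∈ Finset.range n, (ω ^ t) ^ 2 * (ω ^ t * w - x)⁻¹)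
      (∑ t ∈ Finset.range n, (ω ^ t) ^ 2 * (-(-1) / (ω ^ t * w - a) ^ 2)) a :=
    HasDerivAt.fun_sum fun t _ =>
      (((hasDerivAt_id a).const_sub _).fun_inv (h0 t)).const_mul _
  have h2 := (((hasDerivAt_id a).const_mul (n : ℂ)).mul_const (w ^ (n - 2))).fun_div
    ((hasDerivAt_pow n a).const_sub (w ^ n)) (sub_ne_zero.mpr h)
  have h3 := h1.unique (h2.congr_of_eventuallyEq (by
    filter_upwards [(continuous_pow n).continuousAt.eventually_ne h.symm] with x hx
    exact kernel hn hω hx.symm))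
  simp only [neg_neg, one_div, ← inv_pow, id] at h3
  rw [h3]
  have h4 : a ^ (n - 1) * a = a ^ n := by rw [← pow_succ, Nat.sub_add_cancel (by omega)]
  congr 1
  linear_combination n * n * w ^ (n - 2) * h4

theorem Cyc.ident {n : ℕ} {c : ℂ} {k : ℕ} {O : Finset ℂ} {ρ : ℂ} (h : Cyc n c k O ρ) {ω : ℂ}
    (hω : IsPrimitiveRoot ω n) {w : ℂ} (hw : F n c w ∉ O) :
    ((n : ℂ) * w ^ (n - 1)) ^ 2 * qd O (coef n c k ρ) (F n c w) =
      ∑ t ∈ Finset.range n, (ω ^ t) ^ 2 * qd O (coef n c k ρ) (ω ^ t * w) +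
        (∑ x ∈ O, coef n c k ρ x) * (n ^ 2 * w ^ (n - 2)) := by
  simp only [qd, Finset.mul_sum]
  rw [Finset.sum_comm, ← h.sum_comp (coef n c k ρ), Finset.sum_mul, ← Finset.sum_add_distrib,
    ← h.sum_comp]
  refine Finset.sum_congr rfl fun x hx => ?_
  have h1 : w ^ n ≠ x ^ n := fun e => hw (by simpa only [F, e] using h.maps x hx)
  have h2 := sub_ne_zero.mpr h1
  have h3 := h.ne_zero hx
  have hn := h.hn
  simp only [mul_add, Finset.sum_add_distrib, mul_left_comm _ (coef n c k ρ x), ← Finset.mul_sum]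
  rw [kernel hn hω h1, kernel2 hn hω h1, h.coef_eq hx, F, F, add_sub_add_right_eq_sub]
  obtain ⟨m, rfl⟩ := Nat.exists_eq_add_of_le' hn
  simp only [Nat.add_sub_cancel, show m + 2 - 1 = m + 1 by omega] at h2 ⊢
  field_simp
  ring

theorem lint_rot {ζ : ℂ} (hζ : ‖ζ‖ = 1) {A : Set ℂ} (hA : MeasurableSet A)
    (h : ∀ w, ζ * w ∈ A ↔ w ∈ A) (g : ℂ → ℝ≥0∞) : ∫⁻ w in A, g (ζ * w) = ∫⁻ w in A, g w := by
  have h0 : ζ ≠ 0 := by rintro rfl; simp at hζ
  have h1 : (fun w => ζ * w) '' A = A := Subset.antisymm (by rintro _ ⟨w, hw, rfl⟩; exact (h w).mpr hw)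
    fun w hw => ⟨ζ⁻¹ * w, (h _).mp (by rwa [mul_inv_cancel_left₀ h0]), mul_inv_cancel_left₀ h0 w⟩
  have h2 := lintegral_image_holo hA (f' := fun _ => ζ)
    (fun z => by simpa using (hasDerivAt_id z).const_mul ζ) (mul_right_injective₀ h0).injOn g
  rw [h1, ← ofReal_norm, norm_pow, hζ] at h2
  simpa using h2.symm

theorem vol_ball_le (a : ℂ) {r : ℝ} (hr : 0 ≤ r) : volume (ball a r) ≤ ENNReal.ofReal (4 * r ^ 2) := by
  rw [Complex.volume_ball, ← ENNReal.ofReal_pow hr, ← ENNReal.ofReal_coe_nnreal,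
    ← ENNReal.ofReal_mul (by positivity), NNReal.coe_real_pi]
  exact ENNReal.ofReal_le_ofReal (by nlinarith [Real.pi_le_four, sq_nonneg r])

namespace Cyc
variable {n : ℕ} {c : ℂ} {k : ℕ} {O : Finset ℂ} {ρ : ℂ} (h : Cyc n c k O ρ)
include h

theorem annulus (A : ℂ → ℂ) {x : ℂ} (hx : x ∈ O) : ∀ᶠ η in 𝓝[>] (0 : ℝ),
    ∫⁻ w in ball x (η / wt n c k 1 x) \ F n c ⁻¹' ball (F n c x) (η / wt n c k 1 (F n c x)),
      ‖qd O A w‖ₑ ≤ ENNReal.ofReal (120 * (‖ρ‖ - 1)) := by
  set μ := ‖ρ‖ - 1 with hμ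
  have hμ0 : 0 < μ := sub_pos.mpr h.big
  have hμ1 : μ ≤ 1 := by linarith [h.small]
  have hN := (h.wt_bounds zero_le_one le_rfl hx).1
  have hN' := (h.wt_bounds zero_le_one le_rfl (h.maps x hx)).1
  have hE := h.wt_eq 1 hx
  rw [one_pow] at hE
  set N := wt n c k 1 x
  set N' := wt n c k 1 (F n c x)
  set l := ‖(n : ℂ) * x ^ (n - 1)‖
  have hL := h.one_le_Lam
  obtain ⟨δ, hδ, hb⟩ := Metric.eventually_nhds_iff_ball.mp (qd_near A hx)
  filter_upwards [Ioo_mem_nhdsGT (lt_min (lt_min hδ one_pos)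
    (by positivity : 0 < μ / (2 * N' * Lam n)))] with η hη
  obtain ⟨hη0, ⟨hη1, hη2⟩, hη3⟩ : 0 < η ∧ (η < δ ∧ η < 1) ∧ η < μ / (2 * N' * Lam n) := by
    simpa only [mem_Ioo, lt_min_iff] using hη
  set r := η / N with hr
  have hr0 : 0 < r := by positivity
  have hrη : r ≤ η := div_le_self hη0.le hN
  set r₁ := r / (1 + μ) ^ 2 with hr₁
  have hr₁0 : 0 < r₁ := by positivity
  have hr₁r : r₁ ≤ r := div_le_self hr0.le (one_le_pow₀ (by linarith))
  have hsub : ball x r₁ ⊆ F n c ⁻¹' ball (F n c x) (η / N') := fun w hw => by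
    rw [mem_ball_iff_norm] at hw
    have h1 := pow_taylor n (x := x) (y := w) (by linarith [h.norm_le hx])
      (by linarith [h.norm_le hx, norm_le_norm_add_norm_sub' w x])
    have h2 := norm_le_norm_add_norm_sub' (w ^ n - x ^ n) (n * x ^ (n - 1) * (w - x))
    rw [norm_mul] at h2
    rw [mem_preimage, mem_ball_iff_norm, F, F, add_sub_add_right_eq_sub, lt_div_iff₀ (by positivity)]
    have h3 : l * N' * r₁ * (1 + μ) ≤ η := by
      rw [show l * N' = N + μ by linarith, hr₁, hr]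
      calc (N + μ) * (η / N / (1 + μ) ^ 2) * (1 + μ) = η * ((N + μ) / (N * (1 + μ))) := by field_simp
        _ ≤ η * 1 := by gcongr; rw [div_le_one (by positivity)]; nlinarith
        _ = η := mul_one η
    have h4 : Lam n * N' * η * (1 + μ) < μ := by
      rw [lt_div_iff₀ (by positivity)] at hη3
      have : 0 ≤ Lam n * N' * η := by positivity
      nlinarith
    have h5 : ‖w - x‖ ^ 2 ≤ η ^ 2 := by gcongr; linarith
    have h6 : ‖w ^ n - x ^ n‖ ≤ l * r₁ + Lam n * η ^ 2 := by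
      have : l * ‖w - x‖ ≤ l * r₁ := by gcongr
      nlinarith
    refine lt_of_mul_lt_mul_right (a := 1 + μ) ?_ (by linarith)
    calc ‖w ^ n - x ^ n‖ * N' * (1 + μ) ≤ (l * r₁ + Lam n * η ^ 2) * N' * (1 + μ) := by gcongr
      _ = l * N' * r₁ * (1 + μ) + η * (Lam n * N' * η * (1 + μ)) := by ring
      _ < η + η * μ := add_lt_add_of_le_of_lt h3 (by gcongr)
      _ = _ := by ring
  calc _ ≤ ∫⁻ _ in ball x r \ ball x r₁, ENNReal.ofReal (2 / r₁ ^ 2) := by
        refine (lintegral_mono_set (diff_subset_diff_right hsub)).trans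
          (setLIntegral_mono' (measurableSet_ball.diff measurableSet_ball) fun w hw => ?_)
        have h1 := hb w (ball_subset_ball (by linarith) hw.1)
        have h2 : r₁ ≤ ‖w - x‖ := not_lt.mp fun h' => hw.2 (mem_ball_iff_norm.mpr h')
        rw [← ofReal_norm]
        refine ENNReal.ofReal_le_ofReal ?_
        rw [le_div_iff₀ (by positivity)]
        exact le_trans (by gcongr) h1
    _ ≤ _ := by
        rw [setLIntegral_const, measure_diff (ball_subset_ball hr₁r) measurableSet_ball.nullMeasurableSet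
          measure_ball_lt_top.ne, Complex.volume_ball, Complex.volume_ball,
          ← ENNReal.sub_mul (by simp), ← ENNReal.ofReal_pow hr0.le, ← ENNReal.ofReal_pow hr₁0.le,
          ← ENNReal.ofReal_sub _ (by positivity), ← ENNReal.ofReal_coe_nnreal,
          ← ENNReal.ofReal_mul (by nlinarith), ← ENNReal.ofReal_mul (by positivity), NNReal.coe_real_pi]
        refine ENNReal.ofReal_le_ofReal ?_
        have h1 : 2 / r₁ ^ 2 * ((r ^ 2 - r₁ ^ 2) * π) = 2 * π * ((1 + μ) ^ 4 - 1) := by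
          rw [hr₁]; field_simp
        have h2 : (1 + μ) ^ 4 - 1 ≤ 15 * μ := by
          have h3 : μ ^ 2 ≤ μ := by nlinarith
          have h4 : μ ^ 3 ≤ μ := by nlinarith
          have h5 : μ ^ 4 ≤ μ := by nlinarith
          nlinarith
        rw [h1]
        calc _ ≤ 2 * 4 * (15 * μ) := by
              gcongr
              · exact sub_nonneg.mpr (one_le_pow₀ (by linarith))
              · exact Real.pi_le_four
          _ = _ := by ring

theorem norm_lt_of_F {w : ℂ} (hw : F n c w ∈ ball (0 : ℂ) 6) : ‖w‖ < 3 := by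
  refine not_le.mp fun h1 => ?_
  have h3 : ‖w‖ ^ 2 ≤ ‖w‖ ^ n := pow_le_pow_right₀ (by linarith) h.hn
  have h4 := norm_sub_norm_le (w ^ n) (-c)
  rw [sub_neg_eq_add, norm_neg, norm_pow] at h4
  have := h.hc
  have := mem_ball_zero_iff.mp hw
  nlinarith

theorem loss_aux {ω : ℂ} (hω : IsPrimitiveRoot ω n) {j : ℕ} (hj0 : j ≠ 0) (hj : j < n) :
    ∀ᶠ η in 𝓝[>] (0 : ℝ),
      (∫⁻ w in F n c ⁻¹' (ball 0 6 \ ⋃ x ∈ O, ball x (η / wt n c k 1 x)), ENNReal.ofReal
        (‖qd O (coef n c k ρ) w‖ + ‖qd O (coef n c k ρ) (ω ^ j * w)‖ -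
          ‖qd O (coef n c k ρ) w + (ω ^ j) ^ 2 * qd O (coef n c k ρ) (ω ^ j * w)‖)) +
        n * ∫⁻ w in ball 0 6 \ F n c ⁻¹' ball 0 6, ‖qd O (coef n c k ρ) w‖ₑ ≤
      ENNReal.ofReal (120 * Lam n * (k * (‖ρ‖ - 1) + ‖∑ x ∈ O, coef n c k ρ x‖)) := by
  filter_upwards [(O.eventually_all).mpr fun x hx => h.annulus (coef n c k ρ) hx,
    Ioo_mem_nhdsGT one_pos] with η hann ⟨hη, hη1⟩
  set B := qd O (coef n c k ρ) with hB
  set a := ∑ x ∈ O, coef n c k ρ x with ha
  set K := ⋃ x ∈ O, ball x (η / wt n c k 1 x) with hK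
  have hBm : Measurable B := qd_meas _ _
  have hKo : IsOpen K := isOpen_biUnion fun _ _ => isOpen_ball
  have hOK : ∀ x ∈ O, x ∈ K := fun x hx => mem_biUnion hx (mem_ball_self
    (div_pos hη (one_pos.trans_le (h.wt_bounds zero_le_one le_rfl hx).1)))
  have hFm : Measurable (F n c) := by fun_prop
  have hV' : MeasurableSet (ball (0 : ℂ) 6 \ K) := measurableSet_ball.diff hKo.measurableSet
  have hU' := hFm hV'
  have hn0 : n ≠ 0 := by have := h.hn; omega
  have hn1 : ∀ t, ‖ω ^ t‖ = 1 := fun t => by rw [norm_pow, hω.norm'_eq_one hn0, one_pow]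
  have hrot : ∀ t w, F n c (ω ^ t * w) = F n c w := fun t w => by
    simp only [F]
    rw [mul_pow, ← pow_mul, mul_comm t n, pow_mul, hω.pow_eq_one, one_pow, one_mul]
  have hfin : ∫⁻ w in ball 0 6 \ K, ‖B w‖ₑ ≠ ⊤ := by
    have h1 : ContinuousOn B (closedBall 0 6 \ K) := fun w hw =>
      (qd_diff _ fun h' => hw.2 (hOK w h')).continuousAt.continuousWithinAt
    exact ((lintegral_mono_set (diff_subset_diff_left ball_subset_closedBall)).trans_lt
      (h1.integrableOn_compact ((isCompact_closedBall 0 6).diff hKo)).2).ne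
  have hA : n * ∫⁻ w in ball 0 6 \ K, ‖B w‖ₑ ≤ ∫⁻ w in F n c ⁻¹' (ball 0 6 \ K),
      ‖((n : ℂ) * w ^ (n - 1)) ^ 2 * B (F n c w)‖ₑ := by
    have hm : Measurable fun w => (n : ℂ)⁻¹ * (((n : ℂ) * w ^ (n - 1)) ^ 2 * B (F n c w)) := by
      fun_prop
    have hnc : (n : ℂ) ≠ 0 := Nat.cast_ne_zero.mpr hn0
    refine (mul_le_mul_right (transfer h.hn c hω hm (Eventually.of_forall fun w => ?_) hV') _).trans
      (le_of_eq ?_)
    · rw [Finset.sum_congr rfl (g := fun _ => (n : ℂ)⁻¹ * (((n : ℂ) * w ^ (n - 1)) ^ 2 *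
        B (F n c w))) fun t _ => ?_, Finset.sum_const, Finset.card_range, nsmul_eq_mul,
        mul_inv_cancel_left₀ hnc]
      have h1 : ω ^ t * (ω ^ t) ^ (n - 1) = 1 := by
        rw [← pow_succ', Nat.sub_add_cancel (by omega), ← pow_mul, mul_comm, pow_mul, hω.pow_eq_one,
          one_pow]
      rw [hrot, mul_pow (ω ^ t)]
      linear_combination (n : ℂ)⁻¹ * ((n : ℂ) * w ^ (n - 1)) ^ 2 * B (F n c w) *
        (ω ^ t * (ω ^ t) ^ (n - 1) + 1) * h1
    · rw [← lintegral_const_mul _ hm.enorm]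
      refine lintegral_congr fun w => ?_
      rw [← ofReal_norm, ← ofReal_norm, ← ENNReal.ofReal_natCast, ← ENNReal.ofReal_mul (by positivity),
        norm_mul _ (_ * _), norm_inv, Complex.norm_natCast, mul_inv_cancel_left₀ (by positivity)]
  have hD : (∫⁻ w in F n c ⁻¹' (ball 0 6 \ K), ‖B w‖ₑ) + ∫⁻ w in ball 0 6 \ F n c ⁻¹' ball 0 6,
      ‖B w‖ₑ ≤ (∫⁻ w in ball 0 6 \ K, ‖B w‖ₑ) + ENNReal.ofReal (k * (120 * (‖ρ‖ - 1))) := by
    rw [← lintegral_union (measurableSet_ball.diff (hFm measurableSet_ball))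
      (disjoint_left.mpr fun w h1 h2 => h2.2 h1.1)]
    refine (lintegral_mono_set (t := (ball 0 6 \ K) ∪ ⋃ x ∈ O, (ball x (η / wt n c k 1 x) \
      F n c ⁻¹' ball (F n c x) (η / wt n c k 1 (F n c x)))) fun w hw => ?_).trans
      ((lintegral_union_le _ _ _).trans (add_le_add le_rfl ((lint_biUnion_le _ _ _).trans ?_)))
    · have h1 : w ∈ ball (0 : ℂ) 6 := hw.elim
        (fun h' => mem_ball_zero_iff.mpr (by linarith [h.norm_lt_of_F h'.1])) fun h' => h'.1
      by_cases h2 : w ∈ K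
      · obtain ⟨x, hx, h3⟩ := mem_iUnion₂.mp h2
        refine Or.inr (mem_biUnion hx ⟨h3, fun h4 => hw.elim
          (fun h' => h'.2 (mem_biUnion (h.maps x hx) h4)) fun h' => h'.2 ?_⟩)
        have h5 := div_le_self hη.le (h.wt_bounds zero_le_one le_rfl (h.maps x hx)).1
        exact ball_subset_ball' (by rw [dist_zero_right]; linarith [h.norm_le (h.maps x hx)]) h4
      · exact Or.inl ⟨h1, h2⟩
    · refine (Finset.sum_le_card_nsmul _ _ _ hann).trans (le_of_eq ?_)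
      rw [h.card, nsmul_eq_mul, ← ENNReal.ofReal_natCast, ← ENNReal.ofReal_mul (by positivity)]
  have hL := h.one_le_Lam
  have hμ := sub_pos.mpr h.big
  refine (ENNReal.add_le_add_iff_left (ENNReal.mul_ne_top (ENNReal.natCast_ne_top n) hfin)).mp ?_
  calc _ ≤ ((∫⁻ w in F n c ⁻¹' (ball 0 6 \ K), ‖((n : ℂ) * w ^ (n - 1)) ^ 2 * B (F n c w)‖ₑ) +
        ∫⁻ w in F n c ⁻¹' (ball 0 6 \ K), ENNReal.ofReal
          (‖B w‖ + ‖B (ω ^ j * w)‖ - ‖B w + (ω ^ j) ^ 2 * B (ω ^ j * w)‖)) +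
        n * ∫⁻ w in ball 0 6 \ F n c ⁻¹' ball 0 6, ‖B w‖ₑ := by rw [← add_assoc]; gcongr
    _ ≤ (∫⁻ w in F n c ⁻¹' (ball 0 6 \ K), (∑ t ∈ Finset.range n, ‖B (ω ^ t * w)‖ₑ) +
          ENNReal.ofReal (‖a‖ * Lam n)) + n * ∫⁻ w in ball 0 6 \ F n c ⁻¹' ball 0 6, ‖B w‖ₑ := by
        gcongr
        rw [← lintegral_add_left (by fun_prop)]
        refine setLIntegral_mono' hU' fun w hw => ?_
        have h1 : ‖B w + (ω ^ j) ^ 2 * B (ω ^ j * w)‖ ≤ ‖B w‖ + ‖B (ω ^ j * w)‖ := by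
          refine (norm_add_le _ _).trans ?_
          rw [norm_mul, norm_pow, hn1, one_pow, one_mul]
        simp only [← ofReal_norm]
        rw [← ENNReal.ofReal_sum_of_nonneg fun _ _ => norm_nonneg _,
          ← ENNReal.ofReal_add (norm_nonneg _) (by linarith),
          ← ENNReal.ofReal_add (by positivity) (by positivity)]
        refine ENNReal.ofReal_le_ofReal ?_
        have h0 : 0 ∈ Finset.range n := Finset.mem_range.mpr (by omega)
        have hj' : j ∈ (Finset.range n).erase 0 := Finset.mem_erase.mpr ⟨hj0, Finset.mem_range.mpr hj⟩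
        rw [h.ident hω fun h' => hw.2 (hOK _ h'), ← Finset.add_sum_erase _ _ h0,
          ← Finset.add_sum_erase _ _ hj', ← Finset.add_sum_erase _ _ h0,
          ← Finset.add_sum_erase _ _ hj', ← add_assoc, pow_zero, one_pow, one_mul, one_mul]
        have h2 : ‖∑ t ∈ ((Finset.range n).erase 0).erase j, (ω ^ t) ^ 2 * B (ω ^ t * w)‖ ≤
            ∑ t ∈ ((Finset.range n).erase 0).erase j, ‖B (ω ^ t * w)‖ :=
          norm_sum_le_of_le _ fun t _ => by simp [hn1]
        have h3 : ‖a * (n ^ 2 * w ^ (n - 2))‖ ≤ ‖a‖ * Lam n := by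
          rw [norm_mul, norm_mul, norm_pow, norm_pow, Complex.norm_natCast, Lam]
          gcongr
          exact (pow_le_pow_left₀ (norm_nonneg _) (h.norm_lt_of_F hw.1).le _).trans
            (pow_le_pow_right₀ (by norm_num) (Nat.sub_le _ _))
        linarith [norm_add₃_le (a := B w + (ω ^ j) ^ 2 * B (ω ^ j * w))
          (b := ∑ t ∈ ((Finset.range n).erase 0).erase j, (ω ^ t) ^ 2 * B (ω ^ t * w))
          (c := a * (n ^ 2 * w ^ (n - 2)))]
    _ ≤ n * ((∫⁻ w in F n c ⁻¹' (ball 0 6 \ K), ‖B w‖ₑ) +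
          ∫⁻ w in ball 0 6 \ F n c ⁻¹' ball 0 6, ‖B w‖ₑ) + ENNReal.ofReal (‖a‖ * Lam n * 36) := by
        rw [lintegral_add_right _ measurable_const, lintegral_finsetSum _ fun t _ => by fun_prop,
          Finset.sum_congr rfl fun t _ => lint_rot (hn1 t) hU'
            (fun w => by simp only [mem_preimage, hrot]) fun w => ‖B w‖ₑ,
          Finset.sum_const, Finset.card_range, nsmul_eq_mul, mul_add, add_right_comm,
          setLIntegral_const, ENNReal.ofReal_mul (by positivity : 0 ≤ ‖a‖ * Lam n)]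
        gcongr
        refine (measure_mono fun w hw => mem_ball_zero_iff.mpr (h.norm_lt_of_F hw.1)).trans
          ((vol_ball_le 0 (by norm_num)).trans (le_of_eq (by norm_num)))
    _ ≤ _ := by
        refine (add_le_add (mul_le_mul_right hD _) le_rfl).trans ?_
        rw [mul_add, add_assoc]
        gcongr
        rw [← ENNReal.ofReal_natCast, ← ENNReal.ofReal_mul (by positivity),
          ← ENNReal.ofReal_add (by positivity) (by positivity)]
        refine ENNReal.ofReal_le_ofReal ?_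
        have h1 : (n : ℝ) * (k * (120 * (‖ρ‖ - 1))) ≤ Lam n * (k * (120 * (‖ρ‖ - 1))) := by
          gcongr; exact (le_Lam h.hn).1
        have h2 : 0 ≤ ‖a‖ * Lam n := by positivity
        nlinarith

theorem loss {ω : ℂ} (hω : IsPrimitiveRoot ω n) {j : ℕ} (hj0 : j ≠ 0) (hj : j < n) :
    ∫⁻ w in ball 0 4, ENNReal.ofReal
        (‖qd O (coef n c k ρ) w‖ + ‖qd O (coef n c k ρ) (ω ^ j * w)‖ -
          ‖qd O (coef n c k ρ) w + (ω ^ j) ^ 2 * qd O (coef n c k ρ) (ω ^ j * w)‖) ≤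
      ENNReal.ofReal (120 * Lam n * (k * (‖ρ‖ - 1) + ‖∑ x ∈ O, coef n c k ρ x‖)) := by
  have hev := h.loss_aux hω hj0 hj
  set B := qd O (coef n c k ρ) with hB
  have hBm : Measurable B := qd_meas _ _
  set ℒ : ℂ → ℝ≥0∞ := fun w => ENNReal.ofReal
    (‖B w‖ + ‖B (ω ^ j * w)‖ - ‖B w + (ω ^ j) ^ 2 * B (ω ^ j * w)‖) with hℒ
  have hn0 : n ≠ 0 := by have := h.hn; omega
  have hn1 : ‖ω ^ j‖ = 1 := by rw [norm_pow, hω.norm'_eq_one hn0, one_pow]
  have hA : MeasurableSet (ball (0 : ℂ) 6 \ F n c ⁻¹' ball 0 6) :=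
    measurableSet_ball.diff ((by fun_prop : Measurable (F n c)) measurableSet_ball)
  have h1 : ∫⁻ w in ball 0 6 \ F n c ⁻¹' ball 0 6, ℒ w ≤
      n * ∫⁻ w in ball 0 6 \ F n c ⁻¹' ball 0 6, ‖B w‖ₑ := by
    calc _ ≤ ∫⁻ w in ball 0 6 \ F n c ⁻¹' ball 0 6, ‖B w‖ₑ + ‖B (ω ^ j * w)‖ₑ := by
          refine lintegral_mono fun w => ?_
          rw [← ofReal_norm, ← ofReal_norm, ← ENNReal.ofReal_add (norm_nonneg _) (norm_nonneg _)]
          exact ENNReal.ofReal_le_ofReal (sub_le_self _ (norm_nonneg _))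
      _ ≤ _ := by
          rw [lintegral_add_left hBm.enorm, lint_rot hn1 hA (fun w => ?_) fun w => ‖B w‖ₑ, ← two_mul]
          · gcongr; exact_mod_cast h.hn
          · simp only [mem_diff, mem_preimage, mem_ball_zero_iff, norm_mul, hn1, one_mul, F, mul_pow]
            rw [← pow_mul, mul_comm j n, pow_mul, hω.pow_eq_one, one_pow, one_mul]
  set S : ℕ → Set ℂ := fun m => F n c ⁻¹' (ball 0 6 \ ⋃ x ∈ O,
    ball x (1 / ((m : ℝ) + 1) / wt n c k 1 x)) ∪ (ball 0 6 \ F n c ⁻¹' ball 0 6) with hS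
  have hw := fun x hx => (h.wt_bounds zero_le_one le_rfl (x := x) hx).1
  have hmono : Monotone S := fun m m' hm => union_subset_union_left _ (preimage_mono
    (diff_subset_diff_right (iUnion₂_mono fun x hx => ball_subset_ball (by
      have := hw x hx; gcongr))))
  have hnull : volume (F n c ⁻¹' (O : Set ℂ)) = 0 := by
    refine Set.Finite.measure_zero (O.finite_toSet.preimage' fun x _ => ?_) _
    refine ((X ^ n - C (x - c)).roots.toFinset.finite_toSet).subset fun w hw => ?_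
    rw [Finset.mem_coe, Multiset.mem_toFinset, mem_roots (X_pow_sub_C_ne_zero (by omega) _)]
    simp [← (show w ^ n + c = x from hw)]
  calc _ ≤ ∫⁻ w in (⋃ m, S m) ∪ F n c ⁻¹' (O : Set ℂ), ℒ w := by
        refine lintegral_mono_set fun w hw4 => ?_
        by_cases h2 : F n c w ∈ O
        · exact Or.inr h2
        by_cases h3 : F n c w ∈ ball (0 : ℂ) 6
        swap
        · exact Or.inl (mem_iUnion.mpr ⟨0, Or.inr ⟨ball_subset_ball (by norm_num) hw4, h3⟩⟩)
        obtain ⟨m, hm⟩ := ((O.eventually_all).mpr fun x hx =>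
          tendsto_one_div_add_atTop_nhds_zero_nat.eventually
            (gt_mem_nhds (dist_pos.mpr fun e : F n c w = x => h2 (e ▸ hx)))).exists
        refine Or.inl (mem_iUnion.mpr ⟨m, Or.inl ⟨h3, fun h4 => ?_⟩⟩)
        obtain ⟨x, hx, h5⟩ := mem_iUnion₂.mp h4
        exact absurd ((mem_ball.mp h5).trans_le (div_le_self (by positivity) (hw x hx)))
          (not_lt.mpr (hm x hx).le)
    _ ≤ _ := by
        refine (lintegral_union_le _ _ _).trans ?_
        rw [setLIntegral_measure_zero _ _ hnull, add_zero,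
          setLIntegral_iUnion_of_directed _ hmono.directed_le]
        refine iSup_le fun m => ?_
        have h2 : Tendsto (fun m : ℕ => 1 / ((m : ℝ) + 1)) atTop (𝓝[>] 0) :=
          tendsto_nhdsWithin_iff.mpr ⟨tendsto_one_div_add_atTop_nhds_zero_nat,
            Eventually.of_forall fun m => mem_Ioi.mpr (by positivity)⟩
        obtain ⟨m', h3, h4⟩ := ((h2.eventually hev).and (eventually_ge_atTop m)).exists
        exact (lintegral_mono_set (hmono h4)).trans ((lintegral_union_le _ _ _).trans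
          ((add_le_add le_rfl h1).trans h3))

theorem far {w : ℂ} (hw : 4 ≤ ‖w‖) : ‖qd O (coef n c k ρ) w‖ ≤
    120 * Lam n * (k * (‖ρ‖ - 1) + ‖∑ x ∈ O, coef n c k ρ x‖) := by
  have hn := h.hn
  obtain ⟨η, hη⟩ := (h.loss_aux (Complex.isPrimitiveRoot_exp n (by omega)) one_ne_zero
    (by omega)).exists
  have hL := h.one_le_Lam
  have hμ := sub_pos.mpr h.big
  have h1 : ∀ z, ‖z‖ = 4 → ‖qd O (coef n c k ρ) z‖ ≤
      120 * Lam n * (k * (‖ρ‖ - 1) + ‖∑ x ∈ O, coef n c k ρ x‖) := fun z hz => by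
    have h2 : ∀ u ∈ ball z 1, 3 < ‖u‖ ∧ ‖u‖ < 5 := fun u hu => by
      have := abs_lt.mp ((abs_norm_sub_norm_le u z).trans_lt (mem_ball_iff_norm.mp hu))
      constructor <;> linarith
    have h3 : DifferentiableOn ℂ (qd O (coef n c k ρ)) (ball z 1) := fun u hu =>
      (qd_diff _ fun h' => by linarith [h.norm_le h', (h2 u hu).1]).differentiableWithinAt
    have h4 := area_mean (G := fun u => ‖qd O (coef n c k ρ) u‖) one_pos (norm_nonneg _)
      h3.continuousOn.norm fun t _ => ⟨_, h3, le_rfl, fun _ _ => le_rfl⟩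
    simp only [ofReal_norm, one_pow, mul_one] at h4
    rw [← ENNReal.ofReal_le_ofReal_iff (by positivity), ofReal_norm]
    refine h4.trans ((lintegral_mono_set fun u hu => ?_).trans (le_trans (le_mul_of_one_le_left'
      (by exact_mod_cast (by omega : 1 ≤ n))) (le_add_self.trans hη)))
    exact ⟨mem_ball_zero_iff.mpr (by linarith [(h2 u hu).2]),
      fun h' => by linarith [h.norm_lt_of_F h', (h2 u hu).1]⟩
  set g : ℂ → ℂ := fun ζ => ∑ x ∈ O, ((ζ / (1 - x * ζ)) ^ 2 + coef n c k ρ x * (ζ / (1 - x * ζ)))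
  have hg : ∀ z, z ≠ 0 → g z⁻¹ = qd O (coef n c k ρ) z := fun z hz =>
    Finset.sum_congr rfl fun x _ => by
      rw [show z⁻¹ / (1 - x * z⁻¹) = (z - x)⁻¹ by
        rw [div_eq_mul_inv, ← mul_inv, mul_sub, mul_one, mul_left_comm, mul_inv_cancel₀ hz, mul_one]]
  have hd : DiffContOnCl ℂ g (ball 0 4⁻¹) := by
    refine DifferentiableOn.diffContOnCl fun ζ hζ => DifferentiableAt.differentiableWithinAt
      (DifferentiableAt.fun_sum fun x hx => ?_)
    have h2 : 1 - x * ζ ≠ 0 := fun e => by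
      have h3 := congrArg norm (sub_eq_zero.mp e)
      rw [norm_one, norm_mul] at h3
      nlinarith [h.norm_le hx, mem_closedBall_zero_iff.mp (closure_ball_subset_closedBall hζ),
        norm_nonneg ζ, norm_nonneg x]
    fun_prop (disch := exact h2)
  rw [← hg w (norm_pos_iff.mp (by linarith))]
  refine norm_le_of_forall_mem_frontier_norm_le isBounded_ball hd (fun ζ hζ => ?_) ?_
  · rw [frontier_ball _ (by norm_num), mem_sphere_zero_iff_norm] at hζ
    have h2 : ‖ζ⁻¹‖ = 4 := by rw [norm_inv, hζ, inv_inv]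
    rw [← inv_inv ζ, hg _ (norm_pos_iff.mp (by linarith))]
    exact h1 _ h2
  · rw [closure_ball _ (by norm_num), mem_closedBall_zero_iff, norm_inv]
    gcongr

end Cyc

end Pool.Agent.Lib.MP_c35c17_an.Q
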