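import Pool.Agent.Lib.MP_c35c17_an.QStruct
import Pool.Agent.Lib.MP_c35c17_an.QCore

set_option autoImplicit false

open Filter Topology Set Metric Complex
open scoped ComplexConjugate

namespace Pool.Agent.Lib.MP_c35c17_an.Q

theorem deriv_rel {n : ℕ} {c : ℂ} {d : ℕ} {φ α β : ℂ → ℂ} (hβ : DifferentiableOn ℂ β (ball 0 1))
    (h : ∀ w ∈ ball (0 : ℂ) 1, (F n c)^[d] (β w) = α w) {w : ℂ} (hw : w ∈ ball (0 : ℂ) 1)
    (he : α w = β w) (hφ : DifferentiableAt ℂ φ (β w)) :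
    deriv (φ ∘ α) w = dF n c d (β w) * deriv (φ ∘ β) w := by
  have hn := isOpen_ball.mem_nhds hw
  have h1 := (hβ.differentiableAt hn).hasDerivAt
  have h2 : HasDerivAt α (dF n c d (β w) * deriv β w) w :=
    ((hasDerivAt_iter n c d (β w)).comp w h1).congr_of_eventuallyEq
      (eventually_of_mem hn fun z hz => (h z hz).symm)
  rw [(hφ.hasDerivAt.comp w h1).deriv, (HasDerivAt.comp w (he ▸ hφ.hasDerivAt) h2).deriv, he]
  ring

theorem horo {p ξ ξ' : ℂ} (hp : ‖p‖ < 1) (h : ‖ξ‖ < 1) (h' : ‖ξ'‖ < 1) (h1 : ‖mob (-p) ξ‖ ≤ ‖p‖)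
    (h2 : ‖mob (-p) ξ'‖ ≤ ‖p‖) : ‖ξ‖ ^ 2 + ‖ξ'‖ ^ 2 ≤ ‖ξ + ξ'‖ := by
  have key : ∀ ξ : ℂ, ‖ξ‖ < 1 → ‖mob (-p) ξ‖ ≤ ‖p‖ →
      (1 + ‖p‖ ^ 2) * ‖ξ‖ ^ 2 ≤ -2 * (conj p * ξ).re := fun ξ h h1 => by
    have hp' : ‖-p‖ < 1 := by rwa [norm_neg]
    have h2 := mob_norm_sq hp' h.le
    have h3 := norm_pos_iff.mpr (mob_den_ne hp' h.le)
    have h4 : 0 < 1 - ‖p‖ ^ 2 := by nlinarith [norm_nonneg p]
    have h5 : ‖mob (-p) ξ‖ ^ 2 ≤ ‖p‖ ^ 2 := by gcongr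
    rw [norm_neg, eq_div_iff (by positivity)] at h2
    have h6 : ‖1 - conj (-p) * ξ‖ ^ 2 ≤ 1 - ‖ξ‖ ^ 2 := by
      refine le_of_mul_le_mul_left ?_ h4
      rw [← h2]; gcongr
    rw [map_neg, neg_mul, sub_neg_eq_add, ← normSq_eq_norm_sq, normSq_add, normSq_eq_norm_sq (_ * _),
      norm_mul, RCLike.norm_conj, mul_pow] at h6
    simp only [map_one, one_mul, conj_re] at h6
    linarith
  have h3 : -(conj p * (ξ + ξ')).re ≤ ‖p‖ * ‖ξ + ξ'‖ := by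
    rw [← RCLike.norm_conj p, ← norm_mul]
    exact (neg_le_abs _).trans (abs_re_le_norm _)
  rw [mul_add, add_re] at h3
  refine le_of_mul_le_mul_left (a := 1 + ‖p‖ ^ 2) ?_ (by positivity)
  nlinarith [key ξ h h1, key ξ' h' h2, mul_nonneg (sq_nonneg (1 - ‖p‖)) (norm_nonneg (ξ + ξ'))]

namespace Model
variable {n : ℕ} {c : ℂ} {k : ℕ} {O : Finset ℂ} {ρ : ℂ} {W : Set ℂ} {κ : ℝ}

theorem part1 (m : Model n c k O W κ) (h : Cyc n c k O ρ) (hκ : 128 * (k : ℝ) ^ 2 * κ ≤ 1) :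
    ‖ρ - 1‖ ≤ 36 * k * κ := by
  have hk : (1 : ℝ) ≤ k := by exact_mod_cast h.pos
  obtain ⟨x, hx, φ, ψ, hb, rfl⟩ := m.chart
  obtain ⟨y, hy, hyW, hne, hle⟩ := m.jen φ ψ hb hx
  obtain ⟨α, β, a1, a2, a3, a4, a5, hA, hC⟩ := m.inv k le_rfl φ ψ φ ψ hb hb hx (h.per _ hx).symm
  have h00 : (0 : ℂ) ∈ ball (0 : ℂ) 1 := mem_ball_self one_pos
  have hκ0 : 0 ≤ κ := by linarith [hA.big, hA.deriv_le]
  have hκ1 : κ ≤ 1 / 2 := by nlinarith [one_le_pow₀ hk (n := 2)]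
  obtain ⟨w, h1, -, h2⟩ := hA.cover (by positivity) (by
    rw [div_pow, div_div, le_div_iff₀ (by positivity)]; linarith) hle
  have h3 : ‖w‖ ≤ 1 - 1 / (4 * k) := h1.trans_eq (by field_simp; ring)
  have hw : w ∈ ball (0 : ℂ) 1 := mem_ball_zero_iff.mpr (by
    have : 0 < 1 / (4 * (k : ℝ)) := by positivity
    linarith)
  have h4 : α w = y := hb.injOn (a3 hw) hyW h2
  have h5 : β w = y := by rw [← h.per _ ((a5 w hw).2 (h4 ▸ hy)), (a5 w hw).1, h4]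
  have h6 : α 0 = ψ 0 := by rw [← hb.left _ (a3 h00)]; exact congrArg ψ hA.zero
  have h7 : β 0 = ψ 0 := by rw [← hb.left _ (a4 h00)]; exact congrArg ψ hC.zero
  have hw0 : 0 < ‖w‖ := norm_pos_iff.mpr fun e => hne (by rw [← h4, e, h6])
  obtain ⟨ι, -, b1, b2⟩ := hA.approx (by linarith)
  obtain ⟨ι', -, c1, c2⟩ := hC.approx (by linarith)
  have h8 : ‖ι - ι'‖ ≤ 16 * k * κ := by
    refine le_of_mul_le_mul_right ?_ hw0
    have h9 := norm_sub_le ((φ ∘ β) w - ι' * w) ((φ ∘ α) w - ι * w)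
    rw [show (φ ∘ β) w - ι' * w - ((φ ∘ α) w - ι * w) = (ι - ι') * w by
      simp only [Function.comp_apply, h4, h5]; ring, norm_mul] at h9
    linarith [approx_le b2 (by positivity) h3, approx_le c2 (by positivity) h3]
  have h9 := deriv_rel a2 (fun w hw => (a5 w hw).1) h00 (h6.trans h7.symm)
    (hb.dφ.differentiableAt (m.opn.mem_nhds (a4 h00)))
  rw [h7, h.mult _ hx] at h9
  have h10 : ‖ρ - 1‖ * ‖deriv (φ ∘ β) 0‖ ≤ 18 * k * κ := by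
    rw [← norm_mul, sub_one_mul, ← h9, show deriv (φ ∘ α) 0 - deriv (φ ∘ β) 0 =
      (deriv (φ ∘ α) 0 - ι) + (ι - ι') + -(deriv (φ ∘ β) 0 - ι') by ring]
    refine norm_add₃_le.trans ?_
    rw [norm_neg]
    nlinarith
  nlinarith [hC.big, norm_nonneg (ρ - 1)]

theorem part2 (m : Model n c k O W κ) (h : Cyc n c k O ρ) (hκ0 : 0 < κ)
    (hκ : 10 ^ 9 * (k : ℝ) ^ 7 * κ ≤ 1) : ∃ d z, 1 ≤ d ∧ d ≤ k ∧ (F n c)^[d] z = z ∧
      ‖dF n c d z‖ ≤ 1 + 2 * 10 ^ 6 * k ^ 6 * κ ∧ 1 / (5 * k) ≤ ‖dF n c d z - 1‖ := by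
  classical
  have h00 : (0 : ℂ) ∈ ball (0 : ℂ) 1 := mem_ball_self one_pos
  obtain ⟨x, hx, φ₁, ψ₁, hb₁, rfl⟩ := m.chart
  obtain ⟨x₀, hx₀, hmax⟩ := (O.filter (· ∈ W)).exists_max_image (fun z => ‖φ₁ z‖)
    ⟨_, Finset.mem_filter.mpr ⟨hx, hb₁.mψ h00⟩⟩
  obtain ⟨hO, hW⟩ := Finset.mem_filter.mp hx₀
  have hp := hb₁.lt hW
  have hb := hb₁.trans (bihol_mob hp)
  have hφ : ∀ z ∈ O, z ∈ W → ‖mob (-φ₁ x₀) ((mob (φ₁ x₀) ∘ φ₁) z)‖ ≤ ‖φ₁ x₀‖ := fun z hz hz' => by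
    rw [Function.comp_apply, mob_neg_mob hp (hb₁.lt hz').le]
    exact hmax z (Finset.mem_filter.mpr ⟨hz, hz'⟩)
  have hψ : (ψ₁ ∘ mob (-φ₁ x₀)) 0 = x₀ := by simp [hb₁.left _ hW]
  generalize mob (φ₁ x₀) ∘ φ₁ = φ at hb hφ
  generalize ψ₁ ∘ mob (-φ₁ x₀) = ψ at hb hψ
  have hφ0 : φ x₀ = 0 := by rw [← hψ, hb.right 0 h00]
  obtain ⟨y, hy, hyW, hne, hle⟩ := m.jen φ ψ hb (hψ ▸ hO)
  obtain ⟨d, hd1, hdk, hd⟩ := h.trans y hy x₀ hO
  have hu := hb.lt hyW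
  have hψy : (ψ ∘ mob (-φ y)) 0 = y := by simp [hb.left _ hyW]
  obtain ⟨α, β, a1, a2, a3, a4, a5, hA, hC⟩ := m.inv d hdk _ _ φ ψ (hb.trans (bihol_mob hu)) hb
    (hψy.symm ▸ hy) (by rw [hψy, hd, hψ])
  have hG : ∀ w, ‖w‖ < 1 → mob (-φ y) (((mob (φ y) ∘ φ) ∘ β) w) = φ (β w) := fun w hw =>
    mob_neg_mob hu (hb.lt (a4 (mem_ball_zero_iff.mpr hw))).le
  obtain ⟨w, h1, h2, h3⟩ := rigid_core hA hC h.pos hκ0 hκ (u := φ y)
    (fun e => hne (by rw [← e, hb.left _ hyW])) hle (fun w hw e => by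
      have hw' := mem_ball_zero_iff.mpr hw
      have h1 := hG w hw
      rw [e, mob_self, ← hφ0] at h1
      have h2 : α w ∈ O := by
        rw [← (a5 w hw').1, ← hb.injOn hW (a4 hw') h1]; exact h.iter_mem hO d
      exact horo hp hu (hb.lt (a3 hw')) (hφ y hy hyW) (hφ _ h2 (a3 hw')))
    (R := fun i ξ => ∃ z ∈ O, z ∈ W ∧ φ z = ξ ∧ (F n c)^[d * i] z = x₀) ⟨x₀, hO, hW, hφ0, rfl⟩
    (fun i w hw ⟨z, h1, h2, h3, h4⟩ => by
      have hw' := mem_ball_zero_iff.mpr hw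
      obtain rfl := hb.injOn h2 (a3 hw') h3
      exact ⟨β w, (a5 w hw').2 h1, a4 hw', (hG w hw).symm, by
        rw [mul_add_one, Function.iterate_add_apply, (a5 w hw').1, h4]⟩)
    (fun ξ ⟨z, h1, _, h3, h4⟩ => by
      rw [mul_comm, Function.iterate_mul, Function.iterate_fixed (h.per z h1)] at h4
      rw [← h3, h4, hφ0])
  have hw := mem_ball_zero_iff.mpr h1
  have h4 : α w = β w := hb.injOn (a3 hw) (a4 hw) (h2.trans (hG w h1))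
  refine ⟨d, β w, hd1, hdk, (a5 w hw).1.trans h4, h3 _ ?_⟩
  rw [deriv_rel a2 (fun w hw => (a5 w hw).1) hw h4 (hb.dφ.differentiableAt (m.opn.mem_nhds (a4 hw)))]
  congr 1
  exact EventuallyEq.deriv_eq (eventually_of_mem (isOpen_ball.mem_nhds hw) fun z hz =>
    (hG z (mem_ball_zero_iff.mp hz)).symm)

end Model

theorem exists_model {n : ℕ} (hn : 2 ≤ n) : ∃ C : ℝ, 4 ≤ C ∧ ∀ (c : ℂ) (k : ℕ) (O : Finset ℂ) (ρ : ℂ),
    Cyc n c k O ρ → ∀ H : ℝ, C * k ≤ H → 1 ≤ (‖ρ‖ - 1) * H ^ 24 →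
      (k * (‖ρ‖ - 1) + ‖∑ x ∈ O, coef n c k ρ x‖) * H ^ 23 ≤ 1 → ∃ W, Model n c k O W (3 / H) := by
  have hB := bumpC_spec.1
  have hκ := kappa_pos
  have hL := (le_Lam hn).2
  refine ⟨10 ^ 12 * Lam n ^ 2 + 16 * (4 ^ n + 3) + 115200 * n * bumpC / ‖kappa‖, ?_,
    fun c k O ρ h H hH h1 h2 => ?_⟩
  · have : 0 ≤ 115200 * n * bumpC / ‖kappa‖ := by positivity
    have : (0 : ℝ) ≤ 4 ^ n := by positivity
    nlinarith
  have hk : (1 : ℝ) ≤ k := by exact_mod_cast h.pos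
  have hμ := sub_pos.mpr h.big
  obtain ⟨c1, c2, c3⟩ : 10 ^ 12 * Lam n ^ 2 * k ≤ H ∧ 16 * (4 ^ n + 3) ≤ H ∧
      115200 * n * bumpC / ‖kappa‖ ≤ H := by
    have e1 : 0 ≤ 115200 * n * bumpC / ‖kappa‖ := by positivity
    have e2 : (0 : ℝ) ≤ 16 * (4 ^ n + 3) := by positivity
    have e3 : 0 ≤ 10 ^ 12 * Lam n ^ 2 := by positivity
    refine ⟨?_, ?_, ?_⟩ <;> nlinarith
  have hL2 : Lam n ≤ Lam n ^ 2 := by nlinarith
  have c4 : 10 ^ 12 * Lam n ^ 2 ≤ H := le_trans (le_mul_of_one_le_right (by positivity) hk) c1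
  have c5 : 16 * (Lam n * k) ≤ H := by nlinarith
  have hH1 : 80 ≤ H := by nlinarith
  have hkH : (k : ℝ) ≤ H := by nlinarith
  have hH0 : 0 < H := by linarith
  have hp : ∀ {i j : ℕ}, i ≤ j → H ^ i ≤ H ^ j := fun hij => pow_le_pow_right₀ (by linarith) hij
  set ε := k * (‖ρ‖ - 1) + ‖∑ x ∈ O, coef n c k ρ x‖ with hε
  have hε0 : 0 ≤ ε := by positivity
  obtain ⟨X, X', hX⟩ := h.exists_X (M := H ^ 6) (y := 1 / H ^ 7)
    (by linarith [hp (by norm_num : 1 ≤ 6)]) (by positivity)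
    (by rw [div_le_one (by positivity)]; exact one_le_pow₀ (by linarith)) (by
      rw [div_pow, one_pow, le_div_iff₀ (by positivity)]
      calc _ ≤ H * H ^ 2 * H ^ 6 * ε * (H ^ 7) ^ 2 := by gcongr; linarith
        _ = ε * H ^ 23 := by ring
        _ ≤ 1 := h2)
  have hE : 1 ≤ Lam n ^ (3 * k + 2) / (‖ρ‖ - 1) :=
    (one_le_pow₀ h.one_le_Lam).trans (le_div_self (by positivity) hμ (by linarith [h.small]))
  have hJ1 : H ^ 4 ≤ ⌈H ^ 4⌉₊ := Nat.le_ceil _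
  have hJ2 : (⌈H ^ 4⌉₊ : ℝ) * k + 1 ≤ 3 * H ^ 5 := by
    have e1 := (Nat.ceil_lt_add_one (by positivity : 0 ≤ H ^ 4)).le
    have e2 : 1 ≤ H ^ 4 := one_le_pow₀ (by linarith)
    have e3 : 1 ≤ H ^ 5 := one_le_pow₀ (by linarith)
    have e4 : (⌈H ^ 4⌉₊ : ℝ) * k ≤ 2 * H ^ 4 * H := by gcongr; linarith
    linarith
  refine h.exists_model hX (by positivity) ?_ (le_add_of_nonneg_right (by positivity))
    (by positivity) (J := ⌈H ^ 4⌉₊) (Nat.ceil_pos.mpr (by positivity)) ?_ (L := H ^ 2) ?_ ?_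
    (by rw [div_lt_one hH0]; linarith)
  · rw [div_le_one (by positivity)]
    calc (1 : ℝ) = 1 * 1 * 1 ^ 2 := by ring
      _ ≤ _ := by gcongr; exacts [by norm_num, one_le_pow₀ (by linarith)]
  · have e1 : (1 + 3 * Lam n ^ 2 / H ^ 6) ^ (⌈H ^ 4⌉₊ * k + 1) ≤ 3 := by
      calc _ ≤ Real.exp (3 * Lam n ^ 2 / H ^ 6) ^ (⌈H ^ 4⌉₊ * k + 1) := by
            gcongr; linarith [Real.add_one_le_exp (3 * Lam n ^ 2 / H ^ 6)]
        _ ≤ Real.exp 1 := by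
            rw [← Real.exp_nat_mul, Real.exp_le_exp, mul_div_assoc', div_le_one (by positivity)]
            push_cast
            calc _ ≤ 3 * H ^ 5 * (3 * Lam n ^ 2) := by gcongr
              _ = H ^ 5 * (9 * Lam n ^ 2) := by ring
              _ ≤ H ^ 5 * H := by gcongr; nlinarith
              _ = _ := by ring
        _ ≤ 3 := by linarith [Real.exp_one_lt_d9]
    rw [div_le_iff₀ hκ] at c3
    calc _ ≤ 3 * H ^ 5 * 3 * (n * (800 * bumpC * H * (1 / H ^ 7))) := by gcongr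
      _ = 115200 * n * bumpC / H / 16 := by field_simp; ring
      _ ≤ _ := by gcongr; rw [div_le_iff₀ hH0]; linarith
  · have e1 : 1 / (‖ρ‖ - 1) ≤ H ^ 24 := by rw [div_le_iff₀ hμ]; linarith
    have e2 : Lam n ^ (10 * k + 6) ≤ Real.exp H := by
      calc _ ≤ Lam n ^ (16 * k) := pow_le_pow_right₀ h.one_le_Lam (by have := h.pos; omega)
        _ ≤ Real.exp (Lam n) ^ (16 * k) := by gcongr; linarith [Real.add_one_le_exp (Lam n)]
        _ ≤ _ := by rw [← Real.exp_nat_mul, Real.exp_le_exp]; push_cast; linarith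
    have e3 : H ≤ Real.exp H := by linarith [Real.add_one_le_exp H]
    calc _ = 16 * (4 ^ n + 3) * H ^ 6 * (1 / (‖ρ‖ - 1)) ^ 3 * Lam n ^ (10 * k + 6) := by
          field_simp; ring
      _ ≤ H * H ^ 6 * (H ^ 24) ^ 3 * Real.exp H := by gcongr
      _ = H ^ 79 * Real.exp H := by ring
      _ ≤ Real.exp H ^ 79 * Real.exp H := by gcongr
      _ ≤ _ := by rw [← pow_succ, ← Real.exp_nat_mul, Real.exp_le_exp]; push_cast; nlinarith
  · have e1 : k * (‖ρ‖ - 1) ≤ 1 / H := by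
      rw [le_div_iff₀ hH0]
      calc _ ≤ ε * H ^ 23 := by
            gcongr
            exacts [le_add_of_nonneg_right (norm_nonneg _), by simpa using hp (by norm_num : 1 ≤ 23)]
        _ ≤ 1 := h2
    have e2 : (k * H ^ 2 + k ^ 2) / ⌈H ^ 4⌉₊ ≤ 2 / H := by
      calc _ ≤ (H * H ^ 2 + H ^ 3) / H ^ 4 := by
            gcongr
            exact (pow_le_pow_left₀ (by positivity) hkH 2).trans (hp (by norm_num))
        _ = _ := by field_simp; ring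
    rw [show 3 / H = 2 / H + 1 / H by ring]
    linarith

end Pool.Agent.Lib.MP_c35c17_an.Q
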