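import Pool.Agent.Lib.MP_c35c17_an.QMain

set_option autoImplicit false

open Filter Topology Set Metric Complex MeasureTheory
open scoped ENNReal Real

namespace Pool.Agent.Lib.MP_c35c17_an.Q

theorem meas_rect {s t : Set ℝ} (hs : MeasurableSet s) (ht : MeasurableSet t) :
    MeasurableSet (s ×ℂ t) := (measurable_re hs).inter (measurable_im ht)

theorem lintegral_rect {s t : Set ℝ} (hs : MeasurableSet s) (ht : MeasurableSet t) {G : ℂ → ℝ}
    (hG : ContinuousOn G (s ×ℂ t)) : ∫⁻ u in s ×ℂ t, ENNReal.ofReal (G u) =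
      ∫⁻ y in t, ∫⁻ x in s, ENNReal.ofReal (G (x + y * I)) := by
  have e : ∀ p : ℝ × ℝ, measurableEquivRealProd.symm p = p.1 + p.2 * I := fun p => by
    apply Complex.ext <;> simp
  have hp : measurableEquivRealProd.symm ⁻¹' (s ×ℂ t) = s ×ˢ t := by
    ext p; simp [mem_reProdIm]
  rw [← volume_preserving_equiv_real_prod.symm.setLIntegral_comp_preimage_emb
    measurableEquivRealProd.symm.measurableEmbedding, hp, Measure.volume_eq_prod,
    setLIntegral_prod_symm]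
  · simp only [e]
  · refine (ContinuousOn.aemeasurable ?_ (hs.prod ht)).ennreal_ofReal
    simp only [e]
    refine hG.comp (by fun_prop) fun p hp => ?_
    simpa [mem_reProdIm] using hp

theorem log_area {s : Set ℂ} (hs : MeasurableSet s) {f f' : ℂ → ℂ}
    (hf : ∀ z ∈ s, HasDerivAt f (f' z) z) (hi : InjOn f s) :
    ∫⁻ w in f '' s, ENNReal.ofReal (1 / ‖w‖ ^ 2) =
      ∫⁻ u in s, ENNReal.ofReal (‖f' u‖ ^ 2 / ‖f u‖ ^ 2) := by
  rw [lintegral_image_holo' hs hf hi]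
  refine lintegral_congr fun u => ?_
  rw [← ENNReal.ofReal_mul (by positivity), mul_one_div]

theorem annulus_area {A : Set ℂ} {a b : ℝ} (ha : 0 < a) (hA : ∀ w ∈ A, a ≤ ‖w‖ ∧ ‖w‖ ≤ b) :
    ∫⁻ w in A, ENNReal.ofReal (1 / ‖w‖ ^ 2) ≤
      ENNReal.ofReal (Real.log b - Real.log a) * ENNReal.ofReal (2 * π) := by
  have hsub : A ⊆ exp '' (Icc (Real.log a) (Real.log b) ×ℂ Ioc (-π) π) := fun w hw => by
    have h0 : 0 < ‖w‖ := ha.trans_le (hA w hw).1
    refine ⟨log w, ⟨?_, ?_⟩, exp_log (norm_pos_iff.mp h0)⟩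
    · rw [mem_preimage, log_re]
      exact ⟨Real.log_le_log ha (hA w hw).1, Real.log_le_log h0 (hA w hw).2⟩
    · rw [mem_preimage, log_im]
      exact arg_mem_Ioc w
  refine (lintegral_mono_set hsub).trans (le_of_eq ?_)
  rw [log_area (meas_rect measurableSet_Icc measurableSet_Ioc) (fun z _ => hasDerivAt_exp z)
    fun x hx y hy h => exp_inj_of_neg_pi_lt_of_le_pi hx.2.1 hx.2.2 hy.2.1 hy.2.2 h]
  have e : ∀ u : ℂ, ‖exp u‖ ^ 2 / ‖exp u‖ ^ 2 = 1 := fun u =>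
    div_self (pow_ne_zero _ (norm_ne_zero_iff.mpr (exp_ne_zero u)))
  simp only [e]
  rw [lintegral_rect measurableSet_Icc measurableSet_Ioc (G := fun _ => 1) continuousOn_const]
  simp [two_mul]

theorem line_bound {h : ℂ → ℂ} {U : Set ℂ} (hU : IsOpen U) (hd : DifferentiableOn ℂ h U)
    {a b y β : ℝ} (hab : a ≤ b) (hβ : 0 ≤ β) (hin : ∀ x ∈ Icc a b, (x + y * I : ℂ) ∈ U)
    (h0 : ∀ x ∈ Icc a b, h (x + y * I) ≠ 0) :
    ENNReal.ofReal (2 * β * (Real.log ‖h (b + y * I)‖ - Real.log ‖h (a + y * I)‖) - β ^ 2 * (b - a)) ≤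
      ∫⁻ x in Icc a b, ENNReal.ofReal (‖deriv h (x + y * I)‖ ^ 2 / ‖h (x + y * I)‖ ^ 2) := by
  have hl : Continuous fun x : ℝ => (x + y * I : ℂ) := by fun_prop
  have hc : ContinuousOn (fun x : ℝ => ‖deriv h (x + y * I)‖ ^ 2 / ‖h (x + y * I)‖ ^ 2) (Icc a b) :=
    (((hd.deriv hU).continuousOn.comp hl.continuousOn hin).norm.pow 2).div
      ((hd.continuousOn.comp hl.continuousOn hin).norm.pow 2)
      fun x hx => pow_ne_zero _ (norm_ne_zero_iff.mpr (h0 x hx))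
  have hD : ∀ x ∈ Icc a b, HasDerivAt (fun x : ℝ => β * Real.log (‖h (x + y * I)‖ ^ 2) - β ^ 2 * x)
      (β * (2 * inner ℝ (h (x + y * I)) (deriv h (x + y * I)) / ‖h (x + y * I)‖ ^ 2) - β ^ 2 * 1) x := by
    intro x hx
    have h1 := (((hd.differentiableAt (hU.mem_nhds (hin x hx))).hasDerivAt.comp_add_const
      (x : ℂ) (y * I)).comp_ofReal).norm_sq
    exact ((h1.log (pow_ne_zero _ (norm_ne_zero_iff.mpr (h0 x hx)))).const_mul β).sub
      ((hasDerivAt_id x).const_mul _)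
  have h1 := intervalIntegral.sub_le_integral_of_hasDeriv_right_of_le hab
    (fun x hx => (hD x hx).continuousAt.continuousWithinAt)
    (fun x hx => (hD x (Ioo_subset_Icc_self hx)).hasDerivWithinAt) hc.integrableOn_Icc
    fun x hx => by
      have h2 := norm_pos_iff.mpr (h0 x (Ioo_subset_Icc_self hx))
      have h3 := real_inner_le_norm (h (x + y * I)) (deriv h (x + y * I))
      rw [← mul_div_assoc, sub_le_iff_le_add, div_add' _ _ _ (by positivity),
        div_le_div_iff_of_pos_right (by positivity)]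
      nlinarith [mul_le_mul_of_nonneg_left h3 hβ,
        sq_nonneg (‖deriv h (x + y * I)‖ - β * ‖h (x + y * I)‖)]
  rw [← ofReal_integral_eq_lintegral_ofReal hc.integrableOn_Icc
    (Eventually.of_forall fun x => by positivity), integral_Icc_eq_integral_Ioc,
    ← intervalIntegral.integral_of_le hab]
  refine ENNReal.ofReal_le_ofReal (le_trans (le_of_eq ?_) h1)
  simp only [Real.log_pow]
  push_cast
  ring

/-- The length-area inequality for disjoint invariant strips at a repelling fixed point. -/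
theorem length_area {ι : Type*} (T : Finset ι) (h : ι → ℂ → ℂ) {U : Set ℂ} (hU : IsOpen U)
    {a L μ ν η : ℝ} (hL : 0 < L) (h1 : 1 ≤ μ) (h2 : 1 ≤ ν) (hSU : Iic a ×ℂ Icc (-1) 1 ⊆ U)
    (hd : ∀ j ∈ T, DifferentiableOn ℂ (h j) U)
    (hinj : ∀ i ∈ T, ∀ j ∈ T, ∀ u ∈ Iic a ×ℂ Icc (-1) 1, ∀ v ∈ Iic a ×ℂ Icc (-1) 1,
      h i u = h j v → i = j ∧ u = v)
    (hb : ∀ j ∈ T, ∀ u ∈ Iic a ×ℂ Icc (-1) 1, h j u ≠ 0 ∧ ‖h j u‖ ≤ η ∧
      μ * ‖h j (u - L)‖ ≤ ‖h j u‖ ∧ ‖h j u‖ ≤ ν * ‖h j (u - L)‖) :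
    T.card * Real.log μ ^ 2 / L ≤ π * Real.log ν := by
  have hν := Real.log_nonneg h2
  have hμ := Real.log_nonneg h1
  rcases T.eq_empty_or_nonempty with rfl | ⟨j₀, hj₀⟩
  · simp only [Finset.card_empty, Nat.cast_zero, zero_mul, zero_div]; positivity
  have hsub : ∀ b, Icc b a ×ℂ Icc (-1) 1 ⊆ Iic a ×ℂ Icc (-1) 1 := fun b u hu => ⟨hu.1.2, hu.2⟩
  obtain ⟨ε, hε, hεT⟩ : ∃ ε > 0, ∀ j ∈ T, ∀ u ∈ Icc (a - L) a ×ℂ Icc (-1) 1, ε ≤ ‖h j u‖ := by
    have h3 : ∀ᶠ ε in 𝓝[>] (0 : ℝ), ∀ j ∈ T, ∀ u ∈ Icc (a - L) a ×ℂ Icc (-1) 1, ε ≤ ‖h j u‖ := by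
      refine (eventually_all_finset T).mpr fun j hj => ?_
      obtain ⟨e, he, he'⟩ := (isCompact_Icc.reProdIm isCompact_Icc).exists_forall_le'
        ((hd j hj).continuousOn.mono ((hsub (a - L)).trans hSU)).norm
        fun u hu => norm_pos_iff.mpr (hb j hj u (hsub _ hu)).1
      filter_upwards [nhdsWithin_le_nhds (Iic_mem_nhds he)] with ε hε u hu using hε.trans (he' u hu)
    exact (h3.and self_mem_nhdsWithin).exists.imp fun ε h => ⟨h.2, h.1⟩
  have hlow : ∀ m : ℕ, ∀ j ∈ T, ∀ u ∈ Icc (a - L - m * L) a ×ℂ Icc (-1) 1, ε ≤ ν ^ m * ‖h j u‖ := by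
    intro m j hj
    induction m with
    | zero => simpa using hεT j hj
    | succ m ih =>
      intro u hu
      by_cases h3 : a - L ≤ u.re
      · exact (hεT j hj u ⟨⟨h3, hu.1.2⟩, hu.2⟩).trans
          (le_mul_of_one_le_left (norm_nonneg _) (one_le_pow₀ h2))
      · have h4 : u + L ∈ Icc (a - L - m * L) a ×ℂ Icc (-1) 1 := by
          have h5 := hu.1.1
          push_cast at h5
          refine ⟨⟨?_, ?_⟩, by simpa using hu.2⟩ <;> simp only [add_re, ofReal_re] <;> linarith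
        have h5 := (hb j hj _ (hsub _ h4)).2.2.2
        rw [add_sub_cancel_right] at h5
        rw [pow_succ, mul_assoc]
        exact (ih _ h4).trans (mul_le_mul_of_nonneg_left h5 (by positivity))
  have hmem : ∀ (x y : ℝ), x ≤ a → y ∈ Icc (-1 : ℝ) 1 → (x + y * I : ℂ) ∈ Iic a ×ℂ Icc (-1) 1 :=
    fun x y hx hy => by simpa [mem_reProdIm, hx] using hy
  have hgr : ∀ m : ℕ, ∀ j ∈ T, ∀ y ∈ Icc (-1 : ℝ) 1,
      μ ^ m * ‖h j ((a - m * L : ℝ) + y * I)‖ ≤ ‖h j (a + y * I)‖ := by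
    intro m j hj y hy
    induction m with
    | zero => simp
    | succ m ih =>
      have h3 := (hb j hj _ (hmem (a - m * L) y (by nlinarith [Nat.cast_nonneg (α := ℝ) m]) hy)).2.2.1
      have e : (((a - m * L : ℝ) : ℂ) + y * I - L) = ((a - (m + 1 : ℕ) * L : ℝ) : ℂ) + y * I := by
        push_cast; ring
      rw [e] at h3
      rw [pow_succ, mul_assoc]
      exact (mul_le_mul_of_nonneg_left h3 (by positivity)).trans ih
  have hεη : ε ≤ η := by
    have h3 := hmem a 0 le_rfl (by norm_num)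
    exact (hεT j₀ hj₀ _ ⟨⟨by simpa using hL.le, h3.1⟩, h3.2⟩).trans (hb j₀ hj₀ _ h3).2.1
  have key : ∀ m : ℕ, T.card * (m * (Real.log μ ^ 2 / L) * 2) ≤
      (Real.log η - Real.log ε + m * Real.log ν) * (2 * π) := by
    intro m
    have hm : a - m * L ≤ a := by nlinarith [Nat.cast_nonneg (α := ℝ) m]
    set R := Icc (a - m * L) a ×ℂ Icc (-1) 1 with hR
    have hRc : IsCompact R := isCompact_Icc.reProdIm isCompact_Icc
    have hRU : R ⊆ U := (hsub _).trans hSU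
    have h3 : ∀ j ∈ T, ENNReal.ofReal (m * (Real.log μ ^ 2 / L) * 2) ≤
        ∫⁻ w in h j '' R, ENNReal.ofReal (1 / ‖w‖ ^ 2) := by
      intro j hj
      rw [log_area hRc.measurableSet
        (fun u hu => ((hd j hj).differentiableAt (hU.mem_nhds (hRU hu))).hasDerivAt)
        (fun u hu v hv e => (hinj j hj j hj u (hsub _ hu) v (hsub _ hv) e).2),
        lintegral_rect measurableSet_Icc measurableSet_Icc
        (G := fun u => ‖deriv (h j) u‖ ^ 2 / ‖h j u‖ ^ 2)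
        (((((hd j hj).deriv hU).continuousOn.mono hRU).norm.pow 2).div
          (((hd j hj).continuousOn.mono hRU).norm.pow 2)
          fun u hu => pow_ne_zero _ (norm_ne_zero_iff.mpr (hb j hj u (hsub _ hu)).1))]
      refine le_trans (le_of_eq ?_) (setLIntegral_mono' measurableSet_Icc
        (f := fun _ => ENNReal.ofReal (m * (Real.log μ ^ 2 / L))) fun y hy => ?_)
      · rw [setLIntegral_const, Real.volume_Icc, ← ENNReal.ofReal_mul (by positivity)]
        norm_num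
      · refine le_trans (ENNReal.ofReal_le_ofReal ?_) (line_bound hU (hd j hj) hm
          (div_nonneg hμ hL.le) (fun x hx => hSU (hmem x y hx.2 hy))
          fun x hx => (hb j hj _ (hmem x y hx.2 hy)).1)
        have h4 := norm_pos_iff.mpr (hb j hj _ (hmem _ y hm hy)).1
        have h5 := Real.log_le_log (by positivity) (hgr m j hj y hy)
        rw [Real.log_mul (by positivity) h4.ne', Real.log_pow] at h5
        have h6 := mul_le_mul_of_nonneg_left (le_sub_iff_add_le.mpr h5) (div_nonneg hμ hL.le)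
        have e : m * (Real.log μ ^ 2 / L) = 2 * (Real.log μ / L * (m * Real.log μ)) -
            (Real.log μ / L) ^ 2 * (a - (a - m * L)) := by field_simp; ring
        linarith
    have h4 := Finset.sum_le_sum h3
    rw [← lintegral_biUnion_finset _ fun j hj =>
      (hRc.image_of_continuousOn ((hd j hj).continuousOn.mono hRU)).measurableSet] at h4
    · have h5 := h4.trans (annulus_area (a := ε / ν ^ m) (b := η) (by positivity) fun w hw => by
        simp only [mem_iUnion] at hw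
        obtain ⟨j, hj, u, hu, rfl⟩ := hw
        refine ⟨(div_le_iff₀' (by positivity)).mpr (hlow m j hj u ⟨⟨?_, hu.1.2⟩, hu.2⟩),
          (hb j hj u (hsub _ hu)).2.1⟩
        linarith [hu.1.1])
      have h6 : 0 ≤ Real.log η - Real.log ε + m * Real.log ν := by
        have := Real.log_le_log hε hεη
        positivity
      rw [Real.log_div hε.ne' (by positivity), Real.log_pow, Finset.sum_const, nsmul_eq_mul,
        ← ENNReal.ofReal_natCast, ← ENNReal.ofReal_mul (by positivity), sub_sub_eq_add_sub,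
        ← sub_add_eq_add_sub, ← ENNReal.ofReal_mul h6] at h5
      exact (ENNReal.ofReal_le_ofReal_iff (by positivity)).mp h5
    · intro i hi j hj hij
      refine Set.disjoint_left.mpr ?_
      rintro _ ⟨u, hu, rfl⟩ ⟨v, hv, e⟩
      exact hij (hinj j hj i hi v (hsub _ hv) u (hsub _ hu) e).1.symm
  by_contra hcon
  obtain ⟨m, hm⟩ := exists_nat_gt ((Real.log η - Real.log ε) * π /
    (T.card * Real.log μ ^ 2 / L - π * Real.log ν))
  rw [div_lt_iff₀ (sub_pos.mpr (not_le.mp hcon)), mul_div_assoc] at hm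
  linarith [key m]

/-- A bounded function on a half strip with a limit along the axis has it in smaller strips. -/
theorem lindelof {H : ℂ → ℂ} {C : ℝ} (hd : DifferentiableOn ℂ H (univ ×ℂ Ioo (-(3 / 2)) (3 / 2)))
    (hC : ∀ u ∈ Iic 0 ×ℂ Ioo (-(3 / 2)) (3 / 2), ‖H u‖ ≤ C)
    (h0 : Tendsto (fun x : ℝ => H x) atBot (𝓝 0)) {η : ℝ} (hη : 0 < η) :
    ∃ a, ∀ u ∈ Iic a ×ℂ Icc (-1) 1, ‖H u‖ ≤ η := by
  by_contra hcon
  push Not at hcon
  choose u hu hu' using fun m : ℕ => hcon (-m - 1)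
  set V : Set ℂ := Iio 1 ×ℂ Ioo (-(3 / 2)) (3 / 2) with hV
  have hVo : IsOpen V := isOpen_Iio.reProdIm isOpen_Ioo
  have hVc : Convex ℝ V := by
    rw [hV, ← convexHull_eq_self, convexHull_reProdIm, (convex_Iio _).convexHull_eq,
      (convex_Ioo _ _).convexHull_eq]
  obtain ⟨G, hG, hGd⟩ := montel (hyperfilter ℕ) hVo (F := fun m v => H (v + (u m).re)) (C := C)
    fun z hz => by
      obtain ⟨r, hr, hrV⟩ := Metric.isOpen_iff.mp hVo z hz
      refine ⟨r, hr, Eventually.of_forall fun m => ⟨hd.comp (by fun_prop) fun w hw => ?_,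
        fun w hw => hC _ ⟨?_, by simpa using (hrV hw).2⟩⟩⟩
      · exact ⟨mem_univ _, by simpa using (hrV hw).2⟩
      · have h1 : w.re < 1 := (hrV hw).1
        have h2 : (u m).re ≤ -m - 1 := (hu m).1
        simp only [mem_preimage, add_re, ofReal_re, mem_Iic]
        linarith [Nat.cast_nonneg (α := ℝ) m]
  have hre : Tendsto (fun m => (u m).re) (hyperfilter ℕ) atBot :=
    (tendsto_atBot_mono (fun m => (hu m).1) (tendsto_atBot_add_const_right _ _
      (tendsto_neg_atTop_atBot.comp tendsto_natCast_atTop_atTop))).mono_left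
      (Nat.cofinite_eq_atTop ▸ hyperfilter_le_cofinite)
  have hG0 : ∀ x : ℝ, x < 1 → G x = 0 := fun x hx => by
    refine tendsto_nhds_unique (hG.tendsto_at (a := x) ⟨by simpa using hx, by norm_num⟩) ?_
    simpa [Function.comp_def] using h0.comp (tendsto_atBot_add_const_left _ x hre)
  have hz : EqOn G 0 V := (hGd.analyticOnNhd hVo).eqOn_zero_of_preconnected_of_frequently_eq_zero
    hVc.isPreconnected (z₀ := 0) ⟨by simp, by norm_num⟩ (by
      have h1 : Tendsto (fun x : ℝ => (x : ℂ)) (𝓝[<] 0) (𝓝[≠] 0) :=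
        tendsto_nhdsWithin_iff.mpr ⟨(continuous_ofReal.tendsto' 0 0 rfl).mono_left nhdsWithin_le_nhds,
          eventually_mem_nhdsWithin.mono fun x hx => ofReal_ne_zero.mpr (ne_of_lt hx)⟩
      have h2 : ∀ᶠ x : ℝ in 𝓝[<] 0, G x = 0 :=
        eventually_mem_nhdsWithin.mono fun x hx => hG0 x (lt_trans hx one_pos)
      exact h1.frequently h2.frequently)
  have hK : Icc 0 0 ×ℂ Icc (-1) 1 ⊆ V := fun w hw =>
    ⟨hw.1.2.trans_lt one_pos, by linarith [hw.2.1], by linarith [hw.2.2]⟩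
  have h1 := (tendstoLocallyUniformlyOn_iff_tendstoUniformlyOn_of_compact
    (isCompact_Icc.reProdIm isCompact_Icc)).mp (hG.mono hK)
  obtain ⟨m, hm⟩ := (Metric.tendstoUniformlyOn_iff.mp h1 η hη).exists
  have h2 : u m - (u m).re ∈ Icc 0 0 ×ℂ Icc (-1) 1 := ⟨by simp, by simpa using (hu m).2⟩
  have h3 := hm _ h2
  rw [hz (hK h2), sub_add_cancel, Pi.zero_apply, dist_zero_left] at h3
  exact absurd (hu' m) (not_lt.mpr h3.le)

section
variable {n : ℕ} {c : ℂ} {Φ : ℂ → ℂ}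

theorem conj_iter (hn : 2 ≤ n) (hΦ : ∀ w, 1 < ‖w‖ → Φ (w ^ n) = Φ w ^ n + c) (j : ℕ) {w : ℂ}
    (hw : 1 < ‖w‖) : Φ (w ^ n ^ j) = (F n c)^[j] (Φ w) := by
  induction j with
  | zero => simp
  | succ j ih =>
    rw [pow_succ, pow_mul, hΦ, ih, iter_succ]
    rw [norm_pow]
    exact one_lt_pow₀ hw (by positivity)

theorem conj_bound (hn : 2 ≤ n) (hd : DifferentiableOn ℂ Φ {w | 1 < ‖w‖})
    (hΦ : ∀ w, 1 < ‖w‖ → Φ (w ^ n) = Φ w ^ n + c) :
    ∃ C, ∀ w, 1 < ‖w‖ → ‖w‖ ≤ 3 → ‖Φ w‖ ≤ C := by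
  have hK : IsCompact (closedBall (0 : ℂ) (3 ^ n) \ ball 0 3) :=
    (isCompact_closedBall _ _).diff isOpen_ball
  obtain ⟨B, hB⟩ := hK.exists_bound_of_continuousOn (hd.continuousOn.mono fun w hw => by
    have := hw.2
    simp only [mem_ball_zero_iff, not_lt] at this
    exact lt_of_lt_of_le (by norm_num) this)
  refine ⟨max B (‖c‖ + 3), fun w hw hw3 => ?_⟩
  have hex : ∃ j, 3 ≤ ‖w‖ ^ n ^ j := ((tendsto_pow_atTop_atTop_of_one_lt hw).comp
    (tendsto_pow_atTop_atTop_of_one_lt (by omega : 1 < n))).eventually_ge_atTop 3 |>.exists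
  have h1 : ‖w‖ ^ n ^ Nat.find hex ≤ 3 ^ n := by
    rcases h : Nat.find hex with _ | j
    · simpa using hw3.trans (le_self_pow₀ (by norm_num) (by omega))
    · rw [pow_succ, pow_mul]
      exact pow_le_pow_left₀ (by positivity) (not_le.mp (Nat.find_min hex (by omega))).le _
  have h2 := hB (w ^ n ^ Nat.find hex) ⟨by simpa using h1, by simpa using Nat.find_spec hex⟩
  rw [conj_iter hn hΦ _ hw] at h2
  by_contra h
  rw [not_le, max_lt_iff] at h
  linarith [(escape_iter hn le_rfl h.2.le (Nat.find hex)).1]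

theorem common_period {T : Finset ℂ} (hT : ∀ ζ ∈ T, ∃ p, 0 < p ∧ ζ ^ n ^ p = ζ) :
    ∃ r, 0 < r ∧ ∀ k, ∀ ζ ∈ T, ζ ^ n ^ (k * r) = ζ := by
  choose! p hp hp' using hT
  refine ⟨∏ ζ ∈ T, p ζ, Finset.prod_pos hp, fun k ζ hζ => ?_⟩
  obtain ⟨e, he⟩ := (Finset.dvd_prod_of_mem p hζ).mul_left k
  rw [he]
  clear he
  induction e with
  | zero => simp
  | succ e ih => rw [mul_add_one, pow_add, pow_mul, ih, hp' ζ hζ]

theorem near_fixed {g : ℂ → ℂ} {z l : ℂ} (hg : HasDerivAt g l z) (hz : g z = z) (hl : 1 < ‖l‖) :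
    ∃ η > 0, ∀ w, ‖w - z‖ ≤ η → √‖l‖ * ‖w - z‖ ≤ ‖g w - z‖ ∧ ‖g w - z‖ ≤ ‖l‖ ^ 2 * ‖w - z‖ := by
  have h1 : √‖l‖ < ‖l‖ := by rw [Real.sqrt_lt' (by linarith)]; nlinarith
  have h2 : ‖l‖ < ‖l‖ ^ 2 := by nlinarith
  have h3 := hg.isLittleO.def (lt_min (sub_pos.mpr h1) (sub_pos.mpr h2))
  obtain ⟨η, hη, h4⟩ := Metric.eventually_nhds_iff.mp h3
  refine ⟨η / 2, half_pos hη, fun w hw => ?_⟩
  have h5 := h4 (y := w) (by rw [dist_eq_norm]; linarith)
  rw [hz, smul_eq_mul] at h5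
  have h6 := abs_le.mp ((abs_norm_sub_norm_le (g w - z) ((w - z) * l)).trans h5)
  rw [norm_mul] at h6
  have h7 := mul_le_mul_of_nonneg_right (min_le_left (‖l‖ - √‖l‖) (‖l‖ ^ 2 - ‖l‖)) (norm_nonneg (w - z))
  have h8 := mul_le_mul_of_nonneg_right (min_le_right (‖l‖ - √‖l‖) (‖l‖ ^ 2 - ‖l‖)) (norm_nonneg (w - z))
  constructor <;> linarith [h6.1, h6.2]

theorem ray_norm {ζ u : ℂ} (hζ : ‖ζ‖ = 1) (hu : u.im ∈ Ioo (-(3 / 2) : ℝ) (3 / 2)) :
    1 < ‖ζ * exp (exp u)‖ := by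
  rw [norm_mul, hζ, one_mul, norm_exp, exp_re, Real.one_lt_exp_iff]
  exact mul_pos (Real.exp_pos _) (Real.cos_pos_of_mem_Ioo
    ⟨by linarith [hu.1, Real.pi_gt_three], by linarith [hu.2, Real.pi_gt_three]⟩)

theorem ray_inj (T : Finset ℂ) (hT : ∀ ζ ∈ T, ‖ζ‖ = 1) : ∃ a, ∀ ζ ∈ T, ∀ ξ ∈ T,
    ∀ u ∈ Iic a ×ℂ Icc (-1) 1, ∀ v ∈ Iic a ×ℂ Icc (-1) 1,
      ζ * exp (exp u) = ξ * exp (exp v) → ζ = ξ ∧ u = v := by
  have h1 : ∀ᶠ δ in 𝓝[>] (0 : ℝ), ∀ ζ ∈ T, ∀ ξ ∈ T, ζ ≠ ξ → 4 * δ < ‖ζ - ξ‖ := by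
    refine (eventually_all_finset T).mpr fun ζ _ => (eventually_all_finset T).mpr fun ξ _ => ?_
    by_cases h : ζ = ξ
    · exact Eventually.of_forall fun _ h' => absurd h h'
    · have h2 : 0 < ‖ζ - ξ‖ / 4 := by have := norm_sub_pos_iff.mpr h; positivity
      filter_upwards [nhdsWithin_le_nhds (Iio_mem_nhds h2)] with δ hδ _
      linarith [mem_Iio.mp hδ]
  obtain ⟨δ, hδ, h0, hδ1⟩ := (h1.and (Ioo_mem_nhdsGT one_pos)).exists
  have hs : ∀ u ∈ Iic (Real.log δ) ×ℂ Icc (-1) 1, ‖exp u‖ ≤ δ := fun u hu => by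
    rw [norm_exp]; exact (Real.le_log_iff_exp_le h0).mp hu.1
  have hp := Real.pi_gt_three
  refine ⟨Real.log δ, fun ζ hζ ξ hξ u hu v hv e => ?_⟩
  have h2 := hs u hu
  have h3 := hs v hv
  have h4 : ζ = ξ := by
    by_contra h
    have h5 := norm_exp_sub_one_le (h2.trans hδ1.le)
    have h6 := norm_exp_sub_one_le (h3.trans hδ1.le)
    have h7 := norm_sub_le (ξ * (exp (exp v) - 1)) (ζ * (exp (exp u) - 1))
    rw [norm_mul, norm_mul, hT ζ hζ, hT ξ hξ, mul_sub, mul_sub, e, mul_one, mul_one,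
      sub_sub_sub_cancel_left] at h7
    linarith [hδ ζ hζ ξ hξ h]
  subst h4
  have h5 := abs_le.mp ((abs_im_le_norm _).trans h2)
  have h6 := abs_le.mp ((abs_im_le_norm _).trans h3)
  refine ⟨rfl, exp_inj_of_neg_pi_lt_of_le_pi (by linarith [hu.2.1]) (by linarith [hu.2.2])
    (by linarith [hv.2.1]) (by linarith [hv.2.2]) (exp_inj_of_neg_pi_lt_of_le_pi
      (by linarith [h5.1]) (by linarith [h5.2]) (by linarith [h6.1]) (by linarith [h6.2])
      (mul_left_cancel₀ (norm_ne_zero_iff.mp (by rw [hT ζ hζ]; norm_num)) e))⟩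

/-- A weak form of the Pommerenke-Levin-Yoccoz inequality. -/
theorem ply (hn : 2 ≤ n) (hd : DifferentiableOn ℂ Φ {w | 1 < ‖w‖}) (hi : InjOn Φ {w | 1 < ‖w‖})
    (hΦ : ∀ w, 1 < ‖w‖ → Φ (w ^ n) = Φ w ^ n + c) {k : ℕ} {z : ℂ} (hk : 0 < k)
    (hz : (F n c)^[k] z = z) {T : Finset ℂ} (hT : ∀ ζ ∈ T, ‖ζ‖ = 1 ∧ (∃ p, 0 < p ∧ ζ ^ n ^ p = ζ) ∧
      Tendsto (fun r : ℝ => Φ (r * ζ)) (𝓝[>] 1) (𝓝 z)) :
    T.card * Real.log ‖dF n c k z‖ ≤ 8 * π * k * Real.log n := by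
  have hn1 : (1 : ℝ) < n := by exact_mod_cast hn
  have hln := Real.log_pos hn1
  rcases le_or_gt ‖dF n c k z‖ 1 with h1 | h1
  · exact (mul_nonpos_of_nonneg_of_nonpos (Nat.cast_nonneg _)
      (Real.log_nonpos (norm_nonneg _) h1)).trans (by positivity)
  obtain ⟨r, hr, hN⟩ := common_period fun ζ hζ => (hT ζ hζ).2.1
  have hg : (F n c)^[k * r] z = z := by rw [Function.iterate_mul]; exact Function.iterate_fixed hz r
  have hl : 1 < ‖dF n c (k * r) z‖ := by rw [dF_mul hz, norm_pow]; exact one_lt_pow₀ h1 hr.ne'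
  obtain ⟨η, hη, hnear⟩ := near_fixed (hasDerivAt_iter n c (k * r) z) hg hl
  obtain ⟨C, hC⟩ := conj_bound hn hd hΦ
  obtain ⟨a₀, ha₀⟩ := ray_inj T fun ζ hζ => (hT ζ hζ).1
  set h : ℂ → ℂ → ℂ := fun ζ u => Φ (ζ * exp (exp u)) - z with hh
  set L : ℝ := (k * r : ℕ) * Real.log n with hL
  have hkr : 0 < k * r := Nat.mul_pos hk hr
  have hL0 : 0 < L := by positivity
  have hI : Icc (-1 : ℝ) 1 ⊆ Ioo (-(3 / 2)) (3 / 2) := Icc_subset_Ioo (by norm_num) (by norm_num)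
  have hdh : ∀ ζ ∈ T, DifferentiableOn ℂ (h ζ) (univ ×ℂ Ioo (-(3 / 2)) (3 / 2)) := fun ζ hζ =>
    (hd.comp (by fun_prop) fun u hu => ray_norm (hT ζ hζ).1 hu.2).sub_const z
  have hlin : ∀ᶠ a in atBot, ∀ ζ ∈ T, ∀ u ∈ Iic a ×ℂ Icc (-1) 1, ‖h ζ u‖ ≤ η := by
    refine (eventually_all_finset T).mpr fun ζ hζ => ?_
    obtain ⟨a, ha⟩ := lindelof (hdh ζ hζ) (C := C + ‖z‖) (fun u hu => (norm_sub_le _ _).trans
      (add_le_add_left (hC _ (ray_norm (hT ζ hζ).1 hu.2) (by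
        rw [norm_mul, (hT ζ hζ).1, one_mul]
        refine (norm_exp_le_exp_norm _).trans (le_trans (Real.exp_le_exp.mpr ?_)
          (Real.exp_one_lt_d9.le.trans (by norm_num)))
        rw [norm_exp, Real.exp_le_one_iff]
        exact hu.1)) _)) (by
      have h2 : Tendsto (fun x : ℝ => Real.exp (Real.exp x)) atBot (𝓝[>] 1) :=
        tendsto_nhdsWithin_iff.mpr ⟨(Real.continuous_exp.tendsto' 0 1 Real.exp_zero).comp
          Real.tendsto_exp_atBot, Eventually.of_forall fun x =>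
            Real.one_lt_exp_iff.mpr (Real.exp_pos x)⟩
      simpa [hh, mul_comm, Function.comp_def] using
        tendsto_sub_nhds_zero_iff.mpr ((hT ζ hζ).2.2.comp h2)) hη
    filter_upwards [eventually_le_atBot a] with b hb u hu using ha u ⟨hu.1.trans hb, hu.2⟩
  obtain ⟨a, ha, haa⟩ := (hlin.and (eventually_le_atBot a₀)).exists
  have hpow : ∀ ζ ∈ T, ∀ u : ℂ, (ζ * exp (exp (u - L))) ^ n ^ (k * r) = ζ * exp (exp u) := by
    intro ζ hζ u
    rw [mul_pow, hN k ζ hζ, ← exp_nat_mul, exp_sub, ← ofReal_exp, hL, Real.exp_nat_mul,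
      Real.exp_log (by linarith)]
    push_cast
    rw [mul_div_cancel₀ _ (pow_ne_zero _ (by exact_mod_cast (by omega : n ≠ 0)))]
  have key := length_area T h (isOpen_univ.reProdIm isOpen_Ioo) hL0
    (Real.one_le_sqrt.mpr hl.le) (one_le_pow₀ hl.le (n := 2)) (a := a) (η := η)
    (fun u hu => ⟨mem_univ _, hI hu.2⟩) hdh (fun ζ hζ ξ hξ u hu v hv e =>
      ha₀ ζ hζ ξ hξ u ⟨hu.1.trans haa, hu.2⟩ v ⟨hv.1.trans haa, hv.2⟩
        (hi (ray_norm (hT ζ hζ).1 (hI hu.2)) (ray_norm (hT ξ hξ).1 (hI hv.2)) (sub_left_injective e)))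
    fun ζ hζ u hu => by
      have h2 := ray_norm (hT ζ hζ).1 (hI hu.2)
      have h3 : u - L ∈ Iic a ×ℂ Icc (-1) 1 :=
        ⟨by simpa using hu.1.trans (le_add_of_nonneg_right hL0.le), by simpa using hu.2⟩
      have h4 := hnear _ (ha ζ hζ _ h3)
      rw [← conj_iter hn hΦ _ (ray_norm (hT ζ hζ).1 (hI h3.2)), hpow ζ hζ] at h4
      refine ⟨fun h0 => ?_, ha ζ hζ u hu, h4⟩
      have h5 := conj_iter hn hΦ (k * r) h2
      have h6 := one_lt_pow₀ h2 (n := n ^ (k * r)) (by positivity)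
      rw [sub_eq_zero.mp h0, hg, ← sub_eq_zero.mp h0] at h5
      have h7 := congrArg norm (hi (by rwa [← norm_pow] at h6) h2 h5)
      rw [norm_pow] at h7
      have h8 := pow_lt_pow_right₀ h2 (Nat.one_lt_pow hkr.ne' (by omega : 1 < n))
      rw [pow_one, h7] at h8
      exact lt_irrefl _ h8
  have h2 := Real.log_pos h1
  have hr' : (0 : ℝ) < r := by exact_mod_cast hr
  rw [Real.log_sqrt (norm_nonneg _), Real.log_pow, dF_mul hz, norm_pow, Real.log_pow,
    div_le_iff₀ hL0, hL] at key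
  push_cast at key
  refine le_of_mul_le_mul_right ?_ (show 0 < r ^ 2 * Real.log ‖dF n c k z‖ / 4 by positivity)
  linarith

end

theorem ray_bound {n : ℕ} (hn : 2 ≤ n) : ∃ C : ℝ, ∀ c : ℂ, ‖c‖ ≤ 2 → ∀ (k q : ℕ) (z : ℂ), 0 < k →
    (F n c)^[k] z = z → q * Real.log ‖dF n c k z‖ ≤ 8 * π * k * Real.log n →
      q * infDist c {c | ∃ m z, N62a1eb23.IsAttractingCycle (fun z ↦ z ^ n + c) m z} ^ 576 ≤
        C * k ^ 1873 := by
  obtain ⟨C, hC⟩ := main_bound hn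
  have hln := Real.log_pos (show (1 : ℝ) < n by exact_mod_cast hn)
  obtain ⟨B, hB0, hB⟩ : ∃ B : ℝ, 0 ≤ B ∧ ∀ x : ℝ, 0 ≤ x → x ≤ 2 → x ^ 576 ≤ B :=
    ⟨2 ^ 576, pow_nonneg zero_le_two _, fun x h0 hx => pow_le_pow_left₀ h0 hx _⟩
  refine ⟨(2 * |C| + B) * (8 * π * Real.log n), fun c hc k q z hk hz h => ?_⟩
  have hC' := hC c hc k z hk hz
  have hk1 : (1 : ℝ) ≤ k := by exact_mod_cast hk
  have hq : (0 : ℝ) ≤ q := Nat.cast_nonneg q
  have hK : (1 : ℝ) ≤ k ^ 1872 := one_le_pow₀ hk1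
  rw [show (k : ℝ) ^ 1873 = k ^ 1872 * k from pow_succ _ _]
  generalize (k : ℝ) ^ 1872 = K at hC' hK
  set H := {c | ∃ m z, N62a1eb23.IsAttractingCycle (fun z ↦ z ^ n + c) m z} with hH
  rcases lt_or_ge ‖dF n c k z‖ 1 with h1 | h1
  · have h2 : c ∈ H :=
      ⟨k, z, hk, hz, differentiable_iter n c k z, by rwa [(hasDerivAt_iter n c k z).deriv]⟩
    rw [infDist_zero_of_mem h2, zero_pow (by norm_num), mul_zero]
    positivity
  have h2 := Real.log_nonneg h1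
  have hD : infDist c H ^ 576 ≤ B := hB _ infDist_nonneg (by
    refine (infDist_le_dist_of_mem (y := 0) ?_).trans (by rwa [dist_zero_right])
    refine ⟨1, 0, one_pos, ?_, differentiable_iter n 0 1 0, ?_⟩
    · simp [Function.IsPeriodicPt, Function.IsFixedPt]; omega
    · rw [(hasDerivAt_iter n 0 1 0).deriv]
      simp [dF, zero_pow (show n - 1 ≠ 0 by omega)])
  generalize infDist c H ^ 576 = D at hC' hD
  have hA : 0 ≤ 8 * π * k * Real.log n := by positivity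
  have hC0 := abs_nonneg C
  rcases le_or_gt (q : ℝ) (8 * π * k * Real.log n) with h3 | h3
  · calc q * D ≤ q * B := by gcongr
      _ ≤ (8 * π * k * Real.log n) * (B * K) :=
          mul_le_mul h3 (le_mul_of_one_le_right hB0 hK) hB0 hA
      _ ≤ _ := by nlinarith [mul_nonneg (mul_nonneg hC0 hA) (zero_le_one.trans hK)]
  · have h4 : Real.log ‖dF n c k z‖ ≤ 1 := by
      by_contra h4
      nlinarith [not_le.mp h4]
    have h5 := Real.abs_exp_sub_one_le (x := Real.log ‖dF n c k z‖) (by rwa [abs_of_nonneg h2])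
    rw [Real.exp_log (by linarith), abs_of_nonneg h2, abs_of_nonneg (sub_nonneg.mpr h1)] at h5
    calc q * D ≤ q * (|C| * K * (2 * Real.log ‖dF n c k z‖)) := by
          refine mul_le_mul_of_nonneg_left ((hC' h1).trans ?_) hq
          have := sub_nonneg.mpr h1
          gcongr
          exact le_abs_self C
      _ = 2 * |C| * K * (q * Real.log ‖dF n c k z‖) := by ring
      _ ≤ 2 * |C| * K * (8 * π * k * Real.log n) := by gcongr
      _ ≤ _ := by nlinarith [mul_nonneg (mul_nonneg hB0 hA) (zero_le_one.trans hK)]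

end Pool.Agent.Lib.MP_c35c17_an.Q
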