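import Pool.Agent.Lib.MP_c35c17_an.QRmt

set_option autoImplicit false

open Filter Topology Set Metric Complex
open scoped ComplexConjugate

namespace Pool.Agent.Lib.MP_c35c17_an.Q

theorem su_norm {a b : ℂ} (h : ‖a‖ ^ 2 = 1 + ‖b‖ ^ 2) (X Y : ℂ) :
    ‖conj b * X + conj a * Y‖ ^ 2 - ‖a * X + b * Y‖ ^ 2 = ‖Y‖ ^ 2 - ‖X‖ ^ 2 := by
  simp only [← normSq_eq_norm_sq, normSq_apply, add_re, add_im, mul_re, mul_im, conj_re,
    conj_im] at h ⊢
  linear_combination (Y.re * Y.re + Y.im * Y.im - X.re * X.re - X.im * X.im) * h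

theorem su_mul {a b : ℂ} (h : ‖a‖ ^ 2 = 1 + ‖b‖ ^ 2) :
    b * conj b = a.re ^ 2 + a.im ^ 2 - 1 := by
  rw [mul_conj', ← ofReal_pow, show ‖b‖ ^ 2 = a.re ^ 2 + a.im ^ 2 - 1 by
    rw [← normSq_eq_norm_sq a, normSq_apply] at h; linarith]
  push_cast; rfl

theorem no_close {a b : ℂ} (h : ‖a‖ ^ 2 = 1 + ‖b‖ ^ 2) {k : ℕ} (hk : 0 < k) (ha : ‖a‖ ^ 2 ≤ 2 * k)
    (hre : 0 ≤ a.re) (hs : |1 - a.re ^ 2| ≤ 1 / (64 * (k : ℝ) ^ 2)) (hb : b ≠ 0) {R : ℕ → ℂ → Prop}
    (h0 : R 0 0) (hstep : ∀ m ξ, R m ξ → ‖ξ‖ ≤ 1 - 1 / (34 * k ^ 3) → ∃ ξ',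
      ‖ξ' - ξ‖ ≤ 1 / (64 * k ^ 4) * ‖ξ‖ ∧ R (m + 1) ((a * ξ' + b) / (conj b * ξ' + conj a))) :
    ∃ ξ ≠ 0, R k ξ := by
  have hk1 : (1 : ℝ) ≤ k := by exact_mod_cast hk
  set t : ℝ := 1 / k with ht
  have ht0 : 0 < t := by positivity
  have ht1 : t ≤ 1 := by rw [ht, div_le_one (by positivity)]; exact hk1
  have hkt : k * t = 1 := by rw [ht]; field_simp
  have hβ := norm_pos_iff.mpr hb
  have hτ : |a.re - 1| ≤ t ^ 2 / 64 := by
    have h1 : |a.re - 1| * 1 ≤ |a.re - 1| * |a.re + 1| := by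
      gcongr; rw [abs_of_nonneg (by linarith)]; linarith
    rw [← abs_mul, show (a.re - 1) * (a.re + 1) = -(1 - a.re ^ 2) by ring, abs_neg, mul_one] at h1
    exact h1.trans (hs.trans_eq (by rw [ht]; field_simp))
  have hs' : |1 - a.re ^ 2| ≤ t ^ 2 / 64 := hs.trans_eq (by rw [ht]; field_simp)
  have hτ2 : |a.re| ≤ 2 := by rw [abs_of_nonneg hre]; nlinarith [(abs_le.mp hτ).2]
  have him : |a.im| ≤ 2 * k := (abs_im_le_norm a).trans (by nlinarith [norm_nonneg a])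
  have key : ∀ m ≤ k, ∃ X Y : ℂ, R m (X / Y) ∧ ‖I * a.im * X + b * Y - b‖ ≤ m * (t / 4) * ‖b‖ ∧
      ‖X - m * b‖ ≤ m / 2 * ‖b‖ ∧ 1 - m * (t / 2) ≤ ‖Y‖ ^ 2 - ‖X‖ ^ 2 := by
    intro m hm
    induction m with
    | zero => exact ⟨0, 1, by simpa using h0, by simp, by simp, by simp⟩
    | succ m ih =>
      obtain ⟨X, Y, i1, i2, i3, i4⟩ := ih (by omega)
      have hm' : (m : ℝ) ≤ k := by exact_mod_cast (by omega : m ≤ k)
      have hmt : m * t ≤ 1 := hkt ▸ mul_le_mul_of_nonneg_right hm' ht0.le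
      have hX : ‖X‖ ≤ 2 * k * ‖b‖ := by
        have h1 := norm_le_norm_add_norm_sub' X (m * b)
        rw [norm_mul, Complex.norm_natCast] at h1
        nlinarith
      have hX2 : ‖X‖ ^ 2 ≤ 8 * k ^ 3 := by
        calc ‖X‖ ^ 2 ≤ (2 * k * ‖b‖) ^ 2 := by gcongr
          _ = 4 * k ^ 2 * ‖b‖ ^ 2 := by ring
          _ ≤ 4 * k ^ 2 * (2 * k) := by gcongr; linarith
          _ = _ := by ring
      have hY : Y ≠ 0 := fun e => by
        rw [e, norm_zero] at i4
        nlinarith [sq_nonneg ‖X‖]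
      have hY' := norm_pos_iff.mpr hY
      obtain ⟨ξ', j1, j2⟩ := hstep m _ i1 (by
        have h1 : 1 / (34 * (k : ℝ) ^ 3) * k ^ 3 = 1 / 34 := by field_simp
        have h2 : 1 / (34 * (k : ℝ) ^ 3) ≤ 1 / 34 := by
          gcongr; linarith [one_le_pow₀ hk1 (n := 3)]
        have h3 : 0 < 1 / (34 * (k : ℝ) ^ 3) := by positivity
        generalize 1 / (34 * (k : ℝ) ^ 3) = θ at h1 h2 h3 ⊢
        refine le_of_pow_le_pow_left₀ two_ne_zero (by linarith) ?_
        rw [norm_div, div_pow, div_le_iff₀ (by positivity)]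
        calc ‖X‖ ^ 2 ≤ (1 - 2 * θ) * (‖X‖ ^ 2 + 1 / 2) := by nlinarith
          _ ≤ (1 - θ) ^ 2 * ‖Y‖ ^ 2 := by gcongr <;> nlinarith)
      obtain ⟨w, hw⟩ : ∃ w, ξ' * Y = X + w := ⟨_, (add_sub_cancel _ _).symm⟩
      have hw1 : ‖w‖ ≤ t ^ 4 / 64 * ‖X‖ := by
        rw [show w = (ξ' - X / Y) * Y by field_simp; linear_combination -hw, norm_mul]
        refine (mul_le_mul_of_nonneg_right j1 hY'.le).trans_eq ?_
        rw [norm_div, ht]; field_simp
      have hw2 : ‖w‖ ≤ t ^ 3 / 32 * ‖b‖ := hw1.trans (by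
        calc t ^ 4 / 64 * ‖X‖ ≤ t ^ 4 / 64 * (2 * k * ‖b‖) := by gcongr
          _ = (k * t) * (t ^ 3 / 32 * ‖b‖) := by ring
          _ = _ := by rw [hkt, one_mul])
      have ht2 : t ^ 2 ≤ t := by nlinarith
      have ht3 : t ^ 3 ≤ t := by nlinarith
      have hD : ‖I * a.im * X + b * Y‖ ≤ 2 * ‖b‖ := by
        nlinarith [norm_le_norm_add_norm_sub' (I * a.im * X + b * Y) b]
      have hIw : ‖I * a.im * w‖ ≤ t ^ 2 / 16 * ‖b‖ := by
        rw [norm_mul, norm_mul, norm_I, one_mul, norm_real, Real.norm_eq_abs]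
        calc _ ≤ 2 * k * (t ^ 3 / 32 * ‖b‖) := by gcongr
          _ = (k * t) * (t ^ 2 / 16 * ‖b‖) := by ring
          _ = _ := by rw [hkt, one_mul]
      have hXt : t ^ 2 / 64 * ‖X‖ ≤ t / 32 * ‖b‖ := by
        calc t ^ 2 / 64 * ‖X‖ ≤ t ^ 2 / 64 * (2 * k * ‖b‖) := by gcongr
          _ = (k * t) * (t / 32 * ‖b‖) := by ring
          _ = _ := by rw [hkt, one_mul]
      have hn : ∀ (r : ℝ) (z : ℂ), ‖(r : ℂ) * z‖ = |r| * ‖z‖ := fun r z => by
        rw [norm_mul, norm_real, Real.norm_eq_abs]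
      have hmul := su_mul h
      have hae := re_add_im a
      have hac : conj a = a.re - a.im * I := Complex.ext (by simp) (by simp)
      refine ⟨a * (X + w) + b * Y, conj b * (X + w) + conj a * Y, ?_, ?_, ?_, ?_⟩
      · rwa [← hw, ← mul_assoc, ← mul_assoc, ← add_mul, ← add_mul, mul_div_mul_right _ _ hY]
      · rw [show I * a.im * (a * (X + w) + b * Y) + b * (conj b * (X + w) + conj a * Y) - b =
          (I * a.im * X + b * Y - b) + ((a.re - 1 : ℝ) * (I * a.im * X + b * Y) +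
            a.re * (I * a.im * w) + (-(1 - a.re ^ 2) : ℝ) * (X + w)) by
          rw [hac]; push_cast
          linear_combination (X + w) * hmul - I * a.im * (X + w) * hae +
            a.im ^ 2 * (X + w) * I_sq]
        refine (norm_add_le _ _).trans ((add_le_add i2 norm_add₃_le).trans ?_)
        rw [hn, hn, hn, abs_neg]
        have h1 : |a.re - 1| * ‖I * a.im * X + b * Y‖ ≤ t ^ 2 / 64 * (2 * ‖b‖) := by gcongr
        have h2 : |a.re| * ‖I * a.im * w‖ ≤ 2 * (t ^ 2 / 16 * ‖b‖) := by gcongr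
        have h3 : |1 - a.re ^ 2| * ‖X + w‖ ≤ t ^ 2 / 64 * (‖X‖ + ‖b‖) := by
          gcongr; exact (norm_add_le _ _).trans (by nlinarith)
        push_cast
        nlinarith
      · rw [show a * (X + w) + b * Y - (m + 1 : ℕ) * b = (X - m * b) + ((a.re - 1 : ℝ) * X +
            a.re * w + ((I * a.im * X + b * Y - b) + I * a.im * w)) by
          push_cast; linear_combination -(X + w) * hae]
        refine (norm_add_le _ _).trans ((add_le_add i3 (norm_add₃_le.trans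
          (add_le_add le_rfl (norm_add_le _ _)))).trans ?_)
        rw [hn, hn]
        have h1 : |a.re - 1| * ‖X‖ ≤ t ^ 2 / 64 * ‖X‖ := by gcongr
        have h2 : |a.re| * ‖w‖ ≤ 2 * (t ^ 3 / 32 * ‖b‖) := by gcongr
        push_cast
        nlinarith
      · rw [su_norm h]
        have h1 : ‖X + w‖ ^ 2 ≤ ((1 + t ^ 4 / 64) * ‖X‖) ^ 2 := by
          gcongr; linarith [norm_add_le X w]
        have h2 : t ^ 4 ≤ 1 := pow_le_one₀ ht0.le ht1
        have h3 : t ^ 4 * ‖X‖ ^ 2 ≤ 8 * t := by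
          calc t ^ 4 * ‖X‖ ^ 2 ≤ t ^ 4 * (8 * k ^ 3) := by gcongr
            _ = (k * t) ^ 3 * (8 * t) := by ring
            _ = _ := by rw [hkt, one_pow, one_mul]
        have h4 : t ^ 4 * (t ^ 4 * ‖X‖ ^ 2) ≤ 1 * (8 * t) := by gcongr
        push_cast
        nlinarith
  obtain ⟨X, Y, i1, -, i3, i4⟩ := key k le_rfl
  refine ⟨X / Y, div_ne_zero (fun e => ?_) fun e => ?_, i1⟩
  · rw [e, zero_sub, norm_neg, norm_mul, Complex.norm_natCast] at i3
    nlinarith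
  · rw [e, norm_zero] at i4
    nlinarith [sq_nonneg ‖X‖]

theorem su_fixed {a b : ℂ} (h : ‖a‖ ^ 2 = 1 + ‖b‖ ^ 2) (hs : a.re ^ 2 < 1) : ∃ (s : ℝ) (α : ℂ),
    s ^ 2 = 1 - a.re ^ 2 ∧ |s| * 1 ≤ ‖a‖ * (1 - ‖α‖ ^ 2) ∧ conj b * α + conj a = a.re - s * I ∧
      ∀ z, z * (conj b * z + conj a) - (a * z + b) = (z - α) * (conj b * (z - α) - 2 * s * I) := by
  obtain ⟨s, h1, h2⟩ : ∃ s : ℝ, s ^ 2 = 1 - a.re ^ 2 ∧ 0 ≤ a.im * s := by
    rcases le_total 0 a.im with h' | h'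
    · exact ⟨√(1 - a.re ^ 2), Real.sq_sqrt (by linarith), by positivity⟩
    · exact ⟨-√(1 - a.re ^ 2), by rw [neg_sq, Real.sq_sqrt (by linarith)],
        mul_nonneg_of_nonpos_of_nonpos h' (by simp)⟩
  have h3 : ‖b‖ ^ 2 = a.im ^ 2 - s ^ 2 := by
    rw [← normSq_eq_norm_sq a, normSq_apply] at h; linarith
  have h4 : 0 < (a.im + s) ^ 2 := by nlinarith
  have h5 : a.im + s ≠ 0 := fun e => by simp [e] at h4
  have h6 : ((a.im + s : ℝ) : ℂ) ≠ 0 := by exact_mod_cast h5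
  have h7 : conj b * (I * b / (a.im + s : ℝ)) = I * (a.im - s) := by
    rw [mul_div_assoc', div_eq_iff h6, mul_left_comm, mul_comm (conj b), mul_conj', ← ofReal_pow, h3]
    push_cast; ring
  have hac : conj a = a.re - a.im * I := Complex.ext (by simp) (by simp)
  refine ⟨s, I * b / (a.im + s : ℝ), h1, ?_, by rw [h7, hac]; ring, fun z => ?_⟩
  · rw [norm_div, norm_mul, norm_I, one_mul, div_pow, norm_real, Real.norm_eq_abs, sq_abs, h3,
      one_sub_div h4.ne', mul_div_assoc', le_div_iff₀ h4]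
    have h8 : |a.im| ≤ ‖a‖ := abs_im_le_norm a
    have h9 : |s| ≤ |a.im| := sq_le_sq.mp (by nlinarith [sq_nonneg ‖b‖])
    have h10 : a.im * s = |a.im| * |s| := by rw [← abs_mul, abs_of_nonneg h2]
    have h11 : (a.im + s) ^ 2 = (|a.im| + |s|) ^ 2 := by
      rw [add_sq, add_sq, sq_abs, sq_abs, mul_assoc, mul_assoc, h10]
    rw [h11, ← sq_abs a.im, ← sq_abs s]
    have h12 : 0 ≤ |s| * (|a.im| + |s|) := by positivity
    nlinarith
  · have h8 : I * b / (a.im + s : ℝ) * (a.im + s) = I * b := by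
      rw [← ofReal_add, div_mul_cancel₀ _ h6]
    have hae := re_add_im a
    generalize I * b / (a.im + s : ℝ) = α at h7 h8
    rw [hac]
    linear_combination z * hae + (2 * z - α) * h7 - I * h8 - b * I_sq

theorem deriv_small {D : ℂ → ℂ} {w₀ w : ℂ} {r e : ℝ} (hr : 0 < r)
    (hD : DifferentiableOn ℂ D (closedBall w₀ (2 * r))) (he : ∀ z ∈ closedBall w₀ (2 * r), ‖D z‖ ≤ e)
    (hw : w ∈ ball w₀ r) : ‖deriv D w‖ ≤ e / r := by
  have h1 : closedBall w r ⊆ closedBall w₀ (2 * r) :=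
    closedBall_subset_closedBall' (by linarith [mem_ball.mp hw])
  exact norm_deriv_le_of_forall_mem_sphere_norm_le hr
    (hD.mono (closure_ball_subset_closedBall.trans h1)).diffContOnCl
    fun z hz => he z (h1 (sphere_subset_closedBall hz))

theorem fixed_pt {a b ι : ℂ} (h : ‖a‖ ^ 2 = 1 + ‖b‖ ^ 2) {k : ℝ} (hk : 1 ≤ k) (ha : ‖a‖ ^ 2 ≤ 2 * k)
    (hs : 1 / (64 * k ^ 2) ≤ 1 - a.re ^ 2) (hι : ‖ι‖ = 1) {A G : ℂ → ℂ}
    (hA : DifferentiableOn ℂ A (ball 0 1)) (hG : DifferentiableOn ℂ G (ball 0 1)) {e : ℝ}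
    (he0 : 0 < e) (he : 200000 * k ^ 4 * e ≤ 1)
    (hAe : ∀ w, ‖w‖ ≤ 1 - 1 / (64 * k ^ 2) → ‖A w - ι * w‖ ≤ e ∧
      ‖G w - (a * (ι * w) + b) / (conj b * (ι * w) + conj a)‖ ≤ e) :
    ∃ w, ‖w‖ < 1 ∧ A w = G w ∧ ∀ m, deriv A w = m * deriv G w →
      ‖m‖ ≤ 1 + 2560 * k ^ 3 * e ∧ 1 / (5 * k) ≤ ‖m - 1‖ := by
  obtain ⟨s, α, h1, h2, h3, h4⟩ := su_fixed h (by
    have : 0 < 1 / (64 * k ^ 2) := by positivity
    linarith)
  set t : ℝ := 1 / k with ht
  have ht0 : 0 < t := by positivity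
  have ht1 : t ≤ 1 := by rw [ht, div_le_one (by positivity)]; exact hk
  have hkt : k * t = 1 := by rw [ht]; field_simp
  have e1 : 1 / (64 * k ^ 2) = t ^ 2 / 64 := by rw [ht]; field_simp
  rw [e1] at hs hAe
  have ha2 : ‖a‖ ≤ 2 * k := by nlinarith [norm_nonneg a]
  have hba : ‖b‖ < ‖a‖ := lt_of_pow_lt_pow_left₀ 2 (norm_nonneg _) (by linarith)
  have hst : t / 8 ≤ |s| := by
    refine le_of_pow_le_pow_left₀ two_ne_zero (abs_nonneg _) ?_
    rw [sq_abs]; linarith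
  have hα : ‖α‖ ≤ 1 - t ^ 2 / 32 := by
    have h5 : 0 < 1 - ‖α‖ ^ 2 := pos_of_mul_pos_right (a := ‖a‖) (by linarith) (norm_nonneg a)
    have h6 : t / 8 * t ≤ 2 * k * (1 - ‖α‖ ^ 2) * t := by gcongr; nlinarith
    have h7 : 2 * k * (1 - ‖α‖ ^ 2) * t = 2 * (1 - ‖α‖ ^ 2) := by
      linear_combination 2 * (1 - ‖α‖ ^ 2) * hkt
    nlinarith [sq_nonneg (1 - ‖α‖)]
  have hι0 : ι * conj ι = 1 := by rw [mul_conj', hι]; simp
  have hw₀ : ι * (conj ι * α) = α := by rw [← mul_assoc, hι0, one_mul]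
  have hdist : ∀ w, ‖ι * w - α‖ = ‖w - conj ι * α‖ := fun w => by
    rw [← hw₀, ← mul_sub, norm_mul, hι, one_mul, hw₀]
  have hin : ∀ w ∈ closedBall (conj ι * α) (2 * (t ^ 2 / 128)), ‖w‖ ≤ 1 - t ^ 2 / 64 := fun w hw => by
    have h5 := norm_le_norm_add_norm_sub' w (conj ι * α)
    rw [norm_mul, RCLike.norm_conj, hι, one_mul] at h5
    linarith [mem_closedBall_iff_norm.mp hw]
  have hsub : closedBall (conj ι * α) (2 * (t ^ 2 / 128)) ⊆ ball 0 1 := fun w hw =>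
    mem_ball_zero_iff.mpr (by nlinarith [hin w hw])
  have hden : ∀ w, ‖w‖ < 1 → conj b * (ι * w) + conj a ≠ 0 ∧
      ‖conj b * (ι * w) + conj a‖ ≤ 4 * k := fun w hw => by
    have h5 : ‖conj b * (ι * w)‖ ≤ ‖b‖ := by
      rw [norm_mul, norm_mul, hι, one_mul, RCLike.norm_conj]
      exact mul_le_of_le_one_right (norm_nonneg _) hw.le
    refine ⟨fun h6 => ?_, (norm_add_le _ _).trans (by rw [RCLike.norm_conj]; linarith)⟩
    rw [eq_neg_of_add_eq_zero_left h6, norm_neg, RCLike.norm_conj] at h5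
    linarith
  have hk4 : k ^ 2 * e * k ^ 2 ≤ 1 / 200000 := by linarith
  have hρ : 160 * k ^ 2 * e ≤ t ^ 2 / 128 := by
    rw [ht, div_pow, one_pow, div_div, le_div_iff₀ (by positivity)]; linarith
  have hk3 : k ^ 3 * e ≤ t / 200000 := by
    rw [ht, div_div, le_div_iff₀ (by positivity)]; linarith
  have hsub' : closedBall (conj ι * α) (160 * k ^ 2 * e) ⊆
      closedBall (conj ι * α) (2 * (t ^ 2 / 128)) := closedBall_subset_closedBall (by nlinarith)
  have htri : ∀ w, ‖w‖ ≤ 1 - t ^ 2 / 64 → |‖A w - G w‖ -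
      ‖ι * w - (a * (ι * w) + b) / (conj b * (ι * w) + conj a)‖| ≤ 2 * e := fun w hw => by
    refine (abs_norm_sub_norm_le _ _).trans ?_
    rw [sub_sub_sub_comm]
    linarith [norm_sub_le (A w - ι * w) (G w - (a * (ι * w) + b) / (conj b * (ι * w) + conj a)),
      (hAe w hw).1, (hAe w hw).2]
  have hform : ∀ w, ‖w‖ < 1 → ι * w - (a * (ι * w) + b) / (conj b * (ι * w) + conj a) =
      (ι * w - α) * (conj b * (ι * w - α) - 2 * s * I) / (conj b * (ι * w) + conj a) := fun w hw => by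
    rw [← h4, sub_div, mul_div_cancel_right₀ _ (hden w hw).1]
  obtain ⟨w, hw, hz⟩ := exists_zero_of_norm_lt (h := fun w => A w - G w) (z := conj ι * α)
    (r := 160 * k ^ 2 * e) (m := 3 * e) (by positivity)
    ((hA.sub hG).mono (closure_ball_subset_closedBall.trans (hsub'.trans hsub))).diffContOnCl
    (fun w hw => by
      have h5 := hsub' (sphere_subset_closedBall hw)
      have h6 := mem_ball_zero_iff.mp (hsub h5)
      have h7 := (abs_le.mp (htri w (hin w h5))).1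
      have h8 : ‖ι * w - α‖ = 160 * k ^ 2 * e := by rw [hdist]; exact mem_sphere_iff_norm.mp hw
      have h9 : t / 8 ≤ ‖conj b * (ι * w - α) - 2 * s * I‖ := by
        have h10 := norm_sub_norm_le (2 * s * I) (conj b * (ι * w - α))
        rw [norm_sub_rev, norm_mul (conj b), h8, RCLike.norm_conj] at h10
        simp only [norm_mul, norm_I, norm_real, Real.norm_eq_abs, Complex.norm_ofNat] at h10
        have h11 : ‖b‖ * (160 * k ^ 2 * e) ≤ 2 * k * (160 * k ^ 2 * e) := by gcongr; linarith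
        nlinarith
      rw [hform w h6, norm_div, norm_mul, h8] at h7
      have h10 : 5 * e ≤ 160 * k ^ 2 * e * ‖conj b * (ι * w - α) - 2 * s * I‖ /
          ‖conj b * (ι * w) + conj a‖ := by
        calc 5 * e = 160 * k ^ 2 * e * (t / 8) / (4 * k) := by rw [ht]; field_simp; ring
          _ ≤ _ := by gcongr; exacts [norm_pos_iff.mpr (hden w h6).1, (hden w h6).2]
      linarith)
    (by
      have h5 : conj ι * α ∈ closedBall (conj ι * α) (2 * (t ^ 2 / 128)) :=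
        mem_closedBall_self (by positivity)
      have h7 := (abs_le.mp (htri _ (hin _ h5))).2
      rw [hform _ (mem_ball_zero_iff.mp (hsub h5)), hw₀, sub_self, zero_mul, zero_div, norm_zero] at h7
      linarith)
  have hw' := ball_subset_ball hρ hw
  have hw1 := hsub (hsub' (ball_subset_closedBall hw))
  have hw2 := mem_ball_zero_iff.mp hw1
  refine ⟨w, hw2, sub_eq_zero.mp hz, fun m hm => ?_⟩
  have hT : ∀ z, ‖z‖ < 1 → HasDerivAt (fun w => (a * (ι * w) + b) / (conj b * (ι * w) + conj a))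
      (ι / (conj b * (ι * z) + conj a) ^ 2) z := fun z hz => by
    refine (((((hasDerivAt_id' z).const_mul ι).const_mul a).add_const b).fun_div
      ((((hasDerivAt_id' z).const_mul ι).const_mul (conj b)).add_const (conj a))
      (hden z hz).1).congr_deriv ?_
    congr 1
    have h5 : a * conj a = 1 + b * conj b := by
      rw [mul_conj', mul_conj', ← ofReal_pow, h]; push_cast; rfl
    linear_combination ι * h5
  have d1 := deriv_small (D := fun w => A w - ι * w) (by positivity) ((hA.mono hsub).sub (by fun_prop))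
    (fun z hz => (hAe z (hin z hz)).1) hw'
  have d2 := deriv_small (D := fun w => G w - (a * (ι * w) + b) / (conj b * (ι * w) + conj a))
    (by positivity) ((hG.mono hsub).sub fun z hz =>
      (hT z (mem_ball_zero_iff.mp (hsub hz))).differentiableAt.differentiableWithinAt)
    (fun z hz => (hAe z (hin z hz)).2) hw'
  have hn := isOpen_ball.mem_nhds hw1
  rw [((hA.differentiableAt hn).hasDerivAt.fun_sub ((hasDerivAt_id' w).const_mul ι)).deriv] at d1
  rw [((hG.differentiableAt hn).hasDerivAt.fun_sub (hT w hw2)).deriv] at d2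
  have e2 : e / (t ^ 2 / 128) ≤ 320 * k ^ 3 * e := by
    rw [ht, show e / ((1 / k) ^ 2 / 128) = 128 * k ^ 2 * e by field_simp]
    gcongr <;> norm_num
  have hE : ‖(a.re : ℂ) - s * I‖ = 1 := by
    rw [← sq_eq_sq₀ (norm_nonneg _) zero_le_one, ← normSq_eq_norm_sq, normSq_apply]
    simp; linarith
  have hE1 : ‖((a.re : ℂ) - s * I) ^ 2 - 1‖ = 2 * |s| := by
    have h5 : ((a.re : ℂ) - s * I) ^ 2 - 1 = (a.re - s * I) * (-2 * s * I) := by
      have h6 : (s : ℂ) ^ 2 = 1 - a.re ^ 2 := by exact_mod_cast h1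
      linear_combination h6 - s ^ 2 * I_sq
    rw [h5, norm_mul, hE]; simp
  have hη : ‖conj b * (ι * w) + conj a - (a.re - s * I)‖ ≤ 320 * k ^ 3 * e := by
    rw [← h3, add_sub_add_right_eq_sub, ← mul_sub, norm_mul, RCLike.norm_conj, hdist]
    calc _ ≤ 2 * k * (160 * k ^ 2 * e) := by
          gcongr; exacts [by linarith, (mem_ball_iff_norm.mp hw).le]
      _ = _ := by ring
  have hd0 := (hden w hw2).1
  generalize conj b * (ι * w) + conj a = d at hη d2 hd0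
  generalize (a.re : ℂ) - s * I = E at hη hE hE1
  have hε : 320 * k ^ 3 * e ≤ t / 625 := by linarith
  have hε0 : 0 < 320 * k ^ 3 * e := by positivity
  rw [show 2560 * k ^ 3 * e = 8 * (320 * k ^ 3 * e) by ring]
  replace d1 := d1.trans e2
  replace d2 := d2.trans e2
  generalize 320 * k ^ 3 * e = ε at hη d1 d2 hε hε0
  have hd : ‖d‖ ≤ 1 + ε := by linarith [norm_le_norm_add_norm_sub' d E]
  have hd2 : ‖d‖ ^ 2 ≤ 2 := by nlinarith [norm_nonneg d]
  have h5 : ι * (m - E ^ 2) = (deriv A w - ι * 1) * d ^ 2 + ι * ((d - E) * (d + E)) -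
      m * ((deriv G w - ι / d ^ 2) * d ^ 2) := by
    rw [hm]; field_simp; ring
  have h6 : ‖m - E ^ 2‖ ≤ ε * 2 + ε * (2 + ε) + ‖m‖ * (ε * 2) := by
    rw [← one_mul ‖m - E ^ 2‖, ← hι, ← norm_mul, h5]
    refine (norm_sub_le _ _).trans (add_le_add ((norm_add_le _ _).trans (add_le_add ?_ ?_)) ?_)
    · rw [norm_mul, norm_pow]; gcongr
    · rw [norm_mul, norm_mul, hι, one_mul]; gcongr; linarith [norm_add_le d E]
    · rw [norm_mul, norm_mul, norm_pow]; gcongr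
  have h7 := norm_le_norm_add_norm_sub' m (E ^ 2)
  rw [norm_pow, hE, one_pow] at h7
  have h8 : ‖m‖ ≤ 3 / 2 := by nlinarith [norm_nonneg m]
  have h9 : ‖m - E ^ 2‖ ≤ 8 * ε := by nlinarith
  refine ⟨by linarith, ?_⟩
  have h10 := norm_sub_le_norm_sub_add_norm_sub (E ^ 2) m 1
  rw [hE1, norm_sub_rev (E ^ 2) m] at h10
  rw [show 1 / (5 * k) = t / 5 by rw [ht]; field_simp]
  linarith

end Pool.Agent.Lib.MP_c35c17_an.Q
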