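import Pool.Agent.Lib.MP_c35c17_an.QX
import Pool.Agent.Lib.MP_c35c17_an.QJen

set_option autoImplicit false

open Filter Topology Set Metric Complex Polynomial MeasureTheory
open scoped ENNReal Real

namespace Pool.Agent.Lib.MP_c35c17_an.Q

theorem schwarz_chart {W : Set ℂ} {φ ψ β : ℂ → ℂ} (hW : IsOpen W) (h : Bihol φ ψ W (ball 0 1))
    (hβ : DifferentiableOn ℂ β (ball 0 1)) (hm : MapsTo β (ball 0 1) W) (h0 : β 0 = ψ 0) :
    0 < ‖deriv ψ 0‖ ∧ ‖deriv β 0‖ ≤ ‖deriv ψ 0‖ ∧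
      ∀ κ : ℝ, (1 - κ) * ‖deriv ψ 0‖ ≤ ‖deriv β 0‖ → NearRot (φ ∘ β) κ := by
  have h00 : (0 : ℂ) ∈ ball (0 : ℂ) 1 := mem_ball_self one_pos
  have h1 := h.symm.deriv_mul isOpen_ball hW h00
  have h2 : deriv (φ ∘ β) 0 = deriv φ (ψ 0) * deriv β 0 := by
    rw [deriv_comp _ (h.dφ.differentiableAt (hW.mem_nhds (hm h00)))
      (hβ.differentiableAt (isOpen_ball.mem_nhds h00)), h0]
  have h3 : (φ ∘ β) 0 = 0 := by rw [Function.comp_apply, h0, h.right 0 h00]
  have h4 : ‖deriv (φ ∘ β) 0‖ * ‖deriv ψ 0‖ = ‖deriv β 0‖ := by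
    rw [h2, ← norm_mul, mul_right_comm, h1, one_mul]
  have h5 : 0 < ‖deriv ψ 0‖ := norm_pos_iff.mpr (right_ne_zero_of_mul_eq_one h1)
  have h6 := norm_deriv_le_one_of_mapsTo_ball (h.dφ.comp hβ hm)
    (by rw [h3]; exact (h.mφ.comp hm).mono_right ball_subset_closedBall) one_pos
  exact ⟨h5, by nlinarith, fun κ hκ => ⟨h.dφ.comp hβ hm, h.mφ.comp hm, h3,
    le_of_mul_le_mul_right (h4 ▸ hκ) h5⟩⟩

open Classical in
/-- The conformal radius. -/
noncomputable def rad (W : Set ℂ) (x : ℂ) : ℝ :=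
  if h : ∃ p : (ℂ → ℂ) × (ℂ → ℂ), Bihol p.1 p.2 W (ball 0 1) ∧ p.2 0 = x then ‖deriv h.choose.2 0‖
  else 1

theorem rad_eq {W : Set ℂ} {φ ψ : ℂ → ℂ} (hW : IsOpen W) (h : Bihol φ ψ W (ball 0 1)) {x : ℂ}
    (hx : ψ 0 = x) : rad W x = ‖deriv ψ 0‖ := by
  have h1 : ∃ p : (ℂ → ℂ) × (ℂ → ℂ), Bihol p.1 p.2 W (ball 0 1) ∧ p.2 0 = x := ⟨(φ, ψ), h, hx⟩
  rw [rad, dif_pos h1]
  obtain ⟨h2, h3⟩ := h1.choose_spec
  exact le_antisymm (schwarz_chart hW h h2.dψ h2.mψ (h3.trans hx.symm)).2.1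
    (schwarz_chart hW h2 h.dψ h.mψ (hx.trans h3.symm)).2.1

/-- Points with `t + 1` preimages inside `X`. -/
def Zs (f : ℂ → ℂ) (X : Set ℂ) : ℕ → Set ℂ
  | 0 => f '' X
  | t + 1 => f '' (Zs f X t ∩ X)

/-- A short set containing the boundary of `Zs`. -/
def Gs (f : ℂ → ℂ) (X : Set ℂ) : ℕ → Set ℂ
  | 0 => f '' frontier X
  | t + 1 => f '' (Gs f X t ∩ closure X ∪ frontier X)

/-- Components of `Zs`. -/
abbrev Cp (f : ℂ → ℂ) (X : Set ℂ) (t : ℕ) (x : ℂ) : Set ℂ := connectedComponentIn (Zs f X t) x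

theorem Zs_succ (f : ℂ → ℂ) (X : Set ℂ) (t : ℕ) : Zs f X (t + 1) ⊆ Zs f X t := by
  induction t with
  | zero => exact image_mono inter_subset_right
  | succ t ih => exact image_mono (inter_subset_inter_left _ ih)

theorem Zs_anti (f : ℂ → ℂ) (X : Set ℂ) : Antitone (Zs f X) := antitone_nat_of_succ_le (Zs_succ f X)

theorem frontier_comp {Z : Set ℂ} (hZ : IsOpen Z) (x : ℂ) :
    frontier (connectedComponentIn Z x) ⊆ frontier Z := fun w hw => by
  rw [hZ.connectedComponentIn.frontier_eq] at hw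
  rw [hZ.frontier_eq]
  refine ⟨closure_mono (connectedComponentIn_subset _ _) hw.1, fun h => hw.2 ?_⟩
  obtain ⟨z, h1, h2⟩ := mem_closure_iff.mp hw.1 _ hZ.connectedComponentIn (mem_connectedComponentIn h)
  rw [connectedComponentIn_eq h2, ← connectedComponentIn_eq h1]
  exact mem_connectedComponentIn h

/-- A domain on which inverse branches along the cycle are almost automorphisms. -/
structure Model (n : ℕ) (c : ℂ) (k : ℕ) (O : Finset ℂ) (W : Set ℂ) (κ : ℝ) : Prop where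
  opn : IsOpen W
  chart : ∃ x ∈ O, ∃ φ ψ, Bihol φ ψ W (ball 0 1) ∧ ψ 0 = x
  jen : ∀ φ ψ, Bihol φ ψ W (ball 0 1) → ψ 0 ∈ O →
    ∃ y ∈ O, y ∈ W ∧ y ≠ ψ 0 ∧ ‖φ y‖ ≤ 1 - 1 / (2 * k)
  inv : ∀ d ≤ k, ∀ φ ψ φ' ψ', Bihol φ ψ W (ball 0 1) → Bihol φ' ψ' W (ball 0 1) → ψ 0 ∈ O →
    ψ' 0 = (F n c)^[d] (ψ 0) → ∃ α β : ℂ → ℂ, DifferentiableOn ℂ α (ball 0 1) ∧
      DifferentiableOn ℂ β (ball 0 1) ∧ MapsTo α (ball 0 1) W ∧ MapsTo β (ball 0 1) W ∧
      (∀ w ∈ ball (0 : ℂ) 1, (F n c)^[d] (β w) = α w ∧ (α w ∈ O → β w ∈ O)) ∧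
      NearRot (φ' ∘ α) κ ∧ NearRot (φ ∘ β) κ

namespace Cyc
variable {n : ℕ} {c : ℂ} {k : ℕ} {O : Finset ℂ} {ρ : ℂ} (h : Cyc n c k O ρ)
  {B : ℂ → ℂ} {X X' : Set ℂ} {Λ δ s : ℝ} (hX : XData n c O B X X' Λ δ s) (hs : 0 < s)
include h hX hs

omit hX hs in
theorem deriv_F {w : ℂ} (hw : w ≠ 0) : deriv (F n c) w = n * w ^ (n - 1) ∧ deriv (F n c) w ≠ 0 := by
  have h1 : deriv (F n c) w = n * w ^ (n - 1) := ((hasDerivAt_pow n w).add_const c).deriv
  exact ⟨h1, h1 ▸ mul_ne_zero (Nat.cast_ne_zero.mpr (by have := h.hn; omega)) (pow_ne_zero _ hw)⟩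

omit h in
theorem mem_X {x : ℂ} (hx : x ∈ O) : x ∈ X := hX.ball x hx (mem_ball_self hs)

omit hs in
theorem Zs_open (t : ℕ) : IsOpen (Zs (F n c) X t) := by
  induction t with
  | zero => exact isOpenMap_F h.hn c _ hX.opn
  | succ t ih => exact isOpenMap_F h.hn c _ (ih.inter hX.opn)

omit hs in
theorem Zs_bdd (t : ℕ) : Zs (F n c) X t ⊆ ball 0 (4 ^ n + 3) := by
  refine (Zs_anti _ _ t.zero_le).trans ?_
  rintro _ ⟨w, hw, rfl⟩
  have h1 : ‖w ^ n‖ ≤ 4 ^ n := by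
    rw [norm_pow]; gcongr; exact (mem_ball_zero_iff.mp (hX.bdd (hX.sub (subset_closure hw)))).le
  exact mem_ball_zero_iff.mpr (by linarith [norm_add_le (w ^ n) c, h.hc])

omit hs in
theorem ball_Zs {σ : ℂ → ℝ} (hσ : ∀ x ∈ O, σ x ≤ s ∧
    ball (F n c x) (σ (F n c x)) ⊆ F n c '' ball x (σ x)) (t : ℕ) :
    ∀ x ∈ O, ball x (σ x) ⊆ Zs (F n c) X t := by
  have h1 : ∀ x ∈ O, ball x (σ x) ⊆ X := fun x hx => (ball_subset_ball (hσ x hx).1).trans (hX.ball x hx)
  induction t with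
  | zero =>
    intro x hx
    obtain ⟨y, hy, rfl⟩ := h.bijOn.surjOn hx
    exact (hσ y hy).2.trans (image_mono (h1 y hy))
  | succ t ih =>
    intro x hx
    obtain ⟨y, hy, rfl⟩ := h.bijOn.surjOn hx
    exact (hσ y hy).2.trans (image_mono (subset_inter (ih y hy) (h1 y hy)))

theorem mem_Zs (t : ℕ) : ∀ x ∈ O, x ∈ Zs (F n c) X t := by
  induction t with
  | zero =>
    intro x hx
    obtain ⟨y, hy, rfl⟩ := h.bijOn.surjOn hx
    exact mem_image_of_mem _ (mem_X hX hs hy)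
  | succ t ih =>
    intro x hx
    obtain ⟨y, hy, rfl⟩ := h.bijOn.surjOn hx
    exact mem_image_of_mem _ ⟨ih y hy, mem_X hX hs hy⟩

theorem mem_of_F {w : ℂ} (hw : w ∈ X') (h1 : F n c w ∈ O) : w ∈ O := by
  obtain ⟨y, hy, e⟩ := h.bijOn.surjOn h1
  exact hX.inj (hX.sub (subset_closure (mem_X hX hs hy))) hw e ▸ hy

omit hs in
theorem frontier_image {A : Set ℂ} (hA : IsOpen A) (hAX : A ⊆ X) :
    frontier (F n c '' A) ⊆ F n c '' frontier A := fun z hz => by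
  rw [(isOpenMap_F h.hn c _ hA).frontier_eq] at hz
  obtain ⟨w, hw, rfl⟩ := closure_minimal (image_mono subset_closure) (((isBounded_ball.subset
    (hAX.trans (subset_closure.trans (hX.sub.trans hX.bdd)))).isCompact_closure.image
    (by fun_prop : Continuous (F n c))).isClosed) hz.1
  exact ⟨w, hA.frontier_eq ▸ ⟨hw, fun h' => hz.2 ⟨w, h', rfl⟩⟩, rfl⟩

theorem short_step (hBm : Measurable B) (hBc : ∀ w ∉ O, ContinuousAt B w) (hΛ : 0 < Λ) {Γ Γ' : Set ℂ}
    {a : ℝ} (ha : 0 ≤ a) (h1 : volume Γ = 0) (h2 : CapLe Γ B a) (h3 : Γ' ⊆ Γ) (h4 : IsCompact Γ')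
    (h5 : Γ' ⊆ X') (h6 : ∀ x ∈ O, x ∉ Γ') : IsCompact (F n c '' Γ') ∧ volume (F n c '' Γ') = 0 ∧
      (∀ x ∈ O, x ∉ F n c '' Γ') ∧ CapLe (F n c '' Γ') B (Λ * a) := by
  have hd : Differentiable ℂ (F n c) := by fun_prop
  refine ⟨h4.image hd.continuous, addHaar_image_eq_zero_of_differentiableOn_of_addHaar_eq_zero _
    (hd.restrictScalars ℝ).differentiableOn (measure_mono_null h3 h1), ?_,
    CapLe.push hX.opn' hd.differentiableOn hX.inj
      (fun z hz => (h.deriv_F fun e => hX.zero (e ▸ hz)).2) h5 ?_⟩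
  · rintro _ hx ⟨w, hw, rfl⟩
    exact h6 w (h.mem_of_F hX hs (h5 hw) hx) hw
  · refine h2.localize hBm ha hΛ h1 h3 h4 (hX.opn'.sdiff O.finite_toSet.isClosed)
      (fun w hw => ⟨h5 hw, fun h' => h6 w h' hw⟩) (fun w hw => ContinuousAt.continuousWithinAt ?_)
      fun w hw => ?_
    · exact (hd.deriv.continuous.continuousAt.pow 2).mul ((hBc _ fun h' =>
        hw.2 (h.mem_of_F hX hs hw.1 h')).comp hd.continuous.continuousAt)
    · rw [(h.deriv_F fun e => hX.zero (e ▸ hw.1)).1]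
      exact hX.le w hw.1 hw.2

theorem Gs_spec (hBm : Measurable B) (hBc : ∀ w ∉ O, ContinuousAt B w) (hΛ : 1 ≤ Λ) (hδ : 0 ≤ δ)
    (t : ℕ) : frontier (Zs (F n c) X t) ⊆ Gs (F n c) X t ∧ IsCompact (Gs (F n c) X t) ∧
      volume (Gs (F n c) X t) = 0 ∧ (∀ x ∈ O, x ∉ Gs (F n c) X t) ∧
      CapLe (Gs (F n c) X t) B ((t + 1) * Λ ^ (t + 1) * δ) := by
  have hc : IsCompact (closure X) :=
    (isBounded_ball.subset (subset_closure.trans (hX.sub.trans hX.bdd))).isCompact_closure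
  have hf : IsCompact (frontier X) := hc.of_isClosed_subset isClosed_frontier frontier_subset_closure
  have hO : ∀ x ∈ O, x ∉ frontier X := fun x hx h' => (hX.opn.frontier_eq ▸ h').2 (mem_X hX hs hx)
  induction t with
  | zero =>
    refine ⟨h.frontier_image hX hX.opn subset_rfl, ?_⟩
    rw [Nat.cast_zero, zero_add, zero_add, one_mul, pow_one]
    exact h.short_step hX hs hBm hBc (by linarith) hδ hX.null hX.cap subset_rfl hf
      (frontier_subset_closure.trans hX.sub) hO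
  | succ t ih =>
    obtain ⟨i1, i2, i3, i4, i5⟩ := ih
    obtain ⟨j1, j2, j3, j4⟩ := h.short_step hX hs hBm hBc (by linarith) (by positivity)
      (measure_union_null i3 hX.null) (CapLe.union hBm (by positivity) hδ i5 hX.cap)
      (union_subset_union_left _ inter_subset_left) ((i2.inter_right isClosed_closure).union hf)
      (union_subset (inter_subset_right.trans hX.sub) (frontier_subset_closure.trans hX.sub))
      (fun x hx h' => h'.elim (fun h' => i4 x hx h'.1) (hO x hx))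
    refine ⟨(h.frontier_image hX ((h.Zs_open hX t).inter hX.opn) inter_subset_right).trans
      (image_mono ((frontier_inter_subset _ _).trans (union_subset_union
        (inter_subset_inter_left _ i1) inter_subset_right))), j1, j2, j3, j4.mono ?_⟩
    have h1 : δ ≤ Λ ^ (t + 1) * δ := le_mul_of_one_le_left hδ (one_le_pow₀ hΛ)
    push_cast
    rw [pow_succ' Λ (t + 1)]
    nlinarith

theorem chart_Om (t : ℕ) {x : ℂ} (hx : x ∈ O) : IsOpen (fill (Cp (F n c) X t x)) ∧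
    fill (Cp (F n c) X t x) ⊆ ball 0 (4 ^ n + 3) ∧
    ∃ φ ψ, Bihol φ ψ (fill (Cp (F n c) X t x)) (ball 0 1) ∧ ψ 0 = x := by
  have h1 := (h.Zs_open hX t).connectedComponentIn (x := x)
  have h2 := mem_connectedComponentIn (h.mem_Zs hX hs t x hx)
  have h3 := fill_subset isOpen_ball (full_ball _ _)
    ((connectedComponentIn_subset _ x).trans (h.Zs_bdd hX t))
  exact ⟨isOpen_fill h1, h3, riemann (isOpen_fill h1) (isBounded_ball.subset h3)
    (isPreconnected_fill isPreconnected_connectedComponentIn h2) (full_fill h1) (subset_fill _ h2)⟩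

theorem inv_step (t : ℕ) {x : ℂ} (hx : x ∈ O) : ∃ γ : ℂ → ℂ,
    DifferentiableOn ℂ γ (fill (Cp (F n c) X (t + 1) (F n c x))) ∧
    MapsTo γ (fill (Cp (F n c) X (t + 1) (F n c x))) (fill (Cp (F n c) X t x)) ∧
    (∀ z ∈ fill (Cp (F n c) X (t + 1) (F n c x)), F n c (γ z) = z) ∧
    ∀ y ∈ O, F n c y ∈ Cp (F n c) X (t + 1) (F n c x) → γ (F n c y) = y ∧ y ∈ Cp (F n c) X t x := by
  have hn := h.hn
  have hd : Differentiable ℂ (F n c) := by fun_prop
  set Y := connectedComponentIn (Zs (F n c) X t ∩ X) x with hY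
  have hYo : IsOpen Y := ((h.Zs_open hX t).inter hX.opn).connectedComponentIn
  have hxY : x ∈ Y := mem_connectedComponentIn ⟨h.mem_Zs hX hs t x hx, mem_X hX hs hx⟩
  have hXX : X ⊆ X' := subset_closure.trans hX.sub
  have hYX : Y ⊆ X' := fun w hw => hXX (connectedComponentIn_subset _ _ hw).2
  have hYC : Y ⊆ Cp (F n c) X t x := connectedComponentIn_mono _ inter_subset_left
  have hrot : ∀ ζ : ℂ, ζ ^ n = 1 → ζ ≠ 1 → ∀ w ∈ fill Y, ζ * w ∉ fill Y := fun ζ h1 h2 =>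
    rot_fill hYo isPreconnected_connectedComponentIn (norm_eq_one_of_pow_eq_one h1 (by omega))
      fun w hw hw' => h2 ((mul_eq_right₀ fun e => hX.zero (e ▸ hYX hw)).mp
        (hX.inj (hYX hw') (hYX hw) (by simp only [F, mul_pow, h1, one_mul])))
  have hω := Complex.isPrimitiveRoot_exp n (by omega)
  have h0 : ∀ w ∈ fill Y, w ≠ 0 := by
    rintro _ hw rfl
    exact hrot _ hω.pow_eq_one (hω.ne_one hn) 0 hw (by rwa [mul_zero])
  have hinj : InjOn (F n c) (fill Y) := fun w hw w' hw' e => by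
    by_contra hne
    refine hrot (w' / w) (by rw [div_pow, ← add_right_cancel e, div_self (pow_ne_zero _ (h0 w hw))])
      (fun h1 => hne (div_eq_one_iff_eq (h0 w hw) |>.mp h1).symm) w hw ?_
    rwa [div_mul_cancel₀ _ (h0 w hw)]
  have hγ := differentiableOn_invFunOn (isOpen_fill hYo) hd.differentiableOn hinj
    fun z hz => (h.deriv_F (h0 z hz)).2
  have hγm : MapsTo (Function.invFunOn (F n c) (fill Y)) (F n c '' fill Y) (fill Y) :=
    fun z hz => Function.invFunOn_mem hz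
  have hfull : Full (F n c '' fill Y) := by
    refine full_of_log (isOpenMap_F hn c _ (isOpen_fill hYo)) fun q hq => ?_
    obtain ⟨α, hα⟩ := IsAlgClosed.exists_pow_nat_eq (q - c) (by omega : 0 < n)
    have h1 := fun i : ℕ => exists_log_of_full (isOpen_fill hYo)
      (isPreconnected_fill isPreconnected_connectedComponentIn hxY) (full_fill hYo)
      (x := exp (2 * π * I / n) ^ i * α) fun h' => hq ⟨_, h', by
        simp only [F]
        rw [mul_pow, ← pow_mul, mul_comm i n, pow_mul, hω.pow_eq_one, one_pow, one_mul, hα,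
          sub_add_cancel]⟩
    choose L hL hLe using h1
    refine ⟨fun z => ∑ i ∈ Finset.range n, L i (Function.invFunOn (F n c) (fill Y) z),
      continuousOn_finsetSum _ fun i _ => ((hL i).comp hγ hγm).continuousOn, fun z hz => ?_⟩
    have h2 := congrArg (eval (Function.invFunOn (F n c) (fill Y) z))
      (X_pow_sub_C_eq_prod hω (by omega) hα)
    simp only [eval_sub, eval_pow, eval_X, eval_C, eval_prod] at h2
    rw [exp_sum, Finset.prod_congr rfl fun i _ => hLe i _ (hγm hz), ← h2]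
    linear_combination (Function.invFunOn_eq hz : F n c _ = z)
  have hC : Cp (F n c) X (t + 1) (F n c x) ⊆ F n c '' Y := fun z hz => by
    have h1 := differentiableOn_invFunOn hX.opn' hd.differentiableOn hX.inj
      fun z hz => (h.deriv_F fun e => hX.zero (e ▸ hz)).2
    have h2 : Cp (F n c) X (t + 1) (F n c x) ⊆ F n c '' X' :=
      (connectedComponentIn_subset _ _).trans (image_mono (inter_subset_right.trans hXX))
    refine ⟨_, (isPreconnected_connectedComponentIn.image _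
      (h1.continuousOn.mono h2)).subset_connectedComponentIn ⟨F n c x, mem_connectedComponentIn
        (h.mem_Zs hX hs _ _ (h.maps x hx)), hX.inj.leftInvOn_invFunOn (hYX hxY)⟩ ?_
        (mem_image_of_mem _ hz), Function.invFunOn_eq (h2 hz)⟩
    rintro _ ⟨u, hu, rfl⟩
    obtain ⟨w, hw, rfl⟩ := connectedComponentIn_subset _ _ hu
    rwa [hX.inj.leftInvOn_invFunOn (hXX hw.2)]
  have hsub := fill_subset (isOpenMap_F hn c _ (isOpen_fill hYo)) hfull
    (hC.trans (image_mono (subset_fill Y)))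
  refine ⟨_, hγ.mono hsub, fun z hz => fill_mono (h.Zs_open hX t).connectedComponentIn hYC
    (hγm (hsub hz)), fun z hz => Function.invFunOn_eq (hsub hz), fun y hy h1 => ?_⟩
  obtain ⟨w, hw, e⟩ := hC h1
  obtain rfl := hX.inj (hYX hw) (hXX (mem_X hX hs hy)) e
  exact ⟨hinj.leftInvOn_invFunOn (subset_fill Y hw), hYC hw⟩

theorem inv_iter (t : ℕ) {x : ℂ} (hx : x ∈ O) (d : ℕ) : ∃ γ : ℂ → ℂ,
    DifferentiableOn ℂ γ (fill (Cp (F n c) X (t + d) ((F n c)^[d] x))) ∧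
    MapsTo γ (fill (Cp (F n c) X (t + d) ((F n c)^[d] x))) (fill (Cp (F n c) X t x)) ∧
    (∀ z ∈ fill (Cp (F n c) X (t + d) ((F n c)^[d] x)), (F n c)^[d] (γ z) = z) ∧
    ∀ y ∈ O, (F n c)^[d] y ∈ Cp (F n c) X (t + d) ((F n c)^[d] x) →
      γ ((F n c)^[d] y) = y ∧ y ∈ Cp (F n c) X t x := by
  induction d with
  | zero => exact ⟨id, differentiableOn_id, fun _ h => h, fun _ _ => rfl, fun _ _ h => ⟨rfl, h⟩⟩
  | succ d ih =>
    obtain ⟨γ, a1, a2, a3, a4⟩ := ih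
    obtain ⟨γ', b1, b2, b3, b4⟩ := h.inv_step hX hs (t + d) (h.iter_mem hx d)
    simp only [Function.iterate_succ_apply', ← add_assoc]
    refine ⟨γ ∘ γ', a1.comp b1 b2, a2.comp b2, fun z hz => ?_, fun y hy h1 => ?_⟩
    · rw [Function.comp_apply, a3 _ (b2 hz), b3 z hz]
    · obtain ⟨c1, c2⟩ := b4 _ (h.iter_mem hy d) h1
      rw [Function.comp_apply, c1]
      exact a4 y hy c2

theorem rad_anti {t t' : ℕ} (ht : t ≤ t') {x : ℂ} (hx : x ∈ O) :
    0 < rad (fill (Cp (F n c) X t' x)) x ∧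
      rad (fill (Cp (F n c) X t' x)) x ≤ rad (fill (Cp (F n c) X t x)) x := by
  obtain ⟨a1, -, φ, ψ, a2, a3⟩ := h.chart_Om hX hs t hx
  obtain ⟨b1, -, φ', ψ', b2, b3⟩ := h.chart_Om hX hs t' hx
  rw [rad_eq a1 a2 a3, rad_eq b1 b2 b3]
  exact ⟨(schwarz_chart b1 b2 b2.dψ b2.mψ rfl).1, (schwarz_chart a1 a2 b2.dψ (b2.mψ.mono_right
    (fill_mono (h.Zs_open hX t).connectedComponentIn (connectedComponentIn_mono _ (Zs_anti _ _ ht))))
    (b3.trans a3.symm)).2.1⟩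

theorem inv_chart (t : ℕ) {x : ℂ} (hx : x ∈ O) (d : ℕ) : ∃ φ α β : ℂ → ℂ,
    Bihol φ α (fill (Cp (F n c) X (t + d) ((F n c)^[d] x))) (ball 0 1) ∧ α 0 = (F n c)^[d] x ∧
    DifferentiableOn ℂ β (ball 0 1) ∧ MapsTo β (ball 0 1) (fill (Cp (F n c) X t x)) ∧ β 0 = x ∧
    (∀ w ∈ ball (0 : ℂ) 1, (F n c)^[d] (β w) = α w ∧
      (α w ∈ O → α w ∈ Cp (F n c) X (t + d) ((F n c)^[d] x) → β w ∈ O)) ∧
    ‖dF n c d x‖ * ‖deriv β 0‖ = rad (fill (Cp (F n c) X (t + d) ((F n c)^[d] x))) ((F n c)^[d] x) := by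
  obtain ⟨γ, a1, a2, a3, a4⟩ := h.inv_iter hX hs t hx d
  obtain ⟨b1, -, φ, α, b2, b3⟩ := h.chart_Om hX hs (t + d) (h.iter_mem hx d)
  have h0 : (γ ∘ α) 0 = x := by
    rw [Function.comp_apply, b3]
    exact (a4 x hx (mem_connectedComponentIn (h.mem_Zs hX hs _ _ (h.iter_mem hx d)))).1
  have hn := isOpen_ball.mem_nhds (mem_ball_self one_pos : (0 : ℂ) ∈ ball 0 1)
  refine ⟨φ, α, γ ∘ α, b2, b3, a1.comp b2.dψ b2.mψ, a2.comp b2.mψ, h0,
    fun w hw => ⟨a3 _ (b2.mψ hw), fun h1 h2 => ?_⟩, ?_⟩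
  · obtain ⟨y, hy, e⟩ := (h.bijOn.iterate d).surjOn h1
    rw [Function.comp_apply, ← e, (a4 y hy (e ▸ h2)).1]
    exact hy
  · have h1 := (hasDerivAt_iter n c d ((γ ∘ α) 0)).comp 0
      ((a1.comp b2.dψ b2.mψ).differentiableAt hn).hasDerivAt
    rw [rad_eq b1 b2 b3, ← norm_mul, ← h0, ← h1.deriv]
    congr 1
    exact EventuallyEq.deriv_eq (eventually_of_mem hn fun w hw => a3 _ (b2.mψ hw))

omit hX hs in
theorem sum_log_dF (d : ℕ) : ∑ x ∈ O, Real.log ‖dF n c d x‖ = d * Real.log ‖ρ‖ := by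
  have h0 : ∀ x ∈ O, (n : ℂ) * x ^ (n - 1) ≠ 0 := fun x hx => by
    simpa [dF] using h.dF_ne hx 1
  induction d with
  | zero => simp [dF]
  | succ d ih =>
    rw [Finset.sum_congr rfl fun x hx => by
      rw [dF_succ, norm_mul, Real.log_mul (norm_ne_zero_iff.mpr (h0 _ (h.iter_mem hx d)))
        (norm_ne_zero_iff.mpr (h.dF_ne hx d))], Finset.sum_add_distrib, ih,
      h.sum_comp_iter (fun x => Real.log ‖(n : ℂ) * x ^ (n - 1)‖), ← h.prod, norm_prod,
      Real.log_prod fun x hx => norm_ne_zero_iff.mpr (h0 x hx)]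
    push_cast; ring

end Cyc

theorem exists_window (u : ℕ → ℝ) {J : ℕ} (hJ : 0 < J) {D : ℝ} (h : u 0 - u J ≤ D) :
    ∃ i < J, u i - u (i + 1) ≤ D / J := by
  rw [← Finset.sum_range_sub'] at h
  obtain ⟨i, hi, h1⟩ := Finset.exists_le_of_sum_le (f := fun i => u i - u (i + 1))
    (g := fun _ => D / J) (Finset.nonempty_range_iff.mpr hJ.ne') (h.trans_eq (by
      rw [Finset.sum_const, Finset.card_range, nsmul_eq_mul, mul_div_cancel₀ _ (by positivity)]))
  exact ⟨i, Finset.mem_range.mp hi, h1⟩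

theorem one_sub_mul_le {a b κ : ℝ} (ha : 0 < a) (hb : 0 < b) (h : Real.log a - Real.log b ≤ κ) :
    (1 - κ) * a ≤ b := by
  have h1 := Real.log_le_sub_one_of_pos (div_pos hb ha)
  have h2 := Real.one_sub_inv_le_log_of_pos (div_pos ha hb)
  rw [Real.log_div ha.ne' hb.ne', inv_div] at h2
  rw [← le_div_iff₀ ha]
  linarith

theorem Cyc.exists_model {n : ℕ} {c : ℂ} {k : ℕ} {O : Finset ℂ} {ρ : ℂ} (h : Cyc n c k O ρ)
    {A : ℂ → ℂ} {X X' : Set ℂ} {Λ δ s : ℝ} (hX : XData n c O (qd O A) X X' Λ δ s) (hs : 0 < s)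
    (hs1 : s ≤ 1) (hΛ : 1 ≤ Λ) (hδ : 0 ≤ δ) {J : ℕ} (hJ : 0 < J)
    (hcap : (J * k + 1) * Λ ^ (J * k + 1) * δ ≤ ‖kappa‖ / 16) {L κ : ℝ}
    (hL : 2 * (4 ^ n + 3) * Lam n ^ (4 * k + 2) / (s * (‖ρ‖ - 1)) ≤ Real.exp L)
    (hκ : (k * L + k ^ 2) / J + k * (‖ρ‖ - 1) ≤ κ) (hκ1 : κ < 1) : ∃ W, Model n c k O W κ := by
  classical
  have hμ := sub_pos.mpr h.big
  have hLam := h.one_le_Lam
  obtain ⟨σ, hσ⟩ := h.radii hs hs1
  set ℓ : ℕ → ℂ → ℝ := fun t x => Real.log (rad (fill (Cp (F n c) X t x)) x) with hℓ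
  have hanti : ∀ {t t'}, t ≤ t' → ∀ x ∈ O, ℓ t' x ≤ ℓ t x := fun ht x hx =>
    Real.log_le_log (h.rad_anti hX hs ht hx).1 (h.rad_anti hX hs ht hx).2
  have hrange : ∀ t, ∀ x ∈ O, ℓ 0 x - ℓ t x ≤ L := fun t x hx => by
    obtain ⟨a1, a2, φ, ψ, a3, a4⟩ := h.chart_Om hX hs 0 hx
    obtain ⟨b1, -, φ', ψ', b3, b4⟩ := h.chart_Om hX hs t hx
    have h1 : rad (fill (Cp (F n c) X 0 x)) x ≤ 2 * (4 ^ n + 3) := by
      rw [rad_eq a1 a3 a4]
      simpa using norm_deriv_le_div_of_mapsTo_ball a3.dψ (R₂ := 2 * (4 ^ n + 3)) (fun w hw => by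
        have h2 := mem_ball_zero_iff.mp (a2 (a3.mψ hw))
        have h3 := mem_ball_zero_iff.mp (a2 (a3.mψ (mem_ball_self one_pos)))
        rw [mem_closedBall_iff_norm]
        linarith [norm_sub_le (ψ w) (ψ 0)]) one_pos
    have h2 : 0 < σ x := lt_of_lt_of_le (by positivity) (hσ x hx).1
    have h3 : σ x ≤ rad (fill (Cp (F n c) X t x)) x := by
      rw [rad_eq b1 b3 b4]
      have h4 := (schwarz_chart b1 b3 (β := fun w => x + σ x * w) (by fun_prop) (fun w hw =>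
        subset_fill _ ((convex_ball x (σ x)).isPreconnected.subset_connectedComponentIn
          (mem_ball_self h2) (h.ball_Zs hX (fun y hy => (hσ y hy).2) t x hx) (by
            rw [mem_ball_iff_norm, add_sub_cancel_left, norm_mul, norm_real, Real.norm_of_nonneg h2.le]
            exact mul_lt_of_lt_one_right h2 (mem_ball_zero_iff.mp hw)))) (by simp [b4])).2.1
      simpa [abs_of_pos h2] using h4
    rw [hℓ, ← Real.log_div (h.rad_anti hX hs le_rfl hx).1.ne' (h.rad_anti hX hs le_rfl hx).1.ne',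
      Real.log_le_iff_le_exp (div_pos (h.rad_anti hX hs le_rfl hx).1 (h.rad_anti hX hs le_rfl hx).1)]
    refine le_trans (div_le_div₀ (by positivity) h1 (by positivity) ((hσ x hx).1.trans h3)) ?_
    rwa [div_div_eq_mul_div]
  set Pr : ℕ → Finset (ℂ × ℂ) := fun t => (O ×ˢ O).filter fun p => p.2 ∈ Cp (F n c) X t p.1 with hPr
  have hPa : ∀ {t t'}, t ≤ t' → Pr t' ⊆ Pr t := fun ht => Finset.monotone_filter_right _
    fun p _ hp => connectedComponentIn_mono _ (Zs_anti _ _ ht) hp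
  obtain ⟨i, hi, hw⟩ := exists_window (fun i => ∑ x ∈ O, ℓ (i * k) x + (Pr (i * k)).card) hJ
    (D := k * L + k ^ 2) (by
      have h1 : ∑ x ∈ O, (ℓ 0 x - ℓ (J * k) x) ≤ k * L := by
        simpa [h.card] using Finset.sum_le_card_nsmul _ _ _ (hrange (J * k))
      have h2 : ((Pr 0).card : ℝ) ≤ k ^ 2 := by
        exact_mod_cast (Finset.card_filter_le _ _).trans (by rw [Finset.card_product, h.card, sq])
      rw [Finset.sum_sub_distrib] at h1
      simp only [zero_mul]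
      linarith [Nat.cast_nonneg (α := ℝ) (Pr (J * k)).card])
  simp only [add_one_mul] at hw
  set t := i * k with ht
  have htJ : t ≤ J * k := Nat.mul_le_mul_right k hi.le
  have hkμ : 0 ≤ k * (‖ρ‖ - 1) := by positivity
  have hsum : ∀ d, 0 ≤ ∑ x ∈ O, (ℓ t x - ℓ (t + d) x) := fun d =>
    Finset.sum_nonneg fun x hx => sub_nonneg.mpr (hanti le_self_add x hx)
  have hcard : ((Pr (t + k)).card : ℝ) ≤ (Pr t).card := by
    exact_mod_cast Finset.card_le_card (hPa le_self_add)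
  have hPe : Pr (t + k) = Pr t := Finset.eq_of_subset_of_card_le (hPa le_self_add) (by
    have h1 := hsum k
    rw [Finset.sum_sub_distrib] at h1
    have h2 : ((Pr t).card : ℝ) < (Pr (t + k)).card + 1 := by linarith
    exact_mod_cast Nat.lt_succ_iff.mp (by exact_mod_cast h2))
  have hI : ∀ d ≤ k, ∑ x ∈ O, (ℓ t x - ℓ (t + d) x) + k * (‖ρ‖ - 1) ≤ κ := fun d hd => by
    have h1 : ∑ x ∈ O, ℓ (t + k) x ≤ ∑ x ∈ O, ℓ (t + d) x :=
      Finset.sum_le_sum (hanti (Nat.add_le_add_left hd t))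
    rw [Finset.sum_sub_distrib]
    linarith
  obtain ⟨x₀, hx₀, hmin⟩ := O.exists_min_image (fun x => sSup (norm '' Cp (F n c) X t x))
    (Finset.card_pos.mp (h.card ▸ h.pos))
  have hin : ∀ y ∈ O, y ∈ fill (Cp (F n c) X t x₀) → y ∈ Cp (F n c) X t x₀ := fun y hy h1 => by
    by_contra h2
    have h3 := mem_connectedComponentIn (h.mem_Zs hX hs t y hy)
    obtain ⟨w, hw, b, hb, hb'⟩ := dominated isPreconnected_connectedComponentIn (disjoint_left.mpr
      fun z h4 h5 => h2 (by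
        rw [Cp, connectedComponentIn_eq h5, ← connectedComponentIn_eq h4]; exact h3)) h3 h1
    have h4 : sSup (norm '' Cp (F n c) X t y) ≤ b :=
      csSup_le ⟨_, y, h3, rfl⟩ (by rintro _ ⟨z, hz, rfl⟩; exact hb' z hz)
    have h5 : ‖w‖ ≤ sSup (norm '' Cp (F n c) X t x₀) := le_csSup ⟨4 ^ n + 3, by
      rintro _ ⟨z, hz, rfl⟩
      exact (mem_ball_zero_iff.mp (h.Zs_bdd hX t (connectedComponentIn_subset _ _ hz))).le⟩
      ⟨w, hw, rfl⟩
    linarith [hmin y hy]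
  obtain ⟨hWo, hWb, hWc⟩ := h.chart_Om hX hs t hx₀
  have h00 : (0 : ℂ) ∈ ball (0 : ℂ) 1 := mem_ball_self one_pos
  have hBc : ∀ w ∉ O, ContinuousAt (qd O A) w := fun w hw => (qd_diff A hw).continuousAt
  refine ⟨_, hWo, ⟨x₀, hx₀, hWc⟩, fun φ ψ hb hO => ?_, fun d hd φ ψ φ' ψ' hb hb' hO he => ?_⟩
  · obtain ⟨g1, g2, g3, g4, g5⟩ := h.Gs_spec hX hs (qd_meas O A) hBc hΛ hδ t
    have h1 := (frontier_fill_subset (h.Zs_open hX t).connectedComponentIn).trans
      ((frontier_comp (h.Zs_open hX t) x₀).trans g1)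
    refine jensen hWo (isBounded_ball.subset hWb) hb hO (hb.mψ h00) (hb.right 0 h00) (qP_eval A hO)
      (qd_meas O A) (fun w hw => qd_eq A hw) (fun y hy h' => g4 y hy (h1 h')) (CapLe.mono
        (g5.localize (qd_meas O A) (by positivity) one_pos g3 h1
          (g2.of_isClosed_subset isClosed_frontier h1) O.finite_toSet.isClosed.isOpen_compl
          (fun w hw h' => g4 w h' (h1 hw)) (fun w hw => (hBc w hw).continuousWithinAt)
          (fun w _ => by simp)) (le_trans ?_ hcap)) h.card.le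
    rw [one_mul]
    gcongr
    exact_mod_cast htJ
  · have hz := h.iter_mem hO d
    have e1 := connectedComponentIn_eq (hin _ hO (hb.mψ h00))
    have e2 := connectedComponentIn_eq (hin _ hz (he ▸ hb'.mψ h00))
    obtain ⟨φ₂, α, β, a1, a2, a3, a4, a5, a6, a7⟩ := h.inv_chart hX hs t hO d
    have hα : MapsTo α (ball 0 1) (fill (Cp (F n c) X t x₀)) := a1.mψ.mono_right (by
      rw [Cp, Cp, e2]
      exact fill_mono (h.Zs_open hX t).connectedComponentIn
        (connectedComponentIn_mono _ (Zs_anti _ _ le_self_add)))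
    have hβ : MapsTo β (ball 0 1) (fill (Cp (F n c) X t x₀)) := by rw [Cp, e1]; exact a4
    have hpos := fun t x hx => (h.rad_anti hX hs (le_refl t) (x := x) hx).1
    refine ⟨α, β, a1.dψ, a3, hα, hβ, fun w hw => ⟨(a6 w hw).1, fun h1 => (a6 w hw).2 h1 ?_⟩,
      (schwarz_chart hWo hb' a1.dψ hα (a2.trans he.symm)).2.2 κ ?_,
      (schwarz_chart hWo hb a3 hβ a5).2.2 κ ?_⟩
    · have h2 : ((F n c)^[d] (ψ 0), α w) ∈ Pr t := Finset.mem_filter.mpr
        ⟨Finset.mem_product.mpr ⟨hz, h1⟩, by rw [Cp, ← e2]; exact hin _ h1 (hα hw)⟩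
      exact (Finset.mem_filter.mp (hPa (Nat.add_le_add_left hd t) (hPe ▸ h2))).2
    · rw [← rad_eq hWo hb' he, ← rad_eq (h.chart_Om hX hs _ hz).1 a1 a2, Cp, e2]
      refine one_sub_mul_le (hpos _ _ hz) (hpos _ _ hz) (le_trans ?_ (hI d hd))
      exact (Finset.single_le_sum (f := fun x => ℓ t x - ℓ (t + d) x)
        (fun x hx => sub_nonneg.mpr (hanti le_self_add x hx)) hz).trans (le_add_of_nonneg_right hkμ)
    · have hdF := fun x hx => norm_pos_iff.mpr (h.dF_ne (x := x) hx d)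
      refine le_of_mul_le_mul_left ?_ (hdF _ hO)
      rw [← rad_eq hWo hb rfl, a7, Cp, e1, mul_left_comm]
      refine one_sub_mul_le (mul_pos (hdF _ hO) (hpos _ _ hO)) (hpos _ _ hz) (le_trans ?_ (hI d hd))
      rw [Real.log_mul (hdF _ hO).ne' (hpos _ _ hO).ne']
      refine (Finset.single_le_sum (f := fun x => Real.log ‖dF n c d x‖ + ℓ t x -
        ℓ (t + d) ((F n c)^[d] x)) (fun x hx => ?_) hO).trans ?_
      · obtain ⟨φ₃, α₃, β₃, -, -, b3, b4, b5, -, b7⟩ := h.inv_chart hX hs t hx d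
        obtain ⟨c1, -, φ₄, ψ₄, c2, c3⟩ := h.chart_Om hX hs t hx
        rw [sub_nonneg, hℓ, ← Real.log_mul (hdF _ hx).ne' (hpos _ _ hx).ne']
        refine Real.log_le_log (hpos _ _ (h.iter_mem hx d)) ?_
        rw [← b7, rad_eq c1 c2 c3]
        exact mul_le_mul_of_nonneg_left (schwarz_chart c1 c2 b3 b4 (b5.trans c3.symm)).2.1
          (norm_nonneg _)
      · rw [Finset.sum_sub_distrib, Finset.sum_sub_distrib, Finset.sum_add_distrib, h.sum_log_dF,
          h.sum_comp_iter]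
        have h1 : d * Real.log ‖ρ‖ ≤ k * (‖ρ‖ - 1) := mul_le_mul (by exact_mod_cast hd)
          (Real.log_le_sub_one_of_pos (by linarith)) (Real.log_nonneg h.big.le) (by positivity)
        linarith

end Pool.Agent.Lib.MP_c35c17_an.Q
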