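import Pool.Agent.Lib.MP_c35c17_an.QLoss

set_option autoImplicit false

open Filter Topology Set Metric Complex Polynomial MeasureTheory
open scoped ENNReal Real

namespace Pool.Agent.Lib.MP_c35c17_an.Q

theorem coprime_of_no {p q : ℂ[X]} (hno : ∀ w, q.eval w = 0 → p.eval w ≠ 0) : IsCoprime p q :=
  (Polynomial.isCoprime_iff_aeval_ne_zero_of_isAlgClosed ℂ ℂ p q).mpr fun a => by
    simpa only [coe_aeval_eq_eval, or_iff_not_imp_right, not_not] using hno a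

theorem level_of_zone {p q : ℂ[X]} (hno : ∀ w, q.eval w = 0 → p.eval w ≠ 0) {N : ℕ} (hN : 1 ≤ N)
    (hp : p.natDegree ≤ N) (hq : q.natDegree ≤ N) {M t₁ t₂ y : ℝ} (hM : 0 < M) (h₁ : M ≤ t₁)
    (h₂ : t₂ ≤ 2 * M) (h₃ : M ≤ 12 * N * (t₂ - t₁)) (hy : 0 < y) {B : ℂ → ℂ} (hB : Measurable B)
    (hZ : ∀ w, M < ‖p.eval w / q.eval w‖ → ‖w‖ < 4)
    (hm : ∫⁻ w in {w | t₁ < ‖p.eval w / q.eval w‖ ∧ ‖p.eval w / q.eval w‖ < t₂}, ‖B w‖ₑ ≤
      ENNReal.ofReal (y ^ 2)) :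
    ∃ t ∈ Ioo M (2 * M), volume {w | ‖p.eval w‖ = t * ‖q.eval w‖} = 0 ∧
      CapLe {w | ‖p.eval w‖ = t * ‖q.eval w‖} B (200 * bumpC * N * y) := by
  have hN' : (1 : ℝ) ≤ N := by exact_mod_cast hN
  have h4 : 0 < t₂ - t₁ := pos_of_mul_pos_left (hM.trans_le h₃ |>.trans_eq (mul_comm _ _)) (by positivity)
  obtain ⟨t, ht, h5, h6⟩ := short_level (coprime_of_no hno) hp hq (hM.trans_le h₁) (sub_pos.mp h4)
    hB (sq_nonneg y) (fun w hw => mem_ball_zero_iff.mpr (hZ w (h₁.trans_lt hw.1))) hm hy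
  refine ⟨t, ⟨h₁.trans_lt ht.1, ht.2.trans_le h₂⟩, h5, h6.mono ?_⟩
  have h7 : t₂ * y ^ 2 / ((t₂ - t₁) * y) ≤ 24 * (N * y) := by
    rw [div_le_iff₀ (by positivity)]
    calc t₂ * y ^ 2 ≤ (24 * N * (t₂ - t₁)) * y ^ 2 := by gcongr; linarith
      _ = _ := by ring
  have := bumpC_spec.1
  nlinarith

theorem inter_levels {ι : Type*} (S : Finset ι) (p q : ι → ℂ[X]) (t : ι → ℝ) {O : Finset ℂ}
    {A : ℂ → ℂ} {δ : ℝ} (hδ : 0 ≤ δ) {X : Set ℂ}
    (hX : X = ⋂ i ∈ S, {w | t i * ‖(q i).eval w‖ < ‖(p i).eval w‖}) (hb : X ⊆ ball 0 4)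
    (hO : ∀ x ∈ O, x ∈ X)
    (h : ∀ i ∈ S, volume {w | ‖(p i).eval w‖ = t i * ‖(q i).eval w‖} = 0 ∧
      CapLe {w | ‖(p i).eval w‖ = t i * ‖(q i).eval w‖} (qd O A) δ) :
    IsOpen X ∧ (∀ w ∈ closure X, ∀ i ∈ S, t i * ‖(q i).eval w‖ ≤ ‖(p i).eval w‖) ∧
      volume (frontier X) = 0 ∧ CapLe (frontier X) (qd O A) (S.card * δ) := by
  have ho : IsOpen X := hX ▸ isOpen_biInter_finset fun i _ => isOpen_lt (by fun_prop) (by fun_prop)
  have hcl : ∀ w ∈ closure X, ∀ i ∈ S, t i * ‖(q i).eval w‖ ≤ ‖(p i).eval w‖ := fun w hw i hi =>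
    closure_minimal (t := {w | t i * ‖(q i).eval w‖ ≤ ‖(p i).eval w‖})
      (fun z hz => by
        rw [hX] at hz
        have h1 : t i * ‖(q i).eval z‖ < ‖(p i).eval z‖ := mem_iInter₂.mp hz i hi
        exact h1.le)
      (isClosed_le (by fun_prop) (by fun_prop)) hw
  have hfr : frontier X ⊆ ⋃ i ∈ S, {w | ‖(p i).eval w‖ = t i * ‖(q i).eval w‖} := fun w hw => by
    rw [ho.frontier_eq] at hw
    by_contra h1
    refine hw.2 (hX ▸ mem_iInter₂.mpr fun i hi => lt_of_le_of_ne (hcl w hw.1 i hi) fun e => ?_)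
    exact h1 (mem_biUnion hi e.symm)
  have hnull : volume (⋃ i ∈ S, {w | ‖(p i).eval w‖ = t i * ‖(q i).eval w‖}) = 0 :=
    (measure_biUnion_null_iff S.countable_toSet).mpr fun i hi => (h i hi).1
  refine ⟨ho, hcl, measure_mono_null hfr hnull, ?_⟩
  simpa using (CapLe.biUnion S (qd_meas O A) hδ fun i hi => (h i hi).2).localize (qd_meas O A)
    (by positivity) one_pos hnull hfr ((isBounded_ball.subset hb).isCompact_closure.of_isClosed_subset
      isClosed_frontier frontier_subset_closure) O.finite_toSet.isClosed.isOpen_compl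
    (fun w hw h1 => (ho.frontier_eq ▸ hw).2 (hO w h1))
    (fun w hw => (qd_diff A hw).continuousAt.continuousWithinAt) (fun w _ => by simp)

theorem loss_ratio {b β : ℂ} {M : ℝ} (hM : 1 ≤ M) (hβ : β ≠ 0) (h : ‖b / β‖ < 2 * M) :
    ‖b‖ * (‖b / β‖ - (b / β).re) ≤ 6 * M ^ 2 * (‖b‖ + ‖β‖ - ‖b + β‖) := by
  obtain ⟨u, rfl⟩ : ∃ u, b = β * u := ⟨b / β, by field_simp⟩
  rw [mul_div_cancel_left₀ _ hβ] at h ⊢
  rw [← mul_add_one, norm_mul, norm_mul]
  have h1 : ‖u + 1‖ ≤ ‖u‖ + 1 := by simpa using norm_add_le u 1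
  have h2 : ‖u + 1‖ ^ 2 = ‖u‖ ^ 2 + 1 + 2 * u.re := by
    rw [← normSq_eq_norm_sq, ← normSq_eq_norm_sq, normSq_add]; simp
  have h3 : ‖u‖ - u.re ≤ 3 * M * (‖u‖ + 1 - ‖u + 1‖) := by nlinarith
  have h4 : ‖u‖ * (‖u‖ - u.re) ≤ 2 * M * (3 * M * (‖u‖ + 1 - ‖u + 1‖)) :=
    mul_le_mul h.le h3 (sub_nonneg.mpr (re_le_norm u)) (by linarith)
  nlinarith [norm_nonneg β]

theorem qd_le {S : Finset ℂ} {A : ℂ → ℂ} {E : ℝ} (hE : 0 < E) (hS : (S.card : ℝ) ≤ E) {w : ℂ}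
    (h : ∀ y ∈ S, ‖A y‖ ≤ E ∧ 1 / (2 * E) ≤ ‖w - y‖) : ‖qd S A w‖ ≤ 6 * E ^ 3 := by
  calc _ ≤ ∑ y ∈ S, ((2 * E) ^ 2 + E * (2 * E)) := norm_sum_le_of_le _ fun y hy => by
        have h1 : ‖(w - y)⁻¹‖ ≤ 2 * E := by
          rw [norm_inv]; exact inv_le_of_inv_le₀ (by positivity) (by simpa using (h y hy).2)
        refine (norm_add_le _ _).trans ?_
        rw [norm_pow, norm_mul]
        gcongr
        exact (h y hy).1
    _ ≤ E * ((2 * E) ^ 2 + E * (2 * E)) := by rw [Finset.sum_const, nsmul_eq_mul]; gcongr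
    _ = _ := by ring

/-- The region on which the differential dominates its rotated copies. -/
structure XData (n : ℕ) (c : ℂ) (O : Finset ℂ) (B : ℂ → ℂ) (X X' : Set ℂ) (Λ δ s : ℝ) : Prop where
  opn : IsOpen X
  opn' : IsOpen X'
  sub : closure X ⊆ X'
  bdd : X' ⊆ ball 0 4
  inj : InjOn (F n c) X'
  zero : (0 : ℂ) ∉ X'
  le : ∀ w ∈ X', w ∉ O → ‖((n : ℂ) * w ^ (n - 1)) ^ 2 * B (F n c w)‖ ≤ Λ ^ 2 * ‖B w‖
  null : volume (frontier X) = 0
  cap : CapLe (frontier X) B δ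
  ball : ∀ x ∈ O, ball x s ⊆ X

/-- The numerator of the shifted differential. -/
noncomputable def qH (O : Finset ℂ) (A : ℂ → ℂ) (η : ℝ) : ℂ[X] := qP O A + C (η : ℂ) * qQ O ^ 2

theorem qH_eval {O : Finset ℂ} (A : ℂ → ℂ) (η : ℝ) {w : ℂ} (hw : w ∉ O) :
    (qH O A η).eval w = (qd O A w + η) * (qQ O).eval w ^ 2 := by
  have h : (qQ O).eval w ≠ 0 := fun h => hw (qQ_eq_zero.mp h)
  rw [qd_eq A hw, ← qQ_eval, qH, eval_add, eval_mul, eval_C, eval_pow]
  field_simp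

theorem qH_ne {O : Finset ℂ} (A : ℂ → ℂ) (η : ℝ) {w : ℂ} (hw : w ∈ O) : (qH O A η).eval w ≠ 0 := by
  rw [qH, eval_add, eval_mul, eval_pow, qQ_eq_zero.mpr hw, qP_eval A hw, ← qQ_eval]
  simp [qQ_eq_zero]

theorem qH_deg (O : Finset ℂ) (A : ℂ → ℂ) (η : ℝ) : (qH O A η).natDegree ≤ 2 * O.card :=
  natDegree_add_le_of_degree_le (qP_deg O A)
    ((natDegree_C_mul_le _ _).trans (by rw [natDegree_pow, qQ_deg]))

theorem deg_rot (p : ℂ[X]) (ζ : ℂ) : (p.comp (C ζ * X)).natDegree ≤ p.natDegree :=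
  natDegree_comp_le.trans (mul_le_of_le_one_right' (by compute_degree))

/-- Numerators of the ratios. -/
noncomputable def rp (O : Finset ℂ) (A : ℂ → ℂ) (η : ℝ) (ω : ℂ) (j : ℕ) : ℂ[X] :=
  if j = 0 then qH O A η else qH O A η * (qQ O).comp (C (ω ^ j) * X) ^ 2

/-- Denominators of the ratios. -/
noncomputable def rq (O : Finset ℂ) (A : ℂ → ℂ) (η : ℝ) (ω : ℂ) (j : ℕ) : ℂ[X] :=
  if j = 0 then C (η : ℂ) * qQ O ^ 2
  else C ((ω ^ j) ^ 2) * ((qH O A η).comp (C (ω ^ j) * X) * qQ O ^ 2)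

theorem rp_deg (O : Finset ℂ) (A : ℂ → ℂ) (η : ℝ) (ω : ℂ) (j : ℕ) :
    (rp O A η ω j).natDegree ≤ 4 * O.card ∧ (rq O A η ω j).natDegree ≤ 4 * O.card := by
  have h1 := qH_deg O A η
  have h2 := qQ_deg O
  have h3 := deg_rot (qH O A η) (ω ^ j)
  have h4 := deg_rot (qQ O) (ω ^ j)
  unfold rp rq
  split_ifs
  · exact ⟨by omega, (natDegree_C_mul_le _ _).trans (by rw [natDegree_pow]; omega)⟩
  · exact ⟨natDegree_mul_le.trans (by rw [natDegree_pow]; omega), (natDegree_C_mul_le _ _).trans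
      (natDegree_mul_le.trans (by rw [natDegree_pow]; omega))⟩

theorem rp_eval (O : Finset ℂ) (A : ℂ → ℂ) (η : ℝ) (ω : ℂ) {j : ℕ} (hj : j ≠ 0) (w : ℂ) :
    (rp O A η ω j).eval w = (qH O A η).eval w * (qQ O).eval (ω ^ j * w) ^ 2 ∧
      (rq O A η ω j).eval w = (ω ^ j) ^ 2 * ((qH O A η).eval (ω ^ j * w) * (qQ O).eval w ^ 2) := by
  simp [rp, rq, hj, eval_comp]

theorem rq_mem {O : Finset ℂ} (A : ℂ → ℂ) (η : ℝ) (ω : ℂ) (j : ℕ) {w : ℂ} (hw : w ∈ O) :
    (rq O A η ω j).eval w = 0 := by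
  unfold rq
  split_ifs <;> simp [qQ_eq_zero.mpr hw]

theorem ratio_zero {O : Finset ℂ} (A : ℂ → ℂ) (η : ℝ) (ω : ℂ) {w : ℂ} (hw : w ∉ O) : ∃ g : ℂ,
    g ≠ 0 ∧ (rp O A η ω 0).eval w = (qd O A w + η) * g ∧ (rq O A η ω 0).eval w = η * g :=
  ⟨(qQ O).eval w ^ 2, pow_ne_zero _ fun h => hw (qQ_eq_zero.mp h),
    by simp [rp, qH_eval A η hw], by simp [rq]⟩

theorem ratio_pos {O : Finset ℂ} (A : ℂ → ℂ) (η : ℝ) (ω : ℂ) {j : ℕ} (hj : j ≠ 0) {w : ℂ}
    (hw : w ∉ O) (hw' : ω ^ j * w ∉ O) : ∃ g : ℂ, g ≠ 0 ∧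
      (rp O A η ω j).eval w = (qd O A w + η) * g ∧
      (rq O A η ω j).eval w = (ω ^ j) ^ 2 * (qd O A (ω ^ j * w) + η) * g := by
  refine ⟨((qQ O).eval w * (qQ O).eval (ω ^ j * w)) ^ 2, pow_ne_zero _ (mul_ne_zero
    (fun h => hw (qQ_eq_zero.mp h)) fun h => hw' (qQ_eq_zero.mp h)), ?_, ?_⟩
  · rw [(rp_eval O A η ω hj w).1, qH_eval A η hw]; ring
  · rw [(rp_eval O A η ω hj w).2, qH_eval A η hw']; ring

namespace Cyc
variable {n : ℕ} {c : ℂ} {k : ℕ} {O : Finset ℂ} {ρ : ℂ} (h : Cyc n c k O ρ)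
include h

theorem rot_notMem {ω : ℂ} (hω : IsPrimitiveRoot ω n) {j : ℕ} (hj0 : j ≠ 0) (hj : j < n) {x : ℂ}
    (hx : x ∈ O) : ω ^ j * x ∉ O := fun h1 => by
  have h2 := h.injOn h1 hx (by
    simp only [F]; rw [mul_pow, ← pow_mul, mul_comm j n, pow_mul, hω.pow_eq_one, one_pow, one_mul])
  exact hω.pow_ne_one_of_pos_of_lt hj0 hj ((mul_eq_right₀ (h.ne_zero hx)).mp h2)

theorem generic {ω : ℂ} (hω : IsPrimitiveRoot ω n) (A : ℂ → ℂ) {a : ℝ} (ha : 0 < a) :
    ∃ η ∈ Ioo a (2 * a), ∀ j < n, ∀ w, (rq O A η ω j).eval w = 0 → (rp O A η ω j).eval w ≠ 0 := by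
  obtain ⟨x, hx⟩ := Finset.card_pos.mp (h.card ▸ h.pos)
  set D : ℕ → ℂ[X] := fun j => rp O A 0 ω j - (qH O A 0).comp (C (ω ^ j) * X) * qQ O ^ 2 with hD
  obtain ⟨η, hη, hb⟩ := (Ioo_infinite (by linarith : a < 2 * a)).exists_notMem_finite
    ((Finset.range n).finite_toSet.biUnion fun j _ =>
      (D j).roots.toFinset.finite_toSet.image fun w => -(qd O A w).re)
  refine ⟨η, hη, fun j hj w h1 h2 => ?_⟩
  have hη0 : (η : ℂ) ≠ 0 := by exact_mod_cast (ha.trans hη.1).ne'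
  by_cases hw : w ∈ O
  · by_cases hj0 : j = 0
    · exact qH_ne A η hw (by simpa [rp, hj0] using h2)
    · rw [(rp_eval O A η ω hj0 w).1] at h2
      exact mul_ne_zero (qH_ne A η hw) (pow_ne_zero _ fun h3 =>
        h.rot_notMem hω hj0 hj hw (qQ_eq_zero.mp h3)) h2
  by_cases hj0 : j = 0
  · obtain ⟨g, hg, -, h3⟩ := ratio_zero A η ω hw
    exact mul_ne_zero hη0 hg (by rw [← h3, ← hj0, h1])
  have hω0 : (ω ^ j) ^ 2 ≠ 0 := pow_ne_zero _ (pow_ne_zero _ (hω.ne_zero (by omega)))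
  by_cases hw' : ω ^ j * w ∈ O
  · rw [(rp_eval O A η ω hj0 w).2] at h1
    exact mul_ne_zero hω0 (mul_ne_zero (qH_ne A η hw') (pow_ne_zero _ fun h3 =>
      hw (qQ_eq_zero.mp h3))) h1
  obtain ⟨g, hg, h3, h4⟩ := ratio_pos A η ω hj0 hw hw'
  rw [h2, eq_comm, mul_eq_zero_iff_right hg] at h3
  rw [h1, eq_comm, mul_eq_zero_iff_right hg, mul_eq_zero_iff_left hω0] at h4
  refine hb (mem_biUnion (Finset.mem_coe.mpr (Finset.mem_range.mpr hj)) ⟨w, ?_, ?_⟩)
  · rw [Finset.mem_coe, Multiset.mem_toFinset, mem_roots fun h5 => ?_]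
    · simp only [IsRoot, hD, eval_sub, (rp_eval O A 0 ω hj0 w).1, eval_mul, eval_comp, eval_C, eval_X,
        eval_pow, qH_eval A 0 hw, qH_eval A 0 hw']
      linear_combination (eval w (qQ O) * eval (ω ^ j * w) (qQ O)) ^ 2 * (h3 - h4)
    · have h6 := congrArg (eval x) h5
      simp only [hD, eval_sub, (rp_eval O A 0 ω hj0 x).1, eval_mul, eval_pow, qQ_eq_zero.mpr hx,
        eval_zero, ne_eq, OfNat.ofNat_ne_zero, not_false_eq_true, zero_pow, mul_zero, sub_zero] at h6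
      exact mul_ne_zero (qH_ne A 0 hx) (pow_ne_zero _ fun h3 =>
        h.rot_notMem hω hj0 hj hx (qQ_eq_zero.mp h3)) h6
  · simp [eq_neg_of_add_eq_zero_left h3]

theorem notMem_of_far {w : ℂ} (hw : 4 ≤ ‖w‖) : w ∉ O := fun h' => by linarith [h.norm_le h']

theorem levels {ω : ℂ} (hω : IsPrimitiveRoot ω n) {A : ℂ → ℂ} {η M y : ℝ} (hη : 0 < η) (hM : 4 ≤ M)
    (hy : 0 < y) (hm : 10 ^ 9 * k ^ 2 * M * η ≤ y ^ 2) (hfar : ∀ w, 4 ≤ ‖w‖ → ‖qd O A w‖ ≤ η / 2)
    {j : ℕ} (hno : ∀ w, (rq O A η ω j).eval w = 0 → (rp O A η ω j).eval w ≠ 0)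
    (hloss : j ≠ 0 → ∫⁻ w in ball 0 4, ENNReal.ofReal (‖qd O A w‖ + ‖qd O A (ω ^ j * w)‖ -
      ‖qd O A w + (ω ^ j) ^ 2 * qd O A (ω ^ j * w)‖) ≤ ENNReal.ofReal (η / 2)) :
    ∃ t ∈ Ioo M (2 * M), volume {w | ‖(rp O A η ω j).eval w‖ = t * ‖(rq O A η ω j).eval w‖} = 0 ∧
      CapLe {w | ‖(rp O A η ω j).eval w‖ = t * ‖(rq O A η ω j).eval w‖} (qd O A)
        (800 * bumpC * k * y) := by
  have hk : (1 : ℝ) ≤ k := by exact_mod_cast h.pos
  have hk' : 1 ≤ 4 * k := by have := h.pos; omega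
  have hn0 : n ≠ 0 := by have := h.hn; omega
  have hn1 : ‖ω ^ j‖ = 1 := by rw [norm_pow, hω.norm'_eq_one hn0, one_pow]
  have hηn : ‖(η : ℂ)‖ = η := by rw [norm_real, Real.norm_of_nonneg hη.le]
  obtain ⟨hp, hq⟩ := rp_deg O A η ω j
  rw [h.card] at hp hq
  have hBm := qd_meas O A
  have hup : ∀ w, ‖qd O A w‖ ≤ ‖qd O A w + η‖ + η := fun w => by
    simpa [abs_of_pos hη] using norm_sub_le (qd O A w + η) η
  have hO : ∀ w, 0 < ‖(rp O A η ω j).eval w / (rq O A η ω j).eval w‖ → w ∉ O := fun w hw h' => by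
    simp [rq_mem A η ω j h'] at hw
  have hZ : ∀ w, M < ‖(rp O A η ω j).eval w / (rq O A η ω j).eval w‖ → ‖w‖ < 4 := fun w hw => by
    refine not_le.mp fun h1 => ?_
    have h2 : ‖qd O A w + η‖ ≤ 3 * (η / 2) := by linarith [norm_add_le (qd O A w) η, hfar w h1]
    by_cases hj : j = 0
    · obtain ⟨g, hg, h3, h4⟩ := ratio_zero A η ω (h.notMem_of_far h1)
      rw [hj, h3, h4, mul_div_mul_right _ _ hg, norm_div, hηn, lt_div_iff₀ hη] at hw
      nlinarith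
    · have h5 : 4 ≤ ‖ω ^ j * w‖ := by rwa [norm_mul, hn1, one_mul]
      obtain ⟨g, hg, h3, h4⟩ := ratio_pos A η ω hj (h.notMem_of_far h1) (h.notMem_of_far h5)
      have h6 : η / 2 ≤ ‖qd O A (ω ^ j * w) + η‖ := by
        have := norm_sub_le (qd O A (ω ^ j * w) + η) (qd O A (ω ^ j * w))
        rw [add_sub_cancel_left, hηn] at this
        linarith [hfar _ h5]
      rw [h3, h4, mul_div_mul_right _ _ hg, norm_div, norm_mul, norm_pow, hn1, one_pow, one_mul,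
        lt_div_iff₀ (by linarith)] at hw
      nlinarith
  have hvol : ∀ {S : Set ℂ} {a : ℝ}, 0 ≤ a → S ⊆ ball 0 4 →
      ∫⁻ _ in S, ENNReal.ofReal a ≤ ENNReal.ofReal (64 * a) := fun ha hS => by
    rw [setLIntegral_const, mul_comm 64, ENNReal.ofReal_mul ha]
    gcongr
    exact (measure_mono hS).trans ((vol_ball_le 0 (by norm_num)).trans (le_of_eq (by norm_num)))
  have hRm : Measurable fun w => ‖(rp O A η ω j).eval w / (rq O A η ω j).eval w‖ :=
    ((rp O A η ω j).continuous.measurable.div (rq O A η ω j).continuous.measurable).norm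
  have hZm : ∀ a b : ℝ, MeasurableSet {w | a < ‖(rp O A η ω j).eval w / (rq O A η ω j).eval w‖ ∧
      ‖(rp O A η ω j).eval w / (rq O A η ω j).eval w‖ < b} := fun a b =>
    (measurableSet_lt measurable_const hRm).inter (measurableSet_lt hRm measurable_const)
  have hkM : M * η ≤ k ^ 2 * M * η := by
    rw [mul_assoc]; exact le_mul_of_one_le_left (by positivity) (one_le_pow₀ hk)
  rw [show 800 * bumpC * k * y = 200 * bumpC * (4 * k : ℕ) * y by push_cast; ring]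
  by_cases hj : j = 0
  · refine level_of_zone hno hk' hp hq (by linarith) le_rfl le_rfl (by push_cast; nlinarith) hy hBm
      hZ ((setLIntegral_mono' (hZm _ _) fun w hw => ?_).trans ((hvol (a := 3 * M * η)
        (by positivity) fun w hw => mem_ball_zero_iff.mpr (hZ w hw.1)).trans
        (ENNReal.ofReal_le_ofReal (by nlinarith))))
    obtain ⟨g, hg, h3, h4⟩ := ratio_zero A η ω (hO w (lt_trans (by linarith) hw.1))
    have h5 := hw.2
    rw [hj, h3, h4, mul_div_mul_right _ _ hg, norm_div, hηn, div_lt_iff₀ hη] at h5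
    rw [← ofReal_norm]
    exact ENNReal.ofReal_le_ofReal (by nlinarith [hup w])
  obtain ⟨x, hx⟩ := Finset.card_pos.mp (h.card ▸ h.pos)
  obtain ⟨t₁, t₂, h₁, h₂, h₃, h₄⟩ := zone_mass (coprime_of_no hno) (fun h1 => by
      have h2 := eq_C_of_derivative_eq_zero h1
      have h3 := rq_mem A η ω j hx
      have h5 : (4 : ℝ) ≤ ‖(4 : ℂ)‖ := by simp
      have h6 : 4 ≤ ‖ω ^ j * 4‖ := by rwa [norm_mul, hn1, one_mul]
      obtain ⟨g, hg, -, h4⟩ := ratio_pos A η ω hj (h.notMem_of_far h5) (h.notMem_of_far h6)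
      rw [h2, eval_C] at h3 h4
      rw [h3, eq_comm, mul_eq_zero_iff_right hg, mul_eq_zero_iff_left
        (pow_ne_zero _ (pow_ne_zero _ (hω.ne_zero hn0)))] at h4
      have h7 := hfar _ h6
      rw [eq_neg_of_add_eq_zero_left h4, norm_neg, hηn] at h7
      linarith) hk' hp hq (by linarith) hZ (β := fun w => qd O A w + η) (hBm.add_const _)
    (fun w hw => ((qd_diff A fun h' => hw (rq_mem A η ω j h')).add_const _).differentiableWithinAt)
    (E := 6 * M ^ 2 * (η / 2 + 64 * (4 * η))) (by positivity) (by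
      refine (setLIntegral_mono' (hZm _ _) (g := fun w => ENNReal.ofReal (6 * M ^ 2) *
        (ENNReal.ofReal (‖qd O A w‖ + ‖qd O A (ω ^ j * w)‖ -
          ‖qd O A w + (ω ^ j) ^ 2 * qd O A (ω ^ j * w)‖) + ENNReal.ofReal (4 * η)))
        fun w hw => ?_).trans ?_
      · have h1 := hO w (lt_trans (by linarith) hw.1)
        have h2 : ω ^ j * w ∉ O := fun h' => by
          have := hw.1
          rw [(rp_eval O A η ω hj w).1, qQ_eq_zero.mpr h'] at this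
          simp at this
          linarith
        obtain ⟨g, hg, h3, h4⟩ := ratio_pos A η ω hj h1 h2
        obtain ⟨h5, h6⟩ := hw
        rw [h3, h4, mul_div_mul_right _ _ hg] at h5 h6 ⊢
        have h7 := loss_ratio (by linarith) (fun e => by simp [e] at h5; linarith) h6
        have h8 : ‖qd O A w + (ω ^ j) ^ 2 * qd O A (ω ^ j * w)‖ ≤
            ‖qd O A w‖ + ‖qd O A (ω ^ j * w)‖ := (norm_add_le _ _).trans (by
          rw [norm_mul, norm_pow, hn1, one_pow, one_mul])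
        rw [← ofReal_norm, ← ENNReal.ofReal_mul (norm_nonneg _),
          ← ENNReal.ofReal_add (by linarith) (by positivity), ← ENNReal.ofReal_mul (by positivity)]
        refine ENNReal.ofReal_le_ofReal (h7.trans (mul_le_mul_of_nonneg_left ?_ (by positivity)))
        have h9 := norm_sub_le (qd O A w + η + (ω ^ j) ^ 2 * (qd O A (ω ^ j * w) + η))
          (η + (ω ^ j) ^ 2 * η)
        rw [show qd O A w + η + (ω ^ j) ^ 2 * (qd O A (ω ^ j * w) + η) - (η + (ω ^ j) ^ 2 * η) =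
          qd O A w + (ω ^ j) ^ 2 * qd O A (ω ^ j * w) by ring] at h9
        have h10 := norm_add_le (η : ℂ) ((ω ^ j) ^ 2 * η)
        rw [norm_mul, norm_pow, hn1, one_pow, one_mul] at h10 ⊢
        linarith [norm_add_le (qd O A w) η, norm_add_le (qd O A (ω ^ j * w)) η]
      · rw [lintegral_const_mul' _ _ ENNReal.ofReal_ne_top, lintegral_add_right _ measurable_const,
          ENNReal.ofReal_mul (by positivity : 0 ≤ 6 * M ^ 2),
          ENNReal.ofReal_add (by positivity) (by positivity)]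
        gcongr
        · exact (lintegral_mono_set fun w hw => mem_ball_zero_iff.mpr (hZ w hw.1)).trans (hloss hj)
        · exact hvol (by positivity) fun w hw => mem_ball_zero_iff.mpr (hZ w hw.1))
  refine level_of_zone hno hk' hp hq (by linarith) h₁ h₂ h₃ hy hBm hZ ?_
  calc _ ≤ ∫⁻ w in {w | t₁ < ‖(rp O A η ω j).eval w / (rq O A η ω j).eval w‖ ∧
        ‖(rp O A η ω j).eval w / (rq O A η ω j).eval w‖ < t₂},
        ‖qd O A w + η‖ₑ + ENNReal.ofReal η := lintegral_mono fun w => by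
        rw [← ofReal_norm, ← ofReal_norm, ← ENNReal.ofReal_add (norm_nonneg _) hη.le]
        exact ENNReal.ofReal_le_ofReal (hup w)
    _ ≤ _ := by
        rw [lintegral_add_right _ measurable_const]
        refine (add_le_add h₄ (hvol hη.le fun w hw =>
          mem_ball_zero_iff.mpr (hZ w (h₁.trans_lt hw.1)))).trans ?_
        rw [← ENNReal.ofReal_add (by positivity) (by positivity)]
        refine ENNReal.ofReal_le_ofReal (le_trans ?_ hm)
        rw [show 40000 * ((4 * k : ℕ) : ℝ) ^ 2 * (6 * M ^ 2 * (η / 2 + 64 * (4 * η))) / M =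
          984960000 * (k ^ 2 * M * η) by push_cast; field_simp; ring]
        nlinarith

theorem exists_X {M y : ℝ} (hM : 4 ≤ M) (hy : 0 < y) (hy1 : y ≤ 1)
    (hm : 10 ^ 12 * Lam n * k ^ 2 * M * (k * (‖ρ‖ - 1) + ‖∑ x ∈ O, coef n c k ρ x‖) ≤ y ^ 2) :
    ∃ X X', XData n c O (qd O (coef n c k ρ)) X X' (1 + 3 * Lam n ^ 2 / M)
      (n * (800 * bumpC * k * y)) (1 / (8 * M * (Lam n ^ (3 * k + 2) / (‖ρ‖ - 1)) ^ 2)) := by
  have hn := h.hn
  have hn0 : n ≠ 0 := by omega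
  have : NeZero n := ⟨hn0⟩
  have hω := Complex.isPrimitiveRoot_exp n hn0
  set ω := exp (2 * π * I / n)
  have hk : (1 : ℝ) ≤ k := by exact_mod_cast h.pos
  have hL := h.one_le_Lam
  have hμ := sub_pos.mpr h.big
  have hfar := fun w hw => h.far (w := w) hw
  have hloss := fun j hj0 hj => h.loss hω (j := j) hj0 hj
  set A := coef n c k ρ
  set a := ∑ x ∈ O, A x with ha
  set ε := k * (‖ρ‖ - 1) + ‖a‖ with hε
  have hε0 : 0 < ε := by positivity
  obtain ⟨η, ⟨hη1, hη2⟩, hno⟩ := h.generic hω A (a := 240 * Lam n * ε) (by positivity)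
  have hη : 0 < η := lt_trans (by positivity) hη1
  have hm' : 10 ^ 9 * k ^ 2 * M * η ≤ y ^ 2 := by
    refine le_trans ?_ hm
    calc 10 ^ 9 * k ^ 2 * M * η ≤ 10 ^ 9 * k ^ 2 * M * (1000 * (Lam n * ε)) := by
          gcongr; nlinarith [mul_pos (one_pos.trans_le hL) hε0]
      _ = _ := by ring
  have hη' : η ≤ 1 := by
    have h1 : 1 * 1 * 1 * η ≤ 10 ^ 9 * k ^ 2 * M * η := by
      gcongr; exacts [by norm_num, one_le_pow₀ hk, by linarith]
    nlinarith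
  have haη : ‖a‖ ≤ η := by
    have : 0 ≤ k * (‖ρ‖ - 1) := by positivity
    nlinarith
  have hfar' : ∀ w, 4 ≤ ‖w‖ → ‖qd O A w‖ ≤ η / 2 := fun w hw => (hfar w hw).trans (by linarith)
  have h1 := fun j (hj : j ∈ Finset.range n) => h.levels hω hη hM hy hm' hfar'
    (hno j (Finset.mem_range.mp hj)) fun hj0 => (hloss j hj0 (Finset.mem_range.mp hj)).trans
      (ENNReal.ofReal_le_ofReal (by linarith))
  choose! t ht hlev using h1
  have hn1 : ∀ j, ‖ω ^ j‖ = 1 := fun j => by rw [norm_pow, hω.norm'_eq_one hn0, one_pow]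
  have hηn : ‖(η : ℂ)‖ = η := by rw [norm_real, Real.norm_of_nonneg hη.le]
  have h00 : 0 ∈ Finset.range n := Finset.mem_range.mpr (by omega)
  set X' := ⋂ j ∈ Finset.range n, {w | M * ‖(rq O A η ω j).eval w‖ < ‖(rp O A η ω j).eval w‖}
  have hX0 : ∀ w ∈ X', w ∉ O → M * η < ‖qd O A w + η‖ := fun w hw hO => by
    obtain ⟨g, hg, h3, h4⟩ := ratio_zero A η ω hO
    have h5 : M * ‖(rq O A η ω 0).eval w‖ < ‖(rp O A η ω 0).eval w‖ := mem_iInter₂.mp hw 0 h00
    rw [h3, h4, norm_mul, norm_mul, hηn, ← mul_assoc] at h5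
    exact lt_of_mul_lt_mul_right h5 (norm_nonneg _)
  have hXj : ∀ w ∈ X', ∀ j < n, j ≠ 0 → M * (‖(qH O A η).eval (ω ^ j * w)‖ * ‖(qQ O).eval w‖ ^ 2) <
      ‖(qH O A η).eval w‖ * ‖(qQ O).eval (ω ^ j * w)‖ ^ 2 := fun w hw j hj hj0 => by
    have h5 : M * ‖(rq O A η ω j).eval w‖ < ‖(rp O A η ω j).eval w‖ :=
      mem_iInter₂.mp hw j (Finset.mem_range.mpr hj)
    simpa only [rp_eval O A η ω hj0 w, norm_mul, norm_pow _ 2, hn1, one_pow, one_mul] using h5
  have hXb : X' ⊆ ball 0 4 := fun w hw => mem_ball_zero_iff.mpr (not_le.mp fun h2 => by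
    have := hX0 w hw (h.notMem_of_far h2)
    nlinarith [norm_add_le (qd O A w) η, hfar' w h2])
  have hX00 : (0 : ℂ) ∉ X' := fun h2 => by
    have h3 := hXj 0 h2 1 (by omega) one_ne_zero
    rw [mul_zero] at h3
    nlinarith [mul_nonneg (norm_nonneg ((qH O A η).eval 0)) (sq_nonneg ‖(qQ O).eval 0‖)]
  have hlt : ∀ w, (∀ j ∈ Finset.range n, t j * ‖(rq O A η ω j).eval w‖ ≤ ‖(rp O A η ω j).eval w‖) →
      w ∈ X' := fun w hw => mem_iInter₂.mpr fun j hj => by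
    by_cases h2 : (rq O A η ω j).eval w = 0
    · simpa [h2] using hno j (Finset.mem_range.mp hj) w h2
    · exact (mul_lt_mul_of_pos_right (ht j hj).1 (norm_pos_iff.mpr h2)).trans_le (hw j hj)
  set E := Lam n ^ (3 * k + 2) / (‖ρ‖ - 1) with hE
  have hE1 : Lam n ^ (3 * k + 2) ≤ E := le_div_self (by positivity) hμ (by linarith [h.small])
  have hE2 : 1 ≤ E := (one_le_pow₀ hL).trans hE1
  have hE3 : (k : ℝ) ≤ E := (nat_le_Lam_pow hn k).trans ((pow_le_pow_right₀ hL (by omega)).trans hE1)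
  have hball : ∀ x ∈ O, ball x (1 / (8 * M * E ^ 2)) ⊆ ⋂ j ∈ Finset.range n,
      {w | t j * ‖(rq O A η ω j).eval w‖ < ‖(rp O A η ω j).eval w‖} := fun x hx w hw => by
    refine mem_iInter₂.mpr fun j hj => ?_
    have hj' := Finset.mem_range.mp hj
    by_cases hO : w ∈ O
    · simpa [rq_mem A η ω j hO] using hno j hj' w (rq_mem A η ω j hO)
    rw [mem_ball_iff_norm, lt_div_iff₀ (by positivity)] at hw
    have hs : 0 < ‖w - x‖ := norm_pos_iff.mpr (sub_ne_zero.mpr fun e => hO (e ▸ hx))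
    have hsep : ∀ i, ∀ z ∈ O, ω ^ i * x ≠ z → 1 / (2 * E) ≤ ‖ω ^ i * w - z‖ := fun i z hz hne => by
      have h2 := h.sep hx hz (by
        rw [mul_pow, ← pow_mul, mul_comm i n, pow_mul, hω.pow_eq_one, one_pow, one_mul]) hne
      have h3 : 1 ≤ E * ‖ω ^ i * x - z‖ := by
        rw [hE, div_mul_eq_mul_div, le_div_iff₀ hμ, one_mul]
        exact h2.trans (by gcongr; omega)
      have h4 := norm_sub_le_norm_sub_add_norm_sub (ω ^ i * x) (ω ^ i * w) z
      rw [← mul_sub, norm_mul, hn1, one_mul, norm_sub_rev x] at h4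
      have h5 : ‖w - x‖ * (2 * E) ≤ ‖w - x‖ * (8 * M * E ^ 2) :=
        mul_le_mul_of_nonneg_left (by nlinarith) hs.le
      rw [div_le_iff₀ (by positivity)]
      nlinarith
    have hbig : 2 * M * (7 * E ^ 3) < ‖qd O A w + η‖ := by
      have h2 := qd_le (S := O.erase x) (A := A) (w := w) (by positivity)
        (le_trans (by exact_mod_cast (Finset.card_erase_le.trans h.card.le)) hE3) fun z hz =>
        ⟨h.coef_le (Finset.mem_of_mem_erase hz), by
          simpa using hsep 0 z (Finset.mem_of_mem_erase hz) (by simpa using (Finset.ne_of_mem_erase hz).symm)⟩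
      have h3 : qd O A w = (w - x)⁻¹ * ((w - x)⁻¹ + A x) + qd (O.erase x) A w := by
        rw [qd, ← Finset.add_sum_erase O _ hx, qd]; ring
      have h4 : 8 * M * E ^ 2 < ‖(w - x)⁻¹‖ := by rw [norm_inv, lt_inv_comm₀ (by positivity) hs,
        inv_eq_one_div, lt_div_iff₀ (by positivity)]; exact hw
      have h5 : 7 * M * E ^ 2 ≤ ‖(w - x)⁻¹ + A x‖ := by
        have h6 := norm_sub_le ((w - x)⁻¹ + A x) (A x)
        rw [add_sub_cancel_right] at h6
        nlinarith [h.coef_le hx]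
      have h6 : 8 * M * E ^ 2 * (7 * M * E ^ 2) ≤ ‖(w - x)⁻¹ * ((w - x)⁻¹ + A x)‖ := by
        rw [norm_mul]; gcongr
      have h7 := norm_sub_le (qd O A w + η) (qd (O.erase x) A w + η)
      rw [add_sub_add_right_eq_sub, h3, add_sub_cancel_right, ← h3] at h7
      have h8 : 1 ≤ E ^ 3 := one_le_pow₀ hE2
      have h9 : M * E ^ 3 * 1 ≤ M * E ^ 3 * (M * E) := by gcongr; nlinarith
      nlinarith [norm_add_le (qd (O.erase x) A w) η]
    have h8 : 1 ≤ E ^ 3 := one_le_pow₀ hE2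
    have ht0 : 0 ≤ t j := by linarith [(ht j hj).1]
    by_cases hj0 : j = 0
    · obtain ⟨g, hg, h3, h4⟩ := ratio_zero A η ω hO
      rw [mem_ofPred_eq, hj0, h3, h4, norm_mul, norm_mul, hηn, ← mul_assoc, ← hj0]
      refine mul_lt_mul_of_pos_right (lt_of_le_of_lt ?_ hbig) (norm_pos_iff.mpr hg)
      gcongr
      exacts [(ht j hj).2.le, by linarith]
    · have h2 := fun z hz => hsep j z hz fun e => h.rot_notMem hω hj0 hj' hx (e ▸ hz)
      obtain ⟨g, hg, h3, h4⟩ := ratio_pos A η ω hj0 hO fun h' => by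
        have := h2 _ h'
        rw [sub_self, norm_zero] at this
        exact absurd this (not_le.mpr (by positivity))
      have h5 := qd_le (A := A) (by positivity) (by rw [h.card]; exact hE3) fun z hz => ⟨h.coef_le hz, h2 z hz⟩
      rw [mem_ofPred_eq, h3, h4, norm_mul, norm_mul, norm_mul, norm_pow, hn1, one_pow, one_mul,
        ← mul_assoc]
      refine mul_lt_mul_of_pos_right (lt_of_le_of_lt ?_ hbig) (norm_pos_iff.mpr hg)
      gcongr
      exacts [(ht j hj).2.le, by linarith [norm_add_le (qd O A (ω ^ j * w)) η]]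
  obtain ⟨h1, h2, h3, h4⟩ := inter_levels (Finset.range n) (rp O A η ω) (rq O A η ω) t
    (by have := bumpC_spec.1; positivity) rfl
    (fun w hw => hXb (hlt w fun j hj => le_of_lt (mem_iInter₂.mp hw j hj)))
    (fun x hx => hball x hx (mem_ball_self (by positivity))) hlev
  have hroot : ∀ w w', w ≠ 0 → F n c w' = F n c w → ∃ j < n, w' = ω ^ j * w := fun w w' hw e => by
    obtain ⟨j, hj, h5⟩ := hω.eq_pow_of_pow_eq_one (ξ := w' / w) (by
      rw [div_pow, add_right_cancel e, div_self (pow_ne_zero _ hw)])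
    exact ⟨j, hj, by rw [h5, div_mul_cancel₀ _ hw]⟩
  have hinj : InjOn (F n c) X' := fun w hw w' hw' e => by
    obtain ⟨j, hj, rfl⟩ := hroot w w' (fun e => hX00 (e ▸ hw)) e.symm
    by_cases hj0 : j = 0
    · simp [hj0]
    have h5 := hXj w hw j hj hj0
    have h6 := hXj _ hw' (n - j) (by omega) (by omega)
    rw [← mul_assoc (ω ^ (n - j)), ← pow_add, Nat.sub_add_cancel hj.le, hω.pow_eq_one, one_mul] at h6
    nlinarith [mul_nonneg (norm_nonneg ((qH O A η).eval w)) (sq_nonneg ‖(qQ O).eval (ω ^ j * w)‖),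
      mul_nonneg (norm_nonneg ((qH O A η).eval (ω ^ j * w))) (sq_nonneg ‖(qQ O).eval w‖)]
  refine ⟨_, X', h1, isOpen_biInter_finset fun j _ => isOpen_lt (by fun_prop) (by fun_prop),
    fun w hw => hlt w (h2 w hw), hXb, hinj, hX00, fun w hw hO => ?_, h3,
    by simpa using h4, hball⟩
  have hFO : F n c w ∉ O := fun h5 => by
    obtain ⟨x, hx, e⟩ := h.bijOn.surjOn h5
    exact hO (hinj (hlt x (h2 x (subset_closure (hball x hx (mem_ball_self (by positivity)))))) hw e ▸ hx)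
  have h5 := hX0 w hw hO
  have h6 : ‖qd O A w + η‖ ≤ 2 * ‖qd O A w‖ := by nlinarith [norm_add_le (qd O A w) η]
  have h7 : ∀ j ∈ (Finset.range n).erase 0, ‖(ω ^ j) ^ 2 * qd O A (ω ^ j * w)‖ ≤
      4 / M * ‖qd O A w‖ := fun j hj => by
    obtain ⟨hj0, hj'⟩ := Finset.mem_erase.mp hj
    have h8 := hXj w hw j (Finset.mem_range.mp hj') hj0
    have h9 : ω ^ j * w ∉ O := fun h' => by
      rw [qQ_eq_zero.mpr h', norm_zero, zero_pow two_ne_zero, mul_zero] at h8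
      exact absurd h8 (not_lt.mpr (by positivity))
    rw [qH_eval A η hO, qH_eval A η h9, norm_mul, norm_mul, norm_pow, norm_pow] at h8
    have h10 : M * ‖qd O A (ω ^ j * w) + η‖ ≤ ‖qd O A w + η‖ := by
      refine le_of_lt (lt_of_mul_lt_mul_right (a := ‖(qQ O).eval w‖ ^ 2 *
        ‖(qQ O).eval (ω ^ j * w)‖ ^ 2) ?_ (by positivity))
      linarith
    have h11 := norm_sub_le (qd O A (ω ^ j * w) + η) η
    rw [add_sub_cancel_right, hηn] at h11
    rw [norm_mul, norm_pow, hn1, one_pow, one_mul, div_mul_eq_mul_div, le_div_iff₀ (by linarith)]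
    nlinarith
  have h8 : ‖a * (n ^ 2 * w ^ (n - 2))‖ ≤ 2 * Lam n ^ 2 / M * ‖qd O A w‖ := by
    have h9 : (n : ℝ) ^ 2 * ‖w‖ ^ (n - 2) ≤ Lam n ^ 2 := by
      have h10 : (1 : ℝ) ≤ n := by exact_mod_cast (by omega : 1 ≤ n)
      rw [Lam, mul_pow, ← pow_mul 3, mul_comm n 2, pow_mul]
      gcongr
      · exact le_self_pow₀ h10 two_ne_zero
      · exact (pow_le_pow_left₀ (norm_nonneg _) (b := 3 ^ 2)
          (by linarith [mem_ball_zero_iff.mp (hXb hw)]) _).trans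
          (pow_le_pow_right₀ (by norm_num) (Nat.sub_le _ _))
    rw [norm_mul, norm_mul, norm_pow, norm_pow, Complex.norm_natCast, div_mul_eq_mul_div,
      le_div_iff₀ (by linarith)]
    calc _ ≤ η * Lam n ^ 2 * M := by gcongr
      _ = Lam n ^ 2 * (M * η) := by ring
      _ ≤ Lam n ^ 2 * (2 * ‖qd O A w‖) := mul_le_mul_of_nonneg_left (by linarith) (by positivity)
      _ = _ := by ring
  rw [h.ident hω hFO, ← Finset.add_sum_erase _ _ h00, pow_zero, one_pow, one_mul, one_mul]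
  have h9 := norm_sum_le_of_le _ h7
  rw [Finset.sum_const, nsmul_eq_mul] at h9
  have h10 : (((Finset.range n).erase 0).card : ℝ) ≤ Lam n ^ 2 :=
    le_trans (by exact_mod_cast Finset.card_erase_le.trans (Finset.card_range n).le)
      ((le_Lam hn).1.trans (le_self_pow₀ hL two_ne_zero))
  refine norm_add₃_le.trans ?_
  calc _ ≤ ‖qd O A w‖ + Lam n ^ 2 * (4 / M * ‖qd O A w‖) + 2 * Lam n ^ 2 / M * ‖qd O A w‖ := by
        gcongr; exact h9.trans (by gcongr)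
    _ = (1 + 2 * (3 * Lam n ^ 2 / M)) * ‖qd O A w‖ := by ring
    _ ≤ _ := by gcongr; nlinarith [sq_nonneg (3 * Lam n ^ 2 / M)]

end Cyc

end Pool.Agent.Lib.MP_c35c17_an.Q
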