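import Pool.Agent.Lib.MP_c35c17_an.RBlue

/-! Small tools for the derivative bound for multipliers close to one. -/

set_option autoImplicit false

open Filter Topology Set Metric Complex Bornology MeasureTheory
open scoped Real ENNReal ComplexConjugate

namespace Pool.Agent.Lib.MP_c35c17_an.R

open Q

theorem mob_bound {z w : ℂ} {a θ : ℝ} (ha : 0 < a) (hθ : 0 < θ) (hz : ‖z‖ ≤ 1 - a)
    (hw : ‖w‖ ≤ 1 - θ) : ‖mob z w‖ ≤ 1 - θ * a / 4 := by
  have h0 := norm_nonneg z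
  have h1 := norm_nonneg w
  have hz1 : ‖z‖ < 1 := by linarith
  have h2 := mob_norm_sq hz1 (by linarith : ‖w‖ ≤ 1)
  have h3 := norm_pos_iff.mpr (mob_den_ne hz1 (by linarith : ‖w‖ ≤ 1))
  have h4 : ‖1 - conj z * w‖ ≤ 1 + ‖z‖ * ‖w‖ := (norm_sub_le _ _).trans (by simp)
  have h5 : 0 ≤ ‖z‖ * ‖w‖ := by positivity
  have h6 : ‖z‖ * ‖w‖ ≤ 1 := mul_le_one₀ hz1.le h1 (by linarith)
  have h7 : θ * a / 2 ≤ 1 - ‖mob z w‖ ^ 2 := by
    rw [h2, le_div_iff₀ (by positivity)]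
    calc θ * a / 2 * ‖1 - conj z * w‖ ^ 2 ≤ θ * a / 2 * ((1 + ‖z‖ * ‖w‖) * 2) := by
          rw [sq]; gcongr; linarith
      _ = a * θ * (1 + ‖z‖ * ‖w‖) := by ring
      _ ≤ (1 - ‖z‖) * (1 - ‖w‖) * ((1 + ‖z‖) * (1 + ‖w‖)) := by
          gcongr <;> nlinarith
      _ = _ := by ring
  have h8 : θ * a ≤ 1 := mul_le_one₀ (by linarith) ha.le (by linarith)
  refine le_of_pow_le_pow_left₀ two_ne_zero (by linarith) ?_
  nlinarith [sq_nonneg (θ * a)]

theorem cyc_exact {n : ℕ} {c : ℂ} {k : ℕ} {O : Finset ℂ} {ρ : ℂ} (h : Cyc n c k O ρ) {x : ℂ}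
    (hx : x ∈ O) {e : ℕ} (h0 : 0 < e) (he : e < k) : (F n c)^[e] x ≠ x := fun h1 => by
  classical
  have h2 : O ⊆ (Finset.range e).image fun j => (F n c)^[j] x := fun y hy => by
    obtain ⟨d, -, -, rfl⟩ := h.trans x hx y hy
    exact Finset.mem_image.mpr ⟨d % e, Finset.mem_range.mpr (Nat.mod_lt _ h0),
      (show Function.IsPeriodicPt (F n c) e x from h1).iterate_mod_apply d⟩
  have h3 := (Finset.card_le_card h2).trans Finset.card_image_le
  rw [h.card, Finset.card_range] at h3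
  omega

theorem act_congr {G G' : ℂ → ℂ} {z : ℂ} (h : G =ᶠ[𝓝 z] G') (a : ℂ) : act G z a = act G' z a := by
  rw [act, act, h.deriv_eq, h.deriv.deriv_eq]

theorem dfc_nonneg (b b' : ℂ) : 0 ≤ dfc b b' := by
  have := norm_add_le b (b' - b)
  rw [add_sub_cancel] at this
  unfold dfc; linarith

theorem dfc_le (b b' : ℂ) : dfc b b' ≤ 2 * ‖b‖ := by
  have := norm_sub_le b' b
  unfold dfc; linarith

theorem dfc_mul (u b b' : ℂ) : dfc (u * b) (u * b') = ‖u‖ * dfc b b' := by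
  unfold dfc
  rw [← mul_sub, norm_mul, norm_mul, norm_mul]; ring

theorem dfc_trans (b b' b'' : ℂ) : dfc b b'' ≤ dfc b b' + dfc b' b'' := by
  have := norm_sub_le_norm_sub_add_norm_sub b'' b' b
  unfold dfc; linarith

theorem eps_pos {n : ℕ} {c : ℂ} {k : ℕ} {O : Finset ℂ} {ρ : ℂ} (h : Cyc n c k O ρ) :
    0 < eps n c k O ρ := by
  have h1 := sub_pos.mpr h.big
  have h2 : (0 : ℝ) < k := by exact_mod_cast h.pos
  unfold eps; positivity

theorem one_add_pow_le {m : ℕ} {x : ℝ} (h0 : 0 ≤ x) (h : 2 * m * x ≤ 1) :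
    (1 + x) ^ m ≤ 1 + 2 * m * x := by
  have key : ∀ j ≤ m, (1 + x) ^ j ≤ 1 + 2 * j * x := fun j hj => by
    induction j with
    | zero => simp
    | succ j ih =>
      have h1 := ih (by omega)
      have h2 : (j : ℝ) ≤ m := by exact_mod_cast (by omega : j ≤ m)
      have h3 : 2 * j * x ≤ 1 := le_trans (by gcongr) h
      rw [pow_succ]
      push_cast
      nlinarith
  exact key m le_rfl

theorem one_add_inv_pow_le (m : ℕ) : (1 + 1 / (m : ℝ)) ^ m ≤ 3 := by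
  rcases Nat.eq_zero_or_pos m with rfl | hm
  · simp
  have h1 : (0 : ℝ) < m := by exact_mod_cast hm
  calc _ ≤ Real.exp (1 / m) ^ m := by gcongr; linarith [Real.add_one_le_exp (1 / (m : ℝ))]
    _ = Real.exp 1 := by rw [← Real.exp_nat_mul, mul_one_div_cancel h1.ne']
    _ ≤ 3 := by linarith [Real.exp_one_lt_d9]

theorem root_sep {m : ℕ} {ω : ℂ} (h : ω ^ m = 1) (h1 : ω ≠ 1) (hm : 0 < m) :
    2 ≤ m * ‖1 - ω‖ := by
  have hn := norm_eq_one_of_pow_eq_one h hm.ne'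
  have h2 : ∑ i ∈ Finset.range m, ω ^ i = 0 :=
    (mul_eq_zero.mp ((mul_geom_sum ω m).trans (by rw [h, sub_self]))).resolve_left
      (sub_ne_zero.mpr h1)
  have h3 : ∀ i : ℕ, ‖1 - ω ^ i‖ ≤ i * ‖1 - ω‖ := fun i => by
    induction i with
    | zero => simp
    | succ i ih =>
      rw [show 1 - ω ^ (i + 1) = (1 - ω ^ i) + ω ^ i * (1 - ω) by ring]
      refine (norm_add_le _ _).trans ?_
      rw [norm_mul, norm_pow, hn, one_pow]
      push_cast; linarith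
  have h4 : (m : ℝ) ≤ (∑ i ∈ Finset.range m, (i : ℝ)) * ‖1 - ω‖ := by
    calc (m : ℝ) = ‖∑ i ∈ Finset.range m, (1 - ω ^ i)‖ := by
          rw [Finset.sum_sub_distrib, h2]; simp
      _ ≤ _ := by rw [Finset.sum_mul]; exact norm_sum_le_of_le _ fun i _ => h3 i
  have h5 : (∑ i ∈ Finset.range m, (i : ℝ)) * 2 ≤ m * m := by
    have h7 := (Finset.sum_range_id_mul_two m).trans_le (Nat.mul_le_mul_left m (Nat.sub_le m 1))
    have h8 : (((∑ i ∈ Finset.range m, i) * 2 : ℕ) : ℝ) ≤ ((m * m : ℕ) : ℝ) := Nat.cast_le.mpr h7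
    push_cast at h8
    exact h8
  have h6 : (0 : ℝ) < m := by exact_mod_cast hm
  refine le_of_mul_le_mul_left ?_ h6
  nlinarith [norm_nonneg (1 - ω)]

end Pool.Agent.Lib.MP_c35c17_an.R
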