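import Pool.Agent.Lib.MP_c35c17_an.LMain
import Pool.Agent.Lib.MP_c35c17_an.RBlue

/-! The limb diameter theorem without a condition on the rotation number. -/

set_option autoImplicit false

open Filter Topology Set Metric Complex Bornology N62a1eb23
open scoped Real

namespace Pool.Agent.Lib.MP_c35c17_an.L

theorem main3 {n : ℕ} (hn : 2 ≤ n) (hA : St_A n) (hU : St_U n) (hB : St_B n) (hI : St_I n)
    (hD : St_D n) (hC : St_C1 n) (hC' : St_C2 n) (hE : St_E n) (hF : R.St_F3 n) (hG : St_G n)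
    (hH : St_H) : ∃ C : ℝ, 0 < C ∧ ∀ c ∈ multibrotSet n, ∀ Φ, Bot n c 1 Φ →
      ∀ (k : ℕ) (z : ℂ) (T : Finset ℂ), 0 < k → (F n c)^[k] z = z → 1 < ‖dF n c k z‖ →
      (∀ ζ ∈ T, ‖ζ‖ = 1 ∧ (∃ p, 0 < p ∧ ζ ^ n ^ p = ζ) ∧
        Tendsto (fun r : ℝ => Φ (r * ζ)) (𝓝[>] 1) (𝓝 z)) →
      C * k ^ 457 ≤ T.card →
      ∃ N ⊆ multibrotSet n, IsClosed N ∧ IsPreconnected N ∧ N ∈ 𝓝[multibrotSet n] c ∧
        (N ∩ closure (multibrotSet n \ N)).Finite ∧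
        (∀ u ∈ N ∩ closure (multibrotSet n \ N), ∃ Φ', Bot n u 1 Φ' ∧ ∃ ζ ∈ T, ∃ m y, 0 < m ∧
          (F n u)^[m] y = y ∧ dF n u m y = 1 ∧
            Tendsto (fun r : ℝ => Φ' (r * ζ)) (𝓝[>] 1) (𝓝 y)) ∧
        (N ∩ closure {c | ∃ m z, IsAttractingCycle (fun z ↦ z ^ n + c) m z}).Nonempty ∧
        ∀ c' ∈ N, T.card * ‖c' - c‖ ^ 48 ≤ C * k ^ 409 := by
  obtain ⟨C, hC1, hF⟩ := hF
  obtain ⟨Ψ, hΨ⟩ := hB
  have hln := Real.log_pos (show (1 : ℝ) < n by exact_mod_cast hn)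
  have hM := (isCompact_multibrot hn).isClosed
  have hj : ∀ u ∈ multibrotSet n, Cj n u (Ψ u) := fun u hu =>
    ⟨(hΨ.bot u hu).diff, hI u hu _ (hΨ.bot u hu), (hΨ.bot u hu).conj⟩
  refine ⟨C * (π * Real.log n), by positivity, fun c hc Φ hΦ k z T hk hz hρ hT h49 => ?_⟩
  have hk' : (0 : ℝ) < k := by exact_mod_cast hk
  have hq : (0 : ℝ) < T.card := lt_of_lt_of_le (by positivity) h49
  have hT0 : T.Nonempty := Finset.card_pos.mp (by exact_mod_cast hq)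
  obtain ⟨r, hr, hper⟩ := Q.common_period fun ζ hζ => (hT ζ hζ).2.1
  have hP := Nat.mul_pos hk hr
  obtain ⟨D, hDe⟩ : ∃ D : ℝ, D = π * k * Real.log n / T.card := ⟨_, rfl⟩
  have hD0 : 0 < D := by rw [hDe]; positivity
  have hfix : ∀ u w : ℂ, (F n u)^[k] w = w → (F n u)^[k * r] w = w := fun u w h => by
    rw [Function.iterate_mul]; exact Function.iterate_fixed h r
  have hbig : ∀ u w : ℂ, (F n u)^[k] w = w → 1 < ‖dF n u k w‖ → 1 < ‖dF n u (k * r) w‖ :=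
    fun u w h h' => by rw [Q.dF_mul h, norm_pow]; exact one_lt_pow₀ h' hr.ne'
  have hτ : ∀ ζ ∈ T, ∃ τ, Land n (k * r) c (Ψ c) ζ z τ := fun ζ hζ =>
    (hC _ c ζ z _ (hj c hc) hP (hT ζ hζ).1 (hper k ζ hζ) (hfix c z hz) (lands_of_radial
      ((hT ζ hζ).2.2.congr' (eventually_mem_nhdsWithin.mono fun x hx =>
        hU c 1 _ _ le_rfl hΦ (hΨ.bot c hc) (by
          simpa [(hT ζ hζ).1] using (mem_Ioi.mp hx).trans_le (le_abs_self x)))))).2.imp fun _ h => h.1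
  choose! τ hτ using hτ
  have hl : ∀ {u w : ℂ} {σ : ℂ → ℂ}, (∀ ζ ∈ T, Land n (k * r) u (Ψ u) ζ w (σ ζ)) → ∀ ζ ∈ T,
      ‖ζ‖ = 1 ∧ ζ ^ n ^ (k * r) = ζ ∧ Land n (k * r) u (Ψ u) ζ w (σ ζ) :=
    fun h ζ hζ => ⟨(hT ζ hζ).1, hper k ζ hζ, h ζ hζ⟩
  have hN : T.card * r ≠ 0 := (Nat.mul_pos hT0.card_pos hr).ne'
  have ht₀ := avg_mem hn hC hC' (hj c hc) hk hr hT0 (hl hτ) (hbig c z hz hρ) hDe
  have hω := avg_root hC (hj c hc) hk hr hT0 hz (hl hτ)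
  obtain ⟨ω, hωe⟩ : ∃ ω, ω = dF n c k z * exp (-avg T r τ) := ⟨_, rfl⟩
  rw [← hωe] at hω
  have hω1 := norm_eq_one_of_pow_eq_one hω hN
  obtain ⟨G, hGc, hG0, hGt⟩ := hF k D ω _ c z hk hD0 hω1 ht₀ hz
    (by rw [hωe, mul_assoc, ← exp_add, neg_add_cancel, exp_zero, mul_one])
    (by rw [hDe, mul_div_assoc', div_le_one hq]; exact le_of_eq_of_le (by ring) h49)
  have stab : ∀ u ∈ multibrotSet n, ∀ y σ : ℂ → ℂ, (∀ ζ ∈ T, Land n (k * r) u (Ψ u) ζ (y ζ) (σ ζ) ∧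
      1 < ‖dF n u (k * r) (y ζ)‖) → ∀ ε > 0, ∀ᶠ v in 𝓝[multibrotSet n] u, ∃ y' σ' : ℂ → ℂ,
        (∀ ζ ∈ T, Land n (k * r) v (Ψ v) ζ (y' ζ) (σ' ζ) ∧ ‖y' ζ - y ζ‖ < ε) ∧
          ‖avg T r σ' - avg T r σ‖ < ε := fun u hu y σ h ε hε => by
    filter_upwards [(eventually_all_finset T).mpr fun ζ hζ => hE _ _ Ψ u ζ _ _ hΨ.cont hj hu hP
      (hT ζ hζ).1 (hper k ζ hζ) (h ζ hζ).1 (h ζ hζ).2 ε hε] with v hv
    choose! y' σ' hv using hv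
    exact ⟨y', σ', fun ζ hζ => ⟨(hv ζ hζ).1, (hv ζ hζ).2.1⟩,
      avg_close hT0 hr fun ζ hζ => (hv ζ hζ).2.2⟩
  obtain ⟨ζ₀, hζ₀⟩ := id hT0
  have hfin : {u | u ∈ multibrotSet n ∧ ∃ ζ ∈ T, ∃ y, (F n u)^[k * r] y = y ∧ dF n u (k * r) y = 1 ∧
      Tendsto (fun x : ℝ => ray (Ψ u) ζ x) atBot (𝓝 y)}.Finite := (hG _ hP).subset
    fun u ⟨h1, _, _, y, h2, h3, _⟩ => ⟨norm_le_two hn h1, y, h2, h3⟩
  refine (hH (multibrotSet n) {u | u ∈ multibrotSet n ∧ ∃ w, ∃ σ : ℂ → ℂ,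
      (∀ ζ ∈ T, Land n (k * r) u (Ψ u) ζ w (σ ζ)) ∧ avg T r σ ∈ ball (D : ℂ) D ∧
        G (avg T r σ) = (u, w)} _ c hM hA (fun _ h => h.1) ?_ ?_ hfin
          (And.intro hc ⟨z, τ, hτ, ht₀, hG0⟩)).elim fun N ⟨hN1, hN2, hN3, hN4, hN5⟩ => ?_
  rotate_left 2
  · have hNM : N ⊆ multibrotSet n := hN1.trans (closure_minimal (fun _ h => h.1) hM)
    refine ⟨N, hNM, hN2, hN3, hN4, hfin.subset hN5, fun u hu => ?_, ?_, fun c' hc' => ?_⟩
    · obtain ⟨h1, ζ, hζ, y, h2, h3, h4⟩ := hN5 hu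
      exact ⟨_, hΨ.bot u h1, ζ, hζ, _, y, hP, h2, h3, radial_of_lands h4⟩
    · rcases (N ∩ closure (multibrotSet n \ N)).eq_empty_or_nonempty with h | ⟨x, hx⟩
      · rcases isPreconnected_iff_subset_of_disjoint_closed.mp hA N _ hN2 isClosed_closure
          (fun x hx => (em (x ∈ N)).imp_right fun h' => subset_closure (mem_sdiff_of_mem hx h'))
          (by rw [h, inter_empty]) with h' | h'
        · exact ⟨0, h' (zero_mem hn), subset_closure (zero_hyp hn)⟩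
        · exact absurd h (Set.Nonempty.ne_empty ⟨c, mem_of_mem_nhdsWithin hc hN4, h' hc⟩)
      · obtain ⟨h1, -, -, w, h2, h3, -⟩ := hN5 hx
        obtain ⟨B, hB⟩ := Q.main_bound hn
        have h4 := hB x (norm_le_two hn h1) _ w hP h2 (by rw [h3, norm_one])
        rw [h3, norm_one, sub_self, mul_zero] at h4
        exact ⟨x, hx.1, (mem_closure_iff_infDist_zero ⟨0, zero_hyp hn⟩).mpr
          (pow_eq_zero_iff (by norm_num) |>.mp (le_antisymm h4 (pow_nonneg infDist_nonneg _)))⟩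
    · refine closure_minimal (t := {c' | T.card * ‖c' - c‖ ^ 48 ≤ C * (π * Real.log n) * k ^ 409}) ?_
        (isClosed_le (by fun_prop) continuous_const) (hN1 hc')
      rintro u ⟨-, w, σ, -, h1, h2⟩
      have h3 := (hGt _ h1).2.2.1
      rw [h2, hDe, mul_div_assoc', le_div_iff₀' hq] at h3
      exact h3.trans_eq (by ring)
  · rintro u ⟨hu, w, σ, h1, h2, h3⟩
    obtain ⟨h4, h5, -, h6⟩ := hGt _ h2
    rw [h3] at h4 h5 h6
    have h7 : 1 < ‖dF n u k w‖ := by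
      rw [h5, norm_mul, hω1, one_mul, norm_exp, Real.one_lt_exp_iff]
      have h7 := (abs_re_le_norm _).trans_lt (mem_ball_iff_norm.mp h2)
      rw [sub_re, ofReal_re, abs_lt] at h7
      linarith [h7.1]
    have h8 := hbig u w h4 h7
    obtain ⟨-, η, hη, h9⟩ := fixed_chart (hfix u w h4) (fun e => by simp [e] at h8)
    have h10 : ∀ᶠ x in 𝓝 ω, x ^ (T.card * r) = 1 → x = ω := by
      filter_upwards [(((Polynomial.nthRoots (T.card * r) (1 : ℂ)).toFinset.finite_toSet.subset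
        (t := {x | x ^ (T.card * r) = 1 ∧ x ≠ ω}) fun x hx => by
          simpa [Polynomial.mem_nthRoots (Nat.pos_of_ne_zero hN)] using hx.1).isClosed.isOpen_compl
            |>.mem_nhds (by simp))] with x hx h
      exact by_contra fun h' => hx ⟨h, h'⟩
    have h11 : Continuous fun p : (ℂ × ℂ) × ℂ => dF n p.1.1 k p.1.2 * exp (-p.2) :=
      ((contDiff_dF n k).continuous.comp continuous_fst).mul (by fun_prop)
    have h12 : Continuous fun p : (ℂ × ℂ) × ℂ => ‖(F n p.1.1)^[k] p.1.2 - w‖ :=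
      (((continuous_iter n k).comp continuous_fst).sub continuous_const).norm
    obtain ⟨ε, hε, h13⟩ := Metric.eventually_nhds_iff.mp (h6.and ((continuous_snd.tendsto _ |>.eventually
      (isOpen_ball.mem_nhds h2)).and (((h11.tendsto' _ ω (by
        simp only [h5, mul_assoc, ← exp_add, add_neg_cancel, exp_zero, mul_one])).eventually h10).and
      (h12.continuousAt.eventually_lt continuousAt_const (by simpa only [h4, sub_self, norm_zero])))))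
    filter_upwards [self_mem_nhdsWithin, nhdsWithin_le_nhds h9, nhdsWithin_le_nhds (ball_mem_nhds u hε),
      stab u hu (fun _ => w) σ (fun ζ hζ => ⟨h1 ζ hζ, h8⟩) _ (lt_min hε hη)] with
      v hv e1 e2 ⟨y, σ', e3, e4⟩
    have e5 : ∀ ζ ∈ T, Land n (k * r) v (Ψ v) ζ (y ζ₀) (σ' ζ) := fun ζ hζ =>
      e1 _ _ (lt_min_iff.mp (e3 ζ hζ).2).2 (lt_min_iff.mp (e3 ζ₀ hζ₀).2).2 (e3 ζ hζ).1.fix
        (e3 ζ₀ hζ₀).1.fix ▸ (e3 ζ hζ).1
    obtain ⟨e6, e7, e8, e9⟩ := @h13 ((v, y ζ₀), avg T r σ') (by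
      simp only [Prod.dist_eq, max_lt_iff, dist_eq_norm (y ζ₀), dist_eq_norm (avg T r σ')]
      exact ⟨⟨e2, (lt_min_iff.mp (e3 ζ₀ hζ₀).2).1⟩, (lt_min_iff.mp e4).1⟩)
    have e10 := e1 _ _ e9 (lt_min_iff.mp (e3 ζ₀ hζ₀).2).2 (by
      rw [← Function.iterate_add_apply, add_comm, Function.iterate_add_apply,
        (e3 ζ₀ hζ₀).1.fix]) (e3 ζ₀ hζ₀).1.fix
    refine ⟨hv, y ζ₀, σ', e5, e7, e6 e10 ?_⟩
    rw [← e8 (avg_root hC (hj v hv) hk hr hT0 e10 (hl e5)), mul_assoc, ← exp_add, neg_add_cancel,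
      exp_zero, mul_one]
  · intro u hu
    have hu' : u ∈ multibrotSet n := closure_minimal (fun _ h => h.1) hM hu
    refine or_iff_not_imp_right.mpr fun hE => ?_
    have h1 : ∀ ζ ∈ T, ∃ y σ, Land n (k * r) u (Ψ u) ζ y σ ∧ 1 < ‖dF n u (k * r) y‖ := fun ζ hζ => by
      obtain ⟨y, h1, h2⟩ := hD _ u ζ _ (hj u hu') hP (hT ζ hζ).1 (hper k ζ hζ)
      obtain ⟨h3, σ, h4, h5⟩ := hC _ u ζ y _ (hj u hu') hP (hT ζ hζ).1 (hper k ζ hζ) h1 h2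
      refine ⟨y, σ, h4, lt_of_le_of_ne h3 fun e => hE ⟨hu', ζ, hζ, y, h1, ?_, h2⟩⟩
      have h6 := hC' _ u y _ {ζ} (fun _ => σ) (hj u hu') hP
        (by simpa using ⟨(hT ζ hζ).1, hper k ζ hζ, h4⟩) h3
      rw [← e, Real.log_one, mul_zero, Finset.sum_singleton] at h6
      rw [← h5, norm_eq_zero.mp (pow_eq_zero_iff two_ne_zero |>.mp (le_antisymm h6 (by positivity))),
        exp_zero]
    choose! y σ h1 using h1
    have h2 : ∀ ε > 0, ∃ v w t, ‖v - u‖ < ε ∧ (∀ ζ ∈ T, ‖w - y ζ‖ < ε) ∧ ‖t - avg T r σ‖ < ε ∧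
        G t = (v, w) := fun ε hε => by
      obtain ⟨v, ⟨hv, w, σ'', e4, -, e5⟩, e0, e3⟩ := ((mem_closure_iff_frequently.mp hu).and_eventually
        ((eventually_nhdsWithin_iff.mp (stab u hu' y σ h1 ε hε)).and (ball_mem_nhds u hε))).exists
      obtain ⟨y', σ', e1, e2⟩ := e0 hv
      have e6 : ∀ ζ ∈ T, w = y' ζ := fun ζ hζ =>
        tendsto_nhds_unique (e4 ζ hζ).lands (e1 ζ hζ).1.lands
      refine ⟨v, w, _, mem_ball_iff_norm.mp e3, fun ζ hζ => e6 ζ hζ ▸ (e1 ζ hζ).2, e2, ?_⟩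
      rw [← e5, avg, avg, Finset.sum_congr rfl fun ζ hζ =>
        (e1 ζ hζ).1.rot.unique (e6 ζ hζ ▸ (e4 ζ hζ).rot)]
    have h3 : ∀ ζ ∈ T, y ζ = y ζ₀ := fun ζ hζ => eq_of_forall_dist_le fun ε hε => by
      obtain ⟨-, w, -, -, e, -⟩ := h2 _ (half_pos hε)
      linarith [dist_triangle_left (y ζ) (y ζ₀) w, dist_eq_norm w _ ▸ e ζ hζ,
        dist_eq_norm w _ ▸ e ζ₀ hζ₀]
    have h4 : ∀ ζ ∈ T, Land n (k * r) u (Ψ u) ζ (y ζ₀) (σ ζ) := fun ζ hζ => h3 ζ hζ ▸ (h1 ζ hζ).1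
    have h5 := avg_mem hn hC hC' (hj u hu') hk hr hT0 (hl h4) (h1 ζ₀ hζ₀).2 hDe
    refine ⟨hu', y ζ₀, σ, h4, h5, eq_of_forall_dist_le fun ε hε => ?_⟩
    obtain ⟨δ, hδ, h6⟩ := Metric.continuousAt_iff.mp (hGc.continuousAt (isOpen_ball.mem_nhds h5)) _
      (half_pos hε)
    obtain ⟨v, w, t, e1, e2, e3, e4⟩ := h2 _ (lt_min hδ (half_pos hε))
    have e5 := h6 (x := t) (dist_eq_norm t _ ▸ (lt_min_iff.mp e3).1)
    have e6 : dist (G t) (u, y ζ₀) < ε / 2 := by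
      rw [e4, Prod.dist_eq, max_lt_iff, dist_eq_norm, dist_eq_norm]
      exact ⟨(lt_min_iff.mp e1).2, (lt_min_iff.mp (e2 ζ₀ hζ₀)).2⟩
    linarith [dist_triangle_left (G (avg T r σ)) (u, y ζ₀) (G t)]

end Pool.Agent.Lib.MP_c35c17_an.L
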