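import Pool.Agent.Lib.MP_c35c17_an.RBlue

/-! From almost rotations to an almost regular polygon. -/

set_option autoImplicit false

open Filter Topology Set Metric Complex

namespace Pool.Agent.Lib.MP_c35c17_an.R

namespace T86

theorem cau {f : ℂ → ℂ} {p : ℂ} {r e : ℝ} (hf : DifferentiableOn ℂ f (ball 0 1)) (hr : 0 < r)
    (hp : ‖p‖ + r < 1) (he : ∀ w, ‖w‖ ≤ ‖p‖ + r → ‖f w‖ ≤ e) : ‖deriv f p‖ ≤ e / r := by
  have a : ∀ w ∈ closedBall p r, ‖w‖ ≤ ‖p‖ + r := fun w hw => norm_le_of_mem_closedBall hw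
  exact norm_deriv_le_of_forall_mem_sphere_norm_le hr (hf.mono fun w hw =>
    mem_ball_zero_iff.2 ((a w (closure_ball_subset_closedBall hw)).trans_lt hp)).diffContOnCl
    fun w hw => he w (a w (sphere_subset_closedBall hw))

theorem root {m : ℕ} {lam : ℂ} {ε : ℝ} (hm : 0 < m) (h : ‖lam ^ m - 1‖ ≤ ε) (hε : ε ≤ 1 / 2) :
    ∃ ζ : ℂ, ζ ^ m = 1 ∧ ∀ j ≤ m, ‖lam ^ j - ζ ^ j‖ ≤ 3 * ε := by
  have m0 : (m : ℂ) ≠ 0 := Nat.cast_ne_zero.2 hm.ne'
  have l0 : lam ^ m ≠ 0 := fun e => by rw [e] at h; norm_num at h; linarith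
  have t1 : ‖log (lam ^ m)‖ ≤ 3 / 2 * ε := by
    have := norm_log_one_add_half_le_self (h.trans hε)
    rw [add_sub_cancel] at this
    linarith
  have z : (lam * exp (-(log (lam ^ m) / m))) ^ m = 1 := by
    rw [mul_pow, ← exp_nat_mul, mul_neg, mul_div_cancel₀ _ m0, exp_neg, exp_log l0,
      mul_inv_cancel₀ l0]
  refine ⟨_, z, fun j hj => ?_⟩
  have n1 := norm_eq_one_of_pow_eq_one z hm.ne'
  have e : lam ^ j - (lam * exp (-(log (lam ^ m) / m))) ^ j =
      (lam * exp (-(log (lam ^ m) / m))) ^ j * (exp (j * (log (lam ^ m) / m)) - 1) := by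
    rw [mul_sub, mul_one, exp_nat_mul, ← mul_pow, mul_assoc, ← exp_add, neg_add_cancel, exp_zero,
      mul_one]
  have t2 : ‖(j : ℂ) * (log (lam ^ m) / m)‖ ≤ 3 / 2 * ε := by
    rw [mul_div_left_comm, norm_mul, norm_div, norm_natCast, norm_natCast]
    exact (mul_le_of_le_one_right (norm_nonneg _)
      (div_le_one_of_le₀ (Nat.cast_le.2 hj) (Nat.cast_nonneg _))).trans t1
  rw [e, norm_mul, norm_pow, n1, one_pow, one_mul]
  linarith [norm_exp_sub_one_le (t2.trans (by linarith))]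

theorem steps {m : ℕ} {p v : ℕ → ℂ} {e : ℝ} (hm : 0 < m) (he : 0 ≤ e) (h3 : 3 * m * e ≤ 1)
    (h1 : ∀ i, p (i + 1) = p i + v i) (h2 : ∀ i, ‖v i - v 0‖ ≤ e * ‖p i - p 0‖)
    (h0 : p m = p 0) : v 0 = 0 := by
  have k : ∀ i ≤ m, ‖p i - p 0 - i * v 0‖ ≤ i / 2 * ‖v 0‖ := fun i => by
    induction i with
    | zero => simp
    | succ i ih =>
      intro hi
      have a := ih (Nat.le_of_succ_le hi)
      have b : ‖p i - p 0‖ ≤ i / 2 * ‖v 0‖ + i * ‖v 0‖ := by
        have := norm_add_le (p i - p 0 - i * v 0) (i * v 0)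
        rw [sub_add_cancel, norm_mul, norm_natCast] at this
        linarith
      have c : (i : ℝ) ≤ m := Nat.cast_le.2 (Nat.le_of_succ_le hi)
      have d := (h2 i).trans (mul_le_mul_of_nonneg_left b he)
      have f : 3 * i * e * ‖v 0‖ ≤ 1 * ‖v 0‖ :=
        mul_le_mul_of_nonneg_right (by nlinarith) (norm_nonneg _)
      rw [show p (i + 1) - p 0 - ((i + 1 : ℕ) : ℂ) * v 0 = p i - p 0 - i * v 0 + (v i - v 0) by
        rw [h1]; push_cast; ring]
      push_cast
      linarith [norm_add_le (p i - p 0 - i * v 0) (v i - v 0)]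
  have a := k m le_rfl
  rw [h0, sub_self, zero_sub, norm_neg, norm_mul, norm_natCast] at a
  have : (0 : ℝ) < m := Nat.cast_pos.2 hm
  exact norm_le_zero_iff.1 (by nlinarith [norm_nonneg (v 0)])

end T86

open T86 in
theorem st_POLY : St_POLY := by
  intro m lam z a G ε η h ε0 η0 hs
  have m2 : (2 : ℝ) ≤ m := by exact_mod_cast h.two
  have m0 : 0 < m := lt_of_lt_of_le two_pos h.two
  have z0 : 0 < ‖z 0‖ := norm_pos_iff.2 h.ne
  have η1 : η ≤ 1 := by linarith [h.le 0]
  have zb : ∀ j, z j ∈ ball (0 : ℂ) 1 := fun j => mem_ball_zero_iff.2 (by linarith [h.le j])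
  set x := ε / η ^ 2 with hx
  have x0 : 0 ≤ x := by positivity
  have x1 : 1000 * m ^ 2 * x ≤ 1 := by
    rw [hx, ← mul_div_assoc, div_le_one (by positivity)]; exact hs
  have x2 : x ≤ 1 / 4000 := by
    linarith [mul_le_mul_of_nonneg_right (show (4 : ℝ) ≤ m ^ 2 by nlinarith) x0]
  have x3 : ε ≤ x := le_div_self ε0 (by positivity) (by nlinarith)
  have x4 : 4 * ε / (η / 4) ≤ 16 * x := by
    rw [hx, ← mul_div_assoc, div_le_div_iff₀ (by positivity) (by positivity)]
    nlinarith [mul_nonneg (mul_nonneg ε0 η0.le) (sub_nonneg.2 η1)]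
  obtain ⟨ζ, ζ1, ζ2⟩ := root (lam := lam) (ε := ε) m0 (by
    have := h.near m le_rfl _ (zb 0)
    rw [h.orb m le_rfl, h.per, ← norm_neg, neg_sub, ← sub_one_mul, norm_mul] at this
    exact le_of_mul_le_mul_right this z0) (by linarith)
  have n1 := norm_eq_one_of_pow_eq_one ζ1 m0.ne'
  have u0 : ∀ j ≤ m, ∀ w ∈ ball (0 : ℂ) 1, ‖G j w - ζ ^ j * w‖ ≤ 4 * ε * ‖w‖ := fun j hj w hw => by
    have := norm_add_le (G j w - lam ^ j * w) ((lam ^ j - ζ ^ j) * w)
    rw [norm_mul, show G j w - lam ^ j * w + (lam ^ j - ζ ^ j) * w = G j w - ζ ^ j * w by ring]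
      at this
    linarith [h.near j hj w hw, mul_le_mul_of_nonneg_right (ζ2 j hj) (norm_nonneg w)]
  have ud : ∀ j ≤ m, DifferentiableOn ℂ (fun w => G j w - ζ ^ j * w) (ball 0 1) := fun j hj =>
    (h.diff j hj).sub (by fun_prop)
  have u1 : ∀ j ≤ m, ∀ p : ℂ, ‖p‖ ≤ 1 - η / 2 →
      ‖deriv (fun w => G j w - ζ ^ j * w) p‖ ≤ 4 * ε / (η / 4) := fun j hj p hp =>
    cau (ud j hj) (by positivity) (by linarith) fun w hw =>
      (u0 j hj w (mem_ball_zero_iff.2 (by linarith))).trans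
        (mul_le_of_le_one_right (by positivity) (by linarith))
  have dd : ∀ j ≤ m, ∀ p ∈ ball (0 : ℂ) 1,
      deriv (fun w => G j w - ζ ^ j * w) p = deriv (G j) p - ζ ^ j := fun j hj p hp => by
    simpa using (((h.diff j hj).differentiableAt (isOpen_ball.mem_nhds hp)).hasDerivAt.fun_sub
      ((hasDerivAt_id p).const_mul (ζ ^ j))).deriv
  have e6 : 600 * ε / η ^ 2 = 600 * x := mul_div_assoc _ _ _
  rw [e6]
  have nr : ∀ j ≤ m, ‖z j - ζ ^ j * z 0‖ ≤ 4 * ε * ‖z 0‖ := fun j hj => by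
    simpa only [h.orb j hj, zero_add] using u0 j hj _ (zb 0)
  refine ⟨ζ, ⟨h.two, IsPrimitiveRoot.mk_of_lt ζ m0 ζ1 fun j j0 jm e => h.inj j j0 jm ?_, h.ne,
    fun j hj => (nr j hj.le).trans (mul_le_mul_of_nonneg_right (by linarith) z0.le),
    fun j _ => mem_ball_zero_iff.1 (zb j), fun j hj => ?_⟩, fun w hw => ?_⟩
  · have := steps (p := fun i => z (i * j)) (v := fun i => G j (z (i * j)) - ζ ^ j * z (i * j))
      (e := 16 * x) m0 (by positivity) (by nlinarith)
      (fun i => by rw [e, h.orb j jm.le, Nat.succ_mul]; ring)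
      (fun i => (convex_closedBall (0 : ℂ) (1 - η)).norm_image_sub_le_of_norm_deriv_le
        (fun p hp => (ud j jm.le).differentiableAt (isOpen_ball.mem_nhds
          (mem_ball_zero_iff.2 (by linarith [mem_closedBall_zero_iff.1 hp]))))
        (fun p hp => (u1 j jm.le p (by linarith [mem_closedBall_zero_iff.1 hp])).trans x4)
        (mem_closedBall_zero_iff.2 (h.le _)) (mem_closedBall_zero_iff.2 (h.le _)))
      (by
        have : ∀ i, z (m * i) = z 0 := fun i => by
          induction i with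
          | zero => rfl
          | succ i ih => rw [Nat.mul_succ, h.per, ih]
        simpa using this j)
    rw [e, zero_mul, h.orb j jm.le, zero_add, one_mul] at this
    exact sub_eq_zero.1 this
  · have d1 := (u1 j hj.le (z 0) (by linarith [h.le 0])).trans x4
    have d2 := cau (p := z 0) (r := η / 4) ((ud j hj.le).deriv isOpen_ball) (by positivity)
      (by linarith [h.le 0]) fun w hw => u1 j hj.le w (by linarith [h.le 0])
    have d3 : deriv (deriv fun w => G j w - ζ ^ j * w) (z 0) = deriv (deriv (G j)) (z 0) := by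
      rw [← deriv_sub_const (f := deriv (G j)) (ζ ^ j)]
      exact EventuallyEq.deriv_eq ((isOpen_ball.eventually_mem (zb 0)).mono (dd j hj.le))
    rw [dd j hj.le _ (zb 0)] at d1
    rw [d3, show 4 * ε / (η / 4) / (η / 4) = 64 * x by rw [hx]; field_simp; ring] at d2
    have c := h.coc j hj
    rw [act] at c
    have nj : ‖ζ ^ j‖ = 1 := by rw [norm_pow, n1, one_pow]
    have g1 : 1 / 2 ≤ ‖deriv (G j) (z 0)‖ := by
      have := norm_sub_norm_le (ζ ^ j) (deriv (G j) (z 0))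
      rw [norm_sub_rev] at this
      linarith
    have g2 : ‖z 0‖ ≤ 2 * ‖z j‖ := by
      have := norm_sub_norm_le (ζ ^ j * z 0) (z j)
      rw [norm_sub_rev, norm_mul, nj] at this
      nlinarith [nr j hj.le]
    have g3 : ‖z 0 * (deriv (deriv (G j)) (z 0) / deriv (G j) (z 0))‖ ≤ 128 * x := by
      rw [norm_mul, norm_div]
      refine (mul_le_of_le_one_left (by positivity) (by linarith [h.le 0])).trans ?_
      rw [div_le_iff₀ (by linarith)]
      nlinarith
    have g4 : ‖(z j - ζ ^ j * z 0) - z 0 * (deriv (G j) (z 0) - ζ ^ j)‖ ≤ 40 * x * ‖z j‖ := by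
      refine (norm_sub_le _ _).trans ?_
      rw [norm_mul]
      nlinarith [nr j hj.le, mul_le_mul_of_nonneg_left d1 z0.le]
    rw [← c, show z j * a j - z 0 * (deriv (deriv (G j)) (z 0) / deriv (G j) (z 0) +
      a j * deriv (G j) (z 0)) = ((z j - ζ ^ j * z 0) - z 0 * (deriv (G j) (z 0) - ζ ^ j)) * a j -
        z 0 * (deriv (deriv (G j)) (z 0) / deriv (G j) (z 0)) by ring]
    refine (norm_sub_le _ _).trans ?_
    rw [norm_mul, norm_mul (z j)]
    nlinarith [mul_le_mul_of_nonneg_right g4 (norm_nonneg (a j)),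
      mul_nonneg x0 (mul_nonneg (norm_nonneg (z j)) (norm_nonneg (a j)))]
  · have := u0 m le_rfl w hw
    rw [ζ1, one_mul] at this
    exact this.trans (mul_le_mul_of_nonneg_right (by linarith) (norm_nonneg w))

end Pool.Agent.Lib.MP_c35c17_an.R
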